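import Pool.Agent.Lib.MP_0bb3d8_nt.HohDecomp

/-!
# Assembly of the Hoheisel type theorem
-/

set_option autoImplicit false

namespace Hoh

open Finset Real Filter Topology

/-- The trilinear estimate (M6) for the bump `φ`. -/
def TriStmt (φ : ℝ → ℝ) : Prop :=
  ∀ (η ε : ℝ) (G : ℝ → ℝ), 0 < η → η ≤ 1 → 0 < ε → Cut ε G → ∀ k : ℕ, 2 ≤ k →
    ∀ ε' : ℝ, 0 < ε' → ∃ d₀ : ℝ, 0 < d₀ ∧ ∀ d : ℝ, 0 < d → d ≤ d₀ → ∃ x₀ : ℝ, ∀ x : ℝ, x₀ ≤ x →
      ∀ b : ArithmeticFunction ℝ, (∀ n, |b n| ≤ 1) → (∀ n, b n ≠ 0 → n.Prime ∧ x ^ η < n) →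
        |ST φ (1 / Real.log x) (x ^ d) x (b * g1 G (η * Real.log x) ^ k) -
          ST φ (1 / Real.log x) (1 / 4) x (b * g1 G (η * Real.log x) ^ k)| ≤ ε' / Real.log x

/-- The comparison of short and long sums of `gg`. -/
def GdiffStmt (φ : ℝ → ℝ) : Prop :=
  ∃ C c : ℝ, 0 < C ∧ 0 < c ∧ ∀ η : ℝ, 0 < η → η ≤ 1 / 10 → ∀ G : ℝ → ℝ, Cut (η ^ 2) G →
    ∃ x₀ : ℝ, ∀ x : ℝ, x₀ ≤ x → ∀ T : ℝ, 1 / 4 ≤ T → T ≤ x ^ (1 / 8 : ℝ) → ∀ X : ℝ,
      Real.sqrt x ≤ X → X ≤ x →
      |ST φ (1 / Real.log x) T X (gg G (η * Real.log x)) -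
        ST φ (1 / Real.log x) (1 / 4) X (gg G (η * Real.log x))| ≤
        C * (η + Real.exp (-c / η) / η) / Real.log x

/-- Products of two primes beyond `√x` are negligible. -/
def GtgtStmt (φ : ℝ → ℝ) : Prop :=
  ∃ C : ℝ, 0 < C ∧ ∃ x₀ : ℝ, ∀ x : ℝ, x₀ ≤ x → ∀ T : ℝ, 1 / 4 ≤ T → T ≤ x ^ (1 / 8 : ℝ) →
    ∀ b : ArithmeticFunction ℝ, (∀ n, |b n| ≤ 1) → (∀ n, b n ≠ 0 → n.Prime ∧ Real.sqrt x < n) →
      |ST φ (1 / Real.log x) T x (b * b)| ≤ C / (Real.log x) ^ 2

/-- Chebyshev in long windows. -/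
def ChebStmt (φ : ℝ → ℝ) : Prop :=
  ∃ c x₀ : ℝ, 0 < c ∧ ∀ x : ℝ, x₀ ≤ x → c / Real.log x ≤ ST φ (1 / Real.log x) (1 / 4) x primeInd

/-- Existence of cut-off functions. -/
theorem exists_cut {ε : ℝ} (hε : 0 < ε) : ∃ G : ℝ → ℝ, Cut ε G := by
  refine ⟨fun v => Real.smoothTransition ((v - 1) / ε), ?_, ?_, ?_, ?_, ?_⟩
  · exact Real.smoothTransition.contDiff.comp (by fun_prop)
  · intro v; exact Real.smoothTransition.nonneg _
  · intro v; exact Real.smoothTransition.le_one _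
  · intro v hv
    apply Real.smoothTransition.zero_of_nonpos
    apply div_nonpos_of_nonpos_of_nonneg _ hε.le
    linarith
  · intro v hv
    apply Real.smoothTransition.one_of_one_le
    rw [le_div_iff₀ hε]
    linarith

theorem exists_bump : ∃ φ : ℝ → ℝ, Bump φ := by
  refine ⟨fun v => Real.smoothTransition (20 * v - 1) * Real.smoothTransition (19 - 20 * v),
    ?_, ?_, ?_, ?_, ?_⟩
  · exact (Real.smoothTransition.contDiff.comp (by fun_prop)).mul
      (Real.smoothTransition.contDiff.comp (by fun_prop))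
  · intro v; exact mul_nonneg (Real.smoothTransition.nonneg _) (Real.smoothTransition.nonneg _)
  · intro v
    exact mul_le_one₀ (Real.smoothTransition.le_one _) (Real.smoothTransition.nonneg _)
      (Real.smoothTransition.le_one _)
  · intro v hv
    rcases hv with hv | hv
    · show Real.smoothTransition (20 * v - 1) * Real.smoothTransition (19 - 20 * v) = 0
      rw [Real.smoothTransition.zero_of_nonpos (by linarith), zero_mul]
    · show Real.smoothTransition (20 * v - 1) * Real.smoothTransition (19 - 20 * v) = 0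
      rw [Real.smoothTransition.zero_of_nonpos (x := 19 - 20 * v) (by linarith), mul_zero]
  · intro v h1 h2
    show Real.smoothTransition (20 * v - 1) * Real.smoothTransition (19 - 20 * v) = 1
    rw [Real.smoothTransition.one_of_one_le (by linarith),
      Real.smoothTransition.one_of_one_le (by linarith), one_mul]

/-- The short sum over primes bounded by a count. -/
theorem ST_prim_le {φ : ℝ → ℝ} (hφ : Bump φ) {s T X : ℝ} (hs : 0 ≤ s) (hT : 20 ≤ T)
    (hX : 1 ≤ X) :
    ST φ s T X primeInd ≤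
      T / X * (((Finset.Ioc ⌊X⌋₊ ⌊X + X / T⌋₊).filter Nat.Prime).card : ℝ) := by
  have hT0 : 0 < T := by linarith
  have hX0 : 0 < X := by linarith
  have hN := Nat.le_ceil (X * Real.exp (1 / T))
  rw [ST_eq_sum' hφ hT0 hX0 primeInd hN]
  have hexp : Real.exp (19 / 20 / T) ≤ 1 + 1 / T := by
    have h1 : |(19 / 20 / T : ℝ)| ≤ 1 := by
      rw [abs_of_pos (by positivity), div_le_one hT0]
      linarith
    have h2 := Real.abs_exp_sub_one_sub_id_le h1
    have h3 := (abs_le.mp h2).2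
    have h4 : (19 / 20 / T : ℝ) ^ 2 ≤ 1 / 20 / T := by
      have : (1 : ℝ) / T ≤ 1 / 20 := one_div_le_one_div_of_le (by norm_num) hT
      have h5 : (0 : ℝ) < 1 / T := by positivity
      have e1 : (19 / 20 / T : ℝ) = 19 / 20 * (1 / T) := by ring
      have e2 : (1 / 20 / T : ℝ) = 1 / 20 * (1 / T) := by ring
      rw [e1, e2]
      nlinarith
    have e3 : (19 / 20 / T : ℝ) + 1 / 20 / T = 1 / T := by field_simp; norm_num
    linarith
  have hterm : ∀ n ∈ Finset.Icc 1 ⌈X * Real.exp (1 / T)⌉₊,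
      primeInd n * (n : ℝ) ^ (-(1 + s)) * (T * φ (T * Real.log (n / X))) ≤
      if n ∈ (Finset.Ioc ⌊X⌋₊ ⌊X + X / T⌋₊).filter Nat.Prime then T / X else 0 := by
    intro n hn
    by_cases hp : n.Prime
    · by_cases hv : φ (T * Real.log (n / X)) = 0
      · rw [hv]
        simp only [mul_zero]
        split_ifs <;> positivity
      · obtain ⟨h1, -⟩ := hφ.support hT0 hX0 hv
        have hn0 : (0 : ℝ) < n := lt_trans hX0 h1
        have h2 : T * Real.log (n / X) < 19 / 20 := by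
          by_contra hcon
          push Not at hcon
          exact hv (hφ.zero _ (Or.inr hcon))
        have h3 : Real.log (n / X) < 19 / 20 / T := by
          rw [lt_div_iff₀ hT0]
          linarith
        have h4 : (n : ℝ) / X < Real.exp (19 / 20 / T) := by
          rwa [Real.log_lt_iff_lt_exp (by positivity)] at h3
        have h5 : (n : ℝ) ≤ X + X / T := by
          have h6 : (n : ℝ) < Real.exp (19 / 20 / T) * X := by rwa [div_lt_iff₀ hX0] at h4
          have h7 : Real.exp (19 / 20 / T) * X ≤ (1 + 1 / T) * X := by gcongr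
          have h8 : (1 + 1 / T) * X = X + X / T := by ring
          linarith
        have hmem : n ∈ (Finset.Ioc ⌊X⌋₊ ⌊X + X / T⌋₊).filter Nat.Prime := by
          rw [Finset.mem_filter, Finset.mem_Ioc, Nat.floor_lt hX0.le]
          exact ⟨⟨h1, Nat.le_floor h5⟩, hp⟩
        rw [if_pos hmem, primeInd_apply, if_pos hp]
        have h6 : (n : ℝ) ^ (-(1 + s)) ≤ 1 / X := by
          rw [Real.rpow_neg hn0.le, one_div]
          apply inv_anti₀ hX0
          calc X ≤ n := h1.le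
            _ = (n : ℝ) ^ (1 : ℝ) := (Real.rpow_one _).symm
            _ ≤ (n : ℝ) ^ (1 + s) := by
              apply Real.rpow_le_rpow_of_exponent_le (by linarith) (by linarith)
        have h7 := hφ.nonneg (T * Real.log (n / X))
        have h8 := hφ.le_one (T * Real.log (n / X))
        calc 1 * (n : ℝ) ^ (-(1 + s)) * (T * φ (T * Real.log (n / X)))
            ≤ 1 * (1 / X) * (T * 1) := by gcongr
          _ = T / X := by ring
    · rw [primeInd_apply, if_neg hp]
      simp only [zero_mul]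
      split_ifs <;> positivity
  refine (Finset.sum_le_sum hterm).trans ?_
  rw [← Finset.sum_filter, Finset.sum_const, nsmul_eq_mul, mul_comm]
  apply mul_le_mul_of_nonneg_left _ (by positivity)
  have : (Finset.Icc 1 ⌈X * Real.exp (1 / T)⌉₊).filter
      (fun n => n ∈ (Finset.Ioc ⌊X⌋₊ ⌊X + X / T⌋₊).filter Nat.Prime) ⊆
      (Finset.Ioc ⌊X⌋₊ ⌊X + X / T⌋₊).filter Nat.Prime := by
    intro n hn
    exact (Finset.mem_filter.mp hn).2
  exact_mod_cast Finset.card_le_card this

theorem g1_props {ε : ℝ} {G : ℝ → ℝ} (hG : Cut ε G) {η x : ℝ} (hx : 0 < x)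
    (hL : 0 < η * Real.log x) :
    (∀ n, |g1 G (η * Real.log x) n| ≤ 1) ∧
    (∀ n, g1 G (η * Real.log x) n ≠ 0 → n.Prime ∧ x ^ η < n) := by
  constructor
  · intro n
    rw [g1_apply]
    split_ifs
    · rw [abs_of_nonneg (hG.nonneg _)]
      exact hG.le_one _
    · simp
  · intro n hn
    rw [g1_apply] at hn
    by_cases hp : n.Prime
    · rw [if_pos hp] at hn
      refine ⟨hp, ?_⟩
      have hn0 : (0 : ℝ) < n := by exact_mod_cast hp.pos
      have h1 : 1 < Real.log n / (η * Real.log x) := by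
        by_contra hcon
        push Not at hcon
        exact hn (hG.zero _ hcon)
      rw [lt_div_iff₀ hL, one_mul] at h1
      rw [Real.rpow_def_of_pos hx, ← Real.lt_log_iff_exp_lt hn0]
      linarith
    · rw [if_neg hp] at hn
      exact absurd rfl hn

theorem S_bound {C : ℝ}
    (hR : ∀ y z : ℝ, 2 ≤ y → y ≤ z →
      ∑ p ∈ (Finset.Ioc ⌊y⌋₊ ⌊z⌋₊).filter Nat.Prime, 1 / (p : ℝ) ≤
        C * (Real.log (Real.log z / Real.log y) + 1 / Real.log y)) (hC : 0 < C)
    {ε : ℝ} {G : ℝ → ℝ} (hG : Cut ε G) {η x : ℝ} (hx : 1 < x) (hη : 0 < η) (hη2 : η ≤ 1 / 10)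
    (hL : 1 ≤ η * Real.log x) :
    ∑ d ∈ Finset.Icc 1 ⌊Real.sqrt x⌋₊, cutLo (Real.sqrt x) (g1 G (η * Real.log x)) d / d ≤
      C * (Real.log (1 / (2 * η)) + 1) := by
  have hx0 : 0 < x := by linarith
  have hlx : 0 < Real.log x := Real.log_pos hx
  have hlogy : Real.log (x ^ η) = η * Real.log x := Real.log_rpow hx0 η
  have hy2 : 2 ≤ x ^ η := by
    have h1 : Real.exp 1 ≤ x ^ η := by
      rw [← Real.le_log_iff_exp_le (by positivity), hlogy]
      exact hL
    have h2 := Real.add_one_le_exp 1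
    linarith
  have hyz : x ^ η ≤ Real.sqrt x := by
    rw [Real.sqrt_eq_rpow]
    apply Real.rpow_le_rpow_of_exponent_le hx.le
    linarith
  have hsx : 0 < Real.sqrt x := Real.sqrt_pos.mpr hx0
  have h1 := hR (x ^ η) (Real.sqrt x) hy2 hyz
  rw [hlogy, Real.log_sqrt hx0.le] at h1
  have h2 : Real.log x / 2 / (η * Real.log x) = 1 / (2 * η) := by field_simp
  rw [h2] at h1
  have h3 : 1 / (η * Real.log x) ≤ 1 := by rw [div_le_one (by positivity)]; exact hL
  have h4 : C * (Real.log (1 / (2 * η)) + 1 / (η * Real.log x)) ≤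
      C * (Real.log (1 / (2 * η)) + 1) := by gcongr
  refine le_trans ?_ (h1.trans h4)
  rw [← Finset.sum_subset (s₁ := (Finset.Ioc ⌊x ^ η⌋₊ ⌊Real.sqrt x⌋₊).filter Nat.Prime)]
  · apply Finset.sum_le_sum
    intro p hp
    have hp' := (Finset.mem_filter.mp hp).2
    have hp0 : (0 : ℝ) < p := by exact_mod_cast hp'.pos
    rw [cutLo_apply]
    have : (if (p : ℝ) ≤ Real.sqrt x then g1 G (η * Real.log x) p else 0) ≤ 1 := by
      split_ifs
      · rw [g1_apply, if_pos hp']
        exact hG.le_one _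
      · norm_num
    gcongr
  · intro p hp
    rw [Finset.mem_filter, Finset.mem_Ioc] at hp
    rw [Finset.mem_Icc]
    omega
  · intro p hp hnot
    rw [cutLo_apply]
    by_cases hc : (p : ℝ) ≤ Real.sqrt x
    · rw [if_pos hc]
      by_cases h0 : g1 G (η * Real.log x) p = 0
      · rw [h0, zero_div]
      · exfalso
        obtain ⟨hpp, hpy⟩ := (g1_props hG hx0 (by positivity)).2 p h0
        apply hnot
        rw [Finset.mem_filter, Finset.mem_Ioc, Nat.floor_lt (by positivity)]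
        exact ⟨⟨hpy, (Finset.mem_Icc.mp hp).2⟩, hpp⟩
    · rw [if_neg hc, zero_div]

/-- Choice of `η`. -/
theorem exists_eta (C₁ c₁ C₂ κ : ℝ) (hC₁ : 0 < C₁) (hc₁ : 0 < c₁) (hC₂ : 0 < C₂) (hκ : 0 < κ) :
    ∃ η : ℝ, 0 < η ∧ η ≤ 1 / 10 ∧
      C₁ * (η + Real.exp (-c₁ / η) / η) * (1 + C₂ * (Real.log (1 / (2 * η)) + 1)) ≤ κ := by
  set A := C₁ * (1 + 2 / c₁ ^ 2) * (1 + 3 * C₂) with hA
  have hA0 : 0 < A := by positivity
  refine ⟨min (1 / 10) ((κ / A) ^ 2), by positivity, min_le_left _ _, ?_⟩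
  set η := min (1 / 10 : ℝ) ((κ / A) ^ 2) with hη
  have hη0 : 0 < η := by positivity
  have hη1 : η ≤ 1 / 10 := min_le_left _ _
  have hη2 : η ≤ (κ / A) ^ 2 := min_le_right _ _
  have hsq : Real.sqrt η ≤ κ / A := by
    rw [Real.sqrt_le_left (by positivity)]
    exact hη2
  have hsq0 : 0 < Real.sqrt η := Real.sqrt_pos.mpr hη0
  have hsqsq : Real.sqrt η * Real.sqrt η = η := Real.mul_self_sqrt hη0.le
  have hsq1 : Real.sqrt η ≤ 1 := by
    rw [Real.sqrt_le_left (by norm_num)]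
    linarith
  have h1 : Real.exp (-c₁ / η) / η ≤ 2 / c₁ ^ 2 * η := by
    have h2 : (c₁ / η) ^ 2 / 2 ≤ Real.exp (c₁ / η) := by
      have := Real.quadratic_le_exp_of_nonneg (x := c₁ / η) (by positivity)
      have h3 : 0 < c₁ / η := by positivity
      linarith
    have h4 : Real.exp (-c₁ / η) = (Real.exp (c₁ / η))⁻¹ := by
      rw [← Real.exp_neg]; congr 1; ring
    rw [h4, div_le_iff₀ hη0]
    calc (Real.exp (c₁ / η))⁻¹ ≤ ((c₁ / η) ^ 2 / 2)⁻¹ := inv_anti₀ (by positivity) h2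
      _ = 2 / c₁ ^ 2 * η * η := by field_simp
  have h2 : Real.log (1 / (2 * η)) + 1 ≤ 3 / Real.sqrt η := by
    have e1 : 1 / (2 * η) ≤ (1 / Real.sqrt η) ^ 2 := by
      rw [div_pow, one_pow, Real.sq_sqrt hη0.le]
      apply one_div_le_one_div_of_le hη0
      linarith
    have e2 : Real.log (1 / (2 * η)) ≤ Real.log ((1 / Real.sqrt η) ^ 2) :=
      Real.log_le_log (by positivity) e1
    rw [Real.log_pow] at e2
    have e3 := Real.log_le_sub_one_of_pos (x := 1 / Real.sqrt η) (by positivity)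
    push_cast at e2
    have e4 : 1 ≤ 1 / Real.sqrt η := by rw [le_div_iff₀ hsq0]; linarith
    have e5 : 3 / Real.sqrt η = 3 * (1 / Real.sqrt η) := by ring
    rw [e5]
    linarith
  have h3 : 1 + C₂ * (Real.log (1 / (2 * η)) + 1) ≤ (1 + 3 * C₂) / Real.sqrt η := by
    have e4 : 1 ≤ 1 / Real.sqrt η := by rw [le_div_iff₀ hsq0]; linarith
    calc 1 + C₂ * (Real.log (1 / (2 * η)) + 1) ≤ 1 / Real.sqrt η + C₂ * (3 / Real.sqrt η) := by
          gcongr
      _ = _ := by ring
  have h4 : C₁ * (η + Real.exp (-c₁ / η) / η) ≤ C₁ * ((1 + 2 / c₁ ^ 2) * η) := by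
    have : η + Real.exp (-c₁ / η) / η ≤ (1 + 2 / c₁ ^ 2) * η := by linarith
    gcongr
  have h5 : 0 ≤ C₁ * (η + Real.exp (-c₁ / η) / η) := by positivity
  calc C₁ * (η + Real.exp (-c₁ / η) / η) * (1 + C₂ * (Real.log (1 / (2 * η)) + 1))
      ≤ C₁ * (η + Real.exp (-c₁ / η) / η) * ((1 + 3 * C₂) / Real.sqrt η) := by gcongr
    _ ≤ C₁ * ((1 + 2 / c₁ ^ 2) * η) * ((1 + 3 * C₂) / Real.sqrt η) := by gcongr
    _ = A * (η / Real.sqrt η) := by rw [hA]; ring
    _ = A * Real.sqrt η := by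
        congr 1
        rw [div_eq_iff hsq0.ne', hsqsq]
    _ ≤ A * (κ / A) := by gcongr
    _ = κ := by field_simp

theorem hoheisel_of {φ : ℝ → ℝ} (hφ : Bump φ) (hTri : TriStmt φ) (hGd : GdiffStmt φ)
    (hGt : GtgtStmt φ) (hCh : ChebStmt φ) (hR : RecipPrimes) : HoheiselPrimes := by
  obtain ⟨c₀, x₁, hc₀, hcheb⟩ := hCh
  obtain ⟨C₁, c₁, hC₁, hc₁, hgd⟩ := hGd
  obtain ⟨C₂, hC₂, hrec⟩ := hR
  obtain ⟨C₃, hC₃, x₃, hgt⟩ := hGt
  obtain ⟨C₄, hC₄, hdec⟩ := decomp hφ
  obtain ⟨η, hη0, hη1, hηκ⟩ := exists_eta C₁ c₁ C₂ (c₀ / 8) hC₁ hc₁ hC₂ (by positivity)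
  have hη2 : (0 : ℝ) < η ^ 2 := by positivity
  obtain ⟨G, hG⟩ := exists_cut hη2
  obtain ⟨x₂, hgd'⟩ := hgd η hη0 hη1 G hG
  set S := C₂ * (Real.log (1 / (2 * η)) + 1) with hS
  have hlogη : 0 ≤ Real.log (1 / (2 * η)) := by
    apply Real.log_nonneg
    rw [le_div_iff₀ (by positivity)]
    linarith
  have hS0 : 0 ≤ S := by positivity
  set κ := C₁ * (η + Real.exp (-c₁ / η) / η) with hκ
  have hκ0 : 0 ≤ κ := by positivity
  set K := ⌈2 / η⌉₊ with hK
  have hKη : 2 ≤ (K : ℝ) * η := by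
    have := Nat.le_ceil (2 / η)
    rwa [div_le_iff₀ hη0] at this
  have hK2 : 2 ≤ K := by
    have h1 : (2 : ℝ) < K := by
      by_contra hcon
      push Not at hcon
      nlinarith
    exact_mod_cast h1.le
  set ε' := c₀ / (16 * (K + 1)) with hε'
  have hε'0 : 0 < ε' := by positivity
  -- choose d
  have hev1 : ∀ k ∈ Finset.Icc 2 K, ∀ᶠ d : ℝ in 𝓝[>] (0 : ℝ), ∀ᶠ x : ℝ in atTop,
      ∀ b : ArithmeticFunction ℝ, (∀ n, |b n| ≤ 1) → (∀ n, b n ≠ 0 → n.Prime ∧ x ^ η < n) →
        |ST φ (1 / Real.log x) (x ^ d) x (b * g1 G (η * Real.log x) ^ k) -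
          ST φ (1 / Real.log x) (1 / 4) x (b * g1 G (η * Real.log x) ^ k)| ≤
          ε' / Real.log x := by
    intro k hk
    obtain ⟨d₀, hd₀, h⟩ := hTri η (η ^ 2) G hη0 (by linarith) hη2 hG k
      (Finset.mem_Icc.mp hk).1 ε' hε'0
    filter_upwards [Ioc_mem_nhdsGT hd₀] with d hd
    obtain ⟨x₀, hx₀⟩ := h d hd.1 hd.2
    filter_upwards [eventually_ge_atTop x₀] with x hx
    exact hx₀ x hx
  have hev2 := (Finset.eventually_all (Finset.Icc 2 K)).mpr hev1
  have hev3 : ∀ᶠ d in 𝓝[>] (0 : ℝ), 0 < d ∧ d ≤ 1 / 8 := by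
    filter_upwards [Ioc_mem_nhdsGT (show (0 : ℝ) < 1 / 8 by norm_num)] with d hd
    exact hd
  obtain ⟨d, hdK, hd0, hd8⟩ := (hev2.and hev3).exists
  have hxK := (Finset.eventually_all (Finset.Icc 2 K)).mpr hdK
  -- elementary limits
  have hlog := Real.tendsto_log_atTop
  have hpow : ∀ a : ℝ, 0 < a → Tendsto (fun x : ℝ => Real.log x / x ^ a) atTop (𝓝 0) := fun a ha =>
    (isLittleO_log_rpow_atTop ha).tendsto_div_nhds_zero
  have hsmall : ∀ B κ' : ℝ, 0 < κ' → ∀ᶠ x : ℝ in atTop,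
      B * (1 / x ^ η + 1 / x ^ (1 / 8 : ℝ)) ≤ κ' / Real.log x := by
    intro B κ' hκ'
    have h1 : Tendsto (fun x : ℝ => B * (Real.log x / x ^ η + Real.log x / x ^ (1 / 8 : ℝ)))
        atTop (𝓝 (B * (0 + 0))) :=
      ((hpow η hη0).add (hpow (1 / 8) (by norm_num))).const_mul B
    rw [add_zero, mul_zero] at h1
    filter_upwards [h1.eventually_lt_const hκ', eventually_gt_atTop 1] with x hx hx1
    have hlx : 0 < Real.log x := Real.log_pos hx1
    rw [le_div_iff₀ hlx]
    calc B * (1 / x ^ η + 1 / x ^ (1 / 8 : ℝ)) * Real.log x =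
        B * (Real.log x / x ^ η + Real.log x / x ^ (1 / 8 : ℝ)) := by ring
      _ ≤ κ' := hx.le
  have hev : ∀ᶠ x : ℝ in atTop, c₀ / 2 * x ^ (1 - d) / Real.log x ≤
      (((Finset.Ioc ⌊x⌋₊ ⌊x + x ^ (1 - d)⌋₊).filter Nat.Prime).card : ℝ) := by
    filter_upwards [hxK, eventually_ge_atTop x₁, eventually_ge_atTop x₂, eventually_ge_atTop x₃,
      eventually_gt_atTop 1, hlog.eventually_ge_atTop 4, hlog.eventually_ge_atTop (1 / η),
      hsmall (C₄ * (1 + S)) (c₀ / 32) (by positivity),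
      hlog.eventually_ge_atTop (64 * C₃ / c₀),
      (tendsto_rpow_atTop hd0).eventually_ge_atTop 20] with
      x hxK' hx₁ hx₂ hx₃ hx1 hl4 hlη hsm hlC₃ hT20
    have hx0 : 0 < x := by linarith
    have hlx : 0 < Real.log x := by linarith
    set s := 1 / Real.log x with hs
    have hs0 : 0 < s := by positivity
    have hs1 : s ≤ 1 := by rw [hs, div_le_one hlx]; linarith
    set L := η * Real.log x with hLdef
    have hL1 : 1 ≤ L := by
      rw [hLdef]
      rw [div_le_iff₀ hη0] at hlη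
      linarith
    have hL0 : 0 < L := by linarith
    have hexpL : Real.exp L = x ^ η := by
      rw [Real.rpow_def_of_pos hx0, hLdef]; congr 1; ring
    set P := g1 G L with hP
    set l := cutLo (Real.sqrt x) P with hl
    set h := cutHi (Real.sqrt x) P with hh
    set T := x ^ d with hT
    have hT0 : 0 < T := by positivity
    have hT14 : 1 / 4 ≤ T := by linarith
    have hT8 : T ≤ x ^ (1 / 8 : ℝ) := Real.rpow_le_rpow_of_exponent_le hx1.le hd8
    have h148 : (1 / 4 : ℝ) ≤ x ^ (1 / 8 : ℝ) := by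
      have : (1 : ℝ) ≤ x ^ (1 / 8 : ℝ) := Real.one_le_rpow hx1.le (by norm_num)
      linarith
    obtain ⟨hP1, hP2⟩ := g1_props hG hx0 hL0
    have hl1 : ∀ n, |l n| ≤ 1 := by
      intro n
      rw [hl, cutLo_apply]
      split_ifs
      · exact hP1 n
      · simp
    have hl2 : ∀ n, l n ≠ 0 → n.Prime ∧ x ^ η < n := by
      intro n hn
      rw [hl, cutLo_apply] at hn
      by_cases hc : (n : ℝ) ≤ Real.sqrt x
      · rw [if_pos hc] at hn; exact hP2 n hn
      · rw [if_neg hc] at hn; exact absurd rfl hn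
    have hh1 : ∀ n, |h n| ≤ 1 := by
      intro n
      rw [hh, cutHi_apply]
      split_ifs
      · simp
      · exact hP1 n
    have hh2 : ∀ n, h n ≠ 0 → n.Prime ∧ Real.sqrt x < n := by
      intro n hn
      rw [hh, cutHi_apply] at hn
      by_cases hc : (n : ℝ) ≤ Real.sqrt x
      · rw [if_pos hc] at hn; exact absurd rfl hn
      · rw [if_neg hc] at hn
        exact ⟨(hP2 n hn).1, by linarith [not_le.mp hc]⟩
    have hl0 : ∀ n, 0 ≤ l n := by
      intro n
      rw [hl, cutLo_apply]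
      split_ifs
      · rw [hP, g1_apply]
        split_ifs
        · exact hG.nonneg _
        · exact le_rfl
      · exact le_rfl
    have hsum0 : 0 ≤ 1 + ∑ d ∈ Finset.Icc 1 ⌊Real.sqrt x⌋₊, l d / d := by
      have : 0 ≤ ∑ d ∈ Finset.Icc 1 ⌊Real.sqrt x⌋₊, l d / d :=
        Finset.sum_nonneg fun d _ => div_nonneg (hl0 d) (Nat.cast_nonneg d)
      linarith
    have hSb : ∑ d ∈ Finset.Icc 1 ⌊Real.sqrt x⌋₊, l d / d ≤ S :=
      S_bound hrec hC₂ hG hx1 hη0 hη1 hL1
    -- the remainder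
    have hrem : ∀ T' : ℝ, 1 / 4 ≤ T' → T' ≤ x ^ (1 / 8 : ℝ) →
        |ST φ s T' x primeInd - (ST φ s T' x (gg G L) - ST φ s T' x (l * gg G L) +
          ∑ k ∈ Finset.Icc 2 K, (1 / (k.factorial : ℝ)) * ST φ s T' x (l * P ^ k) -
          ∑ k ∈ Finset.Icc 3 K, (1 / (k.factorial : ℝ)) * ST φ s T' x (P ^ k))| ≤
        c₀ / 32 / Real.log x + c₀ / 64 / Real.log x := by
      intro T' hT'1 hT'2
      have hT'0 : 0 < T' := by linarith
      refine (hdec (η ^ 2) G hG L s T' x K hL0 hs0 hs1 hT'1 hx1.le hK2 ?_ ?_).trans ?_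
      · rw [hLdef]
        have : (1 + η ^ 2) * η ≤ 1 / 2 := by nlinarith
        nlinarith
      · have h1 : 1 / T' ≤ 4 := by
          rw [div_le_iff₀ hT'0]; linarith
        have h2 : 2 * Real.log x ≤ (K + 1) * L := by
          rw [hLdef]
          nlinarith
        linarith
      · have hq : T' / x ^ (1 / 4 : ℝ) ≤ 1 / x ^ (1 / 8 : ℝ) := by
          rw [div_le_div_iff₀ (by positivity) (by positivity), one_mul]
          calc T' * x ^ (1 / 8 : ℝ) ≤ x ^ (1 / 8 : ℝ) * x ^ (1 / 8 : ℝ) := by gcongr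
            _ = x ^ (1 / 4 : ℝ) := by rw [← Real.rpow_add hx0]; norm_num
        have h1 : C₄ * (1 / Real.exp L + T' / x ^ (1 / 4 : ℝ)) *
            (1 + ∑ d ∈ Finset.Icc 1 ⌊Real.sqrt x⌋₊, l d / d) ≤ c₀ / 32 / Real.log x := by
          rw [hexpL]
          calc C₄ * (1 / x ^ η + T' / x ^ (1 / 4 : ℝ)) *
              (1 + ∑ d ∈ Finset.Icc 1 ⌊Real.sqrt x⌋₊, l d / d)
              ≤ C₄ * (1 / x ^ η + 1 / x ^ (1 / 8 : ℝ)) * (1 + S) := by gcongr
            _ = C₄ * (1 + S) * (1 / x ^ η + 1 / x ^ (1 / 8 : ℝ)) := by ring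
            _ ≤ _ := hsm
        have h2 : |ST φ s T' x (h * h)| ≤ c₀ / 64 / Real.log x := by
          refine (hgt x hx₃ T' hT'1 hT'2 h hh1 hh2).trans ?_
          rw [div_div, div_le_div_iff₀ (by positivity) (by positivity)]
          rw [div_le_iff₀ hc₀] at hlC₃
          have : C₃ * (64 * Real.log x) = (64 * C₃) * Real.log x := by ring
          rw [this, pow_two, ← mul_assoc]
          apply mul_le_mul_of_nonneg_right _ hlx.le
          linarith
        linarith
    have hremT := hrem T hT14 hT8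
    have hrem4 := hrem (1 / 4) le_rfl h148
    -- differences
    have hsq : Real.sqrt x ≤ x := by
      rw [Real.sqrt_le_left (by linarith)]
      nlinarith
    have hDg : |ST φ s T x (gg G L) - ST φ s (1 / 4) x (gg G L)| ≤ κ / Real.log x :=
      hgd' x hx₂ T hT14 hT8 x hsq le_rfl
    have hDlg : |ST φ s T x (l * gg G L) - ST φ s (1 / 4) x (l * gg G L)| ≤
        κ / Real.log x * S := by
      have hlM : ∀ n, ⌊Real.sqrt x⌋₊ < n → l n = 0 := by
        intro n hn
        rw [hl, cutLo_apply, if_neg]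
        push Not
        exact (Nat.floor_lt (Real.sqrt_nonneg x)).mp hn
      rw [ST_conv hφ hT0 hx0 l _ _ hlM, ST_conv hφ (by norm_num : (0 : ℝ) < 1 / 4) hx0 l _ _ hlM,
        ← Finset.sum_sub_distrib]
      refine (Finset.abs_sum_le_sum_abs _ _).trans ?_
      calc ∑ d ∈ Finset.Icc 1 ⌊Real.sqrt x⌋₊,
          |l d * (d : ℝ) ^ (-(1 + s)) * ST φ s T (x / d) (gg G L) -
            l d * (d : ℝ) ^ (-(1 + s)) * ST φ s (1 / 4) (x / d) (gg G L)|
          ≤ ∑ d ∈ Finset.Icc 1 ⌊Real.sqrt x⌋₊, κ / Real.log x * (l d / d) := by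
            apply Finset.sum_le_sum
            intro e he
            rw [Finset.mem_Icc] at he
            have he1 : (1 : ℝ) ≤ e := by exact_mod_cast he.1
            have he2 : (e : ℝ) ≤ Real.sqrt x :=
              le_trans (by exact_mod_cast he.2) (Nat.floor_le (Real.sqrt_nonneg x))
            have hXe1 : Real.sqrt x ≤ x / e := by
              rw [le_div_iff₀ (by linarith)]
              calc Real.sqrt x * e ≤ Real.sqrt x * Real.sqrt x := by gcongr
                _ = x := Real.mul_self_sqrt hx0.le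
            have hXe2 : x / e ≤ x := div_le_self hx0.le he1
            have h3 := hgd' x hx₂ T hT14 hT8 (x / e) hXe1 hXe2
            have h4 : (e : ℝ) ^ (-(1 + s)) ≤ 1 / e := by
              rw [Real.rpow_neg (by positivity), one_div]
              apply inv_anti₀ (by positivity)
              calc (e : ℝ) = (e : ℝ) ^ (1 : ℝ) := (Real.rpow_one _).symm
                _ ≤ (e : ℝ) ^ (1 + s) := by
                  apply Real.rpow_le_rpow_of_exponent_le he1 (by linarith)
            rw [← mul_sub, abs_mul, abs_mul, abs_of_nonneg (hl0 e),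
              abs_of_nonneg (by positivity : (0 : ℝ) ≤ (e : ℝ) ^ (-(1 + s)))]
            have hle := hl0 e
            calc l e * (e : ℝ) ^ (-(1 + s)) * |ST φ s T (x / e) (gg G L) -
                ST φ s (1 / 4) (x / e) (gg G L)| ≤ l e * (1 / e) * (κ / Real.log x) := by
                  gcongr
              _ = κ / Real.log x * (l e / e) := by ring
        _ = κ / Real.log x * ∑ d ∈ Finset.Icc 1 ⌊Real.sqrt x⌋₊, (l d / d) := by
            rw [Finset.mul_sum]
        _ ≤ κ / Real.log x * S := by gcongr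
    have hfac : ∀ k : ℕ, (1 / (k.factorial : ℝ)) ≤ 1 := by
      intro k
      rw [div_le_one (by positivity)]
      exact_mod_cast Nat.one_le_iff_ne_zero.mpr (Nat.factorial_ne_zero k)
    have hcard : ∀ a : ℕ, 1 ≤ a → ((Finset.Icc a K).card : ℝ) ≤ K := by
      intro a ha
      rw [Nat.card_Icc]
      exact_mod_cast (by omega : K + 1 - a ≤ K)
    have hKε : (K : ℝ) * (ε' / Real.log x) ≤ c₀ / 16 / Real.log x := by
      rw [hε']
      have : (K : ℝ) * (c₀ / (16 * (K + 1)) / Real.log x) =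
          (K / (K + 1)) * (c₀ / 16 / Real.log x) := by field_simp
      rw [this]
      have h1 : (K : ℝ) / (K + 1) ≤ 1 := by
        rw [div_le_one (by positivity)]; linarith
      calc (K : ℝ) / (K + 1) * (c₀ / 16 / Real.log x) ≤ 1 * (c₀ / 16 / Real.log x) := by gcongr
        _ = _ := one_mul _
    have hDl : |∑ k ∈ Finset.Icc 2 K, (1 / (k.factorial : ℝ)) * ST φ s T x (l * P ^ k) -
        ∑ k ∈ Finset.Icc 2 K, (1 / (k.factorial : ℝ)) * ST φ s (1 / 4) x (l * P ^ k)| ≤
        c₀ / 16 / Real.log x := by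
      rw [← Finset.sum_sub_distrib]
      refine (Finset.abs_sum_le_sum_abs _ _).trans ?_
      have h1 : ∀ k ∈ Finset.Icc 2 K, |(1 / (k.factorial : ℝ)) * ST φ s T x (l * P ^ k) -
          (1 / (k.factorial : ℝ)) * ST φ s (1 / 4) x (l * P ^ k)| ≤ ε' / Real.log x := by
        intro k hk
        rw [← mul_sub, abs_mul, abs_of_nonneg (by positivity : (0 : ℝ) ≤ 1 / (k.factorial : ℝ))]
        have h2 := hxK' k hk l hl1 hl2
        calc (1 / (k.factorial : ℝ)) * |ST φ s T x (l * P ^ k) - ST φ s (1 / 4) x (l * P ^ k)|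
            ≤ 1 * (ε' / Real.log x) := mul_le_mul (hfac k) h2 (abs_nonneg _) zero_le_one
          _ = _ := one_mul _
      refine (Finset.sum_le_sum h1).trans ?_
      rw [Finset.sum_const, nsmul_eq_mul]
      refine le_trans ?_ hKε
      have := hcard 2 (by norm_num)
      gcongr
    have hDP : |∑ k ∈ Finset.Icc 3 K, (1 / (k.factorial : ℝ)) * ST φ s T x (P ^ k) -
        ∑ k ∈ Finset.Icc 3 K, (1 / (k.factorial : ℝ)) * ST φ s (1 / 4) x (P ^ k)| ≤
        c₀ / 16 / Real.log x := by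
      rw [← Finset.sum_sub_distrib]
      refine (Finset.abs_sum_le_sum_abs _ _).trans ?_
      have h1 : ∀ k ∈ Finset.Icc 3 K, |(1 / (k.factorial : ℝ)) * ST φ s T x (P ^ k) -
          (1 / (k.factorial : ℝ)) * ST φ s (1 / 4) x (P ^ k)| ≤ ε' / Real.log x := by
        intro k hk
        rw [Finset.mem_Icc] at hk
        rw [← mul_sub, abs_mul, abs_of_nonneg (by positivity : (0 : ℝ) ≤ 1 / (k.factorial : ℝ))]
        have h2 := hxK' (k - 1) (Finset.mem_Icc.mpr ⟨by omega, by omega⟩) P hP1 hP2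
        have h3 : P * P ^ (k - 1) = P ^ k := by
          rw [← pow_succ']; congr 1; omega
        rw [h3] at h2
        calc (1 / (k.factorial : ℝ)) * |ST φ s T x (P ^ k) - ST φ s (1 / 4) x (P ^ k)|
            ≤ 1 * (ε' / Real.log x) := mul_le_mul (hfac k) h2 (abs_nonneg _) zero_le_one
          _ = _ := one_mul _
      refine (Finset.sum_le_sum h1).trans ?_
      rw [Finset.sum_const, nsmul_eq_mul]
      refine le_trans ?_ hKε
      have := hcard 3 (by norm_num)
      gcongr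
    have hκS : κ / Real.log x + κ / Real.log x * S ≤ c₀ / 8 / Real.log x := by
      have : κ / Real.log x + κ / Real.log x * S = κ * (1 + S) / Real.log x := by ring
      rw [this]
      gcongr
    have hch := hcheb x hx₁
    rw [← hs] at hch
    -- lower bound for the short sum
    have hlow : c₀ / 2 / Real.log x ≤ ST φ s T x primeInd := by
      have hq : 0 < c₀ / Real.log x := by positivity
      have e0 : c₀ / 2 / Real.log x = (1 / 2) * (c₀ / Real.log x) := by ring
      have e1 : c₀ / 8 / Real.log x = (1 / 8) * (c₀ / Real.log x) := by ring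
      have e2 : c₀ / 16 / Real.log x = (1 / 16) * (c₀ / Real.log x) := by ring
      have e3 : c₀ / 32 / Real.log x = (1 / 32) * (c₀ / Real.log x) := by ring
      have e4 : c₀ / 64 / Real.log x = (1 / 64) * (c₀ / Real.log x) := by ring
      rw [e1] at hκS
      rw [e2] at hDl hDP
      rw [e3, e4] at hremT hrem4
      rw [e0]
      have a1 := abs_le.mp hremT
      have a2 := abs_le.mp hrem4
      have a3 := abs_le.mp hDg
      have a4 := abs_le.mp hDlg
      have a5 := abs_le.mp hDl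
      have a6 := abs_le.mp hDP
      linarith [a1.1, a2.2, a3.1, a4.2, a5.1, a6.2]
    have hup := ST_prim_le hφ (s := s) hs0.le hT20 hx1.le
    have hxT : x / T = x ^ (1 - d) := by
      rw [hT, Real.rpow_sub hx0, Real.rpow_one]
    rw [hxT] at hup
    have h1 := hlow.trans hup
    have h2 : T / x = (x ^ (1 - d))⁻¹ := by
      rw [← hxT]; field_simp
    rw [h2] at h1
    have hpos : 0 < x ^ (1 - d) := by positivity
    rw [inv_mul_eq_div, le_div_iff₀ hpos] at h1
    calc c₀ / 2 * x ^ (1 - d) / Real.log x = c₀ / 2 / Real.log x * x ^ (1 - d) := by ring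
      _ ≤ _ := h1
  obtain ⟨x₀, hx₀⟩ := eventually_atTop.mp hev
  refine ⟨d, c₀ / 2, max x₀ 2, hd0, by linarith, by positivity, lt_of_lt_of_le one_lt_two
    (le_max_right _ _), ?_⟩
  intro x hx
  exact hx₀ x ((le_max_left _ _).trans hx)

end Hoh
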