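import Mathlib

/-!
# Interfaces for a Hoheisel type theorem (primes in intervals `(x, x + x^(1-δ)]`)

Each `def ... : Prop` below is the statement of one module (M1, M2, ...).  Modules which depend on
other modules take the corresponding `Prop` as a hypothesis.
-/

namespace Hoh

open Complex

/-- M1: bound for the logarithmic derivative of zeta to the right of the line `Re s = 1`. -/
def ZetaBound : Prop :=
  ∃ C : ℝ, 0 < C ∧ ∀ σ t : ℝ, 0 < σ → σ ≤ 1 → t ≠ 0 →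
    ‖deriv riemannZeta (1 + σ + t * I) / riemannZeta (1 + σ + t * I)‖ ≤
      C * (Real.log (2 + |t|) + 1 / |t|)

/-- `n` has no prime factor `≤ y`. -/
def Rough (y : ℝ) (n : ℕ) : Prop := ∀ p : ℕ, p.Prime → p ∣ n → y < p

open scoped Classical in
/-- Indicator function of the `y`-rough numbers (`n ≥ 1`), as a real arithmetic function. -/
noncomputable def rough (y : ℝ) : ArithmeticFunction ℝ :=
  ⟨fun n => if n ≠ 0 ∧ Rough y n then 1 else 0, by simp⟩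

/-- `V(y) = ∏_{p ≤ y} (1 - 1/p)`. -/
noncomputable def V (y : ℝ) : ℝ := ∏ p ∈ (Finset.Icc 1 ⌊y⌋₊).filter Nat.Prime, (1 - 1 / (p : ℝ))

/-- M2: the fundamental lemma of the sieve. -/
def FundLemma : Prop :=
  ∃ c C : ℝ, 0 < c ∧ 0 < C ∧ ∀ y D : ℝ, 2 ≤ y → y ≤ D → ∃ lp lm : ℕ → ℝ,
    (∀ d, |lp d| ≤ 1 ∧ |lm d| ≤ 1) ∧
    (∀ d, (lp d ≠ 0 ∨ lm d ≠ 0) → 1 ≤ d ∧ (d : ℝ) ≤ D) ∧
    (∀ n : ℕ, n ≠ 0 → ∑ d ∈ n.divisors, lm d ≤ rough y n ∧ rough y n ≤ ∑ d ∈ n.divisors, lp d) ∧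
    |∑ d ∈ Finset.Icc 1 ⌊D⌋₊, lp d / d - V y| ≤ C * Real.exp (-c * (Real.log D / Real.log y)) * V y ∧
    |∑ d ∈ Finset.Icc 1 ⌊D⌋₊, lm d / d - V y| ≤ C * Real.exp (-c * (Real.log D / Real.log y)) * V y

/-- M2': upper bound for `V`. -/
def VUpper : Prop := ∃ C : ℝ, 0 < C ∧ ∀ y : ℝ, 2 ≤ y → V y ≤ C / Real.log y

/-- M2'': reciprocals of primes in a range. -/
def RecipPrimes : Prop := ∃ C : ℝ, 0 < C ∧ ∀ y z : ℝ, 2 ≤ y → y ≤ z →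
    ∑ p ∈ (Finset.Ioc ⌊y⌋₊ ⌊z⌋₊).filter Nat.Prime, 1 / (p : ℝ) ≤
      C * (Real.log (Real.log z / Real.log y) + 1 / Real.log y)

/-- M3: Brun-Titchmarsh (with some constant). -/
def BrunTitchmarsh : Prop := ∃ C : ℝ, 0 < C ∧ ∀ u v : ℝ, 0 ≤ u → 2 ≤ v →
    (((Finset.Ioc ⌊u⌋₊ ⌊u + v⌋₊).filter Nat.Prime).card : ℝ) ≤ C * v / Real.log v

/-- M4: mean square of prime Dirichlet polynomials. -/
def MeanSquare : Prop := ∃ C : ℝ, 0 < C ∧ ∀ y U s : ℝ, 2 ≤ y → 1 ≤ U → U ≤ Real.sqrt y → 0 < s →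
    ∀ b : ℕ → ℂ, (∀ n, ‖b n‖ ≤ 1) → (∀ n, b n ≠ 0 → n.Prime ∧ y < n) →
    ∫ t in (-U)..U, ‖LSeries b (1 + s + t * I)‖ ^ 2 ≤ C / Real.log y

/-- A smooth cut-off function, `0` for `v ≤ 1` and `1` for `v ≥ 1 + ε`. -/
structure Cut (ε : ℝ) (G : ℝ → ℝ) : Prop where
  smooth : ContDiff ℝ (⊤ : ℕ∞) G
  nonneg : ∀ v, 0 ≤ G v
  le_one : ∀ v, G v ≤ 1
  zero : ∀ v, v ≤ 1 → G v = 0
  one : ∀ v, 1 + ε ≤ v → G v = 1

/-- The weighted prime indicator: `g1(p) = G(log p / L)`. -/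
noncomputable def g1 (G : ℝ → ℝ) (L : ℝ) : ArithmeticFunction ℝ :=
  ⟨fun n => if n.Prime then G (Real.log n / L) else 0, by simp [Nat.not_prime_zero]⟩

/-- The completely multiplicative function with `g(p) = G(log p / L)`. -/
noncomputable def gg (G : ℝ → ℝ) (L : ℝ) : ArithmeticFunction ℝ :=
  ⟨fun n => if n = 0 then 0 else (n.primeFactorsList.map (fun p => G (Real.log p / L))).prod,
    by simp⟩

/-- M5: pointwise bound for `P(s) = ∑ g1(p) p^{-s}` on `Re s = 1 + 1/log x`, `L = η log x`. -/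
def PointwiseBound : Prop := ∀ (η ε : ℝ) (G : ℝ → ℝ), 0 < η → η ≤ 1 → 0 < ε → Cut ε G →
    ∃ C : ℝ, 0 < C ∧ ∀ x : ℝ, Real.exp 1 ≤ x → 1 ≤ η * Real.log x →
    (∀ t : ℝ, ‖LSeries (fun n => (g1 G (η * Real.log x) n : ℂ)) (1 + 1 / Real.log x + t * I)‖ ≤ C) ∧
    ∀ t : ℝ, t ≠ 0 →
      ‖LSeries (fun n => (g1 G (η * Real.log x) n : ℂ)) (1 + 1 / Real.log x + t * I)‖ ≤
        C * (Real.log (2 + |t|) + 1 / |t|) / Real.log x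

/-- A nonnegative smooth bump supported in `(0,1)` and bounded below on `[1/10, 9/10]`. -/
structure Bump (φ : ℝ → ℝ) : Prop where
  smooth : ContDiff ℝ (⊤ : ℕ∞) φ
  nonneg : ∀ v, 0 ≤ φ v
  le_one : ∀ v, φ v ≤ 1
  zero : ∀ v, (v ≤ 1 / 20 ∨ 19 / 20 ≤ v) → φ v = 0
  one : ∀ v, 1 / 10 ≤ v → v ≤ 9 / 10 → φ v = 1

/-- Short sums: `S_T[a](X) = ∑ a(n) n^{-1-s} T φ(T log(n/X))`. -/
noncomputable def ST (φ : ℝ → ℝ) (s T X : ℝ) (a : ArithmeticFunction ℝ) : ℝ :=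
  ∑' n : ℕ, a n * (n : ℝ) ^ (-(1 + s)) * (T * φ (T * Real.log (n / X)))

/-- The kernel `Φ(t) = ∫ φ(v) e^{ivt} dv`. -/
noncomputable def Kern (φ : ℝ → ℝ) (t : ℝ) : ℂ := ∫ v : ℝ, (φ v : ℂ) * Complex.exp (I * v * t)

/-- M5' (Perron): `S_T[a](X) = (1/2π) ∫ Φ(t/T) X^{it} A(1+s+it) dt`. -/
def Perron : Prop := ∀ (φ : ℝ → ℝ), Bump φ → ∀ (s T X : ℝ), 0 < s → 0 < T → 0 < X →
    ∀ a : ArithmeticFunction ℝ, LSeriesSummable (fun n => (a n : ℂ)) (1 + s : ℝ) →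
    (ST φ s T X a : ℂ) = (1 / (2 * Real.pi) : ℝ) *
      ∫ t : ℝ, Kern φ (t / T) * Complex.exp (I * t * Real.log X) *
        LSeries (fun n => (a n : ℂ)) (1 + s + t * I)

/-- Kernel bounds. -/
def KernBound : Prop := ∀ (φ : ℝ → ℝ), Bump φ → ∃ C : ℝ, 0 < C ∧
    (∀ t, ‖Kern φ t‖ ≤ C) ∧ (∀ t, ‖Kern φ t‖ * |t| ^ 6 ≤ C) ∧
    (∀ t t', ‖Kern φ t - Kern φ t'‖ ≤ C * |t - t'|) ∧
    Continuous (Kern φ)

/-- (F): sieve asymptotics for rough numbers in short intervals. -/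
def FundAsymp : Prop := ∀ (φ : ℝ → ℝ), Bump φ → ∃ c C : ℝ, 0 < c ∧ 0 < C ∧
    ∀ y D T X s : ℝ, 2 ≤ y → y ≤ D → 1 / 4 ≤ T → 1 ≤ X → 0 < s → s ≤ 1 →
    |ST φ s T X (rough y) - V y * X ^ (-s) * ∫ v, φ v| ≤
      C * (Real.exp (-c * (Real.log D / Real.log y)) + s) * V y + C * D * T / X

/-- Final target: primes in short intervals. -/
def HoheiselPrimes : Prop := ∃ δ c x₀ : ℝ, 0 < δ ∧ δ < 1 ∧ 0 < c ∧ 1 < x₀ ∧ ∀ x : ℝ, x₀ ≤ x →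
    c * x ^ (1 - δ) / Real.log x ≤
      (((Finset.Ioc ⌊x⌋₊ ⌊x + x ^ (1 - δ)⌋₊).filter Nat.Prime).card : ℝ)

end Hoh
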