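import Mathlib

/-!
Combinatorial part of the Brun-Hooley sieve: multi-affine evaluations, Bonferroni inequalities,
and the block step.
-/

namespace Pool.Agent.Lib.MP_0bb3d8_nt

open Finset

/-- multi-affine evaluation of a weight `f` on the subsets of `P` -/
noncomputable def ev (P : Finset ℕ) (f : Finset ℕ → ℝ) (x : ℕ → ℝ) : ℝ :=
  ∑ S ∈ P.powerset, f S * ∏ p ∈ S, x p

/-- elementary symmetric sums -/
noncomputable def es (k : ℕ) (Q : Finset ℕ) (x : ℕ → ℝ) : ℝ :=
  ev Q (fun S => if S.card = k then 1 else 0) x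

/-- truncated Möbius weight -/
noncomputable def tr (m : ℕ) (S : Finset ℕ) : ℝ := if S.card < m then (-1) ^ S.card else 0

lemma ev_insert {p : ℕ} {Q : Finset ℕ} (hp : p ∉ Q) (f : Finset ℕ → ℝ) (x : ℕ → ℝ) :
    ev (insert p Q) f x = ev Q f x + x p * ev Q (fun S => f (insert p S)) x := by
  unfold ev
  rw [Finset.sum_powerset_insert hp, Finset.mul_sum]
  congr 1
  apply Finset.sum_congr rfl
  intro S hS
  have : p ∉ S := fun h => hp (Finset.mem_powerset.1 hS h)
  rw [Finset.prod_insert this]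
  ring

lemma ev_congr {Q : Finset ℕ} {f g : Finset ℕ → ℝ} (x : ℕ → ℝ) (h : ∀ S ⊆ Q, f S = g S) :
    ev Q f x = ev Q g x := by
  unfold ev
  apply Finset.sum_congr rfl
  intro S hS
  rw [h S (Finset.mem_powerset.1 hS)]

lemma es_insert {p : ℕ} {Q : Finset ℕ} (hp : p ∉ Q) (k : ℕ) (x : ℕ → ℝ) :
    es (k + 1) (insert p Q) x = es (k + 1) Q x + x p * es k Q x := by
  unfold es
  rw [ev_insert hp]
  congr 2
  apply ev_congr
  intro S hS
  have : p ∉ S := fun h => hp (hS h)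
  rw [Finset.card_insert_of_notMem this]
  simp

lemma es_zero (Q : Finset ℕ) (x : ℕ → ℝ) : es 0 Q x = 1 := by
  unfold es ev
  rw [Finset.sum_eq_single ∅]
  · simp
  · intro S _ hS
    have : S.card ≠ 0 := by simpa using hS
    simp [this]
  · simp

lemma es_empty (k : ℕ) (x : ℕ → ℝ) : es (k + 1) ∅ x = 0 := by
  unfold es ev
  simp

lemma es_nonneg {x : ℕ → ℝ} (hx : ∀ p, 0 ≤ x p) (k : ℕ) (Q : Finset ℕ) : 0 ≤ es k Q x := by
  unfold es ev
  apply Finset.sum_nonneg
  intro S _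
  apply mul_nonneg
  · show (0 : ℝ) ≤ if S.card = k then 1 else 0
    split_ifs <;> norm_num
  · exact Finset.prod_nonneg fun p _ => hx p

lemma tr_insert {p : ℕ} {Q : Finset ℕ} (hp : p ∉ Q) (m : ℕ) (x : ℕ → ℝ) :
    ev (insert p Q) (tr (m + 1)) x = ev Q (tr (m + 1)) x - x p * ev Q (tr m) x := by
  rw [ev_insert hp]
  have : ev Q (fun S => tr (m + 1) (insert p S)) x = - ev Q (tr m) x := by
    unfold ev
    rw [← Finset.sum_neg_distrib]
    apply Finset.sum_congr rfl
    intro S hS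
    have : p ∉ S := fun h => hp (Finset.mem_powerset.1 hS h)
    show tr (m + 1) (insert p S) * _ = _
    unfold tr
    rw [Finset.card_insert_of_notMem this]
    by_cases h : S.card < m
    · have : S.card + 1 < m + 1 := by omega
      simp only [h, this, if_true]
      ring
    · have : ¬ S.card + 1 < m + 1 := by omega
      simp only [h, this, if_false]
      ring
  rw [this]
  ring

lemma tr_zero (Q : Finset ℕ) (x : ℕ → ℝ) : ev Q (tr 0) x = 0 := by
  unfold ev tr
  simp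

lemma prod_one_sub_mem {x : ℕ → ℝ} (hx0 : ∀ p, 0 ≤ x p) (hx1 : ∀ p, x p ≤ 1) (Q : Finset ℕ) :
    0 ≤ ∏ p ∈ Q, (1 - x p) ∧ ∏ p ∈ Q, (1 - x p) ≤ 1 := by
  constructor
  · exact Finset.prod_nonneg fun p _ => by linarith [hx1 p]
  · exact Finset.prod_le_one (fun p _ => by linarith [hx1 p]) (fun p _ => by linarith [hx0 p])

/-- Bonferroni inequalities, weighted form. -/
lemma bonferroni {x : ℕ → ℝ} (hx0 : ∀ p, 0 ≤ x p) (hx1 : ∀ p, x p ≤ 1) (Q : Finset ℕ) :
    ∀ m : ℕ, 0 ≤ (-1) ^ (m + 1) * (ev Q (tr m) x - ∏ p ∈ Q, (1 - x p)) ∧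
      (-1) ^ (m + 1) * (ev Q (tr m) x - ∏ p ∈ Q, (1 - x p)) ≤ es m Q x := by
  classical
  induction Q using Finset.induction_on with
  | empty =>
    intro m
    rcases m with _ | m
    · rw [tr_zero, es_zero]; norm_num
    · rw [es_empty]
      have : ev ∅ (tr (m + 1)) x = 1 := by
        unfold ev tr; simp
      rw [this]
      simp
  | insert p Q hp ih =>
    intro m
    rcases m with _ | m
    · rw [tr_zero, es_zero]
      have := prod_one_sub_mem hx0 hx1 (insert p Q)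
      constructor
      · norm_num; exact this.1
      · norm_num; exact this.2
    · rw [tr_insert hp, es_insert hp, Finset.prod_insert hp]
      obtain ⟨h1, h2⟩ := ih (m + 1)
      obtain ⟨h3, h4⟩ := ih m
      have key : (-1 : ℝ) ^ (m + 1 + 1) *
          (ev Q (tr (m + 1)) x - x p * ev Q (tr m) x - (1 - x p) * ∏ p ∈ Q, (1 - x p))
          = (-1) ^ (m + 1 + 1) * (ev Q (tr (m + 1)) x - ∏ p ∈ Q, (1 - x p))
            + x p * ((-1) ^ (m + 1) * (ev Q (tr m) x - ∏ p ∈ Q, (1 - x p))) := by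
        ring
      rw [key]
      constructor
      · exact add_nonneg h1 (mul_nonneg (hx0 p) h3)
      · exact add_le_add h2 (mul_le_mul_of_nonneg_left h4 (hx0 p))

lemma pow_add_le {s x : ℝ} (hs : 0 ≤ s) (hx : 0 ≤ x) (m : ℕ) :
    s ^ (m + 1) + (m + 1) * (x * s ^ m) ≤ (s + x) ^ (m + 1) := by
  induction m with
  | zero => simp
  | succ m ih =>
    have h1 : (s ^ (m + 1) + (m + 1) * (x * s ^ m)) * (s + x) ≤ (s + x) ^ (m + 1) * (s + x) :=
      mul_le_mul_of_nonneg_right ih (by positivity)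
    have h2 : 0 ≤ (m + 1 : ℝ) * (x * s ^ m) * x := by positivity
    calc s ^ (m + 1 + 1) + ((m + 1 : ℕ) + 1) * (x * s ^ (m + 1))
        = (s ^ (m + 1) + (m + 1) * (x * s ^ m)) * (s + x) - (m + 1 : ℝ) * (x * s ^ m) * x := by
          push_cast; ring
      _ ≤ (s + x) ^ (m + 1) * (s + x) := by linarith
      _ = (s + x) ^ (m + 1 + 1) := by ring

lemma es_le {x : ℕ → ℝ} (hx0 : ∀ p, 0 ≤ x p) (Q : Finset ℕ) :
    ∀ m : ℕ, es m Q x ≤ (∑ p ∈ Q, x p) ^ m / (m.factorial : ℝ) := by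
  classical
  induction Q using Finset.induction_on with
  | empty =>
    intro m
    rcases m with _ | m
    · rw [es_zero]; simp
    · rw [es_empty]; simp
  | insert p Q hp ih =>
    intro m
    rcases m with _ | m
    · rw [es_zero]; simp
    · rw [es_insert hp, Finset.sum_insert hp]
      have hs : 0 ≤ ∑ p ∈ Q, x p := Finset.sum_nonneg fun p _ => hx0 p
      have h1 := ih (m + 1)
      have h2 := ih m
      have h3 := pow_add_le hs (hx0 p) m
      have hf : ((m + 1).factorial : ℝ) = (m + 1) * (m.factorial : ℝ) := by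
        rw [Nat.factorial_succ]; push_cast; ring
      have hf0 : (0 : ℝ) < (m.factorial : ℝ) := by exact_mod_cast Nat.factorial_pos m
      calc es (m + 1) Q x + x p * es m Q x
          ≤ (∑ p ∈ Q, x p) ^ (m + 1) / ((m + 1).factorial : ℝ)
            + x p * ((∑ p ∈ Q, x p) ^ m / (m.factorial : ℝ)) :=
            add_le_add h1 (mul_le_mul_of_nonneg_left h2 (hx0 p))
        _ = ((∑ p ∈ Q, x p) ^ (m + 1) + (m + 1) * (x p * (∑ p ∈ Q, x p) ^ m))
            / ((m + 1).factorial : ℝ) := by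
            rw [hf]; field_simp
        _ ≤ ((∑ p ∈ Q, x p) + x p) ^ (m + 1) / ((m + 1).factorial : ℝ) := by
            gcongr
        _ = (x p + ∑ p ∈ Q, x p) ^ (m + 1) / ((m + 1).factorial : ℝ) := by
            rw [add_comm]

lemma ev_mul {P Q : Finset ℕ} (hPQ : Disjoint P Q) (f g : Finset ℕ → ℝ) (x : ℕ → ℝ) :
    ev (P ∪ Q) (fun S => f (S ∩ P) * g (S ∩ Q)) x = ev P f x * ev Q g x := by
  classical
  unfold ev
  rw [Finset.sum_mul_sum, ← Finset.sum_product']
  symm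
  apply Finset.sum_nbij' (fun AB => AB.1 ∪ AB.2) (fun S => (S ∩ P, S ∩ Q))
  · rintro ⟨A, B⟩ h
    simp only [mem_product, mem_powerset] at h ⊢
    exact Finset.union_subset_union h.1 h.2
  · intro S _
    simp only [mem_product, mem_powerset]
    exact ⟨Finset.inter_subset_right, Finset.inter_subset_right⟩
  · rintro ⟨A, B⟩ h
    simp only [mem_product, mem_powerset] at h
    have h1 : (A ∪ B) ∩ P = A := by
      rw [Finset.union_inter_distrib_right, Finset.inter_eq_left.2 h.1,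
        Finset.disjoint_iff_inter_eq_empty.1 (Finset.disjoint_of_subset_left h.2 hPQ.symm)]
      simp
    have h2 : (A ∪ B) ∩ Q = B := by
      rw [Finset.union_inter_distrib_right, Finset.inter_eq_left.2 h.2,
        Finset.disjoint_iff_inter_eq_empty.1 (Finset.disjoint_of_subset_left h.1 hPQ)]
      simp
    simp only [h1, h2]
  · intro S hS
    rw [mem_powerset] at hS
    rw [← Finset.inter_union_distrib_left]
    exact Finset.inter_eq_left.2 hS
  · rintro ⟨A, B⟩ h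
    simp only [mem_product, mem_powerset] at h
    have h1 : (A ∪ B) ∩ P = A := by
      rw [Finset.union_inter_distrib_right, Finset.inter_eq_left.2 h.1,
        Finset.disjoint_iff_inter_eq_empty.1 (Finset.disjoint_of_subset_left h.2 hPQ.symm)]
      simp
    have h2 : (A ∪ B) ∩ Q = B := by
      rw [Finset.union_inter_distrib_right, Finset.inter_eq_left.2 h.2,
        Finset.disjoint_iff_inter_eq_empty.1 (Finset.disjoint_of_subset_left h.1 hPQ)]
      simp
    simp only [h1, h2]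
    rw [Finset.prod_union (Finset.disjoint_of_subset_left h.1 (Finset.disjoint_of_subset_right h.2 hPQ))]
    ring

lemma ev_sub (P : Finset ℕ) (f g : Finset ℕ → ℝ) (x : ℕ → ℝ) :
    ev P (fun S => f S - g S) x = ev P f x - ev P g x := by
  unfold ev
  rw [← Finset.sum_sub_distrib]
  apply Finset.sum_congr rfl
  intro S _
  ring

/-- data carried by the recursion over blocks -/
structure Stage (P : Finset ℕ) (u l : Finset ℕ → ℝ) (B B' T : ℝ) : Prop where
  u_abs : ∀ S, |u S| ≤ 1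
  l_abs : ∀ S, |l S| ≤ 1
  u_supp : ∀ S ⊆ P, u S ≠ 0 → (∏ p ∈ S, (p : ℝ)) ≤ B
  l_supp : ∀ S ⊆ P, l S ≠ 0 → (∏ p ∈ S, (p : ℝ)) ≤ B'
  upper : ∀ x : ℕ → ℝ, (∀ p, 0 ≤ x p) → (∀ p, x p ≤ 1) → ∏ p ∈ P, (1 - x p) ≤ ev P u x
  lower : ∀ x : ℕ → ℝ, (∀ p, 0 ≤ x p) → (∀ p, x p ≤ 1) → ev P l x ≤ ∏ p ∈ P, (1 - x p)
  one_le : 1 ≤ T
  dens_u : ev P u (fun p => 1 / (p : ℝ)) ≤ T * ∏ p ∈ P, (1 - 1 / (p : ℝ))
  dens_l : (2 - T ^ 2) * ∏ p ∈ P, (1 - 1 / (p : ℝ)) ≤ ev P l (fun p => 1 / (p : ℝ))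

lemma stage_empty : Stage ∅ (fun _ => 1) (fun _ => 1) 1 1 1 where
  u_abs := by simp
  l_abs := by simp
  u_supp := by
    intro S hS _
    rw [Finset.subset_empty.1 hS]; simp
  l_supp := by
    intro S hS _
    rw [Finset.subset_empty.1 hS]; simp
  upper := by intro x _ _; simp [ev]
  lower := by intro x _ _; simp [ev]
  one_le := le_rfl
  dens_u := by simp [ev]
  dens_l := by simp [ev]; norm_num

lemma tr_abs (m : ℕ) (S : Finset ℕ) : |tr m S| ≤ 1 := by
  unfold tr
  split_ifs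
  · rw [abs_pow, abs_neg, abs_one, one_pow]
  · simp

/-- The block step. `Q` is a block disjoint from `P`, whose elements lie in `[1, z]`. -/
lemma stage_step {P Q : Finset ℕ} (hPQ : Disjoint P Q) {u l : Finset ℕ → ℝ} {B B' T : ℝ}
    (h : Stage P u l B B' T) {m : ℕ} (hm : Odd m) {z δ : ℝ} (hz : 1 ≤ z) (hB : 0 ≤ B) (hB' : 0 ≤ B')
    (hQz : ∀ q ∈ Q, (q : ℝ) ≤ z) (hδ : 0 ≤ δ)
    (hE : es m Q (fun p => 1 / (p : ℝ)) ≤ δ * ∏ p ∈ Q, (1 - 1 / (p : ℝ))) :
    ∃ u' l' : Finset ℕ → ℝ, Stage (P ∪ Q) u' l' (B * z ^ (m - 1)) (max (B' * z ^ (m - 1)) (B * z ^ m))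
      (T * (1 + δ)) := by
  classical
  have hm1 : 1 ≤ m := hm.pos
  have hpar : (-1 : ℝ) ^ (m + 1) = 1 := by
    rw [pow_succ, hm.neg_one_pow]; norm_num
  -- the weights
  set e : Finset ℕ → ℝ := fun S => if S.card = m then 1 else 0 with he
  set u' : Finset ℕ → ℝ := fun S => u (S ∩ P) * tr m (S ∩ Q) with hu'
  set l' : Finset ℕ → ℝ := fun S => l (S ∩ P) * tr m (S ∩ Q) - u (S ∩ P) * e (S ∩ Q) with hl'
  have evu : ∀ x, ev (P ∪ Q) u' x = ev P u x * ev Q (tr m) x := fun x => ev_mul hPQ u (tr m) x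
  have evl : ∀ x, ev (P ∪ Q) l' x = ev P l x * ev Q (tr m) x - ev P u x * es m Q x := by
    intro x
    rw [hl', ev_sub (P ∪ Q) (fun S => l (S ∩ P) * tr m (S ∩ Q)) (fun S => u (S ∩ P) * e (S ∩ Q)) x,
      ev_mul hPQ l (tr m) x, ev_mul hPQ u e x]
    rfl
  have prodS : ∀ S ⊆ P ∪ Q, (∏ p ∈ S, (p : ℝ)) = (∏ p ∈ S ∩ P, (p : ℝ)) * ∏ p ∈ S ∩ Q, (p : ℝ) := by
    intro S hS
    rw [← Finset.prod_union]
    · rw [← Finset.inter_union_distrib_left, Finset.inter_eq_left.2 hS]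
    · exact Finset.disjoint_of_subset_left Finset.inter_subset_right
        (Finset.disjoint_of_subset_right Finset.inter_subset_right hPQ)
  have prodQ : ∀ S k, (S ∩ Q).card ≤ k → (∏ p ∈ S ∩ Q, (p : ℝ)) ≤ z ^ k := by
    intro S k hk
    calc (∏ p ∈ S ∩ Q, (p : ℝ)) ≤ ∏ p ∈ S ∩ Q, z :=
          Finset.prod_le_prod (fun p _ => by positivity)
            (fun p hp => hQz p (Finset.mem_of_mem_inter_right hp))
      _ = z ^ (S ∩ Q).card := by rw [Finset.prod_const]
      _ ≤ z ^ k := pow_le_pow_right₀ hz hk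
  have prodP0 : ∀ S : Finset ℕ, 0 ≤ ∏ p ∈ S, (p : ℝ) := fun S => Finset.prod_nonneg fun p _ => by positivity
  have hx0 : ∀ p : ℕ, (0 : ℝ) ≤ 1 / (p : ℝ) := fun p => by positivity
  have hx1 : ∀ p : ℕ, 1 / (p : ℝ) ≤ 1 := by
    intro p
    rcases Nat.eq_zero_or_pos p with rfl | hp
    · simp
    · rw [div_le_one (by exact_mod_cast hp)]
      exact_mod_cast hp
  refine ⟨u', l', ?_⟩
  constructor
  · -- u_abs
    intro S
    rw [hu', abs_mul]
    calc |u (S ∩ P)| * |tr m (S ∩ Q)| ≤ 1 * 1 :=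
        mul_le_mul (h.u_abs _) (tr_abs _ _) (abs_nonneg _) zero_le_one
      _ = 1 := one_mul 1
  · -- l_abs
    intro S
    rw [hl']
    simp only
    by_cases hc : (S ∩ Q).card = m
    · have h1 : tr m (S ∩ Q) = 0 := by unfold tr; rw [if_neg (by omega)]
      have h2 : e (S ∩ Q) = 1 := by rw [he]; simp only [hc, if_true]
      rw [h1, h2]
      simpa using h.u_abs (S ∩ P)
    · have h2 : e (S ∩ Q) = 0 := by rw [he]; simp only [hc, if_false]
      rw [h2, mul_zero, sub_zero, abs_mul]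
      calc |l (S ∩ P)| * |tr m (S ∩ Q)| ≤ 1 * 1 :=
          mul_le_mul (h.l_abs _) (tr_abs _ _) (abs_nonneg _) zero_le_one
        _ = 1 := one_mul 1
  · -- u_supp
    intro S hS hne
    rw [hu'] at hne
    simp only at hne
    have h1 : u (S ∩ P) ≠ 0 := left_ne_zero_of_mul hne
    have h2 : tr m (S ∩ Q) ≠ 0 := right_ne_zero_of_mul hne
    have h3 : (S ∩ Q).card ≤ m - 1 := by
      by_contra hcon
      apply h2
      unfold tr
      rw [if_neg (by omega)]
    rw [prodS S hS]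
    exact mul_le_mul (h.u_supp _ Finset.inter_subset_right h1) (prodQ S _ h3) (prodP0 _) hB
  · -- l_supp
    intro S hS hne
    rw [prodS S hS]
    by_cases hc : (S ∩ Q).card = m
    · have h1 : tr m (S ∩ Q) = 0 := by unfold tr; rw [if_neg (by omega)]
      have h2 : u (S ∩ P) ≠ 0 := by
        intro h0
        apply hne
        rw [hl']
        simp only [h1, h0]
        ring
      refine le_trans ?_ (le_max_right _ _)
      exact mul_le_mul (h.u_supp _ Finset.inter_subset_right h2) (prodQ S _ hc.le) (prodP0 _) hB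
    · have he0 : e (S ∩ Q) = 0 := by rw [he]; simp only [hc, if_false]
      have hne' : l (S ∩ P) * tr m (S ∩ Q) ≠ 0 := by
        intro h0
        apply hne
        rw [hl']
        simp only [he0, h0]
        ring
      have h1 : l (S ∩ P) ≠ 0 := left_ne_zero_of_mul hne'
      have h2 : tr m (S ∩ Q) ≠ 0 := right_ne_zero_of_mul hne'
      have h3 : (S ∩ Q).card ≤ m - 1 := by
        by_contra hcon
        apply h2
        unfold tr
        rw [if_neg (by omega)]
      refine le_trans ?_ (le_max_left _ _)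
      exact mul_le_mul (h.l_supp _ Finset.inter_subset_right h1) (prodQ S _ h3) (prodP0 _) hB'
  · -- upper
    intro x hx0 hx1
    rw [evu, Finset.prod_union hPQ]
    obtain ⟨b1, b2⟩ := bonferroni hx0 hx1 Q m
    rw [hpar, one_mul] at b1 b2
    have a1 := h.upper x hx0 hx1
    have p1 := prod_one_sub_mem hx0 hx1 P
    have p2 := prod_one_sub_mem hx0 hx1 Q
    exact mul_le_mul a1 (by linarith) p2.1 (p1.1.trans a1)
  · -- lower
    intro x hx0 hx1
    rw [evl, Finset.prod_union hPQ]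
    obtain ⟨b1, b2⟩ := bonferroni hx0 hx1 Q m
    rw [hpar, one_mul] at b1 b2
    have a1 := h.upper x hx0 hx1
    have a2 := h.lower x hx0 hx1
    have p1 := prod_one_sub_mem hx0 hx1 P
    have p2 := prod_one_sub_mem hx0 hx1 Q
    set X := ∏ p ∈ P, (1 - x p)
    set Y := ∏ p ∈ Q, (1 - x p)
    have y0 : 0 ≤ ev Q (tr m) x := by linarith [p2.1]
    have s1 : ev P l x * ev Q (tr m) x ≤ X * ev Q (tr m) x := mul_le_mul_of_nonneg_right a2 y0
    have s2 : X * (ev Q (tr m) x - Y) ≤ ev P u x * es m Q x :=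
      mul_le_mul a1 b2 b1 (p1.1.trans a1)
    nlinarith
  · -- one_le
    have := h.one_le
    nlinarith
  · -- dens_u
    rw [evu, Finset.prod_union hPQ]
    obtain ⟨b1, b2⟩ := bonferroni hx0 hx1 Q m
    rw [hpar, one_mul] at b1 b2
    have p1 := prod_one_sub_mem hx0 hx1 P
    have p2 := prod_one_sub_mem hx0 hx1 Q
    have a1 := h.upper _ hx0 hx1
    have a3 := h.dens_u
    have hT := h.one_le
    set X := ∏ p ∈ P, (1 - 1 / (p : ℝ))
    set Y := ∏ p ∈ Q, (1 - 1 / (p : ℝ))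
    have y1 : ev Q (tr m) (fun p => 1 / (p : ℝ)) ≤ (1 + δ) * Y := by linarith
    have y0 : 0 ≤ ev Q (tr m) (fun p => 1 / (p : ℝ)) := by linarith [p2.1]
    calc ev P u (fun p => 1 / (p : ℝ)) * ev Q (tr m) (fun p => 1 / (p : ℝ))
        ≤ (T * X) * ((1 + δ) * Y) := mul_le_mul a3 y1 y0 (mul_nonneg (by linarith) p1.1)
      _ = T * (1 + δ) * (X * Y) := by ring
  · -- dens_l
    rw [evl, Finset.prod_union hPQ]
    obtain ⟨b1, b2⟩ := bonferroni hx0 hx1 Q m
    rw [hpar, one_mul] at b1 b2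
    have p1 := prod_one_sub_mem hx0 hx1 P
    have p2 := prod_one_sub_mem hx0 hx1 Q
    have a1 := h.upper _ hx0 hx1
    have a3 := h.dens_u
    have a4 := h.dens_l
    have hT := h.one_le
    set X := ∏ p ∈ P, (1 - 1 / (p : ℝ)) with hX
    set Y := ∏ p ∈ Q, (1 - 1 / (p : ℝ)) with hY
    set y := ev Q (tr m) (fun p => 1 / (p : ℝ)) with hy
    have y1 : y ≤ (1 + δ) * Y := by linarith
    have y2 : Y ≤ y := by linarith
    have y0 : 0 ≤ y := by linarith [p2.1]
    have XY : 0 ≤ X * Y := mul_nonneg p1.1 p2.1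
    have e1 : ev P u (fun p => 1 / (p : ℝ)) * es m Q (fun p => 1 / (p : ℝ)) ≤ (T * X) * (δ * Y) :=
      mul_le_mul a3 hE (b1.trans b2) (mul_nonneg (by linarith) p1.1)
    have e2 : (2 - T ^ 2) * X * y ≤ ev P l (fun p => 1 / (p : ℝ)) * y :=
      mul_le_mul_of_nonneg_right a4 y0
    have e3 : (2 - (T * (1 + δ)) ^ 2) * (X * Y) + T * δ * (X * Y) ≤ (2 - T ^ 2) * X * y := by
      by_cases hs : 0 ≤ 2 - T ^ 2
      · have f1 : (2 - T ^ 2) * X * Y ≤ (2 - T ^ 2) * X * y :=
          mul_le_mul_of_nonneg_left y2 (mul_nonneg hs p1.1)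
        have f2 : (2 - (T * (1 + δ)) ^ 2) + T * δ ≤ 2 - T ^ 2 := by nlinarith [mul_nonneg hδ hδ, mul_nonneg (sub_nonneg.2 hT) hδ, mul_nonneg (mul_nonneg (sub_nonneg.2 hT) hδ) hδ, sq_nonneg (T * δ), mul_nonneg (mul_nonneg (sub_nonneg.2 hT) (sub_nonneg.2 hT)) hδ]
        have f3 := mul_le_mul_of_nonneg_right f2 XY
        nlinarith
      · push Not at hs
        have f1 : (2 - T ^ 2) * X * ((1 + δ) * Y) ≤ (2 - T ^ 2) * X * y := by
          have : (2 - T ^ 2) * X ≤ 0 := mul_nonpos_of_nonpos_of_nonneg hs.le p1.1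
          exact mul_le_mul_of_nonpos_left y1 this
        have f2 : (2 - (T * (1 + δ)) ^ 2) + T * δ ≤ (2 - T ^ 2) * (1 + δ) := by
          nlinarith [mul_nonneg hδ hδ, mul_nonneg (sub_nonneg.2 hT) hδ, mul_nonneg (mul_nonneg (sub_nonneg.2 hT) hδ) hδ, sq_nonneg (T * δ), mul_nonneg (mul_nonneg (sub_nonneg.2 hT) (sub_nonneg.2 hT)) hδ]
        have f3 := mul_le_mul_of_nonneg_right f2 XY
        nlinarith
    nlinarith

end Pool.Agent.Lib.MP_0bb3d8_nt
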