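import Mathlib

/-!
Crude bounds for sums of reciprocals of primes, from Chebyshev's bound.
-/

namespace Pool.Agent.Lib.MP_0bb3d8_nt

open Finset

/-- primes in `(a, b]` -/
noncomputable def pr (a b : ℝ) : Finset ℕ := (Finset.Ioc ⌊a⌋₊ ⌊b⌋₊).filter Nat.Prime

lemma mem_pr {a b : ℝ} (ha : 0 ≤ a) {p : ℕ} : p ∈ pr a b ↔ a < p ∧ (p : ℝ) ≤ b ∧ p.Prime := by
  unfold pr
  rw [Finset.mem_filter, Finset.mem_Ioc]
  constructor
  · rintro ⟨⟨h1, h2⟩, h3⟩
    exact ⟨(Nat.floor_lt ha).1 h1, (Nat.le_floor_iff' h3.ne_zero).1 h2, h3⟩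
  · rintro ⟨h1, h2, h3⟩
    exact ⟨⟨(Nat.floor_lt ha).2 h1, (Nat.le_floor_iff' h3.ne_zero).2 h2⟩, h3⟩

lemma pr_union {a b c : ℝ} (ha : 0 ≤ a) (hab : a ≤ b) (hbc : b ≤ c) :
    pr b c ∪ pr a b = pr a c := by
  ext p
  rw [Finset.mem_union, mem_pr (ha.trans hab), mem_pr ha, mem_pr ha]
  constructor
  · rintro (⟨h1, h2, h3⟩ | ⟨h1, h2, h3⟩)
    · exact ⟨by linarith, h2, h3⟩
    · exact ⟨h1, by linarith, h3⟩
  · rintro ⟨h1, h2, h3⟩
    rcases lt_or_ge b (p : ℝ) with h | h
    · exact Or.inl ⟨h, h2, h3⟩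
    · exact Or.inr ⟨h1, h, h3⟩

lemma pr_disjoint {a b c : ℝ} (ha : 0 ≤ a) (hab : a ≤ b) : Disjoint (pr b c) (pr a b) := by
  rw [Finset.disjoint_left]
  intro p h1 h2
  rw [mem_pr (ha.trans hab)] at h1
  rw [mem_pr ha] at h2
  linarith [h1.1, h2.2.1]

lemma sum_pr_two_mul {w : ℝ} (hw : 1 < w) :
    ∑ p ∈ pr w (2 * w), 1 / (p : ℝ) ≤ 4 * Real.log 2 / Real.log w := by
  have hlog : 0 < Real.log w := Real.log_pos hw
  have hcard : ((pr w (2 * w)).card : ℝ) * Real.log w ≤ Real.log 4 * (2 * w) := by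
    calc ((pr w (2 * w)).card : ℝ) * Real.log w = ∑ p ∈ pr w (2 * w), Real.log w := by
          rw [Finset.sum_const, nsmul_eq_mul]
      _ ≤ ∑ p ∈ pr w (2 * w), Real.log p := by
          apply Finset.sum_le_sum
          intro p hp
          rw [mem_pr (by linarith)] at hp
          exact Real.log_le_log (by linarith) hp.1.le
      _ ≤ Chebyshev.theta (2 * w) := by
          rw [Chebyshev.theta_eq_sum_Icc]
          apply Finset.sum_le_sum_of_subset_of_nonneg
          · intro p hp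
            rw [mem_pr (by linarith)] at hp
            rw [Finset.mem_filter, Finset.mem_Icc]
            exact ⟨⟨Nat.zero_le _, (Nat.le_floor_iff' hp.2.2.ne_zero).2 hp.2.1⟩, hp.2.2⟩
          · intro p _ _
            exact Real.log_natCast_nonneg p
      _ ≤ Real.log 4 * (2 * w) := Chebyshev.theta_le_log4_mul_x (by linarith)
  have h4 : Real.log 4 = 2 * Real.log 2 := by
    rw [show (4 : ℝ) = 2 ^ 2 by norm_num, Real.log_pow]; norm_num
  calc ∑ p ∈ pr w (2 * w), 1 / (p : ℝ) ≤ ∑ p ∈ pr w (2 * w), 1 / w := by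
        apply Finset.sum_le_sum
        intro p hp
        rw [mem_pr (by linarith)] at hp
        exact one_div_le_one_div_of_le (by linarith) hp.1.le
    _ = ((pr w (2 * w)).card : ℝ) / w := by
        rw [Finset.sum_const, nsmul_eq_mul]; ring
    _ ≤ 4 * Real.log 2 / Real.log w := by
        rw [div_le_div_iff₀ (by linarith) hlog]
        rw [h4] at hcard
        linarith

lemma sum_pr_pow {w : ℝ} (hw : 1 < w) (n : ℕ) :
    ∑ p ∈ pr w (2 ^ n * w), 1 / (p : ℝ) ≤ n * (4 * Real.log 2 / Real.log w) := by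
  have hlog : 0 < Real.log w := Real.log_pos hw
  have hl2 : 0 < Real.log 2 := Real.log_pos (by norm_num)
  induction n with
  | zero =>
    have : pr w (2 ^ 0 * w) = ∅ := by
      rw [Finset.eq_empty_iff_forall_notMem]
      intro p hp
      rw [mem_pr (by linarith)] at hp
      simp only [pow_zero, one_mul] at hp
      linarith [hp.1, hp.2.1]
    rw [this]; simp
  | succ n ih =>
    have h2n : (1 : ℝ) ≤ 2 ^ n := one_le_pow₀ (by norm_num)
    have e1 : pr (2 ^ n * w) (2 ^ (n + 1) * w) ∪ pr w (2 ^ n * w) = pr w (2 ^ (n + 1) * w) := by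
      apply pr_union (by linarith)
      · nlinarith
      · rw [pow_succ]; nlinarith
    have e2 : Disjoint (pr (2 ^ n * w) (2 ^ (n + 1) * w)) (pr w (2 ^ n * w)) :=
      pr_disjoint (by linarith) (by nlinarith)
    rw [← e1, Finset.sum_union e2]
    have h3 : ∑ p ∈ pr (2 ^ n * w) (2 ^ (n + 1) * w), 1 / (p : ℝ) ≤ 4 * Real.log 2 / Real.log w := by
      have hw' : 1 < 2 ^ n * w := by nlinarith
      have := sum_pr_two_mul hw'
      have e3 : 2 * (2 ^ n * w) = 2 ^ (n + 1) * w := by ring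
      rw [e3] at this
      refine this.trans ?_
      apply div_le_div_of_nonneg_left (by positivity) hlog
      exact Real.log_le_log (by linarith) (by nlinarith)
    push_cast
    linarith

/-- `∑_{w < p ≤ z} 1/p ≤ 4 (log z - log w + log 2) / log w`. -/
lemma sum_pr_le {w z : ℝ} (hw : 1 < w) (hz : w ≤ z) :
    ∑ p ∈ pr w z, 1 / (p : ℝ) ≤ 4 * (Real.log z - Real.log w + Real.log 2) / Real.log w := by
  have hlog : 0 < Real.log w := Real.log_pos hw
  have hl2 : 0 < Real.log 2 := Real.log_pos (by norm_num)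
  set n : ℕ := ⌈(Real.log z - Real.log w) / Real.log 2⌉₊ with hn
  have h0 : 0 ≤ (Real.log z - Real.log w) / Real.log 2 :=
    div_nonneg (sub_nonneg.2 (Real.log_le_log (by linarith) hz)) hl2.le
  have h1 : (Real.log z - Real.log w) / Real.log 2 ≤ n := Nat.le_ceil _
  have h2 : (n : ℝ) < (Real.log z - Real.log w) / Real.log 2 + 1 := Nat.ceil_lt_add_one h0
  have hzn : z ≤ 2 ^ n * w := by
    rw [← Real.log_le_log_iff (by linarith) (by positivity),
      Real.log_mul (by positivity) (by linarith), Real.log_pow]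
    rw [div_le_iff₀ hl2] at h1
    linarith
  calc ∑ p ∈ pr w z, 1 / (p : ℝ) ≤ ∑ p ∈ pr w (2 ^ n * w), 1 / (p : ℝ) := by
        apply Finset.sum_le_sum_of_subset_of_nonneg
        · intro p hp
          rw [mem_pr (by linarith)] at hp ⊢
          exact ⟨hp.1, hp.2.1.trans hzn, hp.2.2⟩
        · intro p _ _; positivity
    _ ≤ n * (4 * Real.log 2 / Real.log w) := sum_pr_pow hw n
    _ ≤ ((Real.log z - Real.log w) / Real.log 2 + 1) * (4 * Real.log 2 / Real.log w) :=
        mul_le_mul_of_nonneg_right h2.le (by positivity)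
    _ = 4 * (Real.log z - Real.log w + Real.log 2) / Real.log w := by
        field_simp

/-- `∑_{w < p ≤ w²} 1/p ≤ 8` for every `w ≥ 1`. -/
lemma sum_pr_sq_le {w : ℝ} (hw : 1 ≤ w) : ∑ p ∈ pr w (w ^ 2), 1 / (p : ℝ) ≤ 8 := by
  have hl2 : 0 < Real.log 2 := Real.log_pos (by norm_num)
  rcases le_or_gt 2 w with h | h
  · have hw1 : 1 < w := by linarith
    refine (sum_pr_le hw1 (by nlinarith)).trans ?_
    have hlog : Real.log 2 ≤ Real.log w := Real.log_le_log (by norm_num) h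
    rw [Real.log_pow, div_le_iff₀ (by linarith)]
    push_cast
    linarith
  · have hsub : pr w (w ^ 2) ⊆ {2, 3} := by
      intro p hp
      rw [mem_pr (by linarith)] at hp
      have h4 : (p : ℝ) < 4 := by nlinarith [hp.2.1]
      have h5 : p < 4 := by exact_mod_cast h4
      have h6 := hp.2.2.two_le
      rw [Finset.mem_insert, Finset.mem_singleton]
      omega
    calc ∑ p ∈ pr w (w ^ 2), 1 / (p : ℝ) ≤ ∑ p ∈ ({2, 3} : Finset ℕ), 1 / (p : ℝ) :=
          Finset.sum_le_sum_of_subset_of_nonneg hsub (fun p _ _ => by positivity)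
      _ ≤ 8 := by
          rw [Finset.sum_pair (by norm_num)]; norm_num

lemma exp_neg_two_mul_le {x : ℝ} (h0 : 0 ≤ x) (h1 : x ≤ 1 / 2) : Real.exp (-(2 * x)) ≤ 1 - x := by
  have h2 : 2 * x + 1 ≤ Real.exp (2 * x) := Real.add_one_le_exp _
  rw [Real.exp_neg]
  rw [inv_le_iff_one_le_mul₀ (Real.exp_pos _)]
  nlinarith

/-- lower bound for a product over primes -/
lemma exp_le_prod (Q : Finset ℕ) (hQ : ∀ p ∈ Q, p.Prime) {L : ℝ} (hL : ∑ p ∈ Q, 1 / (p : ℝ) ≤ L) :
    Real.exp (-(2 * L)) ≤ ∏ p ∈ Q, (1 - 1 / (p : ℝ)) := by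
  calc Real.exp (-(2 * L)) ≤ Real.exp (∑ p ∈ Q, -(2 * (1 / (p : ℝ)))) := by
        apply Real.exp_le_exp.2
        rw [Finset.sum_neg_distrib, ← Finset.mul_sum]
        linarith
    _ = ∏ p ∈ Q, Real.exp (-(2 * (1 / (p : ℝ)))) := Real.exp_sum _ _
    _ ≤ ∏ p ∈ Q, (1 - 1 / (p : ℝ)) := by
        apply Finset.prod_le_prod
        · intro p _; positivity
        · intro p hp
          have h2 : (2 : ℝ) ≤ p := by exact_mod_cast (hQ p hp).two_le
          apply exp_neg_two_mul_le (by positivity)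
          exact one_div_le_one_div_of_le (by norm_num) h2

end Pool.Agent.Lib.MP_0bb3d8_nt
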