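import Mathlib
import Pool.Agent.Lib.MP_0bb3d8_nt.SieveComb
import Pool.Agent.Lib.MP_0bb3d8_nt.SievePrimes

/-!
The fundamental lemma of the sieve (Brun-Hooley).
-/

namespace Pool.Agent.Lib.MP_0bb3d8_nt

open Finset

lemma Stage.mono {P : Finset ℕ} {u l : Finset ℕ → ℝ} {B B' T B₁ B₁' T₁ : ℝ}
    (h : Stage P u l B B' T) (hP : ∀ p ∈ P, p.Prime) (hB : B ≤ B₁) (hB' : B' ≤ B₁') (hT : T ≤ T₁) :
    Stage P u l B₁ B₁' T₁ where
  u_abs := h.u_abs
  l_abs := h.l_abs
  u_supp := fun S hS hne => (h.u_supp S hS hne).trans hB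
  l_supp := fun S hS hne => (h.l_supp S hS hne).trans hB'
  upper := h.upper
  lower := h.lower
  one_le := h.one_le.trans hT
  dens_u := by
    have h0 : 0 ≤ ∏ p ∈ P, (1 - 1 / (p : ℝ)) := by
      apply Finset.prod_nonneg
      intro p hp
      have h2 : (2 : ℝ) ≤ p := by exact_mod_cast (hP p hp).two_le
      have : 1 / (p : ℝ) ≤ 1 / 2 := one_div_le_one_div_of_le (by norm_num) h2
      linarith
    exact h.dens_u.trans (mul_le_mul_of_nonneg_right hT h0)
  dens_l := by
    have h0 : 0 ≤ ∏ p ∈ P, (1 - 1 / (p : ℝ)) := by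
      apply Finset.prod_nonneg
      intro p hp
      have h2 : (2 : ℝ) ≤ p := by exact_mod_cast (hP p hp).two_le
      have : 1 / (p : ℝ) ≤ 1 / 2 := one_div_le_one_div_of_le (by norm_num) h2
      linarith
    have h1 := h.one_le
    refine le_trans (mul_le_mul_of_nonneg_right ?_ h0) h.dens_l
    nlinarith

/-- the exponents -/
noncomputable def expo (b : ℕ) (k : ℕ) : ℝ := 2 * b + 4 - (2 * b + 4 * k + 4) / 2 ^ k

lemma expo_zero (b : ℕ) : expo b 0 = 0 := by unfold expo; simp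

lemma expo_succ (b k : ℕ) : expo b (k + 1) = expo b k + (b + 2 * k) * (1 / 2) ^ k := by
  unfold expo
  have : (2 : ℝ) ^ k ≠ 0 := by positivity
  rw [pow_succ, one_div, inv_pow]
  push_cast
  field_simp
  ring

lemma expo_le (b k : ℕ) : expo b k ≤ 2 * b + 4 := by
  unfold expo
  have : 0 ≤ (2 * (b : ℝ) + 4 * k + 4) / 2 ^ k := by positivity
  linarith

/-- the constant -/
noncomputable def KK : ℝ := Real.exp (2 * 8 + Real.exp 1 * 8)

lemma KK_pos : 0 < KK := Real.exp_pos _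

/-- block bound -/
lemma es_block (Q : Finset ℕ) (hQ : ∀ p ∈ Q, p.Prime) (hL : ∑ p ∈ Q, 1 / (p : ℝ) ≤ 8) (m : ℕ) :
    es m Q (fun p => 1 / (p : ℝ)) ≤ (KK * Real.exp (-(m : ℝ))) * ∏ p ∈ Q, (1 - 1 / (p : ℝ)) := by
  have hx0 : ∀ p : ℕ, (0 : ℝ) ≤ 1 / (p : ℝ) := fun p => by positivity
  have h1 := es_le hx0 Q m
  have hs : 0 ≤ ∑ p ∈ Q, 1 / (p : ℝ) := Finset.sum_nonneg fun p _ => hx0 p
  have hf : (0 : ℝ) < (m.factorial : ℝ) := by exact_mod_cast Nat.factorial_pos m
  have h2 : (∑ p ∈ Q, 1 / (p : ℝ)) ^ m / (m.factorial : ℝ) ≤ 8 ^ m / (m.factorial : ℝ) := by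
    gcongr
  have h3 : (8 : ℝ) ^ m / (m.factorial : ℝ) ≤ Real.exp (Real.exp 1 * 8) * Real.exp (-(m : ℝ)) := by
    have h4 := Real.pow_div_factorial_le_exp (x := Real.exp 1 * 8) (by positivity) m
    have h5 : (Real.exp 1 * 8) ^ m / (m.factorial : ℝ) = Real.exp m * (8 ^ m / (m.factorial : ℝ)) := by
      rw [mul_pow, ← Real.exp_nat_mul, mul_one, mul_div_assoc]
    rw [h5] at h4
    rw [Real.exp_neg]
    rw [← div_eq_mul_inv, le_div_iff₀ (Real.exp_pos _), mul_comm]
    exact h4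
  have h6 := exp_le_prod Q hQ hL
  calc es m Q (fun p => 1 / (p : ℝ)) ≤ Real.exp (Real.exp 1 * 8) * Real.exp (-(m : ℝ)) :=
        h1.trans (h2.trans h3)
    _ = (KK * Real.exp (-(m : ℝ))) * Real.exp (-(2 * 8)) := by
        unfold KK
        rw [← Real.exp_add, ← Real.exp_add, ← Real.exp_add]
        congr 1
        ring
    _ ≤ (KK * Real.exp (-(m : ℝ))) * ∏ p ∈ Q, (1 - 1 / (p : ℝ)) :=
        mul_le_mul_of_nonneg_left h6 (by have := KK_pos; positivity)

/-- the recursion over the blocks `(y_{k+1}, y_k]`, `y_k = y^{2^{-k}}`. -/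
lemma stages {y : ℝ} (hy : 1 ≤ y) {b : ℕ} (hb : Even b) (k : ℕ) :
    ∃ u l : Finset ℕ → ℝ, Stage (pr (y ^ ((1 / 2 : ℝ) ^ k)) y) u l (y ^ (expo b k)) (y ^ (expo b k + 1))
      (Real.exp (KK * Real.exp (-(b : ℝ)) * (1 - Real.exp (-(2 * k))))) := by
  induction k with
  | zero =>
    refine ⟨fun _ => 1, fun _ => 1, ?_⟩
    have h0 : pr (y ^ ((1 / 2 : ℝ) ^ 0)) y = ∅ := by
      rw [Finset.eq_empty_iff_forall_notMem]
      intro p hp
      rw [pow_zero, Real.rpow_one, mem_pr (by linarith)] at hp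
      linarith [hp.1, hp.2.1]
    rw [h0]
    apply stage_empty.mono
    · intro p hp; simp at hp
    · rw [expo_zero, Real.rpow_zero]
    · rw [expo_zero, zero_add, Real.rpow_one]; exact hy
    · simp
  | succ k ih =>
    obtain ⟨u, l, h⟩ := ih
    set z : ℝ := y ^ ((1 / 2 : ℝ) ^ k) with hz
    set w : ℝ := y ^ ((1 / 2 : ℝ) ^ (k + 1)) with hw
    have hy0 : 0 < y := by linarith
    have hz1 : 1 ≤ z := Real.one_le_rpow hy (by positivity)
    have hw1 : 1 ≤ w := Real.one_le_rpow hy (by positivity)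
    have hwz : w ^ 2 = z := by
      rw [hw, hz, ← Real.rpow_natCast, ← Real.rpow_mul hy0.le]
      congr 1
      rw [pow_succ]; push_cast; ring
    have hwz' : w ≤ z := by rw [← hwz]; nlinarith
    have hzy : z ≤ y := by
      rw [hz]
      calc y ^ ((1 / 2 : ℝ) ^ k) ≤ y ^ (1 : ℝ) := by
            apply Real.rpow_le_rpow_of_exponent_le hy
            exact pow_le_one₀ (by norm_num) (by norm_num)
        _ = y := Real.rpow_one y
    have hsum : ∑ p ∈ pr w z, 1 / (p : ℝ) ≤ 8 := by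
      rw [← hwz]; exact sum_pr_sq_le hw1
    have hQ : ∀ p ∈ pr w z, p.Prime := fun p hp => ((mem_pr (by linarith)).1 hp).2.2
    have hE := es_block (pr w z) hQ hsum (b + 2 * k + 1)
    have hodd : Odd (b + 2 * k + 1) := by
      obtain ⟨r, hr⟩ := hb
      exact ⟨r + k, by omega⟩
    have hunion : pr z y ∪ pr w z = pr w y := pr_union (by linarith) hwz' hzy
    have hdis : Disjoint (pr z y) (pr w z) := pr_disjoint (by linarith) hwz'
    obtain ⟨u', l', h'⟩ := stage_step hdis h hodd hz1 (by positivity) (by positivity)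
      (fun q hq => ((mem_pr (by linarith)).1 hq).2.1)
      (by have := KK_pos; positivity) hE
    rw [hunion] at h'
    refine ⟨u', l', h'.mono (fun p hp => ((mem_pr (by linarith)).1 hp).2.2) ?_ ?_ ?_⟩
    · -- B
      apply le_of_eq
      have e1 : b + 2 * k + 1 - 1 = b + 2 * k := by omega
      rw [e1, hz, ← Real.rpow_natCast, ← Real.rpow_mul hy0.le, ← Real.rpow_add hy0, expo_succ]
      congr 1
      push_cast
      ring
    · -- B'
      apply max_le
      · apply le_of_eq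
        have e1 : b + 2 * k + 1 - 1 = b + 2 * k := by omega
        rw [e1, hz, ← Real.rpow_natCast, ← Real.rpow_mul hy0.le, ← Real.rpow_add hy0, expo_succ]
        congr 1
        push_cast
        ring
      · rw [hz, ← Real.rpow_natCast, ← Real.rpow_mul hy0.le, ← Real.rpow_add hy0, expo_succ]
        apply Real.rpow_le_rpow_of_exponent_le hy
        have : (1 / 2 : ℝ) ^ k ≤ 1 := pow_le_one₀ (by norm_num) (by norm_num)
        push_cast
        nlinarith
    · -- T
      have hK := KK_pos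
      set c := KK * Real.exp (-(b : ℝ)) with hc
      have hc0 : 0 < c := by positivity
      have e1 : KK * Real.exp (-((b + 2 * k + 1 : ℕ) : ℝ)) = c * Real.exp (-(2 * k + 1)) := by
        rw [hc, mul_assoc, ← Real.exp_add]
        congr 2
        push_cast; ring
      rw [e1]
      have e2 : 1 + c * Real.exp (-(2 * (k : ℝ) + 1)) ≤ Real.exp (c * Real.exp (-(2 * (k : ℝ) + 1))) := by
        rw [add_comm]; exact Real.add_one_le_exp _
      calc Real.exp (c * (1 - Real.exp (-(2 * (k : ℝ))))) * (1 + c * Real.exp (-(2 * (k : ℝ) + 1)))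
          ≤ Real.exp (c * (1 - Real.exp (-(2 * (k : ℝ))))) * Real.exp (c * Real.exp (-(2 * (k : ℝ) + 1))) :=
            mul_le_mul_of_nonneg_left e2 (Real.exp_pos _).le
        _ = Real.exp (c * ((1 - Real.exp (-(2 * (k : ℝ)))) + Real.exp (-(2 * (k : ℝ) + 1)))) := by
            rw [← Real.exp_add]; congr 1; ring
        _ ≤ Real.exp (c * (1 - Real.exp (-(2 * ((k + 1 : ℕ) : ℝ))))) := by
            apply Real.exp_le_exp.2
            apply mul_le_mul_of_nonneg_left _ hc0.le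
            have f1 : Real.exp (-(2 * (k : ℝ) + 1)) = Real.exp (-(2 * (k : ℝ))) * Real.exp (-1) := by
              rw [← Real.exp_add]; congr 1; ring
            have f2 : Real.exp (-(2 * ((k + 1 : ℕ) : ℝ))) = Real.exp (-(2 * (k : ℝ))) * Real.exp (-1) ^ 2 := by
              rw [← Real.exp_nat_mul, ← Real.exp_add]; congr 1; push_cast; ring
            rw [f1, f2]
            have f3 : Real.exp (-1) ≤ 1 / 2 := by
              rw [Real.exp_neg, one_div]
              apply inv_anti₀ (by norm_num)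
              have := Real.add_one_le_exp (1 : ℝ)
              linarith
            have f4 : 0 < Real.exp (-(2 * (k : ℝ))) := Real.exp_pos _
            have f5 : 0 < Real.exp (-1 : ℝ) := Real.exp_pos _
            nlinarith [mul_pos f4 f5, mul_nonneg f4.le (mul_nonneg (sub_nonneg.2 f3) f5.le)]

/-- all blocks together: the set of primes up to `y`. -/
lemma stage_all {y : ℝ} (hy : 1 ≤ y) {b : ℕ} (hb : Even b) :
    ∃ u l : Finset ℕ → ℝ, Stage (pr 0 y) u l (y ^ (2 * b + 4 : ℝ)) (y ^ (2 * b + 5 : ℝ))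
      (Real.exp (KK * Real.exp (-(b : ℝ)))) := by
  -- choose k with y^(2^-k) < 2
  obtain ⟨k, hk⟩ : ∃ k : ℕ, y ^ ((1 / 2 : ℝ) ^ k) < 2 := by
    have h1 : Filter.Tendsto (fun k : ℕ => y ^ ((1 / 2 : ℝ) ^ k)) Filter.atTop (nhds (y ^ (0 : ℝ))) := by
      apply Filter.Tendsto.rpow tendsto_const_nhds
      · exact tendsto_pow_atTop_nhds_zero_of_lt_one (by norm_num) (by norm_num)
      · left; linarith
    rw [Real.rpow_zero] at h1
    exact (h1.eventually_lt_const (by norm_num)).exists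
  obtain ⟨u, l, h⟩ := stages hy hb k
  have hset : pr (y ^ ((1 / 2 : ℝ) ^ k)) y = pr 0 y := by
    have h0 : 0 ≤ y ^ ((1 / 2 : ℝ) ^ k) := by positivity
    ext p
    rw [mem_pr h0, mem_pr le_rfl]
    constructor
    · rintro ⟨h1, h2, h3⟩
      exact ⟨by exact_mod_cast h3.pos, h2, h3⟩
    · rintro ⟨h1, h2, h3⟩
      have : (2 : ℝ) ≤ p := by exact_mod_cast h3.two_le
      exact ⟨by linarith, h2, h3⟩
  rw [hset] at h
  refine ⟨u, l, h.mono (fun p hp => ((mem_pr le_rfl).1 hp).2.2) ?_ ?_ ?_⟩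
  · exact Real.rpow_le_rpow_of_exponent_le hy (expo_le b k)
  · apply Real.rpow_le_rpow_of_exponent_le hy
    linarith [expo_le b k]
  · apply Real.exp_le_exp.2
    have : 0 < Real.exp (-(2 * (k : ℝ))) := Real.exp_pos _
    have hK := KK_pos
    have hc0 : 0 < KK * Real.exp (-(b : ℝ)) := by positivity
    nlinarith

open scoped Classical in
/-- from weights on finite sets of primes to weights on integers -/
noncomputable def toNat (P : Finset ℕ) (f : Finset ℕ → ℝ) (d : ℕ) : ℝ :=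
  if Squarefree d ∧ d.primeFactors ⊆ P then f d.primeFactors else 0

lemma squarefree_prod_primes {S : Finset ℕ} (hS : ∀ p ∈ S, p.Prime) : Squarefree (∏ p ∈ S, p) := by
  classical
  induction S using Finset.induction_on with
  | empty => simp
  | insert p S hp ih =>
    rw [Finset.prod_insert hp]
    have h1 := ih (fun q hq => hS q (Finset.mem_insert_of_mem hq))
    have hpp := hS p (Finset.mem_insert_self _ _)
    rw [Nat.squarefree_mul_iff]
    refine ⟨?_, hpp.squarefree, h1⟩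
    apply Nat.Coprime.prod_right
    intro q hq
    rw [Nat.coprime_primes hpp (hS q (Finset.mem_insert_of_mem hq))]
    rintro rfl
    exact hp hq

open scoped Classical in
lemma sum_toNat {P : Finset ℕ} (hP : ∀ p ∈ P, p.Prime) (f : Finset ℕ → ℝ) (D : Finset ℕ) (W : ℕ → ℝ) :
    ∑ d ∈ D, toNat P f d * W d
      = ∑ S ∈ P.powerset with (∏ p ∈ S, p) ∈ D, f S * W (∏ p ∈ S, p) := by
  unfold toNat
  have h1 : ∀ d, (if Squarefree d ∧ d.primeFactors ⊆ P then f d.primeFactors else 0) * W d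
      = if Squarefree d ∧ d.primeFactors ⊆ P then f d.primeFactors * W d else 0 := by
    intro d; split_ifs <;> simp
  rw [Finset.sum_congr rfl (fun d _ => h1 d), ← Finset.sum_filter]
  apply Finset.sum_nbij' (fun d => d.primeFactors) (fun S => ∏ p ∈ S, p)
  · intro d hd
    rw [Finset.mem_filter] at hd
    simp only [Finset.mem_filter, Finset.mem_powerset]
    rw [Nat.prod_primeFactors_of_squarefree hd.2.1]
    exact ⟨hd.2.2, hd.1⟩
  · intro S hS
    simp only [Finset.mem_filter, Finset.mem_powerset] at hS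
    have hpr : ∀ p ∈ S, p.Prime := fun p hp => hP p (hS.1 hp)
    rw [Finset.mem_filter, Nat.primeFactors_prod hpr]
    exact ⟨hS.2, squarefree_prod_primes hpr, hS.1⟩
  · intro d hd
    rw [Finset.mem_filter] at hd
    exact Nat.prod_primeFactors_of_squarefree hd.2.1
  · intro S hS
    simp only [Finset.mem_filter, Finset.mem_powerset] at hS
    exact Nat.primeFactors_prod (fun p hp => hP p (hS.1 hp))
  · intro d hd
    rw [Finset.mem_filter] at hd
    rw [Nat.prod_primeFactors_of_squarefree hd.2.1]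

lemma sum_toNat_divisors {P : Finset ℕ} (hP : ∀ p ∈ P, p.Prime) (f : Finset ℕ → ℝ) {n : ℕ} (hn : n ≠ 0) :
    ∑ d ∈ n.divisors, toNat P f d = ev P f (fun p => if p ∣ n then 1 else 0) := by
  classical
  have h1 := sum_toNat hP f n.divisors (fun _ => 1)
  simp only [mul_one] at h1
  rw [h1]
  unfold ev
  rw [Finset.sum_filter]
  apply Finset.sum_congr rfl
  intro S hS
  rw [Finset.mem_powerset] at hS
  have hpr : ∀ p ∈ S, p.Prime := fun p hp => hP p (hS hp)
  by_cases h : (∏ p ∈ S, p) ∣ n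
  · rw [if_pos (Nat.mem_divisors.2 ⟨h, hn⟩)]
    have : ∏ p ∈ S, (if p ∣ n then (1 : ℝ) else 0) = 1 := by
      apply Finset.prod_eq_one
      intro p hp
      rw [if_pos ((Finset.dvd_prod_of_mem (fun p => p) hp).trans h)]
    rw [this, mul_one]
  · rw [if_neg (fun hm => h (Nat.mem_divisors.1 hm).1)]
    have : ∃ p ∈ S, ¬ p ∣ n := by
      by_contra hcon
      push Not at hcon
      apply h
      exact Finset.prod_primes_dvd n (fun p hp => (hpr p hp).prime) hcon
    obtain ⟨p, hp, hpn⟩ := this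
    have h0 : ∏ p ∈ S, (if p ∣ n then (1 : ℝ) else 0) = 0 :=
      Finset.prod_eq_zero hp (by rw [if_neg hpn])
    rw [h0, mul_zero]

lemma sum_toNat_Icc {P : Finset ℕ} (hP : ∀ p ∈ P, p.Prime) (f : Finset ℕ → ℝ) {D : ℝ}
    (hD : ∀ S ⊆ P, f S ≠ 0 → (∏ p ∈ S, (p : ℝ)) ≤ D) :
    ∑ d ∈ Finset.Icc 1 ⌊D⌋₊, toNat P f d / d = ev P f (fun p => 1 / (p : ℝ)) := by
  classical
  have h1 := sum_toNat hP f (Finset.Icc 1 ⌊D⌋₊) (fun d => 1 / (d : ℝ))
  have h2 : ∑ d ∈ Finset.Icc 1 ⌊D⌋₊, toNat P f d / d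
      = ∑ d ∈ Finset.Icc 1 ⌊D⌋₊, toNat P f d * (1 / (d : ℝ)) := by
    apply Finset.sum_congr rfl; intro d _; ring
  rw [h2, h1]
  unfold ev
  rw [Finset.sum_filter]
  apply Finset.sum_congr rfl
  intro S hS
  rw [Finset.mem_powerset] at hS
  have hpr : ∀ p ∈ S, p.Prime := fun p hp => hP p (hS hp)
  have hcast : ((∏ p ∈ S, p : ℕ) : ℝ) = ∏ p ∈ S, (p : ℝ) := by push_cast; rfl
  have hprod : (1 : ℝ) / ((∏ p ∈ S, p : ℕ) : ℝ) = ∏ p ∈ S, (1 / (p : ℝ)) := by
    rw [hcast, one_div, ← Finset.prod_inv_distrib]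
    apply Finset.prod_congr rfl
    intro p _; rw [one_div]
  by_cases hf : f S = 0
  · rw [hf]; simp
  · have h3 : (∏ p ∈ S, p) ∈ Finset.Icc 1 ⌊D⌋₊ := by
      rw [Finset.mem_Icc]
      have hne : (∏ p ∈ S, p) ≠ 0 := Finset.prod_ne_zero_iff.2 fun p hp => (hpr p hp).ne_zero
      refine ⟨Nat.one_le_iff_ne_zero.2 hne, ?_⟩
      rw [Nat.le_floor_iff' hne, hcast]
      exact hD S hS hf
    rw [if_pos h3, hprod]

/-- sieve weights of level `D` for the primes `≤ y` -/
structure IsSieveWeight (y D : ℝ) (lam : ℕ → ℝ) : Prop where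
  abs_le_one : ∀ d, |lam d| ≤ 1
  sqfree : ∀ d, lam d ≠ 0 → Squarefree d
  le_level : ∀ d, lam d ≠ 0 → (d : ℝ) ≤ D
  smooth : ∀ d, lam d ≠ 0 → ∀ p, p.Prime → p ∣ d → (p : ℝ) ≤ y

lemma isSieveWeight_toNat {y D : ℝ} {f : Finset ℕ → ℝ} (habs : ∀ S, |f S| ≤ 1)
    (hD : ∀ S ⊆ pr 0 y, f S ≠ 0 → (∏ p ∈ S, (p : ℝ)) ≤ D) :
    IsSieveWeight y D (toNat (pr 0 y) f) where
  abs_le_one := by
    classical
    intro d
    unfold toNat
    split_ifs
    · exact habs _
    · simp
  sqfree := by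
    classical
    intro d hd
    unfold toNat at hd
    split_ifs at hd with h
    · exact h.1
    · exact absurd rfl hd
  le_level := by
    classical
    intro d hd
    unfold toNat at hd
    split_ifs at hd with h
    · have := hD _ h.2 hd
      have e : ((∏ p ∈ d.primeFactors, p : ℕ) : ℝ) = ∏ p ∈ d.primeFactors, (p : ℝ) := by
        push_cast; rfl
      rw [← e, Nat.prod_primeFactors_of_squarefree h.1] at this
      exact this
    · exact absurd rfl hd
  smooth := by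
    classical
    intro d hd p hp hpd
    unfold toNat at hd
    split_ifs at hd with h
    · have : p ∈ pr 0 y := h.2 (Nat.mem_primeFactors.2 ⟨hp, hpd, h.1.ne_zero⟩)
      exact ((mem_pr le_rfl).1 this).2.1
    · exact absurd rfl hd

open scoped Classical in
lemma prod_indicator {y : ℝ} {n : ℕ} :
    ∏ p ∈ pr 0 y, (1 - (if p ∣ n then (1 : ℝ) else 0))
      = if (∀ p : ℕ, p.Prime → p ∣ n → y < p) then 1 else 0 := by
  split_ifs with h
  · apply Finset.prod_eq_one
    intro p hp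
    rw [mem_pr le_rfl] at hp
    rw [if_neg, sub_zero]
    intro hpn
    linarith [h p hp.2.2 hpn, hp.2.1]
  · push Not at h
    obtain ⟨p, hp, hpn, hpy⟩ := h
    apply Finset.prod_eq_zero (i := p)
    · rw [mem_pr le_rfl]
      exact ⟨by exact_mod_cast hp.pos, hpy, hp⟩
    · rw [if_pos hpn, sub_self]

/-- `V(y) = ∏_{p ≤ y} (1 - 1/p)` -/
noncomputable def VV (y : ℝ) : ℝ := ∏ p ∈ pr 0 y, (1 - 1 / (p : ℝ))

lemma VV_pos (y : ℝ) : 0 < VV y := by
  unfold VV
  apply Finset.prod_pos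
  intro p hp
  have h2 : (2 : ℝ) ≤ p := by exact_mod_cast ((mem_pr le_rfl).1 hp).2.2.two_le
  have : 1 / (p : ℝ) ≤ 1 / 2 := one_div_le_one_div_of_le (by norm_num) h2
  linarith

/-- the weights with `D = y^(2b+5)` -/
lemma fund_b {y : ℝ} (hy : 1 ≤ y) {b : ℕ} (hb : Even b) :
    ∃ lm lp : ℕ → ℝ, IsSieveWeight y (y ^ (2 * b + 5 : ℝ)) lm ∧ IsSieveWeight y (y ^ (2 * b + 5 : ℝ)) lp ∧
      (∀ n : ℕ, n ≠ 0 → ∑ d ∈ n.divisors, lm d ≤
        ∏ p ∈ pr 0 y, (1 - (if p ∣ n then (1 : ℝ) else 0))) ∧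
      (∀ n : ℕ, n ≠ 0 → ∏ p ∈ pr 0 y, (1 - (if p ∣ n then (1 : ℝ) else 0)) ≤ ∑ d ∈ n.divisors, lp d) ∧
      (∀ D : ℝ, y ^ (2 * b + 5 : ℝ) ≤ D →
        |∑ d ∈ Finset.Icc 1 ⌊D⌋₊, lm d / d - VV y|
          ≤ (2 * KK * Real.exp (2 * KK)) * Real.exp (-(b : ℝ)) * VV y ∧
        |∑ d ∈ Finset.Icc 1 ⌊D⌋₊, lp d / d - VV y|
          ≤ (2 * KK * Real.exp (2 * KK)) * Real.exp (-(b : ℝ)) * VV y) := by
  classical
  obtain ⟨u, l, h⟩ := stage_all hy hb
  have hPr : ∀ p ∈ pr 0 y, p.Prime := fun p hp => ((mem_pr le_rfl).1 hp).2.2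
  have hu : ∀ S ⊆ pr 0 y, u S ≠ 0 → (∏ p ∈ S, (p : ℝ)) ≤ y ^ (2 * b + 5 : ℝ) := by
    intro S hS hne
    refine (h.u_supp S hS hne).trans ?_
    apply Real.rpow_le_rpow_of_exponent_le hy
    linarith
  have hl : ∀ S ⊆ pr 0 y, l S ≠ 0 → (∏ p ∈ S, (p : ℝ)) ≤ y ^ (2 * b + 5 : ℝ) := h.l_supp
  have hx0 : ∀ p : ℕ, (0 : ℝ) ≤ 1 / (p : ℝ) := fun p => by positivity
  have hx1 : ∀ p : ℕ, 1 / (p : ℝ) ≤ 1 := by
    intro p
    rcases Nat.eq_zero_or_pos p with rfl | hp
    · simp
    · rw [div_le_one (by exact_mod_cast hp)]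
      exact_mod_cast hp
  have hi0 : ∀ n : ℕ, ∀ p : ℕ, (0 : ℝ) ≤ (if p ∣ n then (1 : ℝ) else 0) := by
    intro n p; split_ifs <;> norm_num
  have hi1 : ∀ n : ℕ, ∀ p : ℕ, (if p ∣ n then (1 : ℝ) else 0) ≤ 1 := by
    intro n p; split_ifs <;> norm_num
  refine ⟨toNat (pr 0 y) l, toNat (pr 0 y) u, isSieveWeight_toNat h.l_abs hl,
    isSieveWeight_toNat h.u_abs hu, ?_, ?_, ?_⟩
  · intro n hn
    rw [sum_toNat_divisors hPr l hn]
    exact h.lower _ (hi0 n) (hi1 n)
  · intro n hn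
    rw [sum_toNat_divisors hPr u hn]
    exact h.upper _ (hi0 n) (hi1 n)
  · intro D hD
    have hV := VV_pos y
    have hK := KK_pos
    set c := KK * Real.exp (-(b : ℝ)) with hc
    have hc0 : 0 < c := by positivity
    have hcK : c ≤ KK := by
      rw [hc]
      have : Real.exp (-(b : ℝ)) ≤ 1 := by
        rw [Real.exp_le_one_iff]
        have : (0 : ℝ) ≤ b := by positivity
        linarith
      nlinarith
    set T := Real.exp c with hT
    have hT1 : 1 ≤ T := h.one_le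
    -- T^2 - 1 ≤ 2 c exp (2c)
    have hT2 : T ^ 2 - 1 ≤ (2 * KK * Real.exp (2 * KK)) * Real.exp (-(b : ℝ)) := by
      have e1 : T ^ 2 = Real.exp (2 * c) := by
        rw [hT, ← Real.exp_nat_mul]; norm_num
      have e2 : 1 - 2 * c ≤ Real.exp (-(2 * c)) := by
        have := Real.add_one_le_exp (-(2 * c)); linarith
      have e3 : Real.exp (2 * c) - 1 ≤ 2 * c * Real.exp (2 * c) := by
        have e4 := mul_le_mul_of_nonneg_right e2 (Real.exp_pos (2 * c)).le
        rw [← Real.exp_add] at e4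
        simp only [neg_add_cancel, Real.exp_zero] at e4
        linarith
      have e5 : Real.exp (2 * c) ≤ Real.exp (2 * KK) := Real.exp_le_exp.2 (by linarith)
      calc T ^ 2 - 1 ≤ 2 * c * Real.exp (2 * c) := by rw [e1]; exact e3
        _ ≤ 2 * c * Real.exp (2 * KK) := by gcongr
        _ = (2 * KK * Real.exp (2 * KK)) * Real.exp (-(b : ℝ)) := by rw [hc]; ring
    have hTT : T - 1 ≤ T ^ 2 - 1 := by nlinarith
    constructor
    · rw [sum_toNat_Icc hPr l (fun S hS hne => (hl S hS hne).trans hD), abs_le]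
      have h1 := h.dens_l
      have h2 := h.lower _ hx0 hx1
      have h3 : ev (pr 0 y) l (fun p => 1 / (p : ℝ)) ≤ VV y := h2
      have h4 : (2 - T ^ 2) * VV y ≤ ev (pr 0 y) l (fun p => 1 / (p : ℝ)) := h1
      have h5 := mul_le_mul_of_nonneg_right hT2 hV.le
      constructor
      · linarith
      · have : 0 ≤ (2 * KK * Real.exp (2 * KK)) * Real.exp (-(b : ℝ)) * VV y := by positivity
        linarith
    · rw [sum_toNat_Icc hPr u (fun S hS hne => (hu S hS hne).trans hD), abs_le]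
      have h1 : ev (pr 0 y) u (fun p => 1 / (p : ℝ)) ≤ T * VV y := h.dens_u
      have h2 : VV y ≤ ev (pr 0 y) u (fun p => 1 / (p : ℝ)) := h.upper _ hx0 hx1
      have h5 := mul_le_mul_of_nonneg_right (hTT.trans hT2) hV.le
      constructor
      · have : 0 ≤ (2 * KK * Real.exp (2 * KK)) * Real.exp (-(b : ℝ)) * VV y := by positivity
        linarith
      · linarith

lemma sum_pr_pow8 {z : ℝ} (hz : 1 ≤ z) : ∑ p ∈ pr z (z ^ 8), 1 / (p : ℝ) ≤ 24 := by
  have h2 : z ≤ z ^ 2 := by nlinarith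
  have h24 : z ^ 2 ≤ z ^ 4 := pow_le_pow_right₀ hz (by norm_num)
  have h48 : z ^ 4 ≤ z ^ 8 := pow_le_pow_right₀ hz (by norm_num)
  have e1 := pr_union (a := z) (b := z ^ 2) (c := z ^ 4) (by linarith) h2 h24
  have e2 := pr_union (a := z) (b := z ^ 4) (c := z ^ 8) (by linarith) (h2.trans h24) h48
  have d1 : Disjoint (pr (z ^ 2) (z ^ 4)) (pr z (z ^ 2)) := pr_disjoint (by linarith) h2
  have d2 : Disjoint (pr (z ^ 4) (z ^ 8)) (pr z (z ^ 4)) := pr_disjoint (by linarith) (h2.trans h24)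
  rw [← e2, Finset.sum_union d2, ← e1, Finset.sum_union d1]
  have a1 := sum_pr_sq_le hz
  have a2 := sum_pr_sq_le (w := z ^ 2) (one_le_pow₀ hz)
  have a3 := sum_pr_sq_le (w := z ^ 4) (one_le_pow₀ hz)
  rw [← pow_mul] at a2 a3
  norm_num at a2 a3 a1 ⊢
  linarith

lemma VV_le {z y : ℝ} (hz : 1 ≤ z) (hzy : z ≤ y) (hy : y ≤ z ^ 8) :
    VV z ≤ Real.exp 48 * VV y := by
  have e1 : pr z y ∪ pr 0 z = pr 0 y := pr_union le_rfl (by linarith) hzy
  have d1 : Disjoint (pr z y) (pr 0 z) := pr_disjoint le_rfl (by linarith)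
  have hQ : ∀ p ∈ pr z y, p.Prime := fun p hp => ((mem_pr (by linarith)).1 hp).2.2
  have hs : ∑ p ∈ pr z y, 1 / (p : ℝ) ≤ 24 := by
    refine le_trans ?_ (sum_pr_pow8 hz)
    apply Finset.sum_le_sum_of_subset_of_nonneg
    · intro p hp
      rw [mem_pr (by linarith)] at hp ⊢
      exact ⟨hp.1, hp.2.1.trans hy, hp.2.2⟩
    · intro p _ _; positivity
  have h1 := exp_le_prod (pr z y) hQ hs
  have h2 : VV y = (∏ p ∈ pr z y, (1 - 1 / (p : ℝ))) * VV z := by
    unfold VV
    rw [← e1, Finset.prod_union d1]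
  have h3 := VV_pos z
  calc VV z = Real.exp 48 * (Real.exp (-(2 * 24)) * VV z) := by
        rw [← mul_assoc, ← Real.exp_add]; norm_num
    _ ≤ Real.exp 48 * ((∏ p ∈ pr z y, (1 - 1 / (p : ℝ))) * VV z) := by gcongr
    _ = Real.exp 48 * VV y := by rw [h2]

open scoped Classical in
/-- **Fundamental lemma of the sieve** (Brun-Hooley). -/
theorem fundamental_lemma : ∃ C : ℝ, 0 < C ∧ ∀ y D : ℝ, 2 ≤ y → y ≤ D →
    ∃ lm lp : ℕ → ℝ, IsSieveWeight y D lm ∧ IsSieveWeight y D lp ∧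
      (∀ n : ℕ, n ≠ 0 → ∑ d ∈ n.divisors, lm d ≤
        if (∀ p : ℕ, p.Prime → p ∣ n → y < p) then 1 else 0) ∧
      (∀ n : ℕ, n ≠ 0 → (if (∀ p : ℕ, p.Prime → p ∣ n → y < p) then 1 else 0)
        ≤ ∑ d ∈ n.divisors, lp d) ∧
      |∑ d ∈ Finset.Icc 1 ⌊D⌋₊, lm d / d - VV y|
        ≤ C * Real.exp (-(1 / 2) * (Real.log D / Real.log y)) * VV y ∧
      |∑ d ∈ Finset.Icc 1 ⌊D⌋₊, lp d / d - VV y|
        ≤ C * Real.exp (-(1 / 2) * (Real.log D / Real.log y)) * VV y := by
  set C₀ : ℝ := 2 * KK * Real.exp (2 * KK) with hC₀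
  have hK := KK_pos
  have hC₀0 : 0 < C₀ := by positivity
  set C : ℝ := C₀ * Real.exp 5 + (((1 + C₀) * Real.exp 48 + 1) * Real.exp 3) with hC
  have hC0 : 0 < C := by positivity
  refine ⟨C, hC0, ?_⟩
  intro y D hy hD
  have hy0 : 0 < y := by linarith
  have hD0 : 0 < D := by linarith
  have hlog : 0 < Real.log y := Real.log_pos (by linarith)
  have hV := VV_pos y
  set s := Real.log D / Real.log y with hs
  have hs1 : 1 ≤ s := by
    rw [hs, le_div_iff₀ hlog, one_mul]
    exact Real.log_le_log hy0 hD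
  have hyD : y ^ s = D := by
    rw [Real.rpow_def_of_pos hy0, hs, mul_div_cancel₀ _ hlog.ne', Real.exp_log hD0]
  rcases le_or_gt 5 s with h5 | h5
  · -- main case
    set r := ⌊(s - 5) / 4⌋₊ with hr
    have hr1 : (r : ℝ) ≤ (s - 5) / 4 := Nat.floor_le (by linarith)
    have hr2 : (s - 5) / 4 < r + 1 := Nat.lt_floor_add_one _
    have hb : Even (2 * r) := even_two_mul r
    obtain ⟨lm, lp, h1, h2, h3, h4, h6⟩ := fund_b (y := y) (by linarith) hb
    have hlev : y ^ (2 * ((2 * r : ℕ) : ℝ) + 5) ≤ D := by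
      rw [← hyD]
      apply Real.rpow_le_rpow_of_exponent_le (by linarith)
      push_cast; linarith
    obtain ⟨h7, h8⟩ := h6 D hlev
    have hexp : C₀ * Real.exp (-((2 * r : ℕ) : ℝ)) * VV y ≤ C * Real.exp (-(1 / 2) * s) * VV y := by
      apply mul_le_mul_of_nonneg_right _ hV.le
      calc C₀ * Real.exp (-((2 * r : ℕ) : ℝ)) ≤ C₀ * (Real.exp 5 * Real.exp (-(1 / 2) * s)) := by
            apply mul_le_mul_of_nonneg_left _ hC₀0.le
            rw [← Real.exp_add]
            apply Real.exp_le_exp.2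
            push_cast; linarith
        _ = (C₀ * Real.exp 5) * Real.exp (-(1 / 2) * s) := by ring
        _ ≤ C * Real.exp (-(1 / 2) * s) := by
            apply mul_le_mul_of_nonneg_right _ (Real.exp_pos _).le
            rw [hC]
            have : 0 ≤ (((1 + C₀) * Real.exp 48 + 1) * Real.exp 3) := by positivity
            linarith
    refine ⟨lm, lp, ⟨h1.abs_le_one, h1.sqfree, fun d hd => (h1.le_level d hd).trans hlev, h1.smooth⟩,
      ⟨h2.abs_le_one, h2.sqfree, fun d hd => (h2.le_level d hd).trans hlev, h2.smooth⟩, ?_, ?_, ?_, ?_⟩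
    · intro n hn
      rw [← prod_indicator]
      exact h3 n hn
    · intro n hn
      rw [← prod_indicator]
      exact h4 n hn
    · exact h7.trans hexp
    · exact h8.trans hexp
  · -- small s
    set z := y ^ (1 / 5 : ℝ) with hz
    have hz1 : 1 ≤ z := Real.one_le_rpow (by linarith) (by norm_num)
    have hz5 : z ^ (5 : ℕ) = y := by
      rw [hz, ← Real.rpow_natCast, ← Real.rpow_mul hy0.le]
      norm_num
    have hzy : z ≤ y := by
      rw [← hz5]; exact le_self_pow₀ hz1 (by norm_num)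
    have hyz8 : y ≤ z ^ 8 := by
      rw [← hz5]; exact pow_le_pow_right₀ hz1 (by norm_num)
    obtain ⟨lm, lp, h1, h2, h3, h4, h6⟩ := fund_b (y := z) hz1 (b := 0) (by norm_num)
    have hlev : z ^ (2 * ((0 : ℕ) : ℝ) + 5) ≤ D := by
      have : (2 * ((0 : ℕ) : ℝ) + 5) = ((5 : ℕ) : ℝ) := by norm_num
      rw [this, Real.rpow_natCast, hz5]
      exact hD
    obtain ⟨h7, h8⟩ := h6 D hlev
    have hVz := VV_le hz1 hzy hyz8
    have hes : Real.exp (-3) ≤ Real.exp (-(1 / 2) * s) := Real.exp_le_exp.2 (by linarith)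
    have hCs : (1 + C₀) * Real.exp 48 + 1 ≤ C * Real.exp (-(1 / 2) * s) := by
      calc (1 + C₀) * Real.exp 48 + 1
          = (((1 + C₀) * Real.exp 48 + 1) * Real.exp 3) * Real.exp (-3) := by
            rw [mul_assoc, ← Real.exp_add]; norm_num
        _ ≤ C * Real.exp (-3) := by
            apply mul_le_mul_of_nonneg_right _ (Real.exp_pos _).le
            rw [hC]
            have : 0 ≤ C₀ * Real.exp 5 := by positivity
            linarith
        _ ≤ C * Real.exp (-(1 / 2) * s) := mul_le_mul_of_nonneg_left hes hC0.le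
    refine ⟨fun _ => 0, lp, ?_, ⟨h2.abs_le_one, h2.sqfree, fun d hd => (h2.le_level d hd).trans hlev,
      fun d hd p hp hpd => (h2.smooth d hd p hp hpd).trans hzy⟩, ?_, ?_, ?_, ?_⟩
    · exact ⟨by simp, by simp, by simp, by simp⟩
    · intro n _
      rw [Finset.sum_const_zero]
      split_ifs <;> norm_num
    · intro n hn
      refine le_trans ?_ (h4 n hn)
      rw [prod_indicator]
      by_cases h : ∀ p : ℕ, p.Prime → p ∣ n → y < p
      · rw [if_pos h, if_pos (fun p hp hpn => lt_of_le_of_lt hzy (h p hp hpn))]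
      · rw [if_neg h]; split_ifs <;> norm_num
    · have e1 : |∑ d ∈ Finset.Icc 1 ⌊D⌋₊, (0 : ℝ) / (d : ℝ) - VV y| = VV y := by
        simp only [zero_div, Finset.sum_const_zero, zero_sub, abs_neg]
        exact abs_of_pos hV
      rw [e1]
      have : 1 ≤ (1 + C₀) * Real.exp 48 + 1 := by
        have : 0 ≤ (1 + C₀) * Real.exp 48 := by positivity
        linarith
      nlinarith
    · have e0 : Real.exp (-((0 : ℕ) : ℝ)) = 1 := by simp
      rw [e0, mul_one] at h8
      have hVz0 := VV_pos z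
      rw [abs_le] at h8 ⊢
      have k1 : (1 + C₀) * VV z ≤ (1 + C₀) * (Real.exp 48 * VV y) :=
        mul_le_mul_of_nonneg_left hVz (by linarith)
      have k2 := mul_le_mul_of_nonneg_right hCs hV.le
      have k3 : VV y ≤ VV z := by
        have e1 : pr z y ∪ pr 0 z = pr 0 y := pr_union le_rfl (by linarith) hzy
        have d1 : Disjoint (pr z y) (pr 0 z) := pr_disjoint le_rfl (by linarith)
        have h2 : VV y = (∏ p ∈ pr z y, (1 - 1 / (p : ℝ))) * VV z := by
          unfold VV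
          rw [← e1, Finset.prod_union d1]
        have h3 : ∏ p ∈ pr z y, (1 - 1 / (p : ℝ)) ≤ 1 := by
          apply Finset.prod_le_one
          · intro p hp
            have h2 : (2 : ℝ) ≤ p := by exact_mod_cast ((mem_pr (by linarith)).1 hp).2.2.two_le
            have : 1 / (p : ℝ) ≤ 1 / 2 := one_div_le_one_div_of_le (by norm_num) h2
            linarith
          · intro p _
            have : 0 ≤ 1 / (p : ℝ) := by positivity
            linarith
        rw [h2]
        nlinarith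
      have k4 : 0 ≤ C₀ * VV z := by positivity
      have k5 : VV y + (1 + C₀) * VV z ≤ C * Real.exp (-(1 / 2) * s) * VV y := by
        calc VV y + (1 + C₀) * VV z ≤ VV y + (1 + C₀) * (Real.exp 48 * VV y) := by linarith
          _ = ((1 + C₀) * Real.exp 48 + 1) * VV y := by ring
          _ ≤ C * Real.exp (-(1 / 2) * s) * VV y := k2
      have k6 : (1 + C₀) * VV z = VV z + C₀ * VV z := by ring
      have h81 := h8.1
      have h82 := h8.2
      have k7 : 2 * KK * Real.exp (2 * KK) * VV z = C₀ * VV z := by rw [hC₀]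
      rw [k7] at h81 h82
      rw [k6] at k5
      constructor
      · linarith
      · linarith

end Pool.Agent.Lib.MP_0bb3d8_nt
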