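import Mathlib
import Pool.Agent.Lib.MP_0bb3d8_nt.HohDefs
import Pool.Agent.Lib.MP_0bb3d8_nt.SieveFund

/-!
Module M2: the fundamental lemma of the sieve in the form `Hoh.FundLemma`.
-/

namespace Hoh

open Pool.Agent.Lib.MP_0bb3d8_nt

lemma V_eq_VV (y : ℝ) : V y = VV y := by
  unfold V VV pr
  congr 1
  ext p
  simp only [Finset.mem_filter, Finset.mem_Icc, Finset.mem_Ioc, Nat.floor_zero]
  constructor
  · rintro ⟨⟨h1, h2⟩, h3⟩; exact ⟨⟨by omega, h2⟩, h3⟩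
  · rintro ⟨⟨h1, h2⟩, h3⟩; exact ⟨⟨by omega, h2⟩, h3⟩

lemma V_pos (y : ℝ) : 0 < V y := by rw [V_eq_VV]; exact VV_pos y

/-- M2 -/
theorem fundLemma : FundLemma := by
  classical
  obtain ⟨C, hC, h⟩ := fundamental_lemma
  refine ⟨1 / 2, C, by norm_num, hC, ?_⟩
  intro y D hy hD
  obtain ⟨lm, lp, h1, h2, h3, h4, h5, h6⟩ := h y D hy hD
  have hr : ∀ n : ℕ, n ≠ 0 → rough y n = if (∀ p : ℕ, p.Prime → p ∣ n → y < p) then 1 else 0 := by
    intro n hn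
    show (if n ≠ 0 ∧ Rough y n then (1 : ℝ) else 0) = _
    by_cases hR : ∀ p : ℕ, p.Prime → p ∣ n → y < p
    · have hR' : Rough y n := hR
      rw [if_pos ⟨hn, hR'⟩, if_pos hR]
    · have hR' : ¬ Rough y n := hR
      rw [if_neg (fun h => hR' h.2), if_neg hR]
  refine ⟨lp, lm, fun d => ⟨h2.abs_le_one d, h1.abs_le_one d⟩, ?_, ?_, ?_, ?_⟩
  · rintro d (hd | hd)
    · exact ⟨Nat.one_le_iff_ne_zero.2 (h2.sqfree d hd).ne_zero, h2.le_level d hd⟩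
    · exact ⟨Nat.one_le_iff_ne_zero.2 (h1.sqfree d hd).ne_zero, h1.le_level d hd⟩
  · intro n hn
    rw [hr n hn]
    exact ⟨h3 n hn, h4 n hn⟩
  · rw [V_eq_VV]; exact h6
  · rw [V_eq_VV]; exact h5

end Hoh
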