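import Mathlib
import Pool.Agent.Lib.MP_0bb3d8_nt.HohDefs

/-!
Upper bounds of Mertens type: sums over primes of `log p / p`, `1 / p`, `1 / (p log p)`,
and the product `∏ (1 - 1/p)`.
-/

namespace Hoh

open Finset Real

/-- Primes `p` with `u < p ≤ v`. -/
noncomputable def pint (u v : ℝ) : Finset ℕ := (Finset.Ioc ⌊u⌋₊ ⌊v⌋₊).filter Nat.Prime

lemma mem_pint {u v : ℝ} (hu : 0 ≤ u) {p : ℕ} : p ∈ pint u v ↔ p.Prime ∧ u < p ∧ (p : ℝ) ≤ v := by
  rw [pint, Finset.mem_filter, Finset.mem_Ioc]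
  constructor
  · rintro ⟨⟨h1, h2⟩, h3⟩
    refine ⟨h3, (Nat.floor_lt hu).mp h1, ?_⟩
    exact (Nat.le_floor_iff' h3.ne_zero).mp h2
  · rintro ⟨h3, h1, h2⟩
    exact ⟨⟨(Nat.floor_lt hu).mpr h1, (Nat.le_floor_iff' h3.ne_zero).mpr h2⟩, h3⟩

lemma pow_div_dvd_factorial {n p : ℕ} (hp : p.Prime) : p ^ (n / p) ∣ n.factorial := by
  rw [hp.pow_dvd_factorial_iff (b := Nat.log p n + 2) (by omega)]
  have h1 : n / p = n / p ^ 1 := by rw [pow_one]
  rw [h1]
  exact Finset.single_le_sum (f := fun i => n / p ^ i) (fun i _ => Nat.zero_le _)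
    (by rw [Finset.mem_Ico]; omega)

lemma prod_pow_div_dvd_factorial (n : ℕ) (F : Finset ℕ) (hF : ∀ p ∈ F, p.Prime) :
    ∏ p ∈ F, p ^ (n / p) ∣ n.factorial := by
  classical
  induction F using Finset.induction_on with
  | empty => simp
  | insert q F hq ih =>
    rw [Finset.prod_insert hq]
    have hqp : q.Prime := hF q (Finset.mem_insert_self _ _)
    refine Nat.Coprime.mul_dvd_of_dvd_of_dvd ?_ (pow_div_dvd_factorial hqp)
      (ih fun p hp => hF p (Finset.mem_insert_of_mem hp))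
    refine Nat.Coprime.prod_right fun p hp => ?_
    have hpp : p.Prime := hF p (Finset.mem_insert_of_mem hp)
    refine Nat.Coprime.pow _ _ ((Nat.coprime_primes hqp hpp).mpr ?_)
    rintro rfl
    exact hq hp

lemma sum_floor_mul_log_le (n : ℕ) :
    ∑ p ∈ (Finset.Ioc 0 n).filter Nat.Prime, ((n / p : ℕ) : ℝ) * Real.log p ≤ n * Real.log n := by
  rcases Nat.eq_zero_or_pos n with h0 | h0
  · subst h0; simp
  have hdvd : ∏ p ∈ (Finset.Ioc 0 n).filter Nat.Prime, p ^ (n / p) ∣ n.factorial :=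
    prod_pow_div_dvd_factorial n _ fun p hp => (Finset.mem_filter.mp hp).2
  have hle : ∏ p ∈ (Finset.Ioc 0 n).filter Nat.Prime, p ^ (n / p) ≤ n ^ n :=
    (Nat.le_of_dvd (Nat.factorial_pos n) hdvd).trans (Nat.factorial_le_pow n)
  have hpos : 0 < ∏ p ∈ (Finset.Ioc 0 n).filter Nat.Prime, p ^ (n / p) :=
    Finset.prod_pos fun p hp => pow_pos (Finset.mem_filter.mp hp).2.pos _
  have h1 : Real.log ((∏ p ∈ (Finset.Ioc 0 n).filter Nat.Prime, p ^ (n / p) : ℕ) : ℝ) ≤
      Real.log ((n ^ n : ℕ) : ℝ) :=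
    Real.log_le_log (by exact_mod_cast hpos) (by exact_mod_cast hle)
  rw [Nat.cast_prod, Real.log_prod, Nat.cast_pow, Real.log_pow] at h1
  · refine le_trans (le_of_eq ?_) h1
    refine Finset.sum_congr rfl fun p _ => ?_
    rw [Nat.cast_pow, Real.log_pow]
  · intro p hp
    have := (Finset.mem_filter.mp hp).2.pos
    positivity

/-- Mertens upper bound: `∑_{p ≤ n} log p / p ≤ log n + log 4`. -/
lemma sum_log_div_le (n : ℕ) (hn : 0 < n) :
    ∑ p ∈ (Finset.Ioc 0 n).filter Nat.Prime, Real.log p / p ≤ Real.log n + Real.log 4 := by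
  have hn' : (0 : ℝ) < n := by exact_mod_cast hn
  have h1 := sum_floor_mul_log_le n
  have h2 : ∑ p ∈ (Finset.Ioc 0 n).filter Nat.Prime, ((n : ℝ) * (Real.log p / p) - Real.log p) ≤
      ∑ p ∈ (Finset.Ioc 0 n).filter Nat.Prime, ((n / p : ℕ) : ℝ) * Real.log p := by
    refine Finset.sum_le_sum fun p hp => ?_
    have hp' := (Finset.mem_filter.mp hp).2
    have hp0 : (0 : ℝ) < p := by exact_mod_cast hp'.pos
    have hlog : 0 ≤ Real.log p := Real.log_nonneg (by exact_mod_cast hp'.one_lt.le)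
    have h3 : (n : ℝ) / p < (n / p : ℕ) + 1 := by
      rw [div_lt_iff₀ hp0, mul_comm]
      exact_mod_cast Nat.lt_mul_div_succ n hp'.pos
    have h4 : ((n : ℝ) / p - 1) * Real.log p ≤ ((n / p : ℕ) : ℝ) * Real.log p :=
      mul_le_mul_of_nonneg_right (by linarith) hlog
    calc (n : ℝ) * (Real.log p / p) - Real.log p = ((n : ℝ) / p - 1) * Real.log p := by
          field_simp
      _ ≤ _ := h4
  have h5 : ∑ p ∈ (Finset.Ioc 0 n).filter Nat.Prime, Real.log p ≤ Real.log 4 * n := by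
    have h6 := Chebyshev.theta_le_log4_mul_x (x := (n : ℝ)) hn'.le
    unfold Chebyshev.theta at h6
    rwa [Nat.floor_natCast] at h6
  rw [Finset.sum_sub_distrib, ← Finset.mul_sum] at h2
  have h7 : (n : ℝ) * ∑ p ∈ (Finset.Ioc 0 n).filter Nat.Prime, Real.log p / p ≤
      n * (Real.log n + Real.log 4) := by linarith
  exact le_of_mul_le_mul_left h7 hn'

lemma sum_log_div_le' {x : ℝ} (hx : 1 ≤ x) :
    ∑ p ∈ (Finset.Ioc 0 ⌊x⌋₊).filter Nat.Prime, Real.log p / p ≤ Real.log x + Real.log 4 := by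
  have h0 : 0 < ⌊x⌋₊ := Nat.floor_pos.mpr hx
  refine (sum_log_div_le _ h0).trans ?_
  have h1 : (⌊x⌋₊ : ℝ) ≤ x := Nat.floor_le (by linarith)
  have h2 : Real.log (⌊x⌋₊ : ℝ) ≤ Real.log x := Real.log_le_log (by exact_mod_cast h0) h1
  linarith

/-- `∑_{u < p ≤ v} 1/p ≤ (log v + log 4) / log u`. -/
lemma sum_recip_le {u v : ℝ} (hu : 1 < u) (hv : 1 ≤ v) :
    ∑ p ∈ pint u v, (1 : ℝ) / p ≤ (Real.log v + Real.log 4) / Real.log u := by
  have hlu : 0 < Real.log u := Real.log_pos hu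
  rw [le_div_iff₀ hlu, Finset.sum_mul]
  refine le_trans ?_ (sum_log_div_le' hv)
  have hsub : pint u v ⊆ (Finset.Ioc 0 ⌊v⌋₊).filter Nat.Prime := by
    intro p hp
    rw [pint, Finset.mem_filter, Finset.mem_Ioc] at hp
    rw [Finset.mem_filter, Finset.mem_Ioc]
    exact ⟨⟨by omega, hp.1.2⟩, hp.2⟩
  calc ∑ p ∈ pint u v, (1 : ℝ) / p * Real.log u ≤ ∑ p ∈ pint u v, Real.log p / p := by
        refine Finset.sum_le_sum fun p hp => ?_
        rw [mem_pint (by linarith)] at hp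
        have hp0 : (0 : ℝ) < p := by exact_mod_cast hp.1.pos
        rw [one_div, inv_mul_eq_div]
        gcongr
        exact hp.2.1.le
    _ ≤ _ := by
        refine Finset.sum_le_sum_of_subset_of_nonneg hsub fun p hp _ => ?_
        have hp' := (Finset.mem_filter.mp hp).2
        have : 0 ≤ Real.log p := Real.log_nonneg (by exact_mod_cast hp'.one_lt.le)
        positivity

/-- Dyadic blocks: `∑_{x < p ≤ 2x} 1/p ≤ 2 log 4 / log x`. -/
lemma sum_recip_dyadic_le {x : ℝ} (hx : 1 < x) :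
    ∑ p ∈ pint x (2 * x), (1 : ℝ) / p ≤ 2 * Real.log 4 / Real.log x := by
  have hlx : 0 < Real.log x := Real.log_pos hx
  have hx0 : 0 < x := by linarith
  have hsub : pint x (2 * x) ⊆ (Finset.Ioc 0 ⌊2 * x⌋₊).filter Nat.Prime := by
    intro p hp
    rw [pint, Finset.mem_filter, Finset.mem_Ioc] at hp
    rw [Finset.mem_filter, Finset.mem_Ioc]
    exact ⟨⟨by omega, hp.1.2⟩, hp.2⟩
  have h1 : ∑ p ∈ pint x (2 * x), Real.log p ≤ Real.log 4 * (2 * x) := by
    have h6 := Chebyshev.theta_le_log4_mul_x (x := 2 * x) (by linarith)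
    unfold Chebyshev.theta at h6
    refine le_trans (Finset.sum_le_sum_of_subset_of_nonneg hsub fun p hp _ => ?_) h6
    exact Real.log_nonneg (by exact_mod_cast (Finset.mem_filter.mp hp).2.one_lt.le)
  have h2 : ∑ p ∈ pint x (2 * x), (1 : ℝ) / p ≤
      ∑ p ∈ pint x (2 * x), Real.log p * (1 / (x * Real.log x)) := by
    refine Finset.sum_le_sum fun p hp => ?_
    rw [mem_pint (by linarith)] at hp
    have hp0 : (0 : ℝ) < p := by exact_mod_cast hp.1.pos
    have h3 : Real.log x ≤ Real.log p := Real.log_le_log hx0 hp.2.1.le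
    rw [mul_one_div, div_le_div_iff₀ hp0 (by positivity), one_mul, mul_comm]
    exact mul_le_mul h3 hp.2.1.le hx0.le (by linarith)
  rw [← Finset.sum_mul] at h2
  refine h2.trans ?_
  calc (∑ p ∈ pint x (2 * x), Real.log p) * (1 / (x * Real.log x)) ≤
        (Real.log 4 * (2 * x)) * (1 / (x * Real.log x)) := by gcongr
    _ = 2 * Real.log 4 / Real.log x := by field_simp

lemma pint_union {u v w : ℝ} (hu : 0 ≤ u) (huv : u ≤ v) (hvw : v ≤ w) :
    pint u w = pint u v ∪ pint v w := by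
  ext p
  rw [Finset.mem_union, mem_pint hu, mem_pint hu, mem_pint (hu.trans huv)]
  constructor
  · rintro ⟨h1, h2, h3⟩
    rcases le_or_gt (p : ℝ) v with h | h
    · exact Or.inl ⟨h1, h2, h⟩
    · exact Or.inr ⟨h1, h, h3⟩
  · rintro (⟨h1, h2, h3⟩ | ⟨h1, h2, h3⟩)
    · exact ⟨h1, h2, h3.trans hvw⟩
    · exact ⟨h1, huv.trans_lt h2, h3⟩

lemma pint_disjoint {u v w : ℝ} (hu : 0 ≤ u) (huv : u ≤ v) : Disjoint (pint u v) (pint v w) := by
  rw [Finset.disjoint_left]
  intro p hp hp'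
  rw [mem_pint hu] at hp
  rw [mem_pint (hu.trans huv)] at hp'
  linarith [hp.2.2, hp'.2.1]

lemma pint_mono {u v u' v' : ℝ} (hu : 0 ≤ u) (huu : u ≤ u') (hvv : v' ≤ v) :
    pint u' v' ⊆ pint u v := by
  intro p hp
  rw [mem_pint (hu.trans huu)] at hp
  rw [mem_pint hu]
  exact ⟨hp.1, huu.trans_lt hp.2.1, hp.2.2.trans hvv⟩

lemma sum_recip_steps {y : ℝ} (hy : 1 < y) (k : ℕ) :
    ∑ p ∈ pint y (2 ^ k * y), (1 : ℝ) / p ≤ k * (2 * Real.log 4 / Real.log y) := by
  have hly : 0 < Real.log y := Real.log_pos hy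
  induction k with
  | zero =>
    have : pint y (2 ^ 0 * y) = ∅ := by
      rw [Finset.eq_empty_iff_forall_notMem]
      intro p hp
      rw [mem_pint (by linarith)] at hp
      linarith [hp.2.1, hp.2.2]
    rw [this]; simp
  | succ k ih =>
    have h1 : y ≤ 2 ^ k * y := by
      have : (1 : ℝ) ≤ 2 ^ k := one_le_pow₀ (by norm_num)
      nlinarith
    have h2 : (2 : ℝ) ^ (k + 1) * y = 2 * (2 ^ k * y) := by ring
    rw [h2, pint_union (by linarith) h1 (by linarith),
      Finset.sum_union (pint_disjoint (by linarith) h1)]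
    have h3 := sum_recip_dyadic_le (x := 2 ^ k * y) (by linarith)
    have h4 : 2 * Real.log 4 / Real.log (2 ^ k * y) ≤ 2 * Real.log 4 / Real.log y := by
      have : 0 < Real.log 4 := Real.log_pos (by norm_num)
      gcongr
    push_cast
    linarith

/-- `∑_{y < p ≤ z} 1/p ≤ (4 log(z/y) + 4 log 2) / log y`. -/
lemma sum_recip_fine {y z : ℝ} (hy : 1 < y) (hyz : y ≤ z) :
    ∑ p ∈ pint y z, (1 : ℝ) / p ≤ (4 * Real.log (z / y) + 4 * Real.log 2) / Real.log y := by
  have hly : 0 < Real.log y := Real.log_pos hy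
  have hl2 : 0 < Real.log 2 := Real.log_pos (by norm_num)
  have hzy : 1 ≤ z / y := by rw [le_div_iff₀ (by linarith)]; linarith
  set k := ⌈Real.log (z / y) / Real.log 2⌉₊ with hk
  have h1 : Real.log (z / y) / Real.log 2 ≤ k := Nat.le_ceil _
  have h2 : (k : ℝ) < Real.log (z / y) / Real.log 2 + 1 :=
    Nat.ceil_lt_add_one (div_nonneg (Real.log_nonneg hzy) hl2.le)
  have h3 : z ≤ 2 ^ k * y := by
    rw [div_le_iff₀ hl2, ← Real.log_pow, Real.log_le_log_iff (by linarith) (by positivity),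
      div_le_iff₀ (by linarith)] at h1
    exact h1
  have h4 : ∑ p ∈ pint y z, (1 : ℝ) / p ≤ ∑ p ∈ pint y (2 ^ k * y), (1 : ℝ) / p :=
    Finset.sum_le_sum_of_subset_of_nonneg (pint_mono (by linarith) le_rfl h3)
      (fun p _ _ => by positivity)
  refine h4.trans ((sum_recip_steps hy k).trans ?_)
  have hl4 : Real.log 4 = 2 * Real.log 2 := by
    rw [show (4 : ℝ) = 2 ^ 2 by norm_num, Real.log_pow]; norm_num
  rw [hl4, mul_div_assoc', div_le_div_iff_of_pos_right hly]
  have h5 : (k : ℝ) * Real.log 2 ≤ Real.log (z / y) + Real.log 2 := by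
    have := mul_le_mul_of_nonneg_right h2.le hl2.le
    rw [add_mul, div_mul_cancel₀ _ hl2.ne', one_mul] at this
    exact this
  linarith

/-- `∑_{y < p ≤ z} 1/(p log p) ≤ 8 / log y` for `y ≥ 2`. -/
lemma sum_recip_log_le {y : ℝ} (hy : 2 ≤ y) (k : ℕ) :
    ∑ p ∈ pint y (y ^ (2 ^ k : ℕ)), (1 : ℝ) / (p * Real.log p) ≤
      4 / Real.log y * ∑ j ∈ Finset.range k, (1 / 2 : ℝ) ^ j := by
  have hly : 0 < Real.log y := Real.log_pos (by linarith)
  have hl4 : Real.log 4 ≤ 2 * Real.log y := by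
    rw [show (4 : ℝ) = 2 ^ 2 by norm_num, Real.log_pow]
    have := Real.log_le_log (by norm_num) hy
    push_cast; linarith
  induction k with
  | zero =>
    have : pint y (y ^ (2 ^ 0 : ℕ)) = ∅ := by
      rw [Finset.eq_empty_iff_forall_notMem]
      intro p hp
      rw [mem_pint (by linarith)] at hp
      simp only [pow_zero, pow_one] at hp
      linarith [hp.2.1, hp.2.2]
    rw [this]; simp
  | succ k ih =>
    set u := y ^ (2 ^ k : ℕ) with hu
    have hyu : y ≤ u := by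
      rw [hu]
      calc y = y ^ 1 := (pow_one y).symm
        _ ≤ y ^ (2 ^ k) := pow_le_pow_right₀ (by linarith) Nat.one_le_two_pow
    have hlu : Real.log u = 2 ^ k * Real.log y := by
      rw [hu, Real.log_pow]; push_cast; ring
    have huu : y ^ (2 ^ (k + 1) : ℕ) = u ^ 2 := by
      rw [hu, ← pow_mul, pow_succ]
    have hu1 : 1 < u := by linarith
    rw [huu, pint_union (by linarith) hyu (by nlinarith),
      Finset.sum_union (pint_disjoint (by linarith) hyu), Finset.sum_range_succ, mul_add]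
    refine add_le_add ih ?_
    have h1 : ∑ p ∈ pint u (u ^ 2), (1 : ℝ) / (p * Real.log p) ≤
        ∑ p ∈ pint u (u ^ 2), (1 / Real.log u) * ((1 : ℝ) / p) := by
      refine Finset.sum_le_sum fun p hp => ?_
      rw [mem_pint (by linarith)] at hp
      have hp0 : (0 : ℝ) < p := by exact_mod_cast hp.1.pos
      have h2 : Real.log u ≤ Real.log p := Real.log_le_log (by linarith) hp.2.1.le
      have h3 : 0 < Real.log u := Real.log_pos hu1
      rw [one_div_mul_one_div, mul_comm (p : ℝ)]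
      gcongr
    refine h1.trans ?_
    rw [← Finset.mul_sum]
    have h4 := sum_recip_le (u := u) (v := u ^ 2) hu1 (by nlinarith)
    have h5 : 0 < Real.log u := Real.log_pos hu1
    have h6 : (Real.log (u ^ 2) + Real.log 4) / Real.log u ≤ 4 := by
      rw [div_le_iff₀ h5, Real.log_pow]
      have : Real.log y ≤ Real.log u := Real.log_le_log (by linarith) hyu
      push_cast; linarith
    calc 1 / Real.log u * ∑ p ∈ pint u (u ^ 2), (1 : ℝ) / p ≤ 1 / Real.log u * 4 := by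
          have := h4.trans h6
          gcongr
      _ = 4 / Real.log y * (1 / 2) ^ k := by
          rw [hlu, one_div_pow]
          field_simp

lemma sum_recip_log_finset {y : ℝ} (hy : 2 ≤ y) (F : Finset ℕ)
    (hF : ∀ p ∈ F, p.Prime ∧ y < p) : ∑ p ∈ F, (1 : ℝ) / (p * Real.log p) ≤ 8 / Real.log y := by
  have hly : 0 < Real.log y := Real.log_pos (by linarith)
  -- all elements of `F` lie below some iterated square
  obtain ⟨k, hk⟩ : ∃ k : ℕ, ∀ p ∈ F, (p : ℝ) ≤ y ^ (2 ^ k : ℕ) := by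
    refine ⟨F.sup id, fun p hp => ?_⟩
    have h1 : p ≤ F.sup id := Finset.le_sup (f := id) hp
    have h2 : p ≤ 2 ^ (2 ^ (F.sup id)) :=
      (h1.trans Nat.lt_two_pow_self.le).trans Nat.lt_two_pow_self.le
    calc (p : ℝ) ≤ (2 : ℝ) ^ (2 ^ (F.sup id)) := by exact_mod_cast h2
      _ ≤ y ^ (2 ^ (F.sup id)) := by gcongr
  have hsub : F ⊆ pint y (y ^ (2 ^ k : ℕ)) := by
    intro p hp
    rw [mem_pint (by linarith)]
    exact ⟨(hF p hp).1, (hF p hp).2, hk p hp⟩
  calc ∑ p ∈ F, (1 : ℝ) / (p * Real.log p) ≤ ∑ p ∈ pint y (y ^ (2 ^ k : ℕ)), (1 : ℝ) / (p * Real.log p) := by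
        refine Finset.sum_le_sum_of_subset_of_nonneg hsub fun p hp _ => ?_
        rw [mem_pint (by linarith)] at hp
        have : 0 ≤ Real.log p := Real.log_nonneg (by exact_mod_cast hp.1.one_lt.le)
        positivity
    _ ≤ 4 / Real.log y * ∑ j ∈ Finset.range k, (1 / 2 : ℝ) ^ j := sum_recip_log_le hy k
    _ ≤ 4 / Real.log y * 2 := by
        gcongr
        have h2 := (summable_geometric_two).sum_le_tsum (Finset.range k) (fun i _ => by positivity)
        rwa [tsum_geometric_two] at h2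
    _ = 8 / Real.log y := by ring

/-- `∏_{p ≤ N} (1 - 1/p) ≤ 1 / log (N + 1)`. -/
lemma prod_one_sub_le (N : ℕ) (hN : 1 ≤ N) :
    ∏ p ∈ (Finset.Ioc 0 N).filter Nat.Prime, (1 - (1 : ℝ) / p) ≤ 1 / Real.log (N + 1) := by
  let f : ℕ →* ℝ :=
    { toFun := fun n => (n : ℝ)⁻¹
      map_one' := by simp
      map_mul' := fun a b => by push_cast; rw [mul_inv] }
  have hf : ∀ {p : ℕ}, p.Prime → ‖f p‖ < 1 := by
    intro p hp
    have : (1 : ℝ) < p := by exact_mod_cast hp.one_lt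
    show ‖((p : ℝ)⁻¹)‖ < 1
    rw [norm_inv, Real.norm_natCast]
    exact inv_lt_one_of_one_lt₀ this
  obtain ⟨hs, hsum⟩ := EulerProduct.summable_and_hasSum_smoothNumbers_prod_primesBelow_geometric
    (f := f) (fun {p} hp => hf hp) (N + 1)
  have hprimes : (N + 1).primesBelow = (Finset.Ioc 0 N).filter Nat.Prime := by
    ext p
    rw [Nat.primesBelow, Finset.mem_filter, Finset.mem_filter, Finset.mem_range, Finset.mem_Ioc]
    constructor
    · rintro ⟨h1, h2⟩; exact ⟨⟨h2.pos, by omega⟩, h2⟩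
    · rintro ⟨⟨h1, h2⟩, h3⟩; exact ⟨by omega, h3⟩
  rw [hprimes] at hsum
  -- the harmonic sum is a partial sum
  have h1 : ∑ n ∈ Finset.Ioc 0 N, ((n : ℝ)⁻¹) ≤
      ∏ p ∈ (Finset.Ioc 0 N).filter Nat.Prime, (1 - f p)⁻¹ := by
    rw [← hsum.tsum_eq]
    have hmem : ∀ n ∈ Finset.Ioc 0 N, n ∈ (N + 1).smoothNumbers := by
      intro n hn
      rw [Finset.mem_Ioc] at hn
      exact Nat.mem_smoothNumbers_of_lt hn.1 (by omega)
    have h2 : ∑ n ∈ Finset.Ioc 0 N, ((n : ℝ)⁻¹) =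
        ∑ m ∈ (Finset.Ioc 0 N).subtype (· ∈ (N + 1).smoothNumbers), f m := by
      rw [Finset.sum_subtype_of_mem (f := fun n => f n) hmem]
      rfl
    rw [h2]
    apply hsum.summable.sum_le_tsum
    intro m _
    show (0 : ℝ) ≤ ((m : ℕ) : ℝ)⁻¹
    positivity
  have h3 : Real.log (N + 1) ≤ ∑ n ∈ Finset.Ioc 0 N, ((n : ℝ)⁻¹) := by
    have h4 := log_add_one_le_harmonic N
    have h5 : ((harmonic N : ℚ) : ℝ) = ∑ n ∈ Finset.Ioc 0 N, ((n : ℝ)⁻¹) := by
      rw [harmonic_eq_sum_Icc]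
      push_cast
      rfl
    rw [h5, Nat.cast_add, Nat.cast_one] at h4
    exact h4
  have hlogpos : 0 < Real.log (N + 1) := Real.log_pos (by
    have : (1 : ℝ) ≤ N := by exact_mod_cast hN
    linarith)
  have h6 := h3.trans h1
  rw [Finset.prod_inv_distrib] at h6
  have h7 : ∏ p ∈ (Finset.Ioc 0 N).filter Nat.Prime, (1 - (1 : ℝ) / p) =
      ∏ p ∈ (Finset.Ioc 0 N).filter Nat.Prime, (1 - f p) := by
    refine Finset.prod_congr rfl fun p _ => ?_
    rw [one_div]
    rfl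
  rw [h7]
  have h8 : 0 < ∏ p ∈ (Finset.Ioc 0 N).filter Nat.Prime, (1 - f p) := by
    refine Finset.prod_pos fun p hp => ?_
    have := hf (Finset.mem_filter.mp hp).2
    rw [Real.norm_eq_abs] at this
    linarith [(abs_lt.mp this).2]
  rw [le_div_iff₀ hlogpos]
  calc _ ≤ (∏ p ∈ (Finset.Ioc 0 N).filter Nat.Prime, (1 - f p)) *
        (∏ p ∈ (Finset.Ioc 0 N).filter Nat.Prime, (1 - f p))⁻¹ :=
        mul_le_mul_of_nonneg_left h6 h8.le
    _ = 1 := mul_inv_cancel₀ h8.ne'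

theorem vUpper : VUpper := by
  refine ⟨1, one_pos, fun y hy => ?_⟩
  have hN : 1 ≤ ⌊y⌋₊ := Nat.le_floor (by push_cast; linarith)
  have h1 := prod_one_sub_le ⌊y⌋₊ hN
  have h2 : (Finset.Icc 1 ⌊y⌋₊) = Finset.Ioc 0 ⌊y⌋₊ := by
    ext p; rw [Finset.mem_Icc, Finset.mem_Ioc]; omega
  rw [V, h2]
  refine h1.trans ?_
  have h3 : y < ⌊y⌋₊ + 1 := Nat.lt_floor_add_one y
  have h4 : 0 < Real.log y := Real.log_pos (by linarith)
  exact one_div_le_one_div_of_le h4 (Real.log_le_log (by linarith) h3.le)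

lemma recip_base {y z : ℝ} (hy : 2 ≤ y) (hyz : y ≤ z) (hz : z ≤ y ^ 2) :
    ∑ p ∈ pint y z, (1 : ℝ) / p ≤
      4 / Real.log 2 * Real.log (Real.log z / Real.log y) + 4 * Real.log 2 / Real.log y := by
  have hly : 0 < Real.log y := Real.log_pos (by linarith)
  have hl2 : 0 < Real.log 2 := Real.log_pos (by norm_num)
  refine (sum_recip_fine (by linarith) hyz).trans ?_
  rw [add_div]
  refine add_le_add ?_ le_rfl
  rw [Real.log_div (by linarith) (by linarith)]
  set r := Real.log z / Real.log y with hr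
  have hr1 : 1 ≤ r := by
    rw [hr, le_div_iff₀ hly, one_mul]
    exact Real.log_le_log (by linarith) hyz
  have hr2 : r ≤ 2 := by
    rw [hr, div_le_iff₀ hly]
    have := Real.log_le_log (by linarith) hz
    rw [Real.log_pow] at this
    exact_mod_cast this
  have h1 : 4 * (Real.log z - Real.log y) / Real.log y = 4 * (r - 1) := by
    rw [hr]; field_simp
  rw [h1]
  -- concavity of the logarithm on `[1, 2]`
  have h2 : (r - 1) * Real.log 2 ≤ Real.log r := by
    have h3 := strictConcaveOn_log_Ioi.concaveOn.2 (show (1 : ℝ) ∈ Set.Ioi (0 : ℝ) by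
      rw [Set.mem_Ioi]; norm_num) (show (2 : ℝ) ∈ Set.Ioi (0 : ℝ) by rw [Set.mem_Ioi]; norm_num)
      (show 0 ≤ 2 - r by linarith) (show 0 ≤ r - 1 by linarith) (by ring)
    simp only [smul_eq_mul, Real.log_one, mul_zero, zero_add] at h3
    have h4 : (2 - r) * 1 + (r - 1) * 2 = r := by ring
    rw [h4] at h3
    exact h3
  rw [div_mul_eq_mul_div, le_div_iff₀ hl2]
  nlinarith

lemma recip_step (k : ℕ) : ∀ y z : ℝ, 2 ≤ y → y ≤ z → z ≤ y ^ (2 ^ (k + 1) : ℕ) →
    ∑ p ∈ pint y z, (1 : ℝ) / p ≤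
      4 / Real.log 2 * Real.log (Real.log z / Real.log y) + 4 * Real.log 2 / Real.log y := by
  induction k with
  | zero =>
    intro y z hy hyz hz
    exact recip_base hy hyz (by simpa using hz)
  | succ k ih =>
    intro y z hy hyz hz
    rcases le_or_gt z (y ^ 2) with h | h
    · exact recip_base hy hyz h
    · have hly : 0 < Real.log y := Real.log_pos (by linarith)
      have hl2 : 0 < Real.log 2 := Real.log_pos (by norm_num)
      have hyy : y ≤ y ^ 2 := by nlinarith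
      have h1 := ih (y ^ 2) z (by nlinarith) h.le (by
        rw [← pow_mul, show 2 * 2 ^ (k + 1) = 2 ^ (k + 1 + 1) by ring]; exact hz)
      rw [pint_union (by linarith) hyy h.le, Finset.sum_union (pint_disjoint (by linarith) hyy)]
      have h2 : ∑ p ∈ pint y (y ^ 2), (1 : ℝ) / p ≤ 4 := by
        refine (sum_recip_le (u := y) (v := y ^ 2) (by linarith) (by nlinarith)).trans ?_
        have hl4 : Real.log 4 ≤ 2 * Real.log y := by
          rw [show (4 : ℝ) = 2 ^ 2 by norm_num, Real.log_pow]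
          have := Real.log_le_log (by norm_num) hy
          push_cast; linarith
        rw [div_le_iff₀ hly, Real.log_pow]
        push_cast; linarith
      have hlz : 0 < Real.log z := Real.log_pos (by nlinarith)
      have h3 : Real.log (Real.log z / Real.log (y ^ 2)) =
          Real.log (Real.log z / Real.log y) - Real.log 2 := by
        rw [Real.log_pow]
        push_cast
        rw [mul_comm, ← div_div, Real.log_div (by positivity) (by positivity)]
      have h4 : 4 * Real.log 2 / Real.log (y ^ 2) ≤ 4 * Real.log 2 / Real.log y := by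
        have := Real.log_le_log (by linarith) hyy
        gcongr
      rw [h3, mul_sub, div_mul_cancel₀ _ hl2.ne'] at h1
      linarith

theorem recipPrimes : RecipPrimes := by
  have hl2 : 0 < Real.log 2 := Real.log_pos (by norm_num)
  refine ⟨4 / Real.log 2, by positivity, fun y z hy hyz => ?_⟩
  have hly : 0 < Real.log y := Real.log_pos (by linarith)
  obtain ⟨k, hk⟩ : ∃ k : ℕ, z ≤ y ^ (2 ^ (k + 1) : ℕ) := by
    refine ⟨⌈z⌉₊, ?_⟩
    have h1 : ⌈z⌉₊ ≤ 2 ^ (2 ^ (⌈z⌉₊ + 1)) := by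
      have h2 : ⌈z⌉₊ + 1 < 2 ^ (⌈z⌉₊ + 1) := Nat.lt_two_pow_self
      have h3 : 2 ^ (⌈z⌉₊ + 1) < 2 ^ (2 ^ (⌈z⌉₊ + 1)) := Nat.lt_two_pow_self
      omega
    calc z ≤ ⌈z⌉₊ := Nat.le_ceil z
      _ ≤ (2 : ℝ) ^ (2 ^ (⌈z⌉₊ + 1)) := by exact_mod_cast h1
      _ ≤ y ^ (2 ^ (⌈z⌉₊ + 1)) := by gcongr
  have h1 := recip_step k y z hy hyz hk
  rw [pint] at h1
  refine h1.trans ?_
  rw [mul_add, mul_one_div]
  refine add_le_add le_rfl ?_
  refine div_le_div_of_nonneg_right ?_ hly.le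
  rw [le_div_iff₀ hl2]
  have : Real.log 2 ≤ 1 := by
    have := Real.log_le_sub_one_of_pos (x := 2) (by norm_num)
    linarith
  nlinarith

end Hoh
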