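import Pool.Agent.Lib.MP_0bb3d8_nt.HohFundAsymp

/-!
# M7: the combinatorial identity `1_P = g - ∑_{k ≥ 2} g1^k / k! + (non-squarefree error)`
-/

namespace Hoh

open Finset ArithmeticFunction
open scoped ArithmeticFunction.Omega

/-- The indicator function of the primes. -/
noncomputable def primeInd : ArithmeticFunction ℝ :=
  ⟨fun n => if n.Prime then 1 else 0, by simp [Nat.not_prime_zero]⟩

open scoped Classical in
/-- The indicator function of the non-squarefree `y`-rough numbers. -/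
noncomputable def nsq (y : ℝ) : ArithmeticFunction ℝ :=
  ⟨fun n => if n ≠ 0 ∧ Rough y n ∧ ¬ Squarefree n then 1 else 0, by simp⟩

lemma primeInd_apply (n : ℕ) : primeInd n = if n.Prime then 1 else 0 := rfl

open scoped Classical in
lemma nsq_apply (y : ℝ) (n : ℕ) :
    nsq y n = if n ≠ 0 ∧ Rough y n ∧ ¬ Squarefree n then 1 else 0 := rfl

open scoped Classical in
lemma rough_apply (y : ℝ) (n : ℕ) : rough y n = if n ≠ 0 ∧ Rough y n then 1 else 0 := rfl

lemma g1_apply (G : ℝ → ℝ) (L : ℝ) (n : ℕ) :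
    g1 G L n = if n.Prime then G (Real.log n / L) else 0 := rfl

lemma gg_apply (G : ℝ → ℝ) (L : ℝ) (n : ℕ) :
    gg G L n =
      if n = 0 then 0 else (n.primeFactorsList.map (fun p : ℕ => G (Real.log p / L))).prod := by
  have h : ∀ l : List ℕ, (l >>= fun a => pure (a : ℝ)) = l.map (fun a : ℕ => (a : ℝ)) := by
    intro l
    induction l with
    | nil => rfl
    | cons a l ih => simpa using ih
  change (if n = 0 then 0 else
    ((n.primeFactorsList >>= fun a => pure (a : ℝ)).map (fun p => G (Real.log p / L))).prod) = _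
  rw [h, List.map_map]
  rfl

lemma nsq_nonneg (y : ℝ) (n : ℕ) : 0 ≤ nsq y n := by
  rw [nsq_apply]; split_ifs <;> norm_num

lemma rough_nonneg (y : ℝ) (n : ℕ) : 0 ≤ rough y n := by
  rw [rough_apply]; split_ifs <;> norm_num

lemma rough_le_one (y : ℝ) (n : ℕ) : rough y n ≤ 1 := by
  rw [rough_apply]; split_ifs <;> norm_num

section
variable {G : ℝ → ℝ} {L : ℝ}

lemma gg_one : gg G L 1 = 1 := by simp [gg_apply]

lemma gg_prime_mul {p m : ℕ} (hp : p.Prime) (hm : m ≠ 0) :
    gg G L (p * m) = G (Real.log p / L) * gg G L m := by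
  rw [gg_apply, gg_apply, if_neg (Nat.mul_ne_zero hp.ne_zero hm), if_neg hm]
  have h := Nat.perm_primeFactorsList_mul hp.ne_zero hm
  rw [(h.map _).prod_eq, Nat.primeFactorsList_prime hp]
  simp

lemma gg_prime {p : ℕ} (hp : p.Prime) : gg G L p = G (Real.log p / L) := by
  have := gg_prime_mul (G := G) (L := L) hp one_ne_zero
  simpa [gg_one] using this

/-- complete multiplicativity -/
lemma gg_mul (a b : ℕ) : gg G L (a * b) = gg G L a * gg G L b := by
  rcases eq_or_ne a 0 with rfl | ha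
  · simp
  rcases eq_or_ne b 0 with rfl | hb
  · simp
  rw [gg_apply, gg_apply, gg_apply, if_neg (Nat.mul_ne_zero ha hb), if_neg ha, if_neg hb]
  have h := Nat.perm_primeFactorsList_mul ha hb
  rw [(h.map _).prod_eq]
  simp

variable (hG : ∀ v, 0 ≤ G v) (hG1 : ∀ v, G v ≤ 1)

include hG in
lemma gg_nonneg (n : ℕ) : 0 ≤ gg G L n := by
  rw [gg_apply]
  split_ifs
  · exact le_rfl
  · apply List.prod_nonneg
    intro a ha
    obtain ⟨p, _, rfl⟩ := List.mem_map.mp ha
    exact hG _

include hG hG1 in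
lemma gg_le_one (n : ℕ) : gg G L n ≤ 1 := by
  rw [gg_apply]
  split_ifs
  · exact zero_le_one
  · have : ∀ l : List ℕ, (l.map (fun p : ℕ => G (Real.log p / L))).prod ≤ 1 ∧
        0 ≤ (l.map (fun p : ℕ => G (Real.log p / L))).prod := by
      intro l
      induction l with
      | nil => simp
      | cons a l ih =>
        rw [List.map_cons, List.prod_cons]
        exact ⟨mul_le_one₀ (hG1 _) ih.2 ih.1, mul_nonneg (hG _) ih.2⟩
    exact (this _).1

/-- support of `g` -/
lemma gg_support (hG0 : ∀ v, v ≤ 1 → G v = 0) (hL : 0 < L) {n : ℕ} (hn : gg G L n ≠ 0) :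
    n ≠ 0 ∧ Rough (Real.exp L) n := by
  have hn0 : n ≠ 0 := by
    rintro rfl
    simp at hn
  refine ⟨hn0, ?_⟩
  intro p hp hpn
  obtain ⟨m, rfl⟩ := hpn
  have hm : m ≠ 0 := by
    rintro rfl
    simp at hn0
  rw [gg_prime_mul hp hm] at hn
  have h1 : G (Real.log p / L) ≠ 0 := left_ne_zero_of_mul hn
  have h2 : 1 < Real.log p / L := by
    by_contra hcon
    exact h1 (hG0 _ (not_lt.mp hcon))
  rw [lt_div_iff₀ hL, one_mul] at h2
  rwa [Real.lt_log_iff_exp_lt (by exact_mod_cast hp.pos)] at h2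

include hG hG1 in
lemma gg_le_rough (hG0 : ∀ v, v ≤ 1 → G v = 0) (hL : 0 < L) (n : ℕ) :
    gg G L n ≤ rough (Real.exp L) n := by
  by_cases h : gg G L n = 0
  · rw [h]; exact rough_nonneg _ _
  · rw [rough_apply, if_pos (gg_support hG0 hL h)]
    exact gg_le_one hG hG1 n

lemma g1_pow_succ (k n : ℕ) (hn : n ≠ 0) :
    (g1 G L ^ (k + 1)) n = ∑ p ∈ n.primeFactors, G (Real.log p / L) * (g1 G L ^ k) (n / p) := by
  rw [pow_succ', ArithmeticFunction.mul_apply,
    Nat.sum_divisorsAntidiagonal (fun a b => g1 G L a * (g1 G L ^ k) b)]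
  symm
  apply Finset.sum_subset_zero_on_sdiff
  · intro p hp
    rw [Nat.mem_primeFactors] at hp
    exact Nat.mem_divisors.mpr ⟨hp.2.1, hn⟩
  · intro d hd
    rw [Finset.mem_sdiff, Nat.mem_divisors, Nat.mem_primeFactors] at hd
    rw [g1_apply, if_neg, zero_mul]
    intro hp
    exact hd.2 ⟨hp, hd.1.1, hn⟩
  · intro p hp
    rw [g1_apply, if_pos (Nat.mem_primeFactors.mp hp).1]

/-- general upper bound for the powers of `g1` -/
lemma g1_pow_bounds (hG : ∀ v, 0 ≤ G v) (k : ℕ) : ∀ n : ℕ, n ≠ 0 →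
    0 ≤ (g1 G L ^ k) n ∧ (g1 G L ^ k) n ≤ k.factorial * gg G L n ∧
      (Ω n ≠ k → (g1 G L ^ k) n = 0) := by
  induction k with
  | zero =>
    intro n hn
    rw [pow_zero]
    rcases eq_or_ne n 1 with rfl | h1
    · simp [gg_one]
    · rw [ArithmeticFunction.one_apply_ne h1]
      refine ⟨le_rfl, ?_, fun _ => rfl⟩
      have := gg_nonneg (L := L) hG n
      positivity
  | succ k ih =>
    intro n hn
    rw [g1_pow_succ k n hn]
    have hdiv : ∀ p ∈ n.primeFactors, n / p ≠ 0 ∧ n = p * (n / p) ∧ Ω n = Ω (n / p) + 1 := by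
      intro p hp
      have hpp := (Nat.mem_primeFactors.mp hp).1
      have hpn := (Nat.mem_primeFactors.mp hp).2.1
      have h1 : n = p * (n / p) := (Nat.mul_div_cancel' hpn).symm
      have h2 : n / p ≠ 0 := by
        intro h0
        rw [h0, mul_zero] at h1
        exact hn h1
      refine ⟨h2, h1, ?_⟩
      conv_lhs => rw [h1]
      rw [cardFactors_mul hpp.ne_zero h2, cardFactors_apply_prime hpp, add_comm]
    refine ⟨?_, ?_, ?_⟩
    · apply Finset.sum_nonneg
      intro p hp
      exact mul_nonneg (hG _) (ih _ (hdiv p hp).1).1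
    · by_cases hk : Ω n = k + 1
      · have hterm : ∀ p ∈ n.primeFactors,
            G (Real.log p / L) * (g1 G L ^ k) (n / p) ≤ k.factorial * gg G L n := by
          intro p hp
          have hpp := (Nat.mem_primeFactors.mp hp).1
          obtain ⟨h2, h1, _⟩ := hdiv p hp
          have h3 : gg G L n = G (Real.log p / L) * gg G L (n / p) := by
            conv_lhs => rw [h1]
            exact gg_prime_mul hpp h2
          rw [h3]
          have h4 := mul_le_mul_of_nonneg_left (ih _ h2).2.1 (hG (Real.log p / L))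
          linarith
        refine (Finset.sum_le_sum hterm).trans ?_
        rw [Finset.sum_const, nsmul_eq_mul]
        have hcard : (n.primeFactors.card : ℝ) ≤ (k + 1 : ℕ) := by
          have h5 : n.primeFactors.card ≤ Ω n := by
            rw [cardFactors_apply, Nat.primeFactors]
            exact List.toFinset_card_le _
          rw [hk] at h5
          exact_mod_cast h5
        have h6 := gg_nonneg (L := L) hG n
        rw [Nat.factorial_succ]
        push_cast
        push_cast at hcard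
        have : 0 ≤ (k.factorial : ℝ) * gg G L n := by positivity
        nlinarith
      · rw [Finset.sum_eq_zero]
        · have := gg_nonneg (L := L) hG n
          positivity
        · intro p hp
          obtain ⟨h2, h1, h3⟩ := hdiv p hp
          rw [(ih _ h2).2.2 (by omega), mul_zero]
    · intro hk
      apply Finset.sum_eq_zero
      intro p hp
      obtain ⟨h2, h1, h3⟩ := hdiv p hp
      rw [(ih _ h2).2.2 (by omega), mul_zero]

/-- exact value on squarefree numbers -/
lemma g1_pow_squarefree (k : ℕ) : ∀ n : ℕ, Squarefree n →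
    (g1 G L ^ k) n = if Ω n = k then k.factorial * gg G L n else 0 := by
  induction k with
  | zero =>
    intro n hn
    rw [pow_zero]
    rcases eq_or_ne n 1 with rfl | h1
    · simp [gg_one]
    · rw [ArithmeticFunction.one_apply_ne h1, if_neg]
      rw [cardFactors_eq_zero_iff_eq_zero_or_one]
      exact fun h => h.elim hn.ne_zero h1
  | succ k ih =>
    intro n hn
    have hn0 := hn.ne_zero
    rw [g1_pow_succ k n hn0]
    have hdiv : ∀ p ∈ n.primeFactors, n / p ≠ 0 ∧ n = p * (n / p) ∧ Ω n = Ω (n / p) + 1 ∧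
        Squarefree (n / p) := by
      intro p hp
      have hpp := (Nat.mem_primeFactors.mp hp).1
      have hpn := (Nat.mem_primeFactors.mp hp).2.1
      have h1 : n = p * (n / p) := (Nat.mul_div_cancel' hpn).symm
      have h2 : n / p ≠ 0 := by
        intro h0
        rw [h0, mul_zero] at h1
        exact hn0 h1
      refine ⟨h2, h1, ?_, hn.squarefree_of_dvd (Nat.div_dvd_of_dvd hpn)⟩
      conv_lhs => rw [h1]
      rw [cardFactors_mul hpp.ne_zero h2, cardFactors_apply_prime hpp, add_comm]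
    by_cases hk : Ω n = k + 1
    · rw [if_pos hk]
      have hterm : ∀ p ∈ n.primeFactors,
          G (Real.log p / L) * (g1 G L ^ k) (n / p) = k.factorial * gg G L n := by
        intro p hp
        have hpp := (Nat.mem_primeFactors.mp hp).1
        obtain ⟨h2, h1, h4, h5⟩ := hdiv p hp
        have h3 : gg G L n = G (Real.log p / L) * gg G L (n / p) := by
          conv_lhs => rw [h1]
          exact gg_prime_mul hpp h2
        rw [h3, ih _ h5, if_pos (by omega)]
        ring
      rw [Finset.sum_congr rfl hterm, Finset.sum_const, nsmul_eq_mul]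
      have hcard : n.primeFactors.card = k + 1 := by
        rw [← hk, ← ArithmeticFunction.cardDistinctFactors_eq_cardFactors_iff_squarefree hn0 |>.mpr hn]
        rfl
      rw [hcard, Nat.factorial_succ]
      push_cast
      ring
    · rw [if_neg hk]
      apply Finset.sum_eq_zero
      intro p hp
      obtain ⟨h2, h1, h3, h5⟩ := hdiv p hp
      rw [ih _ h5, if_neg (by omega), mul_zero]

end

/-- A rough number is at least `y ^ Ω(n)`. -/
lemma rough_log_ge {L : ℝ} {n : ℕ} (hn : n ≠ 0) (hr : Rough (Real.exp L) n) :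
    Ω n * L ≤ Real.log n := by
  have h : ∀ l : List ℕ, (∀ p ∈ l, Real.exp L ≤ p) → Real.exp L ^ l.length ≤ (l.prod : ℝ) := by
    intro l
    induction l with
    | nil => intro _; simp
    | cons a l ih =>
      intro hl
      rw [List.length_cons, pow_succ', List.prod_cons, Nat.cast_mul]
      have h1 := hl a (by simp)
      have h2 := ih (fun p hp => hl p (by simp [hp]))
      exact mul_le_mul h1 h2 (by positivity) (by positivity)
  have h1 := h n.primeFactorsList (fun p hp =>
    (hr p (Nat.prime_of_mem_primeFactorsList hp) (Nat.dvd_of_mem_primeFactorsList hp)).le)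
  rw [Nat.prod_primeFactorsList hn, ← cardFactors_apply] at h1
  have h2 := Real.log_le_log (by positivity) h1
  rwa [Real.log_pow, Real.log_exp] at h2

/-- The pointwise identity. -/
theorem comb_pointwise {ε : ℝ} {G : ℝ → ℝ} (hG : Cut ε G) {L : ℝ} (hL : 0 < L) (K : ℕ)
    (n : ℕ) (hn1 : 1 < n) (hlo : (1 + ε) * L ≤ Real.log n)
    (hup : Real.log n < (K + 1) * L) :
    |primeInd n - gg G L n + ∑ k ∈ Finset.Icc 2 K, (1 / (k.factorial : ℝ)) * (g1 G L ^ k) n| ≤
      nsq (Real.exp L) n := by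
  have hn0 : n ≠ 0 := by omega
  have hΩ : 1 ≤ Ω n := by
    have := cardFactors_pos_iff_one_lt.mpr hn1
    omega
  have hzero : ∀ k, Ω n ≠ k → (g1 G L ^ k) n = 0 := fun k =>
    (g1_pow_bounds hG.nonneg k n hn0).2.2
  rcases Nat.lt_or_ge (Ω n) 2 with h2 | h2
  · -- prime
    have hp : n.Prime := cardFactors_eq_one_iff_prime.mp (by omega)
    rw [Finset.sum_eq_zero, primeInd_apply, if_pos hp, gg_prime hp, hG.one]
    · simpa using nsq_nonneg _ _
    · rw [le_div_iff₀ hL]
      exact hlo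
    · intro k hk
      rw [hzero k (by have := (Finset.mem_Icc.mp hk).1; omega), mul_zero]
  · have hnp : ¬ n.Prime := by
      intro hp
      have := cardFactors_eq_one_iff_prime.mpr hp
      omega
    rw [primeInd_apply, if_neg hnp]
    rcases Nat.lt_or_ge K (Ω n) with hk | hk
    · have hgg : gg G L n = 0 := by
        by_contra hne
        have h3 := rough_log_ge hn0 (gg_support hG.zero hL hne).2
        have h4 : ((K + 1 : ℕ) : ℝ) ≤ (Ω n : ℝ) := by exact_mod_cast hk
        push_cast at h4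
        nlinarith
      rw [hgg, Finset.sum_eq_zero]
      · simpa using nsq_nonneg _ _
      · intro k hk'
        rw [hzero k (by have := (Finset.mem_Icc.mp hk').2; omega), mul_zero]
    · rw [Finset.sum_eq_single (Ω n)]
      · have hfac : (0 : ℝ) < ((Ω n).factorial : ℝ) := by positivity
        by_cases hsq : Squarefree n
        · rw [g1_pow_squarefree _ n hsq, if_pos rfl]
          have : 0 - gg G L n + 1 / ((Ω n).factorial : ℝ) * (((Ω n).factorial : ℝ) * gg G L n) = 0 := by
            field_simp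
            ring
          rw [this, abs_zero]
          exact nsq_nonneg _ _
        · obtain ⟨b1, b2, _⟩ := g1_pow_bounds (L := L) hG.nonneg (Ω n) n hn0
          have b3 : 0 ≤ 1 / ((Ω n).factorial : ℝ) * (g1 G L ^ (Ω n)) n := by positivity
          have b4 : 1 / ((Ω n).factorial : ℝ) * (g1 G L ^ (Ω n)) n ≤ gg G L n := by
            rw [one_div, inv_mul_le_iff₀ hfac]
            exact b2
          have b5 : gg G L n ≤ nsq (Real.exp L) n := by
            by_cases h : gg G L n = 0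
            · rw [h]; exact nsq_nonneg _ _
            · have h' := gg_support hG.zero hL h
              rw [nsq_apply, if_pos ⟨h'.1, h'.2, hsq⟩]
              exact gg_le_one hG.nonneg hG.le_one n
          refine le_trans ?_ b5
          rw [abs_le]
          constructor <;> linarith
      · intro k _ hk'
        rw [hzero k (Ne.symm hk'), mul_zero]
      · intro hcon
        exact absurd (Finset.mem_Icc.mpr ⟨h2, hk⟩) hcon

/-- `ST` as a finite sum. -/
lemma ST_eq_sum_Fw {φ : ℝ → ℝ} (hφ : Bump φ) {s T X : ℝ} (hT : 0 < T) (hX : 0 < X) (N : ℕ)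
    (hN : X * Real.exp (1 / T) ≤ N) (a : ArithmeticFunction ℝ) :
    ST φ s T X a = ∑ n ∈ Finset.Icc 1 N, Fw φ s T X n * a n := by
  unfold ST
  rw [tsum_eq_sum (s := Finset.Icc 1 N)]
  · apply Finset.sum_congr rfl
    intro n _
    unfold Fw
    ring
  · intro n hn
    rw [Finset.mem_Icc] at hn
    rcases Nat.eq_zero_or_pos n with rfl | hn0
    · simp
    · have hnN : N < n := by
        by_contra hcon
        exact hn ⟨hn0, by omega⟩
      have hnN' : (N : ℝ) < n := by exact_mod_cast hnN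
      have := Fw_zero hφ (s := s) hT hX n (Nat.cast_nonneg n) (Or.inr (hN.trans hnN'.le))
      unfold Fw at this
      rw [mul_assoc, this, mul_zero]

/-- Comparison of `ST` for two arithmetic functions which are pointwise comparable on the
window. -/
lemma ST_mono_win {φ : ℝ → ℝ} (hφ : Bump φ) {s T X : ℝ} (hT : 0 < T) (hX : 0 < X)
    (a b : ArithmeticFunction ℝ)
    (h : ∀ n : ℕ, X < n → (n : ℝ) < X * Real.exp (1 / T) → a n ≤ b n) :
    ST φ s T X a ≤ ST φ s T X b := by
  have hN := Nat.le_ceil (X * Real.exp (1 / T))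
  rw [ST_eq_sum_Fw hφ hT hX _ hN, ST_eq_sum_Fw hφ hT hX _ hN]
  apply Finset.sum_le_sum
  intro n _
  by_cases h1 : (n : ℝ) ≤ X ∨ X * Real.exp (1 / T) ≤ n
  · rw [Fw_zero hφ hT hX n (Nat.cast_nonneg n) h1, zero_mul, zero_mul]
  · push Not at h1
    exact mul_le_mul_of_nonneg_left (h n h1.1 h1.2) (Fw_nonneg hφ hT n (Nat.cast_nonneg n))

lemma ST_abs_le_win {φ : ℝ → ℝ} (hφ : Bump φ) {s T X : ℝ} (hT : 0 < T) (hX : 0 < X)
    (a b : ArithmeticFunction ℝ)
    (h : ∀ n : ℕ, X < n → (n : ℝ) < X * Real.exp (1 / T) → |a n| ≤ b n) :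
    |ST φ s T X a| ≤ ST φ s T X b := by
  have hN := Nat.le_ceil (X * Real.exp (1 / T))
  rw [ST_eq_sum_Fw hφ hT hX _ hN, ST_eq_sum_Fw hφ hT hX _ hN]
  refine (Finset.abs_sum_le_sum_abs _ _).trans (Finset.sum_le_sum ?_)
  intro n _
  rw [abs_mul, abs_of_nonneg (Fw_nonneg hφ hT n (Nat.cast_nonneg n))]
  by_cases h1 : (n : ℝ) ≤ X ∨ X * Real.exp (1 / T) ≤ n
  · rw [Fw_zero hφ hT hX n (Nat.cast_nonneg n) h1, zero_mul, zero_mul]
  · push Not at h1
    exact mul_le_mul_of_nonneg_left (h n h1.1 h1.2) (Fw_nonneg hφ hT n (Nat.cast_nonneg n))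

/-- linearity -/
lemma ST_add_win {φ : ℝ → ℝ} (hφ : Bump φ) {s T X : ℝ} (hT : 0 < T) (hX : 0 < X)
    (a b : ArithmeticFunction ℝ) : ST φ s T X (a + b) = ST φ s T X a + ST φ s T X b := by
  have hN := Nat.le_ceil (X * Real.exp (1 / T))
  rw [ST_eq_sum_Fw hφ hT hX _ hN, ST_eq_sum_Fw hφ hT hX _ hN, ST_eq_sum_Fw hφ hT hX _ hN,
    ← Finset.sum_add_distrib]
  apply Finset.sum_congr rfl
  intro n _
  rw [ArithmeticFunction.add_apply, mul_add]

/-- The non-squarefree rough numbers are negligible. -/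
theorem ST_nsq_le {φ : ℝ → ℝ} (hφ : Bump φ) : ∃ C : ℝ, 0 < C ∧ ∀ y s T X : ℝ, 1 ≤ y → 0 < s →
    s ≤ 1 → 1 / 4 ≤ T → 1 ≤ X → ST φ s T X (nsq y) ≤ C * (1 / y + T / Real.sqrt X) := by
  obtain ⟨M, hM0, hM⟩ := Bump.deriv_bdd hφ
  refine ⟨2 + (8 + M) * Real.exp 4 * (Real.exp 2 + 1), by positivity, ?_⟩
  intro y s T X hy hs hs1 hT hX
  have hT0 : 0 < T := by linarith
  have hX0 : 0 < X := by linarith
  set N := ⌈X * Real.exp (1 / T)⌉₊ with hN
  have hNle : X * Real.exp (1 / T) ≤ N := Nat.le_ceil _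
  set Z := ⌊Real.sqrt X * Real.exp 2⌋₊ with hZ
  have hFN : ∀ w : ℝ, (N : ℝ) < w → Fw φ s T X w = 0 := by
    intro w hw
    exact Fw_zero hφ hT0 hX0 w ((Nat.cast_nonneg N).trans hw.le) (Or.inr (hNle.trans hw.le))
  have hexpT : Real.exp (1 / T) ≤ Real.exp 4 := by
    apply Real.exp_le_exp.mpr
    rw [div_le_iff₀ hT0]
    linarith
  -- pointwise majorant
  have hpt : ∀ n ∈ Finset.Icc 1 N, Fw φ s T X n * nsq y n ≤
      ∑ d ∈ Finset.Ioo ⌊y⌋₊ (Z + 1), if d ^ 2 ∣ n then Fw φ s T X n else 0 := by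
    intro n hn
    have hF0 : 0 ≤ Fw φ s T X n := Fw_nonneg hφ hT0 n (Nat.cast_nonneg n)
    have hsum0 : 0 ≤ ∑ d ∈ Finset.Ioo ⌊y⌋₊ (Z + 1), if d ^ 2 ∣ n then Fw φ s T X n else 0 := by
      apply Finset.sum_nonneg
      intro d _
      split_ifs <;> simp [hF0]
    by_cases hq : n ≠ 0 ∧ Rough y n ∧ ¬ Squarefree n
    · rw [nsq_apply, if_pos hq, mul_one]
      by_cases h1 : (n : ℝ) ≤ X ∨ X * Real.exp (1 / T) ≤ n
      · rw [Fw_zero hφ hT0 hX0 n (Nat.cast_nonneg n) h1] at *
        exact hsum0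
      · push Not at h1
        obtain ⟨hn0, hr, hsq⟩ := hq
        rw [Nat.squarefree_iff_prime_squarefree] at hsq
        push Not at hsq
        obtain ⟨p, hp, hpp⟩ := hsq
        have hyp : y < p := hr p hp (dvd_trans (dvd_mul_right p p) hpp)
        have hmem : p ∈ Finset.Ioo ⌊y⌋₊ (Z + 1) := by
          rw [Finset.mem_Ioo]
          constructor
          · exact (Nat.floor_lt (by linarith)).mpr hyp
          · rw [Nat.lt_succ_iff, hZ]
            apply Nat.le_floor
            have h2 : (p * p : ℝ) ≤ n := by exact_mod_cast Nat.le_of_dvd (Nat.pos_of_ne_zero hn0) hpp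
            have h3 : (p * p : ℝ) ≤ X * Real.exp 4 := by
              refine h2.trans (h1.2.le.trans ?_)
              exact mul_le_mul_of_nonneg_left hexpT hX0.le
            have h4 : (Real.sqrt X * Real.exp 2) * (Real.sqrt X * Real.exp 2) = X * Real.exp 4 := by
              have h5 := Real.mul_self_sqrt hX0.le
              have h6 : Real.exp 4 = Real.exp 2 * Real.exp 2 := by
                rw [← Real.exp_add]; norm_num
              calc _ = (Real.sqrt X * Real.sqrt X) * (Real.exp 2 * Real.exp 2) := by ring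
                _ = _ := by rw [h5, h6]
            rw [← h4] at h3
            exact (mul_self_le_mul_self_iff (by positivity) (by positivity)).mpr h3
        have h5 : Fw φ s T X n = if p ^ 2 ∣ n then Fw φ s T X n else 0 := by
          rw [if_pos (by rwa [pow_two])]
        calc Fw φ s T X n = if p ^ 2 ∣ n then Fw φ s T X n else 0 := h5
          _ ≤ _ := Finset.single_le_sum (f := fun d : ℕ => if d ^ 2 ∣ n then Fw φ s T X n else 0)
              (fun d _ => by split_ifs <;> simp [hF0]) hmem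
    · rw [nsq_apply, if_neg hq, mul_zero]
      exact hsum0
  rw [ST_eq_sum_Fw hφ hT0 hX0 N hNle]
  refine (Finset.sum_le_sum hpt).trans ?_
  rw [Finset.sum_comm]
  have hd : ∀ d ∈ Finset.Ioo ⌊y⌋₊ (Z + 1),
      ∑ n ∈ Finset.Icc 1 N, (if d ^ 2 ∣ n then Fw φ s T X n else 0) ≤
        ((d : ℝ) ^ 2)⁻¹ + (8 + M) * Real.exp 4 * T / X := by
    intro d hd
    have hd1 : 1 ≤ d := by
      have := (Finset.mem_Ioo.mp hd).1
      omega
    have hd2 : 1 ≤ d ^ 2 := Nat.one_le_pow _ _ hd1
    have hsw := sum_divisor_swap (Fw φ s T X) N hFN (d ^ 2 : ℕ)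
      (fun e => if e = d ^ 2 then 1 else 0) (by
        intro e he
        have : e = d ^ 2 := by
          by_contra hne
          exact he (if_neg hne)
        rw [this]
        exact ⟨hd2, le_rfl⟩)
    have hL : ∀ n ∈ Finset.Icc 1 N, (if d ^ 2 ∣ n then Fw φ s T X n else 0) =
        Fw φ s T X n * ∑ e ∈ n.divisors, (if e = d ^ 2 then (1 : ℝ) else 0) := by
      intro n hn
      have hn0 : n ≠ 0 := by
        have := (Finset.mem_Icc.mp hn).1
        omega
      rw [Finset.sum_ite_eq']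
      by_cases h : d ^ 2 ∣ n
      · rw [if_pos h, if_pos (Nat.mem_divisors.mpr ⟨h, hn0⟩), mul_one]
      · rw [if_neg h, if_neg (fun h' => h (Nat.mem_divisors.mp h').1), mul_zero]
    rw [Finset.sum_congr rfl hL, hsw, Finset.sum_eq_single (d ^ 2)]
    · rw [if_pos rfl, one_mul]
      have h1 := Fw_sum hφ M hM hs hs1 hT hX N hNle (d ^ 2) hd2
      have h2 := (Fw_integral_bounds hφ hs hT hX).2.1
      rw [abs_le] at h1
      have h3 : (1 / ((d ^ 2 : ℕ) : ℝ)) * ∫ w in X..(X * Real.exp (1 / T)), Fw φ s T X w ≤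
          1 / ((d ^ 2 : ℕ) : ℝ) := by
        have : 0 < (1 / ((d ^ 2 : ℕ) : ℝ)) := by
          have : (0 : ℝ) < ((d ^ 2 : ℕ) : ℝ) := by exact_mod_cast hd2
          positivity
        nlinarith
      have h4 : 1 / ((d ^ 2 : ℕ) : ℝ) = ((d : ℝ) ^ 2)⁻¹ := by push_cast; rw [one_div]
      linarith [h1.2]
    · intro e _ he
      rw [if_neg he, zero_mul]
    · intro hcon
      exfalso
      apply hcon
      rw [Finset.mem_Icc, Nat.floor_natCast]
      exact ⟨hd2, le_rfl⟩
  refine (Finset.sum_le_sum hd).trans ?_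
  rw [Finset.sum_add_distrib, Finset.sum_const, nsmul_eq_mul, Nat.card_Ioo]
  have h1 : ∑ d ∈ Finset.Ioo ⌊y⌋₊ (Z + 1), ((d : ℝ) ^ 2)⁻¹ ≤ 2 / y := by
    refine (sum_Ioo_inv_sq_le ⌊y⌋₊ (Z + 1)).trans ?_
    apply div_le_div_of_nonneg_left (by norm_num) (by linarith)
    exact (Nat.lt_floor_add_one y).le
  have h2 : ((Z + 1 - ⌊y⌋₊ - 1 : ℕ) : ℝ) ≤ Real.sqrt X * Real.exp 2 := by
    have h3 : ((Z + 1 - ⌊y⌋₊ - 1 : ℕ) : ℝ) ≤ Z := by
      have : Z + 1 - ⌊y⌋₊ - 1 ≤ Z := by omega
      exact_mod_cast this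
    exact h3.trans (Nat.floor_le (by positivity))
  have h4 : ((Z + 1 - ⌊y⌋₊ - 1 : ℕ) : ℝ) * ((8 + M) * Real.exp 4 * T / X) ≤
      (8 + M) * Real.exp 4 * Real.exp 2 * (T / Real.sqrt X) := by
    calc _ ≤ (Real.sqrt X * Real.exp 2) * ((8 + M) * Real.exp 4 * T / X) :=
          mul_le_mul_of_nonneg_right h2 (by positivity)
      _ = (8 + M) * Real.exp 4 * Real.exp 2 * (T / Real.sqrt X) := by
          have h5 : Real.sqrt X ≠ 0 := by positivity
          have h6 : X = Real.sqrt X * Real.sqrt X := (Real.mul_self_sqrt hX0.le).symm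
          field_simp
          rw [Real.sq_sqrt hX0.le]
  have hy0 : 0 < 1 / y := by positivity
  have hTX : 0 < T / Real.sqrt X := by positivity
  have hq : 0 < (8 + M) * Real.exp 4 := by positivity
  have h7 : 2 / y = 2 * (1 / y) := by ring
  have e2 : 0 < Real.exp 2 := Real.exp_pos 2
  nlinarith [mul_pos hq hy0, mul_pos hq hTX, mul_pos (mul_pos hq e2) hy0]

/-- **M7**: the combinatorial identity inside `ST`. -/
theorem comb_identity {φ : ℝ → ℝ} (hφ : Bump φ) : ∃ C : ℝ, 0 < C ∧
    ∀ (ε : ℝ) (G : ℝ → ℝ), Cut ε G → ∀ (L s T X : ℝ) (K : ℕ), 0 < L → 0 < s → s ≤ 1 →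
    1 / 4 ≤ T → 1 ≤ X → 1 ≤ K → (1 + ε) * L ≤ Real.log X → Real.log X + 1 / T ≤ (K + 1) * L →
    |ST φ s T X primeInd - ST φ s T X (gg G L) +
      ∑ k ∈ Finset.Icc 2 K, (1 / (k.factorial : ℝ)) * ST φ s T X (g1 G L ^ k)| ≤
      C * (1 / Real.exp L + T / Real.sqrt X) := by
  obtain ⟨C, hC, hnsq⟩ := ST_nsq_le hφ
  refine ⟨C, hC, ?_⟩
  intro ε G hG L s T X K hL hs hs1 hT hX hK hlo hup
  have hT0 : 0 < T := by linarith
  have hX0 : 0 < X := by linarith
  have hNle : X * Real.exp (1 / T) ≤ (⌈X * Real.exp (1 / T)⌉₊ : ℕ) := Nat.le_ceil _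
  set N := ⌈X * Real.exp (1 / T)⌉₊ with hN
  refine le_trans ?_ (hnsq (Real.exp L) s T X (Real.one_le_exp hL.le) hs hs1 hT hX)
  have hsum : ∀ a : ArithmeticFunction ℝ, ST φ s T X a =
      ∑ n ∈ Finset.Icc 1 N, Fw φ s T X n * a n := fun a => ST_eq_sum_Fw hφ hT0 hX0 N hNle a
  have e1 : ST φ s T X primeInd - ST φ s T X (gg G L) +
      ∑ k ∈ Finset.Icc 2 K, (1 / (k.factorial : ℝ)) * ST φ s T X (g1 G L ^ k) =
      ∑ n ∈ Finset.Icc 1 N, Fw φ s T X n * (primeInd n - gg G L n +
        ∑ k ∈ Finset.Icc 2 K, (1 / (k.factorial : ℝ)) * (g1 G L ^ k) n) := by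
    have e2 : ∑ k ∈ Finset.Icc 2 K, (1 / (k.factorial : ℝ)) * ST φ s T X (g1 G L ^ k) =
        ∑ n ∈ Finset.Icc 1 N, Fw φ s T X n *
          ∑ k ∈ Finset.Icc 2 K, (1 / (k.factorial : ℝ)) * (g1 G L ^ k) n := by
      simp_rw [hsum, Finset.mul_sum]
      rw [Finset.sum_comm]
      apply Finset.sum_congr rfl
      intro n _
      apply Finset.sum_congr rfl
      intro k _
      ring
    rw [e2, hsum, hsum, ← Finset.sum_sub_distrib, ← Finset.sum_add_distrib]
    apply Finset.sum_congr rfl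
    intro n _
    ring
  rw [e1, hsum]
  refine (Finset.abs_sum_le_sum_abs _ _).trans (Finset.sum_le_sum ?_)
  intro n _
  rw [abs_mul, abs_of_nonneg (Fw_nonneg hφ hT0 n (Nat.cast_nonneg n))]
  by_cases h1 : (n : ℝ) ≤ X ∨ X * Real.exp (1 / T) ≤ n
  · rw [Fw_zero hφ hT0 hX0 n (Nat.cast_nonneg n) h1, zero_mul, zero_mul]
  · push Not at h1
    apply mul_le_mul_of_nonneg_left _ (Fw_nonneg hφ hT0 n (Nat.cast_nonneg n))
    have hn1 : 1 < n := by
      have : (1 : ℝ) < n := by linarith [h1.1]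
      exact_mod_cast this
    apply comb_pointwise hG hL K n hn1
    · exact hlo.trans (Real.log_le_log hX0 h1.1.le)
    · have h2 : Real.log n < Real.log (X * Real.exp (1 / T)) :=
        Real.log_lt_log (by linarith) h1.2
      rw [Real.log_mul hX0.ne' (Real.exp_pos _).ne', Real.log_exp] at h2
      linarith

end Hoh
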