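import Pool.Agent.Lib.MP_0bb3d8_nt.HohComb

/-!
# GDIFF: the sums `ST[g]` for short and long windows agree up to a small error
-/

namespace Hoh

open Finset ArithmeticFunction

/-- Lower bound: `g = 1` on numbers all of whose prime factors are large. -/
lemma rough_le_gg {ε : ℝ} {G : ℝ → ℝ} (hG : Cut ε G) {L : ℝ} (hL : 0 < L) (n : ℕ) :
    rough (Real.exp ((1 + ε) * L)) n ≤ gg G L n := by
  rw [rough_apply]
  split_ifs with h
  · obtain ⟨hn0, hr⟩ := h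
    rw [gg_apply, if_neg hn0]
    have : ∀ l : List ℕ, (∀ p ∈ l, Real.exp ((1 + ε) * L) < p) →
        (l.map (fun p : ℕ => G (Real.log p / L))).prod = 1 := by
      intro l
      induction l with
      | nil => intro _; simp
      | cons a l ih =>
        intro hl
        rw [List.map_cons, List.prod_cons, ih (fun p hp => hl p (by simp [hp])), mul_one]
        apply hG.one
        have h1 := hl a (by simp)
        have h2 : (1 + ε) * L < Real.log a :=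
          (Real.lt_log_iff_exp_lt (lt_trans (Real.exp_pos _) h1)).mpr h1
        rw [le_div_iff₀ hL]
        exact h2.le
    rw [this _ (fun p hp =>
      hr p (Nat.prime_of_mem_primeFactorsList hp) (Nat.dvd_of_mem_primeFactorsList hp))]
  · exact gg_nonneg hG.nonneg n

lemma one_sub_sum_le (S : Finset ℕ) (a : ℕ → ℝ) (h0 : ∀ i ∈ S, 0 ≤ a i) (h1 : ∀ i ∈ S, a i ≤ 1) :
    1 - ∑ i ∈ S, a i ≤ ∏ i ∈ S, (1 - a i) := by
  classical
  induction S using Finset.induction_on with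
  | empty => simp
  | insert i S hi ih =>
    rw [Finset.sum_insert hi, Finset.prod_insert hi]
    have ih' := ih (fun j hj => h0 j (Finset.mem_insert_of_mem hj))
      (fun j hj => h1 j (Finset.mem_insert_of_mem hj))
    have hp0 : 0 ≤ ∏ j ∈ S, (1 - a j) := Finset.prod_nonneg
      (fun j hj => by linarith [h1 j (Finset.mem_insert_of_mem hj)])
    have hp1 : ∏ j ∈ S, (1 - a j) ≤ 1 := Finset.prod_le_one
      (fun j hj => by linarith [h1 j (Finset.mem_insert_of_mem hj)])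
      (fun j hj => by linarith [h0 j (Finset.mem_insert_of_mem hj)])
    have hi0 := h0 i (Finset.mem_insert_self i S)
    nlinarith

lemma V_nonneg (y : ℝ) : 0 ≤ V y := by
  unfold V
  apply Finset.prod_nonneg
  intro p hp
  have hp1 : (1 : ℝ) ≤ p := by
    exact_mod_cast (Finset.mem_Icc.mp (Finset.mem_filter.mp hp).1).1
  have : 1 / (p : ℝ) ≤ 1 := by
    rw [div_le_one (by linarith)]
    exact hp1
  linarith

/-- comparison of `V` at two points -/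
lemma V_sub_le (y y' : ℝ) (hyy : y ≤ y') :
    V y' ≤ V y ∧ V y - V y' ≤
      V y * ∑ p ∈ (Finset.Ioc ⌊y⌋₊ ⌊y'⌋₊).filter Nat.Prime, 1 / (p : ℝ) := by
  have hfl : ⌊y⌋₊ ≤ ⌊y'⌋₊ := Nat.floor_le_floor hyy
  have hsplit : V y' = V y * ∏ p ∈ (Finset.Ioc ⌊y⌋₊ ⌊y'⌋₊).filter Nat.Prime, (1 - 1 / (p : ℝ)) := by
    unfold V
    rw [← Finset.prod_union]
    · congr 1
      rw [← Finset.filter_union]
      congr 1
      ext n
      simp only [Finset.mem_union, Finset.mem_Icc, Finset.mem_Ioc]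
      omega
    · rw [Finset.disjoint_left]
      intro n hn hn'
      have h1 := (Finset.mem_Icc.mp (Finset.mem_filter.mp hn).1).2
      have h2 := (Finset.mem_Ioc.mp (Finset.mem_filter.mp hn').1).1
      omega
  have hp : ∀ p ∈ (Finset.Ioc ⌊y⌋₊ ⌊y'⌋₊).filter Nat.Prime, 0 ≤ 1 / (p : ℝ) ∧ 1 / (p : ℝ) ≤ 1 := by
    intro p hp
    have hp1 : (1 : ℝ) ≤ p := by
      exact_mod_cast (Finset.mem_filter.mp hp).2.one_lt.le
    refine ⟨by positivity, ?_⟩
    rw [div_le_one (by linarith)]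
    exact hp1
  have h1 := one_sub_sum_le _ (fun p : ℕ => 1 / (p : ℝ)) (fun p h => (hp p h).1)
    (fun p h => (hp p h).2)
  have h2 : ∏ p ∈ (Finset.Ioc ⌊y⌋₊ ⌊y'⌋₊).filter Nat.Prime, (1 - 1 / (p : ℝ)) ≤ 1 :=
    Finset.prod_le_one (fun p h => by linarith [(hp p h).2]) (fun p h => by linarith [(hp p h).1])
  have hV := V_nonneg y
  constructor
  · rw [hsplit]
    nlinarith
  · rw [hsplit]
    nlinarith

theorem gdiff (hF : FundAsymp) (hV : VUpper) (hR : RecipPrimes) (φ : ℝ → ℝ) (hφ : Bump φ) :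
    ∃ C c : ℝ, 0 < C ∧ 0 < c ∧ ∀ η : ℝ, 0 < η → η ≤ 1 / 10 → ∀ G : ℝ → ℝ, Cut (η ^ 2) G →
    ∃ x0 : ℝ, ∀ x ≥ x0, ∀ T : ℝ, 1 / 4 ≤ T → T ≤ x ^ (1 / 8 : ℝ) →
    ∀ X : ℝ, Real.sqrt x ≤ X → X ≤ x →
    |ST φ (1 / Real.log x) T X (gg G (η * Real.log x)) -
      ST φ (1 / Real.log x) (1 / 4) X (gg G (η * Real.log x))| ≤
      C * (η + Real.exp (-c / η) / η) / Real.log x := by
  obtain ⟨c0, C0, hc0, hC0, hF⟩ := hF φ hφ
  obtain ⟨C1, hC1, hV⟩ := hV
  obtain ⟨C2, hC2, hR⟩ := hR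
  refine ⟨2 * (C0 * C1 + C1 * C2 + 3), c0 / 8, by positivity, by positivity, ?_⟩
  intro η hη hη1 G hG
  refine ⟨Real.exp (1 + 1 / η + C0 * C1 / η ^ 2 + C1 * C2 / η ^ 3 + 128 * C0 / η), ?_⟩
  intro x hx T hT hTx X hX hXx
  set ℓ := Real.log x with hℓ
  have hx0 : 0 < x := lt_of_lt_of_le (Real.exp_pos _) hx
  have hℓbig : 1 + 1 / η + C0 * C1 / η ^ 2 + C1 * C2 / η ^ 3 + 128 * C0 / η ≤ ℓ := by
    rw [hℓ]
    exact (Real.le_log_iff_exp_le hx0).mpr hx
  have p1 : 0 < 1 / η := by positivity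
  have p2 : 0 < C0 * C1 / η ^ 2 := by positivity
  have p3 : 0 < C1 * C2 / η ^ 3 := by positivity
  have p4 : 0 < 128 * C0 / η := by positivity
  have hℓ1 : 1 ≤ ℓ := by linarith
  have hℓ0 : 0 < ℓ := by linarith
  have hxexp : x = Real.exp ℓ := by rw [hℓ, Real.exp_log hx0]
  have hL : 0 < η * ℓ := by positivity
  have hL1 : 1 ≤ η * ℓ := by
    have : 1 / η ≤ ℓ := by linarith
    rw [div_le_iff₀ hη] at this
    linarith
  have hs0 : 0 < 1 / ℓ := by positivity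
  have hs1 : 1 / ℓ ≤ 1 := by rw [div_le_one hℓ0]; exact hℓ1
  -- parameters
  set y := Real.exp (η * ℓ) with hy
  set y' := Real.exp ((1 + η ^ 2) * (η * ℓ)) with hy'
  set D := Real.exp (ℓ / 4) with hD
  have hy2 : 2 ≤ y := by
    have h1 : Real.exp 1 ≤ y := Real.exp_le_exp.mpr hL1
    have h2 := Real.add_one_le_exp (1 : ℝ)
    linarith
  have hyy : y ≤ y' := by
    apply Real.exp_le_exp.mpr
    nlinarith [sq_nonneg η]
  have hη3 : (1 + η ^ 2) * η ≤ 1 / 4 := by nlinarith [sq_nonneg η]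
  have hyD' : y' ≤ D := by
    apply Real.exp_le_exp.mpr
    have h1 : (1 + η ^ 2) * (η * ℓ) = ((1 + η ^ 2) * η) * ℓ := by ring
    rw [h1]
    nlinarith
  have hyD : y ≤ D := hyy.trans hyD'
  have hlogy : Real.log y = η * ℓ := Real.log_exp _
  have hlogy' : Real.log y' = (1 + η ^ 2) * (η * ℓ) := Real.log_exp _
  have hlogD : Real.log D = ℓ / 4 := Real.log_exp _
  have hsqrt : Real.sqrt x = Real.exp (ℓ / 2) := by
    rw [Real.sqrt_eq_rpow, hxexp, ← Real.exp_mul]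
    ring_nf
  have hx8 : x ^ (1 / 8 : ℝ) = Real.exp (ℓ / 8) := by
    rw [hxexp, ← Real.exp_mul]
    ring_nf
  rw [hx8] at hTx
  rw [hsqrt] at hX
  have hX1 : 1 ≤ X := (Real.one_le_exp (by positivity)).trans hX
  have hX0 : 0 < X := by linarith
  set e0 := Real.exp (-(c0 / 8) / η) with he0
  have he0p : 0 < e0 := Real.exp_pos _
  have hVy : V y ≤ C1 / (η * ℓ) := by
    have := hV y hy2
    rwa [hlogy] at this
  have hVy0 : 0 ≤ V y := V_nonneg y
  obtain ⟨hVV1, hVV2⟩ := V_sub_le y y' hyy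
  have hrec := hR y y' hy2 hyy
  rw [hlogy, hlogy'] at hrec
  have hratio : (1 + η ^ 2) * (η * ℓ) / (η * ℓ) = 1 + η ^ 2 := by field_simp
  rw [hratio] at hrec
  have hlog1 : Real.log (1 + η ^ 2) ≤ η ^ 2 := by
    have := Real.log_le_sub_one_of_pos (by positivity : 0 < 1 + η ^ 2)
    linarith
  have hrec2 : ∑ p ∈ (Finset.Ioc ⌊y⌋₊ ⌊y'⌋₊).filter Nat.Prime, 1 / (p : ℝ) ≤
      C2 * (η ^ 2 + 1 / (η * ℓ)) := by
    refine hrec.trans (mul_le_mul_of_nonneg_left (by linarith) hC2.le)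
  -- the estimate for one window
  have hone : ∀ T : ℝ, 1 / 4 ≤ T → T ≤ Real.exp (ℓ / 8) →
      |ST φ (1 / ℓ) T X (gg G (η * ℓ)) - V y * X ^ (-(1 / ℓ)) * ∫ v, φ v| ≤
        C0 * (e0 + 1 / ℓ) * V y + C0 * Real.exp (-(ℓ / 8)) +
          V y * (C2 * (η ^ 2 + 1 / (η * ℓ))) := by
    intro T hT hTx
    have hT0 : 0 < T := by linarith
    have h1 := hF y D T X (1 / ℓ) hy2 hyD hT hX1 hs0 hs1
    have h2 := hF y' D T X (1 / ℓ) (hy2.trans hyy) hyD' hT hX1 hs0 hs1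
    have hup : ST φ (1 / ℓ) T X (gg G (η * ℓ)) ≤ ST φ (1 / ℓ) T X (rough y) :=
      ST_mono_win hφ hT0 hX0 _ _ (fun n _ _ => gg_le_rough hG.nonneg hG.le_one hG.zero hL n)
    have hlo : ST φ (1 / ℓ) T X (rough y') ≤ ST φ (1 / ℓ) T X (gg G (η * ℓ)) :=
      ST_mono_win hφ hT0 hX0 _ _ (fun n _ _ => rough_le_gg hG hL n)
    have hDTX : C0 * D * T / X ≤ C0 * Real.exp (-(ℓ / 8)) := by
      have h3 : D * T / X ≤ Real.exp (-(ℓ / 8)) := by
        rw [div_le_iff₀ hX0]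
        calc D * T ≤ Real.exp (ℓ / 4) * Real.exp (ℓ / 8) :=
              mul_le_mul_of_nonneg_left hTx (Real.exp_pos _).le
          _ = Real.exp (-(ℓ / 8)) * Real.exp (ℓ / 2) := by
              rw [← Real.exp_add, ← Real.exp_add]
              ring_nf
          _ ≤ Real.exp (-(ℓ / 8)) * X := mul_le_mul_of_nonneg_left hX (Real.exp_pos _).le
      calc C0 * D * T / X = C0 * (D * T / X) := by ring
        _ ≤ _ := mul_le_mul_of_nonneg_left h3 hC0.le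
    have hE1 : Real.exp (-c0 * (Real.log D / Real.log y)) ≤ e0 := by
      apply Real.exp_le_exp.mpr
      rw [hlogD, hlogy]
      have h4 : ℓ / 4 / (η * ℓ) = 1 / (4 * η) := by field_simp
      rw [h4]
      have h5 : -(c0 / 8) / η = -c0 * (1 / (8 * η)) := by field_simp
      rw [h5]
      have h6 : 1 / (8 * η) ≤ 1 / (4 * η) :=
        one_div_le_one_div_of_le (by positivity) (by linarith only [hη])
      exact mul_le_mul_of_nonpos_left h6 (by linarith only [hc0])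
    have hE2 : Real.exp (-c0 * (Real.log D / Real.log y')) ≤ e0 := by
      apply Real.exp_le_exp.mpr
      rw [hlogD, hlogy']
      have h4 : ℓ / 4 / ((1 + η ^ 2) * (η * ℓ)) = 1 / (4 * ((1 + η ^ 2) * η)) := by field_simp
      rw [h4]
      have h5 : -(c0 / 8) / η = -c0 * (1 / (8 * η)) := by field_simp
      rw [h5]
      have h6 : 1 / (8 * η) ≤ 1 / (4 * ((1 + η ^ 2) * η)) := by
        apply one_div_le_one_div_of_le (by positivity)
        have h7 : η ^ 2 ≤ 1 := pow_le_one₀ hη.le (by linarith only [hη1])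
        have h8 : (1 + η ^ 2) * η ≤ 2 * η :=
          mul_le_mul_of_nonneg_right (by linarith only [h7]) hη.le
        linarith only [h8]
      exact mul_le_mul_of_nonpos_left h6 (by linarith only [hc0])
    have hVy'0 : 0 ≤ V y' := V_nonneg y'
    have hb1 : C0 * (Real.exp (-c0 * (Real.log D / Real.log y)) + 1 / ℓ) * V y ≤
        C0 * (e0 + 1 / ℓ) * V y := by gcongr
    have hb2 : C0 * (Real.exp (-c0 * (Real.log D / Real.log y')) + 1 / ℓ) * V y' ≤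
        C0 * (e0 + 1 / ℓ) * V y := by gcongr
    have hφ0 : 0 ≤ ∫ v, φ v := MeasureTheory.integral_nonneg hφ.nonneg
    have hφ1 : ∫ v, φ v ≤ 1 := by
      rw [Bump.integral_eq hφ]
      calc ∫ v in (0 : ℝ)..1, φ v ≤ ∫ _ in (0 : ℝ)..1, (1 : ℝ) := by
            apply intervalIntegral.integral_mono_on zero_le_one
            · exact hφ.smooth.continuous.intervalIntegrable _ _
            · simp
            · intro v _
              exact hφ.le_one v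
        _ = 1 := by simp
    have hXs1 : X ^ (-(1 / ℓ)) ≤ 1 := Real.rpow_le_one_of_one_le_of_nonpos hX1 (by linarith)
    have hXs0 : 0 ≤ X ^ (-(1 / ℓ)) := by positivity
    have hM : V y * X ^ (-(1 / ℓ)) * (∫ v, φ v) - V y' * X ^ (-(1 / ℓ)) * (∫ v, φ v) ≤
        V y * (C2 * (η ^ 2 + 1 / (η * ℓ))) := by
      have e1 : V y * X ^ (-(1 / ℓ)) * (∫ v, φ v) - V y' * X ^ (-(1 / ℓ)) * (∫ v, φ v) =
          (V y - V y') * (X ^ (-(1 / ℓ)) * ∫ v, φ v) := by ring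
      rw [e1]
      have e2 : X ^ (-(1 / ℓ)) * (∫ v, φ v) ≤ 1 := mul_le_one₀ hXs1 hφ0 hφ1
      have e3 : 0 ≤ V y - V y' := by linarith
      calc (V y - V y') * (X ^ (-(1 / ℓ)) * ∫ v, φ v) ≤ (V y - V y') * 1 :=
            mul_le_mul_of_nonneg_left e2 e3
        _ = V y - V y' := mul_one _
        _ ≤ V y * ∑ p ∈ (Finset.Ioc ⌊y⌋₊ ⌊y'⌋₊).filter Nat.Prime, 1 / (p : ℝ) := hVV2
        _ ≤ V y * (C2 * (η ^ 2 + 1 / (η * ℓ))) := mul_le_mul_of_nonneg_left hrec2 hVy0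
    have hM0 : 0 ≤ V y * (C2 * (η ^ 2 + 1 / (η * ℓ))) := by positivity
    rw [abs_le] at h1 h2 ⊢
    constructor
    · linarith only [h2.1, hlo, hb2, hDTX, hM, hM0]
    · linarith only [h1.2, hup, hb1, hDTX, hM0]
  have ha := hone T hT hTx
  have hb := hone (1 / 4) le_rfl (by
    have : 1 ≤ Real.exp (ℓ / 8) := Real.one_le_exp (by positivity)
    linarith)
  -- final bookkeeping
  have hexp8 : Real.exp (-(ℓ / 8)) ≤ 128 / ℓ ^ 2 := by
    have h1 : (ℓ / 8) ^ 2 / 2 ≤ Real.exp (ℓ / 8) := by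
      have := Real.quadratic_le_exp_of_nonneg (by positivity : 0 ≤ ℓ / 8)
      nlinarith [(by positivity : 0 ≤ ℓ / 8)]
    rw [Real.exp_neg, inv_le_comm₀ (Real.exp_pos _) (by positivity)]
    calc (128 / ℓ ^ 2)⁻¹ = (ℓ / 8) ^ 2 / 2 := by
          rw [inv_div]; ring
      _ ≤ _ := h1
  have hB : C0 * (e0 + 1 / ℓ) * V y + C0 * Real.exp (-(ℓ / 8)) +
      V y * (C2 * (η ^ 2 + 1 / (η * ℓ))) ≤
      (C0 * C1 + C1 * C2 + 3) * (η + e0 / η) / ℓ := by
    have q1 : C0 * (e0 + 1 / ℓ) * V y ≤ C0 * (e0 + 1 / ℓ) * (C1 / (η * ℓ)) := by gcongr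
    have q2 : V y * (C2 * (η ^ 2 + 1 / (η * ℓ))) ≤
        (C1 / (η * ℓ)) * (C2 * (η ^ 2 + 1 / (η * ℓ))) := by gcongr
    have q3 : C0 * (e0 + 1 / ℓ) * (C1 / (η * ℓ)) = C0 * C1 * (e0 / η) / ℓ +
        (C0 * C1 / η ^ 2) * (η / ℓ) / ℓ := by
      field_simp
    have q4 : (C1 / (η * ℓ)) * (C2 * (η ^ 2 + 1 / (η * ℓ))) = C1 * C2 * η / ℓ +
        (C1 * C2 / η ^ 3) * (η / ℓ) / ℓ := by
      field_simp
    have q5 : (C0 * C1 / η ^ 2) * (η / ℓ) / ℓ ≤ η / ℓ := by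
      have h1 : C0 * C1 / η ^ 2 ≤ ℓ := by linarith
      calc (C0 * C1 / η ^ 2) * (η / ℓ) / ℓ ≤ ℓ * (η / ℓ) / ℓ := by gcongr
        _ = η / ℓ := by field_simp
    have q6 : (C1 * C2 / η ^ 3) * (η / ℓ) / ℓ ≤ η / ℓ := by
      have h1 : C1 * C2 / η ^ 3 ≤ ℓ := by linarith
      calc (C1 * C2 / η ^ 3) * (η / ℓ) / ℓ ≤ ℓ * (η / ℓ) / ℓ := by gcongr
        _ = η / ℓ := by field_simp
    have q7 : C0 * Real.exp (-(ℓ / 8)) ≤ η / ℓ := by
      have h1 : 128 * C0 / η ≤ ℓ := by linarith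
      calc C0 * Real.exp (-(ℓ / 8)) ≤ C0 * (128 / ℓ ^ 2) := by gcongr
        _ = (128 * C0 / η) * (η / ℓ) / ℓ := by field_simp
        _ ≤ ℓ * (η / ℓ) / ℓ := by gcongr
        _ = η / ℓ := by field_simp
    have q8 : (C0 * C1 + C1 * C2 + 3) * (η + e0 / η) / ℓ =
        C0 * C1 * (e0 / η) / ℓ + C1 * C2 * η / ℓ + 3 * (η / ℓ) +
        (C0 * C1 * η / ℓ + C1 * C2 * (e0 / η) / ℓ + 3 * (e0 / η) / ℓ) := by
      ring
    have q9 : 0 ≤ C0 * C1 * η / ℓ + C1 * C2 * (e0 / η) / ℓ + 3 * (e0 / η) / ℓ := by positivity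
    rw [q8]
    linarith
  have hfin : |ST φ (1 / ℓ) T X (gg G (η * ℓ)) - ST φ (1 / ℓ) (1 / 4) X (gg G (η * ℓ))| ≤
      2 * ((C0 * C1 + C1 * C2 + 3) * (η + e0 / η) / ℓ) := by
    rw [abs_le] at ha hb ⊢
    constructor
    · linarith [ha.1, hb.2]
    · linarith [ha.2, hb.1]
  calc _ ≤ 2 * ((C0 * C1 + C1 * C2 + 3) * (η + e0 / η) / ℓ) := hfin
    _ = 2 * (C0 * C1 + C1 * C2 + 3) * (η + e0 / η) / ℓ := by ring

end Hoh
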