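import Pool.Agent.Lib.MP_0bb3d8_nt.HohDefs

/-!
# Basic lemmas on the short sums `ST`
-/

set_option autoImplicit false

namespace Hoh

open Finset Real

theorem Bump.zero_of_le {φ : ℝ → ℝ} (h : Bump φ) {v : ℝ} (hv : v ≤ 0) : φ v = 0 :=
  h.zero v (Or.inl (by linarith))

theorem Bump.zero_of_ge {φ : ℝ → ℝ} (h : Bump φ) {v : ℝ} (hv : 1 ≤ v) : φ v = 0 :=
  h.zero v (Or.inr (by linarith))

theorem Bump.support {φ : ℝ → ℝ} (h : Bump φ) {T X : ℝ} (hT : 0 < T) (hX : 0 < X) {n : ℕ}
    (hn : φ (T * Real.log (n / X)) ≠ 0) : X < n ∧ (n : ℝ) < X * Real.exp (1 / T) := by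
  have hn0 : n ≠ 0 := by
    rintro rfl
    apply hn
    simp only [Nat.cast_zero, zero_div, Real.log_zero, mul_zero]
    exact h.zero_of_le le_rfl
  have hnpos : (0 : ℝ) < n := by exact_mod_cast Nat.pos_of_ne_zero hn0
  constructor
  · by_contra hle
    push Not at hle
    apply hn
    apply h.zero_of_le
    apply mul_nonpos_of_nonneg_of_nonpos hT.le
    apply Real.log_nonpos (by positivity)
    rw [div_le_one hX]
    exact hle
  · by_contra hle
    push Not at hle
    apply hn
    apply h.zero_of_ge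
    have h1 : Real.exp (1 / T) ≤ n / X := by
      rw [le_div_iff₀ hX]
      linarith [mul_comm X (Real.exp (1 / T))]
    have h2 : 1 / T ≤ Real.log (n / X) := by
      rw [Real.le_log_iff_exp_le (by positivity)]
      exact h1
    calc (1 : ℝ) = T * (1 / T) := by field_simp
      _ ≤ T * Real.log (n / X) := by gcongr

theorem ST_eq_sum' {φ : ℝ → ℝ} (h : Bump φ) {s T X : ℝ} (hT : 0 < T) (hX : 0 < X)
    (a : ArithmeticFunction ℝ) {N : ℕ} (hN : X * Real.exp (1 / T) ≤ N) :
    ST φ s T X a = ∑ n ∈ Finset.Icc 1 N,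
      a n * (n : ℝ) ^ (-(1 + s)) * (T * φ (T * Real.log (n / X))) := by
  unfold ST
  apply tsum_eq_sum
  intro n hn
  by_cases hφ : φ (T * Real.log (n / X)) = 0
  · rw [hφ]; ring
  · exfalso
    obtain ⟨h1, h2⟩ := h.support hT hX hφ
    apply hn
    rw [Finset.mem_Icc]
    constructor
    · have : (0 : ℝ) < n := lt_trans hX h1
      exact_mod_cast this
    · have : (n : ℝ) < N := lt_of_lt_of_le h2 hN
      exact_mod_cast this.le

theorem ST_summable {φ : ℝ → ℝ} (h : Bump φ) {s T X : ℝ} (hT : 0 < T) (hX : 0 < X)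
    (a : ℕ → ℝ) : Summable (fun n : ℕ =>
      a n * (n : ℝ) ^ (-(1 + s)) * (T * φ (T * Real.log (n / X)))) := by
  obtain ⟨N, hN⟩ := exists_nat_ge (X * Real.exp (1 / T))
  apply summable_of_ne_finset_zero (s := Finset.Icc 1 N)
  intro n hn
  by_cases hφ : φ (T * Real.log (n / X)) = 0
  · rw [hφ]; ring
  · exfalso
    obtain ⟨h1, h2⟩ := h.support hT hX hφ
    apply hn
    rw [Finset.mem_Icc]
    constructor
    · have : (0 : ℝ) < n := lt_trans hX h1
      exact_mod_cast this
    · have : (n : ℝ) < N := lt_of_lt_of_le h2 hN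
      exact_mod_cast this.le

theorem ST_add' {φ : ℝ → ℝ} (h : Bump φ) {s T X : ℝ} (hT : 0 < T) (hX : 0 < X)
    (a b : ArithmeticFunction ℝ) :
    ST φ s T X (a + b) = ST φ s T X a + ST φ s T X b := by
  unfold ST
  rw [← (ST_summable h hT hX a).tsum_add (ST_summable h hT hX b)]
  congr 1
  ext n
  simp only [ArithmeticFunction.add_apply]
  ring

theorem ST_smul {φ : ℝ → ℝ} {s T X : ℝ} (c : ℝ) (a : ArithmeticFunction ℝ) :
    ST φ s T X (c • a) = c * ST φ s T X a := by
  unfold ST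
  rw [← tsum_mul_left]
  congr 1
  ext n
  have : (c • a) n = c * a n := rfl
  rw [this]
  ring

theorem ST_zero {φ : ℝ → ℝ} {s T X : ℝ} : ST φ s T X 0 = 0 := by
  unfold ST
  simp

theorem ST_neg {φ : ℝ → ℝ} {s T X : ℝ} (a : ArithmeticFunction ℝ) :
    ST φ s T X (-a) = - ST φ s T X a := by
  unfold ST
  rw [← tsum_neg]
  congr 1
  ext n
  have : (-a) n = - a n := rfl
  rw [this]
  ring

theorem ST_sub {φ : ℝ → ℝ} (h : Bump φ) {s T X : ℝ} (hT : 0 < T) (hX : 0 < X)
    (a b : ArithmeticFunction ℝ) :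
    ST φ s T X (a - b) = ST φ s T X a - ST φ s T X b := by
  rw [sub_eq_add_neg, ST_add' h hT hX, ST_neg, sub_eq_add_neg]

theorem ST_sum {φ : ℝ → ℝ} (h : Bump φ) {s T X : ℝ} (hT : 0 < T) (hX : 0 < X)
    {ι : Type*} (S : Finset ι) (a : ι → ArithmeticFunction ℝ) :
    ST φ s T X (∑ i ∈ S, a i) = ∑ i ∈ S, ST φ s T X (a i) := by
  classical
  induction S using Finset.induction_on with
  | empty => simp [ST_zero]
  | insert i S hi ih => rw [Finset.sum_insert hi, Finset.sum_insert hi, ST_add' h hT hX, ih]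

theorem ST_mono' {φ : ℝ → ℝ} (h : Bump φ) {s T X : ℝ} (hT : 0 < T) (hX : 0 < X)
    {a b : ArithmeticFunction ℝ}
    (hab : ∀ n : ℕ, X < n → (n : ℝ) < X * Real.exp (1 / T) → a n ≤ b n) :
    ST φ s T X a ≤ ST φ s T X b := by
  unfold ST
  apply (ST_summable h hT hX a).tsum_le_tsum _ (ST_summable h hT hX b)
  intro n
  by_cases hφ : φ (T * Real.log (n / X)) = 0
  · rw [hφ]; simp
  · obtain ⟨h1, h2⟩ := h.support hT hX hφ
    have := hab n h1 h2
    have h3 := h.nonneg (T * Real.log (n / X))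
    gcongr

theorem ST_congr {φ : ℝ → ℝ} (h : Bump φ) {s T X : ℝ} (hT : 0 < T) (hX : 0 < X)
    {a b : ArithmeticFunction ℝ}
    (hab : ∀ n : ℕ, X < n → (n : ℝ) < X * Real.exp (1 / T) → a n = b n) :
    ST φ s T X a = ST φ s T X b :=
  le_antisymm (ST_mono' h hT hX fun n h1 h2 => (hab n h1 h2).le)
    (ST_mono' h hT hX fun n h1 h2 => (hab n h1 h2).ge)

theorem ST_nonneg {φ : ℝ → ℝ} (h : Bump φ) {s T X : ℝ} (hT : 0 < T) (hX : 0 < X)
    {a : ArithmeticFunction ℝ}
    (ha : ∀ n : ℕ, X < n → (n : ℝ) < X * Real.exp (1 / T) → 0 ≤ a n) :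
    0 ≤ ST φ s T X a := by
  have := ST_mono' (s := s) h hT hX (a := 0) (b := a) (fun n h1 h2 => by simpa using ha n h1 h2)
  rwa [ST_zero] at this

/-- Crude bound of a short sum by a counting function. -/
theorem ST_le_sum {φ : ℝ → ℝ} (h : Bump φ) {s T X : ℝ} (hs : 0 ≤ s) (hT : 0 < T) (hX : 1 ≤ X)
    {a : ArithmeticFunction ℝ} {N : ℕ} (hN : X * Real.exp (1 / T) ≤ N)
    (ha : ∀ n : ℕ, X < n → (n : ℝ) < X * Real.exp (1 / T) → 0 ≤ a n) :
    ST φ s T X a ≤ T / X * ∑ n ∈ (Finset.Icc 1 N).filter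
      (fun n : ℕ => X < n ∧ (n : ℝ) < X * Real.exp (1 / T)), a n := by
  have hX0 : 0 < X := by linarith
  rw [ST_eq_sum' h hT hX0 a hN, Finset.sum_filter, Finset.mul_sum]
  apply Finset.sum_le_sum
  intro n hn
  by_cases hφ : φ (T * Real.log (n / X)) = 0
  · rw [hφ]
    simp only [mul_zero]
    split_ifs with hc
    · exact mul_nonneg (by positivity) (ha n hc.1 hc.2)
    · simp
  · obtain ⟨h1, h2⟩ := h.support hT hX0 hφ
    rw [if_pos ⟨h1, h2⟩]
    have h3 := h.nonneg (T * Real.log (n / X))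
    have h4 := h.le_one (T * Real.log (n / X))
    have h5 := ha n h1 h2
    have h6 : (n : ℝ) ^ (-(1 + s)) ≤ 1 / X := by
      rw [Real.rpow_neg (by positivity), one_div]
      apply inv_anti₀ hX0
      calc X ≤ n := h1.le
        _ = (n : ℝ) ^ (1 : ℝ) := (Real.rpow_one _).symm
        _ ≤ (n : ℝ) ^ (1 + s) := by
          apply Real.rpow_le_rpow_of_exponent_le (by linarith) (by linarith)
    calc a n * (n : ℝ) ^ (-(1 + s)) * (T * φ (T * Real.log (n / X)))
        ≤ a n * (1 / X) * (T * 1) := by gcongr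
      _ = T / X * a n := by ring

/-- The delta function at `d`. -/
noncomputable def dl (d : ℕ) : ArithmeticFunction ℝ :=
  ⟨fun n => if n = d ∧ n ≠ 0 then 1 else 0, by simp⟩

theorem dl_mul_apply (d : ℕ) (hd : d ≠ 0) (a : ArithmeticFunction ℝ) (n : ℕ) (hn : n ≠ 0) :
    (dl d * a) n = if d ∣ n then a (n / d) else 0 := by
  rw [ArithmeticFunction.mul_apply]
  split_ifs with h
  · obtain ⟨m, rfl⟩ := h
    have hm : m ≠ 0 := by rintro rfl; simp at hn
    rw [Finset.sum_eq_single (d, m)]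
    · rw [Nat.mul_div_cancel_left m (Nat.pos_of_ne_zero hd)]
      have : dl d d = 1 := by simp [dl, hd]
      rw [this]; ring
    · rintro ⟨u, v⟩ huv hne
      have huv' := Nat.mem_divisorsAntidiagonal.mp huv
      have : dl d u = 0 := by
        simp only [dl, ArithmeticFunction.coe_mk]
        rw [if_neg]
        rintro ⟨rfl, _⟩
        apply hne
        have : v = m := Nat.eq_of_mul_eq_mul_left (Nat.pos_of_ne_zero hd) huv'.1
        rw [this]
      rw [this]; ring
    · intro hnot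
      exfalso
      apply hnot
      rw [Nat.mem_divisorsAntidiagonal]
      exact ⟨rfl, hn⟩
  · apply Finset.sum_eq_zero
    rintro ⟨u, v⟩ huv
    have huv' := Nat.mem_divisorsAntidiagonal.mp huv
    have : dl d u = 0 := by
      simp only [dl, ArithmeticFunction.coe_mk]
      rw [if_neg]
      rintro ⟨rfl, _⟩
      apply h
      exact ⟨v, huv'.1.symm⟩
    rw [this]; ring

theorem ST_dl_mul {φ : ℝ → ℝ} {s T X : ℝ} (d : ℕ) (hd : d ≠ 0)
    (a : ArithmeticFunction ℝ) :
    ST φ s T X (dl d * a) = (d : ℝ) ^ (-(1 + s)) * ST φ s T (X / d) a := by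
  unfold ST
  have hinj : Function.Injective (fun m : ℕ => d * m) :=
    fun m m' h => Nat.eq_of_mul_eq_mul_left (Nat.pos_of_ne_zero hd) h
  have hdpos : (0 : ℝ) < d := by exact_mod_cast Nat.pos_of_ne_zero hd
  rw [← tsum_mul_left]
  rw [← Function.Injective.tsum_eq (g := fun m : ℕ => d * m) hinj]
  · apply tsum_congr
    intro m
    rcases Nat.eq_zero_or_pos m with rfl | hm
    · simp
    · rw [dl_mul_apply d hd a (d * m) (by positivity), if_pos (Dvd.intro m rfl),
        Nat.mul_div_cancel_left m (Nat.pos_of_ne_zero hd)]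
      push_cast
      rw [Real.mul_rpow hdpos.le (by positivity)]
      have : (d : ℝ) * m / X = m / (X / d) := by
        field_simp
      rw [this]
      ring
  · intro n hn
    rw [Function.mem_support] at hn
    by_contra hcon
    apply hn
    rcases Nat.eq_zero_or_pos n with rfl | hn0
    · simp
    · have : (dl d * a) n = 0 := by
        rw [dl_mul_apply d hd a n hn0.ne', if_neg]
        rintro ⟨m, rfl⟩
        exact hcon ⟨m, rfl⟩
      rw [this]; ring

theorem af_sum_apply {ι : Type*} (S : Finset ι) (a : ι → ArithmeticFunction ℝ) (n : ℕ) :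
    (∑ i ∈ S, a i) n = ∑ i ∈ S, a i n := by
  classical
  induction S using Finset.induction_on with
  | empty => simp
  | insert i S hi ih =>
    rw [Finset.sum_insert hi, Finset.sum_insert hi, ArithmeticFunction.add_apply, ih]

theorem eq_sum_dl (b : ArithmeticFunction ℝ) (M : ℕ) (hb : ∀ n, M < n → b n = 0) :
    b = ∑ d ∈ Finset.Icc 1 M, b d • dl d := by
  ext n
  rw [af_sum_apply]
  rcases Nat.eq_zero_or_pos n with rfl | hn
  · simp
  · have key : ∀ d, (b d • dl d) n = if n = d then b n else 0 := by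
      intro d
      have : (b d • dl d) n = b d * dl d n := rfl
      rw [this]
      simp only [dl, ArithmeticFunction.coe_mk]
      by_cases h : n = d
      · subst h; simp [hn.ne']
      · simp [h]
    simp_rw [key]
    rw [Finset.sum_ite_eq]
    split_ifs with h
    · rfl
    · apply hb
      by_contra hcon
      apply h
      rw [Finset.mem_Icc]
      omega

theorem ST_conv {φ : ℝ → ℝ} (h : Bump φ) {s T X : ℝ} (hT : 0 < T) (hX : 0 < X)
    (b a : ArithmeticFunction ℝ) (M : ℕ) (hb : ∀ n, M < n → b n = 0) :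
    ST φ s T X (b * a) = ∑ d ∈ Finset.Icc 1 M,
      b d * (d : ℝ) ^ (-(1 + s)) * ST φ s T (X / d) a := by
  conv_lhs => rw [eq_sum_dl b M hb]
  rw [Finset.sum_mul, ST_sum h hT hX]
  apply Finset.sum_congr rfl
  intro d hd
  have hd0 : d ≠ 0 := by
    have := (Finset.mem_Icc.mp hd).1
    omega
  rw [smul_mul_assoc, ST_smul, ST_dl_mul d hd0]
  ring

end Hoh
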