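import Mathlib
import Pool.Agent.Lib.MP_0bb3d8_nt.HohST
import Pool.Agent.Lib.MP_0bb3d8_nt.SievePrimes

/-!
The `g> * g>` term: products of two primes larger than `√x`.
-/

namespace Hoh

open Finset Real
open Pool.Agent.Lib.MP_0bb3d8_nt (pr mem_pr sum_pr_le)

/-- truncation -/
noncomputable def trunc (N : ℕ) (b : ArithmeticFunction ℝ) : ArithmeticFunction ℝ :=
  ⟨fun n => if n ≤ N then b n else 0, by simp⟩

lemma trunc_apply (N : ℕ) (b : ArithmeticFunction ℝ) (n : ℕ) :
    trunc N b n = if n ≤ N then b n else 0 := rfl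

lemma trunc_mul_trunc {N : ℕ} (b : ArithmeticFunction ℝ) {n : ℕ} (hn : n ≤ N) :
    (trunc N b * trunc N b) n = (b * b) n := by
  rw [ArithmeticFunction.mul_apply, ArithmeticFunction.mul_apply]
  apply Finset.sum_congr rfl
  rintro ⟨u, v⟩ huv
  have h := Nat.mem_divisorsAntidiagonal.1 huv
  have hn0 : 0 < n := Nat.pos_of_ne_zero h.2
  have hu : u ≤ N := (Nat.le_of_dvd hn0 ⟨v, h.1.symm⟩).trans hn
  have hv : v ≤ N := (Nat.le_of_dvd hn0 ⟨u, by rw [mul_comm]; exact h.1.symm⟩).trans hn
  rw [trunc_apply, trunc_apply, if_pos hu, if_pos hv]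

/-- absolute value -/
noncomputable def absAF (b : ArithmeticFunction ℝ) : ArithmeticFunction ℝ :=
  ⟨fun n => |b n|, by simp⟩

lemma absAF_apply (b : ArithmeticFunction ℝ) (n : ℕ) : absAF b n = |b n| := rfl

lemma abs_ST_le {φ : ℝ → ℝ} (h : Bump φ) {s T X : ℝ} (hT : 0 < T) (hX : 0 < X)
    (b : ArithmeticFunction ℝ) : |ST φ s T X b| ≤ ST φ s T X (absAF b) := by
  rw [abs_le]
  constructor
  · rw [neg_le, ← ST_neg]
    apply ST_mono' h hT hX
    intro n _ _
    have : (-b) n = - b n := rfl
    rw [this, absAF_apply]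
    exact neg_le_abs _
  · apply ST_mono' h hT hX
    intro n _ _
    rw [absAF_apply]
    exact le_abs_self _

theorem gtgt (hBT : BrunTitchmarsh) (φ : ℝ → ℝ) (hφ : Bump φ) :
    ∃ C : ℝ, 0 < C ∧ ∃ x₀ : ℝ, ∀ x : ℝ, x₀ ≤ x → ∀ T : ℝ, 1 / 4 ≤ T → T ≤ x ^ (1 / 8 : ℝ) →
      ∀ b : ArithmeticFunction ℝ, (∀ n, |b n| ≤ 1) →
        (∀ n, b n ≠ 0 → n.Prime ∧ Real.sqrt x < n) →
        |ST φ (1 / Real.log x) T x (b * b)| ≤ C / (Real.log x) ^ 2 := by
  obtain ⟨C₀, hC₀, hBT⟩ := hBT
  refine ⟨(4 * C₀ * Real.exp 4) * (8 * (4 + Real.log 2)), by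
    have := Real.log_pos (show (1 : ℝ) < 2 by norm_num); positivity, Real.exp 40, ?_⟩
  intro x hx T hT1 hT2 b hb1 hb2
  have hx0 : 0 < x := (Real.exp_pos _).trans_le hx
  have hlogx : 40 ≤ Real.log x := by rw [Real.le_log_iff_exp_le hx0]; exact hx
  have hx1 : 1 < x := by
    have : (1 : ℝ) < Real.exp 40 := Real.one_lt_exp_iff.2 (by norm_num)
    linarith
  have hT0 : 0 < T := by linarith
  set s := 1 / Real.log x with hs
  have hs0 : 0 ≤ s := by positivity
  set E := Real.exp (1 / T) with hE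
  have hE1 : 1 ≤ E := Real.one_le_exp (by positivity)
  have hE4 : E ≤ Real.exp 4 := by
    apply Real.exp_le_exp.2
    rw [div_le_iff₀ hT0]; linarith
  -- E - 1 bounds
  have hE5 : E - 1 ≤ Real.exp 4 / T := by
    have h1 : 1 - 1 / T ≤ Real.exp (-(1 / T)) := by
      have := Real.add_one_le_exp (-(1 / T)); linarith
    have h2 : E * Real.exp (-(1 / T)) = 1 := by
      rw [hE, ← Real.exp_add]; simp
    have h3 : E * (1 - 1 / T) ≤ 1 := by
      have h31 : E * (1 - 1 / T) ≤ E * Real.exp (-(1 / T)) :=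
        mul_le_mul_of_nonneg_left h1 (by linarith)
      rwa [h2] at h31
    have h4 : E * (1 / T) ≤ Real.exp 4 * (1 / T) := mul_le_mul_of_nonneg_right hE4 (by positivity)
    have h5 : Real.exp 4 / T = Real.exp 4 * (1 / T) := by ring
    rw [h5]; nlinarith
  have hE6 : 1 / T ≤ E - 1 := by
    have := Real.add_one_le_exp (1 / T); linarith
  set w := Real.sqrt x with hw
  have hw0 : 0 < w := Real.sqrt_pos.2 hx0
  have hww : w * w = x := Real.mul_self_sqrt hx0.le
  have hlogw : Real.log w = Real.log x / 2 := by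
    rw [hw, Real.log_sqrt hx0.le]
  have hwe : Real.exp 4 ≤ w := by
    rw [← Real.le_log_iff_exp_le hw0, hlogw]; linarith
  have hw1 : 1 < w := by
    have : (1 : ℝ) < Real.exp 4 := Real.one_lt_exp_iff.2 (by norm_num)
    linarith
  obtain ⟨N, hN⟩ := exists_nat_ge (x * Real.exp 4)
  have hNE : x * E ≤ N := (mul_le_mul_of_nonneg_left hE4 hx0.le).trans hN
  set b' := trunc N b with hb'
  have hb'1 : ∀ n, |b' n| ≤ 1 := by
    intro n
    rw [hb', trunc_apply]
    split_ifs
    · exact hb1 n
    · simp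
  have hb'2 : ∀ n, b' n ≠ 0 → n.Prime ∧ w < n := by
    intro n hn
    rw [hb', trunc_apply] at hn
    split_ifs at hn with h
    · exact hb2 n hn
    · exact absurd rfl hn
  have e1 : ST φ s T x (b * b) = ST φ s T x (b' * b') := by
    apply ST_congr hφ hT0 hx0
    intro n _ hn
    have hnN : n ≤ N := by
      have : (n : ℝ) < N := hn.trans_le hNE
      exact_mod_cast this.le
    exact (trunc_mul_trunc b hnN).symm
  have e2 : ST φ s T x (b' * b') = ∑ d ∈ Finset.Icc 1 N,
      b' d * (d : ℝ) ^ (-(1 + s)) * ST φ s T (x / d) b' := by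
    apply ST_conv hφ hT0 hx0
    intro n hn
    rw [hb', trunc_apply, if_neg (by omega)]
  rw [e1, e2]
  have hsum : ∀ d ∈ Finset.Icc 1 N, |b' d * (d : ℝ) ^ (-(1 + s)) * ST φ s T (x / d) b'|
      ≤ if d ∈ pr w (Real.exp 4 * w) then (1 / (d : ℝ)) * ((4 * C₀ * Real.exp 4) / Real.log x) else 0 := by
    intro d hd
    have hd1 : 1 ≤ d := (Finset.mem_Icc.1 hd).1
    have hdR : (1 : ℝ) ≤ d := by exact_mod_cast hd1
    have hd0 : (0 : ℝ) < d := by linarith
    by_cases hbd : b' d = 0
    · rw [hbd, zero_mul, zero_mul, abs_zero]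
      split_ifs
      · positivity
      · exact le_rfl
    obtain ⟨hdp, hdw⟩ := hb'2 d hbd
    by_cases hdu : (d : ℝ) ≤ Real.exp 4 * w
    · rw [if_pos ((mem_pr hw0.le).2 ⟨hdw, hdu, hdp⟩)]
      -- main case
      have hX1 : 1 ≤ x / d := by
        rw [one_le_div hd0]
        calc (d : ℝ) ≤ Real.exp 4 * w := hdu
          _ ≤ w * w := mul_le_mul_of_nonneg_right hwe hw0.le
          _ = x := hww
      have hX0 : 0 < x / d := by linarith
      have h1 : |(d : ℝ) ^ (-(1 + s))| ≤ 1 / d := by
        rw [abs_of_nonneg (by positivity), Real.rpow_neg hd0.le, one_div]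
        apply inv_anti₀ hd0
        calc (d : ℝ) = (d : ℝ) ^ (1 : ℝ) := (Real.rpow_one _).symm
          _ ≤ (d : ℝ) ^ (1 + s) := Real.rpow_le_rpow_of_exponent_le hdR (by linarith)
      have hN' : x / d * E ≤ N := by
        calc x / d * E ≤ x * E := by
              apply mul_le_mul_of_nonneg_right _ (by linarith)
              exact div_le_self hx0.le hdR
          _ ≤ N := hNE
      have h2 : |ST φ s T (x / d) b'| ≤ T / (x / d) *
          ∑ n ∈ (Finset.Icc 1 N).filter (fun n : ℕ => x / d < n ∧ (n : ℝ) < x / d * E), absAF b' n :=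
        (abs_ST_le hφ hT0 hX0 b').trans (ST_le_sum hφ hs0 hT0 hX1 hN'
          (fun n _ _ => by rw [absAF_apply]; exact abs_nonneg _))
      set h := x / d * (E - 1) with hh
      have hsub : ∑ n ∈ (Finset.Icc 1 N).filter (fun n : ℕ => x / d < n ∧ (n : ℝ) < x / d * E), absAF b' n
          ≤ (((Finset.Ioc ⌊x / d⌋₊ ⌊x / d + h⌋₊).filter Nat.Prime).card : ℝ) := by
        have s1 : ∀ n ∈ (Finset.Icc 1 N).filter (fun n : ℕ => x / d < n ∧ (n : ℝ) < x / d * E),
            absAF b' n ≤ if n ∈ (Finset.Ioc ⌊x / d⌋₊ ⌊x / d + h⌋₊).filter Nat.Prime then 1 else 0 := by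
          intro n hn
          rw [Finset.mem_filter] at hn
          rw [absAF_apply]
          by_cases hbn : b' n = 0
          · rw [hbn, abs_zero]; split_ifs <;> norm_num
          · have hnp := (hb'2 n hbn).1
            rw [if_pos]
            · exact hb'1 n
            · rw [Finset.mem_filter, Finset.mem_Ioc]
              refine ⟨⟨(Nat.floor_lt hX0.le).2 hn.2.1, ?_⟩, hnp⟩
              rw [Nat.le_floor_iff' hnp.ne_zero, hh]
              have := hn.2.2
              nlinarith
        refine (Finset.sum_le_sum s1).trans ?_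
        rw [← Finset.sum_filter, Finset.sum_const, nsmul_eq_mul, mul_one]
        exact_mod_cast Finset.card_le_card (fun n hn => (Finset.mem_filter.1 hn).2)
      have hhlow : x ^ (1 / 4 : ℝ) ≤ h := by
        have k1 : w / Real.exp 4 ≤ x / d := by
          rw [div_le_div_iff₀ (Real.exp_pos _) hd0]
          calc w * d ≤ w * (Real.exp 4 * w) := mul_le_mul_of_nonneg_left hdu hw0.le
            _ = x * Real.exp 4 := by rw [← hww]; ring
        have k2 : 1 / x ^ (1 / 8 : ℝ) ≤ E - 1 :=
          (one_div_le_one_div_of_le hT0 hT2).trans hE6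
        have k3 : w = x ^ (1 / 2 : ℝ) := by rw [hw, Real.sqrt_eq_rpow]
        have k4 : Real.exp 4 ≤ x ^ (1 / 8 : ℝ) := by
          rw [← Real.le_log_iff_exp_le (by positivity), Real.log_rpow hx0]
          linarith
        have k5 : 0 < x ^ (1 / 8 : ℝ) := by positivity
        have k7 : x ^ (1 / 4 : ℝ) * x ^ (1 / 8 : ℝ) * x ^ (1 / 8 : ℝ) = x ^ (1 / 2 : ℝ) := by
          rw [← Real.rpow_add hx0, ← Real.rpow_add hx0]; norm_num
        calc x ^ (1 / 4 : ℝ) = x ^ (1 / 2 : ℝ) / x ^ (1 / 8 : ℝ) * (1 / x ^ (1 / 8 : ℝ)) := by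
              rw [← k7]; field_simp
          _ ≤ w / Real.exp 4 * (1 / x ^ (1 / 8 : ℝ)) := by
              apply mul_le_mul_of_nonneg_right _ (by positivity)
              rw [k3]
              exact div_le_div_of_nonneg_left (by positivity) (Real.exp_pos _) k4
          _ ≤ x / d * (E - 1) := mul_le_mul k1 k2 (by positivity) hX0.le
      have hx4 : 1 < x ^ (1 / 4 : ℝ) := Real.one_lt_rpow hx1 (by norm_num)
      have hh2 : 2 ≤ h := by
        refine le_trans ?_ hhlow
        rw [← Real.log_le_log_iff (by norm_num) (by positivity), Real.log_rpow hx0]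
        have : Real.log 2 ≤ 1 := by
          have := Real.log_two_lt_d9; linarith
        linarith
      have hlogh : Real.log x / 4 ≤ Real.log h := by
        have := Real.log_le_log (by positivity) hhlow
        rw [Real.log_rpow hx0] at this
        linarith
      have hBT' := hBT (x / d) h hX0.le hh2
      have hup : h ≤ x / d * (Real.exp 4 / T) := mul_le_mul_of_nonneg_left hE5 hX0.le
      have h3 : |ST φ s T (x / d) b'| ≤ (4 * C₀ * Real.exp 4) / Real.log x := by
        refine h2.trans ?_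
        have hTx : 0 ≤ T / (x / d) := by positivity
        refine (mul_le_mul_of_nonneg_left (hsub.trans hBT') hTx).trans ?_
        have k6 : C₀ * h / Real.log h ≤ C₀ * (x / d * (Real.exp 4 / T)) / (Real.log x / 4) := by
          apply div_le_div₀ (by positivity) _ (by positivity) hlogh
          exact mul_le_mul_of_nonneg_left hup hC₀.le
        refine (mul_le_mul_of_nonneg_left k6 hTx).trans (le_of_eq ?_)
        have : Real.log x ≠ 0 := by positivity
        field_simp
      rw [abs_mul, abs_mul]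
      calc |b' d| * |(d : ℝ) ^ (-(1 + s))| * |ST φ s T (x / d) b'|
          ≤ 1 * (1 / d) * ((4 * C₀ * Real.exp 4) / Real.log x) := by
            apply mul_le_mul _ h3 (abs_nonneg _) (by positivity)
            exact mul_le_mul (hb'1 d) h1 (abs_nonneg _) zero_le_one
        _ = (1 / (d : ℝ)) * ((4 * C₀ * Real.exp 4) / Real.log x) := by ring
    · push Not at hdu
      have hX0 : 0 < x / d := by positivity
      have : ST φ s T (x / d) b' = 0 := by
        have h0 := ST_congr (s := s) hφ hT0 hX0 (a := b') (b := 0) (by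
          intro n _ hn
          by_contra hne
          have h1 := (hb'2 n (by simpa using hne)).2
          have h2 : x / d * E ≤ w := by
            rw [div_mul_eq_mul_div, div_le_iff₀ hd0]
            calc x * E ≤ x * Real.exp 4 := mul_le_mul_of_nonneg_left hE4 hx0.le
              _ = w * (Real.exp 4 * w) := by rw [← hww]; ring
              _ ≤ w * d := mul_le_mul_of_nonneg_left hdu.le hw0.le
          linarith)
        rw [h0, ST_zero]
      rw [this, mul_zero, abs_zero]
      split_ifs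
      · positivity
      · exact le_rfl
  calc |∑ d ∈ Finset.Icc 1 N, b' d * (d : ℝ) ^ (-(1 + s)) * ST φ s T (x / d) b'|
      ≤ ∑ d ∈ Finset.Icc 1 N, |b' d * (d : ℝ) ^ (-(1 + s)) * ST φ s T (x / d) b'| :=
        Finset.abs_sum_le_sum_abs _ _
    _ ≤ ∑ d ∈ Finset.Icc 1 N, (if d ∈ pr w (Real.exp 4 * w) then
          (1 / (d : ℝ)) * ((4 * C₀ * Real.exp 4) / Real.log x) else 0) := Finset.sum_le_sum hsum
    _ ≤ ∑ d ∈ pr w (Real.exp 4 * w), (1 / (d : ℝ)) * ((4 * C₀ * Real.exp 4) / Real.log x) := by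
        rw [← Finset.sum_filter]
        apply Finset.sum_le_sum_of_subset_of_nonneg
        · intro d hd
          exact (Finset.mem_filter.1 hd).2
        · intro d _ _; positivity
    _ = (∑ d ∈ pr w (Real.exp 4 * w), (1 / (d : ℝ))) * ((4 * C₀ * Real.exp 4) / Real.log x) := by
        rw [Finset.sum_mul]
    _ ≤ (8 * (4 + Real.log 2) / Real.log x) * ((4 * C₀ * Real.exp 4) / Real.log x) := by
        apply mul_le_mul_of_nonneg_right _ (by positivity)
        have h1 := sum_pr_le hw1 (z := Real.exp 4 * w) (by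
          have : (1 : ℝ) ≤ Real.exp 4 := Real.one_le_exp (by norm_num)
          nlinarith)
        refine h1.trans (le_of_eq ?_)
        rw [Real.log_mul (Real.exp_pos _).ne' hw0.ne', Real.log_exp, hlogw]
        have : Real.log x ≠ 0 := by positivity
        field_simp
        ring
    _ = (4 * C₀ * Real.exp 4) * (8 * (4 + Real.log 2)) / (Real.log x) ^ 2 := by
        have : Real.log x ≠ 0 := by positivity
        field_simp

end Hoh
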