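import Mathlib
import Pool.Agent.Lib.MP_0bb3d8_nt.HohDefs
import Pool.Agent.Lib.MP_0bb3d8_nt.HohMertens

/-!
Mean square of Dirichlet polynomials supported on primes `> y`, over `[-U, U]` with `U ≤ √y`.
-/

namespace Hoh

open Finset Real MeasureTheory

lemma ms_gauss {U : ℝ} (hU : 0 < U) (L : ℝ) :
    ‖∫ t : ℝ, Complex.exp (Complex.I * (L : ℂ) * t) *
      Complex.exp (-((1 / U ^ 2 : ℝ) : ℂ) * (t : ℂ) ^ 2)‖ ≤
      2 * U * Real.exp (-(U ^ 2 * L ^ 2 / 4)) := by
  have hb : 0 < (((1 / U ^ 2 : ℝ) : ℂ)).re := by rw [Complex.ofReal_re]; positivity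
  have hU' : (U : ℂ) ≠ 0 := by exact_mod_cast hU.ne'
  rw [fourierIntegral_gaussian hb (L : ℂ), norm_mul]
  have h1 : ‖((π : ℂ) / ((1 / U ^ 2 : ℝ) : ℂ)) ^ (1 / 2 : ℂ)‖ ≤ 2 * U := by
    have h2 : (π : ℂ) / ((1 / U ^ 2 : ℝ) : ℂ) = ((π * U ^ 2 : ℝ) : ℂ) := by
      push_cast; field_simp
    rw [h2, Complex.norm_cpow_eq_rpow_re_of_pos (by positivity)]
    have h3 : ((1 / 2 : ℂ)).re = 1 / 2 := by norm_num
    rw [h3, ← Real.sqrt_eq_rpow, Real.sqrt_le_iff]
    refine ⟨by positivity, ?_⟩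
    have := Real.pi_le_four
    nlinarith [sq_nonneg U]
  have h2 : ‖Complex.exp (-(L : ℂ) ^ 2 / (4 * ((1 / U ^ 2 : ℝ) : ℂ)))‖ =
      Real.exp (-(U ^ 2 * L ^ 2 / 4)) := by
    rw [Complex.norm_exp]
    congr 1
    have h3 : -(L : ℂ) ^ 2 / (4 * ((1 / U ^ 2 : ℝ) : ℂ)) = ((-(U ^ 2 * L ^ 2 / 4) : ℝ) : ℂ) := by
      push_cast; field_simp
    rw [h3, Complex.ofReal_re]
  rw [h2]
  gcongr

lemma ms_integrable {U : ℝ} (hU : 0 < U) (L : ℝ) :
    Integrable (fun t : ℝ => Complex.exp (Complex.I * (L : ℂ) * t) *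
      Complex.exp (-((1 / U ^ 2 : ℝ) : ℂ) * (t : ℂ) ^ 2)) := by
  have hb : 0 < (((1 / U ^ 2 : ℝ) : ℂ)).re := by rw [Complex.ofReal_re]; positivity
  refine (integrable_cexp_quadratic hb (Complex.I * (L : ℂ)) 0).congr ?_
  refine Filter.Eventually.of_forall fun t => ?_
  simp only
  rw [← Complex.exp_add]
  congr 1
  ring

/-- The Dirichlet polynomial. -/
noncomputable def msP (F : Finset ℕ) (c : ℕ → ℂ) (t : ℝ) : ℂ :=
  ∑ p ∈ F, c p * Complex.exp (-(Complex.I * t * (Real.log p : ℂ)))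

lemma msP_continuous (F : Finset ℕ) (c : ℕ → ℂ) : Continuous (msP F c) := by
  unfold msP
  fun_prop

lemma msP_norm_le (F : Finset ℕ) (c : ℕ → ℂ) (t : ℝ) : ‖msP F c t‖ ≤ ∑ p ∈ F, ‖c p‖ := by
  unfold msP
  refine (norm_sum_le _ _).trans (Finset.sum_le_sum fun p _ => ?_)
  have h1 : -(Complex.I * t * (Real.log p : ℂ)) = ((-(t * Real.log p) : ℝ) : ℂ) * Complex.I := by
    push_cast; ring
  rw [norm_mul, h1, Complex.norm_exp_ofReal_mul_I, mul_one]

lemma msP_sq (F : Finset ℕ) (c : ℕ → ℂ) (t : ℝ) :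
    ((‖msP F c t‖ ^ 2 : ℝ) : ℂ) = ∑ p ∈ F, ∑ q ∈ F, (c p * (starRingEnd ℂ) (c q)) *
      Complex.exp (Complex.I * ((Real.log q - Real.log p : ℝ) : ℂ) * t) := by
  have h1 : ((‖msP F c t‖ ^ 2 : ℝ) : ℂ) = msP F c t * (starRingEnd ℂ) (msP F c t) := by
    rw [Complex.mul_conj, Complex.normSq_eq_norm_sq]
  rw [h1]
  unfold msP
  rw [map_sum, Finset.sum_mul_sum]
  refine Finset.sum_congr rfl fun p _ => Finset.sum_congr rfl fun q _ => ?_
  rw [map_mul, ← Complex.exp_conj]
  have h2 : (starRingEnd ℂ) (-(Complex.I * t * (Real.log q : ℂ))) =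
      Complex.I * t * (Real.log q : ℂ) := by
    rw [map_neg, map_mul, map_mul, Complex.conj_I, Complex.conj_ofReal, Complex.conj_ofReal]
    ring
  rw [h2]
  have h3 : Complex.exp (Complex.I * ((Real.log q - Real.log p : ℝ) : ℂ) * t) =
      Complex.exp (-(Complex.I * t * (Real.log p : ℂ))) *
        Complex.exp (Complex.I * t * (Real.log q : ℂ)) := by
    rw [← Complex.exp_add]
    congr 1
    push_cast
    ring
  rw [h3]
  ring

lemma ms_integrable' {U : ℝ} (hU : 0 < U) (F : Finset ℕ) (c : ℕ → ℂ) :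
    Integrable (fun t : ℝ => Real.exp (-(1 / U ^ 2) * t ^ 2) * ‖msP F c t‖ ^ 2) := by
  have hb : 0 < 1 / U ^ 2 := by positivity
  refine ((integrable_exp_neg_mul_sq hb).mul_const ((∑ p ∈ F, ‖c p‖) ^ 2)).mono' ?_ ?_
  · have := msP_continuous F c
    exact (by fun_prop : Continuous fun t : ℝ =>
      Real.exp (-(1 / U ^ 2) * t ^ 2) * ‖msP F c t‖ ^ 2).aestronglyMeasurable
  · refine Filter.Eventually.of_forall fun t => ?_
    rw [norm_mul, norm_pow, norm_norm, Real.norm_of_nonneg (Real.exp_pos _).le]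
    have := msP_norm_le F c t
    gcongr

lemma ms_double {U : ℝ} (hU : 0 < U) (F : Finset ℕ) (c : ℕ → ℂ) :
    ∫ t : ℝ, Real.exp (-(1 / U ^ 2) * t ^ 2) * ‖msP F c t‖ ^ 2 ≤
      ∑ p ∈ F, ∑ q ∈ F, ‖c p‖ * ‖c q‖ *
        (2 * U * Real.exp (-(U ^ 2 * (Real.log q - Real.log p) ^ 2 / 4))) := by
  set J := ∫ t : ℝ, Real.exp (-(1 / U ^ 2) * t ^ 2) * ‖msP F c t‖ ^ 2 with hJ
  have h1 : (J : ℂ) = ∑ p ∈ F, ∑ q ∈ F, (c p * (starRingEnd ℂ) (c q)) *
      ∫ t : ℝ, Complex.exp (Complex.I * ((Real.log q - Real.log p : ℝ) : ℂ) * t) *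
        Complex.exp (-((1 / U ^ 2 : ℝ) : ℂ) * (t : ℂ) ^ 2) := by
    rw [hJ, ← integral_complex_ofReal]
    have h2 : ∀ t : ℝ, ((Real.exp (-(1 / U ^ 2) * t ^ 2) * ‖msP F c t‖ ^ 2 : ℝ) : ℂ) =
        ∑ p ∈ F, ∑ q ∈ F, (c p * (starRingEnd ℂ) (c q)) *
          (Complex.exp (Complex.I * ((Real.log q - Real.log p : ℝ) : ℂ) * t) *
          Complex.exp (-((1 / U ^ 2 : ℝ) : ℂ) * (t : ℂ) ^ 2)) := by
      intro t
      rw [Complex.ofReal_mul, msP_sq, Complex.ofReal_exp, Finset.mul_sum]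
      refine Finset.sum_congr rfl fun p _ => ?_
      rw [Finset.mul_sum]
      refine Finset.sum_congr rfl fun q _ => ?_
      have h3 : ((-(1 / U ^ 2) * t ^ 2 : ℝ) : ℂ) = -((1 / U ^ 2 : ℝ) : ℂ) * (t : ℂ) ^ 2 := by
        push_cast; ring
      rw [h3]
      ring
    simp_rw [h2]
    rw [integral_finsetSum _ fun p _ => integrable_finsetSum _ fun q _ =>
      (ms_integrable hU _).const_mul _]
    refine Finset.sum_congr rfl fun p _ => ?_
    rw [integral_finsetSum _ fun q _ => (ms_integrable hU _).const_mul _]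
    refine Finset.sum_congr rfl fun q _ => ?_
    rw [integral_const_mul]
  have h2 : J ≤ ‖(J : ℂ)‖ := by
    rw [Complex.norm_real]
    exact le_abs_self J
  refine h2.trans ?_
  rw [h1]
  refine (norm_sum_le _ _).trans (Finset.sum_le_sum fun p _ => ?_)
  refine (norm_sum_le _ _).trans (Finset.sum_le_sum fun q _ => ?_)
  rw [norm_mul, norm_mul, RCLike.norm_conj]
  have := ms_gauss hU (Real.log q - Real.log p)
  gcongr

lemma ms_interval {U : ℝ} (hU : 0 < U) (F : Finset ℕ) (c : ℕ → ℂ) :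
    ∫ t in (-U)..U, ‖msP F c t‖ ^ 2 ≤
      Real.exp 1 * ∫ t : ℝ, Real.exp (-(1 / U ^ 2) * t ^ 2) * ‖msP F c t‖ ^ 2 := by
  have hc := msP_continuous F c
  have h1 : ∫ t in (-U)..U, ‖msP F c t‖ ^ 2 ≤
      ∫ t in (-U)..U, Real.exp 1 * (Real.exp (-(1 / U ^ 2) * t ^ 2) * ‖msP F c t‖ ^ 2) := by
    refine intervalIntegral.integral_mono_on (by linarith) ?_ ?_ fun t ht => ?_
    · exact (by fun_prop : Continuous fun t : ℝ => ‖msP F c t‖ ^ 2).intervalIntegrable _ _
    · exact (by fun_prop : Continuous fun t : ℝ =>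
        Real.exp 1 * (Real.exp (-(1 / U ^ 2) * t ^ 2) * ‖msP F c t‖ ^ 2)).intervalIntegrable _ _
    · have h2 : 1 ≤ Real.exp 1 * Real.exp (-(1 / U ^ 2) * t ^ 2) := by
        rw [← Real.exp_add, Real.one_le_exp_iff]
        have h3 : t ^ 2 ≤ U ^ 2 := by
          rw [Set.mem_Icc] at ht
          nlinarith [ht.1, ht.2]
        have h4 : 1 / U ^ 2 * t ^ 2 ≤ 1 := by
          rw [one_div_mul_eq_div, div_le_one (by positivity)]
          exact h3
        linarith
      rw [← mul_assoc]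
      exact le_mul_of_one_le_left (by positivity) h2
  refine h1.trans ?_
  rw [intervalIntegral.integral_const_mul]
  refine mul_le_mul_of_nonneg_left ?_ (Real.exp_pos 1).le
  rw [intervalIntegral.integral_of_le (by linarith)]
  exact setIntegral_le_integral (ms_integrable' hU F c)
    (Filter.Eventually.of_forall fun t => by positivity)

lemma ms_inner {C : ℝ} (hC : 0 < C) (hBT : ∀ u v : ℝ, 0 ≤ u → 2 ≤ v →
    (((Finset.Ioc ⌊u⌋₊ ⌊u + v⌋₊).filter Nat.Prime).card : ℝ) ≤ C * v / Real.log v)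
    {y U : ℝ} (hy : 2 ≤ y) (hU1 : 1 ≤ U) (hU2 : U ≤ Real.sqrt y) {p : ℕ} (hp : y < p)
    (F : Finset ℕ) (hF : ∀ q ∈ F, q.Prime ∧ p < q) :
    ∑ q ∈ F, 1 / (q : ℝ) * Real.exp (-(U ^ 2 * (Real.log q - Real.log p) ^ 2 / 4)) ≤
      20 * C / (U * Real.log p) := by
  classical
  have hp0 : (0 : ℝ) < p := by linarith
  have hp1 : (1 : ℝ) < p := by linarith
  have hU0 : 0 < U := by linarith
  have hlp : 0 < Real.log p := Real.log_pos hp1
  have hsp : 0 < Real.sqrt p := Real.sqrt_pos.mpr hp0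
  have hspp : Real.sqrt p * Real.sqrt p = p := Real.mul_self_sqrt hp0.le
  have hUp : U ≤ Real.sqrt p := hU2.trans (Real.sqrt_le_sqrt hp.le)
  have hsp1 : 1 ≤ Real.sqrt p := hU1.trans hUp
  set κ : ℕ → ℕ := fun q => ⌈U * (Real.log q - Real.log p)⌉₊ - 1 with hκ
  have hκ' : ∀ q ∈ F, (κ q : ℝ) < U * (Real.log q - Real.log p) ∧
      U * (Real.log q - Real.log p) ≤ κ q + 1 := by
    intro q hq
    have h1 : (p : ℝ) < q := by exact_mod_cast (hF q hq).2
    have h2 : 0 < U * (Real.log q - Real.log p) := by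
      have := Real.log_lt_log hp0 h1
      exact mul_pos hU0 (by linarith)
    have h3 : 0 < ⌈U * (Real.log q - Real.log p)⌉₊ := Nat.ceil_pos.mpr h2
    have h4 : ((κ q : ℕ) : ℝ) = (⌈U * (Real.log q - Real.log p)⌉₊ : ℝ) - 1 := by
      rw [hκ]
      simp only
      rw [Nat.cast_sub (by omega), Nat.cast_one]
    rw [h4]
    constructor
    · have := Nat.ceil_lt_add_one h2.le
      linarith
    · have := Nat.le_ceil (U * (Real.log q - Real.log p))
      linarith
  set N := F.sup κ + 1 with hN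
  have hmaps : ∀ q ∈ F, κ q ∈ Finset.range N := by
    intro q hq
    rw [Finset.mem_range, hN]
    exact Nat.lt_succ_of_le (Finset.le_sup (f := κ) hq)
  rw [← Finset.sum_fiberwise_of_maps_to hmaps]
  have hk : ∀ k ∈ Finset.range N, ∑ q ∈ F with κ q = k,
      1 / (q : ℝ) * Real.exp (-(U ^ 2 * (Real.log q - Real.log p) ^ 2 / 4)) ≤
      4 * C / (U * Real.log p) * (4 / 5 : ℝ) ^ k := by
    intro k _
    set a := (p : ℝ) * Real.exp (k / U) with ha
    have ha1 : (p : ℝ) ≤ a := by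
      rw [ha]
      refine le_mul_of_one_le_right hp0.le ?_
      rw [Real.one_le_exp_iff]
      positivity
    have ha0 : 0 < a := by linarith
    have hla : Real.log a = Real.log p + k / U := by
      rw [ha, Real.log_mul hp0.ne' (Real.exp_pos _).ne', Real.log_exp]
    -- each term
    have hterm : ∀ q ∈ F.filter (fun q => κ q = k),
        1 / (q : ℝ) * Real.exp (-(U ^ 2 * (Real.log q - Real.log p) ^ 2 / 4)) ≤
          1 / a * (4 / 5 : ℝ) ^ k := by
      intro q hq
      rw [Finset.mem_filter] at hq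
      obtain ⟨hqF, hqk⟩ := hq
      obtain ⟨h1, h2⟩ := hκ' q hqF
      rw [hqk] at h1 h2
      have hq0 : (0 : ℝ) < q := by exact_mod_cast (hF q hqF).1.pos
      have h3 : a ≤ q := by
        rw [← Real.log_le_log_iff ha0 hq0, hla]
        have : (k : ℝ) / U ≤ Real.log q - Real.log p := by
          rw [div_le_iff₀ hU0, mul_comm]; exact h1.le
        linarith
      have h4 : Real.exp (-(U ^ 2 * (Real.log q - Real.log p) ^ 2 / 4)) ≤ (4 / 5 : ℝ) ^ k := by
        have h5 : (k : ℝ) ≤ U ^ 2 * (Real.log q - Real.log p) ^ 2 := by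
          rw [← mul_pow]
          have h6 : (k : ℝ) ^ 2 ≤ (U * (Real.log q - Real.log p)) ^ 2 :=
            pow_le_pow_left₀ (Nat.cast_nonneg k) h1.le 2
          have h7 : (k : ℝ) ≤ (k : ℝ) ^ 2 := by exact_mod_cast Nat.le_self_pow (by norm_num) k
          linarith
        calc Real.exp (-(U ^ 2 * (Real.log q - Real.log p) ^ 2 / 4)) ≤ Real.exp (k * (-(1 / 4))) := by
              apply Real.exp_le_exp.mpr; linarith
          _ = Real.exp (-(1 / 4)) ^ k := by rw [← Real.exp_nat_mul]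
          _ ≤ (4 / 5 : ℝ) ^ k := by
              apply pow_le_pow_left₀ (Real.exp_pos _).le
              rw [Real.exp_neg, inv_le_comm₀ (Real.exp_pos _) (by norm_num)]
              have := Real.add_one_le_exp (1 / 4 : ℝ)
              linarith
      gcongr
    -- number of terms
    set v := 2 * a / U with hv
    have hv1 : Real.sqrt p ≤ a / U := by
      rw [le_div_iff₀ hU0]
      calc Real.sqrt p * U ≤ Real.sqrt p * Real.sqrt p := by gcongr
        _ = p := hspp
        _ ≤ a := ha1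
    have hv3 : v = 2 * (a / U) := by rw [hv]; ring
    have hv2 : 2 ≤ v := by rw [hv3]; linarith
    have hvs : Real.sqrt p ≤ v := by rw [hv3]; linarith
    have hlv : Real.log p / 2 ≤ Real.log v := by
      have h1 : Real.log (Real.sqrt p) = Real.log p / 2 := Real.log_sqrt hp0.le
      rw [← h1]
      exact Real.log_le_log hsp hvs
    have hcard : ((F.filter (fun q => κ q = k)).card : ℝ) ≤ C * v / Real.log v := by
      refine le_trans ?_ (hBT a v ha0.le hv2)
      have hsub : F.filter (fun q => κ q = k) ⊆ (Finset.Ioc ⌊a⌋₊ ⌊a + v⌋₊).filter Nat.Prime := by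
        intro q hq
        rw [Finset.mem_filter] at hq
        obtain ⟨hqF, hqk⟩ := hq
        obtain ⟨h1, h2⟩ := hκ' q hqF
        rw [hqk] at h1 h2
        have hq0 : (0 : ℝ) < q := by exact_mod_cast (hF q hqF).1.pos
        rw [Finset.mem_filter, Finset.mem_Ioc]
        refine ⟨⟨?_, ?_⟩, (hF q hqF).1⟩
        · rw [Nat.floor_lt ha0.le, ← Real.log_lt_log_iff ha0 hq0, hla]
          have : (k : ℝ) / U < Real.log q - Real.log p := by
            rw [div_lt_iff₀ hU0, mul_comm]; exact h1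
          linarith
        · apply Nat.le_floor
          have h3 : Real.log q ≤ Real.log a + 1 / U := by
            rw [hla]
            have : Real.log q - Real.log p ≤ (k + 1) / U := by
              rw [le_div_iff₀ hU0, mul_comm]; exact h2
            rw [add_div] at this
            linarith
          have h4 : (q : ℝ) ≤ a * Real.exp (1 / U) := by
            rw [← Real.log_le_log_iff hq0 (by positivity),
              Real.log_mul ha0.ne' (Real.exp_pos _).ne', Real.log_exp]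
            exact h3
          have h5 : Real.exp (1 / U) ≤ 1 + 2 * (1 / U) := by
            have hU' : 1 / U ≤ 1 := by rw [div_le_one hU0]; exact hU1
            have hU'' : 0 ≤ 1 / U := by positivity
            have h6 := Real.abs_exp_sub_one_sub_id_le (x := 1 / U) (by rw [abs_of_nonneg hU'']; exact hU')
            have h7 := (abs_le.mp h6).2
            nlinarith
          calc (q : ℝ) ≤ a * Real.exp (1 / U) := h4
            _ ≤ a * (1 + 2 * (1 / U)) := by gcongr
            _ = a + v := by rw [hv]; ring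
      exact_mod_cast Finset.card_le_card hsub
    have hlv0 : 0 < Real.log v := by linarith
    calc ∑ q ∈ F with κ q = k, 1 / (q : ℝ) * Real.exp (-(U ^ 2 * (Real.log q - Real.log p) ^ 2 / 4))
        ≤ (F.filter (fun q => κ q = k)).card • (1 / a * (4 / 5 : ℝ) ^ k) :=
          Finset.sum_le_card_nsmul _ _ _ hterm
      _ = ((F.filter (fun q => κ q = k)).card : ℝ) * (1 / a * (4 / 5 : ℝ) ^ k) := nsmul_eq_mul _ _
      _ ≤ C * v / Real.log v * (1 / a * (4 / 5 : ℝ) ^ k) := by gcongr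
      _ ≤ C * v / (Real.log p / 2) * (1 / a * (4 / 5 : ℝ) ^ k) := by
          gcongr
      _ = 4 * C / (U * Real.log p) * (4 / 5 : ℝ) ^ k := by
          rw [hv]; field_simp; ring
  refine (Finset.sum_le_sum hk).trans ?_
  rw [← Finset.mul_sum]
  have hgeom : ∑ k ∈ Finset.range N, (4 / 5 : ℝ) ^ k ≤ 5 := by
    have h1 := (summable_geometric_of_lt_one (r := (4 / 5 : ℝ)) (by norm_num)
      (by norm_num)).sum_le_tsum (Finset.range N) (fun i _ => by positivity)
    rw [tsum_geometric_of_lt_one (by norm_num) (by norm_num)] at h1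
    norm_num at h1
    exact h1
  calc 4 * C / (U * Real.log p) * ∑ k ∈ Finset.range N, (4 / 5 : ℝ) ^ k ≤
        4 * C / (U * Real.log p) * 5 := by gcongr
    _ = 20 * C / (U * Real.log p) := by ring

lemma ms_sum {C : ℝ} (hC : 0 < C) (hBT : ∀ u v : ℝ, 0 ≤ u → 2 ≤ v →
    (((Finset.Ioc ⌊u⌋₊ ⌊u + v⌋₊).filter Nat.Prime).card : ℝ) ≤ C * v / Real.log v)
    {y U : ℝ} (hy : 2 ≤ y) (hU1 : 1 ≤ U) (hU2 : U ≤ Real.sqrt y)
    (F : Finset ℕ) (hF : ∀ q ∈ F, q.Prime ∧ y < q) :
    ∑ p ∈ F, ∑ q ∈ F, 1 / (p : ℝ) * (1 / (q : ℝ)) *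
      (2 * U * Real.exp (-(U ^ 2 * (Real.log q - Real.log p) ^ 2 / 4))) ≤
      (64 + 640 * C) / Real.log y := by
  classical
  have hU0 : 0 < U := by linarith
  set f : ℕ → ℕ → ℝ := fun p q => 1 / (p : ℝ) * (1 / (q : ℝ)) *
      (2 * U * Real.exp (-(U ^ 2 * (Real.log q - Real.log p) ^ 2 / 4))) with hf
  have hf0 : ∀ p q, 0 ≤ f p q := by intro p q; rw [hf]; positivity
  have hfsymm : ∀ p q, f p q = f q p := by
    intro p q
    simp only [hf]
    have : (Real.log q - Real.log p) ^ 2 = (Real.log p - Real.log q) ^ 2 := by ring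
    rw [this]; ring
  have h1 : ∑ p ∈ F, ∑ q ∈ F, f p q ≤
      ∑ p ∈ F, ∑ q ∈ F, (if p ≤ q then f p q else 0) +
      ∑ p ∈ F, ∑ q ∈ F, (if q ≤ p then f p q else 0) := by
    rw [← Finset.sum_add_distrib]
    refine Finset.sum_le_sum fun p _ => ?_
    rw [← Finset.sum_add_distrib]
    refine Finset.sum_le_sum fun q _ => ?_
    have h0 := hf0 p q
    rcases le_total p q with h | h
    · rw [if_pos h]
      split_ifs <;> linarith
    · rw [if_pos h]
      split_ifs <;> linarith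
  have h2 : ∑ p ∈ F, ∑ q ∈ F, (if q ≤ p then f p q else 0) =
      ∑ p ∈ F, ∑ q ∈ F, (if p ≤ q then f p q else 0) := by
    rw [Finset.sum_comm]
    refine Finset.sum_congr rfl fun p _ => Finset.sum_congr rfl fun q _ => ?_
    rw [hfsymm q p]
  have h3 : ∀ p ∈ F, ∑ q ∈ F, (if p ≤ q then f p q else 0) ≤
      (4 + 40 * C) * (1 / (p * Real.log p)) := by
    intro p hp
    obtain ⟨hpp, hyp⟩ := hF p hp
    have hp0 : (0 : ℝ) < p := by exact_mod_cast hpp.pos
    have hp1 : (1 : ℝ) < p := by exact_mod_cast hpp.one_lt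
    have hlp : 0 < Real.log p := Real.log_pos hp1
    have h4 : ∑ q ∈ F, (if p ≤ q then f p q else 0) =
        f p p + ∑ q ∈ F.filter (fun q => p < q), f p q := by
      rw [← Finset.sum_filter]
      have h5 : F.filter (fun q => p ≤ q) = insert p (F.filter (fun q => p < q)) := by
        ext q
        simp only [Finset.mem_filter, Finset.mem_insert]
        constructor
        · rintro ⟨h6, h7⟩
          rcases h7.eq_or_lt with h8 | h8
          · exact Or.inl h8.symm
          · exact Or.inr ⟨h6, h8⟩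
        · rintro (h6 | ⟨h6, h7⟩)
          · rw [h6]; exact ⟨hp, le_rfl⟩
          · exact ⟨h6, h7.le⟩
      rw [h5, Finset.sum_insert]
      simp
    rw [h4]
    have h5 : f p p ≤ 4 * (1 / (p * Real.log p)) := by
      have h6 : U ≤ Real.sqrt p := hU2.trans (Real.sqrt_le_sqrt hyp.le)
      have h7 : Real.sqrt p * Real.sqrt p = p := Real.mul_self_sqrt hp0.le
      have hsp : 0 < Real.sqrt p := Real.sqrt_pos.mpr hp0
      have h8 : Real.log p ≤ 2 * Real.sqrt p := by
        have h9 : Real.log (Real.sqrt p) = Real.log p / 2 := Real.log_sqrt hp0.le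
        have h10 := Real.log_le_sub_one_of_pos hsp
        linarith
      have h11 : f p p = 2 * U / (p * p) := by
        simp only [hf, sub_self]
        rw [show -(U ^ 2 * (0 : ℝ) ^ 2 / 4) = 0 by ring, Real.exp_zero]
        field_simp
      rw [h11, mul_one_div, div_le_div_iff₀ (by positivity) (by positivity)]
      have h12 : U * Real.log p ≤ 2 * p := by
        calc U * Real.log p ≤ Real.sqrt p * (2 * Real.sqrt p) := by gcongr
          _ = 2 * (Real.sqrt p * Real.sqrt p) := by ring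
          _ = 2 * p := by rw [h7]
      nlinarith
    have h6 : ∑ q ∈ F.filter (fun q => p < q), f p q ≤ 40 * C * (1 / (p * Real.log p)) := by
      have h7 := ms_inner hC hBT hy hU1 hU2 hyp (F.filter (fun q => p < q)) (fun q hq => by
        rw [Finset.mem_filter] at hq
        exact ⟨(hF q hq.1).1, hq.2⟩)
      have h8 : ∑ q ∈ F.filter (fun q => p < q), f p q = 2 * U / p *
          ∑ q ∈ F.filter (fun q => p < q),
            1 / (q : ℝ) * Real.exp (-(U ^ 2 * (Real.log q - Real.log p) ^ 2 / 4)) := by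
        rw [Finset.mul_sum]
        refine Finset.sum_congr rfl fun q _ => ?_
        simp only [hf]
        ring
      rw [h8]
      calc 2 * U / p * _ ≤ 2 * U / p * (20 * C / (U * Real.log p)) := by gcongr
        _ = 40 * C * (1 / (p * Real.log p)) := by field_simp; ring
    calc f p p + ∑ q ∈ F.filter (fun q => p < q), f p q ≤
          4 * (1 / (p * Real.log p)) + 40 * C * (1 / (p * Real.log p)) := add_le_add h5 h6
      _ = (4 + 40 * C) * (1 / (p * Real.log p)) := by ring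
  have h4 : ∑ p ∈ F, ∑ q ∈ F, (if p ≤ q then f p q else 0) ≤ (4 + 40 * C) * (8 / Real.log y) := by
    refine (Finset.sum_le_sum h3).trans ?_
    rw [← Finset.mul_sum]
    have := sum_recip_log_finset hy F hF
    gcongr
  calc ∑ p ∈ F, ∑ q ∈ F, f p q ≤ (4 + 40 * C) * (8 / Real.log y) + (4 + 40 * C) * (8 / Real.log y) := by
        rw [h2] at h1; linarith
    _ = (64 + 640 * C) / Real.log y := by ring

lemma ms_finite {C : ℝ} (hC : 0 < C) (hBT : ∀ u v : ℝ, 0 ≤ u → 2 ≤ v →
    (((Finset.Ioc ⌊u⌋₊ ⌊u + v⌋₊).filter Nat.Prime).card : ℝ) ≤ C * v / Real.log v)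
    {y U : ℝ} (hy : 2 ≤ y) (hU1 : 1 ≤ U) (hU2 : U ≤ Real.sqrt y)
    (F : Finset ℕ) (hF : ∀ q ∈ F, q.Prime ∧ y < q) (c : ℕ → ℂ) (hc : ∀ q ∈ F, ‖c q‖ ≤ 1 / (q : ℝ)) :
    ∫ t in (-U)..U, ‖msP F c t‖ ^ 2 ≤ Real.exp 1 * (64 + 640 * C) / Real.log y := by
  have hU0 : 0 < U := by linarith
  refine (ms_interval hU0 F c).trans ?_
  rw [mul_div_assoc]
  refine mul_le_mul_of_nonneg_left ?_ (Real.exp_pos 1).le
  refine (ms_double hU0 F c).trans ?_
  refine le_trans ?_ (ms_sum hC hBT hy hU1 hU2 F hF)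
  refine Finset.sum_le_sum fun p hp => Finset.sum_le_sum fun q hq => ?_
  have h1 := hc p hp
  have h2 := hc q hq
  gcongr

theorem meanSquare (h : BrunTitchmarsh) : MeanSquare := by
  obtain ⟨C, hC, hBT⟩ := h
  refine ⟨Real.exp 1 * (64 + 640 * C), by positivity, fun y U s hy hU1 hU2 hs b hb1 hb2 => ?_⟩
  set c : ℕ → ℂ := fun n => b n * Complex.exp ((-((1 + s) * Real.log n) : ℝ) : ℂ) with hcdef
  set F : ℕ → Finset ℕ := fun N => (Finset.range N).filter (fun n => b n ≠ 0) with hFdef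
  have hFp : ∀ N, ∀ q ∈ F N, q.Prime ∧ y < q := by
    intro N q hq
    exact hb2 q (Finset.mem_filter.mp hq).2
  have hcn : ∀ q : ℕ, q.Prime → ‖c q‖ ≤ (q : ℝ) ^ (-(1 + s)) := by
    intro q hq
    have hq0 : (0 : ℝ) < q := by exact_mod_cast hq.pos
    rw [hcdef]
    simp only
    rw [norm_mul, Complex.norm_exp, Complex.ofReal_re, Real.rpow_def_of_pos hq0]
    have h1 : Real.log q * -(1 + s) = -((1 + s) * Real.log q) := by ring
    rw [h1]
    exact mul_le_of_le_one_left (Real.exp_pos _).le (hb1 q)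
  have hcn' : ∀ N, ∀ q ∈ F N, ‖c q‖ ≤ 1 / (q : ℝ) := by
    intro N q hq
    have hqp := (hFp N q hq).1
    have hq1 : (1 : ℝ) ≤ q := by exact_mod_cast hqp.one_lt.le
    refine (hcn q hqp).trans ?_
    rw [one_div, ← Real.rpow_neg_one]
    exact Real.rpow_le_rpow_of_exponent_le hq1 (by linarith)
  have hfin : ∀ N, ∫ t in (-U)..U, ‖msP (F N) c t‖ ^ 2 ≤ Real.exp 1 * (64 + 640 * C) / Real.log y :=
    fun N => ms_finite hC hBT hy hU1 hU2 (F N) (hFp N) c (hcn' N)
  have hterm : ∀ N (t : ℝ), msP (F N) c t =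
      ∑ n ∈ Finset.range N, LSeries.term b (1 + s + t * Complex.I) n := by
    intro N t
    unfold msP
    rw [hFdef]
    simp only
    rw [Finset.sum_filter]
    refine Finset.sum_congr rfl fun n _ => ?_
    by_cases hbn : b n = 0
    · rw [if_neg (by simpa using hbn)]
      by_cases hn : n = 0
      · rw [hn, LSeries.term_zero]
      · rw [LSeries.term_of_ne_zero hn, hbn, zero_div]
    · rw [if_pos hbn]
      have hn : n ≠ 0 := (hb2 n hbn).1.ne_zero
      have hn' : (n : ℂ) ≠ 0 := by exact_mod_cast hn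
      rw [LSeries.term_of_ne_zero hn, Complex.cpow_def_of_ne_zero hn', div_eq_mul_inv,
        ← Complex.exp_neg]
      simp only [hcdef]
      rw [mul_assoc, ← Complex.exp_add]
      congr 2
      rw [Complex.ofReal_neg, Complex.ofReal_mul, Complex.ofReal_add, Complex.ofReal_one,
        Complex.natCast_log]
      ring
  have hsum : ∀ t : ℝ, LSeriesSummable b (1 + s + t * Complex.I) := by
    intro t
    refine LSeriesSummable_of_bounded_of_one_lt_re (m := 1) (fun n _ => hb1 n) ?_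
    have h1 : (1 + (s : ℂ) + t * Complex.I).re = 1 + s := by simp
    rw [h1]; linarith
  have htend : ∀ t : ℝ, Filter.Tendsto (fun N => msP (F N) c t) Filter.atTop
      (nhds (LSeries b (1 + s + t * Complex.I))) := by
    intro t
    simp_rw [hterm]
    exact (hsum t).hasSum.tendsto_sum_nat
  set M := ∑' n : ℕ, (n : ℝ) ^ (-(1 + s)) with hM
  have hMs : Summable (fun n : ℕ => (n : ℝ) ^ (-(1 + s))) :=
    Real.summable_nat_rpow.mpr (by linarith)
  have hbound : ∀ N (t : ℝ), ‖msP (F N) c t‖ ≤ M := by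
    intro N t
    refine (msP_norm_le _ _ _).trans ?_
    refine (Finset.sum_le_sum fun q hq => hcn q (hFp N q hq).1).trans ?_
    exact hMs.sum_le_tsum _ fun n _ => by positivity
  have hlim := intervalIntegral.tendsto_integral_filter_of_dominated_convergence
    (μ := volume) (a := -U) (b := U) (l := Filter.atTop)
    (F := fun N t => ‖msP (F N) c t‖ ^ 2)
    (f := fun t : ℝ => ‖LSeries b (1 + s + t * Complex.I)‖ ^ 2) (fun _ => M ^ 2)
    (Filter.Eventually.of_forall fun N => by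
      have := msP_continuous (F N) c
      exact (by fun_prop : Continuous fun t => ‖msP (F N) c t‖ ^ 2).aestronglyMeasurable)
    (Filter.Eventually.of_forall fun N => Filter.Eventually.of_forall fun t _ => by
      rw [norm_pow, norm_norm]
      exact pow_le_pow_left₀ (norm_nonneg _) (hbound N t) 2)
    (by simp)
    (Filter.Eventually.of_forall fun t _ => ((htend t).norm.pow 2))
  exact le_of_tendsto hlim (Filter.Eventually.of_forall hfin)

end Hoh
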