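import Pool.Agent.Lib.MP_0bb3d8_nt.HohKernel

/-!
Module M5: end of the proof of `PointwiseBound`.
-/

namespace Hoh

open Complex MeasureTheory

/-- `∑ Λ(n) n^{-1-σ} ≤ C/σ`. -/
lemma vonMangoldt_bound : ∃ C : ℝ, 0 < C ∧ ∀ σ : ℝ, 0 < σ → σ ≤ 1 →
    ∑' n, ‖LSeries.term (fun n : ℕ => ((ArithmeticFunction.vonMangoldt n : ℝ) : ℂ)) (1 + σ : ℝ) n‖ ≤ C / σ := by
  have hcont := ArithmeticFunction.vonMangoldt.continuousOn_LFunctionResidueClassAux (1 : ZMod 1)
  have hcomp : IsCompact ((fun x : ℝ => ((1 + x : ℝ) : ℂ)) '' Set.Icc 0 1) :=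
    isCompact_Icc.image (by fun_prop)
  have hsub : (fun x : ℝ => ((1 + x : ℝ) : ℂ)) '' Set.Icc 0 1 ⊆ {s : ℂ | 1 ≤ s.re} := by
    rintro _ ⟨x, hx, rfl⟩
    simp only [Set.mem_ofPred_eq, Complex.ofReal_re]
    linarith [hx.1]
  obtain ⟨B, hB⟩ := hcomp.exists_bound_of_continuousOn (hcont.mono hsub)
  refine ⟨1 + |B|, by positivity, fun σ h0 h1 => ?_⟩
  have hs : 1 < ((1 + σ : ℝ) : ℂ).re := by
    rw [Complex.ofReal_re]; linarith
  have hres : (fun n : ℕ => ((ArithmeticFunction.vonMangoldt.residueClass (1 : ZMod 1) n : ℝ) : ℂ)) = (fun n : ℕ => ((ArithmeticFunction.vonMangoldt n : ℝ) : ℂ)) := by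
    funext n
    have : (n : ZMod 1) = 1 := Subsingleton.elim _ _
    simp only [ArithmeticFunction.vonMangoldt.residueClass]
    rw [Set.indicator_of_mem (by exact this)]
  have heq := ArithmeticFunction.vonMangoldt.eqOn_LFunctionResidueClassAux (q := 1)
    (a := 1) isUnit_one hs
  simp only at heq
  rw [hres] at heq
  have hL : LSeries (fun n : ℕ => ((ArithmeticFunction.vonMangoldt n : ℝ) : ℂ)) ((1 + σ : ℝ) : ℂ) = ((∑' n, ‖LSeries.term (fun n : ℕ => ((ArithmeticFunction.vonMangoldt n : ℝ) : ℂ)) (1 + σ : ℝ) n‖ : ℝ) : ℂ) := by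
    rw [LSeries, Complex.ofReal_tsum]
    congr 1
    funext n
    rw [LSeries.norm_term_eq, LSeries.term_def]
    by_cases hn : n = 0
    · simp [hn]
    · rw [if_neg hn, if_neg hn, Complex.ofReal_re, Complex.norm_real,
        Real.norm_of_nonneg ArithmeticFunction.vonMangoldt_nonneg, Complex.ofReal_div,
        Complex.ofReal_cpow (Nat.cast_nonneg n)]
      push_cast
      rfl
  have hb := hB ((1 + σ : ℝ) : ℂ) ⟨σ, ⟨h0.le, h1⟩, rfl⟩
  rw [heq, hL] at hb
  have h3 : (((1 : ℕ).totient : ℂ))⁻¹ / (((1 + σ : ℝ) : ℂ) - 1) = ((1 / σ : ℝ) : ℂ) := by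
    rw [Nat.totient_one]
    push_cast
    rw [inv_one, add_sub_cancel_left]
  rw [h3, ← Complex.ofReal_sub, Complex.norm_real, Real.norm_eq_abs] at hb
  have h4 := (abs_le.mp hb).2
  have h5 : B ≤ |B| / σ := by
    refine (le_abs_self B).trans ?_
    rw [le_div_iff₀ h0]
    nlinarith [abs_nonneg B]
  rw [add_div]
  linarith

lemma norm_LSeries_vonMangoldt_le {C σ : ℝ}
    (hC : ∑' n, ‖LSeries.term (fun n : ℕ => ((ArithmeticFunction.vonMangoldt n : ℝ) : ℂ)) (1 + σ : ℝ) n‖ ≤ C / σ) (h0 : 0 < σ) (u : ℝ) :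
    ‖LSeries (fun n : ℕ => ((ArithmeticFunction.vonMangoldt n : ℝ) : ℂ)) ((1 + σ : ℝ) + u * I)‖ ≤ C / σ := by
  have hn : ∀ n, ‖LSeries.term (fun n : ℕ => ((ArithmeticFunction.vonMangoldt n : ℝ) : ℂ)) (((1 + σ : ℝ) : ℂ) + u * I) n‖ =
      ‖LSeries.term (fun n : ℕ => ((ArithmeticFunction.vonMangoldt n : ℝ) : ℂ)) (1 + σ : ℝ) n‖ := by
    intro n
    rw [LSeries.norm_term_eq, LSeries.norm_term_eq]
    simp
  have hs : 1 < ((1 + σ : ℝ) : ℂ).re := by
    rw [Complex.ofReal_re]; linarith
  have hsum := (ArithmeticFunction.LSeriesSummable_vonMangoldt hs).norm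
  rw [LSeries]
  refine (norm_tsum_le_tsum_norm ?_).trans ?_
  · simp only [hn]; exact hsum
  · simp only [hn]; exact hC

/-- The contribution of proper prime powers. -/
lemma summable_nonprime : Summable fun n : ℕ =>
    (if n.Prime then 0 else ArithmeticFunction.vonMangoldt n) / (n : ℝ) := by
  have h := ArithmeticFunction.vonMangoldt.summable_residueClass_non_primes_div (1 : ZMod 1)
  refine h.congr fun n => ?_
  congr 1
  split_ifs
  · rfl
  · have : (n : ZMod 1) = 1 := Subsingleton.elim _ _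
    simp only [ArithmeticFunction.vonMangoldt.residueClass]
    rw [Set.indicator_of_mem (by exact this)]

theorem pointwiseBound (hZ : ZetaBound) : PointwiseBound := by
  intro η ε G hη hη1 hε hG
  obtain ⟨C2, hC2, hzeta⟩ := hZ
  obtain ⟨C1, hC1, hvm⟩ := vonMangoldt_bound
  obtain ⟨h, hh, hh1, hker⟩ := exists_kernel hG (a := η / 2) (by positivity)
  set D : ℝ := ∫ ξ, (1 + |ξ|) * ‖h ξ‖ with hD
  have hD0 : 0 ≤ D := integral_nonneg fun ξ => by positivity
  set B : ℝ := ∑' n : ℕ, (if n.Prime then 0 else ArithmeticFunction.vonMangoldt n) / (n : ℝ) with hB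
  have hB0 : 0 ≤ B := tsum_nonneg fun n => by
    split_ifs
    · simp
    · exact div_nonneg ArithmeticFunction.vonMangoldt_nonneg (Nat.cast_nonneg n)
  set M : ℝ := 2 * C2 + 8 * Real.pi * C1 / η with hM
  have hM0 : 0 < M := by positivity
  have hlog2 : 0 < Real.log 2 := Real.log_pos one_lt_two
  refine ⟨(2 * C1 * D) / η + B + (M * D) / η + B / (η * Real.log 2) + 1, by positivity,
    fun x hx hL => ?_⟩
  have hx0 : 0 < x := lt_of_lt_of_le (Real.exp_pos 1) hx
  have hlx : 1 ≤ Real.log x := by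
    rw [← Real.log_exp 1]
    exact Real.log_le_log (Real.exp_pos 1) hx
  have hlx0 : 0 < Real.log x := by linarith
  set L : ℝ := η * Real.log x with hLdef
  have hL0 : 0 < L := by linarith
  set σ : ℝ := 1 / (2 * Real.log x) with hσ
  have hσ0 : 0 < σ := by positivity
  have hσ1 : σ ≤ 1 := by
    rw [hσ, div_le_one (by positivity)]; linarith
  have hs1 : 1 < ((1 + σ : ℝ) : ℂ).re := by
    rw [Complex.ofReal_re]; linarith
  have hsumm := ArithmeticFunction.LSeriesSummable_vonMangoldt hs1
  have hvmσ := hvm σ hσ0 hσ1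
  -- the smoothed sum
  have hT : ∀ t : ℝ, ∑' n, LSeries.term (fun n : ℕ => ((ArithmeticFunction.vonMangoldt n : ℝ) : ℂ)) (((1 + σ : ℝ) : ℂ) + t * I) n *
      ((G (Real.log n / L) * (Real.log n / L)⁻¹ * Real.exp (-(η / 2) * (Real.log n / L)) : ℝ) : ℂ) =
      ∫ ξ : ℝ, h ξ * LSeries (fun n : ℕ => ((ArithmeticFunction.vonMangoldt n : ℝ) : ℂ)) (((1 + σ : ℝ) : ℂ) + ((t + -(2 * Real.pi / L) * ξ : ℝ) : ℂ) * I) := by
    intro t
    rw [integral_kernel_LSeries h hh (fun n : ℕ => ((ArithmeticFunction.vonMangoldt n : ℝ) : ℂ)) (1 + σ) t (-(2 * Real.pi / L)) hsumm]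
    congr 1
    funext n
    congr 1
    rw [← hker]
    congr 1
    funext ξ
    congr 2
    have : (L : ℂ) ≠ 0 := by exact_mod_cast hL0.ne'
    push_cast
    field_simp
  -- termwise comparison
  have hk1 : ∀ w : ℝ, |G w * w⁻¹ * Real.exp (-(η / 2) * w)| ≤ 1 := by
    intro w
    by_cases hw : w ≤ 1
    · rw [hG.zero w hw]; simp
    · push Not at hw
      rw [abs_mul, abs_mul, abs_of_nonneg (hG.nonneg w), abs_of_pos (Real.exp_pos _),
        abs_of_pos (by positivity : 0 < w⁻¹)]
      have h1 := hG.le_one w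
      have h2 : w⁻¹ ≤ 1 := inv_le_one_of_one_le₀ hw.le
      have h3 : Real.exp (-(η / 2) * w) ≤ 1 := by
        rw [Real.exp_le_one_iff]
        nlinarith
      calc G w * w⁻¹ * Real.exp (-(η / 2) * w) ≤ 1 * 1 * 1 := by
            have := hG.nonneg w
            gcongr
        _ = 1 := by ring
  set T : ℝ → ℕ → ℂ := fun t n => LSeries.term (fun n : ℕ => ((ArithmeticFunction.vonMangoldt n : ℝ) : ℂ)) (((1 + σ : ℝ) : ℂ) + t * I) n *
      ((G (Real.log n / L) * (Real.log n / L)⁻¹ * Real.exp (-(η / 2) * (Real.log n / L)) : ℝ) : ℂ)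
    with hTdef
  have hTn : ∀ t n, ‖T t n‖ ≤ ‖LSeries.term (fun n : ℕ => ((ArithmeticFunction.vonMangoldt n : ℝ) : ℂ)) (1 + σ : ℝ) n‖ := by
    intro t n
    rw [hTdef]
    simp only
    rw [norm_mul, Complex.norm_real, Real.norm_eq_abs]
    have h1 : ‖LSeries.term (fun n : ℕ => ((ArithmeticFunction.vonMangoldt n : ℝ) : ℂ)) (((1 + σ : ℝ) : ℂ) + t * I) n‖ =
        ‖LSeries.term (fun n : ℕ => ((ArithmeticFunction.vonMangoldt n : ℝ) : ℂ)) (1 + σ : ℝ) n‖ := by
      rw [LSeries.norm_term_eq, LSeries.norm_term_eq]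
      simp
    rw [h1]
    exact mul_le_of_le_one_right (norm_nonneg _) (hk1 _)
  have hTs : ∀ t, Summable (T t) := fun t =>
    Summable.of_norm_bounded hsumm.norm (hTn t)
  -- identification of the prime part
  have hprime : ∀ t : ℝ, ∀ n : ℕ, LSeries.term (fun n => (g1 G L n : ℂ)) (1 + 1 / Real.log x + t * I) n =
      (1 / L : ℝ) * (if n.Prime then T t n else 0) := by
    intro t n
    by_cases hn : n.Prime
    · rw [if_pos hn, LSeries.term_def, if_neg hn.ne_zero]
      rw [hTdef]
      simp only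
      rw [LSeries.term_def, if_neg hn.ne_zero]
      have hg : (g1 G L n : ℝ) = G (Real.log n / L) := by
        simp only [g1, ArithmeticFunction.coe_mk]
        rw [if_pos hn]
      rw [hg, ArithmeticFunction.vonMangoldt_apply_prime hn]
      have hn0 : (n : ℂ) ≠ 0 := by exact_mod_cast hn.ne_zero
      have hln : 0 < Real.log n := Real.log_pos (by exact_mod_cast hn.one_lt)
      have h1 : (1 + 1 / (Real.log x : ℂ) + t * I) = (((1 + σ : ℝ) : ℂ) + t * I) + (σ : ℂ) := by
        rw [hσ]
        push_cast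
        have : (Real.log x : ℂ) ≠ 0 := by exact_mod_cast hlx0.ne'
        field_simp
        ring
      have h2 : (n : ℂ) ^ (σ : ℂ) = ((Real.exp (σ * Real.log n) : ℝ) : ℂ) := by
        rw [Complex.cpow_def_of_ne_zero hn0, ← Complex.natCast_log, Complex.ofReal_exp]
        congr 1
        push_cast
        ring
      have h3 : Real.exp (-(η / 2) * (Real.log n / L)) = (Real.exp (σ * Real.log n))⁻¹ := by
        rw [← Real.exp_neg]
        congr 1
        rw [hσ, hLdef]
        field_simp
      have h4 : (Real.exp (σ * Real.log n)) ≠ 0 := (Real.exp_pos _).ne'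
      have h4' : ((Real.exp (σ * Real.log n) : ℝ) : ℂ) ≠ 0 := by exact_mod_cast h4
      have h5 : (n : ℂ) ^ (((1 + σ : ℝ) : ℂ) + t * I) ≠ 0 := by
        rw [Complex.cpow_ne_zero_iff]; left; exact hn0
      rw [h1, Complex.cpow_add _ _ hn0, h2, h3]
      have hLC : (L : ℂ) ≠ 0 := by exact_mod_cast hL0.ne'
      have hlnC : (Real.log n : ℂ) ≠ 0 := by exact_mod_cast hln.ne'
      push_cast
      push_cast at h4' hlnC
      field_simp
    · rw [if_neg hn, mul_zero, LSeries.term_def]
      have hg : (g1 G L n : ℝ) = 0 := by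
        simp only [g1, ArithmeticFunction.coe_mk]
        rw [if_neg hn]
      rw [hg]
      simp
  have hdecomp : ∀ t : ℝ, LSeries (fun n => (g1 G L n : ℂ)) (1 + 1 / Real.log x + t * I) =
      (1 / L : ℝ) * (∑' n, T t n - ∑' n : ℕ, if n.Prime then 0 else T t n) := by
    intro t
    rw [LSeries]
    simp only [hprime t]
    rw [tsum_mul_left]
    congr 1
    have hs2 : Summable (fun n : ℕ => if n.Prime then 0 else T t n) := by
      refine Summable.of_norm_bounded hsumm.norm fun n => ?_
      split_ifs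
      · simp
      · exact hTn t n
    rw [← (hTs t).tsum_sub hs2]
    congr 1
    funext n
    split_ifs <;> simp
  have hnp : ∀ t : ℝ, ‖∑' n : ℕ, if n.Prime then 0 else T t n‖ ≤ B := by
    intro t
    have hb : ∀ n : ℕ, ‖if n.Prime then (0 : ℂ) else T t n‖ ≤
        (if n.Prime then 0 else ArithmeticFunction.vonMangoldt n) / (n : ℝ) := by
      intro n
      split_ifs with hn
      · simp
      · refine (hTn t n).trans ?_
        rw [LSeries.norm_term_eq]
        by_cases h0 : n = 0
        · simp [h0]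
        · rw [if_neg h0, Complex.norm_real, Real.norm_of_nonneg ArithmeticFunction.vonMangoldt_nonneg,
            Complex.ofReal_re]
          have h1n : (1 : ℝ) ≤ n := by exact_mod_cast Nat.one_le_iff_ne_zero.mpr h0
          apply div_le_div_of_nonneg_left ArithmeticFunction.vonMangoldt_nonneg (by linarith)
          calc (n : ℝ) = (n : ℝ) ^ (1 : ℝ) := (Real.rpow_one _).symm
            _ ≤ (n : ℝ) ^ (1 + σ) := Real.rpow_le_rpow_of_exponent_le h1n (by linarith)
    exact tsum_of_norm_bounded summable_nonprime.hasSum hb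
  have hbase : ∀ (t A : ℝ), (∀ᵐ ξ : ℝ, ‖LSeries (fun n : ℕ => ((ArithmeticFunction.vonMangoldt n : ℝ) : ℂ)) (((1 + σ : ℝ) : ℂ) +
      ((t + -(2 * Real.pi / L) * ξ : ℝ) : ℂ) * I)‖ ≤ A * (1 + |ξ|)) →
      ‖LSeries (fun n => (g1 G L n : ℂ)) (1 + 1 / Real.log x + t * I)‖ ≤ (A * D + B) / L := by
    intro t A hA
    rw [hdecomp, norm_mul, Complex.norm_real, Real.norm_of_nonneg (by positivity),
      div_eq_inv_mul (A * D + B) L, ← one_div]
    gcongr
    refine (norm_sub_le _ _).trans ?_
    refine add_le_add ?_ (hnp t)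
    rw [hTdef]
    simp only
    rw [hT t]
    have h1 : Integrable (fun ξ : ℝ => A * ((1 + |ξ|) * ‖h ξ‖)) := hh1.const_mul A
    refine (norm_integral_le_of_norm_le h1 ?_).trans (le_of_eq ?_)
    · filter_upwards [hA] with ξ hξ
      rw [norm_mul]
      calc ‖h ξ‖ * _ ≤ ‖h ξ‖ * (A * (1 + |ξ|)) := by gcongr
        _ = _ := by ring
    · rw [integral_const_mul]
  constructor
  · intro t
    have h1 := hbase t (C1 / σ) (Filter.Eventually.of_forall fun ξ => by
      refine (norm_LSeries_vonMangoldt_le hvmσ hσ0 _).trans ?_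
      have : 0 ≤ C1 / σ := by positivity
      nlinarith [abs_nonneg ξ])
    refine h1.trans ?_
    have e1 : (C1 / σ * D + B) / L = 2 * C1 * D / η + B / L := by
      rw [hσ, hLdef]
      field_simp
    rw [e1]
    have h2 : B / L ≤ B := div_le_self hB0 hL
    have h3 : 0 ≤ M * D / η := by positivity
    have h4 : 0 ≤ B / (η * Real.log 2) := by positivity
    linarith
  · intro t ht
    have ht0 : 0 < |t| := abs_pos.mpr ht
    set Q : ℝ := Real.log (2 + |t|) + 1 / |t| with hQ
    have hlogt : Real.log 2 ≤ Real.log (2 + |t|) := Real.log_le_log two_pos (by linarith)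
    have hQ2 : Real.log 2 ≤ Q := by
      have : 0 ≤ 1 / |t| := by positivity
      linarith
    have hQ0 : 0 < Q := by linarith
    have h1 := hbase t (M * Q) (Filter.Eventually.of_forall fun ξ => by
      set u : ℝ := t + -(2 * Real.pi / L) * ξ with hu
      by_cases hcase : |2 * Real.pi / L * ξ| ≤ |t| / 2
      · -- near
        have hu1 : |t| / 2 ≤ |u| := by
          have := abs_sub_abs_le_abs_sub t (2 * Real.pi / L * ξ)
          have e : t - 2 * Real.pi / L * ξ = u := by rw [hu]; ring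
          rw [e] at this
          linarith
        have hu2 : |u| ≤ 3 / 2 * |t| := by
          have := abs_sub t (2 * Real.pi / L * ξ)
          have e : t - 2 * Real.pi / L * ξ = u := by rw [hu]; ring
          rw [e] at this
          linarith
        have hu0 : 0 < |u| := by linarith
        have hz := hzeta σ u hσ0 hσ1 (abs_pos.mp hu0)
        have hs2 : 1 < (((1 + σ : ℝ) : ℂ) + (u : ℂ) * I).re := by
          simp; exact hσ0
        have e2 : (((1 + σ : ℝ) : ℂ) + (u : ℂ) * I) = 1 + σ + u * I := by push_cast; ring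
        rw [ArithmeticFunction.LSeries_vonMangoldt_eq_deriv_riemannZeta_div hs2, neg_div, norm_neg, e2]
        refine hz.trans ?_
        have h2 : Real.log (2 + |u|) ≤ 2 * Real.log (2 + |t|) := by
          rw [← Real.log_rpow (by positivity)]
          apply Real.log_le_log (by positivity)
          have : (2 + |t|) ^ (2 : ℝ) = (2 + |t|) ^ 2 := by
            rw [← Real.rpow_natCast]; norm_num
          rw [this]
          nlinarith
        have h3 : 1 / |u| ≤ 2 * (1 / |t|) := by
          rw [mul_one_div, div_le_div_iff₀ hu0 ht0]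
          linarith
        have h4 : Real.log (2 + |u|) + 1 / |u| ≤ 2 * Q := by rw [hQ]; linarith
        calc C2 * (Real.log (2 + |u|) + 1 / |u|) ≤ C2 * (2 * Q) := by gcongr
          _ ≤ M * Q * 1 := by
            have : 0 ≤ 8 * Real.pi * C1 / η * Q := by positivity
            rw [hM]
            nlinarith
          _ ≤ M * Q * (1 + |ξ|) := by
            gcongr
            linarith [abs_nonneg ξ]
      · -- far
        push Not at hcase
        refine (norm_LSeries_vonMangoldt_le hvmσ hσ0 _).trans ?_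
        rw [abs_mul, abs_of_pos (by positivity : 0 < 2 * Real.pi / L)] at hcase
        have h2 : C1 / σ ≤ 8 * Real.pi * C1 / η * (1 / |t|) * |ξ| := by
          have h3 : |t| * L ≤ 4 * Real.pi * |ξ| := by
            have h4 : |t| / 2 * L < 2 * Real.pi / L * |ξ| * L := by gcongr
            have h5 : 2 * Real.pi / L * |ξ| * L = 2 * Real.pi * |ξ| := by field_simp
            rw [h5] at h4
            linarith
          have h6 : C1 / σ = 2 * C1 / η * (|t| * L) * (1 / |t|) := by
            rw [hσ, hLdef]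
            field_simp
          rw [h6]
          calc 2 * C1 / η * (|t| * L) * (1 / |t|) ≤ 2 * C1 / η * (4 * Real.pi * |ξ|) * (1 / |t|) := by
                gcongr
            _ = _ := by ring
        have h7 : 0 ≤ Real.log (2 + |t|) := by linarith
        have h8 : 8 * Real.pi * C1 / η * (1 / |t|) * |ξ| ≤ M * Q * (1 + |ξ|) := by
          have h9 : 8 * Real.pi * C1 / η ≤ M := by rw [hM]; linarith
          have h10 : 1 / |t| ≤ Q := by rw [hQ]; linarith
          have h11 : |ξ| ≤ 1 + |ξ| := by linarith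
          gcongr
        linarith)
    refine h1.trans ?_
    have e1 : (M * Q * D + B) / L = (M * D / η * Q + B / η) / Real.log x := by
      rw [hLdef]
      field_simp
    rw [e1]
    gcongr
    have h2 : B / η ≤ B / (η * Real.log 2) * Q := by
      have : B / η = B / (η * Real.log 2) * Real.log 2 := by field_simp
      rw [this]
      gcongr
    have h3 : 0 ≤ 2 * C1 * D / η * Q := by positivity
    have h4 : 0 ≤ B * Q := by positivity
    have h5 : 0 ≤ 1 * Q := by positivity
    calc M * D / η * Q + B / η ≤ M * D / η * Q + B / (η * Real.log 2) * Q := by linarith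
      _ ≤ _ := by
        have e : (2 * C1 * D / η + B + M * D / η + B / (η * Real.log 2) + 1) * Q =
          2 * C1 * D / η * Q + B * Q + M * D / η * Q + B / (η * Real.log 2) * Q + 1 * Q := by ring
        rw [e]
        linarith

end Hoh
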