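import Pool.Agent.Lib.MP_0bb3d8_nt.HohTri1

/-!
# M6: the trilinear estimate
-/

namespace Hoh.T33

open Complex Filter Topology Set MeasureTheory

lemma g1_bounds {ε : ℝ} {G : ℝ → ℝ} (hG : Cut ε G) (L : ℝ) (n : ℕ) :
    0 ≤ g1 G L n ∧ g1 G L n ≤ 1 := by
  show 0 ≤ (if n.Prime then G (Real.log n / L) else 0) ∧
    (if n.Prime then G (Real.log n / L) else 0) ≤ 1
  split_ifs
  · exact ⟨hG.nonneg _, hG.le_one _⟩
  · exact ⟨le_refl _, zero_le_one⟩

lemma g1_abs_le {ε : ℝ} {G : ℝ → ℝ} (hG : Cut ε G) (L : ℝ) (n : ℕ) : |g1 G L n| ≤ 1 := by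
  rw [abs_of_nonneg (g1_bounds hG L n).1]; exact (g1_bounds hG L n).2

lemma g1_supp {ε : ℝ} {G : ℝ → ℝ} (hG : Cut ε G) (L : ℝ) (hL : 0 < L) (n : ℕ)
    (h : g1 G L n ≠ 0) : n.Prime ∧ Real.exp L < n := by
  have h' : (if n.Prime then G (Real.log n / L) else 0) ≠ 0 := h
  by_cases hp : n.Prime
  · rw [if_pos hp] at h'
    refine ⟨hp, ?_⟩
    by_contra hcon
    push Not at hcon
    apply h'
    apply hG.zero
    have hn : (0 : ℝ) < n := by exact_mod_cast hp.pos
    rw [div_le_one hL]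
    calc Real.log n ≤ Real.log (Real.exp L) := Real.log_le_log hn hcon
      _ = L := Real.log_exp L
  · rw [if_neg hp] at h'; exact absurd rfl h'

/-- A prime polynomial is dominated by the one with the coefficients `g1`. -/
lemma norm_lser_le {ε : ℝ} {G : ℝ → ℝ} (hG : Cut ε G) (L : ℝ) (hL : 0 < L)
    (b : ArithmeticFunction ℝ) (hb : ∀ n, |b n| ≤ 1)
    (hbs : ∀ n, b n ≠ 0 → n.Prime ∧ Real.exp ((1 + ε) * L) < n) (s t : ℝ) (hs : 0 < s) :
    ‖LSeries (fun n => (b n : ℂ)) (1 + s + t * I)‖ ≤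
      ‖LSeries (fun n => (g1 G L n : ℂ)) (1 + s + (0 : ℝ) * I)‖ := by
  have hre : ∀ u : ℝ, (1 + s + u * I : ℂ).re = 1 + s := by intro u; simp
  have hle : ∀ n, |b n| ≤ g1 G L n := by
    intro n
    by_cases h : b n = 0
    · rw [h, abs_zero]; exact (g1_bounds hG L n).1
    · obtain ⟨hp, hlt⟩ := hbs n h
      have : g1 G L n = 1 := by
        show (if n.Prime then G (Real.log n / L) else 0) = 1
        rw [if_pos hp]
        apply hG.one
        rw [le_div_iff₀ hL]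
        calc (1 + ε) * L = Real.log (Real.exp ((1 + ε) * L)) := (Real.log_exp _).symm
          _ ≤ Real.log n := Real.log_le_log (Real.exp_pos _) hlt.le
      rw [this]; exact hb n
  have hsum := summable_of_abs_le_one (g1 G L) (g1_abs_le hG L) (1 + s + (0 : ℝ) * I)
    (by rw [hre]; linarith)
  have hterm : ∀ n : ℕ, ‖LSeries.term (fun n => (b n : ℂ)) (1 + s + t * I) n‖ ≤
      (LSeries.term (fun n => (g1 G L n : ℂ)) (1 + s + (0 : ℝ) * I) n).re := by
    intro n
    rw [LSeries.norm_term_eq]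
    split_ifs with h
    · simp [h]
    · rw [LSeries.term_of_ne_zero h, hre]
      have e4 : ((n : ℂ) ^ (1 + s + (0 : ℝ) * I : ℂ)) = (((n : ℝ) ^ (1 + s) : ℝ) : ℂ) := by
        rw [Complex.ofReal_cpow (by positivity)]
        push_cast
        simp
      rw [e4, ← Complex.ofReal_div, Complex.ofReal_re, Complex.norm_real, Real.norm_eq_abs]
      gcongr
      exact hle n
  have hsumre := Complex.hasSum_re hsum.hasSum
  have hsn : Summable (fun n : ℕ => ‖LSeries.term (fun n => (b n : ℂ)) (1 + s + t * I) n‖) :=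
    Summable.of_nonneg_of_le (fun n => norm_nonneg _) hterm hsumre.summable
  calc ‖LSeries (fun n => (b n : ℂ)) (1 + s + t * I)‖
      ≤ ∑' n : ℕ, ‖LSeries.term (fun n => (b n : ℂ)) (1 + s + t * I) n‖ :=
        norm_tsum_le_tsum_norm hsn
    _ ≤ ∑' n : ℕ, (LSeries.term (fun n => (g1 G L n : ℂ)) (1 + s + (0 : ℝ) * I) n).re :=
        hsn.tsum_le_tsum hterm hsumre.summable
    _ = (LSeries (fun n => (g1 G L n : ℂ)) (1 + s + (0 : ℝ) * I)).re := (Complex.re_tsum hsum).symm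
    _ ≤ _ := Complex.re_le_norm _

/-- The kernel `Φ(t/T) - Φ(4t)`. -/
lemma kern_diff (φ : ℝ → ℝ) (C T : ℝ) (hT : 1 ≤ T)
    (h1 : ∀ t, ‖Kern φ t‖ ≤ C) (h2 : ∀ t, ‖Kern φ t‖ * |t| ^ 6 ≤ C)
    (h3 : ∀ t t', ‖Kern φ t - Kern φ t'‖ ≤ C * |t - t'|) (hC : 0 ≤ C) :
    (∀ t, ‖Kern φ (t / T) - Kern φ (t / (1 / 4))‖ ≤ 2 * C) ∧
    (∀ t, ‖Kern φ (t / T) - Kern φ (t / (1 / 4))‖ ≤ 5 * C * |t|) ∧
    (∀ t, T ^ 2 ≤ |t| → ‖Kern φ (t / T) - Kern φ (t / (1 / 4))‖ ≤ 2 * C * (1 / T ^ 2) / t ^ 2) := by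
  have hT0 : 0 < T := by linarith
  refine ⟨fun t => ?_, fun t => ?_, fun t ht => ?_⟩
  · calc _ ≤ ‖Kern φ (t / T)‖ + ‖Kern φ (t / (1 / 4))‖ := norm_sub_le _ _
      _ ≤ C + C := add_le_add (h1 _) (h1 _)
      _ = 2 * C := by ring
  · refine (h3 _ _).trans ?_
    have e : t / T - t / (1 / 4) = t * (1 / T - 4) := by field_simp
    rw [e, abs_mul]
    have h5 : |1 / T - 4| ≤ 5 := by
      have h6 : 0 < 1 / T := by positivity
      have h7 : 1 / T ≤ 1 := by rw [div_le_one hT0]; exact hT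
      rw [abs_le]; constructor <;> linarith
    calc C * (|t| * |1 / T - 4|) ≤ C * (|t| * 5) := by gcongr
      _ = 5 * C * |t| := by ring
  · have ht1 : 1 ≤ |t| := le_trans (by nlinarith) ht
    have ht0 : 0 < |t| := by linarith
    have hdecay : ∀ u, 0 < |u| → ‖Kern φ u‖ ≤ C / |u| ^ 6 := by
      intro u hu
      rw [le_div_iff₀ (by positivity)]
      exact h2 u
    have k1 := hdecay (t / T) (by rw [abs_div]; positivity)
    have k2 := hdecay (t / (1 / 4)) (by rw [abs_div]; positivity)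
    have hmain : C / (|t| / T) ^ 6 ≤ C * (1 / T ^ 2) / t ^ 2 := by
      have e1 : (|t| / T) ^ 6 = |t| ^ 6 / T ^ 6 := by rw [div_pow]
      rw [e1, ← sq_abs t]
      have e2 : C / (|t| ^ 6 / T ^ 6) = C * (T ^ 6 / |t| ^ 4) / |t| ^ 2 := by
        field_simp
      rw [e2]
      have h8 : T ^ 6 / |t| ^ 4 ≤ 1 / T ^ 2 := by
        rw [div_le_div_iff₀ (by positivity) (by positivity), one_mul]
        have : (T ^ 2) ^ 4 ≤ |t| ^ 4 := by gcongr
        calc T ^ 6 * T ^ 2 = (T ^ 2) ^ 4 := by ring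
          _ ≤ |t| ^ 4 := this
      gcongr
    have k1' : ‖Kern φ (t / T)‖ ≤ C * (1 / T ^ 2) / t ^ 2 := by
      refine k1.trans ?_
      rw [abs_div, abs_of_pos hT0]
      exact hmain
    have k2' : ‖Kern φ (t / (1 / 4))‖ ≤ C * (1 / T ^ 2) / t ^ 2 := by
      refine k2.trans (le_trans ?_ hmain)
      apply div_le_div_of_nonneg_left hC (by positivity)
      have : |t| / T ≤ |t / (1 / 4)| := by
        rw [abs_div, abs_of_pos (by norm_num : (0 : ℝ) < 1 / 4)]
        rw [div_le_div_iff₀ hT0 (by norm_num)]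
        nlinarith
      gcongr
    calc _ ≤ ‖Kern φ (t / T)‖ + ‖Kern φ (t / (1 / 4))‖ := norm_sub_le _ _
      _ ≤ C * (1 / T ^ 2) / t ^ 2 + C * (1 / T ^ 2) / t ^ 2 := add_le_add k1' k2'
      _ = _ := by ring

/-- Integrability against the kernel. -/
lemma kern_int (φ : ℝ → ℝ) (C T : ℝ) (hT : 0 < T)
    (h1 : ∀ t, ‖Kern φ t‖ ≤ C) (h2 : ∀ t, ‖Kern φ t‖ * |t| ^ 6 ≤ C) (hC : 0 ≤ C)
    (hc : Continuous (Kern φ)) (F : ℝ → ℂ) (hF : Continuous F) (M : ℝ) (hM : ∀ t, ‖F t‖ ≤ M) :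
    Integrable (fun t : ℝ => Kern φ (t / T) * F t) := by
  have hM0 : 0 ≤ M := (norm_nonneg _).trans (hM 0)
  have hb : ∀ u, ‖Kern φ u‖ ≤ 2 * C * (1 + u ^ 2)⁻¹ := by
    intro u
    rcases le_or_gt |u| 1 with h | h
    · have hu : u ^ 2 ≤ 1 := by rw [← sq_abs]; nlinarith [abs_nonneg u]
      refine (h1 u).trans ?_
      rw [← div_eq_mul_inv, le_div_iff₀ (by positivity)]
      nlinarith
    · have hu : 1 ≤ u ^ 2 := by rw [← sq_abs]; nlinarith [abs_nonneg u]
      rw [← div_eq_mul_inv, le_div_iff₀ (by positivity)]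
      have h6 : ‖Kern φ u‖ * (1 + u ^ 2) ≤ 2 * (‖Kern φ u‖ * |u| ^ 6) := by
        have e : |u| ^ 6 = u ^ 2 * (u ^ 2) ^ 2 := by
          rw [← sq_abs u]; ring
        have h7 : 1 + u ^ 2 ≤ 2 * |u| ^ 6 := by
          rw [e]; nlinarith [mul_nonneg (by linarith : (0:ℝ) ≤ u ^ 2 - 1) (by positivity : (0:ℝ) ≤ u ^ 2 * (u ^ 2 + 1))]
        calc ‖Kern φ u‖ * (1 + u ^ 2) ≤ ‖Kern φ u‖ * (2 * |u| ^ 6) := by gcongr
          _ = _ := by ring
      exact h6.trans (by linarith [h2 u])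
  have hint : Integrable (fun t : ℝ => 2 * C * M * (1 + (t / T) ^ 2)⁻¹) :=
    (integrable_inv_one_add_sq.comp_div hT.ne').const_mul _
  have hcF : Continuous (fun t : ℝ => Kern φ (t / T) * F t) :=
    (hc.comp (by fun_prop : Continuous (fun t : ℝ => t / T))).mul hF
  apply hint.mono' hcF.aestronglyMeasurable
  filter_upwards with t
  rw [norm_mul]
  calc ‖Kern φ (t / T)‖ * ‖F t‖ ≤ (2 * C * (1 + (t / T) ^ 2)⁻¹) * M := by
        gcongr
        · exact hb _
        · exact hM t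
    _ = _ := by ring

/-- The difference of two short sums as an integral. -/
lemma diff_eq_integral (hPer : Perron) (φ : ℝ → ℝ) (hφ : Bump φ) (s T X : ℝ) (hs : 0 < s)
    (hT : 0 < T) (hX : 0 < X) (a b : ArithmeticFunction ℝ) (k : ℕ) (ha : ∀ n, |a n| ≤ 1)
    (hb : ∀ n, |b n| ≤ 1)
    (hint1 : Integrable (fun t : ℝ => Kern φ (t / T) * (Complex.exp (I * t * Real.log X) *
        (LSeries (fun n => (b n : ℂ)) (1 + s + t * I) *
          LSeries (fun n => (a n : ℂ)) (1 + s + t * I) ^ k))))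
    (hint2 : Integrable (fun t : ℝ => Kern φ (t / (1 / 4)) * (Complex.exp (I * t * Real.log X) *
        (LSeries (fun n => (b n : ℂ)) (1 + s + t * I) *
          LSeries (fun n => (a n : ℂ)) (1 + s + t * I) ^ k)))) :
    ((ST φ s T X (b * a ^ k) - ST φ s (1 / 4) X (b * a ^ k) : ℝ) : ℂ) =
      ((1 / (2 * Real.pi) : ℝ) : ℂ) * ∫ t : ℝ, (Kern φ (t / T) - Kern φ (t / (1 / 4))) *
        ((Complex.exp (I * t * Real.log X) * LSeries (fun n => (b n : ℂ)) (1 + s + t * I)) *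
          LSeries (fun n => (a n : ℂ)) (1 + s + t * I) ^ k) := by
  have hsum : LSeriesSummable (fun n => ((b * a ^ k) n : ℂ)) (1 + s : ℝ) := by
    apply (lser_mul_pow b a k _ _ _).1
    · exact summable_of_abs_le_one b hb _ (by simp; exact hs)
    · exact summable_of_abs_le_one a ha _ (by simp; exact hs)
  have hmul : ∀ t : ℝ, LSeries (fun n => ((b * a ^ k) n : ℂ)) (1 + s + t * I) =
      LSeries (fun n => (b n : ℂ)) (1 + s + t * I) * LSeries (fun n => (a n : ℂ)) (1 + s + t * I) ^ k := by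
    intro t
    apply (lser_mul_pow b a k _ _ _).2
    · exact summable_of_abs_le_one b hb _ (by simp; exact hs)
    · exact summable_of_abs_le_one a ha _ (by simp; exact hs)
  have p1 := hPer φ hφ s T X hs hT hX (b * a ^ k) hsum
  have p2 := hPer φ hφ s (1 / 4) X hs (by norm_num) hX (b * a ^ k) hsum
  have q : ∀ τ : ℝ, (∫ t : ℝ, Kern φ (t / τ) * Complex.exp (I * t * Real.log X) *
      LSeries (fun n => ((b * a ^ k) n : ℂ)) (1 + s + t * I)) =
      ∫ t : ℝ, Kern φ (t / τ) * (Complex.exp (I * t * Real.log X) *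
        (LSeries (fun n => (b n : ℂ)) (1 + s + t * I) *
          LSeries (fun n => (a n : ℂ)) (1 + s + t * I) ^ k)) := by
    intro τ
    congr 1
    funext t
    rw [hmul t]
    ring
  rw [q] at p1 p2
  rw [Complex.ofReal_sub, p1, p2, ← mul_sub, ← integral_sub hint1 hint2]
  congr 2
  funext t
  ring

end Hoh.T33

namespace Hoh

open Complex Filter Topology Set MeasureTheory T33

/-- **M6** -/
theorem trilinear (hP : PointwiseBound) (hM : MeanSquare) (hPer : Perron) (hK : KernBound)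
    (η ε : ℝ) (G φ : ℝ → ℝ) (hη : 0 < η) (hη1 : η ≤ 1) (hε : 0 < ε) (hG : Cut ε G) (hφ : Bump φ)
    (k : ℕ) (hk : 2 ≤ k) (e : ℝ) (he : 0 < e) :
    ∃ d0 : ℝ, 0 < d0 ∧ ∀ d : ℝ, 0 < d → d ≤ d0 → ∃ x0 : ℝ, 1 ≤ x0 ∧ ∀ x : ℝ, x0 ≤ x →
      ∀ b : ArithmeticFunction ℝ, (∀ n, |b n| ≤ 1) → (∀ n, b n ≠ 0 → n.Prime ∧ x ^ η < n) →
      |ST φ (1 / Real.log x) (x ^ d) x (b * (g1 G (η * Real.log x)) ^ k) -
        ST φ (1 / Real.log x) (1 / 4) x (b * (g1 G (η * Real.log x)) ^ k)| ≤ e / Real.log x := by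
  obtain ⟨C, hC0, hK1, hK2, hK3, hKc⟩ := hK φ hφ
  obtain ⟨CM, hCM0, hCM⟩ := hM
  obtain ⟨C1, hC10, hC1⟩ := hP η ε G hη hη1 hε hG
  have hη' : 0 < η / (1 + ε) := by positivity
  have hη'1 : η / (1 + ε) ≤ 1 := by rw [div_le_one (by positivity)]; linarith
  obtain ⟨CB, hCB0, hCB⟩ := hP (η / (1 + ε)) ε G hη' hη'1 hε hG
  set m0 : ℝ := CM / η with hm0
  have hm0pos : 0 < m0 := by positivity
  -- the three coefficients
  set k1 : ℝ := 5 * C * CB * C1 ^ (k - 2) * (3 * C1) with hk1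
  set k2 : ℝ := 2 * C * C1 ^ (k - 2) * m0 * (3 * C1) with hk2
  set k3 : ℝ := 4 * C * CB * C1 ^ k * Real.pi with hk3
  have hk1p : 0 < k1 := by positivity
  have hk2p : 0 < k2 := by positivity
  have hk3p : 0 < k3 := by positivity
  refine ⟨min (η / 4) (e / (3 * k2)), by positivity, fun d hd hdle => ?_⟩
  have hd1 : d ≤ η / 4 := hdle.trans (min_le_left _ _)
  have hd2 : d ≤ e / (3 * k2) := hdle.trans (min_le_right _ _)
  set μ : ℝ := e / (6 * k1) with hμ
  have hμ0 : 0 < μ := by positivity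
  -- conditions on x
  have ev1 : ∀ᶠ x : ℝ in atTop, Real.exp 1 ≤ x := eventually_ge_atTop _
  have ev2 : ∀ᶠ x : ℝ in atTop, 1 / (η / (1 + ε)) ≤ Real.log x :=
    Real.tendsto_log_atTop.eventually_ge_atTop _
  have ev3 : ∀ᶠ x : ℝ in atTop, m0 / (2 * μ ^ 2) ≤ Real.log x :=
    Real.tendsto_log_atTop.eventually_ge_atTop _
  have ev4 : ∀ᶠ x : ℝ in atTop, 3 / d ≤ Real.log x :=
    Real.tendsto_log_atTop.eventually_ge_atTop _
  have ev5 : ∀ᶠ x : ℝ in atTop, 2 / η ≤ Real.log x :=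
    Real.tendsto_log_atTop.eventually_ge_atTop _
  have ev6 : ∀ᶠ x : ℝ in atTop, k3 * (1 / (x ^ d) ^ 2) ≤ e / 3 / Real.log x := by
    have h1 : Tendsto (fun x : ℝ => Real.log x / x ^ (2 * d)) atTop (𝓝 0) :=
      (isLittleO_log_rpow_atTop (by positivity : 0 < 2 * d)).tendsto_div_nhds_zero
    have h2 := h1.eventually (gt_mem_nhds (show (0 : ℝ) < e / 3 / k3 by positivity))
    filter_upwards [h2, eventually_gt_atTop 1] with x hx hx1
    have hx0 : 0 < x := by linarith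
    have hlog : 0 < Real.log x := Real.log_pos hx1
    have e1 : (x ^ d) ^ 2 = x ^ (2 * d) := by
      rw [← Real.rpow_natCast, ← Real.rpow_mul hx0.le]; congr 1; push_cast; ring
    rw [e1]
    have hp : 0 < x ^ (2 * d) := by positivity
    rw [div_lt_div_iff₀ hp hk3p] at hx
    rw [mul_one_div, div_le_div_iff₀ hp hlog]
    nlinarith
  obtain ⟨x0, hx0⟩ := eventually_atTop.mp
    (ev1.and (ev2.and (ev3.and (ev4.and (ev5.and ev6)))))
  refine ⟨max x0 1, le_max_right _ _, fun x hx b hb hbs => ?_⟩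
  obtain ⟨c1, c2, c3, c4, c5, c6⟩ := hx0 x ((le_max_left _ _).trans hx)
  have hxpos : 0 < x := lt_of_lt_of_le (Real.exp_pos 1) c1
  have hlog1 : 1 ≤ Real.log x := by
    rw [Real.le_log_iff_exp_le hxpos]; exact c1
  have hlog0 : 0 < Real.log x := by linarith
  have hx1 : 1 < x := lt_of_lt_of_le (by simp) c1
  set s : ℝ := 1 / Real.log x with hs
  have hs0 : 0 < s := by positivity
  set L : ℝ := η * Real.log x with hL
  have hL0 : 0 < L := by positivity
  have hL2 : 2 ≤ L := by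
    rw [hL]
    rw [div_le_iff₀ hη] at c5
    linarith
  have hL1 : 1 ≤ η * Real.log x := by linarith
  set L' : ℝ := η / (1 + ε) * Real.log x with hL'
  have hL'1 : 1 ≤ η / (1 + ε) * Real.log x := by
    rw [div_le_iff₀ hη'] at c2; linarith
  have hL'0 : 0 < L' := by linarith
  have hLL' : (1 + ε) * L' = L := by rw [hL', hL]; field_simp
  have hxη : x ^ η = Real.exp L := by
    rw [Real.rpow_def_of_pos hxpos, hL]; ring_nf
  set T : ℝ := x ^ d with hT
  have hT1 : 1 ≤ T := Real.one_le_rpow hx1.le hd.le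
  have hT0 : 0 < T := by linarith
  have hlogT : Real.log T = d * Real.log x := Real.log_rpow hxpos d
  set a := g1 G L with ha
  obtain ⟨hPC, hPt⟩ := hC1 x c1 hL1
  obtain ⟨hBC, _⟩ := hCB x c1 hL'1
  let Pf : ℝ → ℂ := fun t => LSeries (fun n => (a n : ℂ)) (1 + s + t * I)
  let Bf : ℝ → ℂ := fun t => LSeries (fun n => (b n : ℂ)) (1 + s + t * I)
  let Ef : ℝ → ℂ := fun t => Complex.exp (I * t * Real.log x)
  have hsC : ((s : ℝ) : ℂ) = 1 / ((Real.log x : ℝ) : ℂ) := by rw [hs]; push_cast; rfl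
  have hPf : ∀ t, ‖Pf t‖ ≤ C1 := by
    intro t
    have := hPC t
    simp only [Pf]
    rw [hsC]
    exact this
  have hPf2 : ∀ t, t ≠ 0 → ‖Pf t‖ ≤ C1 * (Real.log (2 + |t|) + 1 / |t|) / Real.log x := by
    intro t ht
    have := hPt t ht
    simp only [Pf]
    rw [hsC]
    exact this
  have hBf : ∀ t, ‖Bf t‖ ≤ CB := by
    intro t
    have h1 := norm_lser_le hG L' hL'0 b hb (fun n hn => by
      rw [hLL', ← hxη]; exact hbs n hn) s t hs0
    refine h1.trans ?_
    have := hBC 0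
    rw [hsC]
    exact this
  have hPc : Continuous Pf := lser_continuous _ (fun n => by
    rw [Complex.norm_real]; exact g1_abs_le hG L n) s hs0
  have hBc : Continuous Bf := lser_continuous _ (fun n => by
    rw [Complex.norm_real]; exact hb n) s hs0
  have hEc : Continuous Ef := by simp only [Ef]; fun_prop
  have hEn : ∀ t, ‖Ef t‖ = 1 := by
    intro t
    simp only [Ef]
    have : I * (t : ℂ) * ((Real.log x : ℝ) : ℂ) = ((t * Real.log x : ℝ) : ℂ) * I := by
      push_cast; ring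
    rw [this, Complex.norm_exp_ofReal_mul_I]
  -- mean squares
  have hy2 : 2 ≤ Real.exp L := by
    have := Real.add_one_le_exp L
    linarith
  have hU : T ^ 2 ≤ Real.sqrt (Real.exp L) := by
    rw [Real.le_sqrt' (by positivity)]
    have e1 : (T ^ 2) ^ 2 = x ^ (4 * d) := by
      rw [hT, ← pow_mul, ← Real.rpow_natCast, ← Real.rpow_mul hxpos.le]; congr 1; push_cast; ring
    rw [e1, ← hxη]
    exact Real.rpow_le_rpow_of_exponent_le hx1.le (by linarith)
  have hT21 : 1 ≤ T ^ 2 := by nlinarith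
  have hm : CM / Real.log (Real.exp L) = m0 / Real.log x := by
    rw [Real.log_exp, hL, hm0]; field_simp
  have hmB := hCM (Real.exp L) (T ^ 2) s hy2 hT21 hU hs0 (fun n => (b n : ℂ))
    (fun n => by rw [Complex.norm_real]; exact hb n)
    (fun n hn => by rw [← hxη]; exact hbs n (by simpa using hn))
  have hasupp : ∀ n, (fun n => (a n : ℂ)) n ≠ 0 → n.Prime ∧ Real.exp L < n := by
    intro n hn
    exact g1_supp hG L hL0 n (by simpa using hn)
  have hmP := hCM (Real.exp L) (T ^ 2) s hy2 hT21 hU hs0 (fun n => (a n : ℂ))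
    (fun n => by rw [Complex.norm_real]; exact g1_abs_le hG L n) hasupp
  have hmP1 := hCM (Real.exp L) 1 s hy2 (le_refl _) (hT21.trans hU) hs0 (fun n => (a n : ℂ))
    (fun n => by rw [Complex.norm_real]; exact g1_abs_le hG L n) hasupp
  rw [hm] at hmB hmP hmP1
  obtain ⟨kd1, kd2, kd3⟩ := kern_diff φ C T hT1 hK1 hK2 hK3 hC0.le
  have hKdc : Continuous (fun t => Kern φ (t / T) - Kern φ (t / (1 / 4))) :=
    (hKc.comp (by fun_prop)).sub (hKc.comp (by fun_prop))
  -- pointwise bounds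
  have hPa : ∀ t, |t| ≤ 1 → |t| * ‖Pf t‖ ≤ 3 * C1 / Real.log x := by
    intro t ht
    by_cases h0 : t = 0
    · rw [h0, abs_zero, zero_mul]; positivity
    · have habs : 0 < |t| := abs_pos.mpr h0
      have hlog3 : Real.log (2 + |t|) ≤ 2 := by
        have := Real.log_le_sub_one_of_pos (show 0 < 2 + |t| by positivity)
        linarith
      have hlog0' : 0 ≤ Real.log (2 + |t|) := Real.log_nonneg (by linarith)
      calc |t| * ‖Pf t‖ ≤ |t| * (C1 * (Real.log (2 + |t|) + 1 / |t|) / Real.log x) := by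
            gcongr; exact hPf2 t h0
        _ = C1 * (|t| * Real.log (2 + |t|) + 1) / Real.log x := by field_simp
        _ ≤ C1 * (1 * 2 + 1) / Real.log x := by gcongr
        _ = _ := by ring
  have hPq : ∀ t, 1 ≤ |t| → |t| ≤ T ^ 2 → ‖Pf t‖ ≤ 3 * C1 * d := by
    intro t ht1 ht2
    have h0 : t ≠ 0 := by
      intro h; rw [h, abs_zero] at ht1; linarith
    have habs : 0 < |t| := by linarith
    have hlogt : Real.log (2 + |t|) ≤ 2 + 2 * (d * Real.log x) := by
      have h1 : 2 + |t| ≤ 3 * T ^ 2 := by nlinarith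
      calc Real.log (2 + |t|) ≤ Real.log (3 * T ^ 2) := Real.log_le_log (by positivity) h1
        _ = Real.log 3 + 2 * Real.log T := by
            rw [Real.log_mul (by norm_num) (by positivity), Real.log_pow]; push_cast; ring
        _ ≤ 2 + 2 * (d * Real.log x) := by
            rw [hlogT]
            have := Real.log_le_sub_one_of_pos (show (0:ℝ) < 3 by norm_num)
            linarith
    have h3d : 3 ≤ d * Real.log x := by
      rw [div_le_iff₀ hd] at c4; linarith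
    have h1t : 1 / |t| ≤ 1 := by rw [div_le_one habs]; exact ht1
    calc ‖Pf t‖ ≤ C1 * (Real.log (2 + |t|) + 1 / |t|) / Real.log x := hPf2 t h0
      _ ≤ C1 * (3 * (d * Real.log x)) / Real.log x := by gcongr; linarith
      _ = 3 * C1 * d := by field_simp
  have hBE : ∀ t, ‖Ef t * Bf t‖ = ‖Bf t‖ := by intro t; rw [norm_mul, hEn, one_mul]
  have hcore := tri_core (fun t => Ef t * Bf t) Pf
    (fun t => Kern φ (t / T) - Kern φ (t / (1 / 4))) (hEc.mul hBc) hPc hKdc
    C CB C1 (3 * C1 / Real.log x) (3 * C1 * d) (1 / T ^ 2) (m0 / Real.log x) μ (T ^ 2) k hk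
    hC0.le hCB0.le hC10.le (by positivity) (by positivity) (by positivity) hμ0 hT21
    (fun t => by rw [hBE]; exact hBf t) hPf hPa hPq kd1 kd2 kd3
    (by simp_rw [hBE]; exact hmB) hmP hmP1
  obtain ⟨_, hbound⟩ := hcore
  -- identify the difference
  have hF1 : Continuous (fun t => Ef t * (Bf t * Pf t ^ k)) := hEc.mul (hBc.mul (hPc.pow k))
  have hF2 : ∀ t, ‖Ef t * (Bf t * Pf t ^ k)‖ ≤ CB * C1 ^ k := by
    intro t
    rw [norm_mul, norm_mul, norm_pow, hEn, one_mul]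
    gcongr
    · exact hBf t
    · exact hPf t
  have hint1 := kern_int φ C T hT0 hK1 hK2 hC0.le hKc _ hF1 _ hF2
  have hint2 := kern_int φ C (1 / 4) (by norm_num) hK1 hK2 hC0.le hKc _ hF1 _ hF2
  have hid := diff_eq_integral hPer φ hφ s T x hs0 hT0 hxpos a b k (g1_abs_le hG L) hb hint1 hint2
  have hnorm : |ST φ s T x (b * a ^ k) - ST φ s (1 / 4) x (b * a ^ k)| =
      ‖((ST φ s T x (b * a ^ k) - ST φ s (1 / 4) x (b * a ^ k) : ℝ) : ℂ)‖ := by
    rw [Complex.norm_real, Real.norm_eq_abs]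
  rw [hnorm, hid, norm_mul, Complex.norm_real, Real.norm_eq_abs]
  have hpi : |1 / (2 * Real.pi)| ≤ 1 := by
    rw [abs_of_pos (by positivity), div_le_one (by positivity)]
    linarith [Real.pi_gt_three]
  have hfinal : 5 * C * CB * C1 ^ (k - 2) * (3 * C1 / Real.log x) * (μ + m0 / Real.log x / (2 * μ)) +
      2 * C * C1 ^ (k - 2) * (3 * C1 * d) * (m0 / Real.log x) +
      4 * C * CB * C1 ^ k * (1 / T ^ 2) * Real.pi ≤ e / Real.log x := by
    have t1 : 5 * C * CB * C1 ^ (k - 2) * (3 * C1 / Real.log x) * (μ + m0 / Real.log x / (2 * μ)) ≤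
        e / 3 / Real.log x := by
      have h1 : m0 / Real.log x / (2 * μ) ≤ μ := by
        rw [div_div, div_le_iff₀ (by positivity)]
        rw [div_le_iff₀ (by positivity)] at c3
        nlinarith
      have h2 : 5 * C * CB * C1 ^ (k - 2) * (3 * C1 / Real.log x) = k1 / Real.log x := by
        rw [hk1]; ring
      rw [h2]
      calc k1 / Real.log x * (μ + m0 / Real.log x / (2 * μ)) ≤ k1 / Real.log x * (μ + μ) := by gcongr
        _ = e / 3 / Real.log x := by rw [hμ]; field_simp; ring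
    have t2 : 2 * C * C1 ^ (k - 2) * (3 * C1 * d) * (m0 / Real.log x) ≤ e / 3 / Real.log x := by
      have h2 : 2 * C * C1 ^ (k - 2) * (3 * C1 * d) * (m0 / Real.log x) = k2 * d / Real.log x := by
        rw [hk2]; ring
      rw [h2]
      gcongr
      rw [le_div_iff₀ (by positivity)] at hd2
      linarith
    have t3 : 4 * C * CB * C1 ^ k * (1 / T ^ 2) * Real.pi ≤ e / 3 / Real.log x := by
      have h2 : 4 * C * CB * C1 ^ k * (1 / T ^ 2) * Real.pi = k3 * (1 / (x ^ d) ^ 2) := by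
        rw [hk3]; ring
      rw [h2]; exact c6
    have e3 : e / Real.log x = e / 3 / Real.log x + e / 3 / Real.log x + e / 3 / Real.log x := by ring
    rw [e3]
    linarith
  have hN := norm_nonneg (∫ t : ℝ, (Kern φ (t / T) - Kern φ (t / (1 / 4))) * (Ef t * Bf t * Pf t ^ k))
  calc |1 / (2 * Real.pi)| * ‖∫ t : ℝ, (Kern φ (t / T) - Kern φ (t / (1 / 4))) *
        (Ef t * Bf t * Pf t ^ k)‖
      ≤ 1 * ‖∫ t : ℝ, (Kern φ (t / T) - Kern φ (t / (1 / 4))) * (Ef t * Bf t * Pf t ^ k)‖ := by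
        gcongr
    _ ≤ _ := by rw [one_mul]; exact hbound
    _ ≤ _ := hfinal

end Hoh
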