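import Pool.Agent.Lib.MP_0bb3d8_nt.HohZeta

/-!
# M1, end: zero free region and the bound for the logarithmic derivative
-/

namespace Hoh

open Complex Filter Topology Set Metric

lemma re_sum_nonneg (Z : Multiset ℂ) (f : ℂ → ℂ) (h : ∀ ρ ∈ Z, 0 ≤ (f ρ).re) :
    0 ≤ (Z.map f).sum.re := by
  induction Z using Multiset.induction_on with
  | empty => simp
  | cons a Z ih =>
    simp only [Multiset.map_cons, Multiset.sum_cons, add_re]
    have := h a (by simp)
    have := ih (fun ρ hρ => h ρ (by simp [hρ]))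
    linarith

lemma norm_sum_le (Z : Multiset ℂ) (f g : ℂ → ℂ) (k : ℝ)
    (h : ∀ ρ ∈ Z, ‖f ρ‖ ≤ k * (g ρ).re) :
    ‖(Z.map f).sum‖ ≤ k * (Z.map g).sum.re := by
  induction Z using Multiset.induction_on with
  | empty => simp
  | cons a Z ih =>
    simp only [Multiset.map_cons, Multiset.sum_cons, add_re]
    have h1 := h a (by simp)
    have h2 := ih (fun ρ hρ => h ρ (by simp [hρ]))
    calc ‖f a + (Z.map f).sum‖ ≤ ‖f a‖ + ‖(Z.map f).sum‖ := norm_add_le _ _
      _ ≤ _ := by linarith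

lemma re_one_div (z : ℂ) : (1 / z).re = z.re / ‖z‖ ^ 2 := by
  rw [one_div, Complex.inv_re, Complex.normSq_eq_norm_sq]

lemma re_one_div_nonneg (z : ℂ) (h : 0 ≤ z.re) : 0 ≤ (1 / z).re := by
  rw [one_div, Complex.inv_re]
  exact div_nonneg h (Complex.normSq_nonneg z)

lemma real_bound : ∃ C0 : ℝ, 0 ≤ C0 ∧ ∀ σ : ℝ, 0 < σ → σ ≤ 1 →
    (-(deriv riemannZeta (1 + σ : ℂ) / riemannZeta (1 + σ))).re ≤ 1 / σ + C0 := by
  have hcont : ContinuousOn (fun σ : ℝ => ‖deriv riemannZeta₁ (1 + σ : ℂ) / riemannZeta₁ (1 + σ)‖)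
      (Icc 0 1) := by
    apply ContinuousOn.norm
    apply ContinuousOn.div
    · exact (differentiable_riemannZeta₁.deriv.continuous.comp (by fun_prop)).continuousOn
    · exact (differentiable_riemannZeta₁.continuous.comp (by fun_prop)).continuousOn
    · intro σ hσ
      apply zeta1_ne_zero
      simp
      exact hσ.1
  obtain ⟨C, hC⟩ := isCompact_Icc.exists_bound_of_continuousOn hcont
  refine ⟨|C|, abs_nonneg _, fun σ h0 h1 => ?_⟩
  have hs1 : (1 + σ : ℂ) ≠ 1 := by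
    intro h
    have : (σ : ℂ) = 0 := by linear_combination h
    exact h0.ne' (by exact_mod_cast this)
  have hre : 1 < (1 + σ : ℂ).re := by simp; exact h0
  rw [logderiv_zeta _ hs1 (riemannZeta_ne_zero_of_one_lt_re hre)]
  have e : (1 / ((1 + σ : ℂ) - 1)).re = 1 / σ := by
    have : (1 + σ : ℂ) - 1 = ((σ : ℝ) : ℂ) := by ring
    rw [this, ← Complex.ofReal_one, ← Complex.ofReal_div, Complex.ofReal_re]
  have h2 : ‖deriv riemannZeta₁ (1 + σ : ℂ) / riemannZeta₁ (1 + σ)‖ ≤ |C| := by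
    have := hC σ ⟨h0.le, h1⟩
    rw [Real.norm_of_nonneg (norm_nonneg _)] at this
    exact this.trans (le_abs_self C)
  have h3 := (abs_le.mp ((Complex.abs_re_le_norm _).trans h2)).1
  rw [neg_re, sub_re, e]
  linarith

lemma ell_two_mul (t : ℝ) : ell (2 * t) ≤ 2 * ell t := by
  unfold ell
  have ht := abs_nonneg t
  rw [← Real.log_rpow (by linarith) 2]
  apply Real.log_le_log (by positivity)
  rw [abs_mul, abs_two]
  norm_num
  nlinarith

lemma ell_near (t u : ℝ) (h : |t - u| ≤ 1 / 4) : ell u ≤ 2 * ell t := by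
  unfold ell
  have ht := abs_nonneg t
  rw [← Real.log_rpow (by linarith) 2]
  apply Real.log_le_log (by positivity)
  have h1 : |u| ≤ |t| + 1 / 4 := by
    have := abs_sub_abs_le_abs_sub u t
    rw [abs_sub_comm] at this
    linarith
  norm_num
  nlinarith

/-- point of the segment inside Landau's ball -/
lemma mem_small (σ t : ℝ) (h0 : 0 ≤ σ) (h1 : σ ≤ 1 / 4) :
    (1 + σ + t * I : ℂ) ∈ closedBall ((9 / 8 : ℝ) + t * I : ℂ) (1 / 8) := by
  rw [mem_closedBall, dist_eq]
  have : (1 + σ + t * I : ℂ) - ((9 / 8 : ℝ) + t * I) = ((σ - 1 / 8 : ℝ) : ℂ) := by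
    push_cast; ring
  rw [this, Complex.norm_real, Real.norm_eq_abs, abs_le]
  constructor <;> linarith

lemma zero_re_lt (ρ : ℂ) (h : riemannZeta₁ ρ = 0) : ρ.re < 1 := by
  by_contra hcon
  exact zeta1_ne_zero ρ (not_lt.mp hcon) h

/-- The classical zero free region. -/
lemma zero_free : ∃ c : ℝ, 0 < c ∧ ∀ ρ : ℂ, riemannZeta₁ ρ = 0 → c / ell ρ.im ≤ 1 - ρ.re := by
  obtain ⟨A, hA0, hA⟩ := zeta1_landau
  obtain ⟨C0, hC00, hC0⟩ := real_bound
  -- zeros near the real axis
  have hfin := finite_zeros riemannZeta₁ differentiable_riemannZeta₁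
    ⟨1, by rw [riemannZeta₁_one]; exact one_ne_zero⟩ (closedBall 0 4) (isCompact_closedBall _ _)
  obtain ⟨M, hM⟩ := (hfin.image (fun z : ℂ => 1 / (1 - z.re))).bddAbove
  set c0 : ℝ := 1 / (|M| + 1) with hc0
  have hc0pos : 0 < c0 := by positivity
  have hsmall : ∀ ρ : ℂ, riemannZeta₁ ρ = 0 → ρ ∈ closedBall (0 : ℂ) 4 → c0 ≤ 1 - ρ.re := by
    intro ρ hρ hmem
    have h1 : 1 / (1 - ρ.re) ≤ M := hM ⟨ρ, ⟨hmem, hρ⟩, rfl⟩
    have h2 := zero_re_lt ρ hρ
    have h3 : 0 < 1 - ρ.re := by linarith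
    rw [hc0, div_le_iff₀ (by positivity)]
    rw [div_le_iff₀ h3] at h1
    have := le_abs_self M
    nlinarith
  set B : ℝ := 2 * (3 * C0 + 5) + 6 * A with hB
  have hB10 : 10 ≤ B := by rw [hB]; linarith
  refine ⟨min (1 / 16) (min (c0 / 2) (1 / (14 * B))), by positivity, fun ρ hρ => ?_⟩
  have hre := zero_re_lt ρ hρ
  have hl := ell_half ρ.im
  have hlpos := ell_pos ρ.im
  rw [div_le_iff₀ hlpos]
  by_cases hβ : ρ.re < 7 / 8
  · calc min (1 / 16) (min (c0 / 2) (1 / (14 * B))) ≤ 1 / 16 := min_le_left _ _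
      _ ≤ (1 - ρ.re) * ell ρ.im := by nlinarith
  push Not at hβ
  by_cases hγ : |ρ.im| < 1
  · have hmem : ρ ∈ closedBall (0 : ℂ) 4 := by
      rw [mem_closedBall, dist_zero_right]
      have := Complex.norm_le_abs_re_add_abs_im ρ
      have h1 : |ρ.re| ≤ 1 := abs_le.mpr ⟨by linarith, by linarith⟩
      linarith
    have := hsmall ρ hρ hmem
    calc min (1 / 16) (min (c0 / 2) (1 / (14 * B))) ≤ c0 / 2 :=
          (min_le_right _ _).trans (min_le_left _ _)
      _ ≤ (1 - ρ.re) * ell ρ.im := by nlinarith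
  push Not at hγ
  set γ := ρ.im with hγdef
  set l := ell γ with hldef
  set σ : ℝ := 1 / (2 * B * l) with hσdef
  have hσ0 : 0 < σ := by positivity
  have hσ1 : σ ≤ 1 / 8 := by
    rw [hσdef, div_le_div_iff₀ (by positivity) (by norm_num)]
    nlinarith
  -- height γ
  obtain ⟨Z, hZ1, hZ2, hZ3⟩ := hA γ
  have hρZ : ρ ∈ Z := by
    apply hZ2 ρ _ hρ
    rw [mem_closedBall, dist_eq]
    have : ρ - ((9 / 8 : ℝ) + γ * I) = ((ρ.re - 9 / 8 : ℝ) : ℂ) := by
      apply Complex.ext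
      · simp
      · simp [hγdef]
    rw [this, Complex.norm_real, Real.norm_eq_abs, abs_le]
    constructor <;> linarith
  have hsre : ∀ u : ℝ, 1 ≤ (1 + σ + u * I : ℂ).re := by
    intro u; simp; linarith
  have hsre' : ∀ u : ℝ, 1 < (1 + σ + u * I : ℂ).re := by
    intro u; simp; linarith
  have hne1 : ∀ u : ℝ, (1 + σ + u * I : ℂ) ≠ 1 := by
    intro u h
    have := hsre' u
    rw [h] at this
    simp at this
  have hrep : ∀ u : ℝ, 1 ≤ |u| →
      (-(deriv riemannZeta (1 + σ + u * I) / riemannZeta (1 + σ + u * I))).re ≤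
      1 - (deriv riemannZeta₁ (1 + σ + u * I) / riemannZeta₁ (1 + σ + u * I)).re := by
    intro u hu
    rw [logderiv_zeta _ (hne1 u) (riemannZeta_ne_zero_of_one_lt_re (hsre' u)), neg_re, sub_re]
    have h1 : (1 / ((1 + σ + u * I : ℂ) - 1)).re ≤ 1 := by
      have e : (1 + σ + u * I : ℂ) - 1 = σ + u * I := by ring
      rw [e, one_div, Complex.inv_re, Complex.normSq_apply]
      simp only [add_re, ofReal_re, mul_re, I_re, mul_zero, ofReal_im, I_im, mul_one, sub_self,
        add_zero, add_im, mul_im, zero_add]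
      rw [div_le_one (by nlinarith [sq_abs u])]
      have : 1 ≤ u * u := by nlinarith [sq_abs u, abs_nonneg u]
      nlinarith
    linarith
  -- lower bound at height γ
  have hlow1 : (1 : ℝ) / (1 + σ - ρ.re) - A * l ≤
      (deriv riemannZeta₁ (1 + σ + γ * I) / riemannZeta₁ (1 + σ + γ * I)).re := by
    have hmem := mem_small σ γ hσ0.le (by linarith)
    have h3 := hZ3 _ hmem (zeta1_ne_zero _ (hsre γ))
    have h4 := (abs_le.mp ((Complex.abs_re_le_norm _).trans h3)).1
    rw [sub_re] at h4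
    obtain ⟨Z', hZ'⟩ := Multiset.exists_cons_of_mem hρZ
    have h5 : (1 : ℝ) / (1 + σ - ρ.re) ≤ ((Z.map (fun ρ' => 1 / ((1 + σ + γ * I : ℂ) - ρ'))).sum).re := by
      rw [hZ', Multiset.map_cons, Multiset.sum_cons, add_re]
      have h6 : 0 ≤ ((Z'.map (fun ρ' => 1 / ((1 + σ + γ * I : ℂ) - ρ'))).sum).re := by
        apply re_sum_nonneg
        intro ρ' hρ'
        apply re_one_div_nonneg
        have : ρ' ∈ Z := by rw [hZ']; exact Multiset.mem_cons_of_mem hρ'
        have := zero_re_lt ρ' (hZ1 ρ' this).2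
        simp
        linarith
      have h7 : (1 / ((1 + σ + γ * I : ℂ) - ρ)).re = 1 / (1 + σ - ρ.re) := by
        have e : (1 + σ + γ * I : ℂ) - ρ = ((1 + σ - ρ.re : ℝ) : ℂ) := by
          apply Complex.ext
          · simp
          · simp [hγdef]
        rw [e, ← Complex.ofReal_one, ← Complex.ofReal_div, Complex.ofReal_re]
      linarith
    linarith
  -- lower bound at height 2γ
  have hlow2 : -(A * (2 * l)) ≤
      (deriv riemannZeta₁ (1 + σ + (2 * γ : ℝ) * I) / riemannZeta₁ (1 + σ + (2 * γ : ℝ) * I)).re := by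
    obtain ⟨W, hW1, hW2, hW3⟩ := hA (2 * γ)
    have hmem := mem_small σ (2 * γ) hσ0.le (by linarith)
    have h3 := hW3 _ hmem (zeta1_ne_zero _ (hsre (2 * γ)))
    have h4 := (abs_le.mp ((Complex.abs_re_le_norm _).trans h3)).1
    rw [sub_re] at h4
    have h6 : 0 ≤ ((W.map (fun ρ' => 1 / ((1 + σ + (2 * γ : ℝ) * I : ℂ) - ρ'))).sum).re := by
      apply re_sum_nonneg
      intro ρ' hρ'
      apply re_one_div_nonneg
      have := zero_re_lt ρ' (hW1 ρ' hρ').2
      simp
      linarith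
    have h8 : A * ell (2 * γ) ≤ A * (2 * l) := by
      have := ell_two_mul γ
      gcongr
    linarith
  have h341 := three_four_one σ γ hσ0
  have hr0 := hC0 σ hσ0 (by linarith)
  have hr1 := hrep γ hγ
  have hr2 := hrep (2 * γ) (by rw [abs_mul, abs_two]; linarith)
  have hpos : 0 < 1 + σ - ρ.re := by linarith
  -- combine
  have hcomb : 4 * (1 / (1 + σ - ρ.re)) ≤ 3 * (1 / σ) + B * l := by
    have : 3 * C0 + 5 ≤ 2 * (3 * C0 + 5) * l := by nlinarith
    have hBl : B * l = 2 * (3 * C0 + 5) * l + 6 * A * l := by rw [hB]; ring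
    linarith
  have hBσ : B * l = 1 / (2 * σ) := by
    rw [hσdef]; field_simp
  rw [hBσ] at hcomb
  have h9 : 4 * (1 / (1 + σ - ρ.re)) ≤ 7 / (2 * σ) := by
    refine hcomb.trans (le_of_eq ?_)
    field_simp
    ring
  rw [mul_one_div, div_le_div_iff₀ hpos (by positivity)] at h9
  have h10 : σ / 7 ≤ 1 - ρ.re := by linarith
  calc min (1 / 16) (min (c0 / 2) (1 / (14 * B))) ≤ 1 / (14 * B) :=
        (min_le_right _ _).trans (min_le_right _ _)
    _ = σ / 7 * l := by rw [hσdef]; field_simp; ring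
    _ ≤ (1 - ρ.re) * l := by gcongr

/-- **M1.** -/
theorem zetaBound : ZetaBound := by
  obtain ⟨A, hA0, hA⟩ := zeta1_landau
  obtain ⟨C0, hC00, hC0⟩ := real_bound
  obtain ⟨c, hc0, hc⟩ := zero_free
  -- c3 = c/2 is the width of the zero free region seen from height t
  set c2 : ℝ := 1 / 8 with hc2
  set κ : ℝ := 1 + c2 / (c / 2) with hκ
  have hκ0 : 0 < κ := by positivity
  set C3 : ℝ := 2 / c2 + 2 * C0 + A with hC3
  set C4 : ℝ := (2 / c2 + 2 * C0) + 2 * A + κ * C3 with hC4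
  have hC3pos : 0 < C3 := by positivity
  have hC4pos : 0 < C4 := by positivity
  refine ⟨C4 + 1 + (1 / c2 + 2 * C0), by positivity, fun σ t hσ0 hσ1 ht => ?_⟩
  have hl := ell_half t
  have hlpos := ell_pos t
  have helld : Real.log (2 + |t|) = ell t := rfl
  rw [helld]
  have htabs : 0 < |t| := abs_pos.mpr ht
  set θ : ℝ := c2 / ell t with hθ
  have hθ0 : 0 < θ := by positivity
  have hθ1 : θ ≤ 1 / 4 := by
    rw [hθ, hc2, div_le_iff₀ hlpos]; linarith
  by_cases hcase : θ ≤ σ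
  · have h1 := norm_logderiv_le σ t hσ0
    have h2 := hC0 σ hσ0 hσ1
    have h3 : 1 / σ ≤ ell t / c2 := by
      rw [hθ] at hcase
      rw [div_le_div_iff₀ hσ0 (by positivity)]
      rw [div_le_iff₀ hlpos] at hcase
      linarith
    calc _ ≤ 1 / σ + C0 := h1.trans h2
      _ ≤ ell t / c2 + 2 * C0 * ell t := by nlinarith
      _ = (1 / c2 + 2 * C0) * ell t := by ring
      _ ≤ (C4 + 1 + (1 / c2 + 2 * C0)) * (ell t + 1 / |t|) := by
          have : 0 ≤ 1 / |t| := by positivity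
          have h5 : 0 ≤ (C4 + 1) * ell t := by positivity
          have h6 : 0 ≤ (C4 + 1 + (1 / c2 + 2 * C0)) * (1 / |t|) := by positivity
          nlinarith
  push Not at hcase
  obtain ⟨Z, hZ1, hZ2, hZ3⟩ := hA t
  set s : ℂ := 1 + σ + t * I with hs
  set s1 : ℂ := 1 + θ + t * I with hs1
  have hsre : s.re = 1 + σ := by rw [hs]; simp
  have hs1re : s1.re = 1 + θ := by rw [hs1]; simp
  have hsim : s.im = t := by rw [hs]; simp
  have hs1im : s1.im = t := by rw [hs1]; simp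
  have hsne : s ≠ 1 := by
    intro h; rw [h] at hsim; simp at hsim; exact ht hsim.symm
  have hs1ne : s1 ≠ 1 := by
    intro h; rw [h] at hs1im; simp at hs1im; exact ht hs1im.symm
  have hmem := mem_small σ t hσ0.le (by linarith)
  have hmem1 := mem_small θ t hθ0.le hθ1
  have hz1 : riemannZeta₁ s ≠ 0 := zeta1_ne_zero s (by rw [hsre]; linarith)
  have hz11 : riemannZeta₁ s1 ≠ 0 := zeta1_ne_zero s1 (by rw [hs1re]; linarith)
  have h3 := hZ3 s hmem hz1
  have h31 := hZ3 s1 hmem1 hz11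
  -- the value at s1
  have hval1 : ‖deriv riemannZeta₁ s1 / riemannZeta₁ s1‖ ≤ (2 / c2 + 2 * C0) * ell t := by
    have hz : riemannZeta s1 ≠ 0 := riemannZeta_ne_zero_of_one_lt_re (by rw [hs1re]; linarith)
    have e := logderiv_zeta s1 hs1ne hz
    have h4 := (norm_logderiv_le θ t hθ0).trans (hC0 θ hθ0 (by linarith))
    have h5 : ‖(1 : ℂ) / (s1 - 1)‖ ≤ 1 / θ := by
      rw [norm_div, norm_one]
      apply one_div_le_one_div_of_le hθ0
      have := Complex.abs_re_le_norm (s1 - 1)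
      rw [sub_re, hs1re, one_re] at this
      have e2 : |1 + θ - 1| = θ := by rw [add_sub_cancel_left, abs_of_pos hθ0]
      rwa [e2] at this
    have e3 : deriv riemannZeta₁ s1 / riemannZeta₁ s1 =
        deriv riemannZeta s1 / riemannZeta s1 + 1 / (s1 - 1) := by rw [e]; ring
    rw [e3]
    have e4 : 1 / θ = ell t / c2 := by rw [hθ]; field_simp
    calc ‖deriv riemannZeta s1 / riemannZeta s1 + 1 / (s1 - 1)‖
        ≤ ‖deriv riemannZeta s1 / riemannZeta s1‖ + ‖(1 : ℂ) / (s1 - 1)‖ := norm_add_le _ _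
      _ ≤ (1 / θ + C0) + 1 / θ := by linarith
      _ = 2 * (ell t / c2) + C0 := by rw [e4]; ring
      _ ≤ (2 / c2 + 2 * C0) * ell t := by
          have : C0 ≤ 2 * C0 * ell t := by nlinarith
          have e5 : 2 * (ell t / c2) = 2 / c2 * ell t := by ring
          rw [e5]; linarith
  -- the sum over zeros at s1
  have hsum1 : ((Z.map (fun ρ => 1 / (s1 - ρ))).sum).re ≤ C3 * ell t := by
    have h4 := (abs_le.mp ((Complex.abs_re_le_norm _).trans h31)).1
    rw [sub_re] at h4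
    have h5 := (Complex.re_le_norm _).trans hval1
    rw [hC3]
    nlinarith
  -- difference of the sums
  have hdiff : ‖(Z.map (fun ρ => 1 / (s - ρ) - 1 / (s1 - ρ))).sum‖ ≤
      κ * ((Z.map (fun ρ => 1 / (s1 - ρ))).sum).re := by
    apply norm_sum_le
    intro ρ hρ
    obtain ⟨hρb, hρ0⟩ := hZ1 ρ hρ
    have hρre := zero_re_lt ρ hρ0
    have hρim : |t - ρ.im| ≤ 1 / 4 := by
      rw [mem_closedBall, dist_eq] at hρb
      have := (Complex.abs_im_le_norm _).trans hρb
      simp only [sub_im, add_im, ofReal_im, mul_im, ofReal_re, I_im, mul_one, I_re, mul_zero,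
        add_zero, zero_add] at this
      rwa [abs_sub_comm] at this
    have hwid : c / 2 / ell t ≤ 1 - ρ.re := by
      refine le_trans ?_ (hc ρ hρ0)
      rw [div_div, div_le_div_iff₀ (by positivity) (ell_pos _)]
      have := ell_near t ρ.im hρim
      nlinarith
    have hsρ : s - ρ ≠ 0 := by
      intro h
      have := congrArg Complex.re h
      rw [sub_re, hsre, zero_re] at this
      linarith
    have hs1ρ : s1 - ρ ≠ 0 := by
      intro h
      have := congrArg Complex.re h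
      rw [sub_re, hs1re, zero_re] at this
      linarith
    have e1 : 1 / (s - ρ) - 1 / (s1 - ρ) = (s1 - s) / ((s - ρ) * (s1 - ρ)) := by
      field_simp
      ring
    have hd : ‖s1 - s‖ ≤ θ := by
      have : s1 - s = ((θ - σ : ℝ) : ℂ) := by rw [hs, hs1]; push_cast; ring
      rw [this, Complex.norm_real, Real.norm_eq_abs, abs_le]
      constructor <;> linarith
    have hsρn : c / 2 / ell t ≤ ‖s - ρ‖ := by
      have := Complex.abs_re_le_norm (s - ρ)
      rw [sub_re, hsre] at this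
      have h6 := le_abs_self (1 + σ - ρ.re)
      linarith
    have hcomp : ‖s1 - ρ‖ ≤ κ * ‖s - ρ‖ := by
      have h6 : ‖s1 - ρ‖ ≤ ‖s1 - s‖ + ‖s - ρ‖ := by
        have : s1 - ρ = (s1 - s) + (s - ρ) := by ring
        rw [this]; exact norm_add_le _ _
      have h7 : θ ≤ c2 / (c / 2) * ‖s - ρ‖ := by
        have : θ = c2 / (c / 2) * (c / 2 / ell t) := by
          rw [hθ]; field_simp
        rw [this]
        gcongr
      rw [hκ]
      linarith
    have hp1 : 0 < ‖s - ρ‖ := norm_pos_iff.mpr hsρ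
    have hp2 : 0 < ‖s1 - ρ‖ := norm_pos_iff.mpr hs1ρ
    have hre1 : θ ≤ (s1 - ρ).re := by rw [sub_re, hs1re]; linarith
    rw [e1, norm_div, norm_mul, re_one_div _, div_le_iff₀ (by positivity)]
    have h8 : κ * ((s1 - ρ).re / ‖s1 - ρ‖ ^ 2) * (‖s - ρ‖ * ‖s1 - ρ‖) =
        (s1 - ρ).re * (κ * ‖s - ρ‖ / ‖s1 - ρ‖) := by
      field_simp
    rw [h8]
    have h9 : 1 ≤ κ * ‖s - ρ‖ / ‖s1 - ρ‖ := by rw [le_div_iff₀ hp2]; linarith
    nlinarith
  have hsumsub : (Z.map (fun ρ => 1 / (s - ρ))).sum =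
      (Z.map (fun ρ => 1 / (s - ρ) - 1 / (s1 - ρ))).sum + (Z.map (fun ρ => 1 / (s1 - ρ))).sum := by
    rw [← Multiset.sum_map_add]
    congr 1
    apply Multiset.map_congr rfl
    intro ρ _
    ring
  have hmain : ‖deriv riemannZeta₁ s / riemannZeta₁ s‖ ≤ C4 * ell t := by
    have e : deriv riemannZeta₁ s / riemannZeta₁ s =
        (deriv riemannZeta₁ s / riemannZeta₁ s - (Z.map (fun ρ => 1 / (s - ρ))).sum) +
        (Z.map (fun ρ => 1 / (s - ρ) - 1 / (s1 - ρ))).sum -
        (deriv riemannZeta₁ s1 / riemannZeta₁ s1 - (Z.map (fun ρ => 1 / (s1 - ρ))).sum) +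
        deriv riemannZeta₁ s1 / riemannZeta₁ s1 := by
      rw [hsumsub]; ring
    rw [e]
    have hd2 : ‖(Z.map (fun ρ => 1 / (s - ρ) - 1 / (s1 - ρ))).sum‖ ≤ κ * (C3 * ell t) :=
      hdiff.trans (by gcongr)
    calc _ ≤ ‖deriv riemannZeta₁ s / riemannZeta₁ s - (Z.map (fun ρ => 1 / (s - ρ))).sum‖ +
          ‖(Z.map (fun ρ => 1 / (s - ρ) - 1 / (s1 - ρ))).sum‖ +
          ‖deriv riemannZeta₁ s1 / riemannZeta₁ s1 - (Z.map (fun ρ => 1 / (s1 - ρ))).sum‖ +
          ‖deriv riemannZeta₁ s1 / riemannZeta₁ s1‖ :=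
          (norm_add_le _ _).trans (by gcongr; exact (norm_sub_le _ _).trans (by gcongr; exact norm_add_le _ _))
      _ ≤ A * ell t + κ * (C3 * ell t) + A * ell t + (2 / c2 + 2 * C0) * ell t := by
          gcongr
      _ = C4 * ell t := by rw [hC4]; ring
  have hz : riemannZeta s ≠ 0 := riemannZeta_ne_zero_of_one_lt_re (by rw [hsre]; linarith)
  rw [logderiv_zeta s hsne hz]
  have h5 : ‖(1 : ℂ) / (s - 1)‖ ≤ 1 / |t| := by
    rw [norm_div, norm_one]
    apply one_div_le_one_div_of_le htabs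
    have := Complex.abs_im_le_norm (s - 1)
    rw [sub_im, hsim, one_im, sub_zero] at this
    exact this
  calc ‖deriv riemannZeta₁ s / riemannZeta₁ s - 1 / (s - 1)‖
      ≤ ‖deriv riemannZeta₁ s / riemannZeta₁ s‖ + ‖(1 : ℂ) / (s - 1)‖ := norm_sub_le _ _
    _ ≤ C4 * ell t + 1 / |t| := by linarith
    _ ≤ (C4 + 1 + (1 / c2 + 2 * C0)) * (ell t + 1 / |t|) := by
        have h6 : 0 ≤ 1 / |t| := by positivity
        have h7 : 0 ≤ (1 / c2 + 2 * C0) := by positivity
        have h8 : 0 ≤ (1 / c2 + 2 * C0) * (ell t + 1 / |t|) := by positivity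
        nlinarith [mul_nonneg hC4pos.le h6]

end Hoh
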