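import Mathlib
import Pool.Agent.Lib.MP_0bb3d8_nt.HohDefs
import Pool.Agent.Lib.MP_0bb3d8_nt.HohMertens

/-!
The Brun-Titchmarsh inequality (with some constant) from the fundamental lemma of the sieve.
-/

namespace Hoh

open Finset Real

open scoped Classical in
lemma bt_rough_apply (y : ℝ) (n : ℕ) : rough y n = if n ≠ 0 ∧ Rough y n then 1 else 0 := rfl

lemma bt_rough_nonneg (y : ℝ) (n : ℕ) : 0 ≤ rough y n := by
  classical
  rw [bt_rough_apply]
  split_ifs <;> norm_num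

lemma bt_rough_prime {y : ℝ} {p : ℕ} (hp : p.Prime) (hyp : y < p) : rough y p = 1 := by
  classical
  rw [bt_rough_apply, if_pos]
  refine ⟨hp.ne_zero, fun q hq hqp => ?_⟩
  rw [(Nat.prime_dvd_prime_iff_eq hq hp).mp hqp]
  exact hyp

lemma card_multiples_le (a b d : ℕ) (hab : a ≤ b) (hd : 1 ≤ d) :
    |((((Finset.Ioc a b).filter (fun n => d ∣ n)).card : ℝ)) - ((b : ℝ) - a) / d| ≤ 1 := by
  have h1 : (((Finset.Ioc 0 b).filter (fun n => d ∣ n)).card) = b / d := Nat.Ioc_filter_dvd_card_eq_div b d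
  have h2 : (((Finset.Ioc 0 a).filter (fun n => d ∣ n)).card) = a / d := Nat.Ioc_filter_dvd_card_eq_div a d
  have h3 : (Finset.Ioc 0 b).filter (fun n => d ∣ n) =
      (Finset.Ioc 0 a).filter (fun n => d ∣ n) ∪ (Finset.Ioc a b).filter (fun n => d ∣ n) := by
    ext n
    simp only [Finset.mem_filter, Finset.mem_Ioc, Finset.mem_union]
    constructor
    · rintro ⟨⟨h4, h5⟩, h6⟩
      rcases le_or_gt n a with h | h
      · exact Or.inl ⟨⟨h4, h⟩, h6⟩
      · exact Or.inr ⟨⟨h, h5⟩, h6⟩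
    · rintro (⟨⟨h4, h5⟩, h6⟩ | ⟨⟨h4, h5⟩, h6⟩)
      · exact ⟨⟨h4, by omega⟩, h6⟩
      · exact ⟨⟨by omega, h5⟩, h6⟩
  have h4 : Disjoint ((Finset.Ioc 0 a).filter (fun n => d ∣ n))
      ((Finset.Ioc a b).filter (fun n => d ∣ n)) := by
    rw [Finset.disjoint_left]
    intro n hn hn'
    simp only [Finset.mem_filter, Finset.mem_Ioc] at hn hn'
    omega
  have h5 : b / d = a / d + ((Finset.Ioc a b).filter (fun n => d ∣ n)).card := by
    rw [← h1, ← h2, h3, Finset.card_union_of_disjoint h4]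
  have h6 : ((b / d : ℕ) : ℝ) = ((a / d : ℕ) : ℝ) +
      (((Finset.Ioc a b).filter (fun n => d ∣ n)).card : ℝ) := by exact_mod_cast h5
  have hd0 : (0 : ℝ) < d := by exact_mod_cast hd
  have key : ∀ m : ℕ, ((m / d : ℕ) : ℝ) ≤ (m : ℝ) / d ∧ (m : ℝ) / d < ((m / d : ℕ) : ℝ) + 1 := by
    intro m
    refine ⟨Nat.cast_div_le, ?_⟩
    rw [div_lt_iff₀ hd0, mul_comm]
    exact_mod_cast Nat.lt_mul_div_succ m (by omega)
  obtain ⟨k1, k2⟩ := key a
  obtain ⟨k3, k4⟩ := key b
  rw [sub_div, abs_le]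
  constructor <;> linarith

lemma sum_divisors_eq {D : ℝ} {lp : ℕ → ℝ} (hsupp : ∀ d, lp d ≠ 0 → 1 ≤ d ∧ (d : ℝ) ≤ D)
    {n : ℕ} (hn : n ≠ 0) :
    ∑ d ∈ n.divisors, lp d = ∑ d ∈ Finset.Icc 1 ⌊D⌋₊, if d ∣ n then lp d else 0 := by
  rw [← Finset.sum_filter]
  have h1 : ∑ d ∈ n.divisors, lp d = ∑ d ∈ n.divisors.filter (fun d => lp d ≠ 0), lp d :=
    (Finset.sum_filter_ne_zero _).symm
  have h2 : ∑ d ∈ (Finset.Icc 1 ⌊D⌋₊).filter (fun d => d ∣ n), lp d =
      ∑ d ∈ ((Finset.Icc 1 ⌊D⌋₊).filter (fun d => d ∣ n)).filter (fun d => lp d ≠ 0), lp d :=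
    (Finset.sum_filter_ne_zero _).symm
  rw [h1, h2]
  refine Finset.sum_congr ?_ fun _ _ => rfl
  ext d
  simp only [Finset.mem_filter, Nat.mem_divisors, Finset.mem_Icc]
  constructor
  · rintro ⟨⟨h3, _⟩, h4⟩
    obtain ⟨h5, h6⟩ := hsupp d h4
    exact ⟨⟨⟨h5, Nat.le_floor h6⟩, h3⟩, h4⟩
  · rintro ⟨⟨_, h3⟩, h4⟩
    exact ⟨⟨h3, hn⟩, h4⟩

/-- Sum of the sieve weights over an interval. -/
lemma sum_interval_le {D : ℝ} {lp : ℕ → ℝ} (hD : 0 ≤ D) (h1 : ∀ d, |lp d| ≤ 1)
    (hsupp : ∀ d, lp d ≠ 0 → 1 ≤ d ∧ (d : ℝ) ≤ D) (a b : ℕ) (hab : a ≤ b) :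
    ∑ n ∈ Finset.Ioc a b, ∑ d ∈ n.divisors, lp d ≤
      ((b : ℝ) - a) * ∑ d ∈ Finset.Icc 1 ⌊D⌋₊, lp d / d + D := by
  have h2 : ∑ n ∈ Finset.Ioc a b, ∑ d ∈ n.divisors, lp d =
      ∑ d ∈ Finset.Icc 1 ⌊D⌋₊, lp d * (((Finset.Ioc a b).filter (fun n => d ∣ n)).card : ℝ) := by
    have h3 : ∀ n ∈ Finset.Ioc a b, ∑ d ∈ n.divisors, lp d =
        ∑ d ∈ Finset.Icc 1 ⌊D⌋₊, if d ∣ n then lp d else 0 := by
      intro n hn
      rw [Finset.mem_Ioc] at hn
      exact sum_divisors_eq hsupp (by omega)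
    rw [Finset.sum_congr rfl h3, Finset.sum_comm]
    refine Finset.sum_congr rfl fun d _ => ?_
    rw [← Finset.sum_filter, Finset.sum_const, nsmul_eq_mul, mul_comm]
  rw [h2, Finset.mul_sum]
  have h4 : ∑ d ∈ Finset.Icc 1 ⌊D⌋₊, lp d * (((Finset.Ioc a b).filter (fun n => d ∣ n)).card : ℝ) ≤
      ∑ d ∈ Finset.Icc 1 ⌊D⌋₊, (((b : ℝ) - a) * (lp d / d) + 1) := by
    refine Finset.sum_le_sum fun d hd => ?_
    rw [Finset.mem_Icc] at hd
    have h5 := card_multiples_le a b d hab hd.1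
    have h6 : |lp d * ((((Finset.Ioc a b).filter (fun n => d ∣ n)).card : ℝ) -
        ((b : ℝ) - a) / d)| ≤ 1 := by
      rw [abs_mul]
      exact mul_le_one₀ (h1 d) (abs_nonneg _) h5
    have h7 := (abs_le.mp h6).2
    have h8 : ((b : ℝ) - a) * (lp d / d) = lp d * (((b : ℝ) - a) / d) := by ring
    rw [h8]
    linarith [mul_sub (lp d) (((Finset.Ioc a b).filter (fun n => d ∣ n)).card : ℝ)
      (((b : ℝ) - a) / d)]
  refine h4.trans ?_
  rw [Finset.sum_add_distrib, Finset.sum_const, Nat.card_Icc, nsmul_eq_mul, mul_one,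
    Nat.add_sub_cancel]
  exact add_le_add le_rfl (Nat.floor_le hD)

theorem brunTitchmarsh (hF : FundLemma) : BrunTitchmarsh := by
  obtain ⟨c, C, hc, hC, H⟩ := hF
  obtain ⟨C', hC', HV⟩ := vUpper
  -- constant
  refine ⟨4 * C' * (1 + C) + 8, by positivity, fun u v hu hv => ?_⟩
  have hlv : 0 < Real.log v := Real.log_pos (by linarith)
  have hv0 : 0 < v := by linarith
  set a := ⌊u⌋₊ with ha
  set b := ⌊u + v⌋₊ with hb
  have hab : a ≤ b := Nat.floor_le_floor (by linarith)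
  have hbr : (b : ℝ) - a ≤ v + 1 := by
    have h1 : (b : ℝ) ≤ u + v := Nat.floor_le (by linarith)
    have h2 : u < a + 1 := Nat.lt_floor_add_one u
    linarith
  have hba : 0 ≤ (b : ℝ) - a := by
    have : (a : ℝ) ≤ b := by exact_mod_cast hab
    linarith
  rcases lt_or_ge v 4 with h4 | h4
  · -- trivial range
    have h5 : ((((Finset.Ioc a b).filter Nat.Prime).card : ℝ)) ≤ v + 1 := by
      refine le_trans ?_ hbr
      have h6 : ((Finset.Ioc a b).filter Nat.Prime).card ≤ b - a := by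
        refine (Finset.card_filter_le _ _).trans ?_
        rw [Nat.card_Ioc]
      calc ((((Finset.Ioc a b).filter Nat.Prime).card : ℝ)) ≤ ((b - a : ℕ) : ℝ) := by
            exact_mod_cast h6
        _ = (b : ℝ) - a := by rw [Nat.cast_sub hab]
    refine h5.trans ?_
    rw [le_div_iff₀ hlv]
    have h7 : Real.log v ≤ 4 := by
      have := Real.log_le_sub_one_of_pos hv0
      linarith
    have h8 : (v + 1) * Real.log v ≤ (v + 1) * 4 := by gcongr
    have h9 : 0 ≤ 4 * C' * (1 + C) * v := by positivity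
    nlinarith
  · -- main range
    set y := Real.sqrt v with hy
    have hy2 : 2 ≤ y := by
      rw [hy]
      apply Real.le_sqrt_of_sq_le
      norm_num
      exact h4
    have hyy : y * y = v := Real.mul_self_sqrt hv0.le
    obtain ⟨lp, lm, hb1, hb2, hb3, hb4, _⟩ := H y y hy2 le_rfl
    have hsupp : ∀ d, lp d ≠ 0 → 1 ≤ d ∧ (d : ℝ) ≤ y := fun d hd => hb2 d (Or.inl hd)
    have hS := sum_interval_le (by linarith : (0 : ℝ) ≤ y) (fun d => (hb1 d).1) hsupp a b hab
    -- primes are small or rough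
    have hP : ((((Finset.Ioc a b).filter Nat.Prime).card : ℝ)) ≤
        y + ∑ n ∈ Finset.Ioc a b, rough y n := by
      have h5 : (Finset.Ioc a b).filter Nat.Prime ⊆
          Finset.Icc 1 ⌊y⌋₊ ∪ ((Finset.Ioc a b).filter (fun n => Nat.Prime n ∧ y < n)) := by
        intro p hp
        rw [Finset.mem_filter] at hp
        rw [Finset.mem_union, Finset.mem_filter, Finset.mem_Icc]
        rcases le_or_gt (p : ℝ) y with h | h
        · exact Or.inl ⟨hp.2.one_lt.le, Nat.le_floor h⟩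
        · exact Or.inr ⟨hp.1, hp.2, h⟩
      have h6 := (Finset.card_le_card h5).trans (Finset.card_union_le _ _)
      rw [Nat.card_Icc, Nat.add_sub_cancel] at h6
      have h7 : (((Finset.Ioc a b).filter (fun n => Nat.Prime n ∧ y < n)).card : ℝ) ≤
          ∑ n ∈ Finset.Ioc a b, rough y n := by
        rw [Finset.card_eq_sum_ones, Nat.cast_sum]
        have h8 : ∑ n ∈ (Finset.Ioc a b).filter (fun n => Nat.Prime n ∧ y < n), ((1 : ℕ) : ℝ) =
            ∑ n ∈ (Finset.Ioc a b).filter (fun n => Nat.Prime n ∧ y < n), rough y n := by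
          refine Finset.sum_congr rfl fun p hp => ?_
          rw [Finset.mem_filter] at hp
          rw [bt_rough_prime hp.2.1 hp.2.2, Nat.cast_one]
        rw [h8]
        exact Finset.sum_le_sum_of_subset_of_nonneg (Finset.filter_subset _ _)
          fun n _ _ => bt_rough_nonneg y n
      have h9 : ((((Finset.Ioc a b).filter Nat.Prime).card : ℝ)) ≤
          ((⌊y⌋₊ : ℕ) : ℝ) + (((Finset.Ioc a b).filter (fun n => Nat.Prime n ∧ y < n)).card : ℝ) := by
        exact_mod_cast h6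
      have h10 : ((⌊y⌋₊ : ℕ) : ℝ) ≤ y := Nat.floor_le (by linarith)
      linarith
    have hR : ∑ n ∈ Finset.Ioc a b, rough y n ≤ ∑ n ∈ Finset.Ioc a b, ∑ d ∈ n.divisors, lp d := by
      refine Finset.sum_le_sum fun n hn => ?_
      rw [Finset.mem_Ioc] at hn
      exact (hb3 n (by omega)).2
    have hly : 0 < Real.log y := Real.log_pos (by linarith)
    have hV0 : V y ≤ C' / Real.log y := HV y hy2
    have hVnn : 0 ≤ V y := by
      rw [V]
      refine Finset.prod_nonneg fun p hp => ?_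
      have := (Finset.mem_filter.mp hp).2.one_lt
      have h5 : (1 : ℝ) < p := by exact_mod_cast this
      have h6 : 1 / (p : ℝ) < 1 := by rw [div_lt_one (by linarith)]; exact h5
      linarith
    have hsum : ∑ d ∈ Finset.Icc 1 ⌊y⌋₊, lp d / d ≤ (1 + C) * V y := by
      have h5 := (abs_le.mp hb4).2
      have h6 : Real.exp (-c * (Real.log y / Real.log y)) ≤ 1 := by
        rw [Real.exp_le_one_iff, div_self hly.ne']
        linarith
      have h7 : C * Real.exp (-c * (Real.log y / Real.log y)) * V y ≤ C * 1 * V y := by gcongr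
      linarith
    have hlog : Real.log v = 2 * Real.log y := by
      rw [← hyy, Real.log_mul (by linarith) (by linarith)]; ring
    have hlogle : Real.log v ≤ 2 * y := by
      rw [hlog]
      have := Real.log_le_sub_one_of_pos (x := y) (by linarith)
      linarith
    have h10 : ((b : ℝ) - a) * ∑ d ∈ Finset.Icc 1 ⌊y⌋₊, lp d / d ≤
        (2 * v) * ((1 + C) * (C' / Real.log y)) := by
      have h11 : ((b : ℝ) - a) * ∑ d ∈ Finset.Icc 1 ⌊y⌋₊, lp d / d ≤
          ((b : ℝ) - a) * ((1 + C) * V y) := mul_le_mul_of_nonneg_left hsum hba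
      refine h11.trans ?_
      have h12 : (b : ℝ) - a ≤ 2 * v := by linarith
      have h13 : (1 + C) * V y ≤ (1 + C) * (C' / Real.log y) := by gcongr
      exact mul_le_mul h12 h13 (by positivity) (by positivity)
    have h14 : (2 * v) * ((1 + C) * (C' / Real.log y)) = 4 * C' * (1 + C) * v / Real.log v := by
      rw [hlog]; field_simp; ring
    have h15 : 2 * y ≤ 8 * v / Real.log v := by
      rw [le_div_iff₀ hlv]
      calc 2 * y * Real.log v ≤ 2 * y * (2 * y) := by gcongr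
        _ = 4 * v := by rw [← hyy]; ring
        _ ≤ 8 * v := by linarith
    calc ((((Finset.Ioc a b).filter Nat.Prime).card : ℝ)) ≤
          y + (((b : ℝ) - a) * ∑ d ∈ Finset.Icc 1 ⌊y⌋₊, lp d / d + y) := by linarith
      _ ≤ 4 * C' * (1 + C) * v / Real.log v + 8 * v / Real.log v := by
          rw [h14] at h10; linarith
      _ = (4 * C' * (1 + C) + 8) * v / Real.log v := by ring

end Hoh
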