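import Pool.Agent.Lib.MP_0bb3d8_nt.Defs

/-!
# A1: the Laguerre part (`good_phi`)
-/

set_option autoImplicit false

open Real MeasureTheory Polynomial Set

namespace Pool.Agent.Lib.MP_0bb3d8_nt

namespace A1

/-! ### Recurrences -/

theorem lag_zero (k : ℝ) : lag k 0 = 1 := rfl

theorem lag_one (k : ℝ) : lag k 1 = X - C k := rfl

theorem lag_succ_succ (k : ℝ) (m : ℕ) :
    lag k (m + 2) = (X - C (2 * ((m : ℝ) + 1) + k)) * lag k (m + 1)
      - C (((m : ℝ) + 1) * ((m : ℝ) + k)) * lag k m := by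
  rw [lag]

/-- the two first order relations -/
theorem lag_rel (k : ℝ) (m : ℕ) :
    X * derivative (lag k (m + 1)) = C ((m : ℝ) + 1) * lag k (m + 1)
        + C (((m : ℝ) + 1) * ((m : ℝ) + k)) * lag k m ∧
    derivative (lag k (m + 1)) = C ((m : ℝ) + 1) * (lag k m - derivative (lag k m)) := by
  induction m with
  | zero =>
    constructor
    · simp [lag_one, lag_zero]
    · simp [lag_one, lag_zero]
  | succ m ih =>
    obtain ⟨h1, h2⟩ := ih
    have h4 : derivative (lag k (m + 2)) = C (((m + 1 : ℕ) : ℝ) + 1) *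
        (lag k (m + 1) - derivative (lag k (m + 1))) := by
      have e1 : derivative (lag k (m + 2)) = lag k (m + 1)
          + (X - C (2 * ((m : ℝ) + 1) + k)) * derivative (lag k (m + 1))
          - C (((m : ℝ) + 1) * ((m : ℝ) + k)) * derivative (lag k m) := by
        rw [lag_succ_succ]
        simp [derivative_mul]
      rw [e1]
      have e2 : (X - C (2 * ((m : ℝ) + 1) + k)) * derivative (lag k (m + 1)) =
          X * derivative (lag k (m + 1)) - C (2 * ((m : ℝ) + 1) + k) * derivative (lag k (m + 1)) := by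
        ring
      rw [e2, h1]
      have e3 : C (((m : ℝ) + 1) * ((m : ℝ) + k)) * lag k m
          - C (((m : ℝ) + 1) * ((m : ℝ) + k)) * derivative (lag k m) =
          C ((m : ℝ) + k) * derivative (lag k (m + 1)) := by
        rw [h2]
        simp only [map_mul, map_add, map_one]
        ring
      have e4 : lag k (m + 1) + (C ((m : ℝ) + 1) * lag k (m + 1)
            + C (((m : ℝ) + 1) * ((m : ℝ) + k)) * lag k m
            - C (2 * ((m : ℝ) + 1) + k) * derivative (lag k (m + 1)))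
            - C (((m : ℝ) + 1) * ((m : ℝ) + k)) * derivative (lag k m) =
          lag k (m + 1) + C ((m : ℝ) + 1) * lag k (m + 1)
            - C (2 * ((m : ℝ) + 1) + k) * derivative (lag k (m + 1))
            + C ((m : ℝ) + k) * derivative (lag k (m + 1)) := by
        rw [← e3]; ring
      rw [e4]
      push_cast
      simp only [map_mul, map_add, map_one, map_ofNat]
      ring
    refine ⟨?_, h4⟩
    have e5 : X * derivative (lag k (m + 2)) = C (((m + 1 : ℕ) : ℝ) + 1) *
        (X * lag k (m + 1) - X * derivative (lag k (m + 1))) := by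
      rw [h4]; ring
    show X * derivative (lag k (m + 2)) = C (((m + 1 : ℕ) : ℝ) + 1) * lag k (m + 2)
        + C ((((m + 1 : ℕ) : ℝ) + 1) * (((m + 1 : ℕ) : ℝ) + k)) * lag k (m + 1)
    rw [e5, h1, lag_succ_succ]
    push_cast
    simp only [map_mul, map_add, map_one, map_ofNat]
    ring

/-- The Laguerre operator. -/
noncomputable def Dl (k : ℝ) (P : ℝ[X]) : ℝ[X] :=
  (X - C k) * derivative P - X * derivative (derivative P)

theorem Dl_lag (k : ℝ) (m : ℕ) : Dl k (lag k m) = C (m : ℝ) * lag k m := by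
  cases m with
  | zero => simp [Dl, lag_zero]
  | succ m =>
    obtain ⟨h1, h2⟩ := lag_rel k m
    have h3 := congrArg derivative h1
    simp only [derivative_mul, derivative_X, derivative_add, derivative_C, one_mul, zero_mul,
      zero_add] at h3
    have h4 : C ((m : ℝ) + k) * derivative (lag k (m + 1)) =
        C (((m : ℝ) + 1) * ((m : ℝ) + k)) * lag k m
          - C (((m : ℝ) + 1) * ((m : ℝ) + k)) * derivative (lag k m) := by
      rw [h2]
      simp only [map_mul, map_add, map_one]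
      ring
    unfold Dl
    have h5 : X * derivative (derivative (lag k (m + 1))) =
        C ((m : ℝ) + 1) * derivative (lag k (m + 1)) +
          C (((m : ℝ) + 1) * ((m : ℝ) + k)) * derivative (lag k m) -
          derivative (lag k (m + 1)) := by
      rw [← h3]; ring
    rw [sub_mul, h1, h5]
    push_cast
    simp only [map_mul, map_add, map_one] at h4 ⊢
    linear_combination -h4

theorem X_mul_lag (k : ℝ) (m : ℕ) : X * lag k (m + 1) = lag k (m + 2) +
    C (2 * ((m : ℝ) + 1) + k) * lag k (m + 1) + C (((m : ℝ) + 1) * ((m : ℝ) + k)) * lag k m := by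
  rw [lag_succ_succ]; ring

/-! ### The functional -/

/-- `Lf k P = ∫_0^∞ P(x) e^{-x} x^{k-1} dx`. -/
noncomputable def Lf (k : ℝ) : ℝ[X] →ₗ[ℝ] ℝ :=
  Polynomial.lsum (fun n => (Real.Gamma ((n : ℝ) + k)) • LinearMap.id)

theorem Lf_monomial (k : ℝ) (n : ℕ) (c : ℝ) :
    Lf k (monomial n c) = c * Real.Gamma ((n : ℝ) + k) := by
  simp [Lf, Polynomial.lsum_apply, mul_comm]

theorem weight_integrable (k : ℝ) (hk : 0 < k) (n : ℕ) :
    IntegrableOn (fun x : ℝ => x ^ n * (Real.exp (-x) * x ^ (k - 1))) (Ioi 0) := by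
  have h := Real.GammaIntegral_convergent (s := (n : ℝ) + k) (by positivity)
  refine h.congr_fun ?_ measurableSet_Ioi
  intro x hx
  have hx' : (0 : ℝ) < x := hx
  show Real.exp (-x) * x ^ ((n : ℝ) + k - 1) = x ^ n * (Real.exp (-x) * x ^ (k - 1))
  rw [add_sub_assoc, Real.rpow_add hx', Real.rpow_natCast]
  ring

theorem poly_integrable (k : ℝ) (hk : 0 < k) (P : ℝ[X]) :
    IntegrableOn (fun x : ℝ => P.eval x * (Real.exp (-x) * x ^ (k - 1))) (Ioi 0) := by
  induction P using Polynomial.induction_on' with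
  | add P Q hP hQ =>
    refine (hP.add hQ).congr_fun ?_ measurableSet_Ioi
    intro x _
    simp [add_mul]
  | monomial n c =>
    have h : IntegrableOn (fun x : ℝ => c * (x ^ n * (Real.exp (-x) * x ^ (k - 1)))) (Ioi 0) :=
      Integrable.const_mul (weight_integrable k hk n) c
    refine h.congr_fun ?_ measurableSet_Ioi
    intro x _
    simp [mul_assoc]

theorem Lf_eq (k : ℝ) (hk : 0 < k) (P : ℝ[X]) :
    Lf k P = ∫ x in Ioi (0 : ℝ), P.eval x * (Real.exp (-x) * x ^ (k - 1)) := by
  induction P using Polynomial.induction_on' with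
  | add P Q hP hQ =>
    rw [map_add, hP, hQ, ← integral_add (poly_integrable k hk P) (poly_integrable k hk Q)]
    refine setIntegral_congr_fun measurableSet_Ioi ?_
    intro x _
    simp [add_mul]
  | monomial n c =>
    rw [Lf_monomial, Real.Gamma_eq_integral (by positivity), ← integral_const_mul]
    refine setIntegral_congr_fun measurableSet_Ioi ?_
    intro x hx
    have hx' : (0 : ℝ) < x := hx
    show c * (Real.exp (-x) * x ^ ((n : ℝ) + k - 1)) =
      (monomial n c).eval x * (Real.exp (-x) * x ^ (k - 1))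
    rw [add_sub_assoc, Real.rpow_add hx', Real.rpow_natCast, eval_monomial]
    ring

theorem Lf_ibp (k : ℝ) (hk : 0 < k) (Q : ℝ[X]) :
    Lf k (X * derivative Q) = Lf k ((X - C k) * Q) := by
  induction Q using Polynomial.induction_on' with
  | add P Q hP hQ => rw [derivative_add, mul_add, mul_add, map_add, map_add, hP, hQ]
  | monomial n c =>
    have e1 : X * derivative (monomial n c) = monomial n (c * n) := by
      cases n with
      | zero => simp
      | succ n =>
        rw [derivative_monomial, X_mul_monomial]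
        simp
    have e2 : (X - C k) * monomial n c = monomial (n + 1) c - monomial n (k * c) := by
      rw [sub_mul, X_mul_monomial, C_mul_monomial]
    rw [e1, e2, map_sub, Lf_monomial, Lf_monomial, Lf_monomial]
    have hg : Real.Gamma ((n : ℝ) + k + 1) = ((n : ℝ) + k) * Real.Gamma ((n : ℝ) + k) :=
      Real.Gamma_add_one (by positivity)
    have : ((n + 1 : ℕ) : ℝ) + k = (n : ℝ) + k + 1 := by push_cast; ring
    rw [this, hg]
    ring

/-- Dirichlet form. -/
theorem Lf_dir (k : ℝ) (hk : 0 < k) (P Q : ℝ[X]) :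
    Lf k (Dl k P * Q) = Lf k (X * derivative P * derivative Q) := by
  have h := Lf_ibp k hk (derivative P * Q)
  rw [derivative_mul] at h
  have e1 : Dl k P * Q = (X - C k) * (derivative P * Q) - X * derivative (derivative P) * Q := by
    unfold Dl; ring
  have e2 : X * (derivative (derivative P) * Q + derivative P * derivative Q) =
      X * derivative (derivative P) * Q + X * derivative P * derivative Q := by ring
  rw [e2, map_add] at h
  rw [e1, map_sub, ← h]
  ring

theorem Lf_symm (k : ℝ) (hk : 0 < k) (P Q : ℝ[X]) :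
    Lf k (Dl k P * Q) = Lf k (P * Dl k Q) := by
  rw [Lf_dir k hk, mul_comm P, Lf_dir k hk]
  congr 1
  ring

theorem Lf_orth (k : ℝ) (hk : 0 < k) {m n : ℕ} (h : m ≠ n) :
    Lf k (lag k m * lag k n) = 0 := by
  have h1 := Lf_symm k hk (lag k m) (lag k n)
  rw [Dl_lag, Dl_lag] at h1
  have e1 : C (m : ℝ) * lag k m * lag k n = (m : ℝ) • (lag k m * lag k n) := by
    rw [smul_eq_C_mul]; ring
  have e2 : lag k m * (C (n : ℝ) * lag k n) = (n : ℝ) • (lag k m * lag k n) := by
    rw [smul_eq_C_mul]; ring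
  rw [e1, e2, map_smul, map_smul, smul_eq_mul, smul_eq_mul] at h1
  have h2 : ((m : ℝ) - n) * Lf k (lag k m * lag k n) = 0 := by linarith
  rcases mul_eq_zero.1 h2 with h3 | h3
  · exact absurd (by exact_mod_cast (sub_eq_zero.1 h3)) h
  · exact h3

/-- first identity -/
theorem Lf_F2 (k : ℝ) (hk : 0 < k) (P : ℝ[X]) :
    Lf k (X * (2 * derivative P - P) ^ 2) =
      2 * Lf k (P * (2 * Dl k P + C k * P)) - Lf k (X * P ^ 2) := by
  have h1 := Lf_dir k hk P P
  have h2 := Lf_ibp k hk (P ^ 2)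
  have e0 : derivative (P ^ 2) = 2 * (P * derivative P) := by
    rw [sq, derivative_mul]; ring
  rw [e0] at h2
  have e1 : X * (2 * derivative P - P) ^ 2 = (4 : ℝ) • (X * derivative P * derivative P)
      - (2 : ℝ) • (X * (2 * (P * derivative P))) + X * P ^ 2 := by
    simp only [smul_eq_C_mul, map_ofNat]; ring
  have e2 : P * (2 * Dl k P + C k * P) = (2 : ℝ) • (Dl k P * P) + k • P ^ 2 := by
    simp only [smul_eq_C_mul, map_ofNat]; ring
  have e3 : (X - C k) * P ^ 2 = X * P ^ 2 - k • P ^ 2 := by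
    simp only [smul_eq_C_mul]; ring
  rw [e1, e2]
  rw [e3] at h2
  simp only [map_add, map_sub, map_smul, smul_eq_mul] at h1 h2 ⊢
  rw [h1, h2]
  ring

/-- second identity -/
theorem Lf_F3 (k : ℝ) (hk : 0 < k) (P : ℝ[X]) :
    Lf k (X ^ 2 * (2 * derivative P - P) ^ 2) =
      2 * Lf k (X * P * (2 * Dl k P + C k * P)) - Lf k (X ^ 2 * P ^ 2) + 2 * k * Lf k (P ^ 2) := by
  have h1 := Lf_ibp k hk (X * derivative P * P)
  have h2 := Lf_ibp k hk (X * P ^ 2)
  have h3 := Lf_ibp k hk (P ^ 2)
  have e0 : derivative (P ^ 2) = 2 * (P * derivative P) := by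
    rw [sq, derivative_mul]; ring
  have e01 : derivative (X * P ^ 2) = P ^ 2 + X * (2 * (P * derivative P)) := by
    rw [derivative_mul, e0, derivative_X, one_mul]
  have e02 : derivative (X * derivative P * P) = derivative P * P +
      X * derivative (derivative P) * P + X * derivative P * derivative P := by
    rw [derivative_mul, derivative_mul, derivative_X]; ring
  rw [e0] at h3
  rw [e01] at h2
  rw [e02] at h1
  -- normal forms
  have n1 : X * (derivative P * P + X * derivative (derivative P) * P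
      + X * derivative P * derivative P) = X * P * derivative P +
        X ^ 2 * derivative (derivative P) * P + X ^ 2 * derivative P ^ 2 := by ring
  have n1' : (X - C k) * (X * derivative P * P) =
      X * P * ((X - C k) * derivative P) := by ring
  rw [n1, n1'] at h1
  have n2 : X * (P ^ 2 + X * (2 * (P * derivative P))) = X * P ^ 2 +
      (2 : ℝ) • (X ^ 2 * (P * derivative P)) := by
    simp only [smul_eq_C_mul, map_ofNat]; ring
  have n2' : (X - C k) * (X * P ^ 2) = X ^ 2 * P ^ 2 - k • (X * P ^ 2) := by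
    simp only [smul_eq_C_mul]; ring
  rw [n2, n2'] at h2
  have n3 : X * (2 * (P * derivative P)) = (2 : ℝ) • (X * P * derivative P) := by
    simp only [smul_eq_C_mul, map_ofNat]; ring
  have n3' : (X - C k) * P ^ 2 = X * P ^ 2 - k • P ^ 2 := by
    simp only [smul_eq_C_mul]; ring
  rw [n3, n3'] at h3
  have e1 : X ^ 2 * (2 * derivative P - P) ^ 2 = (4 : ℝ) • (X ^ 2 * derivative P ^ 2)
      - (4 : ℝ) • (X ^ 2 * (P * derivative P)) + X ^ 2 * P ^ 2 := by
    simp only [smul_eq_C_mul, map_ofNat]; ring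
  have e2 : X * P * (2 * Dl k P + C k * P) = (2 : ℝ) • (X * P * ((X - C k) * derivative P))
      - (2 : ℝ) • (X ^ 2 * derivative (derivative P) * P) + k • (X * P ^ 2) := by
    unfold Dl
    simp only [smul_eq_C_mul, map_ofNat]; ring
  rw [e1, e2]
  simp only [map_add, map_sub, map_smul, smul_eq_mul] at h1 h2 h3 ⊢
  linarith

/-! ### Finite combinations -/

/-- A finite combination of the `lag k m`. -/
noncomputable def comb (k : ℝ) (s : Finset ℕ) (c : ℕ → ℝ) : ℝ[X] := ∑ m ∈ s, C (c m) * lag k m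

/-- the eigenvalues -/
noncomputable def lam (k : ℝ) (m : ℕ) : ℝ := 2 * (m : ℝ) + k

/-- square norms -/
noncomputable def hh (k : ℝ) (m : ℕ) : ℝ := Lf k (lag k m * lag k m)

theorem Lf_sq_nonneg (k : ℝ) (hk : 0 < k) (P : ℝ[X]) : 0 ≤ Lf k (P * P) := by
  rw [Lf_eq k hk]
  refine setIntegral_nonneg measurableSet_Ioi ?_
  intro x hx
  have hx' : (0 : ℝ) < x := hx
  rw [eval_mul]
  have := mul_self_nonneg (P.eval x)
  positivity

theorem hh_nonneg (k : ℝ) (hk : 0 < k) (m : ℕ) : 0 ≤ hh k m := Lf_sq_nonneg k hk _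

theorem exists_comb (k : ℝ) (P : ℝ[X]) (hP : P ∈ Vodd k) :
    ∃ (s : Finset ℕ) (c : ℕ → ℝ), (∀ m ∈ s, Odd m) ∧ P = comb k s c := by
  unfold Vodd at hP
  induction hP using Submodule.span_induction with
  | mem x hx =>
    obtain ⟨m, hm, rfl⟩ := hx
    exact ⟨{m}, fun _ => 1, by simpa using hm, by simp [comb]⟩
  | zero => exact ⟨∅, fun _ => 0, by simp, by simp [comb]⟩
  | add x y _ _ hx hy =>
    obtain ⟨s, c, hs, rfl⟩ := hx
    obtain ⟨t, d, ht, rfl⟩ := hy
    refine ⟨s ∪ t, fun m => (if m ∈ s then c m else 0) + (if m ∈ t then d m else 0), ?_, ?_⟩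
    · intro m hm
      rcases Finset.mem_union.1 hm with h | h
      · exact hs m h
      · exact ht m h
    · unfold comb
      simp only [map_add, add_mul, Finset.sum_add_distrib]
      congr 1
      · rw [← Finset.sum_subset (Finset.subset_union_left (s₁ := s) (s₂ := t))]
        · refine Finset.sum_congr rfl ?_
          intro m hm
          rw [if_pos hm]
        · intro m _ hm
          rw [if_neg hm]
          simp
      · rw [← Finset.sum_subset (Finset.subset_union_right (s₁ := s) (s₂ := t))]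
        · refine Finset.sum_congr rfl ?_
          intro m hm
          rw [if_pos hm]
        · intro m _ hm
          rw [if_neg hm]
          simp
  | smul a x _ hx =>
    obtain ⟨s, c, hs, rfl⟩ := hx
    refine ⟨s, fun m => a * c m, hs, ?_⟩
    unfold comb
    rw [Finset.smul_sum]
    refine Finset.sum_congr rfl ?_
    intro m _
    rw [smul_eq_C_mul, map_mul]
    ring

theorem Dl_add (k : ℝ) (P Q : ℝ[X]) : Dl k (P + Q) = Dl k P + Dl k Q := by
  unfold Dl
  simp only [derivative_add]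
  ring

theorem Dl_C_mul (k c : ℝ) (P : ℝ[X]) : Dl k (C c * P) = C c * Dl k P := by
  unfold Dl
  simp only [derivative_mul, derivative_C, zero_mul, zero_add]
  ring

theorem Dl_comb (k : ℝ) (s : Finset ℕ) (c : ℕ → ℝ) :
    2 * Dl k (comb k s c) + C k * comb k s c = comb k s (fun m => lam k m * c m) := by
  unfold comb
  induction s using Finset.induction_on with
  | empty => simp [Dl]
  | insert m s hm ih =>
    rw [Finset.sum_insert hm, Finset.sum_insert hm, Dl_add, Dl_C_mul, Dl_lag, ← ih]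
    simp only [lam, map_mul, map_add, map_ofNat]
    ring

theorem Lf_comb_mul (k : ℝ) (hk : 0 < k) (s : Finset ℕ) (c d : ℕ → ℝ) :
    Lf k (comb k s c * comb k s d) = ∑ m ∈ s, c m * d m * hh k m := by
  unfold comb
  rw [Finset.sum_mul, map_sum]
  refine Finset.sum_congr rfl ?_
  intro m hm
  rw [Finset.mul_sum, map_sum, Finset.sum_eq_single m]
  · have : C (c m) * lag k m * (C (d m) * lag k m) = (c m * d m) • (lag k m * lag k m) := by
      rw [smul_eq_C_mul, map_mul]; ring
    rw [this, map_smul, smul_eq_mul]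
    rfl
  · intro n _ hn
    have : C (c m) * lag k m * (C (d n) * lag k n) = (c m * d n) • (lag k m * lag k n) := by
      rw [smul_eq_C_mul, map_mul]; ring
    rw [this, map_smul, Lf_orth k hk (Ne.symm hn), smul_zero]
  · intro h; exact absurd hm h

theorem Lf_X_lag (k : ℝ) (hk : 0 < k) {m n : ℕ} (hm : Odd m) (hn : Odd n) :
    Lf k (X * (lag k m * lag k n)) = if m = n then lam k m * hh k m else 0 := by
  obtain ⟨n', rfl⟩ : ∃ n', n = n' + 1 := ⟨n - 1, by have := hn.pos; omega⟩
  have e : X * (lag k m * lag k (n' + 1)) = lag k m * lag k (n' + 2)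
      + (2 * ((n' : ℝ) + 1) + k) • (lag k m * lag k (n' + 1))
      + (((n' : ℝ) + 1) * ((n' : ℝ) + k)) • (lag k m * lag k n') := by
    have := X_mul_lag k n'
    have h2 : X * (lag k m * lag k (n' + 1)) = lag k m * (X * lag k (n' + 1)) := by ring
    rw [h2, this]
    simp only [smul_eq_C_mul]
    ring
  have o1 : m ≠ n' + 2 := by
    rintro rfl
    rcases hm with ⟨a, ha⟩
    rcases hn with ⟨b, hb⟩
    omega
  have o2 : m ≠ n' := by
    rintro rfl
    rcases hm with ⟨a, ha⟩
    rcases hn with ⟨b, hb⟩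
    omega
  rw [e, map_add, map_add, map_smul, map_smul, Lf_orth k hk o1, Lf_orth k hk o2]
  split_ifs with h
  · subst h
    simp only [smul_eq_mul, lam, hh]
    push_cast
    ring
  · rw [Lf_orth k hk h]; simp

theorem Lf_X_comb_mul (k : ℝ) (hk : 0 < k) (s : Finset ℕ) (hs : ∀ m ∈ s, Odd m) (c d : ℕ → ℝ) :
    Lf k (X * (comb k s c * comb k s d)) = ∑ m ∈ s, lam k m * (c m * d m) * hh k m := by
  unfold comb
  rw [Finset.sum_mul, Finset.mul_sum, map_sum]
  refine Finset.sum_congr rfl ?_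
  intro m hm
  rw [Finset.mul_sum, Finset.mul_sum, map_sum, Finset.sum_eq_single m]
  · have : X * (C (c m) * lag k m * (C (d m) * lag k m)) =
        (c m * d m) • (X * (lag k m * lag k m)) := by
      rw [smul_eq_C_mul, map_mul]; ring
    rw [this, map_smul, smul_eq_mul, Lf_X_lag k hk (hs m hm) (hs m hm), if_pos rfl]
    ring
  · intro n hns hn
    have : X * (C (c m) * lag k m * (C (d n) * lag k n)) =
        (c m * d n) • (X * (lag k m * lag k n)) := by
      rw [smul_eq_C_mul, map_mul]; ring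
    rw [this, map_smul, Lf_X_lag k hk (hs m hm) (hs n hns), if_neg (Ne.symm hn), smul_zero]
  · intro h; exact absurd hm h

/-! ### The key inequality -/

/-- the weighted integral -/
noncomputable def II (k a : ℝ) (Q : ℝ[X]) : ℝ :=
  ∫ x in Ioi (0 : ℝ), x ^ 2 / (x + a) * (Q.eval x) ^ 2 * (Real.exp (-x) * x ^ (k - 1))

theorem frac_integrable (k a : ℝ) (hk : 0 < k) (ha : 0 < a) (Q : ℝ[X]) :
    IntegrableOn (fun x : ℝ => x ^ 2 / (x + a) * (Q.eval x) ^ 2 * (Real.exp (-x) * x ^ (k - 1)))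
      (Ioi 0) := by
  have h := poly_integrable k hk (X * Q ^ 2)
  refine Integrable.mono' h ?_ ?_
  · refine ContinuousOn.aestronglyMeasurable ?_ measurableSet_Ioi
    intro x hx
    have hx' : (0 : ℝ) < x := hx
    refine ContinuousAt.continuousWithinAt ?_
    have c1 : ContinuousAt (fun x : ℝ => x ^ 2 / (x + a)) x :=
      ContinuousAt.div (by fun_prop) (by fun_prop) (by positivity)
    have c2 : ContinuousAt (fun x : ℝ => (Q.eval x) ^ 2) x :=
      (Q.continuous.pow 2).continuousAt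
    have c3 : ContinuousAt (fun x : ℝ => x ^ (k - 1)) x :=
      Real.continuousAt_rpow_const x (k - 1) (Or.inl hx'.ne')
    have c4 : ContinuousAt (fun x : ℝ => Real.exp (-x)) x := by fun_prop
    exact (c1.mul c2).mul (c4.mul c3)
  · rw [ae_restrict_iff' measurableSet_Ioi]
    refine Filter.Eventually.of_forall ?_
    intro x hx
    have hx' : (0 : ℝ) < x := hx
    rw [Real.norm_of_nonneg (by positivity)]
    have hw : 0 ≤ Real.exp (-x) * x ^ (k - 1) := by positivity
    refine mul_le_mul_of_nonneg_right ?_ hw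
    rw [eval_mul, eval_X, eval_pow]
    refine mul_le_mul_of_nonneg_right ?_ (sq_nonneg _)
    rw [div_le_iff₀ (by positivity)]
    nlinarith

theorem key (k a : ℝ) (hk : 0 < k) (ha : 0 < a) (P : ℝ[X]) (hP : P ∈ Vodd k) :
    II k a (2 * derivative P - P) ≤ 5 / 2 * II k a P := by
  obtain ⟨s, c, hs, rfl⟩ := exists_comb k P hP
  have hlam : ∀ m, 0 < lam k m := fun m => by unfold lam; positivity
  set g : ℕ → ℝ := fun m => c m / (lam k m + a) with hg
  have hc : ∀ m, c m = (lam k m + a) * g m := fun m => by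
    have := hlam m
    rw [hg]; field_simp
  set G : ℝ[X] := comb k s g with hG
  set P2 : ℝ[X] := comb k s (fun m => lam k m * g m) with hP2
  have hPG : comb k s c = P2 + C a * G := by
    rw [hP2, hG]
    unfold comb
    rw [Finset.mul_sum, ← Finset.sum_add_distrib]
    refine Finset.sum_congr rfl ?_
    intro m _
    rw [hc m]
    simp only [map_mul, map_add]
    ring
  have hNG : 2 * Dl k G + C k * G = P2 := Dl_comb k s g
  have hNP2 : 2 * Dl k P2 + C k * P2 = comb k s (fun m => lam k m * (lam k m * g m)) :=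
    Dl_comb k s _
  -- the lower bound
  have low : Lf k (X * (comb k s c * comb k s c)) - a * Lf k (comb k s c * comb k s c)
      + a ^ 2 * (2 * Lf k (comb k s c * G) - (Lf k (X * (G * G)) + a * Lf k (G * G)))
      ≤ II k a (comb k s c) := by
    set P := comb k s c with hPdef
    have e : Lf k (X * (P * P)) - a * Lf k (P * P)
      + a ^ 2 * (2 * Lf k (P * G) - (Lf k (X * (G * G)) + a * Lf k (G * G))) =
      Lf k (X * (P * P) - a • (P * P) + (a ^ 2) • ((2 : ℝ) • (P * G) - (X * (G * G) + a • (G * G))))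
      := by
      simp only [map_add, map_sub, map_smul, smul_eq_mul]
    rw [e, Lf_eq k hk]
    unfold II
    refine setIntegral_mono_on (poly_integrable k hk _) (frac_integrable k a hk ha P)
      measurableSet_Ioi ?_
    intro x hx
    have hx' : (0 : ℝ) < x := hx
    have hw : 0 ≤ Real.exp (-x) * x ^ (k - 1) := by positivity
    refine mul_le_mul_of_nonneg_right ?_ hw
    simp only [eval_add, eval_sub, eval_mul, eval_smul, eval_X, smul_eq_mul]
    generalize P.eval x = p
    generalize G.eval x = q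
    have hxa : 0 < x + a := by positivity
    have e1 : x ^ 2 / (x + a) * p ^ 2 =
        x * (p * p) - a * (p * p) + a ^ 2 * (p ^ 2 / (x + a)) := by
      field_simp; ring
    rw [e1]
    have e2 : 2 * (p * q) - (x * (q * q) + a * (q * q)) ≤ p ^ 2 / (x + a) := by
      rw [le_div_iff₀ hxa]
      nlinarith [sq_nonneg (p - (x + a) * q)]
    have := mul_le_mul_of_nonneg_left e2 (sq_nonneg a)
    linarith
  -- the upper bound
  have up : II k a (2 * derivative (comb k s c) - comb k s c) ≤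
      2 * Lf k (X * (2 * derivative P2 - P2) ^ 2)
        + 2 * a * Lf k (X ^ 2 * (2 * derivative G - G) ^ 2) := by
    have e : 2 * Lf k (X * (2 * derivative P2 - P2) ^ 2)
        + 2 * a * Lf k (X ^ 2 * (2 * derivative G - G) ^ 2) =
        Lf k ((2 : ℝ) • (X * (2 * derivative P2 - P2) ^ 2)
          + (2 * a) • (X ^ 2 * (2 * derivative G - G) ^ 2)) := by
      simp only [map_add, map_smul, smul_eq_mul]
    rw [e, Lf_eq k hk]
    unfold II
    refine setIntegral_mono_on (frac_integrable k a hk ha _) (poly_integrable k hk _)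
      measurableSet_Ioi ?_
    intro x hx
    have hx' : (0 : ℝ) < x := hx
    have hw : 0 ≤ Real.exp (-x) * x ^ (k - 1) := by positivity
    refine mul_le_mul_of_nonneg_right ?_ hw
    have e3 : 2 * derivative (comb k s c) - comb k s c =
        (2 * derivative P2 - P2) + C a * (2 * derivative G - G) := by
      rw [hPG, derivative_add, derivative_mul, derivative_C]
      ring
    rw [e3]
    simp only [eval_add, eval_mul, eval_smul, eval_X, smul_eq_mul, eval_pow, eval_C]
    generalize (2 * derivative P2 - P2).eval x = A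
    generalize (2 * derivative G - G).eval x = D
    have hxa : 0 < x + a := by positivity
    rw [div_mul_eq_mul_div, div_le_iff₀ hxa]
    nlinarith [mul_nonneg (mul_nonneg hx'.le ha.le) (sq_nonneg A),
      mul_nonneg (mul_nonneg (sq_nonneg x) (mul_nonneg hx'.le ha.le)) (sq_nonneg D),
      mul_nonneg (sq_nonneg x) (sq_nonneg (A - a * D)), sq_nonneg x]
  have v1 : Lf k (X * (2 * derivative P2 - P2) ^ 2) =
      ∑ m ∈ s, lam k m ^ 3 * g m ^ 2 * hh k m := by
    rw [Lf_F2 k hk, hNP2, hP2, sq (comb k s fun m => lam k m * g m), Lf_comb_mul k hk,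
      Lf_X_comb_mul k hk s hs, Finset.mul_sum, ← Finset.sum_sub_distrib]
    refine Finset.sum_congr rfl ?_
    intro m _
    ring
  have v2 : Lf k (X ^ 2 * (2 * derivative G - G) ^ 2) ≤
      5 / 4 * ∑ m ∈ s, lam k m ^ 2 * g m ^ 2 * hh k m := by
    rw [Lf_F3 k hk, hNG]
    have h1 : 0 ≤ Lf k ((P2 - X * G) * (P2 - X * G)) := Lf_sq_nonneg k hk _
    have h2 : (P2 - X * G) * (P2 - X * G) =
        P2 * P2 - (2 : ℝ) • (X * G * P2) + X ^ 2 * G ^ 2 := by
      simp only [smul_eq_C_mul, map_ofNat]; ring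
    rw [h2, map_add, map_sub, map_smul, smul_eq_mul] at h1
    have h3 : Lf k (P2 * P2) + 2 * k * Lf k (G ^ 2) ≤
        5 / 4 * ∑ m ∈ s, lam k m ^ 2 * g m ^ 2 * hh k m := by
      rw [sq G, hP2, hG, Lf_comb_mul k hk, Lf_comb_mul k hk, Finset.mul_sum, Finset.mul_sum,
        ← Finset.sum_add_distrib]
      refine Finset.sum_le_sum ?_
      intro m hm
      have hm1 : (1 : ℝ) ≤ m := by exact_mod_cast (hs m hm).pos
      have hl : k + 2 ≤ lam k m := by unfold lam; linarith
      have h8 : 8 * k ≤ lam k m ^ 2 := by nlinarith [sq_nonneg (k - 2)]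
      have hhm := hh_nonneg k hk m
      have : 0 ≤ g m ^ 2 * hh k m := by positivity
      nlinarith [mul_le_mul_of_nonneg_right h8 this]
    linarith
  have w1 : Lf k (X * (comb k s c * comb k s c)) =
      ∑ m ∈ s, lam k m * (lam k m + a) ^ 2 * g m ^ 2 * hh k m := by
    rw [Lf_X_comb_mul k hk s hs]
    refine Finset.sum_congr rfl ?_
    intro m _
    rw [hc m]; ring
  have w2 : Lf k (comb k s c * comb k s c) =
      ∑ m ∈ s, (lam k m + a) ^ 2 * g m ^ 2 * hh k m := by
    rw [Lf_comb_mul k hk s]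
    refine Finset.sum_congr rfl ?_
    intro m _
    rw [hc m]; ring
  have w3 : Lf k (comb k s c * G) = ∑ m ∈ s, (lam k m + a) * g m ^ 2 * hh k m := by
    rw [hG, Lf_comb_mul k hk s]
    refine Finset.sum_congr rfl ?_
    intro m _
    rw [hc m]; ring
  have w4 : Lf k (X * (G * G)) = ∑ m ∈ s, lam k m * g m ^ 2 * hh k m := by
    rw [hG, Lf_X_comb_mul k hk s hs]
    refine Finset.sum_congr rfl ?_
    intro m _
    ring
  have w5 : Lf k (G * G) = ∑ m ∈ s, g m ^ 2 * hh k m := by
    rw [hG, Lf_comb_mul k hk s]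
    refine Finset.sum_congr rfl ?_
    intro m _
    ring
  have w6 : Lf k (X * (comb k s c * comb k s c)) - a * Lf k (comb k s c * comb k s c)
      + a ^ 2 * (2 * Lf k (comb k s c * G) - (Lf k (X * (G * G)) + a * Lf k (G * G))) =
      ∑ m ∈ s, (lam k m ^ 3 * g m ^ 2 * hh k m + a * (lam k m ^ 2 * g m ^ 2 * hh k m)) := by
    rw [w1, w2, w3, w4, w5]
    simp only [Finset.mul_sum, ← Finset.sum_sub_distrib, ← Finset.sum_add_distrib]
    refine Finset.sum_congr rfl ?_
    intro m _
    ring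
  rw [w6, Finset.sum_add_distrib, ← Finset.mul_sum] at low
  rw [v1] at up
  have hS3 : 0 ≤ ∑ m ∈ s, lam k m ^ 3 * g m ^ 2 * hh k m := by
    refine Finset.sum_nonneg ?_
    intro m _
    have := hlam m
    have := hh_nonneg k hk m
    positivity
  have : 2 * a * Lf k (X ^ 2 * (2 * derivative G - G) ^ 2) ≤
      2 * a * (5 / 4 * ∑ m ∈ s, lam k m ^ 2 * g m ^ 2 * hh k m) :=
    mul_le_mul_of_nonneg_left v2 (by positivity)
  nlinarith

/-! ### Change of variables -/

theorem cov {k L : ℝ} (hk : 0 < k) (hL : 0 < L) (Ψ : ℝ → ℝ) :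
    ∫ r in Ioi (0 : ℝ), Ψ (2 * L * r ^ (1 / k)) =
      (k * (2 * L) ^ (-k)) * ∫ x in Ioi (0 : ℝ), x ^ (k - 1) * Ψ x := by
  have h2L : 0 < 2 * L := by positivity
  have h1 := integral_comp_rpow_Ioi_of_pos (g := fun r : ℝ => Ψ (2 * L * r ^ (1 / k))) hk
  rw [← h1]
  have h2 : ∫ u in Ioi (0 : ℝ), (k * u ^ (k - 1)) • Ψ (2 * L * (u ^ k) ^ (1 / k)) =
      ∫ u in Ioi (0 : ℝ), (k * (2 * L) ^ (-(k - 1))) *
        ((fun x : ℝ => x ^ (k - 1) * Ψ x) (2 * L * u)) := by
    refine setIntegral_congr_fun measurableSet_Ioi ?_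
    intro u hu
    have hu' : (0 : ℝ) < u := hu
    show (k * u ^ (k - 1)) • Ψ (2 * L * (u ^ k) ^ (1 / k)) =
      (k * (2 * L) ^ (-(k - 1))) * ((2 * L * u) ^ (k - 1) * Ψ (2 * L * u))
    have e1 : (u ^ k) ^ (1 / k) = u := by
      rw [← Real.rpow_mul hu'.le, mul_one_div_cancel hk.ne', Real.rpow_one]
    have e2 : (2 * L * u) ^ (k - 1) = (2 * L) ^ (k - 1) * u ^ (k - 1) :=
      Real.mul_rpow h2L.le hu'.le
    have e3 : (2 * L) ^ (-(k - 1)) * (2 * L) ^ (k - 1) = 1 := by
      rw [← Real.rpow_add h2L]; simp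
    rw [e1, e2, smul_eq_mul]
    calc k * u ^ (k - 1) * Ψ (2 * L * u)
        = k * ((2 * L) ^ (-(k - 1)) * (2 * L) ^ (k - 1)) * u ^ (k - 1) * Ψ (2 * L * u) := by
          rw [e3]; ring
      _ = _ := by ring
  rw [h2, integral_const_mul,
    integral_comp_mul_left_Ioi (fun x : ℝ => x ^ (k - 1) * Ψ x) 0 h2L, mul_zero, smul_eq_mul]
  have e4 : (2 * L) ^ (-k) = (2 * L) ^ (-(k - 1)) * (2 * L)⁻¹ := by
    rw [← Real.rpow_neg_one (2 * L), ← Real.rpow_add h2L]
    congr 1
    ring
  rw [e4]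
  ring

/-- the coefficients of `rho` -/
noncomputable def cj (j : ℕ) : ℝ := (2 : ℝ) ^ ((j : ℝ) / 2) / (1 + (j : ℝ)) ^ 4

theorem cj_nonneg (j : ℕ) : 0 ≤ cj j := by unfold cj; positivity

/-- the shifts -/
noncomputable def aj (L : ℝ) (j : ℕ) : ℝ := 2 * L * (2 : ℝ) ^ (j : ℝ)

theorem aj_pos {L : ℝ} (hL : 0 < L) (j : ℕ) : 0 < aj L j := by unfold aj; positivity

/-- `rho` as a function of `x`. -/
noncomputable def R (L x : ℝ) : ℝ := ∑' j : ℕ, cj j * (x / (x + aj L j))

theorem rho_eq {k L r : ℝ} (hL : 0 < L) (hr : 0 < r) :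
    rho k r = R L (2 * L * r ^ (1 / k)) := by
  unfold rho R
  refine tsum_congr ?_
  intro j
  have hu : 0 < r ^ (1 / k) := by positivity
  have hp : (0 : ℝ) < (2 : ℝ) ^ (j : ℝ) := by positivity
  unfold cj aj
  congr 1
  field_simp

theorem cj_div_le (j : ℕ) : cj j / (2 : ℝ) ^ (j : ℝ) ≤ ((2 : ℝ) ^ (-(1 / 2 : ℝ))) ^ j := by
  unfold cj
  rw [← Real.rpow_natCast ((2 : ℝ) ^ (-(1 / 2 : ℝ))), ← Real.rpow_mul (by norm_num)]
  have e : (2 : ℝ) ^ (-(1 / 2 : ℝ) * (j : ℝ)) = (2 : ℝ) ^ ((j : ℝ) / 2) / (2 : ℝ) ^ (j : ℝ) := by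
    rw [← Real.rpow_sub (by norm_num)]
    congr 1
    ring
  rw [e]
  refine div_le_div_of_nonneg_right ?_ (by positivity)
  refine div_le_self (by positivity) ?_
  have : (0 : ℝ) ≤ j := Nat.cast_nonneg j
  exact one_le_pow₀ (by linarith)

theorem summable_cj : Summable (fun j : ℕ => cj j / (2 : ℝ) ^ (j : ℝ)) := by
  refine Summable.of_nonneg_of_le (fun j => ?_) cj_div_le ?_
  · have := cj_nonneg j
    positivity
  · refine summable_geometric_of_lt_one (by positivity) ?_
    exact Real.rpow_lt_one_of_one_lt_of_neg (by norm_num) (by norm_num)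

theorem II_nonneg {k a : ℝ} (ha : 0 < a) (Q : ℝ[X]) : 0 ≤ II k a Q := by
  unfold II
  refine setIntegral_nonneg measurableSet_Ioi ?_
  intro x hx
  have hx' : (0 : ℝ) < x := hx
  positivity

theorem II_le {k a : ℝ} (hk : 0 < k) (ha : 0 < a) (Q : ℝ[X]) :
    II k a Q ≤ a⁻¹ * Lf k (X ^ 2 * Q ^ 2) := by
  have e : a⁻¹ * Lf k (X ^ 2 * Q ^ 2) = Lf k (a⁻¹ • (X ^ 2 * Q ^ 2)) := by
    rw [map_smul, smul_eq_mul]
  rw [e, Lf_eq k hk]
  unfold II
  refine setIntegral_mono_on (frac_integrable k a hk ha Q) (poly_integrable k hk _)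
    measurableSet_Ioi ?_
  intro x hx
  have hx' : (0 : ℝ) < x := hx
  have hw : 0 ≤ Real.exp (-x) * x ^ (k - 1) := by positivity
  refine mul_le_mul_of_nonneg_right ?_ hw
  simp only [eval_mul, eval_smul, eval_X, smul_eq_mul, eval_pow]
  rw [← mul_assoc]
  refine mul_le_mul_of_nonneg_right ?_ (sq_nonneg _)
  rw [div_eq_inv_mul]
  refine mul_le_mul_of_nonneg_right ?_ (sq_nonneg _)
  exact inv_anti₀ ha (by linarith)

theorem summable_II {k L : ℝ} (hk : 0 < k) (hL : 0 < L) (Q : ℝ[X]) :
    Summable (fun j : ℕ => cj j * II k (aj L j) Q) := by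
  have h := summable_cj.mul_right ((2 * L)⁻¹ * Lf k (X ^ 2 * Q ^ 2))
  refine Summable.of_nonneg_of_le (fun j => ?_) (fun j => ?_) h
  · exact mul_nonneg (cj_nonneg j) (II_nonneg (aj_pos hL j) Q)
  · calc cj j * II k (aj L j) Q ≤ cj j * ((aj L j)⁻¹ * Lf k (X ^ 2 * Q ^ 2)) :=
        mul_le_mul_of_nonneg_left (II_le hk (aj_pos hL j) Q) (cj_nonneg j)
      _ = cj j / (2 : ℝ) ^ (j : ℝ) * ((2 * L)⁻¹ * Lf k (X ^ 2 * Q ^ 2)) := by
        unfold aj
        rw [mul_inv]
        ring

theorem sum_int {k L : ℝ} (hk : 0 < k) (hL : 0 < L) (Q : ℝ[X]) :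
    ∫ x in Ioi (0 : ℝ), x ^ (k - 1) * (x * R L x * (Q.eval x) ^ 2 * Real.exp (-x)) =
      ∑' j : ℕ, cj j * II k (aj L j) Q := by
  have h1 := hasSum_integral_of_summable_integral_norm (μ := volume.restrict (Ioi (0 : ℝ)))
    (F := fun (j : ℕ) (x : ℝ) => cj j * (x ^ 2 / (x + aj L j) * (Q.eval x) ^ 2 *
      (Real.exp (-x) * x ^ (k - 1))))
    (fun j => Integrable.const_mul (frac_integrable k (aj L j) hk (aj_pos hL j) Q) (cj j)) ?_
  · have h2 := h1.tsum_eq
    have h3 : (∑' j : ℕ, ∫ x in Ioi (0 : ℝ), cj j * (x ^ 2 / (x + aj L j) * (Q.eval x) ^ 2 *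
      (Real.exp (-x) * x ^ (k - 1)))) = ∑' j : ℕ, cj j * II k (aj L j) Q := by
      refine tsum_congr ?_
      intro j
      rw [integral_const_mul]
      rfl
    rw [← h3, h2]
    refine setIntegral_congr_fun measurableSet_Ioi ?_
    intro x hx
    have hx' : (0 : ℝ) < x := hx
    show x ^ (k - 1) * (x * R L x * (Q.eval x) ^ 2 * Real.exp (-x)) =
      ∑' j : ℕ, cj j * (x ^ 2 / (x + aj L j) * (Q.eval x) ^ 2 * (Real.exp (-x) * x ^ (k - 1)))
    unfold R
    have e : x ^ (k - 1) * (x * (∑' j : ℕ, cj j * (x / (x + aj L j))) * (Q.eval x) ^ 2 *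
        Real.exp (-x)) = (∑' j : ℕ, cj j * (x / (x + aj L j))) *
          (x * x ^ (k - 1) * (Q.eval x) ^ 2 * Real.exp (-x)) := by ring
    rw [e, ← tsum_mul_right]
    refine tsum_congr ?_
    intro j
    ring
  · have h4 : (fun j : ℕ => ∫ x in Ioi (0 : ℝ), ‖cj j * (x ^ 2 / (x + aj L j) * (Q.eval x) ^ 2 *
      (Real.exp (-x) * x ^ (k - 1)))‖) = fun j : ℕ => cj j * II k (aj L j) Q := by
      funext j
      unfold II
      rw [← integral_const_mul]
      refine setIntegral_congr_fun measurableSet_Ioi ?_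
      intro x hx
      have hx' : (0 : ℝ) < x := hx
      have h5 := cj_nonneg j
      have h6 := aj_pos hL j
      refine Real.norm_of_nonneg ?_
      positivity
    exact h4 ▸ summable_II hk hL Q

/-! ### Decay -/

theorem poly_exp_bdd {L : ℝ} (hL : 0 < L) (T : ℝ[X]) :
    ∃ C : ℝ, 0 ≤ C ∧ ∀ u : ℝ, 0 ≤ u → |T.eval u| * Real.exp (-(L * u)) ≤ C := by
  induction T using Polynomial.induction_on' with
  | add P Q hP hQ =>
    obtain ⟨C, hC0, hC⟩ := hP
    obtain ⟨D, hD0, hD⟩ := hQ
    refine ⟨C + D, by positivity, fun u hu => ?_⟩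
    have h1 := hC u hu
    have h2 := hD u hu
    have h3 : |(P + Q).eval u| ≤ |P.eval u| + |Q.eval u| := by
      rw [eval_add]; exact abs_add_le _ _
    nlinarith [Real.exp_pos (-(L * u))]
  | monomial n c =>
    refine ⟨|c| * (n.factorial / L ^ n), by positivity, fun u hu => ?_⟩
    rw [eval_monomial, abs_mul, abs_pow, abs_of_nonneg hu]
    have h1 := Real.pow_div_factorial_le_exp (L * u) (by positivity) n
    rw [mul_assoc]
    refine mul_le_mul_of_nonneg_left ?_ (abs_nonneg c)
    rw [Real.exp_neg, mul_pow] at *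
    have hfac : (0 : ℝ) < n.factorial := by exact_mod_cast n.factorial_pos
    rw [div_le_iff₀ hfac] at h1
    rw [← div_eq_mul_inv, div_le_div_iff₀ (Real.exp_pos _) (by positivity)]
    nlinarith

theorem decay_aux {k L : ℝ} (hk : 1 < k) (hL : 0 < L) (Q : ℝ[X]) (N : ℕ) :
    ∃ C : ℝ, 0 ≤ C ∧ ∀ r : ℝ, 0 < r →
      |Q.eval (2 * L * r ^ (1 / k)) * Real.exp (-(L * r ^ (1 / k)))| ≤
        C * (1 + r) ^ (-(N : ℝ)) := by
  set M : ℕ := ⌈k⌉₊ * N with hM
  obtain ⟨C, hC0, hC⟩ := poly_exp_bdd hL (Q.comp (C (2 * L) * X) * (1 + X) ^ M)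
  refine ⟨C, hC0, fun r hr => ?_⟩
  have hu : 0 < r ^ (1 / k) := by positivity
  set u := r ^ (1 / k) with hudef
  have h1 := hC u hu.le
  simp only [eval_mul, eval_comp, eval_C, eval_X, eval_pow, eval_add, eval_one] at h1
  have h2 : (1 + r) ^ (N : ℝ) ≤ (1 + u) ^ M := by
    have e1 : r = u ^ k := by
      rw [hudef, ← Real.rpow_mul hr.le, one_div_mul_cancel (by linarith), Real.rpow_one]
    have e2 : 1 + r ≤ (1 + u) ^ k := by
      have := Real.add_rpow_le_rpow_add (a := 1) (b := u) zero_le_one hu.le hk.le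
      rw [Real.one_rpow, ← e1] at this
      exact this
    calc (1 + r) ^ (N : ℝ) ≤ ((1 + u) ^ k) ^ (N : ℝ) :=
          Real.rpow_le_rpow (by positivity) e2 (by positivity)
      _ = (1 + u) ^ (k * N) := by rw [← Real.rpow_mul (by positivity)]
      _ ≤ (1 + u) ^ (M : ℝ) := by
          refine Real.rpow_le_rpow_of_exponent_le (by linarith) ?_
          rw [hM]
          push_cast
          exact mul_le_mul_of_nonneg_right (Nat.le_ceil k) (Nat.cast_nonneg N)
      _ = (1 + u) ^ M := Real.rpow_natCast _ _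
  rw [Real.rpow_neg (by positivity), ← div_eq_mul_inv, le_div_iff₀ (by positivity), abs_mul,
    Real.abs_exp]
  rw [abs_mul, abs_of_nonneg (show (0 : ℝ) ≤ (1 + u) ^ M by positivity)] at h1
  calc |Q.eval (2 * L * u)| * Real.exp (-(L * u)) * (1 + r) ^ (N : ℝ)
      ≤ |Q.eval (2 * L * u)| * Real.exp (-(L * u)) * (1 + u) ^ M :=
        mul_le_mul_of_nonneg_left h2 (by positivity)
    _ = |Q.eval (2 * L * u)| * (1 + u) ^ M * Real.exp (-(L * u)) := by ring
    _ ≤ C := h1

end A1

open A1 in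
/-- **A1.** -/
theorem good_phi {k L : ℝ} (hk : 1 < k) (hL : 0 < L) {P : ℝ[X]} (hP : P ∈ Vodd k) :
    Good k (L / k) (phi k L P) (phi' k L P) := by
  have hk0 : 0 < k := by linarith
  refine ⟨?_, ?_, ?_, ?_⟩
  · intro r hr
    have h1 : HasDerivAt (fun r : ℝ => r ^ (1 / k)) ((1 / k) * r ^ (1 / k - 1)) r :=
      Real.hasDerivAt_rpow_const (Or.inl hr.ne')
    have h2 : HasDerivAt (fun r : ℝ => 2 * L * r ^ (1 / k))
        (2 * L * ((1 / k) * r ^ (1 / k - 1))) r := h1.const_mul (2 * L)
    have h3 : HasDerivAt (fun r : ℝ => P.eval (2 * L * r ^ (1 / k)))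
        ((derivative P).eval (2 * L * r ^ (1 / k)) * (2 * L * ((1 / k) * r ^ (1 / k - 1)))) r :=
      HasDerivAt.comp (h := fun r : ℝ => 2 * L * r ^ (1 / k)) (h₂ := fun x : ℝ => P.eval x) r
        (P.hasDerivAt (2 * L * r ^ (1 / k))) h2
    have h4 : HasDerivAt (fun r : ℝ => Real.exp (-(L * r ^ (1 / k))))
        (Real.exp (-(L * r ^ (1 / k))) * (-(L * ((1 / k) * r ^ (1 / k - 1))))) r :=
      ((h1.const_mul L).neg).exp
    have h5 := h3.mul h4
    refine h5.congr_deriv ?_
    unfold phi'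
    simp only [eval_sub, eval_mul, eval_ofNat]
    field_simp
    ring
  · unfold phi'
    intro r hr
    have hr' : (0 : ℝ) < r := hr
    refine ContinuousAt.continuousWithinAt ?_
    have c1 : ContinuousAt (fun r : ℝ => r ^ (1 / k)) r :=
      Real.continuousAt_rpow_const r (1 / k) (Or.inl hr'.ne')
    have c2 : ContinuousAt (fun r : ℝ => r ^ (1 / k - 1)) r :=
      Real.continuousAt_rpow_const r (1 / k - 1) (Or.inl hr'.ne')
    have c3 : ContinuousAt (fun r : ℝ => (2 * derivative P - P).eval (2 * L * r ^ (1 / k))) r :=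
      ContinuousAt.comp (f := fun r : ℝ => 2 * L * r ^ (1 / k))
        (g := fun x : ℝ => (2 * derivative P - P).eval x)
        ((2 * derivative P - P).continuous.continuousAt) (c1.const_mul (2 * L))
    have c4 : ContinuousAt (fun r : ℝ => Real.exp (-(L * r ^ (1 / k)))) r :=
      ((c1.const_mul L).neg).rexp
    exact (c2.const_mul (L / k)).mul (c3.mul c4)
  · intro N
    obtain ⟨C, hC0, hC⟩ := decay_aux hk hL P N
    obtain ⟨D, hD0, hD⟩ := decay_aux hk hL (2 * derivative P - P) N
    refine ⟨max C (L / k * D), fun r hr => ⟨?_, ?_⟩⟩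
    · exact (hC r hr).trans (mul_le_mul_of_nonneg_right (le_max_left _ _) (by positivity))
    · unfold phi'
      rw [abs_mul, abs_of_nonneg (show 0 ≤ (L / k) * r ^ (1 / k - 1) by positivity)]
      calc (L / k) * r ^ (1 / k - 1) * |(2 * derivative P - P).eval (2 * L * r ^ (1 / k)) *
            Real.exp (-(L * r ^ (1 / k)))|
          ≤ (L / k) * r ^ (1 / k - 1) * (D * (1 + r) ^ (-(N : ℝ))) :=
            mul_le_mul_of_nonneg_left (hD r hr) (by positivity)
        _ = L / k * D * (r ^ (1 / k - 1) * (1 + r) ^ (-(N : ℝ))) := by ring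
        _ ≤ max C (L / k * D) * (r ^ (1 / k - 1) * (1 + r) ^ (-(N : ℝ))) :=
            mul_le_mul_of_nonneg_right (le_max_right _ _) (by positivity)
        _ = _ := by ring
  · -- the inequality
    have hgen : ∀ Q : ℝ[X], ∫ r in Ioi (0 : ℝ), r ^ (1 / k) * rho k r *
        (Q.eval (2 * L * r ^ (1 / k)) * Real.exp (-(L * r ^ (1 / k)))) ^ 2 =
        (k * (2 * L) ^ (-k)) * ((2 * L)⁻¹ * ∑' j : ℕ, cj j * II k (aj L j) Q) := by
      intro Q
      rw [← sum_int hk0 hL, ← integral_const_mul]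
      have h1 := cov hk0 hL (fun x => (2 * L)⁻¹ * (x * R L x * (Q.eval x) ^ 2 * Real.exp (-x)))
      have h2 : ∫ r in Ioi (0 : ℝ), r ^ (1 / k) * rho k r *
          (Q.eval (2 * L * r ^ (1 / k)) * Real.exp (-(L * r ^ (1 / k)))) ^ 2 =
          ∫ r in Ioi (0 : ℝ), (fun x => (2 * L)⁻¹ * (x * R L x * (Q.eval x) ^ 2 * Real.exp (-x)))
            (2 * L * r ^ (1 / k)) := by
        refine setIntegral_congr_fun measurableSet_Ioi ?_
        intro r hr
        have hr' : (0 : ℝ) < r := hr
        show r ^ (1 / k) * rho k r *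
          (Q.eval (2 * L * r ^ (1 / k)) * Real.exp (-(L * r ^ (1 / k)))) ^ 2 =
          (2 * L)⁻¹ * ((2 * L * r ^ (1 / k)) * R L (2 * L * r ^ (1 / k)) *
            (Q.eval (2 * L * r ^ (1 / k))) ^ 2 * Real.exp (-(2 * L * r ^ (1 / k))))
        rw [rho_eq (k := k) hL hr', mul_pow, ← Real.exp_nat_mul]
        have e1 : ((2 : ℕ) : ℝ) * -(L * r ^ (1 / k)) = -(2 * L * r ^ (1 / k)) := by
          push_cast; ring
        rw [e1]
        field_simp
      rw [h2, h1]
      congr 1
      refine setIntegral_congr_fun measurableSet_Ioi ?_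
      intro x _
      ring
    have hl : ∫ r in Ioi (0 : ℝ), r ^ (2 - 1 / k) * rho k r * (phi' k L P r) ^ 2 =
        (L / k) ^ 2 * ∫ r in Ioi (0 : ℝ), r ^ (1 / k) * rho k r *
        ((2 * derivative P - P).eval (2 * L * r ^ (1 / k)) *
          Real.exp (-(L * r ^ (1 / k)))) ^ 2 := by
      rw [← integral_const_mul]
      refine setIntegral_congr_fun measurableSet_Ioi ?_
      intro r hr
      have hr' : (0 : ℝ) < r := hr
      have e1 : r ^ (2 - 1 / k) * (r ^ (1 / k - 1)) ^ 2 = r ^ (1 / k) := by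
        rw [← Real.rpow_natCast, ← Real.rpow_mul hr'.le, ← Real.rpow_add hr']
        congr 1
        push_cast
        ring
      show r ^ (2 - 1 / k) * rho k r * (phi' k L P r) ^ 2 =
        (L / k) ^ 2 * (r ^ (1 / k) * rho k r *
        ((2 * derivative P - P).eval (2 * L * r ^ (1 / k)) *
          Real.exp (-(L * r ^ (1 / k)))) ^ 2)
      unfold phi'
      generalize (2 * derivative P - P).eval (2 * L * r ^ (1 / k)) *
          Real.exp (-(L * r ^ (1 / k))) = y
      rw [← e1]
      ring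
    have hr : ∫ r in Ioi (0 : ℝ), r ^ (1 / k) * rho k r * (phi k L P r) ^ 2 =
        ∫ r in Ioi (0 : ℝ), r ^ (1 / k) * rho k r *
        (P.eval (2 * L * r ^ (1 / k)) * Real.exp (-(L * r ^ (1 / k)))) ^ 2 := rfl
    rw [hl, hr, hgen, hgen]
    have hsum : ∑' j : ℕ, cj j * II k (aj L j) (2 * derivative P - P) ≤
        5 / 2 * ∑' j : ℕ, cj j * II k (aj L j) P := by
      rw [← tsum_mul_left]
      refine Summable.tsum_le_tsum (fun j => ?_) (summable_II hk0 hL _)
        ((summable_II hk0 hL P).mul_left _)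
      have h1 := key k (aj L j) hk0 (aj_pos hL j) P hP
      have h2 := mul_le_mul_of_nonneg_left h1 (cj_nonneg j)
      linarith
    have hA : 0 ≤ (L / k) ^ 2 * ((k * (2 * L) ^ (-k)) * (2 * L)⁻¹) := by positivity
    have := mul_le_mul_of_nonneg_left hsum hA
    calc (L / k) ^ 2 * (k * (2 * L) ^ (-k) *
          ((2 * L)⁻¹ * ∑' j : ℕ, cj j * II k (aj L j) (2 * derivative P - P)))
        = (L / k) ^ 2 * (k * (2 * L) ^ (-k) * (2 * L)⁻¹) *
          ∑' j : ℕ, cj j * II k (aj L j) (2 * derivative P - P) := by ring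
      _ ≤ _ := this
      _ = _ := by ring

end Pool.Agent.Lib.MP_0bb3d8_nt
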