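import Pool.Agent.Lib.MP_0bb3d8_nt.DefsA

/-!
# A3: elementary facts on the weight `rho`
-/

set_option autoImplicit false

open Real MeasureTheory Polynomial Set

namespace Pool.Agent.Lib.MP_0bb3d8_nt

/-- The `j`-th term of `rho`, as a function of `u = r^{1/k}`. -/
noncomputable def rt (j : ℕ) (u : ℝ) : ℝ :=
  ((2 : ℝ) ^ ((j : ℝ) / 2) / (1 + (j : ℝ)) ^ 4) * (u / (u + (2 : ℝ) ^ (j : ℝ)))

theorem rho_eq (k r : ℝ) : rho k r = ∑' j : ℕ, rt j (r ^ (1 / k)) := rfl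

theorem rt_nonneg (j : ℕ) {u : ℝ} (hu : 0 ≤ u) : 0 ≤ rt j u := by
  unfold rt; positivity

theorem rt_pos (j : ℕ) {u : ℝ} (hu : 0 < u) : 0 < rt j u := by
  unfold rt; positivity

theorem theta_lt_one : (2 : ℝ) ^ (-(1 / 2 : ℝ)) < 1 :=
  Real.rpow_lt_one_of_one_lt_of_neg (by norm_num) (by norm_num)

theorem theta_pos : 0 < (2 : ℝ) ^ (-(1 / 2 : ℝ)) := by positivity

theorem rt_le (j : ℕ) {u : ℝ} (hu : 0 < u) : rt j u ≤ u * ((2 : ℝ) ^ (-(1 / 2 : ℝ))) ^ j := by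
  unfold rt
  have h1 : u / (u + (2 : ℝ) ^ (j : ℝ)) ≤ u / (2 : ℝ) ^ (j : ℝ) := by
    apply div_le_div_of_nonneg_left hu.le (by positivity) (by linarith)
  have h2 : (2 : ℝ) ^ ((j : ℝ) / 2) / (1 + (j : ℝ)) ^ 4 ≤ (2 : ℝ) ^ ((j : ℝ) / 2) := by
    apply div_le_self (by positivity)
    exact one_le_pow₀ (by linarith [Nat.cast_nonneg (α := ℝ) j])
  calc _ ≤ (2 : ℝ) ^ ((j : ℝ) / 2) * (u / (2 : ℝ) ^ (j : ℝ)) :=
        mul_le_mul h2 h1 (by positivity) (by positivity)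
    _ = u * ((2 : ℝ) ^ (-(1 / 2 : ℝ))) ^ j := by
      rw [← Real.rpow_natCast, ← Real.rpow_mul (by norm_num), div_eq_mul_inv u,
        ← Real.rpow_neg (by norm_num), mul_left_comm, ← Real.rpow_add (by norm_num)]
      congr 2; ring

theorem summable_theta : Summable fun j : ℕ => ((2 : ℝ) ^ (-(1 / 2 : ℝ))) ^ j :=
  summable_geometric_of_lt_one theta_pos.le theta_lt_one

theorem rt_summable {u : ℝ} (hu : 0 < u) : Summable fun j : ℕ => rt j u :=
  Summable.of_nonneg_of_le (fun j => rt_nonneg j hu.le) (fun j => rt_le j hu)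
    (summable_theta.mul_left u)

theorem rho_pos {k r : ℝ} (_hk : 1 < k) (hr : 0 < r) : 0 < rho k r := by
  rw [rho_eq]
  have hu : 0 < r ^ (1 / k) := Real.rpow_pos_of_pos hr _
  exact (rt_summable hu).tsum_pos (fun j => rt_nonneg j hu.le) 0 (rt_pos 0 hu)

theorem rt_mono (j : ℕ) {u v : ℝ} (hu : 0 < u) (huv : u ≤ v) : rt j u ≤ rt j v := by
  unfold rt
  have h : (0 : ℝ) < (2 : ℝ) ^ (j : ℝ) := by positivity
  have hv : 0 < v := lt_of_lt_of_le hu huv
  apply mul_le_mul_of_nonneg_left _ (by positivity)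
  rw [div_le_div_iff₀ (by positivity) (by positivity)]
  nlinarith

theorem rho_mono {k : ℝ} (hk : 1 < k) : MonotoneOn (rho k) (Ioi 0) := by
  intro r hr s hs hrs
  have hr' : (0 : ℝ) < r := hr
  have hs' : (0 : ℝ) < s := hs
  have hu : 0 < r ^ (1 / k) := Real.rpow_pos_of_pos hr' _
  have hv : 0 < s ^ (1 / k) := Real.rpow_pos_of_pos hs' _
  rw [rho_eq, rho_eq]
  exact (rt_summable hu).tsum_le_tsum
    (fun j => rt_mono j hu (Real.rpow_le_rpow hr'.le hrs (by positivity))) (rt_summable hv)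

theorem rho_cont {k : ℝ} (hk : 1 < k) : ContinuousOn (rho k) (Ioi 0) := by
  intro r₀ hr₀
  have hr₀' : (0 : ℝ) < r₀ := hr₀
  apply ContinuousAt.continuousWithinAt
  have hopen : Ioo (0 : ℝ) (r₀ + 1) ∈ nhds r₀ := Ioo_mem_nhds hr₀' (by linarith)
  refine ContinuousOn.continuousAt ?_ hopen
  have : rho k = fun r => ∑' j : ℕ, rt j (r ^ (1 / k)) := by
    funext r; exact rho_eq k r
  rw [this]
  refine continuousOn_tsum (u := fun j => (r₀ + 1) ^ (1 / k) * ((2 : ℝ) ^ (-(1 / 2 : ℝ))) ^ j)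
    ?_ (summable_theta.mul_left _) ?_
  · intro j
    have hc : ContinuousOn (fun r : ℝ => r ^ (1 / k)) (Ioo (0 : ℝ) (r₀ + 1)) := by
      intro r hr
      exact (Real.continuousAt_rpow_const _ _ (Or.inl hr.1.ne')).continuousWithinAt
    unfold rt
    refine ContinuousOn.mul continuousOn_const (ContinuousOn.div hc (hc.add continuousOn_const) ?_)
    intro r hr
    have : 0 < r ^ (1 / k) := Real.rpow_pos_of_pos hr.1 _
    positivity
  · intro j r hr
    have hu : 0 < r ^ (1 / k) := Real.rpow_pos_of_pos hr.1 _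
    rw [Real.norm_of_nonneg (rt_nonneg j hu.le)]
    refine (rt_le j hu).trans ?_
    apply mul_le_mul_of_nonneg_right _ (by positivity)
    exact Real.rpow_le_rpow hr.1.le hr.2.le (by positivity)

/-- The constant `Σ 2^{-j/2}`. -/
noncomputable def Kθ : ℝ := ∑' j : ℕ, ((2 : ℝ) ^ (-(1 / 2 : ℝ))) ^ j

theorem Kθ_pos : 0 < Kθ :=
  summable_theta.tsum_pos (fun j => by positivity) 0 (by simp)

/-- Global upper bound `rho k r ≤ K r^{1/k}`. -/
theorem rho_le_u {k r : ℝ} (hr : 0 < r) : rho k r ≤ Kθ * r ^ (1 / k) := by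
  have hu : 0 < r ^ (1 / k) := Real.rpow_pos_of_pos hr _
  rw [rho_eq]
  calc ∑' j : ℕ, rt j (r ^ (1 / k)) ≤ ∑' j : ℕ, r ^ (1 / k) * ((2 : ℝ) ^ (-(1 / 2 : ℝ))) ^ j :=
        (rt_summable hu).tsum_le_tsum (fun j => rt_le j hu) (summable_theta.mul_left _)
    _ = Kθ * r ^ (1 / k) := by rw [tsum_mul_left, Kθ, mul_comm]

theorem rho_small {k : ℝ} (hk : 1 < k) : ∃ c C : ℝ, 0 < c ∧ 0 < C ∧ ∀ r : ℝ, 0 < r → r ≤ 1 →
    c * r ^ (1 / k) ≤ rho k r ∧ rho k r ≤ C * r ^ (1 / k) := by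
  refine ⟨1 / 2, Kθ, by norm_num, Kθ_pos, fun r hr hr1 => ⟨?_, rho_le_u hr⟩⟩
  have hu : 0 < r ^ (1 / k) := Real.rpow_pos_of_pos hr _
  have hu1 : r ^ (1 / k) ≤ 1 := Real.rpow_le_one hr.le hr1 (by positivity)
  rw [rho_eq]
  have h0 : 1 / 2 * r ^ (1 / k) ≤ rt 0 (r ^ (1 / k)) := by
    unfold rt
    simp only [Nat.cast_zero, zero_div, Real.rpow_zero, add_zero, one_pow, div_one, one_mul]
    rw [le_div_iff₀ (by positivity)]
    nlinarith
  refine h0.trans ?_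
  exact (rt_summable hu).le_tsum 0 (fun j _ => rt_nonneg j hu.le)

theorem rho_double {k : ℝ} (hk : 1 < k) : ∀ r : ℝ, 0 < r → rho k (2 * r) ≤ 2 * rho k r := by
  intro r hr
  have hu : 0 < r ^ (1 / k) := Real.rpow_pos_of_pos hr _
  have hv : 0 < (2 * r) ^ (1 / k) := Real.rpow_pos_of_pos (by positivity) _
  rw [rho_eq, rho_eq, ← tsum_mul_left]
  refine (rt_summable hv).tsum_le_tsum (fun j => ?_) ((rt_summable hu).mul_left 2)
  have h2 : (2 * r) ^ (1 / k) = 2 ^ (1 / k) * r ^ (1 / k) := Real.mul_rpow (by norm_num) hr.le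
  have h3 : (1 : ℝ) ≤ 2 ^ (1 / k) := Real.one_le_rpow (by norm_num) (by positivity)
  have h4 : (2 : ℝ) ^ (1 / k) ≤ 2 := by
    calc (2 : ℝ) ^ (1 / k) ≤ 2 ^ (1 : ℝ) := by
          apply Real.rpow_le_rpow_of_exponent_le (by norm_num)
          rw [div_le_one (by linarith)]; exact hk.le
      _ = 2 := by norm_num
  have h5 : (0 : ℝ) < (2 : ℝ) ^ (j : ℝ) := by positivity
  rw [h2]
  unfold rt
  rw [mul_left_comm]
  apply mul_le_mul_of_nonneg_left _ (by positivity)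
  rw [← mul_div_assoc]
  apply div_le_div₀ (by positivity) _ (by positivity) _
  · nlinarith
  · nlinarith


/-- The constant `Σ 2^{-i/2} (1+i)^4`. -/
theorem summable_b : Summable fun i : ℕ => ((2 : ℝ) ^ (-(1 / 2 : ℝ))) ^ i * (1 + (i : ℝ)) ^ 4 := by
  have h := summable_pow_mul_geometric_of_norm_lt_one (R := ℝ) 4
    (r := (2 : ℝ) ^ (-(1 / 2 : ℝ))) (by
      rw [Real.norm_of_nonneg theta_pos.le]; exact theta_lt_one)
  have h1 := (summable_nat_add_iff 1).mpr h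
  have h2 := h1.mul_left (((2 : ℝ) ^ (-(1 / 2 : ℝ)))⁻¹)
  refine h2.congr fun i => ?_
  have : ((2 : ℝ) ^ (-(1 / 2 : ℝ))) ≠ 0 := theta_pos.ne'
  rw [pow_succ]
  push_cast
  field_simp
  ring

noncomputable def Kb : ℝ := ∑' i : ℕ, ((2 : ℝ) ^ (-(1 / 2 : ℝ))) ^ i * (1 + (i : ℝ)) ^ 4

theorem Kb_pos : 0 < Kb :=
  summable_b.tsum_pos (fun j => by positivity) 0 (by simp)

theorem theta_sq : ((2 : ℝ) ^ (-(1 / 2 : ℝ))) ^ 2 = 1 / 2 := by
  rw [← Real.rpow_natCast, ← Real.rpow_mul (by norm_num)]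
  norm_num

theorem two_half_pow (j : ℕ) : (2 : ℝ) ^ ((j : ℝ) / 2) * ((2 : ℝ) ^ (-(1 / 2 : ℝ))) ^ j = 1 := by
  rw [← Real.rpow_natCast, ← Real.rpow_mul (by norm_num), ← Real.rpow_add (by norm_num)]
  have : (j : ℝ) / 2 + -(1 / 2) * (j : ℝ) = 0 := by ring
  rw [this, Real.rpow_zero]

theorem sum_rt_bounds {u : ℝ} {J : ℕ} (h1 : (2 : ℝ) ^ J ≤ u) (h2 : u < (2 : ℝ) ^ (J + 1)) :
    (1 / 4) * (u ^ (1 / 2 : ℝ) / (1 + (J : ℝ)) ^ 4) ≤ ∑' j : ℕ, rt j u ∧
    ∑' j : ℕ, rt j u ≤ (Kb + 2 * Kθ) * (u ^ (1 / 2 : ℝ) / (1 + (J : ℝ)) ^ 4) := by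
  have hu : 0 < u := lt_of_lt_of_le (by positivity) h1
  set s : ℝ := u ^ (1 / 2 : ℝ) with hs
  have hs0 : 0 < s := Real.rpow_pos_of_pos hu _
  have hs2 : s ^ 2 = u := by
    rw [hs, ← Real.rpow_natCast, ← Real.rpow_mul hu.le]; norm_num
  set t : ℝ := (2 : ℝ) ^ ((J : ℝ) / 2) with ht
  have ht0 : 0 < t := by positivity
  have ht2 : t ^ 2 = (2 : ℝ) ^ J := by
    rw [ht, ← Real.rpow_natCast, ← Real.rpow_mul (by norm_num)]
    rw [← Real.rpow_natCast]; congr 1; push_cast; ring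
  have hts : t ≤ s := by
    apply le_of_sq_le_sq _ hs0.le
    rw [ht2, hs2]; exact h1
  have hst : s ≤ 2 * t := by
    apply le_of_sq_le_sq _ (by positivity)
    rw [mul_pow, ht2, hs2]
    have : (2 : ℝ) ^ (J + 1) = 2 * 2 ^ J := by ring
    have h3 : (0 : ℝ) < 2 ^ J := by positivity
    nlinarith
  constructor
  · have h3 : (1 / 4) * (s / (1 + (J : ℝ)) ^ 4) ≤ rt J u := by
      unfold rt
      have h4 : (1 : ℝ) / 2 ≤ u / (u + (2 : ℝ) ^ (J : ℝ)) := by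
        rw [Real.rpow_natCast, div_le_div_iff₀ (by norm_num) (by positivity)]
        linarith
      calc (1 / 4) * (s / (1 + (J : ℝ)) ^ 4) = (s / 2) / (1 + (J : ℝ)) ^ 4 * (1 / 2) := by ring
        _ ≤ t / (1 + (J : ℝ)) ^ 4 * (u / (u + (2 : ℝ) ^ (J : ℝ))) := by
          apply mul_le_mul _ h4 (by norm_num) (by positivity)
          apply div_le_div_of_nonneg_right _ (by positivity)
          linarith
    exact h3.trans ((rt_summable hu).le_tsum J (fun j _ => rt_nonneg j hu.le))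
  · rw [← (rt_summable hu).sum_add_tsum_nat_add (J + 1), add_mul]
    apply add_le_add
    · rw [← Finset.sum_range_reflect]
      have hterm : ∀ i ∈ Finset.range (J + 1), rt (J + 1 - 1 - i) u ≤
          s / (1 + (J : ℝ)) ^ 4 * (((2 : ℝ) ^ (-(1 / 2 : ℝ))) ^ i * (1 + (i : ℝ)) ^ 4) := by
        intro i hi
        have hiJ : i ≤ J := by
          have := Finset.mem_range.mp hi; omega
        obtain ⟨j, rfl⟩ := Nat.exists_eq_add_of_le hiJ
        have e1 : i + j + 1 - 1 - i = j := by omega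
        rw [e1]
        unfold rt
        have h5 : u / (u + (2 : ℝ) ^ (j : ℝ)) ≤ 1 := by
          rw [div_le_one (by positivity)]
          have : (0 : ℝ) < (2 : ℝ) ^ (j : ℝ) := by positivity
          linarith
        have h6 : (2 : ℝ) ^ ((j : ℝ) / 2) = t * ((2 : ℝ) ^ (-(1 / 2 : ℝ))) ^ i := by
          rw [ht, ← Real.rpow_natCast, ← Real.rpow_mul (by norm_num), ← Real.rpow_add (by norm_num)]
          congr 1; push_cast; ring
        have h7 : (1 + ((i + j : ℕ) : ℝ)) ≤ (1 + (i : ℝ)) * (1 + (j : ℝ)) := by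
          push_cast
          have hi0 : (0 : ℝ) ≤ i := Nat.cast_nonneg i
          have hj0 : (0 : ℝ) ≤ j := Nat.cast_nonneg j
          nlinarith [mul_nonneg hi0 hj0]
        have h8 : (1 + ((i + j : ℕ) : ℝ)) ^ 4 ≤ (1 + (i : ℝ)) ^ 4 * (1 + (j : ℝ)) ^ 4 := by
          rw [← mul_pow]
          exact pow_le_pow_left₀ (by positivity) h7 4
        calc (2 : ℝ) ^ ((j : ℝ) / 2) / (1 + (j : ℝ)) ^ 4 * (u / (u + (2 : ℝ) ^ (j : ℝ)))
            ≤ (2 : ℝ) ^ ((j : ℝ) / 2) / (1 + (j : ℝ)) ^ 4 :=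
              mul_le_of_le_one_right (by positivity) h5
          _ = t * ((2 : ℝ) ^ (-(1 / 2 : ℝ))) ^ i / (1 + (j : ℝ)) ^ 4 := by rw [h6]
          _ ≤ s * ((2 : ℝ) ^ (-(1 / 2 : ℝ))) ^ i * ((1 + (i : ℝ)) ^ 4 /
                (1 + ((i + j : ℕ) : ℝ)) ^ 4) := by
              rw [div_eq_mul_inv]
              apply mul_le_mul
              · exact mul_le_mul_of_nonneg_right hts (by positivity)
              · rw [inv_eq_one_div, div_le_div_iff₀ (by positivity) (by positivity), one_mul]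
                exact h8
              · positivity
              · positivity
          _ = s / (1 + ((i + j : ℕ) : ℝ)) ^ 4 *
                (((2 : ℝ) ^ (-(1 / 2 : ℝ))) ^ i * (1 + (i : ℝ)) ^ 4) := by ring
      calc ∑ i ∈ Finset.range (J + 1), rt (J + 1 - 1 - i) u
          ≤ ∑ i ∈ Finset.range (J + 1), s / (1 + (J : ℝ)) ^ 4 *
              (((2 : ℝ) ^ (-(1 / 2 : ℝ))) ^ i * (1 + (i : ℝ)) ^ 4) := Finset.sum_le_sum hterm
        _ = s / (1 + (J : ℝ)) ^ 4 * ∑ i ∈ Finset.range (J + 1),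
              (((2 : ℝ) ^ (-(1 / 2 : ℝ))) ^ i * (1 + (i : ℝ)) ^ 4) := by rw [Finset.mul_sum]
        _ ≤ s / (1 + (J : ℝ)) ^ 4 * Kb := by
              apply mul_le_mul_of_nonneg_left _ (by positivity)
              exact summable_b.sum_le_tsum _ (fun i _ => by positivity)
        _ = Kb * (s / (1 + (J : ℝ)) ^ 4) := by ring
    · have hterm : ∀ i : ℕ, rt (i + (J + 1)) u ≤
          2 * (s / (1 + (J : ℝ)) ^ 4) * ((2 : ℝ) ^ (-(1 / 2 : ℝ))) ^ i := by
        intro i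
        unfold rt
        have h5 : u / (u + (2 : ℝ) ^ ((i + (J + 1) : ℕ) : ℝ)) ≤
            u / (2 : ℝ) ^ ((i + (J + 1) : ℕ) : ℝ) := by
          apply div_le_div_of_nonneg_left hu.le (by positivity) (by linarith)
        have h6 : (2 : ℝ) ^ (((i + (J + 1) : ℕ) : ℝ) / 2) * (1 / (2 : ℝ) ^ ((i + (J + 1) : ℕ) : ℝ))
            = t⁻¹ * (((2 : ℝ) ^ (-(1 / 2 : ℝ))) ^ i * (2 : ℝ) ^ (-(1 / 2 : ℝ))) := by
          rw [ht, ← pow_succ, ← Real.rpow_natCast ((2 : ℝ) ^ (-(1 / 2 : ℝ))) (i + 1),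
            ← Real.rpow_mul (by norm_num), one_div, ← Real.rpow_neg (by norm_num),
            ← Real.rpow_neg (by norm_num), ← Real.rpow_add (by norm_num),
            ← Real.rpow_add (by norm_num)]
          congr 1; push_cast; ring
        have h7 : (1 + (J : ℝ)) ^ 4 ≤ (1 + ((i + (J + 1) : ℕ) : ℝ)) ^ 4 := by
          apply pow_le_pow_left₀ (by positivity)
          push_cast
          have hi0 : (0 : ℝ) ≤ i := Nat.cast_nonneg i
          linarith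
        have h8 : u * t⁻¹ ≤ 2 * s := by
          rw [← div_eq_mul_inv, div_le_iff₀ ht0, ← hs2]
          nlinarith
        calc (2 : ℝ) ^ (((i + (J + 1) : ℕ) : ℝ) / 2) / (1 + ((i + (J + 1) : ℕ) : ℝ)) ^ 4 *
              (u / (u + (2 : ℝ) ^ ((i + (J + 1) : ℕ) : ℝ)))
            ≤ (2 : ℝ) ^ (((i + (J + 1) : ℕ) : ℝ) / 2) / (1 + (J : ℝ)) ^ 4 *
              (u / (2 : ℝ) ^ ((i + (J + 1) : ℕ) : ℝ)) := by
              apply mul_le_mul _ h5 (by positivity) (by positivity)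
              exact div_le_div_of_nonneg_left (by positivity) (by positivity) h7
          _ = (u / (1 + (J : ℝ)) ^ 4) * ((2 : ℝ) ^ (((i + (J + 1) : ℕ) : ℝ) / 2) *
                (1 / (2 : ℝ) ^ ((i + (J + 1) : ℕ) : ℝ))) := by ring
          _ = (u * t⁻¹) / (1 + (J : ℝ)) ^ 4 *
                (((2 : ℝ) ^ (-(1 / 2 : ℝ))) ^ i * (2 : ℝ) ^ (-(1 / 2 : ℝ))) := by
                rw [h6]; ring
          _ ≤ (2 * s) / (1 + (J : ℝ)) ^ 4 * (((2 : ℝ) ^ (-(1 / 2 : ℝ))) ^ i * 1) := by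
              apply mul_le_mul
              · exact div_le_div_of_nonneg_right h8 (by positivity)
              · exact mul_le_mul_of_nonneg_left theta_lt_one.le (by positivity)
              · positivity
              · positivity
          _ = 2 * (s / (1 + (J : ℝ)) ^ 4) * ((2 : ℝ) ^ (-(1 / 2 : ℝ))) ^ i := by ring
      calc ∑' i : ℕ, rt (i + (J + 1)) u
          ≤ ∑' i : ℕ, 2 * (s / (1 + (J : ℝ)) ^ 4) * ((2 : ℝ) ^ (-(1 / 2 : ℝ))) ^ i := by
            refine Summable.tsum_le_tsum hterm ?_ (summable_theta.mul_left _)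
            exact (summable_nat_add_iff (J + 1)).mpr (rt_summable hu)
        _ = 2 * Kθ * (s / (1 + (J : ℝ)) ^ 4) := by rw [tsum_mul_left, Kθ]; ring

theorem rho_bounds {k : ℝ} (hk : 1 < k) : ∃ c C : ℝ, 0 < c ∧ 0 < C ∧ ∀ r : ℝ, 1 ≤ r →
    c * (r ^ (1 / (2 * k)) * (1 + Real.log r) ^ (-(4 : ℝ))) ≤ rho k r ∧
    rho k r ≤ C * (r ^ (1 / (2 * k)) * (1 + Real.log r) ^ (-(4 : ℝ))) := by
  refine ⟨1 / 4 * (1 / 16), (Kb + 2 * Kθ) * (1 + k) ^ 4, by norm_num, ?_, fun r hr => ?_⟩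
  · have := Kb_pos
    have := Kθ_pos
    positivity
  have hr0 : 0 < r := by linarith
  have hu : 0 < r ^ (1 / k) := Real.rpow_pos_of_pos hr0 _
  have hu1 : 1 ≤ r ^ (1 / k) := Real.one_le_rpow hr (by positivity)
  obtain ⟨J, h1, h2⟩ := exists_nat_pow_near hu1 (one_lt_two)
  obtain ⟨hl, hU⟩ := sum_rt_bounds h1 h2
  have hlog0 : 0 ≤ Real.log r := Real.log_nonneg hr
  have hlogu : Real.log (r ^ (1 / k)) = 1 / k * Real.log r := Real.log_rpow hr0 _
  have e1 : (r ^ (1 / k)) ^ (1 / 2 : ℝ) = r ^ (1 / (2 * k)) := by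
    rw [← Real.rpow_mul hr0.le]; congr 1; field_simp
  have e2 : (1 + Real.log r) ^ (-(4 : ℝ)) = ((1 + Real.log r) ^ 4)⁻¹ := by
    rw [Real.rpow_neg (by linarith)]
    congr 1
    have : (4 : ℝ) = ((4 : ℕ) : ℝ) := by norm_num
    rw [this, Real.rpow_natCast]
  have hl2 : (0.69 : ℝ) < Real.log 2 := by
    have := Real.log_two_gt_d9; linarith
  have hl2' : Real.log 2 < 1 := by
    have := Real.log_two_lt_d9; linarith
  have hJ1 : (J : ℝ) * Real.log 2 ≤ 1 / k * Real.log r := by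
    rw [← hlogu, ← Real.log_pow]
    exact Real.log_le_log (by positivity) h1
  have hJ2 : 1 / k * Real.log r ≤ ((J : ℝ) + 1) * Real.log 2 := by
    rw [← hlogu]
    have : ((J : ℝ) + 1) * Real.log 2 = Real.log (2 ^ (J + 1)) := by
      rw [Real.log_pow]; push_cast; ring
    rw [this]
    exact Real.log_le_log hu h2.le
  have hk0 : 0 < k := by linarith
  have hkinv : 1 / k * Real.log r ≤ Real.log r := by
    apply mul_le_of_le_one_left hlog0
    rw [div_le_one hk0]; exact hk.le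
  have hJ0 : (0 : ℝ) ≤ J := Nat.cast_nonneg J
  have hlow : (1 + (J : ℝ)) ≤ 2 * (1 + Real.log r) := by nlinarith
  have hup : 1 + Real.log r ≤ (1 + k) * (1 + (J : ℝ)) := by
    have h3 : Real.log r = k * (1 / k * Real.log r) := by field_simp
    have h4 : k * (1 / k * Real.log r) ≤ k * (((J : ℝ) + 1) * Real.log 2) :=
      mul_le_mul_of_nonneg_left hJ2 hk0.le
    have h5 : k * (((J : ℝ) + 1) * Real.log 2) ≤ k * ((J : ℝ) + 1) := by
      apply mul_le_mul_of_nonneg_left _ hk0.le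
      nlinarith
    rw [h3]
    nlinarith
  have hlow4 : (1 + (J : ℝ)) ^ 4 ≤ 16 * (1 + Real.log r) ^ 4 := by
    calc (1 + (J : ℝ)) ^ 4 ≤ (2 * (1 + Real.log r)) ^ 4 := pow_le_pow_left₀ (by positivity) hlow 4
      _ = 16 * (1 + Real.log r) ^ 4 := by ring
  have hup4 : (1 + Real.log r) ^ 4 ≤ (1 + k) ^ 4 * (1 + (J : ℝ)) ^ 4 := by
    rw [← mul_pow]
    exact pow_le_pow_left₀ (by positivity) hup 4
  rw [rho_eq, e2, ← e1]
  set s : ℝ := (r ^ (1 / k)) ^ (1 / 2 : ℝ) with hs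
  have hs0 : 0 < s := Real.rpow_pos_of_pos hu _
  constructor
  · refine le_trans ?_ hl
    have : (1 / 16 : ℝ) * ((1 + Real.log r) ^ 4)⁻¹ ≤ 1 / (1 + (J : ℝ)) ^ 4 := by
      rw [← div_eq_mul_inv, div_le_div_iff₀ (by positivity) (by positivity)]
      linarith
    calc 1 / 4 * (1 / 16) * (s * ((1 + Real.log r) ^ 4)⁻¹)
        = 1 / 4 * s * ((1 / 16 : ℝ) * ((1 + Real.log r) ^ 4)⁻¹) := by ring
      _ ≤ 1 / 4 * s * (1 / (1 + (J : ℝ)) ^ 4) := mul_le_mul_of_nonneg_left this (by positivity)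
      _ = 1 / 4 * (s / (1 + (J : ℝ)) ^ 4) := by ring
  · refine hU.trans ?_
    have : 1 / (1 + (J : ℝ)) ^ 4 ≤ (1 + k) ^ 4 * ((1 + Real.log r) ^ 4)⁻¹ := by
      rw [← div_eq_mul_inv, div_le_div_iff₀ (by positivity) (by positivity)]
      linarith
    have hB := Kb_pos
    have hK := Kθ_pos
    calc (Kb + 2 * Kθ) * (s / (1 + (J : ℝ)) ^ 4)
        = (Kb + 2 * Kθ) * s * (1 / (1 + (J : ℝ)) ^ 4) := by ring
      _ ≤ (Kb + 2 * Kθ) * s * ((1 + k) ^ 4 * ((1 + Real.log r) ^ 4)⁻¹) :=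
          mul_le_mul_of_nonneg_left this (by positivity)
      _ = (Kb + 2 * Kθ) * (1 + k) ^ 4 * (s * ((1 + Real.log r) ^ 4)⁻¹) := by ring

theorem rho_dilate {k : ℝ} (hk : 1 < k) : ∃ C : ℝ, 0 < C ∧ ∀ m r : ℝ, 1 ≤ m → m ^ 2 ≤ r →
    rho k (r / m) ≤ C * m ^ (-(1 / (2 * k))) * rho k r := by
  obtain ⟨c, C, hc, hC, h⟩ := rho_bounds hk
  refine ⟨16 * C / c, by positivity, fun m r hm hmr => ?_⟩
  have hm0 : 0 < m := by linarith
  have hr : 1 ≤ r := by nlinarith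
  have hr0 : 0 < r := by linarith
  have hrm : m ≤ r / m := by
    rw [le_div_iff₀ hm0]; nlinarith
  have hrm1 : 1 ≤ r / m := by linarith
  have hU := (h (r / m) hrm1).2
  have hl := (h r hr).1
  have hlogr : 0 ≤ Real.log r := Real.log_nonneg hr
  have hlogrm : 0 ≤ Real.log (r / m) := Real.log_nonneg hrm1
  have hlm : 2 * Real.log m ≤ Real.log r := by
    have : Real.log (m ^ 2) ≤ Real.log r := Real.log_le_log (by positivity) hmr
    rwa [Real.log_pow] at this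
  have hhalf : (1 + Real.log r) / 2 ≤ 1 + Real.log (r / m) := by
    rw [Real.log_div hr0.ne' hm0.ne']
    linarith
  have e : ∀ x : ℝ, 0 ≤ x → (1 + x) ^ (-(4 : ℝ)) = ((1 + x) ^ 4)⁻¹ := by
    intro x hx
    rw [Real.rpow_neg (by linarith)]
    congr 1
    have : (4 : ℝ) = ((4 : ℕ) : ℝ) := by norm_num
    rw [this, Real.rpow_natCast]
  rw [e _ hlogrm] at hU
  rw [e _ hlogr] at hl
  have h4 : ((1 + Real.log (r / m)) ^ 4)⁻¹ ≤ 16 * ((1 + Real.log r) ^ 4)⁻¹ := by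
    have h5 : ((1 + Real.log r) / 2) ^ 4 ≤ (1 + Real.log (r / m)) ^ 4 :=
      pow_le_pow_left₀ (by positivity) hhalf 4
    have h6 : (1 + Real.log r) ^ 4 ≤ 16 * (1 + Real.log (r / m)) ^ 4 := by
      have : ((1 + Real.log r) / 2) ^ 4 = (1 + Real.log r) ^ 4 / 16 := by ring
      rw [this] at h5; linarith
    rw [inv_eq_one_div, ← div_eq_mul_inv, div_le_div_iff₀ (by positivity) (by positivity)]
    linarith
  have e3 : (r / m) ^ (1 / (2 * k)) = m ^ (-(1 / (2 * k))) * r ^ (1 / (2 * k)) := by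
    rw [Real.div_rpow hr0.le hm0.le, Real.rpow_neg hm0.le, div_eq_mul_inv, mul_comm]
  have hmp : 0 < m ^ (-(1 / (2 * k))) := Real.rpow_pos_of_pos hm0 _
  have hrp : 0 < r ^ (1 / (2 * k)) := Real.rpow_pos_of_pos hr0 _
  calc rho k (r / m) ≤ C * ((r / m) ^ (1 / (2 * k)) * ((1 + Real.log (r / m)) ^ 4)⁻¹) := hU
    _ ≤ C * ((m ^ (-(1 / (2 * k))) * r ^ (1 / (2 * k))) * (16 * ((1 + Real.log r) ^ 4)⁻¹)) := by
        rw [e3]
        apply mul_le_mul_of_nonneg_left _ hC.le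
        exact mul_le_mul_of_nonneg_left h4 (by positivity)
    _ = 16 * C / c * m ^ (-(1 / (2 * k))) * (c * (r ^ (1 / (2 * k)) *
          ((1 + Real.log r) ^ 4)⁻¹)) := by
        field_simp
    _ ≤ 16 * C / c * m ^ (-(1 / (2 * k))) * rho k r :=
        mul_le_mul_of_nonneg_left hl (by positivity)

end Pool.Agent.Lib.MP_0bb3d8_nt
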