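import Pool.Agent.Lib.MP_0bb3d8_nt.A4base

/-!
# A4: the lower frame inequality for sampling at primes
-/

set_option autoImplicit false

open Real MeasureTheory Polynomial Set Filter

namespace Pool.Agent.Lib.MP_0bb3d8_nt

/-- term of the prime sum -/
noncomputable def Fp (X₀ k : ℝ) (f : ℝ → ℝ) (p : ℕ) : ℝ :=
  if p.Prime ∧ X₀ ≤ p then W k p * f p ^ 2 else 0

theorem W_nonneg {k : ℝ} (hk : 1 < k) (p : ℕ) : 0 ≤ W k p := by
  unfold W
  rcases Nat.eq_zero_or_pos p with rfl | hp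
  · simp
  · have h1 : (1 : ℝ) ≤ p := by exact_mod_cast hp
    have := rho_pos hk (r := (p : ℝ)) (by linarith)
    have := Real.log_nonneg h1
    positivity

theorem Fp_nonneg {X₀ k : ℝ} (hk : 1 < k) (f : ℝ → ℝ) (p : ℕ) : 0 ≤ Fp X₀ k f p := by
  unfold Fp
  split_ifs
  · exact mul_nonneg (W_nonneg hk p) (sq_nonneg _)
  · exact le_rfl

theorem W_mul_sq (k : ℝ) (f : ℝ → ℝ) (p : ℕ) : W k p * f p ^ 2 = gd k f p * Real.log p := by
  unfold W gd; ring

theorem Good.gd_le4 {k κ : ℝ} {f f' : ℝ → ℝ} (hk : 1 < k) (h : Good k κ f f') :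
    ∃ C : ℝ, 0 ≤ C ∧ ∀ r : ℝ, 0 < r → gd k f r ≤ C * (1 + r) ^ (-(4 : ℝ)) := by
  obtain ⟨C, hC0, hC⟩ := h.gd_le hk 3
  exact ⟨C, hC0, fun r hr =>
    (hC r hr).trans (mul_le_mul_of_nonneg_left (decay_bound hk hr) hC0)⟩

theorem summable_sq_shift : Summable fun p : ℕ => 1 / ((p : ℝ) + 1) ^ 2 := by
  have h : Summable fun n : ℕ => 1 / (n : ℝ) ^ 2 := Real.summable_one_div_nat_pow.mpr (by norm_num)
  have h1 := (summable_nat_add_iff 1).mpr h
  refine h1.congr fun n => ?_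
  push_cast; rfl

theorem Good.Fp_summable {X₀ k κ : ℝ} {f f' : ℝ → ℝ} (hk : 1 < k) (h : Good k κ f f') :
    Summable (Fp X₀ k f) := by
  obtain ⟨C, hC0, hC⟩ := h.gd_le4 hk
  refine Summable.of_nonneg_of_le (Fp_nonneg hk f) (fun p => ?_) (summable_sq_shift.mul_left C)
  unfold Fp
  split_ifs with hp
  · have hp1 : (1 : ℝ) ≤ p := by exact_mod_cast hp.1.one_lt.le
    have hp0 : (0 : ℝ) < p := by linarith
    rw [W_mul_sq]
    have h1 := hC p hp0
    have h2 : Real.log p ≤ (p : ℝ) + 1 := by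
      have := Real.log_le_sub_one_of_pos hp0
      linarith
    have h3 : 0 ≤ Real.log p := Real.log_nonneg hp1
    have e : (1 + (p : ℝ)) ^ (-(4 : ℝ)) = 1 / ((p : ℝ) + 1) ^ 4 := by
      rw [Real.rpow_neg (by linarith), add_comm, one_div]
      congr 1
      have : (4 : ℝ) = ((4 : ℕ) : ℝ) := by norm_num
      rw [this, Real.rpow_natCast]
    calc gd k f p * Real.log p ≤ (C * (1 + (p : ℝ)) ^ (-(4 : ℝ))) * ((p : ℝ) + 1) :=
          mul_le_mul h1 h2 h3 (by positivity)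
      _ = C * (1 / ((p : ℝ) + 1) ^ 3) := by
          rw [e]; field_simp
      _ ≤ C * (1 / ((p : ℝ) + 1) ^ 2) := by
          apply mul_le_mul_of_nonneg_left _ hC0
          apply one_div_le_one_div_of_le (by positivity)
          exact pow_le_pow_right₀ (by linarith) (by norm_num)
  · positivity

theorem weight_le {k a b : ℝ} (hk : 1 < k) (ha : 0 < a) (hb : 0 < b) (hab : b ≤ 2 * a) :
    b ^ (1 / k) * rho k b ≤ 4 * (a ^ (1 / k) * rho k a) := by
  have h1 : b ^ (1 / k) ≤ 2 * a ^ (1 / k) := by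
    calc b ^ (1 / k) ≤ (2 * a) ^ (1 / k) := Real.rpow_le_rpow hb.le hab (by positivity)
      _ = 2 ^ (1 / k) * a ^ (1 / k) := Real.mul_rpow (by norm_num) ha.le
      _ ≤ 2 * a ^ (1 / k) := by
        apply mul_le_mul_of_nonneg_right _ (by positivity)
        calc (2 : ℝ) ^ (1 / k) ≤ 2 ^ (1 : ℝ) := by
              apply Real.rpow_le_rpow_of_exponent_le (by norm_num)
              rw [div_le_one (by linarith)]; exact hk.le
          _ = 2 := by norm_num
  have h2 : rho k b ≤ 2 * rho k a :=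
    (rho_mono hk (mem_Ioi.mpr hb) (mem_Ioi.mpr (by positivity)) hab).trans (rho_double hk a ha)
  have h3 := rho_pos hk hb
  have h4 := rho_pos hk ha
  calc b ^ (1 / k) * rho k b ≤ (2 * a ^ (1 / k)) * (2 * rho k a) :=
        mul_le_mul h1 h2 h3.le (by positivity)
    _ = 4 * (a ^ (1 / k) * rho k a) := by ring

theorem weight_mono_m {k a b : ℝ} (hk : 1 < k) (ha : 0 < a) (hab : a ≤ b) :
    a ^ (1 / k) * rho k a ≤ b ^ (1 / k) * rho k b := by
  have hb : 0 < b := lt_of_lt_of_le ha hab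
  apply mul_le_mul (Real.rpow_le_rpow ha.le hab (by positivity))
    (rho_mono hk (mem_Ioi.mpr ha) (mem_Ioi.mpr hb) hab) (rho_pos hk ha).le (by positivity)

theorem cell_bound {c c₁ C₁ X₀ k κ : ℝ} (hP : PrimesOK c c₁ C₁ X₀) (hk : 2 / c ≤ k)
    {f f' : ℝ → ℝ} (h : Good k κ f f') {a : ℝ} (ha : X₀ ≤ a) :
    ∫ r in a..(a + a ^ (1 - c)), gd k f r ≤
      (8 / c₁) * ∑ p ∈ Finset.Ioc ⌊a⌋₊ ⌊a + a ^ (1 - c)⌋₊, Fp X₀ k f p +
      8 * ∫ r in a..(a + a ^ (1 - c)), hd k f' r := by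
  obtain ⟨hc0, hc1, hc₁, hX1, hcell⟩ := hP
  have hk1 : 1 < k := by
    have : 2 < 2 / c := by rw [lt_div_iff₀ hc0]; linarith
    linarith
  have hkc : 1 / k ≤ c := by
    rw [div_le_iff₀ (by linarith)]
    rw [div_le_iff₀ hc0] at hk
    linarith
  have ha1 : 1 ≤ a := by linarith
  have ha0 : 0 < a := by linarith
  set d : ℝ := a ^ (1 - c) with hd'
  have hd0 : 0 < d := Real.rpow_pos_of_pos ha0 _
  have hda : d ≤ a := by
    calc d ≤ a ^ (1 : ℝ) := Real.rpow_le_rpow_of_exponent_le ha1 (by linarith)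
      _ = a := Real.rpow_one a
  set b : ℝ := a + d with hb
  have hab : a ≤ b := by linarith
  have hb0 : 0 < b := by linarith
  set D : ℝ := ∫ t in a..b, f' t ^ 2 with hD
  have hsubpos : Icc a b ⊆ Ioi 0 := fun x hx => lt_of_lt_of_le ha0 hx.1
  have hcf' : ContinuousOn f' (Icc a b) := h.cont'.mono hsubpos
  have hD0 : 0 ≤ D := intervalIntegral.integral_nonneg hab (fun x _ => sq_nonneg _)
  set Wm : ℝ := b ^ (1 / k) * rho k b with hWm
  have hWm0 : 0 < Wm := mul_pos (Real.rpow_pos_of_pos hb0 _) (rho_pos hk1 hb0)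
  set G : ℝ := ∫ r in a..b, gd k f r with hG
  have hgint : IntervalIntegrable (gd k f) volume a b :=
    (((gd_cont hk1 h.contOn).mono hsubpos).mono (by rw [uIcc_of_le hab])).intervalIntegrable
  have hhint : IntervalIntegrable (hd k f') volume a b :=
    (((hd_cont hk1 h.cont').mono hsubpos).mono (by rw [uIcc_of_le hab])).intervalIntegrable
  -- the estimate from one prime
  have hone : ∀ p : ℝ, p ∈ Icc a b → G ≤ d * (Wm * (2 * f p ^ 2 + 2 * (d * D))) := by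
    intro p hp
    have hpt : ∀ r ∈ Icc a b, gd k f r ≤ Wm * (2 * f p ^ 2 + 2 * (d * D)) := by
      intro r hr
      have hr0 : 0 < r := hsubpos hr
      have h1 := h.sub_sq_le ha0 hr hp
      have hbd : b - a = d := by rw [hb]; ring
      rw [hbd] at h1
      have h2 : f r ^ 2 ≤ 2 * f p ^ 2 + 2 * (d * D) := by
        nlinarith [sq_nonneg (f r - 2 * f p)]
      unfold gd
      apply mul_le_mul (weight_mono_m hk1 hr0 hr.2) h2 (sq_nonneg _) hWm0.le
    calc G ≤ ∫ _ in a..b, Wm * (2 * f p ^ 2 + 2 * (d * D)) :=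
          intervalIntegral.integral_mono_on hab hgint intervalIntegrable_const hpt
      _ = d * (Wm * (2 * f p ^ 2 + 2 * (d * D))) := by
          rw [intervalIntegral.integral_const, smul_eq_mul]
          congr 1; rw [hb]; ring
  -- the set of primes of the cell
  set Q : Finset ℕ := (Finset.Ioc ⌊a⌋₊ ⌊b⌋₊).filter Nat.Prime with hQ
  have hmem : ∀ p ∈ Q, (p : ℝ) ∈ Icc a b ∧ p.Prime ∧ a < p := by
    intro p hp
    rw [hQ, Finset.mem_filter, Finset.mem_Ioc] at hp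
    have h1 : a < p := (Nat.floor_lt ha0.le).mp hp.1.1
    have h2 : (p : ℝ) ≤ b := (Nat.le_floor_iff hb0.le).mp hp.1.2
    exact ⟨⟨h1.le, h2⟩, hp.2, h1⟩
  set Λ : ℝ := ∑ p ∈ Q, Real.log p with hΛ
  have hΛ1 : c₁ * d ≤ Λ := (hcell a ha).1
  have hΛ0 : 0 < Λ := lt_of_lt_of_le (by positivity) hΛ1
  have hFQ : ∑ p ∈ Finset.Ioc ⌊a⌋₊ ⌊b⌋₊, Fp X₀ k f p = ∑ p ∈ Q, W k p * f p ^ 2 := by
    rw [hQ, Finset.sum_filter]
    apply Finset.sum_congr rfl
    intro p hp
    rw [Finset.mem_Ioc] at hp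
    have h1 : a < p := (Nat.floor_lt ha0.le).mp hp.1
    unfold Fp
    by_cases hpp : p.Prime
    · rw [if_pos ⟨hpp, by linarith⟩, if_pos hpp]
    · rw [if_neg (fun h => hpp h.1), if_neg hpp]
  set S : ℝ := ∑ p ∈ Q, W k p * f p ^ 2 with hS
  have hsum : G * Λ ≤ d * (8 * S) + 2 * Wm * d ^ 2 * D * Λ := by
    rw [hΛ, hS, Finset.mul_sum, Finset.mul_sum, Finset.mul_sum, Finset.mul_sum,
      ← Finset.sum_add_distrib]
    apply Finset.sum_le_sum
    intro p hp
    obtain ⟨hpI, hpp, hap⟩ := hmem p hp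
    have hlog : 0 ≤ Real.log p := Real.log_nonneg (by linarith)
    have h1 := mul_le_mul_of_nonneg_right (hone p hpI) hlog
    have hp0 : (0 : ℝ) < p := by linarith
    have hWp : Wm ≤ 4 * ((p : ℝ) ^ (1 / k) * rho k p) := by
      apply weight_le hk1 hp0 hb0
      rw [hb]; linarith
    have h2 : Wm * (f p ^ 2 * Real.log p) ≤ 4 * (W k p * f p ^ 2) := by
      calc Wm * (f p ^ 2 * Real.log p)
          ≤ 4 * ((p : ℝ) ^ (1 / k) * rho k p) * (f p ^ 2 * Real.log p) :=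
            mul_le_mul_of_nonneg_right hWp (by positivity)
        _ = 4 * (W k p * f p ^ 2) := by unfold W; ring
    calc G * Real.log p ≤ d * (Wm * (2 * f p ^ 2 + 2 * (d * D))) * Real.log p := h1
      _ = d * (2 * (Wm * (f p ^ 2 * Real.log p))) + 2 * Wm * d ^ 2 * D * Real.log p := by ring
      _ ≤ d * (2 * (4 * (W k p * f p ^ 2))) + 2 * Wm * d ^ 2 * D * Real.log p := by
          have : d * (2 * (Wm * (f p ^ 2 * Real.log p))) ≤ d * (2 * (4 * (W k p * f p ^ 2))) := by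
            apply mul_le_mul_of_nonneg_left _ hd0.le
            linarith
          linarith
      _ = d * (8 * (W k p * f p ^ 2)) + 2 * Wm * d ^ 2 * D * Real.log p := by ring
  have hS0 : 0 ≤ S := Finset.sum_nonneg fun p _ => mul_nonneg (W_nonneg hk1 p) (sq_nonneg _)
  have hG1 : G ≤ (8 / c₁) * S + 2 * Wm * d ^ 2 * D := by
    have h1 : d * (8 * S) ≤ (8 / c₁) * S * Λ := by
      calc d * (8 * S) = (8 / c₁) * S * (c₁ * d) := by field_simp
        _ ≤ (8 / c₁) * S * Λ := mul_le_mul_of_nonneg_left hΛ1 (by positivity)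
    have h2 : G * Λ ≤ ((8 / c₁) * S + 2 * Wm * d ^ 2 * D) * Λ := by
      calc G * Λ ≤ d * (8 * S) + 2 * Wm * d ^ 2 * D * Λ := hsum
        _ ≤ (8 / c₁) * S * Λ + 2 * Wm * d ^ 2 * D * Λ := by linarith
        _ = ((8 / c₁) * S + 2 * Wm * d ^ 2 * D) * Λ := by ring
    exact le_of_mul_le_mul_right h2 hΛ0
  have hH : Wm * d ^ 2 * D ≤ 4 * ∫ r in a..b, hd k f' r := by
    rw [hD, ← intervalIntegral.integral_const_mul, ← intervalIntegral.integral_const_mul]
    apply intervalIntegral.integral_mono_on hab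
    · exact (((hcf'.pow 2).mono (by rw [uIcc_of_le hab])).intervalIntegrable).const_mul _
    · exact hhint.const_mul _
    · intro r hr
      have hr0 : 0 < r := hsubpos hr
      have hr1 : 1 ≤ r := by linarith [hr.1]
      have hW : Wm ≤ 4 * (r ^ (1 / k) * rho k r) := by
        apply weight_le hk1 hr0 hb0
        have := hr.1
        rw [hb]; linarith
      have hdr : d ^ 2 ≤ r ^ (2 - 2 * c) := by
        have e : d ^ 2 = a ^ (2 - 2 * c) := by
          rw [hd', ← Real.rpow_natCast, ← Real.rpow_mul ha0.le]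
          congr 1; push_cast; ring
        rw [e]
        exact Real.rpow_le_rpow ha0.le hr.1 (by linarith)
      have hpow : r ^ (1 / k) * r ^ (2 - 2 * c) ≤ r ^ (2 - 1 / k) := by
        rw [← Real.rpow_add hr0]
        apply Real.rpow_le_rpow_of_exponent_le hr1
        linarith
      have hρ := rho_pos hk1 hr0
      unfold hd
      calc Wm * d ^ 2 * f' r ^ 2 ≤ (4 * (r ^ (1 / k) * rho k r)) * r ^ (2 - 2 * c) * f' r ^ 2 := by
            apply mul_le_mul_of_nonneg_right _ (sq_nonneg _)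
            exact mul_le_mul hW hdr (by positivity) (by positivity)
        _ = 4 * (r ^ (1 / k) * r ^ (2 - 2 * c)) * rho k r * f' r ^ 2 := by ring
        _ ≤ 4 * r ^ (2 - 1 / k) * rho k r * f' r ^ 2 := by
            apply mul_le_mul_of_nonneg_right _ (sq_nonneg _)
            apply mul_le_mul_of_nonneg_right _ hρ.le
            linarith
        _ = 4 * (r ^ (2 - 1 / k) * rho k r * f' r ^ 2) := by ring
  rw [hFQ]
  calc G ≤ (8 / c₁) * S + 2 * Wm * d ^ 2 * D := hG1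
    _ = (8 / c₁) * S + 2 * (Wm * d ^ 2 * D) := by ring
    _ ≤ (8 / c₁) * S + 2 * (4 * ∫ r in a..b, hd k f' r) := by linarith
    _ = (8 / c₁) * S + 8 * ∫ r in a..b, hd k f' r := by ring

/-- The endpoints of the cells. -/
noncomputable def cellPtM (c X₀ : ℝ) : ℕ → ℝ
  | 0 => X₀
  | (n + 1) => cellPtM c X₀ n + (cellPtM c X₀ n) ^ (1 - c)

theorem cellPtM_ge {c X₀ : ℝ} (hc : c < 1) (hX : 1 ≤ X₀) (n : ℕ) : X₀ + n ≤ cellPtM c X₀ n := by
  induction n with
  | zero => simp [cellPtM]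
  | succ n ih =>
    have h1 : 1 ≤ cellPtM c X₀ n := by
      have : (0 : ℝ) ≤ n := Nat.cast_nonneg n
      linarith
    have h2 : 1 ≤ (cellPtM c X₀ n) ^ (1 - c) := Real.one_le_rpow h1 (by linarith)
    simp only [cellPtM]
    push_cast
    linarith

theorem cells_bound {c c₁ C₁ X₀ k κ : ℝ} (hP : PrimesOK c c₁ C₁ X₀) (hk : 2 / c ≤ k)
    {f f' : ℝ → ℝ} (h : Good k κ f f') (M : ℕ) :
    ∫ r in X₀..(cellPtM c X₀ M), gd k f r ≤
      (8 / c₁) * ∑ p ∈ Finset.Ioc ⌊X₀⌋₊ ⌊cellPtM c X₀ M⌋₊, Fp X₀ k f p +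
      8 * ∫ r in X₀..(cellPtM c X₀ M), hd k f' r := by
  obtain ⟨hc0, hc1, hc₁, hX1, hcell⟩ := hP
  have hk1 : 1 < k := by
    have : 2 < 2 / c := by rw [lt_div_iff₀ hc0]; linarith
    linarith
  induction M with
  | zero => simp [cellPtM]
  | succ M ih =>
    have hM := cellPtM_ge hc1 hX1 M
    have hM0 : (0 : ℝ) ≤ M := Nat.cast_nonneg M
    have ha : X₀ ≤ cellPtM c X₀ M := by linarith
    have hcb := cell_bound ⟨hc0, hc1, hc₁, hX1, hcell⟩ hk h ha
    have hnext : cellPtM c X₀ (M + 1) = cellPtM c X₀ M + (cellPtM c X₀ M) ^ (1 - c) := rfl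
    rw [← hnext] at hcb
    have hle : cellPtM c X₀ M ≤ cellPtM c X₀ (M + 1) := by
      rw [hnext]
      have : 0 < (cellPtM c X₀ M) ^ (1 - c) := Real.rpow_pos_of_pos (by linarith) _
      linarith
    have hint : ∀ {u : ℝ → ℝ}, ContinuousOn u (Ioi 0) → ∀ {a b : ℝ}, 0 < a → a ≤ b →
        IntervalIntegrable u volume a b := by
      intro u hu a b ha hab
      exact (hu.mono (by rw [uIcc_of_le hab]; exact fun x hx => lt_of_lt_of_le ha hx.1)).intervalIntegrable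
    have e1 : ∫ r in X₀..(cellPtM c X₀ (M + 1)), gd k f r =
        (∫ r in X₀..(cellPtM c X₀ M), gd k f r) +
          ∫ r in (cellPtM c X₀ M)..(cellPtM c X₀ (M + 1)), gd k f r :=
      (intervalIntegral.integral_add_adjacent_intervals
        (hint (gd_cont hk1 h.contOn) (by linarith) ha)
        (hint (gd_cont hk1 h.contOn) (by linarith) hle)).symm
    have e2 : ∫ r in X₀..(cellPtM c X₀ (M + 1)), hd k f' r =
        (∫ r in X₀..(cellPtM c X₀ M), hd k f' r) +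
          ∫ r in (cellPtM c X₀ M)..(cellPtM c X₀ (M + 1)), hd k f' r :=
      (intervalIntegral.integral_add_adjacent_intervals
        (hint (hd_cont hk1 h.cont') (by linarith) ha)
        (hint (hd_cont hk1 h.cont') (by linarith) hle)).symm
    have e3 : ∑ p ∈ Finset.Ioc ⌊X₀⌋₊ ⌊cellPtM c X₀ (M + 1)⌋₊, Fp X₀ k f p =
        ∑ p ∈ Finset.Ioc ⌊X₀⌋₊ ⌊cellPtM c X₀ M⌋₊, Fp X₀ k f p +
        ∑ p ∈ Finset.Ioc ⌊cellPtM c X₀ M⌋₊ ⌊cellPtM c X₀ (M + 1)⌋₊, Fp X₀ k f p :=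
      (Finset.sum_Ioc_consecutive _ (Nat.floor_le_floor ha) (Nat.floor_le_floor hle)).symm
    rw [e1, e2, e3]
    linarith

theorem tail_bound {c c₁ C₁ X₀ k κ : ℝ} (hP : PrimesOK c c₁ C₁ X₀) (hk : 2 / c ≤ k)
    {f f' : ℝ → ℝ} (h : Good k κ f f') :
    ∫ r in Ioi X₀, gd k f r ≤ (8 / c₁) * ∑' p : ℕ, Fp X₀ k f p + 8 * Hrm k f' := by
  obtain ⟨hc0, hc1, hc₁, hX1, hcell⟩ := hP
  have hk1 : 1 < k := by
    have : 2 < 2 / c := by rw [lt_div_iff₀ hc0]; linarith
    linarith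
  have hX0 : 0 < X₀ := by linarith
  have hgI : IntegrableOn (gd k f) (Ioi X₀) := (h.gInt hk1).mono_set (Ioi_subset_Ioi hX0.le)
  have htend : Tendsto (cellPtM c X₀) atTop atTop := by
    apply tendsto_atTop_mono (fun n => cellPtM_ge hc1 hX1 n)
    exact tendsto_atTop_add_const_left _ _ tendsto_natCast_atTop_atTop
  have hlim := intervalIntegral_tendsto_integral_Ioi X₀ hgI htend
  refine le_of_tendsto' hlim fun M => ?_
  refine (cells_bound ⟨hc0, hc1, hc₁, hX1, hcell⟩ hk h M).trans ?_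
  have hM := cellPtM_ge hc1 hX1 M
  have hM0 : (0 : ℝ) ≤ M := Nat.cast_nonneg M
  have ha : X₀ ≤ cellPtM c X₀ M := by linarith
  apply add_le_add
  · apply mul_le_mul_of_nonneg_left _ (by positivity)
    exact (h.Fp_summable hk1).sum_le_tsum _ (fun p _ => Fp_nonneg hk1 f p)
  · apply mul_le_mul_of_nonneg_left _ (by norm_num)
    rw [intervalIntegral.integral_of_le ha]
    unfold Hrm
    apply setIntegral_mono_set (h.hInt hk1)
    · filter_upwards [ae_restrict_mem measurableSet_Ioi] with r hr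
      exact hd_nonneg hk1 f' hr
    · exact (show Ioc X₀ (cellPtM c X₀ M) ⊆ Ioi 0 from
        fun x hx => lt_trans hX0 hx.1).eventuallyLE

/-- Lower bound for the weight `r^{2-1/k} rho` on `(0,P]`. -/
theorem hd_weight_lower {k : ℝ} (hk : 1 < k) (P : ℝ) (hP : 1 ≤ P) :
    ∃ c : ℝ, 0 < c ∧ ∀ r : ℝ, 0 < r → r ≤ P → c * r ^ 2 ≤ r ^ (2 - 1 / k) * rho k r := by
  obtain ⟨c, C, hc, hC, h⟩ := rho_small hk
  refine ⟨c / P ^ 2, by positivity, fun r hr hrP => ?_⟩
  have hk0 : 0 < k := by linarith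
  have hkinv : 1 / k < 1 := by rw [div_lt_one hk0]; exact hk
  rcases le_total r 1 with h1 | h1
  · have h2 := (h r hr h1).1
    have e : r ^ 2 = r ^ (2 - 1 / k) * r ^ (1 / k) := by
      rw [← Real.rpow_add hr, ← Real.rpow_natCast]; congr 1; push_cast; ring
    have hP2 : c / P ^ 2 ≤ c := div_le_self hc.le (one_le_pow₀ hP)
    calc c / P ^ 2 * r ^ 2 ≤ c * r ^ 2 := mul_le_mul_of_nonneg_right hP2 (sq_nonneg _)
      _ = r ^ (2 - 1 / k) * (c * r ^ (1 / k)) := by rw [e]; ring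
      _ ≤ r ^ (2 - 1 / k) * rho k r := mul_le_mul_of_nonneg_left h2 (by positivity)
  · have h2 := (h 1 one_pos le_rfl).1
    rw [Real.one_rpow, mul_one] at h2
    have h3 : rho k 1 ≤ rho k r := rho_mono hk (mem_Ioi.mpr one_pos) (mem_Ioi.mpr hr) h1
    have h4 : 1 ≤ r ^ (2 - 1 / k) := Real.one_le_rpow h1 (by linarith)
    have h5 : r ^ 2 ≤ P ^ 2 := pow_le_pow_left₀ hr.le hrP 2
    calc c / P ^ 2 * r ^ 2 ≤ c / P ^ 2 * P ^ 2 := mul_le_mul_of_nonneg_left h5 (by positivity)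
      _ = c := by field_simp
      _ ≤ 1 * rho k r := by linarith
      _ ≤ r ^ (2 - 1 / k) * rho k r :=
        mul_le_mul_of_nonneg_right h4 (rho_pos hk hr).le

/-- Increment estimate near `0`. -/
theorem near_zero_increment {k κ : ℝ} (hk : 1 < k) {f f' : ℝ → ℝ} (h : Good k κ f f') {P c : ℝ}
    (hc : 0 < c) (hw : ∀ r : ℝ, 0 < r → r ≤ P → c * r ^ 2 ≤ r ^ (2 - 1 / k) * rho k r)
    {r : ℝ} (hr : 0 < r) (hrP : r ≤ P) : (f r - f P) ^ 2 ≤ (Hrm k f' / c) * (1 / r) := by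
  have hsub : Icc r P ⊆ Ioi 0 := fun x hx => lt_of_lt_of_le hr hx.1
  have hcont : ContinuousOn f' (Icc r P) := h.cont'.mono hsub
  have hint : ∫ t in r..P, f' t = f P - f r := by
    apply intervalIntegral.integral_eq_sub_of_hasDerivAt
    · intro x hx
      rw [uIcc_of_le hrP] at hx
      exact h.hasDeriv x (hsub hx)
    · exact (hcont.mono (by rw [uIcc_of_le hrP])).intervalIntegrable
  have hidc : ContinuousOn (fun t : ℝ => t⁻¹) (Icc r P) :=
    continuousOn_id.inv₀ (fun x hx => (hsub hx).ne')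
  have hu : ContinuousOn (fun t : ℝ => t * f' t) (Icc r P) := continuousOn_id.mul hcont
  have i1 : IntegrableOn (fun t : ℝ => (t * f' t) ^ 2) (Ioc r P) :=
    ((hu.pow 2).integrableOn_Icc).mono_set Ioc_subset_Icc_self
  have i2 : IntegrableOn (fun t : ℝ => (t⁻¹) ^ 2) (Ioc r P) :=
    ((hidc.pow 2).integrableOn_Icc).mono_set Ioc_subset_Icc_self
  have i3 : IntegrableOn (fun t : ℝ => (t * f' t) * t⁻¹) (Ioc r P) :=
    ((hu.mul hidc).integrableOn_Icc).mono_set Ioc_subset_Icc_self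
  have hcs := cs_general (μ := volume.restrict (Ioc r P)) (u := fun t : ℝ => t * f' t)
    (v := fun t : ℝ => t⁻¹) i1 i2 i3
  have e1 : ∫ t in Ioc r P, (t * f' t) * t⁻¹ = f P - f r := by
    rw [← hint, intervalIntegral.integral_of_le hrP]
    apply setIntegral_congr_fun measurableSet_Ioc
    intro t ht
    have : t ≠ 0 := (lt_trans hr ht.1).ne'
    field_simp
  have e2 : ∫ t in Ioc r P, (t⁻¹) ^ 2 ≤ 1 / r := by
    rw [← intervalIntegral.integral_of_le hrP]
    have e3 : ∫ t in r..P, (t⁻¹) ^ 2 = (-(P⁻¹)) - (-(r⁻¹)) := by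
      apply intervalIntegral.integral_eq_sub_of_hasDerivAt (f := fun t : ℝ => -(t⁻¹))
      · intro x hx
        rw [uIcc_of_le hrP] at hx
        have hx0 : x ≠ 0 := (hsub hx).ne'
        have := (hasDerivAt_inv hx0).fun_neg
        rw [neg_neg] at this
        simpa [inv_pow] using this
      · exact ((hidc.pow 2).mono (by rw [uIcc_of_le hrP])).intervalIntegrable
    rw [e3]
    have : 0 < P⁻¹ := inv_pos.mpr (lt_of_lt_of_le hr hrP)
    rw [one_div]
    linarith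
  have e4 : ∫ t in Ioc r P, (t * f' t) ^ 2 ≤ Hrm k f' / c := by
    rw [le_div_iff₀ hc, mul_comm, ← integral_const_mul]
    calc ∫ t in Ioc r P, c * (t * f' t) ^ 2 ≤ ∫ t in Ioc r P, hd k f' t := by
          apply setIntegral_mono_on (i1.const_mul c)
            ((h.hInt hk).mono_set (fun x hx => lt_trans hr hx.1)) measurableSet_Ioc
          intro t ht
          have ht0 : 0 < t := lt_trans hr ht.1
          have := hw t ht0 ht.2
          unfold hd
          calc c * (t * f' t) ^ 2 = (c * t ^ 2) * f' t ^ 2 := by ring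
            _ ≤ (t ^ (2 - 1 / k) * rho k t) * f' t ^ 2 :=
              mul_le_mul_of_nonneg_right this (sq_nonneg _)
      _ ≤ Hrm k f' := by
          unfold Hrm
          apply setIntegral_mono_set (h.hInt hk)
          · filter_upwards [ae_restrict_mem measurableSet_Ioi] with x hx
            exact hd_nonneg hk f' hx
          · exact (show Ioc r P ⊆ Ioi 0 from fun x hx => lt_trans hr hx.1).eventuallyLE
  have h0 : 0 ≤ ∫ t in Ioc r P, (t * f' t) ^ 2 :=
    setIntegral_nonneg measurableSet_Ioc (fun t _ => sq_nonneg _)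
  rw [e1] at hcs
  calc (f r - f P) ^ 2 = (f P - f r) ^ 2 := by ring
    _ ≤ (∫ t in Ioc r P, (t * f' t) ^ 2) * (∫ t in Ioc r P, (t⁻¹) ^ 2) := hcs
    _ ≤ (Hrm k f' / c) * (1 / r) := by
        apply mul_le_mul e4 e2 _ (h0.trans e4)
        exact setIntegral_nonneg measurableSet_Ioc (fun t _ => sq_nonneg _)

/-- The part of the energy on `(0,X]`. -/
theorem head_bound {k P : ℝ} (hk : 1 < k) (hP : 1 ≤ P) :
    ∃ A B : ℝ, 0 < A ∧ 0 < B ∧ ∀ (κ : ℝ) (f f' : ℝ → ℝ), Good k κ f f' → ∀ X : ℝ, 0 ≤ X → X ≤ P →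
      ∫ r in Ioc 0 X, gd k f r ≤ A * f P ^ 2 + B * Hrm k f' := by
  obtain ⟨c, hc, hw⟩ := hd_weight_lower hk P hP
  have hk0 : 0 < k := by linarith
  have iA : IntegrableOn (fun r : ℝ => r ^ (2 / k)) (Ioc 0 P) := by
    rw [← intervalIntegrable_iff_integrableOn_Ioc_of_le (by linarith)]
    apply intervalIntegral.intervalIntegrable_rpow'
    have : 0 < 2 / k := by positivity
    linarith
  have iB : IntegrableOn (fun r : ℝ => r ^ (2 / k - 1)) (Ioc 0 P) := by
    rw [← intervalIntegrable_iff_integrableOn_Ioc_of_le (by linarith)]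
    apply intervalIntegral.intervalIntegrable_rpow'
    have : 0 < 2 / k := by positivity
    linarith
  set IA : ℝ := ∫ r in Ioc 0 P, r ^ (2 / k) with hIA
  set IB : ℝ := ∫ r in Ioc 0 P, r ^ (2 / k - 1) with hIB
  have hIA0 : 0 ≤ IA := setIntegral_nonneg measurableSet_Ioc
    (fun r hr => Real.rpow_nonneg hr.1.le _)
  have hIB0 : 0 ≤ IB := setIntegral_nonneg measurableSet_Ioc
    (fun r hr => Real.rpow_nonneg hr.1.le _)
  have hK := Kθ_pos
  refine ⟨2 * Kθ * IA + 1, 2 * Kθ / c * IB + 1, by positivity, by positivity,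
    fun κ f f' h X hX0 hXP => ?_⟩
  have hH := Hrm_nonneg hk f'
  have hpt : ∀ r ∈ Ioc 0 P, gd k f r ≤
      2 * Kθ * f P ^ 2 * r ^ (2 / k) + 2 * Kθ / c * Hrm k f' * r ^ (2 / k - 1) := by
    intro r hr
    have hr0 : 0 < r := hr.1
    have h1 := near_zero_increment hk h hc hw hr0 hr.2
    have h2 : f r ^ 2 ≤ 2 * f P ^ 2 + 2 * ((Hrm k f' / c) * (1 / r)) := by
      nlinarith [sq_nonneg (f r - 2 * f P)]
    have h3 := rho_le_u (k := k) hr0
    have hu : 0 < r ^ (1 / k) := Real.rpow_pos_of_pos hr0 _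
    have e1 : r ^ (2 / k) = r ^ (1 / k) * r ^ (1 / k) := by
      rw [← Real.rpow_add hr0]; congr 1; ring
    have e2 : r ^ (2 / k - 1) = r ^ (2 / k) * (1 / r) := by
      rw [Real.rpow_sub hr0, Real.rpow_one]; ring
    unfold gd
    calc r ^ (1 / k) * rho k r * f r ^ 2
        ≤ r ^ (1 / k) * (Kθ * r ^ (1 / k)) *
            (2 * f P ^ 2 + 2 * ((Hrm k f' / c) * (1 / r))) := by
          apply mul_le_mul _ h2 (sq_nonneg _) (by positivity)
          exact mul_le_mul_of_nonneg_left h3 hu.le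
      _ = 2 * Kθ * f P ^ 2 * r ^ (2 / k) + 2 * Kθ / c * Hrm k f' * r ^ (2 / k - 1) := by
          rw [e2, e1]; ring
  have i1 : IntegrableOn (fun r : ℝ => 2 * Kθ * f P ^ 2 * r ^ (2 / k)) (Ioc 0 P) :=
    iA.const_mul _
  have i2 : IntegrableOn (fun r : ℝ => 2 * Kθ / c * Hrm k f' * r ^ (2 / k - 1)) (Ioc 0 P) :=
    iB.const_mul _
  have hgP : IntegrableOn (gd k f) (Ioc 0 P) := (h.gInt hk).mono_set Ioc_subset_Ioi_self
  calc ∫ r in Ioc 0 X, gd k f r ≤ ∫ r in Ioc 0 P, gd k f r := by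
        apply setIntegral_mono_set hgP
        · filter_upwards [ae_restrict_mem measurableSet_Ioc] with r hr
          exact gd_nonneg hk f hr.1
        · exact (Ioc_subset_Ioc_right hXP).eventuallyLE
    _ ≤ ∫ r in Ioc 0 P, (2 * Kθ * f P ^ 2 * r ^ (2 / k) +
          2 * Kθ / c * Hrm k f' * r ^ (2 / k - 1)) :=
        setIntegral_mono_on hgP (i1.add i2) measurableSet_Ioc hpt
    _ = 2 * Kθ * f P ^ 2 * IA + 2 * Kθ / c * Hrm k f' * IB := by
        rw [integral_add i1 i2, integral_const_mul, integral_const_mul]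
    _ ≤ (2 * Kθ * IA + 1) * f P ^ 2 + (2 * Kθ / c * IB + 1) * Hrm k f' := by
        nlinarith [sq_nonneg (f P)]

theorem frame_lower {c c₁ C₁ X₀ k : ℝ} (hP : PrimesOK c c₁ C₁ X₀) (hk : 2 / c ≤ k) :
    ∃ C κ₀ : ℝ, 0 < C ∧ 0 < κ₀ ∧ ∀ (κ : ℝ) (f f' : ℝ → ℝ), 0 < κ → κ ≤ κ₀ → Good k κ f f' →
      Nrm k f ≤ C * ∑' p : ℕ, (if p.Prime ∧ X₀ ≤ p then W k p * f p ^ 2 else 0) := by
  have hP' := hP
  obtain ⟨hc0, hc1, hc₁, hX1, hcell⟩ := hP
  have hk1 : 1 < k := by
    have : 2 < 2 / c := by rw [lt_div_iff₀ hc0]; linarith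
    linarith
  have hX0 : 0 < X₀ := by linarith
  -- a prime `p₀ > X₀`
  obtain ⟨p₀, hp₀, hp₀X⟩ : ∃ p : ℕ, p.Prime ∧ X₀ < p := by
    obtain ⟨p, hpge, hpp⟩ := Nat.exists_infinite_primes (⌊X₀⌋₊ + 1)
    exact ⟨p, hpp, (Nat.floor_lt hX0.le).mp (by omega)⟩
  have hp₀1 : (1 : ℝ) < p₀ := by linarith
  have hWp₀ : 0 < W k p₀ := by
    unfold W
    have h1 := rho_pos hk1 (r := (p₀ : ℝ)) (by linarith)
    have h2 := Real.log_pos hp₀1
    positivity
  obtain ⟨A, B, hA, hB, hhead⟩ := head_bound hk1 (P := (p₀ : ℝ)) hp₀1.le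
  refine ⟨2 * (A / W k p₀ + 8 / c₁), 1 / (5 * (B + 8) + 5), by positivity, by positivity,
    fun κ f f' hκ0 hκ h => ?_⟩
  have hF0 : ∀ p, 0 ≤ Fp X₀ k f p := Fp_nonneg hk1 f
  have hFs : Summable (Fp X₀ k f) := h.Fp_summable hk1
  set S : ℝ := ∑' p : ℕ, Fp X₀ k f p with hS
  have hgoal : ∑' p : ℕ, (if p.Prime ∧ X₀ ≤ p then W k p * f p ^ 2 else 0) = S := rfl
  rw [hgoal]
  have htail := tail_bound hP' hk h
  have hhd := hhead κ f f' h X₀ hX0.le hp₀X.le
  have hHN := h.Hrm_le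
  have hN0 := Nrm_nonneg hk1 f
  have hH0 := Hrm_nonneg hk1 f'
  have hsplit : Nrm k f = (∫ r in Ioc 0 X₀, gd k f r) + ∫ r in Ioi X₀, gd k f r := by
    rw [Nrm_eq, ← setIntegral_union (Ioc_disjoint_Ioi le_rfl) measurableSet_Ioi
      ((h.gInt hk1).mono_set Ioc_subset_Ioi_self)
      ((h.gInt hk1).mono_set (Ioi_subset_Ioi hX0.le)), Ioc_union_Ioi_eq_Ioi hX0.le]
  have hfp : f p₀ ^ 2 ≤ S / W k p₀ := by
    rw [le_div_iff₀ hWp₀, mul_comm]
    have : Fp X₀ k f p₀ = W k p₀ * f p₀ ^ 2 := by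
      unfold Fp; rw [if_pos ⟨hp₀, hp₀X.le⟩]
    rw [← this]
    exact hFs.le_tsum p₀ (fun p _ => hF0 p)
  have hκsq : (B + 8) * ((5 / 2) * κ ^ 2) ≤ 1 / 2 := by
    have h1 : κ * (5 * (B + 8) + 5) ≤ 1 := by
      rw [le_div_iff₀ (by positivity)] at hκ
      exact hκ
    have h2 : κ ≤ 1 := by
      have : 0 ≤ κ * (5 * (B + 8) + 4) := by positivity
      linarith
    have h3 : κ ^ 2 ≤ κ := by nlinarith
    have h4 : 0 ≤ (B + 8) := by positivity
    have h5 : (B + 8) * ((5 / 2) * κ ^ 2) ≤ (B + 8) * ((5 / 2) * κ) :=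
      mul_le_mul_of_nonneg_left (by linarith) h4
    nlinarith
  have hA2 : A * f p₀ ^ 2 ≤ A / W k p₀ * S := by
    calc A * f p₀ ^ 2 ≤ A * (S / W k p₀) := mul_le_mul_of_nonneg_left hfp hA.le
      _ = A / W k p₀ * S := by ring
  have hBH : (B + 8) * Hrm k f' ≤ 1 / 2 * Nrm k f := by
    calc (B + 8) * Hrm k f' ≤ (B + 8) * ((5 / 2) * κ ^ 2 * Nrm k f) :=
          mul_le_mul_of_nonneg_left hHN (by positivity)
      _ = ((B + 8) * ((5 / 2) * κ ^ 2)) * Nrm k f := by ring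
      _ ≤ 1 / 2 * Nrm k f := mul_le_mul_of_nonneg_right hκsq hN0
  have hfin : Nrm k f ≤ (A / W k p₀ + 8 / c₁) * S + 1 / 2 * Nrm k f := by
    calc Nrm k f = (∫ r in Ioc 0 X₀, gd k f r) + ∫ r in Ioi X₀, gd k f r := hsplit
      _ ≤ (A * f p₀ ^ 2 + B * Hrm k f') + ((8 / c₁) * S + 8 * Hrm k f') := add_le_add hhd htail
      _ ≤ (A / W k p₀ + 8 / c₁) * S + 1 / 2 * Nrm k f := by linarith
  linarith

end Pool.Agent.Lib.MP_0bb3d8_nt
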