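import Pool.Agent.Lib.MP_0bb3d8_nt.A3

/-!
# A4base: integrability and Cauchy-Schwarz tools for `Good` functions
-/

set_option autoImplicit false

open Real MeasureTheory Polynomial Set

namespace Pool.Agent.Lib.MP_0bb3d8_nt

/-- energy density of `f` -/
noncomputable def gd (k : ℝ) (f : ℝ → ℝ) (r : ℝ) : ℝ := r ^ (1 / k) * rho k r * (f r) ^ 2

/-- energy density of `f'` -/
noncomputable def hd (k : ℝ) (f' : ℝ → ℝ) (r : ℝ) : ℝ := r ^ (2 - 1 / k) * rho k r * (f' r) ^ 2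

theorem gd_nonneg {k : ℝ} (hk : 1 < k) (f : ℝ → ℝ) {r : ℝ} (hr : 0 < r) : 0 ≤ gd k f r := by
  unfold gd
  have := rho_pos hk hr
  positivity

theorem hd_nonneg {k : ℝ} (hk : 1 < k) (f' : ℝ → ℝ) {r : ℝ} (hr : 0 < r) : 0 ≤ hd k f' r := by
  unfold hd
  have := rho_pos hk hr
  positivity

theorem Good.contOn {k κ : ℝ} {f f' : ℝ → ℝ} (h : Good k κ f f') : ContinuousOn f (Ioi 0) :=
  fun r hr => (h.hasDeriv r hr).continuousAt.continuousWithinAt

theorem gd_cont {k : ℝ} (hk : 1 < k) {f : ℝ → ℝ} (hf : ContinuousOn f (Ioi 0)) :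
    ContinuousOn (gd k f) (Ioi 0) := by
  unfold gd
  refine ContinuousOn.mul (ContinuousOn.mul ?_ (rho_cont hk)) (hf.pow 2)
  intro r hr
  exact (Real.continuousAt_rpow_const _ _ (Or.inl (ne_of_gt hr))).continuousWithinAt

theorem hd_cont {k : ℝ} (hk : 1 < k) {f : ℝ → ℝ} (hf : ContinuousOn f (Ioi 0)) :
    ContinuousOn (hd k f) (Ioi 0) := by
  unfold hd
  refine ContinuousOn.mul (ContinuousOn.mul ?_ (rho_cont hk)) (hf.pow 2)
  intro r hr
  exact (Real.continuousAt_rpow_const _ _ (Or.inl (ne_of_gt hr))).continuousWithinAt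

theorem integrableOn_one_add_neg4 : IntegrableOn (fun r : ℝ => (1 + r) ^ (-(4 : ℝ))) (Ioi 0) := by
  have h : Integrable (fun r : ℝ => (1 + ‖r‖) ^ (-(4 : ℝ))) :=
    integrable_one_add_norm (by simp)
  refine (h.integrableOn (s := Ioi 0)).congr_fun (fun r hr => ?_) measurableSet_Ioi
  have : (0 : ℝ) < r := hr
  simp only [Real.norm_of_nonneg this.le]

theorem rpow_le_one_add_sq {k r : ℝ} (hk : 1 < k) (hr : 0 < r) : r ^ (2 / k) ≤ (1 + r) ^ (2 : ℝ) := by
  calc r ^ (2 / k) ≤ (1 + r) ^ (2 / k) :=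
        Real.rpow_le_rpow hr.le (by linarith) (by positivity)
    _ ≤ (1 + r) ^ (2 : ℝ) := by
        apply Real.rpow_le_rpow_of_exponent_le (by linarith)
        rw [div_le_iff₀ (by linarith)]
        linarith

/-- Pointwise bound of the density of `f`. -/
theorem Good.gd_le {k κ : ℝ} {f f' : ℝ → ℝ} (_hk : 1 < k) (h : Good k κ f f') (N : ℕ) :
    ∃ C : ℝ, 0 ≤ C ∧ ∀ r : ℝ, 0 < r →
      gd k f r ≤ C * (r ^ (2 / k) * (1 + r) ^ (-(2 * (N : ℝ)))) := by
  obtain ⟨C, hC⟩ := h.decay N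
  refine ⟨Kθ * C ^ 2, mul_nonneg Kθ_pos.le (sq_nonneg C), fun r hr => ?_⟩
  have h1 := (hC r hr).1
  have h2 : (f r) ^ 2 ≤ C ^ 2 * (1 + r) ^ (-(2 * (N : ℝ))) := by
    calc (f r) ^ 2 = |f r| ^ 2 := (sq_abs _).symm
      _ ≤ (C * (1 + r) ^ (-(N : ℝ))) ^ 2 := pow_le_pow_left₀ (abs_nonneg _) h1 2
      _ = C ^ 2 * (1 + r) ^ (-(2 * (N : ℝ))) := by
        rw [mul_pow, ← Real.rpow_natCast ((1 + r) ^ (-(N : ℝ))) 2,
          ← Real.rpow_mul (by linarith)]
        congr 2; push_cast; ring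
  have h3 := rho_le_u (k := k) hr
  have e1 : r ^ (2 / k) = r ^ (1 / k) * r ^ (1 / k) := by
    rw [← Real.rpow_add hr]; congr 1; ring
  have hu : 0 < r ^ (1 / k) := Real.rpow_pos_of_pos hr _
  calc gd k f r = r ^ (1 / k) * rho k r * (f r) ^ 2 := rfl
    _ ≤ r ^ (1 / k) * (Kθ * r ^ (1 / k)) * (C ^ 2 * (1 + r) ^ (-(2 * (N : ℝ)))) := by
        apply mul_le_mul _ h2 (sq_nonneg _)
        · have := Kθ_pos
          positivity
        · exact mul_le_mul_of_nonneg_left h3 hu.le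
    _ = Kθ * C ^ 2 * (r ^ (2 / k) * (1 + r) ^ (-(2 * (N : ℝ)))) := by rw [e1]; ring

/-- Pointwise bound of the density of `f'`. -/
theorem Good.hd_le {k κ : ℝ} {f f' : ℝ → ℝ} (_hk : 1 < k) (h : Good k κ f f') (N : ℕ) :
    ∃ C : ℝ, 0 ≤ C ∧ ∀ r : ℝ, 0 < r →
      hd k f' r ≤ C * (r ^ (2 / k) * (1 + r) ^ (-(2 * (N : ℝ)))) := by
  obtain ⟨C, hC⟩ := h.decay N
  refine ⟨Kθ * C ^ 2, mul_nonneg Kθ_pos.le (sq_nonneg C), fun r hr => ?_⟩
  have h1 := (hC r hr).2
  have h2 : (f' r) ^ 2 ≤ C ^ 2 * (r ^ (2 * (1 / k - 1)) * (1 + r) ^ (-(2 * (N : ℝ)))) := by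
    calc (f' r) ^ 2 = |f' r| ^ 2 := (sq_abs _).symm
      _ ≤ (C * r ^ (1 / k - 1) * (1 + r) ^ (-(N : ℝ))) ^ 2 := pow_le_pow_left₀ (abs_nonneg _) h1 2
      _ = C ^ 2 * (r ^ (2 * (1 / k - 1)) * (1 + r) ^ (-(2 * (N : ℝ)))) := by
        rw [mul_pow, mul_pow, ← Real.rpow_natCast ((1 + r) ^ (-(N : ℝ))) 2,
          ← Real.rpow_mul (by linarith), ← Real.rpow_natCast (r ^ (1 / k - 1)) 2,
          ← Real.rpow_mul hr.le, mul_assoc]
        congr 3
        · push_cast; ring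
        · push_cast; ring
  have h3 := rho_le_u (k := k) hr
  have e1 : r ^ (2 / k) = r ^ (2 - 1 / k) * r ^ (1 / k) * r ^ (2 * (1 / k - 1)) := by
    rw [← Real.rpow_add hr, ← Real.rpow_add hr]; congr 1; ring
  have hu : 0 < r ^ (1 / k) := Real.rpow_pos_of_pos hr _
  have hv : 0 < r ^ (2 - 1 / k) := Real.rpow_pos_of_pos hr _
  calc hd k f' r = r ^ (2 - 1 / k) * rho k r * (f' r) ^ 2 := rfl
    _ ≤ r ^ (2 - 1 / k) * (Kθ * r ^ (1 / k)) *
          (C ^ 2 * (r ^ (2 * (1 / k - 1)) * (1 + r) ^ (-(2 * (N : ℝ))))) := by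
        apply mul_le_mul _ h2 (sq_nonneg _)
        · have := Kθ_pos
          positivity
        · exact mul_le_mul_of_nonneg_left h3 hv.le
    _ = Kθ * C ^ 2 * (r ^ (2 / k) * (1 + r) ^ (-(2 * (N : ℝ)))) := by rw [e1]; ring

theorem decay_bound {k r : ℝ} (hk : 1 < k) (hr : 0 < r) :
    r ^ (2 / k) * (1 + r) ^ (-(2 * ((3 : ℕ) : ℝ))) ≤ (1 + r) ^ (-(4 : ℝ)) := by
  calc r ^ (2 / k) * (1 + r) ^ (-(2 * ((3 : ℕ) : ℝ)))
      ≤ (1 + r) ^ (2 : ℝ) * (1 + r) ^ (-(2 * ((3 : ℕ) : ℝ))) := by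
        apply mul_le_mul_of_nonneg_right (rpow_le_one_add_sq hk hr) (by positivity)
    _ = (1 + r) ^ (-(4 : ℝ)) := by
        rw [← Real.rpow_add (by linarith)]; congr 1; push_cast; ring

theorem Good.gInt {k κ : ℝ} {f f' : ℝ → ℝ} (hk : 1 < k) (h : Good k κ f f') :
    IntegrableOn (gd k f) (Ioi 0) := by
  obtain ⟨C, hC0, hC⟩ := h.gd_le hk 3
  refine Integrable.mono' (integrableOn_one_add_neg4.const_mul C)
    ((gd_cont hk h.contOn).aestronglyMeasurable measurableSet_Ioi) ?_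
  filter_upwards [ae_restrict_mem measurableSet_Ioi] with r hr
  rw [Real.norm_of_nonneg (gd_nonneg hk f hr)]
  exact (hC r hr).trans (mul_le_mul_of_nonneg_left (decay_bound hk hr) hC0)

theorem Good.hInt {k κ : ℝ} {f f' : ℝ → ℝ} (hk : 1 < k) (h : Good k κ f f') :
    IntegrableOn (hd k f') (Ioi 0) := by
  obtain ⟨C, hC0, hC⟩ := h.hd_le hk 3
  refine Integrable.mono' (integrableOn_one_add_neg4.const_mul C)
    ((hd_cont hk h.cont').aestronglyMeasurable measurableSet_Ioi) ?_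
  filter_upwards [ae_restrict_mem measurableSet_Ioi] with r hr
  rw [Real.norm_of_nonneg (hd_nonneg hk f' hr)]
  exact (hC r hr).trans (mul_le_mul_of_nonneg_left (decay_bound hk hr) hC0)

theorem Nrm_eq (k : ℝ) (f : ℝ → ℝ) : Nrm k f = ∫ r in Ioi (0 : ℝ), gd k f r := rfl

theorem Nrm_nonneg {k : ℝ} (hk : 1 < k) (f : ℝ → ℝ) : 0 ≤ Nrm k f := by
  rw [Nrm_eq]
  exact setIntegral_nonneg measurableSet_Ioi (fun r hr => gd_nonneg hk f hr)

/-- The energy of `f'`. -/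
noncomputable def Hrm (k : ℝ) (f' : ℝ → ℝ) : ℝ := ∫ r in Ioi (0 : ℝ), hd k f' r

theorem Hrm_nonneg {k : ℝ} (hk : 1 < k) (f' : ℝ → ℝ) : 0 ≤ Hrm k f' :=
  setIntegral_nonneg measurableSet_Ioi (fun r hr => hd_nonneg hk f' hr)

theorem Good.Hrm_le {k κ : ℝ} {f f' : ℝ → ℝ} (h : Good k κ f f') :
    Hrm k f' ≤ (5 / 2) * κ ^ 2 * Nrm k f := h.ineq

/-- Cauchy-Schwarz for a measure, elementary form. -/
theorem cs_general {α : Type*} [MeasurableSpace α] {μ : Measure α} {u v : α → ℝ}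
    (hu : Integrable (fun x => u x ^ 2) μ) (hv : Integrable (fun x => v x ^ 2) μ)
    (huv : Integrable (fun x => u x * v x) μ) :
    (∫ x, u x * v x ∂μ) ^ 2 ≤ (∫ x, u x ^ 2 ∂μ) * (∫ x, v x ^ 2 ∂μ) := by
  have key : ∀ t : ℝ, 0 ≤ (∫ x, u x ^ 2 ∂μ) * (t * t) + (2 * ∫ x, u x * v x ∂μ) * t +
      ∫ x, v x ^ 2 ∂μ := by
    intro t
    have h0 : 0 ≤ ∫ x, (t * u x + v x) ^ 2 ∂μ := integral_nonneg fun x => sq_nonneg _
    have h1 : ∫ x, (t * u x + v x) ^ 2 ∂μ = (∫ x, u x ^ 2 ∂μ) * (t * t) +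
        (2 * ∫ x, u x * v x ∂μ) * t + ∫ x, v x ^ 2 ∂μ := by
      have e : (fun x => (t * u x + v x) ^ 2) = fun x =>
          (t * t) * u x ^ 2 + (2 * t) * (u x * v x) + v x ^ 2 := by
        funext x; ring
      have i1 : Integrable (fun x => (t * t) * u x ^ 2) μ := hu.const_mul _
      have i2 : Integrable (fun x => (2 * t) * (u x * v x)) μ := huv.const_mul _
      have i3 : Integrable (fun x => (t * t) * u x ^ 2 + (2 * t) * (u x * v x)) μ := i1.add i2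
      rw [e, integral_add i3 hv, integral_add i1 i2, integral_const_mul, integral_const_mul]
      ring
    rw [← h1]; exact h0
  have hd := discrim_le_zero key
  unfold discrim at hd
  nlinarith

/-- Increment bound on a compact interval of `(0,∞)`. -/
theorem Good.sub_sq_le {k κ : ℝ} {f f' : ℝ → ℝ} (h : Good k κ f f') {a b r s : ℝ} (ha : 0 < a)
    (hr : r ∈ Icc a b) (hs : s ∈ Icc a b) :
    (f r - f s) ^ 2 ≤ (b - a) * ∫ t in a..b, f' t ^ 2 := by
  wlog hrs : s ≤ r generalizing r s with H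
  · have := H hs hr (le_of_not_ge hrs)
    have e : (f r - f s) ^ 2 = (f s - f r) ^ 2 := by ring
    rw [e]; exact this
  have hab : a ≤ b := hr.1.trans hr.2
  have hcont : ContinuousOn f' (Icc a b) := h.cont'.mono (fun x hx => lt_of_lt_of_le ha hx.1)
  have hsub : Icc s r ⊆ Icc a b := Icc_subset_Icc hs.1 hr.2
  have hsub' : Icc s r ⊆ Ioi 0 := fun x hx => lt_of_lt_of_le (lt_of_lt_of_le ha hs.1) hx.1
  have hc1 : ContinuousOn f' (Icc s r) := hcont.mono hsub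
  have hint : ∫ t in s..r, f' t = f r - f s := by
    apply intervalIntegral.integral_eq_sub_of_hasDerivAt
    · intro x hx
      rw [uIcc_of_le hrs] at hx
      exact h.hasDeriv x (hsub' hx)
    · exact (hc1.mono (by rw [uIcc_of_le hrs])).intervalIntegrable
  have hcs : (∫ t in s..r, f' t) ^ 2 ≤ (∫ t in s..r, f' t ^ 2) * (r - s) := by
    rw [intervalIntegral.integral_of_le hrs, intervalIntegral.integral_of_le hrs]
    have i1 : IntegrableOn (fun t => f' t ^ 2) (Ioc s r) :=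
      ((hc1.pow 2).integrableOn_Icc).mono_set Ioc_subset_Icc_self
    have i2 : IntegrableOn f' (Ioc s r) := (hc1.integrableOn_Icc).mono_set Ioc_subset_Icc_self
    have i3 : IntegrableOn (fun _ : ℝ => (1 : ℝ) ^ 2) (Ioc s r) := by
      simp only [one_pow]
      exact integrableOn_const (by simp) (by simp)
    have := cs_general (μ := volume.restrict (Ioc s r)) (u := f') (v := fun _ => (1 : ℝ)) i1 i3
      (by simp only [mul_one]; exact i2)
    simp only [mul_one, one_pow] at this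
    refine this.trans (le_of_eq ?_)
    congr 1
    rw [integral_const]
    simp [measureReal_def, Real.volume_Ioc, ENNReal.toReal_ofReal (sub_nonneg.mpr hrs)]
  have hmono : (∫ t in s..r, f' t ^ 2) ≤ ∫ t in a..b, f' t ^ 2 := by
    rw [intervalIntegral.integral_of_le hrs, intervalIntegral.integral_of_le hab]
    apply setIntegral_mono_set
    · exact ((hcont.pow 2).integrableOn_Icc).mono_set Ioc_subset_Icc_self
    · exact Filter.Eventually.of_forall fun x => sq_nonneg _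
    · exact (Ioc_subset_Ioc hs.1 hr.2).eventuallyLE
  have h0 : 0 ≤ ∫ t in s..r, f' t ^ 2 :=
    intervalIntegral.integral_nonneg hrs (fun x _ => sq_nonneg _)
  rw [← hint]
  calc (∫ t in s..r, f' t) ^ 2 ≤ (∫ t in s..r, f' t ^ 2) * (r - s) := hcs
    _ ≤ (∫ t in a..b, f' t ^ 2) * (b - a) := by
        apply mul_le_mul hmono _ (by linarith) (h0.trans hmono)
        have := hr.2; have := hs.1; linarith
    _ = (b - a) * ∫ t in a..b, f' t ^ 2 := mul_comm _ _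

end Pool.Agent.Lib.MP_0bb3d8_nt
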