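import Pool.Agent.Lib.MP_0bb3d8_nt.A6

/-!
# A5 (second part): the dilated Bessel inequality over primes
-/

set_option autoImplicit false

open Real MeasureTheory Polynomial Set

namespace Pool.Agent.Lib.MP_0bb3d8_nt

/-- the points of the cell decomposition -/
noncomputable def cellPt (c x₀ : ℝ) : ℕ → ℝ
  | 0 => x₀
  | (i + 1) => cellPt c x₀ i + (cellPt c x₀ i) ^ (1 - c)

lemma cellPt_ge {c x₀ : ℝ} (hc : c < 1) (hx : 1 ≤ x₀) (i : ℕ) : x₀ + i ≤ cellPt c x₀ i := by
  induction i with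
  | zero => simp [cellPt]
  | succ i ih =>
    have h1 : (1 : ℝ) ≤ cellPt c x₀ i := by
      have : (0 : ℝ) ≤ i := Nat.cast_nonneg i
      linarith
    have h2 : (1 : ℝ) ≤ (cellPt c x₀ i) ^ (1 - c) := Real.one_le_rpow h1 (by linarith)
    simp only [cellPt]
    push_cast
    linarith

lemma cellPt_one_le {c x₀ : ℝ} (hc : c < 1) (hx : 1 ≤ x₀) (i : ℕ) : 1 ≤ cellPt c x₀ i := by
  have h1 := cellPt_ge hc hx i
  have : (0 : ℝ) ≤ i := Nat.cast_nonneg i
  linarith

lemma cellPt_le_succ {c x₀ : ℝ} (hc : c < 1) (hx : 1 ≤ x₀) (i : ℕ) :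
    cellPt c x₀ i ≤ cellPt c x₀ (i + 1) := by
  have h1 := cellPt_one_le hc hx i
  have h2 : (0 : ℝ) ≤ (cellPt c x₀ i) ^ (1 - c) := by positivity
  simp only [cellPt]
  linarith

lemma exists_cell {c x₀ y : ℝ} (hy : x₀ ≤ y) (N : ℕ) (hN : y ≤ cellPt c x₀ (N + 1)) :
    ∃ i ≤ N, cellPt c x₀ i ≤ y ∧ y ≤ cellPt c x₀ (i + 1) := by
  induction N with
  | zero => exact ⟨0, le_rfl, by simpa [cellPt] using hy, hN⟩
  | succ N ih =>
    rcases le_total (cellPt c x₀ (N + 1)) y with h | h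
    · exact ⟨N + 1, le_rfl, h, hN⟩
    · obtain ⟨i, hi, h1, h2⟩ := ih h
      exact ⟨i, hi.trans (Nat.le_succ N), h1, h2⟩

/-- the closed cell -/
noncomputable def cell (c x : ℝ) : Finset ℕ :=
  (Finset.range (⌊x + x ^ (1 - c)⌋₊ + 1)).filter (fun p => p.Prime ∧ x ≤ p)

lemma mem_cell {c x : ℝ} (hx : 0 < x) (p : ℕ) :
    p ∈ cell c x ↔ p.Prime ∧ x ≤ p ∧ (p : ℝ) ≤ x + x ^ (1 - c) := by
  have h1 : 0 ≤ x + x ^ (1 - c) := by positivity
  rw [cell, Finset.mem_filter, Finset.mem_range, Nat.lt_succ_iff, Nat.le_floor_iff h1]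
  tauto

lemma cell_log {c c₁ C₁ X₀ x : ℝ} (hP : PrimesOK c c₁ C₁ X₀) (hx : X₀ ≤ x) :
    ∑ p ∈ cell c x, Real.log p ≤ (C₁ + 1 / (1 - c)) * x ^ (1 - c) := by
  obtain ⟨hc0, hc1, hc₁, hX₀, h⟩ := hP
  have hx1 : 1 ≤ x := hX₀.trans hx
  have hx0 : 0 < x := by linarith
  have h2 := (h x hx).2
  have hsub : cell c x ⊆ insert ⌊x⌋₊
      ((Finset.Ioc ⌊x⌋₊ ⌊x + x ^ (1 - c)⌋₊).filter Nat.Prime) := by
    intro p hp
    rw [mem_cell hx0] at hp
    obtain ⟨hp1, hp2, hp3⟩ := hp
    rw [Finset.mem_insert, Finset.mem_filter, Finset.mem_Ioc]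
    have h3 : ⌊x⌋₊ ≤ p := by
      have := Nat.floor_le_floor hp2
      rwa [Nat.floor_natCast] at this
    have h4 : p ≤ ⌊x + x ^ (1 - c)⌋₊ := Nat.le_floor hp3
    rcases h3.eq_or_lt with h5 | h5
    · exact Or.inl h5.symm
    · exact Or.inr ⟨⟨h5, h4⟩, hp1⟩
  have h3 : ∑ p ∈ cell c x, Real.log p ≤ ∑ p ∈ insert ⌊x⌋₊
      ((Finset.Ioc ⌊x⌋₊ ⌊x + x ^ (1 - c)⌋₊).filter Nat.Prime), Real.log p :=
    Finset.sum_le_sum_of_subset_of_nonneg hsub fun p _ _ => Real.log_natCast_nonneg p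
  rw [Finset.sum_insert (by simp)] at h3
  have h4 : Real.log (⌊x⌋₊ : ℝ) ≤ 1 / (1 - c) * x ^ (1 - c) := by
    have h5 : Real.log (⌊x⌋₊ : ℝ) ≤ Real.log x := by
      apply Real.log_le_log
      · exact_mod_cast Nat.floor_pos.mpr hx1
      · exact Nat.floor_le hx0.le
    have h6 := Real.log_le_rpow_div hx0.le (show 0 < 1 - c by linarith)
    rw [div_mul_eq_mul_div, one_mul]
    exact h5.trans h6
  linarith

section

variable {k κ : ℝ} {f f' : ℝ → ℝ}

/-- the sum over one cell -/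
lemma Good.cell_sum (hk1 : 1 < k) (h : Good k κ f f') {c D Cd x m : ℝ} (hc0 : 0 < c) (hc1 : c < 1)
    (hk : 2 / c ≤ k)
    (hCd : 0 < Cd) (hdil : ∀ m r : ℝ, 1 ≤ m → m ^ 2 ≤ r →
      rho k (r / m) ≤ Cd * m ^ (-(1 / (2 * k))) * rho k r)
    (hm : 1 ≤ m) (hmx : m ≤ x) (hD : ∑ p ∈ cell c x, Real.log p ≤ D * x ^ (1 - c)) (hD0 : 0 < D) :
    ∑ p ∈ cell c x, W k p * f ((p : ℝ) * m) ^ 2 ≤
      4 * D * Cd * m ^ (-(1 + 3 / (2 * k))) *
        ((∫ r in (m * x)..(m * (x + x ^ (1 - c))), r ^ (1 / k) * rho k r * f r ^ 2) +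
        2 * ∫ r in (m * x)..(m * (x + x ^ (1 - c))), r * rho k r * (|f r| * |f' r|)) := by
  have hm0 : 0 < m := by linarith
  have hx1 : 1 ≤ x := hm.trans hmx
  have hx0 : 0 < x := by linarith
  have hk0 : 0 < k := by linarith
  set ℓ := x ^ (1 - c) with hℓ
  have hℓ0 : 0 < ℓ := by positivity
  have hℓx : ℓ ≤ x := by
    calc ℓ ≤ x ^ (1 : ℝ) := Real.rpow_le_rpow_of_exponent_le hx1 (by linarith)
      _ = x := Real.rpow_one x
  have hρx := rho_pos hk1 hx0
  have ha : 0 < m * x := by positivity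
  have hab : m * x < m * (x + ℓ) := by
    apply mul_lt_mul_of_pos_left _ hm0
    linarith
  have hbl : m * (x + ℓ) - m * x = m * ℓ := by ring
  set I1 := ∫ s in (m * x)..(m * (x + ℓ)), f s ^ 2 with hI1
  set I2 := ∫ s in (m * x)..(m * (x + ℓ)), |f s| * |f' s| with hI2
  have hI1n : 0 ≤ I1 := intervalIntegral.integral_nonneg hab.le fun s _ => sq_nonneg _
  have hI2n : 0 ≤ I2 := intervalIntegral.integral_nonneg hab.le fun s _ => by positivity
  set wx := x ^ (1 / k) * rho k x with hwx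
  have hwx0 : 0 < wx := by positivity
  -- step 1: bound each term
  have step1 : ∀ p ∈ cell c x, W k p * f ((p : ℝ) * m) ^ 2 ≤
      Real.log p * (4 * wx * ((m * ℓ)⁻¹ * I1 + 2 * I2)) := by
    intro p hp
    rw [mem_cell hx0] at hp
    obtain ⟨hp1, hp2, hp3⟩ := hp
    have hp0 : (0 : ℝ) < p := hx0.trans_le hp2
    have hlog : 0 ≤ Real.log (p : ℝ) := Real.log_natCast_nonneg p
    have hs := h.sample (a := m * x) (b := m * (x + ℓ)) (x := (p : ℝ) * m) ha hab
      ⟨by rw [mul_comm (p : ℝ) m]; exact mul_le_mul_of_nonneg_left hp2 hm0.le,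
       by rw [mul_comm (p : ℝ) m]; exact mul_le_mul_of_nonneg_left hp3 hm0.le⟩
    rw [hbl] at hs
    have hp4 : (p : ℝ) ≤ 2 * x := by linarith
    have hW : (p : ℝ) ^ (1 / k) * rho k p ≤ 4 * wx := by
      have h1 := weight_mono hk1 hp0 hp4
      have h2 := rho_double hk1 x hx0
      have h3 : (2 * x) ^ (1 / k) ≤ 2 * x ^ (1 / k) := by
        rw [Real.mul_rpow two_pos.le hx0.le]
        apply mul_le_mul_of_nonneg_right _ (by positivity)
        calc (2 : ℝ) ^ (1 / k) ≤ 2 ^ (1 : ℝ) := by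
              apply Real.rpow_le_rpow_of_exponent_le (by norm_num)
              rw [div_le_one hk0]; linarith
          _ = 2 := Real.rpow_one 2
      have h4 : 0 < rho k (2 * x) := rho_pos hk1 (by positivity)
      calc (p : ℝ) ^ (1 / k) * rho k p ≤ (2 * x) ^ (1 / k) * rho k (2 * x) := h1
        _ ≤ (2 * x ^ (1 / k)) * (2 * rho k x) := mul_le_mul h3 h2 h4.le (by positivity)
        _ = 4 * wx := by rw [hwx]; ring
    calc W k p * f ((p : ℝ) * m) ^ 2
        = Real.log p * (((p : ℝ) ^ (1 / k) * rho k p) * f ((p : ℝ) * m) ^ 2) := by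
          unfold W; ring
      _ ≤ Real.log p * (4 * wx * ((m * ℓ)⁻¹ * I1 + 2 * I2)) := by
          apply mul_le_mul_of_nonneg_left _ hlog
          exact mul_le_mul hW hs (sq_nonneg _) (by positivity)
  have step2 : ∑ p ∈ cell c x, W k p * f ((p : ℝ) * m) ^ 2 ≤
      D * ℓ * (4 * wx * ((m * ℓ)⁻¹ * I1 + 2 * I2)) := by
    refine (Finset.sum_le_sum step1).trans ?_
    rw [← Finset.sum_mul]
    exact mul_le_mul_of_nonneg_right hD (by positivity)
  have step3 : D * ℓ * (4 * wx * ((m * ℓ)⁻¹ * I1 + 2 * I2)) =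
      4 * D * (m⁻¹ * (wx * I1) + 2 * (ℓ * wx * I2)) := by
    field_simp
  -- pointwise comparison
  have hm2 : ∀ r, m * x ≤ r → m ^ 2 ≤ r := fun r hr => by
    calc m ^ 2 = m * m := by ring
      _ ≤ m * x := mul_le_mul_of_nonneg_left hmx hm0.le
      _ ≤ r := hr
  have hrhox : ∀ r, m * x ≤ r → rho k x ≤ Cd * m ^ (-(1 / (2 * k))) * rho k r := fun r hr => by
    have hxr : x ≤ r / m := by rw [le_div_iff₀ hm0]; linarith
    have hr0 : 0 < r / m := hx0.trans_le hxr
    exact (rho_mono hk1 hx0 hr0 hxr).trans (hdil m r hm (hm2 r hr))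
  have cmp1 : ∀ r, m * x ≤ r →
      wx ≤ Cd * m ^ (-(3 / (2 * k))) * (r ^ (1 / k) * rho k r) := fun r hr => by
    have hr0 : 0 < r := ha.trans_le hr
    have hxr : x ≤ r / m := by rw [le_div_iff₀ hm0]; linarith
    have h1 : x ^ (1 / k) ≤ m ^ (-(1 / k)) * r ^ (1 / k) := by
      calc x ^ (1 / k) ≤ (r / m) ^ (1 / k) := Real.rpow_le_rpow hx0.le hxr (by positivity)
        _ = m ^ (-(1 / k)) * r ^ (1 / k) := by
          rw [Real.div_rpow hr0.le hm0.le, Real.rpow_neg hm0.le]; ring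
    have hρr := rho_pos hk1 hr0
    calc wx ≤ (m ^ (-(1 / k)) * r ^ (1 / k)) * (Cd * m ^ (-(1 / (2 * k))) * rho k r) :=
          mul_le_mul h1 (hrhox r hr) hρx.le (by positivity)
      _ = Cd * (m ^ (-(1 / k)) * m ^ (-(1 / (2 * k)))) * (r ^ (1 / k) * rho k r) := by ring
      _ = Cd * m ^ (-(3 / (2 * k))) * (r ^ (1 / k) * rho k r) := by
          rw [← Real.rpow_add hm0]
          congr 3
          field_simp
          ring
  have cmp2 : ∀ r, m * x ≤ r →
      ℓ * wx ≤ Cd * m ^ (-(1 + 3 / (2 * k))) * (r * rho k r) := fun r hr => by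
    have hr0 : 0 < r := ha.trans_le hr
    have hρr := rho_pos hk1 hr0
    have h1 : ℓ * x ^ (1 / k) ≤ m ^ (-(1 + 1 / k)) * r := by
      have e1 : ℓ * x ^ (1 / k) = x * x ^ (1 / k - c) := by
        rw [hℓ, ← Real.rpow_add hx0]
        nth_rewrite 2 [← Real.rpow_one x]
        rw [← Real.rpow_add hx0]
        congr 1; ring
      have h2 : m ^ (1 / k) * x ^ (1 / k - c) ≤ 1 := by
        calc m ^ (1 / k) * x ^ (1 / k - c) ≤ x ^ (1 / k) * x ^ (1 / k - c) := by
              apply mul_le_mul_of_nonneg_right _ (by positivity)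
              exact Real.rpow_le_rpow hm0.le hmx (by positivity)
          _ = x ^ (2 / k - c) := by rw [← Real.rpow_add hx0]; congr 1; ring
          _ ≤ x ^ (0 : ℝ) := by
              apply Real.rpow_le_rpow_of_exponent_le hx1
              have : 2 / k ≤ c := by
                rw [div_le_iff₀ hk0]
                rw [div_le_iff₀ hc0] at hk
                linarith
              linarith
          _ = 1 := Real.rpow_zero x
      have h3 : x ^ (1 / k - c) ≤ m ^ (-(1 / k)) := by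
        rw [Real.rpow_neg hm0.le, ← one_div, le_div_iff₀ (by positivity), mul_comm]
        exact h2
      calc ℓ * x ^ (1 / k) = x * x ^ (1 / k - c) := e1
        _ ≤ (m⁻¹ * r) * m ^ (-(1 / k)) := by
            apply mul_le_mul _ h3 (by positivity) (by positivity)
            rw [inv_mul_eq_div, le_div_iff₀ hm0]; linarith
        _ = (m ^ (-(1 : ℝ)) * m ^ (-(1 / k))) * r := by rw [Real.rpow_neg_one]; ring
        _ = m ^ (-(1 + 1 / k)) * r := by rw [← Real.rpow_add hm0]; congr 2; ring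
    calc ℓ * wx = (ℓ * x ^ (1 / k)) * rho k x := by rw [hwx]; ring
      _ ≤ (m ^ (-(1 + 1 / k)) * r) * (Cd * m ^ (-(1 / (2 * k))) * rho k r) :=
          mul_le_mul h1 (hrhox r hr) hρx.le (by positivity)
      _ = Cd * (m ^ (-(1 + 1 / k)) * m ^ (-(1 / (2 * k)))) * (r * rho k r) := by ring
      _ = Cd * m ^ (-(1 + 3 / (2 * k))) * (r * rho k r) := by
          rw [← Real.rpow_add hm0]
          congr 3
          field_simp
          ring
  have int1 : wx * I1 ≤ Cd * m ^ (-(3 / (2 * k))) *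
      ∫ r in (m * x)..(m * (x + ℓ)), r ^ (1 / k) * rho k r * f r ^ 2 := by
    rw [hI1, ← intervalIntegral.integral_const_mul, ← intervalIntegral.integral_const_mul]
    apply intervalIntegral.integral_mono_on hab.le
    · exact (h.ii_sq ha hab.le).const_mul _
    · exact (h.ii_f hk1 ha hab.le).const_mul _
    · intro r hr
      have := mul_le_mul_of_nonneg_right (cmp1 r hr.1) (sq_nonneg (f r))
      linarith
  have int2 : ℓ * wx * I2 ≤ Cd * m ^ (-(1 + 3 / (2 * k))) *
      ∫ r in (m * x)..(m * (x + ℓ)), r * rho k r * (|f r| * |f' r|) := by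
    rw [hI2, ← intervalIntegral.integral_const_mul, ← intervalIntegral.integral_const_mul]
    apply intervalIntegral.integral_mono_on hab.le
    · exact (h.ii_abs ha hab.le).const_mul _
    · exact (h.ii_cross hk1 ha hab.le).const_mul _
    · intro r hr
      have := mul_le_mul_of_nonneg_right (cmp2 r hr.1) (by positivity : 0 ≤ |f r| * |f' r|)
      linarith
  have em : m⁻¹ * m ^ (-(3 / (2 * k))) = m ^ (-(1 + 3 / (2 * k))) := by
    rw [← Real.rpow_neg_one, ← Real.rpow_add hm0]; congr 1; ring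
  refine step2.trans ?_
  rw [step3]
  have int1' : m⁻¹ * (wx * I1) ≤ Cd * m ^ (-(1 + 3 / (2 * k))) *
      ∫ r in (m * x)..(m * (x + ℓ)), r ^ (1 / k) * rho k r * f r ^ 2 := by
    calc m⁻¹ * (wx * I1) ≤ m⁻¹ * (Cd * m ^ (-(3 / (2 * k))) *
        ∫ r in (m * x)..(m * (x + ℓ)), r ^ (1 / k) * rho k r * f r ^ 2) :=
          mul_le_mul_of_nonneg_left int1 (by positivity)
      _ = _ := by rw [← em]; ring
  calc 4 * D * (m⁻¹ * (wx * I1) + 2 * (ℓ * wx * I2)) ≤
      4 * D * (Cd * m ^ (-(1 + 3 / (2 * k))) *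
        (∫ r in (m * x)..(m * (x + ℓ)), r ^ (1 / k) * rho k r * f r ^ 2) +
        2 * (Cd * m ^ (-(1 + 3 / (2 * k))) *
        ∫ r in (m * x)..(m * (x + ℓ)), r * rho k r * (|f r| * |f' r|))) := by
        apply mul_le_mul_of_nonneg_left _ (by positivity)
        linarith
    _ = _ := by ring

end

theorem bessel_dil {c c₁ C₁ X₀ k : ℝ} (hP : PrimesOK c c₁ C₁ X₀) (hk : 2 / c ≤ k) :
    ∃ C : ℝ, 0 < C ∧ ∀ (κ : ℝ) (f f' : ℝ → ℝ), 0 < κ → κ ≤ 1 → Good k κ f f' →
      ∀ m : ℕ, 1 ≤ m →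
      Summable (fun p : ℕ => if p.Prime ∧ X₀ ≤ p ∧ m ≤ p then W k p * f ((p * m : ℕ) : ℝ) ^ 2
        else 0) ∧
      ∑' p : ℕ, (if p.Prime ∧ X₀ ≤ p ∧ m ≤ p then W k p * f ((p * m : ℕ) : ℝ) ^ 2 else 0) ≤
        C * (m : ℝ) ^ (-(1 + 3 / (2 * k))) * Nrm k f := by
  have hP' := hP
  obtain ⟨hc0, hc1, hc₁, hX₀, hPr⟩ := hP'
  have hk1 : 1 < k := by
    have : 2 < 2 / c := by rw [lt_div_iff₀ hc0]; linarith
    linarith
  obtain ⟨Cd, hCd, hdil⟩ := rho_dilate hk1
  set D := C₁ + 1 / (1 - c) with hD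
  have hC₁ : 0 < C₁ := by
    have h1 := hPr X₀ le_rfl
    have h2 : 0 < c₁ * X₀ ^ (1 - c) := by positivity
    have h3 : 0 < C₁ * X₀ ^ (1 - c) := by linarith
    exact (mul_pos_iff_of_pos_right (by positivity)).mp h3
  have hD0 : 0 < D := by
    have : 0 < 1 / (1 - c) := by apply div_pos one_pos; linarith
    positivity
  refine ⟨20 * D * Cd, by positivity, fun κ f f' hκ hκ1 h m hm => ?_⟩
  have hmR : (1 : ℝ) ≤ m := by exact_mod_cast hm
  have hm0 : (0 : ℝ) < m := by linarith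
  set x₀ : ℝ := max (m : ℝ) X₀ with hx₀
  have hx₀1 : 1 ≤ x₀ := hmR.trans (le_max_left _ _)
  set F : ℕ → ℝ := fun p => if p.Prime ∧ X₀ ≤ p ∧ m ≤ p then W k p * f ((p * m : ℕ) : ℝ) ^ 2
        else 0 with hF
  have hWn : ∀ p : ℕ, 0 ≤ W k p := by
    intro p
    rcases Nat.eq_zero_or_pos p with rfl | hp
    · unfold W; simp
    · unfold W
      have : 0 < rho k p := rho_pos hk1 (by positivity)
      have := Real.log_natCast_nonneg p
      positivity
  have hFn : ∀ p, 0 ≤ F p := by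
    intro p
    simp only [hF]
    split_ifs
    · have := hWn p
      positivity
    · exact le_rfl
  have hN := Nrm_nonneg hk1 f
  have hx1 : ∀ i, 1 ≤ cellPt c x₀ i := fun i => cellPt_one_le hc1 hx₀1 i
  have hxx₀ : ∀ i, x₀ ≤ cellPt c x₀ i := fun i => by
    have h1 := cellPt_ge (c := c) hc1 hx₀1 i
    have : (0 : ℝ) ≤ i := Nat.cast_nonneg i
    linarith
  have hbound : ∀ M : ℕ, ∑ p ∈ Finset.range M, F p ≤
      20 * D * Cd * (m : ℝ) ^ (-(1 + 3 / (2 * k))) * Nrm k f := by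
    intro M
    have s1 : ∑ p ∈ Finset.range M, F p ≤ ∑ i ∈ Finset.range (M + 1),
        ∑ p ∈ cell c (cellPt c x₀ i), W k p * f ((p : ℝ) * m) ^ 2 := by
      have t1 : ∀ p ∈ Finset.range M, F p ≤ ∑ i ∈ Finset.range (M + 1),
          if p ∈ cell c (cellPt c x₀ i) then W k p * f ((p : ℝ) * m) ^ 2 else 0 := by
        intro p hp
        rw [Finset.mem_range] at hp
        have hnn : ∀ i ∈ Finset.range (M + 1), 0 ≤
            (if p ∈ cell c (cellPt c x₀ i) then W k p * f ((p : ℝ) * m) ^ 2 else 0) := by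
          intro i _
          have := hWn p
          split_ifs
          · positivity
          · exact le_rfl
        by_cases hcond : p.Prime ∧ X₀ ≤ p ∧ m ≤ p
        · obtain ⟨hpp, hpX, hpm⟩ := hcond
          have hpx : x₀ ≤ p := max_le (by exact_mod_cast hpm) hpX
          have hpM : (p : ℝ) ≤ cellPt c x₀ (M + 1) := by
            have h1 := cellPt_ge (c := c) hc1 hx₀1 (M + 1)
            have h2 : (p : ℝ) ≤ ((M + 1 : ℕ) : ℝ) := by exact_mod_cast (by omega)
            linarith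
          obtain ⟨i, hi, hi1, hi2⟩ := exists_cell hpx M hpM
          have hmem : p ∈ cell c (cellPt c x₀ i) := by
            rw [mem_cell (by linarith [hx1 i])]
            exact ⟨hpp, hi1, by simpa [cellPt] using hi2⟩
          have hFp : F p = if p ∈ cell c (cellPt c x₀ i) then W k p * f ((p : ℝ) * m) ^ 2
              else 0 := by
            simp only [hF]
            rw [if_pos ⟨hpp, hpX, hpm⟩, if_pos hmem]
            push_cast
            ring
          rw [hFp]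
          exact Finset.single_le_sum (f := fun i => if p ∈ cell c (cellPt c x₀ i) then
            W k p * f ((p : ℝ) * m) ^ 2 else 0) hnn (Finset.mem_range.mpr (by omega))
        · have : F p = 0 := by simp only [hF]; rw [if_neg hcond]
          rw [this]
          exact Finset.sum_nonneg hnn
      refine (Finset.sum_le_sum t1).trans ?_
      rw [Finset.sum_comm]
      apply Finset.sum_le_sum
      intro i _
      rw [← Finset.sum_filter]
      apply Finset.sum_le_sum_of_subset_of_nonneg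
      · intro p hp
        exact (Finset.mem_filter.mp hp).2
      · intro p _ _
        have := hWn p
        positivity
    refine s1.trans ?_
    have s2 : ∀ i ∈ Finset.range (M + 1),
        ∑ p ∈ cell c (cellPt c x₀ i), W k p * f ((p : ℝ) * m) ^ 2 ≤
        4 * D * Cd * (m : ℝ) ^ (-(1 + 3 / (2 * k))) *
        ((∫ r in ((m : ℝ) * cellPt c x₀ i)..((m : ℝ) * cellPt c x₀ (i + 1)),
            r ^ (1 / k) * rho k r * f r ^ 2) +
        2 * ∫ r in ((m : ℝ) * cellPt c x₀ i)..((m : ℝ) * cellPt c x₀ (i + 1)),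
            r * rho k r * (|f r| * |f' r|)) := by
      intro i _
      have hcl := cell_log hP ((le_max_right (m : ℝ) X₀).trans (hxx₀ i))
      exact h.cell_sum hk1 hc0 hc1 hk hCd hdil hmR ((le_max_left (m : ℝ) X₀).trans (hxx₀ i)) hcl hD0
    refine (Finset.sum_le_sum s2).trans ?_
    rw [← Finset.mul_sum, Finset.sum_add_distrib, ← Finset.mul_sum]
    have hpos : ∀ i, (0 : ℝ) < (m : ℝ) * cellPt c x₀ i := fun i => by
      have := hx1 i
      positivity
    have hle : ∀ i, (m : ℝ) * cellPt c x₀ i ≤ (m : ℝ) * cellPt c x₀ (i + 1) := fun i =>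
      mul_le_mul_of_nonneg_left (cellPt_le_succ hc1 hx₀1 i) hm0.le
    have t1 := intervalIntegral.sum_integral_adjacent_intervals
      (f := fun r => r ^ (1 / k) * rho k r * f r ^ 2) (μ := volume)
      (a := fun i => (m : ℝ) * cellPt c x₀ i) (n := M + 1)
      (fun i _ => h.ii_f hk1 (hpos i) (hle i))
    have t2 := intervalIntegral.sum_integral_adjacent_intervals
      (f := fun r => r * rho k r * (|f r| * |f' r|)) (μ := volume)
      (a := fun i => (m : ℝ) * cellPt c x₀ i) (n := M + 1)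
      (fun i _ => h.ii_cross hk1 (hpos i) (hle i))
    rw [t1, t2]
    have hMle : (m : ℝ) * cellPt c x₀ 0 ≤ (m : ℝ) * cellPt c x₀ (M + 1) := by
      apply mul_le_mul_of_nonneg_left _ hm0.le
      exact hxx₀ (M + 1)
    have b1 := h.interval_f hk1 (hpos 0) hMle
    have b2 := h.interval_cross hk1 hκ (hpos 0) hMle
    have b3 : κ * Nrm k f ≤ Nrm k f := by nlinarith
    calc _ ≤ 4 * D * Cd * (m : ℝ) ^ (-(1 + 3 / (2 * k))) * (Nrm k f + 2 * (2 * κ * Nrm k f)) := by
          apply mul_le_mul_of_nonneg_left _ (by positivity)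
          exact add_le_add b1 (mul_le_mul_of_nonneg_left b2 two_pos.le)
      _ ≤ 4 * D * Cd * (m : ℝ) ^ (-(1 + 3 / (2 * k))) * (5 * Nrm k f) := by
          apply mul_le_mul_of_nonneg_left _ (by positivity)
          linarith
      _ = _ := by ring
  exact ⟨summable_of_sum_range_le hFn hbound, Real.tsum_le_of_sum_range_le hFn hbound⟩

end Pool.Agent.Lib.MP_0bb3d8_nt
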