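import Pool.Agent.Lib.MP_0bb3d8_nt.GoodBasic

/-!
# A5 (first part) and A6: Bessel inequality over the integers, pointwise bound
-/

set_option autoImplicit false

open Real MeasureTheory Polynomial Set

namespace Pool.Agent.Lib.MP_0bb3d8_nt

section

variable {k κ : ℝ} {f f' : ℝ → ℝ}

lemma weight_mono (hk : 1 < k) {a b : ℝ} (ha : 0 < a) (hab : a ≤ b) :
    a ^ (1 / k) * rho k a ≤ b ^ (1 / k) * rho k b := by
  have hb : 0 < b := ha.trans_le hab
  apply mul_le_mul _ (rho_mono hk ha hb hab) (rho_pos hk ha).le (by positivity)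
  exact Real.rpow_le_rpow ha.le hab (by positivity)

lemma weight_le_mul (hk : 1 < k) {a b : ℝ} (ha : 1 ≤ a) (hab : a ≤ b) :
    a ^ (1 / k) * rho k a ≤ b * rho k b := by
  have ha0 : 0 < a := by linarith
  have hb : 0 < b := ha0.trans_le hab
  apply mul_le_mul _ (rho_mono hk ha0 hb hab) (rho_pos hk ha0).le hb.le
  calc a ^ (1 / k) ≤ a ^ (1 : ℝ) := by
        apply Real.rpow_le_rpow_of_exponent_le ha
        rw [div_le_one (by positivity)]; linarith
    _ = a := Real.rpow_one a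
    _ ≤ b := hab

/-- interval integrability of nonnegative pieces -/
lemma Good.ii_f (hk : 1 < k) (h : Good k κ f f') {a b : ℝ} (ha : 0 < a) (hab : a ≤ b) :
    IntervalIntegrable (fun r => r ^ (1 / k) * rho k r * f r ^ 2) volume a b := by
  apply ContinuousOn.intervalIntegrable
  rw [uIcc_of_le hab]
  have hsub : Icc a b ⊆ Ioi 0 := fun y hy => ha.trans_le hy.1
  exact ((contOn_w hk _).mul (h.contOn.pow 2)).mono hsub

lemma Good.ii_cross (hk : 1 < k) (h : Good k κ f f') {a b : ℝ} (ha : 0 < a) (hab : a ≤ b) :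
    IntervalIntegrable (fun r => r * rho k r * (|f r| * |f' r|)) volume a b := by
  apply ContinuousOn.intervalIntegrable
  rw [uIcc_of_le hab]
  have hsub : Icc a b ⊆ Ioi 0 := fun y hy => ha.trans_le hy.1
  exact ((continuousOn_id.mul (rho_cont hk)).mul (h.contOn.abs.mul h.cont'.abs)).mono hsub

lemma Good.ii_sq (h : Good k κ f f') {a b : ℝ} (ha : 0 < a) (hab : a ≤ b) :
    IntervalIntegrable (fun r => f r ^ 2) volume a b := by
  apply ContinuousOn.intervalIntegrable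
  rw [uIcc_of_le hab]
  have hsub : Icc a b ⊆ Ioi 0 := fun y hy => ha.trans_le hy.1
  exact (h.contOn.pow 2).mono hsub

lemma Good.ii_abs (h : Good k κ f f') {a b : ℝ} (ha : 0 < a) (hab : a ≤ b) :
    IntervalIntegrable (fun r => |f r| * |f' r|) volume a b := by
  apply ContinuousOn.intervalIntegrable
  rw [uIcc_of_le hab]
  have hsub : Icc a b ⊆ Ioi 0 := fun y hy => ha.trans_le hy.1
  exact (h.contOn.abs.mul h.cont'.abs).mono hsub

/-- a finite interval integral of a nonnegative function is at most the full integral -/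
lemma interval_le_Ioi {g : ℝ → ℝ} (hg : IntegrableOn g (Ioi 0)) (hpos : ∀ r, 0 < r → 0 ≤ g r)
    {a b : ℝ} (ha : 0 < a) (hab : a ≤ b) : ∫ r in a..b, g r ≤ ∫ r in Ioi (0 : ℝ), g r := by
  rw [intervalIntegral.integral_of_le hab]
  apply setIntegral_mono_set hg
  · rw [Filter.EventuallyLE, ae_restrict_iff' measurableSet_Ioi]
    exact Filter.Eventually.of_forall fun r hr => hpos r hr
  · apply Filter.Eventually.of_forall
    intro r hr
    exact ha.trans hr.1

lemma Good.interval_f (hk : 1 < k) (h : Good k κ f f') {a b : ℝ} (ha : 0 < a) (hab : a ≤ b) :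
    ∫ r in a..b, r ^ (1 / k) * rho k r * f r ^ 2 ≤ Nrm k f := by
  apply interval_le_Ioi (h.integrable_f hk) _ ha hab
  intro r hr
  have := rho_pos hk hr
  positivity

lemma Good.interval_cross (hk : 1 < k) (h : Good k κ f f') (hκ : 0 < κ) {a b : ℝ} (ha : 0 < a)
    (hab : a ≤ b) : ∫ r in a..b, r * rho k r * (|f r| * |f' r|) ≤ 2 * κ * Nrm k f := by
  refine (interval_le_Ioi (h.integrable_cross hk) ?_ ha hab).trans (h.cross_integral hk hκ)
  intro r hr
  have := rho_pos hk hr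
  positivity

/-- one term of the Bessel sum -/
lemma Good.term_nat (hk : 1 < k) (h : Good k κ f f') {n : ℝ} (hn : 1 ≤ n) :
    n ^ (1 / k) * rho k n * f n ^ 2 ≤ (∫ r in n..(n + 1), r ^ (1 / k) * rho k r * f r ^ 2) +
      2 * ∫ r in n..(n + 1), r * rho k r * (|f r| * |f' r|) := by
  have hn0 : 0 < n := by linarith
  have hρ := rho_pos hk hn0
  have h1 := h.sample (a := n) (b := n + 1) (x := n) hn0 (by linarith) ⟨le_rfl, by linarith⟩
  have e1 : (n + 1 - n)⁻¹ = (1 : ℝ) := by norm_num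
  rw [e1, one_mul] at h1
  have hw : 0 ≤ n ^ (1 / k) * rho k n := by positivity
  have h2 := mul_le_mul_of_nonneg_left h1 hw
  refine h2.trans ?_
  rw [mul_add]
  have hle : n ≤ n + 1 := by linarith
  apply add_le_add
  · rw [← intervalIntegral.integral_const_mul]
    apply intervalIntegral.integral_mono_on hle
    · exact (h.ii_sq hn0 hle).const_mul _
    · exact h.ii_f hk hn0 hle
    · intro r hr
      exact mul_le_mul_of_nonneg_right (weight_mono hk hn0 hr.1) (sq_nonneg _)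
  · rw [← mul_assoc, mul_comm (n ^ (1 / k) * rho k n) 2, mul_assoc]
    apply mul_le_mul_of_nonneg_left _ two_pos.le
    rw [← intervalIntegral.integral_const_mul]
    apply intervalIntegral.integral_mono_on hle
    · exact (h.ii_abs hn0 hle).const_mul _
    · exact h.ii_cross hk hn0 hle
    · intro r hr
      exact mul_le_mul_of_nonneg_right (weight_le_mul hk hn hr.1) (by positivity)

lemma Good.partial_nat (hk : 1 < k) (h : Good k κ f f') (hκ : 0 < κ) (hκ1 : κ ≤ 1) (N : ℕ) :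
    ∑ n ∈ Finset.range N, ((n : ℝ) ^ (1 / k) * rho k n * f n ^ 2) ≤ 5 * Nrm k f := by
  have hN := Nrm_nonneg hk f
  have hk0 : 1 / k ≠ 0 := by positivity
  rcases Nat.eq_zero_or_pos N with rfl | hpos
  · simpa using hN
  obtain ⟨M, rfl⟩ : ∃ M, N = M + 1 := ⟨N - 1, by omega⟩
  rw [Finset.sum_range_succ']
  have h0 : ((0 : ℕ) : ℝ) ^ (1 / k) * rho k ((0 : ℕ) : ℝ) * f ((0 : ℕ) : ℝ) ^ 2 = 0 := by
    rw [Nat.cast_zero, Real.zero_rpow hk0]; ring
  rw [h0, add_zero]
  have h1 : ∑ n ∈ Finset.range M, ((((n + 1 : ℕ) : ℝ)) ^ (1 / k) * rho k ((n + 1 : ℕ) : ℝ) *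
      f ((n + 1 : ℕ) : ℝ) ^ 2) ≤ ∑ n ∈ Finset.range M,
      ((∫ r in ((n + 1 : ℕ) : ℝ)..((n + 1 + 1 : ℕ) : ℝ), r ^ (1 / k) * rho k r * f r ^ 2) +
      2 * ∫ r in ((n + 1 : ℕ) : ℝ)..((n + 1 + 1 : ℕ) : ℝ), r * rho k r * (|f r| * |f' r|)) := by
    apply Finset.sum_le_sum
    intro n _
    have := h.term_nat hk (n := ((n + 1 : ℕ) : ℝ)) (by push_cast; linarith [(Nat.cast_nonneg n : (0 : ℝ) ≤ n)])
    have e : ((n + 1 + 1 : ℕ) : ℝ) = ((n + 1 : ℕ) : ℝ) + 1 := by push_cast; ring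
    rw [e]
    exact this
  refine h1.trans ?_
  rw [Finset.sum_add_distrib, ← Finset.mul_sum]
  have hpos : ∀ n : ℕ, (0 : ℝ) < ((n + 1 : ℕ) : ℝ) := fun n => by positivity
  have hle : ∀ n : ℕ, ((n + 1 : ℕ) : ℝ) ≤ ((n + 1 + 1 : ℕ) : ℝ) := fun n => by push_cast; linarith
  have s1 := intervalIntegral.sum_integral_adjacent_intervals
    (f := fun r => r ^ (1 / k) * rho k r * f r ^ 2) (μ := volume)
    (a := fun n => ((n + 1 : ℕ) : ℝ)) (n := M) (fun n _ => h.ii_f hk (hpos n) (hle n))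
  have s2 := intervalIntegral.sum_integral_adjacent_intervals
    (f := fun r => r * rho k r * (|f r| * |f' r|)) (μ := volume)
    (a := fun n => ((n + 1 : ℕ) : ℝ)) (n := M) (fun n _ => h.ii_cross hk (hpos n) (hle n))
  rw [s1, s2]
  have hM : ((0 + 1 : ℕ) : ℝ) ≤ ((M + 1 : ℕ) : ℝ) := by push_cast; linarith [(Nat.cast_nonneg M : (0 : ℝ) ≤ M)]
  have b1 := h.interval_f hk (hpos 0) hM
  have b2 := h.interval_cross hk hκ (hpos 0) hM
  have b3 : κ * Nrm k f ≤ Nrm k f := by nlinarith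
  calc _ ≤ Nrm k f + 2 * (2 * κ * Nrm k f) := add_le_add b1 (mul_le_mul_of_nonneg_left b2 two_pos.le)
    _ ≤ 5 * Nrm k f := by linarith

end

theorem bessel_nat {k : ℝ} (hk : 1 < k) :
    ∃ C : ℝ, 0 < C ∧ ∀ (κ : ℝ) (f f' : ℝ → ℝ), 0 < κ → κ ≤ 1 → Good k κ f f' →
      Summable (fun n : ℕ => (n : ℝ) ^ (1 / k) * rho k n * f n ^ 2) ∧
      ∑' n : ℕ, (n : ℝ) ^ (1 / k) * rho k n * f n ^ 2 ≤ C * Nrm k f := by
  refine ⟨5, by norm_num, fun κ f f' hκ hκ1 h => ?_⟩
  have hnn : ∀ n : ℕ, 0 ≤ (n : ℝ) ^ (1 / k) * rho k n * f n ^ 2 := by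
    intro n
    rcases Nat.eq_zero_or_pos n with rfl | hn
    · have hk0 : 1 / k ≠ 0 := by positivity
      rw [Nat.cast_zero, Real.zero_rpow hk0]; simp
    · have : 0 < rho k n := rho_pos hk (by positivity)
      positivity
  exact ⟨summable_of_sum_range_le hnn (h.partial_nat hk hκ hκ1),
    Real.tsum_le_of_sum_range_le hnn (h.partial_nat hk hκ hκ1)⟩

/-- good functions tend to zero -/
lemma Good.tendsto {k κ : ℝ} {f f' : ℝ → ℝ} (h : Good k κ f f') :
    Filter.Tendsto f Filter.atTop (nhds 0) := by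
  obtain ⟨C, hC⟩ := h.decay 1
  have h1 : Filter.Tendsto (fun r : ℝ => C * (1 + r) ^ (-((1 : ℕ) : ℝ))) Filter.atTop
      (nhds (C * 0)) := by
    apply Filter.Tendsto.const_mul
    have h2 : Filter.Tendsto (fun r : ℝ => (1 + r)⁻¹) Filter.atTop (nhds 0) :=
      tendsto_inv_atTop_zero.comp (Filter.tendsto_atTop_add_const_left _ _ Filter.tendsto_id)
    refine h2.congr' ?_
    filter_upwards [Filter.eventually_gt_atTop 0] with r hr
    rw [Real.rpow_neg (by linarith), Real.rpow_natCast, pow_one]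
  rw [mul_zero] at h1
  rw [tendsto_zero_iff_norm_tendsto_zero]
  refine squeeze_zero' (Filter.Eventually.of_forall fun r => norm_nonneg _) ?_ h1
  filter_upwards [Filter.eventually_gt_atTop 0] with r hr
  exact (hC r hr).1

theorem pointwise_bound {k : ℝ} (hk : 1 < k) :
    ∃ C : ℝ, 0 < C ∧ ∀ (κ : ℝ) (f f' : ℝ → ℝ), 0 < κ → Good k κ f f' →
      ∀ r : ℝ, 1 ≤ r → f r ^ 2 ≤ C * κ * r⁻¹ * (rho k r)⁻¹ * Nrm k f := by
  refine ⟨4, by norm_num, fun κ f f' hκ h r hr => ?_⟩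
  have hr0 : 0 < r := by linarith
  have hρ := rho_pos hk hr0
  have key : ∀ T : ℝ, r ≤ T → r * rho k r * f r ^ 2 ≤ r * rho k r * f T ^ 2 +
      4 * κ * Nrm k f := by
    intro T hT
    have h1 := h.sq_sub_le (a := r) (b := T) (x := r) (t := T) hr0 ⟨le_rfl, hT⟩ ⟨hT, le_rfl⟩
    have h2 : r * rho k r * (2 * ∫ s in r..T, |f s| * |f' s|) ≤
        2 * ∫ s in r..T, s * rho k s * (|f s| * |f' s|) := by
      rw [← mul_assoc, mul_comm (r * rho k r) 2, mul_assoc]
      apply mul_le_mul_of_nonneg_left _ two_pos.le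
      rw [← intervalIntegral.integral_const_mul]
      apply intervalIntegral.integral_mono_on hT
      · exact (h.ii_abs hr0 hT).const_mul _
      · exact h.ii_cross hk hr0 hT
      · intro s hs
        apply mul_le_mul_of_nonneg_right _ (by positivity)
        have hs0 : 0 < s := hr0.trans_le hs.1
        exact mul_le_mul hs.1 (rho_mono hk hr0 hs0 hs.1) hρ.le hs0.le
    have h3 := h.interval_cross hk hκ hr0 hT
    have h4 : r * rho k r * f r ^ 2 ≤ r * rho k r * (f T ^ 2 + 2 * ∫ s in r..T, |f s| * |f' s|) :=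
      mul_le_mul_of_nonneg_left h1 (by positivity)
    rw [mul_add] at h4
    linarith
  have hlim : Filter.Tendsto (fun T : ℝ => r * rho k r * f T ^ 2 + 4 * κ * Nrm k f) Filter.atTop
      (nhds (r * rho k r * 0 ^ 2 + 4 * κ * Nrm k f)) :=
    (((h.tendsto).pow 2).const_mul _).add tendsto_const_nhds
  have hfin : r * rho k r * f r ^ 2 ≤ r * rho k r * 0 ^ 2 + 4 * κ * Nrm k f := by
    apply ge_of_tendsto hlim
    filter_upwards [Filter.eventually_ge_atTop r] with T hT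
    exact key T hT
  have h5 : f r ^ 2 = r⁻¹ * (rho k r)⁻¹ * (r * rho k r * f r ^ 2) := by
    field_simp
  rw [h5]
  calc r⁻¹ * (rho k r)⁻¹ * (r * rho k r * f r ^ 2) ≤
      r⁻¹ * (rho k r)⁻¹ * (r * rho k r * 0 ^ 2 + 4 * κ * Nrm k f) :=
        mul_le_mul_of_nonneg_left hfin (by positivity)
    _ = 4 * κ * r⁻¹ * (rho k r)⁻¹ * Nrm k f := by ring

end Pool.Agent.Lib.MP_0bb3d8_nt
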