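import Pool.Agent.Lib.MP_0bb3d8_nt.A7Core
import Pool.Agent.Lib.MP_0bb3d8_nt.A3

set_option autoImplicit false

open Real MeasureTheory Polynomial Set

namespace Pool.Agent.Lib.MP_0bb3d8_nt

/-- weighted square norm of a prime-supported sequence -/
noncomputable def WN (k : ℝ) (η : ℕ → ℝ) : ℝ := ∑' p : ℕ, η p ^ 2 / W k p

lemma rho_nat_nonneg {k : ℝ} (hk : 1 < k) (n : ℕ) : 0 ≤ (n : ℝ) ^ (1 / k) * rho k n := by
  rcases Nat.eq_zero_or_pos n with h | h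
  · subst h
    have : (1 / k : ℝ) ≠ 0 := by positivity
    rw [Nat.cast_zero, Real.zero_rpow this, zero_mul]
  · exact mul_nonneg (by positivity) (rho_pos hk (by exact_mod_cast h)).le

lemma W_nonneg {k : ℝ} (hk : 1 < k) (n : ℕ) : 0 ≤ W k n :=
  mul_nonneg (rho_nat_nonneg hk n) (Real.log_natCast_nonneg n)

lemma Nrm_nonneg {k : ℝ} (hk : 1 < k) (f : ℝ → ℝ) : 0 ≤ Nrm k f :=
  setIntegral_nonneg measurableSet_Ioi fun r hr =>
    mul_nonneg (mul_nonneg (Real.rpow_nonneg (le_of_lt hr) _) (rho_pos hk hr).le) (sq_nonneg _)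

lemma WN_nonneg {k : ℝ} (hk : 1 < k) (η : ℕ → ℝ) : 0 ≤ WN k η :=
  tsum_nonneg fun p => div_nonneg (sq_nonneg _) (W_nonneg hk p)

/-- The multilinear estimate, from the Bessel type inequalities. -/
theorem multilinear_of {X₀ k : ℝ} (hk : 1 < k)
    (hnat : ∃ C : ℝ, 0 < C ∧ ∀ (κ : ℝ) (f f' : ℝ → ℝ), 0 < κ → κ ≤ 1 → Good k κ f f' →
      Summable (fun n : ℕ => (n : ℝ) ^ (1 / k) * rho k n * f n ^ 2) ∧
      ∑' n : ℕ, (n : ℝ) ^ (1 / k) * rho k n * f n ^ 2 ≤ C * Nrm k f)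
    (hdil : ∃ C : ℝ, 0 < C ∧ ∀ (κ : ℝ) (f f' : ℝ → ℝ), 0 < κ → κ ≤ 1 → Good k κ f f' →
      ∀ m : ℕ, 1 ≤ m →
      Summable (fun p : ℕ => if p.Prime ∧ X₀ ≤ p ∧ m ≤ p then W k p * f ((p * m : ℕ) : ℝ) ^ 2
        else 0) ∧
      ∑' p : ℕ, (if p.Prime ∧ X₀ ≤ p ∧ m ≤ p then W k p * f ((p * m : ℕ) : ℝ) ^ 2 else 0) ≤
        C * (m : ℝ) ^ (-(1 + 3 / (2 * k))) * Nrm k f) :
    ∃ C r₀ : ℝ, 0 < C ∧ 0 < r₀ ∧ ∀ (κ : ℝ) (f f' : ℝ → ℝ), 0 < κ → κ ≤ 1 → Good k κ f f' →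
      ∀ η s : ℕ → ℝ, (∀ p, 0 ≤ η p) → (∀ p, 0 ≤ s p) →
      (∀ p : ℕ, ¬ (p.Prime ∧ X₀ ≤ p) → η p = 0) → (∀ p : ℕ, ¬ (p.Prime ∧ X₀ ≤ p) → s p = 0) →
      Summable (fun p : ℕ => η p ^ 2 / W k p) → Summable (fun p : ℕ => s p ^ 2 / W k p) →
      WN k s ≤ r₀ ^ 2 →
      Summable (fun q : ℕ × ℕ => if 2 ≤ q.2 then η q.1 * coef s q.2 * |f ((q.1 * q.2 : ℕ) : ℝ)|
        else 0) ∧
      ∑' q : ℕ × ℕ, (if 2 ≤ q.2 then η q.1 * coef s q.2 * |f ((q.1 * q.2 : ℕ) : ℝ)| else 0) ≤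
        C * Real.sqrt (WN k η) * Real.sqrt (WN k s) * Real.sqrt (Nrm k f) := by
  obtain ⟨c0, C0, hc0, hC0, hr⟩ := rho_bounds hk
  obtain ⟨Cb, hCb, hnat⟩ := hnat
  obtain ⟨Cd, hCd, hdil⟩ := hdil
  have hw := A7.WHyp.of_rho hk hc0 hC0 hr
  refine ⟨4 * Real.sqrt Cd * Real.sqrt (2 * C0) + Real.sqrt ((256 / c0) * C0 ^ 2) * Real.sqrt Cb,
    1 / (2 * Real.sqrt (2 * C0)), by positivity, by positivity, ?_⟩
  intro κ f f' hκ hκ1 hf η s hη hs hηs hss hηsum hssum hsmall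
  have hF : A7.FHyp k X₀ Cb Cd (Nrm k f) (fun n : ℕ => |f (n : ℝ)|) := by
    refine ⟨fun n => abs_nonneg _, Nrm_nonneg hk f, hCb.le, hCd.le, ?_, ?_⟩
    · intro T
      obtain ⟨h1, h2⟩ := hnat κ f f' hκ hκ1 hf
      refine le_trans ?_ h2
      simp only [sq_abs]
      exact h1.sum_le_tsum T fun n _ => mul_nonneg (rho_nat_nonneg hk n) (sq_nonneg _)
    · intro m hm T hT
      obtain ⟨h1, h2⟩ := hdil κ f f' hκ hκ1 hf m hm
      refine le_trans ?_ h2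
      have h3 : ∑ p ∈ T, W k p * |f ((p * m : ℕ) : ℝ)| ^ 2 =
          ∑ p ∈ T, (if p.Prime ∧ X₀ ≤ p ∧ m ≤ p then W k p * f ((p * m : ℕ) : ℝ) ^ 2 else 0) := by
        refine Finset.sum_congr rfl fun p hp => ?_
        rw [if_pos (hT p hp), sq_abs]
      rw [h3]
      refine h1.sum_le_tsum T fun p _ => ?_
      split
      · exact mul_nonneg (W_nonneg hk p) (sq_nonneg _)
      · exact le_rfl
  have hη' : A7.SHyp k X₀ (WN k η) η := ⟨hη, hηs, WN_nonneg hk η, fun T =>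
    hηsum.sum_le_tsum T fun p _ => div_nonneg (sq_nonneg _) (W_nonneg hk p)⟩
  have hs' : A7.SHyp k X₀ (WN k s) s := ⟨hs, hss, WN_nonneg hk s, fun T =>
    hssum.sum_le_tsum T fun p _ => div_nonneg (sq_nonneg _) (W_nonneg hk p)⟩
  have hsq : Real.sqrt (2 * C0) ≠ 0 := by positivity
  have hsm1 : Real.sqrt (2 * C0) * Real.sqrt (WN k s) ≤ 1 / 2 := by
    have h1 : Real.sqrt (WN k s) ≤ 1 / (2 * Real.sqrt (2 * C0)) := by
      rw [← Real.sqrt_sq (show 0 ≤ 1 / (2 * Real.sqrt (2 * C0)) by positivity)]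
      exact Real.sqrt_le_sqrt hsmall
    calc Real.sqrt (2 * C0) * Real.sqrt (WN k s)
        ≤ Real.sqrt (2 * C0) * (1 / (2 * Real.sqrt (2 * C0))) :=
          mul_le_mul_of_nonneg_left h1 (Real.sqrt_nonneg _)
      _ = 1 / 2 := by field_simp
  have hsm2 : C0 * WN k s ≤ 1 / 2 := by
    have h1 : (1 / (2 * Real.sqrt (2 * C0))) ^ 2 = 1 / (8 * C0) := by
      rw [div_pow, mul_pow, Real.sq_sqrt (by positivity)]
      norm_num
      ring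
    rw [h1] at hsmall
    calc C0 * WN k s ≤ C0 * (1 / (8 * C0)) := mul_le_mul_of_nonneg_left hsmall hC0.le
      _ = 1 / 8 := by field_simp
      _ ≤ 1 / 2 := by norm_num
  have hcore := A7.core hw hF hη' hs' hsm1 hsm2
  have hnn : ∀ q : ℕ × ℕ, 0 ≤ (if 2 ≤ q.2 then η q.1 * coef s q.2 * |f ((q.1 * q.2 : ℕ) : ℝ)|
      else 0) := by
    intro q
    split
    · exact mul_nonneg (mul_nonneg (hη _) (coef_nonneg hs _)) (abs_nonneg _)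
    · exact le_rfl
  have hsummable := summable_of_sum_le hnn hcore
  exact ⟨hsummable, hsummable.tsum_le_of_sum_le hcore⟩

end Pool.Agent.Lib.MP_0bb3d8_nt
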