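import Pool.Agent.Lib.MP_0bb3d8_nt.Defs

set_option autoImplicit false

open Real MeasureTheory Polynomial Set

namespace Pool.Agent.Lib.MP_0bb3d8_nt

lemma coef_eq_prod (b : ℕ → ℝ) {n : ℕ} (hn : n ≠ 0) (T : Finset ℕ) (hT : n.primeFactors ⊆ T) :
    coef b n = ∏ p ∈ T, b p ^ n.factorization p / ((n.factorization p).factorial : ℝ) := by
  rw [coef, if_neg hn, Finsupp.prod, Nat.support_factorization]
  refine Finset.prod_subset hT fun p _ hp => ?_
  have h0 : n.factorization p = 0 := by
    rw [← Finsupp.notMem_support_iff, Nat.support_factorization]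
    exact hp
  simp [h0]

lemma coef_one (b : ℕ → ℝ) : coef b 1 = 1 := by simp [coef]

lemma coef_nonneg {s : ℕ → ℝ} (hs : ∀ p, 0 ≤ s p) (n : ℕ) : 0 ≤ coef s n := by
  rw [coef]
  split
  · exact le_rfl
  · exact Finset.prod_nonneg fun p _ => div_nonneg (pow_nonneg (hs p) _) (by positivity)

lemma coef_mul_le {s : ℕ → ℝ} (hs : ∀ p, 0 ≤ s p) {q m : ℕ} (hq : q.Prime) (hm : m ≠ 0) :
    coef s (q * m) ≤ s q * coef s m := by
  classical
  have hqm : q * m ≠ 0 := mul_ne_zero hq.ne_zero hm
  have hsub : (q * m).primeFactors ⊆ insert q m.primeFactors := by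
    rw [Nat.primeFactors_mul hq.ne_zero hm, Nat.Prime.primeFactors hq]
    intro x hx
    simpa using hx
  rw [coef_eq_prod s hqm (insert q m.primeFactors) hsub,
    coef_eq_prod s hm (insert q m.primeFactors) (Finset.subset_insert _ _),
    ← Finset.mul_prod_erase _ _ (Finset.mem_insert_self q m.primeFactors),
    ← Finset.mul_prod_erase (insert q m.primeFactors) (fun p => s p ^ m.factorization p /
      ((m.factorization p).factorial : ℝ)) (Finset.mem_insert_self q m.primeFactors), ← mul_assoc]
  have hfac : ∀ p, (q * m).factorization p = (if p = q then 1 else 0) + m.factorization p := by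
    intro p
    rw [Nat.factorization_mul hq.ne_zero hm, Finsupp.add_apply, Nat.Prime.factorization hq,
      Finsupp.single_apply]
    congr 1
    simp only [eq_comm]
  have hrest : ∏ p ∈ (insert q m.primeFactors).erase q, s p ^ (q * m).factorization p /
      (((q * m).factorization p).factorial : ℝ) = ∏ p ∈ (insert q m.primeFactors).erase q,
        s p ^ m.factorization p / ((m.factorization p).factorial : ℝ) := by
    refine Finset.prod_congr rfl fun p hp => ?_
    rw [hfac, if_neg (Finset.ne_of_mem_erase hp), zero_add]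
  rw [hrest]
  refine mul_le_mul_of_nonneg_right ?_
    (Finset.prod_nonneg fun p _ => div_nonneg (pow_nonneg (hs p) _) (by positivity))
  rw [hfac, if_pos rfl, add_comm, pow_succ, Nat.factorial_succ]
  set e := m.factorization q
  have h1 : (1 : ℝ) ≤ (e : ℝ) + 1 := by
    have : (0 : ℝ) ≤ e := by positivity
    linarith
  push_cast
  have hpos : (0 : ℝ) < (e.factorial : ℝ) := by positivity
  rw [div_le_iff₀ (by positivity)]
  have h3 : s q * (s q ^ e / (e.factorial : ℝ)) * (((e : ℝ) + 1) * (e.factorial : ℝ)) =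
      s q ^ e * s q * ((e : ℝ) + 1) := by
    field_simp
  rw [h3]
  exact le_mul_of_one_le_right (mul_nonneg (pow_nonneg (hs q) _) (hs q)) h1

lemma prod_sub_prod_le (T : Finset ℕ) (x y z d : ℕ → ℝ) (hx : ∀ p ∈ T, |x p| ≤ z p)
    (hy : ∀ p ∈ T, |y p| ≤ z p) (hd : ∀ p ∈ T, |x p - y p| ≤ d p) :
    |∏ p ∈ T, x p - ∏ p ∈ T, y p| ≤ ∑ p ∈ T, d p * ∏ q ∈ T.erase p, z q := by
  classical
  induction T using Finset.induction_on with
  | empty => simp
  | insert a T ha ih =>
    have ih' := ih (fun p hp => hx p (Finset.mem_insert_of_mem hp))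
      (fun p hp => hy p (Finset.mem_insert_of_mem hp))
      (fun p hp => hd p (Finset.mem_insert_of_mem hp))
    rw [Finset.prod_insert ha, Finset.prod_insert ha, Finset.sum_insert ha,
      Finset.erase_insert ha]
    have h1 : ∑ p ∈ T, d p * ∏ q ∈ (insert a T).erase p, z q =
        z a * ∑ p ∈ T, d p * ∏ q ∈ T.erase p, z q := by
      rw [Finset.mul_sum]
      refine Finset.sum_congr rfl fun p hp => ?_
      have hpa : a ≠ p := fun h => ha (h ▸ hp)
      rw [Finset.erase_insert_of_ne hpa, Finset.prod_insert (by simp [ha])]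
      ring
    rw [h1]
    have h2 : x a * ∏ p ∈ T, x p - y a * ∏ p ∈ T, y p =
        (x a - y a) * ∏ p ∈ T, x p + y a * (∏ p ∈ T, x p - ∏ p ∈ T, y p) := by ring
    rw [h2]
    refine (abs_add_le _ _).trans (add_le_add ?_ ?_)
    · rw [abs_mul, Finset.abs_prod]
      exact mul_le_mul (hd a (Finset.mem_insert_self _ _))
        (Finset.prod_le_prod (fun p _ => abs_nonneg _)
          fun p hp => hx p (Finset.mem_insert_of_mem hp))
        (Finset.prod_nonneg fun p _ => abs_nonneg _)
        ((abs_nonneg _).trans (hd a (Finset.mem_insert_self _ _)))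
    · rw [abs_mul]
      exact mul_le_mul (hy a (Finset.mem_insert_self _ _)) ih' (abs_nonneg _)
        ((abs_nonneg _).trans (hy a (Finset.mem_insert_self _ _)))

lemma pow_div_sub_le {b b' s : ℝ} (hb : |b| ≤ s) (hb' : |b'| ≤ s) (e : ℕ) :
    |b ^ (e + 1) / ((e + 1).factorial : ℝ) - b' ^ (e + 1) / ((e + 1).factorial : ℝ)| ≤
      |b - b'| * (s ^ e / (e.factorial : ℝ)) := by
  have hs : 0 ≤ s := (abs_nonneg _).trans hb
  have h1 : |b ^ (e + 1) - b' ^ (e + 1)| ≤ |b - b'| * (((e : ℝ) + 1) * s ^ e) := by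
    rw [← Commute.geom_sum₂_mul (Commute.all b b'), mul_comm, abs_mul]
    refine mul_le_mul_of_nonneg_left ?_ (abs_nonneg _)
    refine (Finset.abs_sum_le_sum_abs _ _).trans ?_
    have : ∀ i ∈ Finset.range (e + 1), |b ^ i * b' ^ (e + 1 - 1 - i)| ≤ s ^ e := by
      intro i hi
      have hi' : i ≤ e := Nat.lt_succ_iff.mp (Finset.mem_range.mp hi)
      rw [abs_mul, abs_pow, abs_pow]
      calc |b| ^ i * |b'| ^ (e + 1 - 1 - i) ≤ s ^ i * s ^ (e + 1 - 1 - i) :=
            mul_le_mul (pow_le_pow_left₀ (abs_nonneg _) hb _)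
              (pow_le_pow_left₀ (abs_nonneg _) hb' _) (by positivity) (by positivity)
        _ = s ^ e := by
            rw [← pow_add]
            congr 1
            omega
    refine (Finset.sum_le_sum this).trans ?_
    simp
  rw [← sub_div, abs_div, Nat.abs_cast, div_le_iff₀ (by positivity)]
  refine h1.trans (le_of_eq ?_)
  rw [Nat.factorial_succ]
  push_cast
  have : (e.factorial : ℝ) ≠ 0 := by positivity
  field_simp

theorem coef_sub_le (b b' s : ℕ → ℝ) (hb : ∀ p, |b p| ≤ s p) (hb' : ∀ p, |b' p| ≤ s p)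
    (n : ℕ) (hn : n ≠ 0) :
    |coef b n - coef b' n| ≤ ∑ p ∈ n.primeFactors, |b p - b' p| * coef s (n / p) := by
  classical
  have hs : ∀ p, 0 ≤ s p := fun p => (abs_nonneg _).trans (hb p)
  rw [coef_eq_prod b hn _ le_rfl, coef_eq_prod b' hn _ le_rfl]
  have hz : ∀ (c : ℕ → ℝ), (∀ p, |c p| ≤ s p) → ∀ p ∈ n.primeFactors,
      |c p ^ n.factorization p / ((n.factorization p).factorial : ℝ)| ≤
        s p ^ n.factorization p / ((n.factorization p).factorial : ℝ) := by
    intro c hc p _
    rw [abs_div, abs_pow, Nat.abs_cast]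
    exact div_le_div_of_nonneg_right (pow_le_pow_left₀ (abs_nonneg _) (hc p) _) (by positivity)
  have hf1 : ∀ p ∈ n.primeFactors, 1 ≤ n.factorization p := fun p hp =>
    (Nat.Prime.dvd_iff_one_le_factorization (Nat.prime_of_mem_primeFactors hp) hn).mp
      (Nat.dvd_of_mem_primeFactors hp)
  have hd : ∀ p ∈ n.primeFactors, |b p ^ n.factorization p / ((n.factorization p).factorial : ℝ) -
      b' p ^ n.factorization p / ((n.factorization p).factorial : ℝ)| ≤
      |b p - b' p| * (s p ^ (n.factorization p - 1) /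
        ((n.factorization p - 1).factorial : ℝ)) := by
    intro p hp
    have h1 := hf1 p hp
    obtain ⟨e, he⟩ : ∃ e, n.factorization p = e + 1 := ⟨n.factorization p - 1, by omega⟩
    rw [he, Nat.add_sub_cancel]
    exact pow_div_sub_le (hb p) (hb' p) e
  refine (prod_sub_prod_le n.primeFactors _ _ _ _ (hz b hb) (hz b' hb') hd).trans (le_of_eq ?_)
  refine Finset.sum_congr rfl fun p hp => ?_
  have hpp := Nat.prime_of_mem_primeFactors hp
  have hpn := Nat.dvd_of_mem_primeFactors hp
  have hnp : n / p ≠ 0 := (Nat.div_pos (Nat.le_of_dvd (Nat.pos_of_ne_zero hn) hpn) hpp.pos).ne'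
  have hsub : (n / p).primeFactors ⊆ n.primeFactors :=
    Nat.primeFactors_mono (Nat.div_dvd_of_dvd hpn) hn
  rw [coef_eq_prod s hnp _ hsub, mul_assoc, ← Finset.mul_prod_erase n.primeFactors
    (fun q => s q ^ (n / p).factorization q / (((n / p).factorization q).factorial : ℝ)) hp]
  have hfac : ∀ q, (n / p).factorization q = n.factorization q - (if q = p then 1 else 0) := by
    intro q
    rw [Nat.factorization_div hpn, Finsupp.tsub_apply, Nat.Prime.factorization hpp,
      Finsupp.single_apply]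
    congr 1
    simp only [eq_comm]
  congr 2
  · rw [hfac, if_pos rfl]
  · refine Finset.prod_congr rfl fun q hq => ?_
    rw [hfac, if_neg (Finset.ne_of_mem_erase hq), Nat.sub_zero]

end Pool.Agent.Lib.MP_0bb3d8_nt
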