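import Mathlib

set_option autoImplicit false

open Real Finset

namespace Pool.Agent.Lib.MP_0bb3d8_nt.A7

/-- Sum over a tree of prime factors: if `h m ≤ u q * h (m / q)` for `q = minFac m`. -/
lemma tree_sum (h u : ℕ → ℝ) (h0 : ∀ n, 0 ≤ h n) (u0 : ∀ n, 0 ≤ u n) (h1 : h 1 ≤ 1)
    (hstep : ∀ m : ℕ, 2 ≤ m → h m ≤ u m.minFac * h (m / m.minFac)) (S : ℝ) (hS2 : S ≤ 1 / 2)
    (hS : ∀ T : Finset ℕ, (∀ p ∈ T, p.Prime) → ∑ p ∈ T, u p ≤ S) (T : Finset ℕ)
    (hT : ∀ m ∈ T, 2 ≤ m) : ∑ m ∈ T, h m ≤ 2 * S := by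
  classical
  obtain ⟨M, hM⟩ : ∃ M : ℕ, ∀ m ∈ T, m ≤ M := ⟨T.sup id, fun m hm => Finset.le_sup (f := id) hm⟩
  have hS0 : 0 ≤ S := by simpa using hS ∅ (by simp)
  have hsub : T ⊆ Finset.Icc 2 M := fun m hm => Finset.mem_Icc.mpr ⟨hT m hm, hM m hm⟩
  have hle : ∑ m ∈ T, h m ≤ ∑ m ∈ Finset.Icc 2 M, h m :=
    Finset.sum_le_sum_of_subset_of_nonneg hsub fun m _ _ => h0 m
  set G := ∑ m ∈ Finset.Icc 2 M, h m with hG
  have hG0 : 0 ≤ G := Finset.sum_nonneg fun m _ => h0 m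
  have hP : ∀ p ∈ (Finset.Icc 1 M).filter Nat.Prime, p.Prime := fun p hp => (Finset.mem_filter.mp hp).2
  have hGle : G ≤ (∑ p ∈ (Finset.Icc 1 M).filter Nat.Prime, u p) * ∑ m ∈ Finset.Icc 1 M, h m := by
    rw [Finset.sum_mul_sum, ← Finset.sum_product']
    have hinj : Set.InjOn (fun m : ℕ => (m.minFac, m / m.minFac)) (Finset.Icc 2 M : Set ℕ) := by
      intro a _ b _ hab
      simp only [Prod.mk.injEq] at hab
      rw [← Nat.mul_div_cancel' (Nat.minFac_dvd a), ← Nat.mul_div_cancel' (Nat.minFac_dvd b),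
        hab.1]
      rw [hab.1] at hab
      rw [hab.2]
    calc G ≤ ∑ m ∈ Finset.Icc 2 M, u m.minFac * h (m / m.minFac) :=
          Finset.sum_le_sum fun m hm => hstep m (Finset.mem_Icc.mp hm).1
      _ = ∑ x ∈ (Finset.Icc 2 M).image (fun m : ℕ => (m.minFac, m / m.minFac)), u x.1 * h x.2 := by
          rw [Finset.sum_image hinj]
      _ ≤ _ := by
          refine Finset.sum_le_sum_of_subset_of_nonneg ?_ fun x _ _ => mul_nonneg (u0 _) (h0 _)
          intro x hx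
          obtain ⟨m, hm, rfl⟩ := Finset.mem_image.mp hx
          rw [Finset.mem_Icc] at hm
          have hp : m.minFac.Prime := Nat.minFac_prime (by omega)
          have hmle : m.minFac ≤ m := Nat.minFac_le (by omega)
          simp only [Finset.mem_product, Finset.mem_filter, Finset.mem_Icc]
          refine ⟨⟨⟨hp.one_lt.le, hmle.trans hm.2⟩, hp⟩, ?_, (Nat.div_le_self _ _).trans hm.2⟩
          exact Nat.div_pos hmle hp.pos
  have h1M : ∑ m ∈ Finset.Icc 1 M, h m ≤ 1 + G := by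
    have : Finset.Icc 1 M ⊆ insert 1 (Finset.Icc 2 M) := by
      intro m hm
      rw [Finset.mem_Icc] at hm
      rw [Finset.mem_insert, Finset.mem_Icc]
      omega
    refine (Finset.sum_le_sum_of_subset_of_nonneg this fun m _ _ => h0 m).trans ?_
    rw [Finset.sum_insert (by simp)]
    linarith
  have h2 : G ≤ S * (1 + G) :=
    hGle.trans (mul_le_mul (hS _ hP) h1M (Finset.sum_nonneg fun m _ => h0 m) hS0)
  nlinarith

lemma tree_sum_one (h u : ℕ → ℝ) (h0 : ∀ n, 0 ≤ h n) (u0 : ∀ n, 0 ≤ u n) (h1 : h 1 ≤ 1)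
    (hstep : ∀ m : ℕ, 2 ≤ m → h m ≤ u m.minFac * h (m / m.minFac)) (S : ℝ) (hS2 : S ≤ 1 / 2)
    (hS : ∀ T : Finset ℕ, (∀ p ∈ T, p.Prime) → ∑ p ∈ T, u p ≤ S) (T : Finset ℕ)
    (hT : ∀ m ∈ T, 1 ≤ m) : ∑ m ∈ T, h m ≤ 2 := by
  classical
  have h3 : T ⊆ insert 1 (T.filter (fun m => 2 ≤ m)) := by
    intro m hm
    have := hT m hm
    rw [Finset.mem_insert, Finset.mem_filter]
    by_cases h : m = 1
    · exact Or.inl h
    · exact Or.inr ⟨hm, by omega⟩
  refine (Finset.sum_le_sum_of_subset_of_nonneg h3 fun m _ _ => h0 m).trans ?_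
  rw [Finset.sum_insert (by simp)]
  have := tree_sum h u h0 u0 h1 hstep S hS2 hS (T.filter (fun m => 2 ≤ m))
    (fun m hm => (Finset.mem_filter.mp hm).2)
  linarith

/-- `∏ (1 + l_i) ≥ 1 + S + (S² - Q) / 2`. -/
lemma list_prod_ge (l : List ℝ) (hl : ∀ x ∈ l, 0 ≤ x) :
    0 ≤ l.sum ∧ (l.map fun x => x ^ 2).sum ≤ l.sum ^ 2 ∧
    1 + l.sum + (l.sum ^ 2 - (l.map fun x => x ^ 2).sum) / 2 ≤ (l.map fun x => 1 + x).prod := by
  induction l with
  | nil => simp
  | cons x l ih =>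
    have hx : 0 ≤ x := hl x (by simp)
    obtain ⟨i1, i2, i3⟩ := ih fun y hy => hl y (by simp [hy])
    simp only [List.sum_cons, List.map_cons, List.prod_cons]
    refine ⟨by positivity, by nlinarith, ?_⟩
    nlinarith [mul_nonneg hx (sub_nonneg.mpr i3), mul_nonneg hx (sub_nonneg.mpr i2)]

/-- If all entries are at most half of the sum then `(1 + sum)² ≤ 4 ∏ (1 + l_i)`. -/
lemma list_prod_ge' (l : List ℝ) (hl : ∀ x ∈ l, 0 ≤ x) (hl2 : ∀ x ∈ l, 2 * x ≤ l.sum) :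
    (1 + l.sum) ^ 2 ≤ 4 * (l.map fun x => 1 + x).prod := by
  obtain ⟨i1, i2, i3⟩ := list_prod_ge l hl
  have hQ : 2 * (l.map fun x => x ^ 2).sum ≤ l.sum ^ 2 := by
    have h1 : (l.map fun x => 2 * x ^ 2).sum ≤ (l.map fun x => l.sum * x).sum := by
      apply List.sum_le_sum
      intro x hx
      nlinarith [hl x hx, hl2 x hx]
    rw [List.sum_map_mul_left, List.sum_map_mul_left, List.map_id'] at h1
    nlinarith
  nlinarith

/-- `Lg n = ∏ (1 + log q)` over the prime factors of `n` with multiplicity. -/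
noncomputable def Lg (n : ℕ) : ℝ := (n.primeFactorsList.map fun q : ℕ => 1 + Real.log (q : ℝ)).prod

lemma Lg_one : Lg 1 = 1 := by simp [Lg]

lemma Lg_mul {a b : ℕ} (ha : a ≠ 0) (hb : b ≠ 0) : Lg (a * b) = Lg a * Lg b := by
  unfold Lg
  rw [((Nat.perm_primeFactorsList_mul ha hb).map _).prod_eq, List.map_append, List.prod_append]

lemma Lg_prime {q : ℕ} (hq : q.Prime) : Lg q = 1 + Real.log q := by
  simp [Lg, Nat.primeFactorsList_prime hq]

lemma Lg_pos (n : ℕ) : 0 < Lg n := by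
  unfold Lg
  apply List.prod_pos
  intro x hx
  obtain ⟨q, hq, rfl⟩ := List.mem_map.mp hx
  have : 1 ≤ (q : ℝ) := by exact_mod_cast (Nat.prime_of_mem_primeFactorsList hq).one_lt.le
  have := Real.log_nonneg this
  linarith

lemma log_eq_sum {n : ℕ} (hn : n ≠ 0) :
    Real.log n = (n.primeFactorsList.map fun q : ℕ => Real.log (q : ℝ)).sum := by
  have h1 : (n : ℝ) = (n.primeFactorsList.map fun q : ℕ => (q : ℝ)).prod := by
    conv_lhs => rw [← Nat.prod_primeFactorsList hn]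
    rw [Nat.cast_list_prod]
  conv_lhs => rw [h1]
  rw [Real.log_list_prod]
  · rw [List.map_map]
    rfl
  · intro x hx
    obtain ⟨q, hq, rfl⟩ := List.mem_map.mp hx
    exact_mod_cast (Nat.prime_of_mem_primeFactorsList hq).ne_zero

lemma one_add_log_sq_le {n : ℕ} (hn : n ≠ 0)
    (h : ∀ q : ℕ, q.Prime → q ∣ n → (q : ℝ) ^ 2 ≤ n) : (1 + Real.log n) ^ 2 ≤ 4 * Lg n := by
  have h1 := list_prod_ge' (n.primeFactorsList.map fun q : ℕ => Real.log (q : ℝ)) (by
    intro x hx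
    obtain ⟨q, hq, rfl⟩ := List.mem_map.mp hx
    exact Real.log_natCast_nonneg q) (by
    intro x hx
    obtain ⟨q, hq, rfl⟩ := List.mem_map.mp hx
    rw [← log_eq_sum hn]
    have hqp := Nat.prime_of_mem_primeFactorsList hq
    have := h q hqp (Nat.dvd_of_mem_primeFactorsList hq)
    have hq0 : (0 : ℝ) < q := by exact_mod_cast hqp.pos
    have h2 := Real.log_le_log (by positivity) this
    rw [Real.log_pow] at h2
    exact_mod_cast h2)
  rw [← log_eq_sum hn, List.map_map] at h1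
  exact h1

lemma card_primeFactors_le {n : ℕ} (hn : n ≠ 0) : (n.primeFactors.card : ℝ) ≤ 2 * (1 + Real.log n) := by
  have h1 : 2 ^ n.primeFactors.card ≤ n := by
    calc 2 ^ n.primeFactors.card ≤ ∏ p ∈ n.primeFactors, p :=
          Finset.pow_card_le_prod _ _ _ fun p hp => (Nat.prime_of_mem_primeFactors hp).two_le
      _ ≤ n := Nat.le_of_dvd (Nat.pos_of_ne_zero hn) (Nat.prod_primeFactors_dvd n)
  have h2 : ((2 : ℝ) ^ n.primeFactors.card) ≤ n := by exact_mod_cast h1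
  have h3 := Real.log_le_log (by positivity) h2
  rw [Real.log_pow] at h3
  have h4 := Real.log_two_gt_d9
  have h5 : (0 : ℝ) ≤ n.primeFactors.card := by positivity
  nlinarith

end Pool.Agent.Lib.MP_0bb3d8_nt.A7
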