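import Pool.Agent.Lib.MP_0bb3d8_nt.A7Parts

set_option autoImplicit false

open Real MeasureTheory Polynomial Set

namespace Pool.Agent.Lib.MP_0bb3d8_nt.A7

variable {k c0 C0 X₀ Cb Cd N Eη Es : ℝ} {F η s : ℕ → ℝ}

/-- The weight `n^{1/k} ρ(n) / ω(n)`. -/
noncomputable def vw (k : ℝ) (n : ℕ) : ℝ :=
  (n : ℝ) ^ (1 / k) * rho k n / (n.primeFactors.card : ℝ)

lemma card_pos' {n : ℕ} (hn : 2 ≤ n) : (0 : ℝ) < (n.primeFactors.card : ℝ) := by
  have : n.primeFactors.Nonempty := Nat.nonempty_primeFactors.mpr (by omega)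
  exact_mod_cast Finset.card_pos.mpr this

lemma vw_pos (hw : WHyp k c0 C0) {n : ℕ} (hn : 2 ≤ n) : 0 < vw k n :=
  div_pos (hw.pos (by omega)) (card_pos' hn)

/-- `1 / v(n) ≤ (128/c0) Lg(n)³ / n^θ` when all the prime factors of `n` are at most `√n`. -/
lemma inv_vw_le (hw : WHyp k c0 C0) {n : ℕ} (hn : 2 ≤ n)
    (h : ∀ q : ℕ, q.Prime → q ∣ n → (q : ℝ) ^ 2 ≤ n) :
    1 / vw k n ≤ (128 / c0) * (Lg n ^ 3 / (n : ℝ) ^ (3 / (2 * k))) := by
  have hn' : (1 : ℝ) ≤ n := by exact_mod_cast (by omega : 1 ≤ n)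
  have hl : 0 ≤ Real.log n := Real.log_nonneg hn'
  have hn0 : (0 : ℝ) < n := by linarith
  have hc0 := hw.hc0
  have hpow : (0 : ℝ) < (n : ℝ) ^ (3 / (2 * k)) := by positivity
  have hcard := card_primeFactors_le (n := n) (by omega)
  have hcp := card_pos' hn
  have hlo := hw.lo n (by omega)
  have hpos := hw.pos (n := n) (by omega)
  have hsq := one_add_log_sq_le (n := n) (by omega) h
  have hLg := Lg_pos n
  have h6 : (1 + Real.log n) ^ 5 ≤ 64 * Lg n ^ 3 := by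
    calc (1 + Real.log n) ^ 5 ≤ (1 + Real.log n) ^ 6 :=
          pow_le_pow_right₀ (by linarith) (by norm_num)
      _ = ((1 + Real.log n) ^ 2) ^ 3 := by ring
      _ ≤ (4 * Lg n) ^ 3 := pow_le_pow_left₀ (by positivity) hsq 3
      _ = 64 * Lg n ^ 3 := by ring
  rw [vw, one_div_div]
  calc (n.primeFactors.card : ℝ) / ((n : ℝ) ^ (1 / k) * rho k n)
      ≤ (2 * (1 + Real.log n)) / (c0 * ((n : ℝ) ^ (3 / (2 * k)) / (1 + Real.log n) ^ 4)) := by
        apply div_le_div₀ (by positivity) hcard (by positivity) hlo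
    _ = (2 / c0) * ((1 + Real.log n) ^ 5 / (n : ℝ) ^ (3 / (2 * k))) := by field_simp
    _ ≤ (2 / c0) * ((64 * Lg n ^ 3) / (n : ℝ) ^ (3 / (2 * k))) := by
        gcongr
    _ = _ := by ring

/-- Part (B): all the prime factors of `p m` are at most `√(p m)`. -/
lemma partB (hw : WHyp k c0 C0) (hF : FHyp k X₀ Cb Cd N F) (hη : SHyp k X₀ Eη η)
    (hs : SHyp k X₀ Es s) (hsmall : C0 * Es ≤ 1 / 2)
    (T : Finset (ℕ × ℕ))
    (hT : ∀ x ∈ T, x.1.Prime ∧ 2 ≤ x.2 ∧ ∀ q : ℕ, q.Prime → q ∣ x.1 * x.2 →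
      (q : ℝ) ^ 2 ≤ ((x.1 * x.2 : ℕ) : ℝ)) :
    ∑ x ∈ T, η x.1 * coef s x.2 * F (x.1 * x.2) ≤
      Real.sqrt ((128 / c0) * ((C0 * Eη) * (2 * (C0 * Es)))) * Real.sqrt (Cb * N) := by
  classical
  have hn2 : ∀ x ∈ T, 2 ≤ x.1 * x.2 := by
    intro x hx
    have h1 := (hT x hx).1.two_le
    have h2 := (hT x hx).2.1
    nlinarith
  refine (cs_weight T (fun x => η x.1 * coef s x.2) (fun x => F (x.1 * x.2))
    (fun x => vw k (x.1 * x.2)) fun x hx => vw_pos hw (hn2 x hx)).trans ?_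
  refine mul_le_mul (Real.sqrt_le_sqrt ?_) (Real.sqrt_le_sqrt ?_) (Real.sqrt_nonneg _)
    (Real.sqrt_nonneg _)
  · set P := T.image Prod.fst with hP
    set Q := T.image Prod.snd with hQ
    have hsub : T ⊆ P ×ˢ Q := fun x hx =>
      Finset.mem_product.mpr ⟨Finset.mem_image.mpr ⟨x, hx, rfl⟩, Finset.mem_image.mpr ⟨x, hx, rfl⟩⟩
    have hPp : ∀ p ∈ P, p.Prime := by
      intro p hp
      obtain ⟨x, hx, rfl⟩ := Finset.mem_image.mp hp
      exact (hT x hx).1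
    have hQ2 : ∀ m ∈ Q, 2 ≤ m := by
      intro m hm
      obtain ⟨x, hx, rfl⟩ := Finset.mem_image.mp hm
      exact (hT x hx).2.1
    have hc0 := hw.hc0
    have h1 : ∀ x ∈ T, (η x.1 * coef s x.2) ^ 2 / vw k (x.1 * x.2) ≤
        (128 / c0) * ((η x.1 ^ 2 * ((1 + Real.log x.1) ^ 3 / (x.1 : ℝ) ^ (3 / (2 * k)))) *
          (coef s x.2 ^ 2 * (Lg x.2 ^ 3 / (x.2 : ℝ) ^ (3 / (2 * k))))) := by
      intro x hx
      obtain ⟨hp, hm, hq⟩ := hT x hx
      have h2 := inv_vw_le hw (hn2 x hx) hq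
      rw [Lg_mul hp.ne_zero (by omega), Lg_prime hp, Nat.cast_mul,
        Real.mul_rpow (by positivity) (by positivity)] at h2
      calc (η x.1 * coef s x.2) ^ 2 / vw k (x.1 * x.2)
          = (η x.1 * coef s x.2) ^ 2 * (1 / vw k (x.1 * x.2)) := by ring
        _ ≤ (η x.1 * coef s x.2) ^ 2 * ((128 / c0) * (((1 + Real.log x.1) * Lg x.2) ^ 3 /
            ((x.1 : ℝ) ^ (3 / (2 * k)) * (x.2 : ℝ) ^ (3 / (2 * k))))) :=
            mul_le_mul_of_nonneg_left h2 (sq_nonneg _)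
        _ = _ := by rw [mul_pow (1 + Real.log x.1), mul_div_mul_comm]; ring
    refine (Finset.sum_le_sum h1).trans ?_
    rw [← Finset.mul_sum]
    refine mul_le_mul_of_nonneg_left ?_ (by positivity)
    have hnn1 : ∀ p : ℕ, 0 ≤ η p ^ 2 * ((1 + Real.log p) ^ 3 / (p : ℝ) ^ (3 / (2 * k))) := by
      intro p
      have := Real.log_natCast_nonneg p
      positivity
    have hnn2 : ∀ m : ℕ, 0 ≤ coef s m ^ 2 * (Lg m ^ 3 / (m : ℝ) ^ (3 / (2 * k))) := by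
      intro m
      have := Lg_pos m
      positivity
    calc ∑ x ∈ T, (η x.1 ^ 2 * ((1 + Real.log x.1) ^ 3 / (x.1 : ℝ) ^ (3 / (2 * k)))) *
          (coef s x.2 ^ 2 * (Lg x.2 ^ 3 / (x.2 : ℝ) ^ (3 / (2 * k))))
        ≤ ∑ x ∈ P ×ˢ Q, (η x.1 ^ 2 * ((1 + Real.log x.1) ^ 3 / (x.1 : ℝ) ^ (3 / (2 * k)))) *
          (coef s x.2 ^ 2 * (Lg x.2 ^ 3 / (x.2 : ℝ) ^ (3 / (2 * k)))) :=
          Finset.sum_le_sum_of_subset_of_nonneg hsub fun x _ _ => mul_nonneg (hnn1 _) (hnn2 _)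
      _ = (∑ p ∈ P, η p ^ 2 * ((1 + Real.log p) ^ 3 / (p : ℝ) ^ (3 / (2 * k)))) *
          ∑ m ∈ Q, coef s m ^ 2 * (Lg m ^ 3 / (m : ℝ) ^ (3 / (2 * k))) := by
          rw [Finset.sum_mul_sum, ← Finset.sum_product']
      _ ≤ (C0 * Eη) * (2 * (C0 * Es)) :=
          mul_le_mul (sum_u2_le hw hη P hPp) (sumB_ge_two hw hs hsmall Q hQ2)
            (Finset.sum_nonneg fun m _ => hnn2 m) (mul_nonneg hw.hC0.le hη.E0)
  · set G : ℕ × ℕ → ℕ := fun x => x.1 * x.2 with hG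
    rw [← Finset.sum_fiberwise_of_maps_to (s := T) (t := T.image G) (g := G)
      (fun x hx => Finset.mem_image_of_mem _ hx)]
    refine le_trans ?_ (hF.nat (T.image G))
    refine Finset.sum_le_sum fun n hn => ?_
    have hn2' : 2 ≤ n := by
      obtain ⟨x, hx, rfl⟩ := Finset.mem_image.mp hn
      exact hn2 x hx
    have h1 : ∑ x ∈ T with G x = n, vw k (x.1 * x.2) * F (x.1 * x.2) ^ 2 =
        ((T.filter (fun x => G x = n)).card : ℝ) * (vw k n * F n ^ 2) := by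
      rw [← nsmul_eq_mul, ← Finset.sum_const]
      refine Finset.sum_congr rfl fun x hx => ?_
      have hx' : x.1 * x.2 = n := (Finset.mem_filter.mp hx).2
      rw [hx']
    rw [h1]
    have h2 : (T.filter (fun x => G x = n)).card ≤ n.primeFactors.card := by
      refine Finset.card_le_card_of_injOn Prod.fst ?_ ?_
      · intro x hx
        have hx' := Finset.mem_filter.mp hx
        have hx2 : x.1 * x.2 = n := hx'.2
        rw [Finset.mem_coe, Nat.mem_primeFactors]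
        exact ⟨(hT x hx'.1).1, hx2 ▸ Dvd.intro _ rfl, by omega⟩
      · intro a ha b hb hab
        have ha' := Finset.mem_filter.mp ha
        have hb' := Finset.mem_filter.mp hb
        have ha2 : a.1 * a.2 = n := ha'.2
        have hb2 : b.1 * b.2 = n := hb'.2
        refine Prod.ext hab ?_
        have hpos := (hT a ha'.1).1.pos
        have hab' : a.1 = b.1 := hab
        rw [← hab'] at hb2
        exact Nat.eq_of_mul_eq_mul_left hpos (ha2.trans hb2.symm)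
    have h3 : ((T.filter (fun x => G x = n)).card : ℝ) ≤ (n.primeFactors.card : ℝ) := by
      exact_mod_cast h2
    have hcp := card_pos' hn2'
    calc ((T.filter (fun x => G x = n)).card : ℝ) * (vw k n * F n ^ 2)
        ≤ (n.primeFactors.card : ℝ) * (vw k n * F n ^ 2) :=
          mul_le_mul_of_nonneg_right h3 (mul_nonneg (vw_pos hw hn2').le (sq_nonneg _))
      _ = (n : ℝ) ^ (1 / k) * rho k n * F n ^ 2 := by
          rw [vw]
          field_simp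

open scoped Classical in
lemma sum_split3 {ι : Type} (T : Finset ι) (t : ι → ℝ) (ht0 : ∀ x, 0 ≤ t x) (P1 P2 : ι → Prop) :
    ∑ x ∈ T, t x ≤ ∑ x ∈ T.filter P1, t x + (∑ x ∈ T.filter P2, t x +
      ∑ x ∈ T.filter (fun x => ¬ P1 x ∧ ¬ P2 x), t x) := by
  rw [Finset.sum_filter, Finset.sum_filter, Finset.sum_filter, ← Finset.sum_add_distrib,
    ← Finset.sum_add_distrib]
  refine Finset.sum_le_sum fun x _ => ?_
  have := ht0 x
  by_cases h1 : P1 x <;> by_cases h2 : P2 x <;> simp [h1, h2, this]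

/-- The multilinear estimate for finite sums. -/
theorem core (hw : WHyp k c0 C0) (hF : FHyp k X₀ Cb Cd N F) (hη : SHyp k X₀ Eη η)
    (hs : SHyp k X₀ Es s) (hsmall1 : Real.sqrt (2 * C0) * Real.sqrt Es ≤ 1 / 2)
    (hsmall2 : C0 * Es ≤ 1 / 2) (T : Finset (ℕ × ℕ)) :
    ∑ x ∈ T, (if 2 ≤ x.2 then η x.1 * coef s x.2 * F (x.1 * x.2) else 0) ≤
      (4 * Real.sqrt Cd * Real.sqrt (2 * C0) + Real.sqrt ((256 / c0) * C0 ^ 2) * Real.sqrt Cb) *
        Real.sqrt Eη * Real.sqrt Es * Real.sqrt N := by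
  classical
  set t : ℕ × ℕ → ℝ := fun x => η x.1 * coef s x.2 * F (x.1 * x.2) with ht
  have ht0 : ∀ x, 0 ≤ t x := fun x =>
    mul_nonneg (mul_nonneg (hη.nonneg _) (coef_nonneg hs.nonneg _)) (hF.F0 _)
  set T0 := T.filter (fun x => 2 ≤ x.2 ∧ x.1.Prime) with hT0
  have h0 : ∑ x ∈ T, (if 2 ≤ x.2 then t x else 0) = ∑ x ∈ T0, t x := by
    rw [hT0, Finset.sum_filter]
    refine Finset.sum_congr rfl fun x _ => ?_
    by_cases h2 : 2 ≤ x.2
    · by_cases hp : x.1.Prime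
      · rw [if_pos h2, if_pos ⟨h2, hp⟩]
      · rw [if_pos h2, if_neg (fun h => hp h.2), ht]
        simp only
        rw [hη.supp x.1 (fun h => hp h.1), zero_mul, zero_mul]
    · rw [if_neg h2, if_neg (fun h => h2 h.1)]
  obtain ⟨P1, hP1⟩ : ∃ P1 : ℕ × ℕ → Prop, P1 = fun x => x.2 ≤ x.1 := ⟨_, rfl⟩
  obtain ⟨P2, hP2⟩ : ∃ P2 : ℕ × ℕ → Prop, P2 = fun x => ∃ q : ℕ, q.Prime ∧ q ∣ x.2 ∧
    x.1 * (x.2 / q) ≤ q := ⟨_, rfl⟩
  have hsplit : ∑ x ∈ T0, t x ≤ ∑ x ∈ T0.filter P1, t x + (∑ x ∈ T0.filter P2, t x +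
      ∑ x ∈ T0.filter (fun x => ¬ P1 x ∧ ¬ P2 x), t x) := sum_split3 T0 t ht0 P1 P2
  have hA := partA hw hF hη hs hsmall1 (T0.filter P1) (by
    intro x hx
    rw [Finset.mem_filter, hT0, Finset.mem_filter, hP1] at hx
    exact ⟨hx.1.2.1, hx.2⟩)
  have hA' := partA' hw hF hη hs hsmall1 (T0.filter P2)
    (fun x => if h : ∃ q : ℕ, q.Prime ∧ q ∣ x.2 ∧ x.1 * (x.2 / q) ≤ q then h.choose else 0) (by
    intro x hx
    rw [Finset.mem_filter, hT0, Finset.mem_filter, hP2] at hx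
    obtain ⟨⟨_, h2, hp⟩, hx2⟩ := hx
    have hx3 : ∃ q : ℕ, q.Prime ∧ q ∣ x.2 ∧ x.1 * (x.2 / q) ≤ q := hx2
    simp only [dif_pos hx3]
    exact ⟨hp, h2, hx3.choose_spec⟩)
  have hB := partB hw hF hη hs hsmall2 (T0.filter (fun x => ¬ P1 x ∧ ¬ P2 x)) (by
    intro x hx
    rw [Finset.mem_filter, hT0, Finset.mem_filter, hP1, hP2] at hx
    obtain ⟨⟨_, h2, hp⟩, hx1, hx2⟩ := hx
    refine ⟨hp, h2, fun q hq hqd => ?_⟩
    have hlt : x.1 < x.2 := not_le.mp hx1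
    rcases (Nat.Prime.dvd_mul hq).mp hqd with h | h
    · have hqp : q = x.1 := (Nat.prime_dvd_prime_iff_eq hq hp).mp h
      have h3 : q ^ 2 ≤ x.1 * x.2 := by
        rw [hqp]
        nlinarith
      exact_mod_cast h3
    · have h3 : q < x.1 * (x.2 / q) := by
        by_contra hcon
        exact hx2 ⟨q, hq, h, not_lt.mp hcon⟩
      have h4 : q ^ 2 ≤ x.1 * x.2 := by
        have e : q * (x.2 / q) = x.2 := Nat.mul_div_cancel' h
        calc q ^ 2 = q * q := sq q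
          _ ≤ q * (x.1 * (x.2 / q)) := Nat.mul_le_mul_left _ h3.le
          _ = x.1 * (q * (x.2 / q)) := by ring
          _ = x.1 * x.2 := by rw [e]
      exact_mod_cast h4)
  rw [h0]
  refine hsplit.trans ((add_le_add hA (add_le_add hA' hB)).trans (le_of_eq ?_))
  have hEη := hη.E0
  have hEs := hs.E0
  have hCd := hF.Cd0
  have hCb := hF.Cb0
  have hN := hF.N0
  have hc0 := hw.hc0
  have hC0 := hw.hC0
  have e1 : Real.sqrt ((128 / c0) * ((C0 * Eη) * (2 * (C0 * Es)))) =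
      Real.sqrt ((256 / c0) * C0 ^ 2) * Real.sqrt Eη * Real.sqrt Es := by
    rw [← Real.sqrt_mul (by positivity), ← Real.sqrt_mul (by positivity)]
    congr 1
    ring
  rw [e1, Real.sqrt_mul hCd, Real.sqrt_mul hCb]
  ring

end Pool.Agent.Lib.MP_0bb3d8_nt.A7
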