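import Pool.Agent.Lib.MP_0bb3d8_nt.A7
import Pool.Agent.Lib.MP_0bb3d8_nt.A5

set_option autoImplicit false

open Real MeasureTheory Polynomial Set

namespace Pool.Agent.Lib.MP_0bb3d8_nt

theorem multilinear {c c₁ C₁ X₀ k : ℝ} (hP : PrimesOK c c₁ C₁ X₀) (hk : 2 / c ≤ k) :
    ∃ C r₀ : ℝ, 0 < C ∧ 0 < r₀ ∧ ∀ (κ : ℝ) (f f' : ℝ → ℝ), 0 < κ → κ ≤ 1 → Good k κ f f' →
      ∀ η s : ℕ → ℝ, (∀ p, 0 ≤ η p) → (∀ p, 0 ≤ s p) →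
      (∀ p : ℕ, ¬ (p.Prime ∧ X₀ ≤ p) → η p = 0) → (∀ p : ℕ, ¬ (p.Prime ∧ X₀ ≤ p) → s p = 0) →
      Summable (fun p : ℕ => η p ^ 2 / W k p) → Summable (fun p : ℕ => s p ^ 2 / W k p) →
      WN k s ≤ r₀ ^ 2 →
      Summable (fun q : ℕ × ℕ => if 2 ≤ q.2 then η q.1 * coef s q.2 * |f ((q.1 * q.2 : ℕ) : ℝ)|
        else 0) ∧
      ∑' q : ℕ × ℕ, (if 2 ≤ q.2 then η q.1 * coef s q.2 * |f ((q.1 * q.2 : ℕ) : ℝ)| else 0) ≤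
        C * Real.sqrt (WN k η) * Real.sqrt (WN k s) * Real.sqrt (Nrm k f) := by
  have hk1 : 1 < k := by
    obtain ⟨hc0, hc1, _⟩ := hP
    have : 2 < 2 / c := by
      rw [lt_div_iff₀ hc0]
      linarith
    linarith
  exact multilinear_of hk1 (bessel_nat hk1) (bessel_dil hP hk)

end Pool.Agent.Lib.MP_0bb3d8_nt
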