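import Pool.Agent.Lib.MP_0bb3d8_nt.A7Weight

set_option autoImplicit false

open Real MeasureTheory Polynomial Set

namespace Pool.Agent.Lib.MP_0bb3d8_nt.A7

/-- Sampling hypotheses. -/
structure FHyp (k X₀ Cb Cd N : ℝ) (F : ℕ → ℝ) : Prop where
  F0 : ∀ n, 0 ≤ F n
  N0 : 0 ≤ N
  Cb0 : 0 ≤ Cb
  Cd0 : 0 ≤ Cd
  nat : ∀ T : Finset ℕ, ∑ n ∈ T, (n : ℝ) ^ (1 / k) * rho k n * F n ^ 2 ≤ Cb * N
  dil : ∀ m : ℕ, 1 ≤ m → ∀ T : Finset ℕ, (∀ p ∈ T, p.Prime ∧ X₀ ≤ p ∧ m ≤ p) →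
    ∑ p ∈ T, W k p * F (p * m) ^ 2 ≤ Cd * (m : ℝ) ^ (-(1 + 3 / (2 * k))) * N

/-- Hypotheses on a prime-supported sequence. -/
structure SHyp (k X₀ E : ℝ) (η : ℕ → ℝ) : Prop where
  nonneg : ∀ p, 0 ≤ η p
  supp : ∀ p : ℕ, ¬ (p.Prime ∧ X₀ ≤ p) → η p = 0
  E0 : 0 ≤ E
  sum : ∀ T : Finset ℕ, ∑ p ∈ T, η p ^ 2 / W k p ≤ E

variable {k c0 C0 X₀ Cb Cd N Eη Es : ℝ} {F η s : ℕ → ℝ}

lemma inner_le (hw : WHyp k c0 C0) (hF : FHyp k X₀ Cb Cd N F) (hη : SHyp k X₀ Eη η)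
    {m : ℕ} (hm : 1 ≤ m) (T : Finset ℕ) (hT : ∀ p ∈ T, m ≤ p) :
    ∑ p ∈ T, η p * F (p * m) ≤
      Real.sqrt Eη * Real.sqrt (Cd * N) * (m : ℝ) ^ (-(1 / 2 + 3 / (4 * k))) := by
  classical
  set T' := T.filter (fun p : ℕ => p.Prime ∧ X₀ ≤ p) with hT'
  have h1 : ∑ p ∈ T, η p * F (p * m) = ∑ p ∈ T', η p * F (p * m) := by
    symm
    refine Finset.sum_subset (Finset.filter_subset _ _) fun p hp hp' => ?_
    rw [hη.supp p (fun h => hp' (Finset.mem_filter.mpr ⟨hp, h⟩)), zero_mul]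
  have hT1 : ∀ p ∈ T', p.Prime ∧ X₀ ≤ p ∧ m ≤ p := by
    intro p hp
    have := Finset.mem_filter.mp hp
    exact ⟨this.2.1, this.2.2, hT p this.1⟩
  have hm0 : (0 : ℝ) < m := by exact_mod_cast hm
  have hk : 0 < k := by linarith [hw.hk]
  rw [h1]
  refine (cs_weight T' η (fun p => F (p * m)) (W k) fun p hp => hw.W_pos (hT1 p hp).1).trans ?_
  have h2 : Real.sqrt (∑ p ∈ T', η p ^ 2 / W k p) ≤ Real.sqrt Eη := Real.sqrt_le_sqrt (hη.sum T')
  have h3 : Real.sqrt (∑ p ∈ T', W k p * F (p * m) ^ 2) ≤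
      Real.sqrt (Cd * N) * (m : ℝ) ^ (-(1 / 2 + 3 / (4 * k))) := by
    refine (Real.sqrt_le_sqrt (hF.dil m hm T' hT1)).trans (le_of_eq ?_)
    have e1 : (m : ℝ) ^ (-(1 + 3 / (2 * k))) = ((m : ℝ) ^ (-(1 / 2 + 3 / (4 * k)))) ^ 2 := by
      rw [← Real.rpow_natCast, ← Real.rpow_mul hm0.le]
      congr 1
      push_cast
      field_simp
      ring
    rw [e1, show Cd * ((m : ℝ) ^ (-(1 / 2 + 3 / (4 * k)))) ^ 2 * N =
      (Cd * N) * ((m : ℝ) ^ (-(1 / 2 + 3 / (4 * k)))) ^ 2 by ring,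
      Real.sqrt_mul (mul_nonneg hF.Cd0 hF.N0), Real.sqrt_sq (by positivity)]
  rw [mul_assoc]
  exact mul_le_mul h2 h3 (Real.sqrt_nonneg _) (Real.sqrt_nonneg _)

lemma sum_sigma_le (hw : WHyp k c0 C0) (hη : SHyp k X₀ Eη η) (T : Finset ℕ)
    (hT : ∀ p ∈ T, p.Prime) :
    ∑ p ∈ T, η p * (p : ℝ) ^ (-(1 / 2 + 3 / (4 * k))) ≤ Real.sqrt (2 * C0) * Real.sqrt Eη := by
  refine (cs_weight T η (fun p => (p : ℝ) ^ (-(1 / 2 + 3 / (4 * k)))) (W k)
    fun p hp => hw.W_pos (hT p hp)).trans ?_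
  rw [mul_comm]
  refine mul_le_mul ?_ (Real.sqrt_le_sqrt (hη.sum T)) (Real.sqrt_nonneg _) (Real.sqrt_nonneg _)
  apply Real.sqrt_le_sqrt
  calc ∑ p ∈ T, W k p * ((p : ℝ) ^ (-(1 / 2 + 3 / (4 * k)))) ^ 2
      ≤ ∑ p ∈ T, C0 * (1 / ((p : ℝ) * (1 + Real.log p) ^ 2)) :=
        Finset.sum_le_sum fun p hp => hw.W_le (hT p hp)
    _ = C0 * ∑ p ∈ T, (1 / ((p : ℝ) * (1 + Real.log p) ^ 2)) := by rw [Finset.mul_sum]
    _ ≤ C0 * 2 := mul_le_mul_of_nonneg_left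
        (sum_inv_log T fun n hn => (hT n hn).one_lt.le) hw.hC0.le
    _ = 2 * C0 := mul_comm _ _

lemma div_minFac_ne {m : ℕ} (hm : 2 ≤ m) : m / m.minFac ≠ 0 :=
  (Nat.div_pos (Nat.minFac_le (by omega)) (Nat.minFac_pos m)).ne'

lemma coef_step (hs : ∀ p, 0 ≤ s p) {m : ℕ} (hm : 2 ≤ m) :
    coef s m ≤ s m.minFac * coef s (m / m.minFac) := by
  have h1 : m = m.minFac * (m / m.minFac) := (Nat.mul_div_cancel' (Nat.minFac_dvd m)).symm
  conv_lhs => rw [h1]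
  exact coef_mul_le hs (Nat.minFac_prime (by omega)) (div_minFac_ne hm)

lemma rpow_split {m : ℕ} (hm : 2 ≤ m) (a : ℝ) :
    (m : ℝ) ^ a = (m.minFac : ℝ) ^ a * ((m / m.minFac : ℕ) : ℝ) ^ a := by
  rw [← Real.mul_rpow (by positivity) (by positivity), ← Nat.cast_mul,
    Nat.mul_div_cancel' (Nat.minFac_dvd m)]

/-- The step inequality for `h(m) = A(m) m^{-σ}`. -/
lemma step1 (hs : ∀ p, 0 ≤ s p) (a : ℝ) {m : ℕ} (hm : 2 ≤ m) :
    coef s m * (m : ℝ) ^ a ≤ (s m.minFac * (m.minFac : ℝ) ^ a) *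
      (coef s (m / m.minFac) * ((m / m.minFac : ℕ) : ℝ) ^ a) := by
  rw [rpow_split hm a]
  calc coef s m * ((m.minFac : ℝ) ^ a * ((m / m.minFac : ℕ) : ℝ) ^ a)
      ≤ (s m.minFac * coef s (m / m.minFac)) *
        ((m.minFac : ℝ) ^ a * ((m / m.minFac : ℕ) : ℝ) ^ a) :=
        mul_le_mul_of_nonneg_right (coef_step hs hm) (by positivity)
    _ = _ := by ring

/-- The step inequality for `h(m) = A(m)² Lg(m)³ / m^θ`. -/
lemma step2 (hs : ∀ p, 0 ≤ s p) (a : ℝ) {m : ℕ} (hm : 2 ≤ m) :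
    coef s m ^ 2 * (Lg m ^ 3 / (m : ℝ) ^ a) ≤
      (s m.minFac ^ 2 * ((1 + Real.log m.minFac) ^ 3 / (m.minFac : ℝ) ^ a)) *
      (coef s (m / m.minFac) ^ 2 * (Lg (m / m.minFac) ^ 3 / ((m / m.minFac : ℕ) : ℝ) ^ a)) := by
  have hq := Nat.minFac_prime (n := m) (by omega)
  have h1 : m = m.minFac * (m / m.minFac) := (Nat.mul_div_cancel' (Nat.minFac_dvd m)).symm
  have hL : Lg m = (1 + Real.log m.minFac) * Lg (m / m.minFac) := by
    conv_lhs => rw [h1]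
    rw [Lg_mul hq.ne_zero (div_minFac_ne hm), Lg_prime hq]
  rw [rpow_split hm a, hL]
  have hl : 0 ≤ Real.log m.minFac := Real.log_natCast_nonneg _
  have hLg := Lg_pos (m / m.minFac)
  have h2 : coef s m ^ 2 ≤ (s m.minFac * coef s (m / m.minFac)) ^ 2 :=
    pow_le_pow_left₀ (coef_nonneg hs m) (coef_step hs hm) 2
  calc coef s m ^ 2 * (((1 + Real.log m.minFac) * Lg (m / m.minFac)) ^ 3 /
        ((m.minFac : ℝ) ^ a * ((m / m.minFac : ℕ) : ℝ) ^ a))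
      ≤ (s m.minFac * coef s (m / m.minFac)) ^ 2 *
        (((1 + Real.log m.minFac) * Lg (m / m.minFac)) ^ 3 /
        ((m.minFac : ℝ) ^ a * ((m / m.minFac : ℕ) : ℝ) ^ a)) :=
        mul_le_mul_of_nonneg_right h2 (by positivity)
    _ = _ := by rw [mul_pow, mul_pow, mul_div_mul_comm]; ring

/-- Sum of `A(m) m^{-σ}` over `m ≥ 2`. -/
lemma sumA_ge_two (hw : WHyp k c0 C0) (hs : SHyp k X₀ Es s)
    (hsmall : Real.sqrt (2 * C0) * Real.sqrt Es ≤ 1 / 2) (T : Finset ℕ) (hT : ∀ m ∈ T, 2 ≤ m) :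
    ∑ m ∈ T, coef s m * (m : ℝ) ^ (-(1 / 2 + 3 / (4 * k))) ≤
      2 * (Real.sqrt (2 * C0) * Real.sqrt Es) :=
  tree_sum (fun m => coef s m * (m : ℝ) ^ (-(1 / 2 + 3 / (4 * k))))
    (fun q => s q * (q : ℝ) ^ (-(1 / 2 + 3 / (4 * k))))
    (fun n => mul_nonneg (coef_nonneg hs.nonneg n) (by positivity))
    (fun n => mul_nonneg (hs.nonneg n) (by positivity)) (by simp [coef_one])
    (fun m hm => step1 hs.nonneg _ hm) _ hsmall (fun T hT => sum_sigma_le hw hs T hT) T hT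

lemma sumA_ge_one (hw : WHyp k c0 C0) (hs : SHyp k X₀ Es s)
    (hsmall : Real.sqrt (2 * C0) * Real.sqrt Es ≤ 1 / 2) (T : Finset ℕ) (hT : ∀ m ∈ T, 1 ≤ m) :
    ∑ m ∈ T, coef s m * (m : ℝ) ^ (-(1 / 2 + 3 / (4 * k))) ≤ 2 :=
  tree_sum_one (fun m => coef s m * (m : ℝ) ^ (-(1 / 2 + 3 / (4 * k))))
    (fun q => s q * (q : ℝ) ^ (-(1 / 2 + 3 / (4 * k))))
    (fun n => mul_nonneg (coef_nonneg hs.nonneg n) (by positivity))
    (fun n => mul_nonneg (hs.nonneg n) (by positivity)) (by simp [coef_one])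
    (fun m hm => step1 hs.nonneg _ hm) _ hsmall (fun T hT => sum_sigma_le hw hs T hT) T hT

lemma sum_u2_le (hw : WHyp k c0 C0) (hs : SHyp k X₀ Es s) (T : Finset ℕ)
    (hT : ∀ p ∈ T, p.Prime) :
    ∑ q ∈ T, s q ^ 2 * ((1 + Real.log q) ^ 3 / (q : ℝ) ^ (3 / (2 * k))) ≤ C0 * Es := by
  calc ∑ q ∈ T, s q ^ 2 * ((1 + Real.log q) ^ 3 / (q : ℝ) ^ (3 / (2 * k)))
      ≤ ∑ q ∈ T, C0 * (s q ^ 2 / W k q) := by
        refine Finset.sum_le_sum fun q hq => ?_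
        calc s q ^ 2 * ((1 + Real.log q) ^ 3 / (q : ℝ) ^ (3 / (2 * k)))
            ≤ s q ^ 2 * (C0 / W k q) :=
              mul_le_mul_of_nonneg_left (hw.inv_W_ge (hT q hq)) (sq_nonneg _)
          _ = C0 * (s q ^ 2 / W k q) := by ring
    _ = C0 * ∑ q ∈ T, s q ^ 2 / W k q := by rw [Finset.mul_sum]
    _ ≤ C0 * Es := mul_le_mul_of_nonneg_left (hs.sum T) hw.hC0.le

/-- Sum of `A(m)² Lg(m)³ / m^θ` over `m ≥ 2`. -/
lemma sumB_ge_two (hw : WHyp k c0 C0) (hs : SHyp k X₀ Es s)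
    (hsmall : C0 * Es ≤ 1 / 2) (T : Finset ℕ) (hT : ∀ m ∈ T, 2 ≤ m) :
    ∑ m ∈ T, coef s m ^ 2 * (Lg m ^ 3 / (m : ℝ) ^ (3 / (2 * k))) ≤ 2 * (C0 * Es) :=
  tree_sum (fun m => coef s m ^ 2 * (Lg m ^ 3 / (m : ℝ) ^ (3 / (2 * k))))
    (fun q => s q ^ 2 * ((1 + Real.log q) ^ 3 / (q : ℝ) ^ (3 / (2 * k))))
    (fun n => mul_nonneg (sq_nonneg _) (by have := Lg_pos n; positivity))
    (fun n => mul_nonneg (sq_nonneg _) (by have := Real.log_natCast_nonneg n; positivity))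
    (by simp [coef_one, Lg_one])
    (fun m hm => step2 hs.nonneg _ hm) _ hsmall (fun T hT => sum_u2_le hw hs T hT) T hT

/-- Part (A): `2 ≤ m ≤ p`. -/
lemma partA (hw : WHyp k c0 C0) (hF : FHyp k X₀ Cb Cd N F) (hη : SHyp k X₀ Eη η)
    (hs : SHyp k X₀ Es s) (hsmall : Real.sqrt (2 * C0) * Real.sqrt Es ≤ 1 / 2)
    (T : Finset (ℕ × ℕ)) (hT : ∀ x ∈ T, 2 ≤ x.2 ∧ x.2 ≤ x.1) :
    ∑ x ∈ T, η x.1 * coef s x.2 * F (x.1 * x.2) ≤
      Real.sqrt Eη * Real.sqrt (Cd * N) * (2 * (Real.sqrt (2 * C0) * Real.sqrt Es)) := by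
  classical
  rw [← Finset.sum_fiberwise_of_maps_to (s := T) (t := T.image Prod.snd) (g := Prod.snd)
    (fun x hx => Finset.mem_image_of_mem _ hx)]
  have h1 : ∀ m ∈ T.image Prod.snd, ∑ x ∈ T with x.2 = m, η x.1 * coef s x.2 * F (x.1 * x.2) ≤
      Real.sqrt Eη * Real.sqrt (Cd * N) * (coef s m * (m : ℝ) ^ (-(1 / 2 + 3 / (4 * k)))) := by
    intro m hm
    obtain ⟨x, hx, rfl⟩ := Finset.mem_image.mp hm
    have hm2 := (hT x hx).1
    have h2 : ∑ y ∈ T with y.2 = x.2, η y.1 * coef s y.2 * F (y.1 * y.2) =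
        coef s x.2 * ∑ p ∈ (T.filter (fun y => y.2 = x.2)).image Prod.fst,
          η p * F (p * x.2) := by
      rw [Finset.sum_image, Finset.mul_sum]
      · refine Finset.sum_congr rfl fun y hy => ?_
        rw [(Finset.mem_filter.mp hy).2]
        ring
      · intro a ha b hb hab
        have ha' := (Finset.mem_filter.mp ha).2
        have hb' := (Finset.mem_filter.mp hb).2
        exact Prod.ext hab (ha'.trans hb'.symm)
    rw [h2]
    have h3 := inner_le hw hF hη (m := x.2) (by omega)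
      ((T.filter (fun y => y.2 = x.2)).image Prod.fst) (by
        intro p hp
        obtain ⟨y, hy, rfl⟩ := Finset.mem_image.mp hp
        have hy' := Finset.mem_filter.mp hy
        rw [← hy'.2]
        exact (hT y hy'.1).2)
    calc coef s x.2 * ∑ p ∈ (T.filter (fun y => y.2 = x.2)).image Prod.fst, η p * F (p * x.2)
        ≤ coef s x.2 * (Real.sqrt Eη * Real.sqrt (Cd * N) *
          (x.2 : ℝ) ^ (-(1 / 2 + 3 / (4 * k)))) :=
          mul_le_mul_of_nonneg_left h3 (coef_nonneg hs.nonneg _)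
      _ = _ := by ring
  refine (Finset.sum_le_sum h1).trans ?_
  rw [← Finset.mul_sum]
  refine mul_le_mul_of_nonneg_left ?_ (by positivity)
  refine sumA_ge_two hw hs hsmall _ ?_
  intro m hm
  obtain ⟨x, hx, rfl⟩ := Finset.mem_image.mp hm
  exact (hT x hx).1

/-- Part (A'): there is a prime `q = g x` dividing `m` with `p (m / q) ≤ q`. -/
lemma partA' (hw : WHyp k c0 C0) (hF : FHyp k X₀ Cb Cd N F) (hη : SHyp k X₀ Eη η)
    (hs : SHyp k X₀ Es s) (hsmall : Real.sqrt (2 * C0) * Real.sqrt Es ≤ 1 / 2)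
    (T : Finset (ℕ × ℕ)) (g : ℕ × ℕ → ℕ)
    (hT : ∀ x ∈ T, x.1.Prime ∧ 2 ≤ x.2 ∧ (g x).Prime ∧ g x ∣ x.2 ∧ x.1 * (x.2 / g x) ≤ g x) :
    ∑ x ∈ T, η x.1 * coef s x.2 * F (x.1 * x.2) ≤
      Real.sqrt Es * Real.sqrt (Cd * N) * ((Real.sqrt (2 * C0) * Real.sqrt Eη) * 2) := by
  classical
  set G : ℕ × ℕ → ℕ × ℕ := fun x => (x.1, x.2 / g x) with hG
  have h0 : ∀ x ∈ T, η x.1 * coef s x.2 * F (x.1 * x.2) ≤
      η x.1 * coef s (x.2 / g x) * (s (g x) * F (g x * (x.1 * (x.2 / g x)))) := by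
    intro x hx
    obtain ⟨hp, hm, hq, hd, hle⟩ := hT x hx
    have hne : x.2 / g x ≠ 0 :=
      (Nat.div_pos (Nat.le_of_dvd (by omega) hd) hq.pos).ne'
    have e1 : x.2 = g x * (x.2 / g x) := (Nat.mul_div_cancel' hd).symm
    have e2 : g x * (x.1 * (x.2 / g x)) = x.1 * x.2 := by
      conv_rhs => rw [e1]
      ring
    rw [e2]
    have h1 : coef s x.2 ≤ s (g x) * coef s (x.2 / g x) := by
      conv_lhs => rw [e1]
      exact coef_mul_le hs.nonneg hq hne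
    calc η x.1 * coef s x.2 * F (x.1 * x.2)
        ≤ η x.1 * (s (g x) * coef s (x.2 / g x)) * F (x.1 * x.2) :=
          mul_le_mul_of_nonneg_right (mul_le_mul_of_nonneg_left h1 (hη.nonneg _)) (hF.F0 _)
      _ = _ := by ring
  refine (Finset.sum_le_sum h0).trans ?_
  rw [← Finset.sum_fiberwise_of_maps_to (s := T) (t := T.image G) (g := G)
    (fun x hx => Finset.mem_image_of_mem _ hx)]
  have h1 : ∀ r ∈ T.image G, ∑ x ∈ T with G x = r,
      η x.1 * coef s (x.2 / g x) * (s (g x) * F (g x * (x.1 * (x.2 / g x)))) ≤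
      Real.sqrt Es * Real.sqrt (Cd * N) * ((η r.1 * (r.1 : ℝ) ^ (-(1 / 2 + 3 / (4 * k)))) *
        (coef s r.2 * (r.2 : ℝ) ^ (-(1 / 2 + 3 / (4 * k))))) := by
    intro r hr
    have hr1 : 1 ≤ r.1 * r.2 := by
      obtain ⟨x, hx, rfl⟩ := Finset.mem_image.mp hr
      obtain ⟨hp, hm, hq, hd, hle⟩ := hT x hx
      exact Nat.mul_pos hp.pos (Nat.div_pos (Nat.le_of_dvd (by omega) hd) hq.pos)
    have h2 : ∑ x ∈ T with G x = r,
        η x.1 * coef s (x.2 / g x) * (s (g x) * F (g x * (x.1 * (x.2 / g x)))) =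
        η r.1 * coef s r.2 * ∑ q ∈ (T.filter (fun x => G x = r)).image g,
          s q * F (q * (r.1 * r.2)) := by
      rw [Finset.sum_image, Finset.mul_sum]
      · refine Finset.sum_congr rfl fun y hy => ?_
        have hy' := (Finset.mem_filter.mp hy).2
        rw [← hy']
      · intro a ha b hb hab
        have ha' := Finset.mem_filter.mp ha
        have hb' := Finset.mem_filter.mp hb
        have h3 : G a = G b := ha'.2.trans hb'.2.symm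
        simp only [hG, Prod.mk.injEq] at h3
        have ea : a.2 = g a * (a.2 / g a) := (Nat.mul_div_cancel' (hT a ha'.1).2.2.2.1).symm
        have eb : b.2 = g b * (b.2 / g b) := (Nat.mul_div_cancel' (hT b hb'.1).2.2.2.1).symm
        refine Prod.ext h3.1 ?_
        rw [ea, eb, h3.2, hab]
    rw [h2]
    have h3 := inner_le hw hF hs (m := r.1 * r.2) hr1
      ((T.filter (fun x => G x = r)).image g) (by
        intro q hq
        obtain ⟨y, hy, rfl⟩ := Finset.mem_image.mp hq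
        have hy' := Finset.mem_filter.mp hy
        rw [← hy'.2]
        exact (hT y hy'.1).2.2.2.2)
    calc η r.1 * coef s r.2 * ∑ q ∈ (T.filter (fun x => G x = r)).image g,
          s q * F (q * (r.1 * r.2))
        ≤ η r.1 * coef s r.2 * (Real.sqrt Es * Real.sqrt (Cd * N) *
          ((r.1 * r.2 : ℕ) : ℝ) ^ (-(1 / 2 + 3 / (4 * k)))) :=
          mul_le_mul_of_nonneg_left h3 (mul_nonneg (hη.nonneg _) (coef_nonneg hs.nonneg _))
      _ = _ := by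
          rw [Nat.cast_mul, Real.mul_rpow (by positivity) (by positivity)]
          ring
  refine (Finset.sum_le_sum h1).trans ?_
  rw [← Finset.mul_sum]
  refine mul_le_mul_of_nonneg_left ?_ (by positivity)
  set P := T.image Prod.fst with hP
  set Q := T.image (fun x => x.2 / g x) with hQ
  have hsub : T.image G ⊆ P ×ˢ Q := by
    intro r hr
    obtain ⟨x, hx, rfl⟩ := Finset.mem_image.mp hr
    exact Finset.mem_product.mpr ⟨Finset.mem_image.mpr ⟨x, hx, rfl⟩,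
      Finset.mem_image.mpr ⟨x, hx, rfl⟩⟩
  calc ∑ r ∈ T.image G, (η r.1 * (r.1 : ℝ) ^ (-(1 / 2 + 3 / (4 * k)))) *
        (coef s r.2 * (r.2 : ℝ) ^ (-(1 / 2 + 3 / (4 * k))))
      ≤ ∑ r ∈ P ×ˢ Q, (η r.1 * (r.1 : ℝ) ^ (-(1 / 2 + 3 / (4 * k)))) *
        (coef s r.2 * (r.2 : ℝ) ^ (-(1 / 2 + 3 / (4 * k)))) :=
        Finset.sum_le_sum_of_subset_of_nonneg hsub fun r _ _ =>
          mul_nonneg (mul_nonneg (hη.nonneg _) (by positivity))
            (mul_nonneg (coef_nonneg hs.nonneg _) (by positivity))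
    _ = (∑ p ∈ P, η p * (p : ℝ) ^ (-(1 / 2 + 3 / (4 * k)))) *
        ∑ m ∈ Q, coef s m * (m : ℝ) ^ (-(1 / 2 + 3 / (4 * k))) := by
        rw [Finset.sum_mul_sum, ← Finset.sum_product']
    _ ≤ (Real.sqrt (2 * C0) * Real.sqrt Eη) * 2 := by
        refine mul_le_mul ?_ ?_ ?_ (by positivity)
        · refine sum_sigma_le hw hη P ?_
          intro p hp
          obtain ⟨x, hx, rfl⟩ := Finset.mem_image.mp hp
          exact (hT x hx).1
        · refine sumA_ge_one hw hs hsmall Q ?_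
          intro m hm
          obtain ⟨x, hx, rfl⟩ := Finset.mem_image.mp hm
          obtain ⟨hp, hm, hq, hd, hle⟩ := hT x hx
          exact Nat.div_pos (Nat.le_of_dvd (by omega) hd) hq.pos
        · exact Finset.sum_nonneg fun m _ => mul_nonneg (coef_nonneg hs.nonneg _) (by positivity)

end Pool.Agent.Lib.MP_0bb3d8_nt.A7
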