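import Pool.Agent.Lib.MP_0bb3d8_nt.A7Comb
import Pool.Agent.Lib.MP_0bb3d8_nt.A7Coef

set_option autoImplicit false

open Real MeasureTheory Polynomial Set

namespace Pool.Agent.Lib.MP_0bb3d8_nt.A7

/-- Weighted Cauchy-Schwarz. -/
lemma cs_weight {ι : Type} (T : Finset ι) (η g w : ι → ℝ) (hw : ∀ p ∈ T, 0 < w p) :
    ∑ p ∈ T, η p * g p ≤
      Real.sqrt (∑ p ∈ T, η p ^ 2 / w p) * Real.sqrt (∑ p ∈ T, w p * g p ^ 2) := by
  have h1 : ∑ p ∈ T, η p * g p =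
      ∑ p ∈ T, (η p / Real.sqrt (w p)) * (Real.sqrt (w p) * g p) := by
    refine Finset.sum_congr rfl fun p hp => ?_
    have := Real.sqrt_pos.mpr (hw p hp)
    field_simp
  rw [h1]
  refine (Real.sum_mul_le_sqrt_mul_sqrt T _ _).trans (le_of_eq ?_)
  congr 2
  · refine Finset.sum_congr rfl fun p hp => ?_
    rw [div_pow, Real.sq_sqrt (hw p hp).le]
  · refine Finset.sum_congr rfl fun p hp => ?_
    rw [mul_pow, Real.sq_sqrt (hw p hp).le]

/-- `∑ 1/(n (1 + log n)²) ≤ 2`. -/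
lemma sum_inv_log (T : Finset ℕ) (hT : ∀ n ∈ T, 1 ≤ n) :
    ∑ n ∈ T, 1 / ((n : ℝ) * (1 + Real.log n) ^ 2) ≤ 2 := by
  have key : ∀ M : ℕ, ∑ n ∈ Finset.Icc 1 (M + 1), 1 / ((n : ℝ) * (1 + Real.log n) ^ 2) ≤
      2 - 1 / (1 + Real.log ((M : ℝ) + 1)) := by
    intro M
    induction M with
    | zero => norm_num
    | succ M ih =>
      rw [Finset.sum_Icc_succ_top (by omega)]
      have hM : (0 : ℝ) ≤ M := by positivity
      set a := Real.log ((M : ℝ) + 1) with ha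
      have ha0 : 0 ≤ a := Real.log_nonneg (by linarith)
      have hcast : (((M + 1 + 1 : ℕ)) : ℝ) = (M : ℝ) + 1 + 1 := by push_cast; ring
      rw [hcast]
      have hcast2 : (((M + 1 : ℕ)) : ℝ) + 1 = (M : ℝ) + 1 + 1 := by push_cast; ring
      rw [hcast2]
      set b := Real.log ((M : ℝ) + 1 + 1) with hb
      have hab : a + 1 / ((M : ℝ) + 1 + 1) ≤ b := by
        have h1 : Real.log (((M : ℝ) + 1) / ((M : ℝ) + 1 + 1)) ≤
            ((M : ℝ) + 1) / ((M : ℝ) + 1 + 1) - 1 := Real.log_le_sub_one_of_pos (by positivity)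
        rw [Real.log_div (by positivity) (by positivity)] at h1
        have h2 : ((M : ℝ) + 1) / ((M : ℝ) + 1 + 1) - 1 = -(1 / ((M : ℝ) + 1 + 1)) := by
          field_simp
          ring
        rw [h2] at h1
        linarith
      have hn : 0 < 1 / ((M : ℝ) + 1 + 1) := by positivity
      have hb0 : 0 ≤ b := by linarith
      have h3 : 1 / (((M : ℝ) + 1 + 1) * (1 + b) ^ 2) ≤ 1 / (1 + a) - 1 / (1 + b) := by
        have h4 : 1 / (1 + a) - 1 / (1 + b) = (b - a) / ((1 + a) * (1 + b)) := by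
          field_simp
          ring
        rw [h4]
        calc 1 / (((M : ℝ) + 1 + 1) * (1 + b) ^ 2) =
            (1 / ((M : ℝ) + 1 + 1)) / ((1 + b) * (1 + b)) := by field_simp
          _ ≤ (b - a) / ((1 + a) * (1 + b)) := by
              apply div_le_div₀ (by linarith) (by linarith) (by positivity)
              exact mul_le_mul_of_nonneg_right (by linarith) (by linarith)
      linarith
  obtain ⟨M, hM⟩ : ∃ M : ℕ, ∀ m ∈ T, m ≤ M := ⟨T.sup id, fun m hm => Finset.le_sup (f := id) hm⟩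
  have hsub : T ⊆ Finset.Icc 1 (M + 1) := fun m hm =>
    Finset.mem_Icc.mpr ⟨hT m hm, (hM m hm).trans (by omega)⟩
  refine (Finset.sum_le_sum_of_subset_of_nonneg hsub fun m _ _ => by positivity).trans ?_
  refine (key M).trans ?_
  have : 0 ≤ Real.log ((M : ℝ) + 1) := Real.log_nonneg (by
    have : (0 : ℝ) ≤ M := by positivity
    linarith)
  have : 0 ≤ 1 / (1 + Real.log ((M : ℝ) + 1)) := by positivity
  linarith

/-- Hypotheses on the weight `rho`, at integers. -/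
structure WHyp (k c0 C0 : ℝ) : Prop where
  hk : 1 < k
  hc0 : 0 < c0
  hC0 : 0 < C0
  lo : ∀ n : ℕ, 1 ≤ n → c0 * ((n : ℝ) ^ (3 / (2 * k)) / (1 + Real.log n) ^ 4) ≤
    (n : ℝ) ^ (1 / k) * rho k n
  hi : ∀ n : ℕ, 1 ≤ n → (n : ℝ) ^ (1 / k) * rho k n ≤
    C0 * ((n : ℝ) ^ (3 / (2 * k)) / (1 + Real.log n) ^ 4)

lemma WHyp.of_rho {k c0 C0 : ℝ} (hk : 1 < k) (hc0 : 0 < c0) (hC0 : 0 < C0)
    (h : ∀ r : ℝ, 1 ≤ r →
      c0 * (r ^ (1 / (2 * k)) * (1 + Real.log r) ^ (-(4 : ℝ))) ≤ rho k r ∧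
      rho k r ≤ C0 * (r ^ (1 / (2 * k)) * (1 + Real.log r) ^ (-(4 : ℝ)))) : WHyp k c0 C0 := by
  have key : ∀ n : ℕ, 1 ≤ n → ∀ c : ℝ, (n : ℝ) ^ (1 / k) *
      (c * ((n : ℝ) ^ (1 / (2 * k)) * (1 + Real.log n) ^ (-(4 : ℝ)))) =
      c * ((n : ℝ) ^ (3 / (2 * k)) / (1 + Real.log n) ^ 4) := by
    intro n hn c
    have hn' : (1 : ℝ) ≤ n := by exact_mod_cast hn
    have hl : 0 ≤ Real.log n := Real.log_nonneg hn'
    have e1 : (1 + Real.log n) ^ (-(4 : ℝ)) = ((1 + Real.log n) ^ 4)⁻¹ := by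
      rw [Real.rpow_neg (by linarith)]
      congr 1
      exact_mod_cast Real.rpow_natCast (1 + Real.log n) 4
    have e2 : (n : ℝ) ^ (3 / (2 * k)) = (n : ℝ) ^ (1 / k) * (n : ℝ) ^ (1 / (2 * k)) := by
      rw [← Real.rpow_add (by linarith)]
      congr 1
      field_simp
      norm_num
    rw [e1, e2]
    field_simp
  refine ⟨hk, hc0, hC0, fun n hn => ?_, fun n hn => ?_⟩
  · rw [← key n hn]
    exact mul_le_mul_of_nonneg_left (h n (by exact_mod_cast hn)).1 (by positivity)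
  · rw [← key n hn]
    exact mul_le_mul_of_nonneg_left (h n (by exact_mod_cast hn)).2 (by positivity)

variable {k c0 C0 : ℝ}

lemma WHyp.pos (h : WHyp k c0 C0) {n : ℕ} (hn : 1 ≤ n) : 0 < (n : ℝ) ^ (1 / k) * rho k n := by
  refine lt_of_lt_of_le ?_ (h.lo n hn)
  have hn' : (1 : ℝ) ≤ n := by exact_mod_cast hn
  have hl : 0 ≤ Real.log n := Real.log_nonneg hn'
  have := h.hc0
  positivity

lemma WHyp.W_pos (h : WHyp k c0 C0) {p : ℕ} (hp : p.Prime) : 0 < W k p := by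
  rw [W]
  exact mul_pos (h.pos hp.one_lt.le) (Real.log_pos (by exact_mod_cast hp.one_lt))

/-- `W_p p^{-1-θ} ≤ C0 / (p (1 + log p)²)`. -/
lemma WHyp.W_le (h : WHyp k c0 C0) {p : ℕ} (hp : p.Prime) :
    W k p * ((p : ℝ) ^ (-(1 / 2 + 3 / (4 * k)))) ^ 2 ≤ C0 * (1 / ((p : ℝ) * (1 + Real.log p) ^ 2)) := by
  have hp1 : 1 ≤ p := hp.one_lt.le
  have hn' : (1 : ℝ) ≤ p := by exact_mod_cast hp1
  have hp0 : (0 : ℝ) < p := by linarith
  have hl : 0 ≤ Real.log p := Real.log_nonneg hn'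
  have hC0 := h.hC0
  have hk := h.hk
  have e1 : ((p : ℝ) ^ (-(1 / 2 + 3 / (4 * k)))) ^ 2 = ((p : ℝ) * (p : ℝ) ^ (3 / (2 * k)))⁻¹ := by
    rw [← Real.rpow_natCast, ← Real.rpow_mul hp0.le]
    have : (-(1 / 2 + 3 / (4 * k))) * ((2 : ℕ) : ℝ) = -(1 + 3 / (2 * k)) := by
      push_cast
      field_simp
      ring
    rw [this, Real.rpow_neg hp0.le, Real.rpow_add hp0, Real.rpow_one]
  rw [W, e1]
  have h1 := h.hi p hp1
  have hpow : (0 : ℝ) < (p : ℝ) ^ (3 / (2 * k)) := by positivity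
  calc (p : ℝ) ^ (1 / k) * rho k p * Real.log p * ((p : ℝ) * (p : ℝ) ^ (3 / (2 * k)))⁻¹
      ≤ C0 * ((p : ℝ) ^ (3 / (2 * k)) / (1 + Real.log p) ^ 4) * Real.log p *
        ((p : ℝ) * (p : ℝ) ^ (3 / (2 * k)))⁻¹ := by
        gcongr
    _ = C0 * (1 / (p * (1 + Real.log p) ^ 2)) * (Real.log p / (1 + Real.log p) ^ 2) := by
        field_simp
    _ ≤ C0 * (1 / (p * (1 + Real.log p) ^ 2)) * 1 := by
        apply mul_le_mul_of_nonneg_left _ (by positivity)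
        rw [div_le_one (by positivity)]
        nlinarith
    _ = _ := mul_one _

/-- `p^{-θ} (1 + log p)³ ≤ C0 / W_p`. -/
lemma WHyp.inv_W_ge (h : WHyp k c0 C0) {p : ℕ} (hp : p.Prime) :
    (1 + Real.log p) ^ 3 / (p : ℝ) ^ (3 / (2 * k)) ≤ C0 / W k p := by
  have hp1 : 1 ≤ p := hp.one_lt.le
  have hn' : (1 : ℝ) ≤ p := by exact_mod_cast hp1
  have hp0 : (0 : ℝ) < p := by linarith
  have hl : 0 ≤ Real.log p := Real.log_nonneg hn'
  have hC0 := h.hC0
  have hk := h.hk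
  have hpow : (0 : ℝ) < (p : ℝ) ^ (3 / (2 * k)) := by positivity
  have h1 : W k p ≤ C0 * ((p : ℝ) ^ (3 / (2 * k)) / (1 + Real.log p) ^ 3) := by
    rw [W]
    calc (p : ℝ) ^ (1 / k) * rho k p * Real.log p
        ≤ C0 * ((p : ℝ) ^ (3 / (2 * k)) / (1 + Real.log p) ^ 4) * Real.log p := by
          have := h.hi p hp1
          gcongr
      _ = C0 * ((p : ℝ) ^ (3 / (2 * k)) / (1 + Real.log p) ^ 3) *
          (Real.log p / (1 + Real.log p)) := by
          field_simp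
      _ ≤ C0 * ((p : ℝ) ^ (3 / (2 * k)) / (1 + Real.log p) ^ 3) * 1 := by
          apply mul_le_mul_of_nonneg_left _ (by positivity)
          rw [div_le_one (by positivity)]
          linarith
      _ = _ := mul_one _
  rw [div_le_div_iff₀ hpow (h.W_pos hp)]
  calc (1 + Real.log p) ^ 3 * W k p ≤
      (1 + Real.log p) ^ 3 * (C0 * ((p : ℝ) ^ (3 / (2 * k)) / (1 + Real.log p) ^ 3)) :=
        mul_le_mul_of_nonneg_left h1 (by positivity)
    _ = C0 * (p : ℝ) ^ (3 / (2 * k)) := by field_simp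

end Pool.Agent.Lib.MP_0bb3d8_nt.A7
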