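import Mathlib

set_option autoImplicit false

open Set Filter Topology

namespace Pool.Agent.Lib.MP_0bb3d8_nt

section abstract

variable {E : Type*} [NormedAddCommGroup E] [InnerProductSpace ℝ E] [CompleteSpace E]
variable {V : Type*} [AddCommGroup V] [Module ℝ V]

open scoped InnerProductSpace

/-- Riesz representation on the closure of the range of `U`. -/
theorem riesz_closure (U : V →ₗ[ℝ] E) (φ : V →ₗ[ℝ] ℝ) (M : ℝ) (hM : 0 ≤ M)
    (h : ∀ f, |φ f| ≤ M * ‖U f‖) :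
    ∃ x ∈ (LinearMap.range U).topologicalClosure, ‖x‖ ≤ M ∧ ∀ f, ⟪x, U f⟫_ℝ = φ f := by
  have hker : LinearMap.ker U ≤ LinearMap.ker φ := by
    intro f hf
    rw [LinearMap.mem_ker] at hf ⊢
    have := h f
    rw [hf, norm_zero, mul_zero] at this
    exact abs_nonpos_iff.mp this
  let g0 : LinearMap.range U →ₗ[ℝ] ℝ :=
    ((LinearMap.ker U).liftQ φ hker).comp (U.quotKerEquivRange.symm : _ →ₗ[ℝ] _)
  have hg0 : ∀ f, g0 ⟨U f, LinearMap.mem_range_self U f⟩ = φ f := by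
    intro f
    have : U.quotKerEquivRange.symm ⟨U f, LinearMap.mem_range_self U f⟩ =
        Submodule.Quotient.mk f := by
      rw [LinearEquiv.symm_apply_eq]
      rfl
    show ((LinearMap.ker U).liftQ φ hker)
      (U.quotKerEquivRange.symm ⟨U f, LinearMap.mem_range_self U f⟩) = φ f
    rw [this]
    exact Submodule.liftQ_apply _ _ _
  have hb : ∀ y : LinearMap.range U, ‖g0 y‖ ≤ M * ‖y‖ := by
    rintro ⟨y, f, rfl⟩
    rw [hg0 f]
    exact h f
  let g1 : StrongDual ℝ (LinearMap.range U) := g0.mkContinuous M hb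
  obtain ⟨g, hg, hgn⟩ := exists_extension_norm_eq (LinearMap.range U) g1
  have hg1n : ‖g1‖ ≤ M := LinearMap.mkContinuous_norm_le _ hM _
  let y : E := (InnerProductSpace.toDual ℝ E).symm g
  have hy : ∀ x, ⟪y, x⟫_ℝ = g x := fun x => InnerProductSpace.toDual_symm_apply
  have hyn : ‖y‖ = ‖g‖ := LinearIsometryEquiv.norm_map _ _
  let K : Submodule ℝ E := (LinearMap.range U).topologicalClosure
  have : CompleteSpace K := (Submodule.isClosed_topologicalClosure _).completeSpace_coe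
  refine ⟨K.starProjection y, K.starProjection_apply_mem y, ?_, ?_⟩
  · calc ‖K.starProjection y‖ ≤ ‖y‖ := K.norm_starProjection_apply_le y
      _ = ‖g1‖ := by rw [hyn, hgn]
      _ ≤ M := hg1n
  · intro f
    have hmem : U f ∈ K := Submodule.le_topologicalClosure _ (LinearMap.mem_range_self U f)
    have h1 : ⟪y - K.starProjection y, U f⟫_ℝ = 0 :=
      K.starProjection_inner_eq_zero y (U f) hmem
    rw [inner_sub_left, sub_eq_zero] at h1
    rw [← h1, hy (U f)]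
    have h2 := hg ⟨U f, LinearMap.mem_range_self U f⟩
    rw [h2]
    exact hg0 f

theorem fixed_point_abstract (U : V →ₗ[ℝ] E) (Φ : E → V → ℝ) (r : ℝ) (hr : 0 < r)
    (hlin : ∀ v : E, ‖v‖ ≤ r → IsLinearMap ℝ (Φ v))
    (h0 : ∀ f, |Φ 0 f| ≤ (r / 2) * ‖U f‖)
    (hL : ∀ v w : E, ‖v‖ ≤ r → ‖w‖ ≤ r → ∀ f, |Φ v f - Φ w f| ≤ (1 / 2) * ‖v - w‖ * ‖U f‖) :
    ∃ v ∈ (LinearMap.range U).topologicalClosure, ‖v‖ ≤ r ∧ ∀ f, ⟪v, U f⟫_ℝ = Φ v f := by
  classical
  have h00 : ‖(0 : E)‖ ≤ r := by rw [norm_zero]; exact hr.le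
  -- bound
  have hbd : ∀ v : E, ‖v‖ ≤ r → ∀ f, |Φ v f| ≤ r * ‖U f‖ := by
    intro v hv f
    have h1 := hL v 0 hv h00 f
    rw [sub_zero] at h1
    have h2 := h0 f
    have h3 : |Φ v f| ≤ |Φ v f - Φ 0 f| + |Φ 0 f| := by
      have := abs_add_le (Φ v f - Φ 0 f) (Φ 0 f)
      simpa using this
    nlinarith [norm_nonneg (U f), mul_le_mul_of_nonneg_right hv (norm_nonneg (U f))]
  have hex : ∀ v : E, ∃ x ∈ (LinearMap.range U).topologicalClosure,
      ‖v‖ ≤ r → ‖x‖ ≤ r ∧ ∀ f, ⟪x, U f⟫_ℝ = Φ v f := by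
    intro v
    by_cases hv : ‖v‖ ≤ r
    · obtain ⟨x, hx, hxn, hxf⟩ := riesz_closure U (IsLinearMap.mk' _ (hlin v hv)) r hr.le
        (fun f => hbd v hv f)
      exact ⟨x, hx, fun _ => ⟨hxn, hxf⟩⟩
    · exact ⟨0, Submodule.zero_mem _, fun h => absurd h hv⟩
  choose R hRK hR using hex
  let K : Submodule ℝ E := (LinearMap.range U).topologicalClosure
  have hKc : IsClosed (K : Set E) := Submodule.isClosed_topologicalClosure _
  let s : Set E := (K : Set E) ∩ Metric.closedBall 0 r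
  have hsc : IsComplete s := (hKc.inter Metric.isClosed_closedBall).isComplete
  have hsn : ∀ v ∈ s, ‖v‖ ≤ r := fun v hv => by simpa [dist_zero_right] using hv.2
  have hmaps : MapsTo R s s := by
    intro v hv
    refine ⟨hRK v, ?_⟩
    have := (hR v (hsn v hv)).1
    simpa [dist_zero_right] using this
  -- Lipschitz
  have hlip : ∀ v ∈ s, ∀ w ∈ s, ‖R v - R w‖ ≤ (1 / 2) * ‖v - w‖ := by
    intro v hv w hw
    -- the functional f ↦ Φ v f - Φ w f
    obtain ⟨x, hx, hxn, hxf⟩ := riesz_closure U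
      (IsLinearMap.mk' _ (hlin v (hsn v hv)) - IsLinearMap.mk' _ (hlin w (hsn w hw)))
      ((1 / 2) * ‖v - w‖) (by positivity) (fun f => hL v w (hsn v hv) (hsn w hw) f)
    have hzero : ∀ u ∈ K, ⟪(R v - R w) - x, u⟫_ℝ = 0 := by
      have hclosed : IsClosed {u : E | ⟪(R v - R w) - x, u⟫_ℝ = 0} :=
        isClosed_eq (by fun_prop) continuous_const
      intro u hu
      have hsub : ((LinearMap.range U : Submodule ℝ E) : Set E) ⊆
          {u : E | ⟪(R v - R w) - x, u⟫_ℝ = 0} := by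
        rintro _ ⟨f, rfl⟩
        show ⟪(R v - R w) - x, U f⟫_ℝ = 0
        rw [inner_sub_left, inner_sub_left, (hR v (hsn v hv)).2 f, (hR w (hsn w hw)).2 f, hxf f]
        simp
      exact hclosed.closure_subset_iff.mpr hsub hu
    have hmem : (R v - R w) - x ∈ K := K.sub_mem (K.sub_mem (hRK v) (hRK w)) hx
    have h3 := hzero _ hmem
    rw [inner_self_eq_zero, sub_eq_zero] at h3
    rw [h3]
    exact hxn
  have hcontr : ContractingWith (1 / 2) (hmaps.restrict R s s) := by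
    refine ⟨by rw [← NNReal.coe_lt_coe]; norm_num, LipschitzWith.of_dist_le_mul ?_⟩
    rintro ⟨v, hv⟩ ⟨w, hw⟩
    show dist (R v) (R w) ≤ ((1 / 2 : NNReal) : ℝ) * dist v w
    rw [dist_eq_norm, dist_eq_norm]
    simpa using hlip v hv w hw
  obtain ⟨v, hvs, hfix, -⟩ := hcontr.exists_fixedPoint' hsc hmaps (x := 0)
    ⟨K.zero_mem, by simp [hr.le]⟩ (edist_ne_top _ _)
  refine ⟨v, hvs.1, hsn v hvs, fun f => ?_⟩
  have h1 := (hR v (hsn v hvs)).2 f
  rw [hfix] at h1
  exact h1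

end abstract

end Pool.Agent.Lib.MP_0bb3d8_nt
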