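import Pool.Agent.Lib.MP_0bb3d8_nt.A1
import Pool.Agent.Lib.MP_0bb3d8_nt.A3
import Pool.Agent.Lib.MP_0bb3d8_nt.A4
import Pool.Agent.Lib.MP_0bb3d8_nt.A5
import Pool.Agent.Lib.MP_0bb3d8_nt.A6
import Pool.Agent.Lib.MP_0bb3d8_nt.A7
import Pool.Agent.Lib.MP_0bb3d8_nt.FixedPoint

set_option autoImplicit false

open Real MeasureTheory Polynomial Set
open scoped InnerProductSpace

namespace Pool.Agent.Lib.MP_0bb3d8_nt

namespace A8

open Classical in
/-- `b_v` -/
noncomputable def bv (k X₀ : ℝ) (v : ℕ → ℝ) (p : ℕ) : ℝ :=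
  if p.Prime ∧ X₀ ≤ p then Real.sqrt (W k p) * v p else 0

theorem W_nonneg {k : ℝ} (hk : 1 < k) (p : ℕ) : 0 ≤ W k p := by
  unfold W
  rcases Nat.eq_zero_or_pos p with h | h
  · subst h; simp
  · have h1 : 0 < rho k p := rho_pos hk (by exact_mod_cast h)
    have h2 : 0 ≤ Real.log p := Real.log_natCast_nonneg p
    positivity

theorem W_pos {k : ℝ} (hk : 1 < k) {p : ℕ} (hp : p.Prime) : 0 < W k p := by
  unfold W
  have h0 : (0 : ℝ) < p := by exact_mod_cast hp.pos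
  have h1 : 0 < rho k p := rho_pos hk h0
  have h2 : 0 < Real.log p := Real.log_pos (by exact_mod_cast hp.one_lt)
  positivity

theorem bv_sq_div {k X₀ : ℝ} (hk : 1 < k) (v : ℕ → ℝ) (p : ℕ) :
    bv k X₀ v p ^ 2 / W k p = if p.Prime ∧ X₀ ≤ p then v p ^ 2 else 0 := by
  unfold bv
  split_ifs with h
  · have hW := W_pos hk h.1
    rw [mul_pow, Real.sq_sqrt hW.le]
    field_simp
  · simp

theorem coef_nonneg {s : ℕ → ℝ} (hs : ∀ p, 0 ≤ s p) (n : ℕ) : 0 ≤ coef s n := by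
  unfold coef
  split_ifs
  · exact le_rfl
  · unfold Finsupp.prod
    exact Finset.prod_nonneg fun p _ => by have := hs p; positivity

theorem coef_one (b : ℕ → ℝ) : coef b 1 = 1 := by simp [coef]

theorem coef_zero (b : ℕ → ℝ) : coef b 0 = 0 := by simp [coef]

theorem coef_prime (b : ℕ → ℝ) {p : ℕ} (hp : p.Prime) : coef b p = b p := by
  unfold coef
  rw [if_neg hp.ne_zero, hp.factorization]
  simp

theorem coef_zero_fun {n : ℕ} (hn : 2 ≤ n) : coef (fun _ => 0) n = 0 := by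
  unfold coef
  rw [if_neg (by omega)]
  obtain ⟨p, hp, hpn⟩ := Nat.exists_prime_and_dvd (n := n) (by omega)
  unfold Finsupp.prod
  apply Finset.prod_eq_zero (i := p)
  · rw [Nat.support_factorization, Nat.mem_primeFactors]
    exact ⟨hp, hpn, by omega⟩
  · have : n.factorization p ≠ 0 := by
      have := hp.factorization_pos_of_dvd (by omega : n ≠ 0) hpn
      omega
    simp [this]

/-- domination of the composite part by the multilinear sum -/
theorem dom_sum (η s g : ℕ → ℝ) (f : ℝ → ℝ) (hη : ∀ p, 0 ≤ η p) (hs : ∀ p, 0 ≤ s p)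
    (hg0 : ∀ n, (n = 0 ∨ n = 1 ∨ n.Prime) → g n = 0)
    (hg : ∀ n, n ≠ 0 → |g n| ≤ ∑ p ∈ n.primeFactors, η p * coef s (n / p))
    (hS : Summable (fun q : ℕ × ℕ => if 2 ≤ q.2 then η q.1 * coef s q.2 *
      |f ((q.1 * q.2 : ℕ) : ℝ)| else 0)) :
    Summable (fun n : ℕ => |g n * f n|) ∧ ∑' n : ℕ, |g n * f n| ≤
      ∑' q : ℕ × ℕ, (if 2 ≤ q.2 then η q.1 * coef s q.2 * |f ((q.1 * q.2 : ℕ) : ℝ)| else 0) := by
  classical
  set F : ℕ × ℕ → ℝ := fun q => if 2 ≤ q.2 then η q.1 * coef s q.2 *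
      |f ((q.1 * q.2 : ℕ) : ℝ)| else 0 with hF
  have hF0 : ∀ q, 0 ≤ F q := by
    intro q
    simp only [hF]
    split_ifs
    · have := hη q.1
      have := coef_nonneg hs q.2
      positivity
    · exact le_rfl
  have key : ∀ T : Finset ℕ, ∑ n ∈ T, |g n * f n| ≤ ∑' q, F q := by
    intro T
    have h1 : ∀ n ∈ T, |g n * f n| ≤ ∑ p ∈ n.primeFactors, F (p, n / p) := by
      intro n _
      by_cases hn : n = 0 ∨ n = 1 ∨ n.Prime
      · rw [hg0 n hn]
        simp only [zero_mul, abs_zero]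
        exact Finset.sum_nonneg fun p _ => hF0 _
      · push Not at hn
        obtain ⟨hn0, hn1, hnp⟩ := hn
        rw [abs_mul]
        calc |g n| * |f n| ≤ (∑ p ∈ n.primeFactors, η p * coef s (n / p)) * |f n| := by
              gcongr
              exact hg n hn0
          _ = ∑ p ∈ n.primeFactors, F (p, n / p) := by
              rw [Finset.sum_mul]
              apply Finset.sum_congr rfl
              intro p hp
              rw [Nat.mem_primeFactors] at hp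
              obtain ⟨hpp, hpn, -⟩ := hp
              have hmul : p * (n / p) = n := Nat.mul_div_cancel' hpn
              have h2 : 2 ≤ n / p := by
                rcases Nat.lt_or_ge (n / p) 2 with h | h
                · exfalso
                  interval_cases hh : n / p
                  · rw [mul_zero] at hmul; exact hn0 hmul.symm
                  · rw [mul_one] at hmul; exact hnp (hmul ▸ hpp)
                · exact h
              simp only [hF]
              rw [if_pos h2, hmul]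
    calc ∑ n ∈ T, |g n * f n| ≤ ∑ n ∈ T, ∑ p ∈ n.primeFactors, F (p, n / p) :=
          Finset.sum_le_sum h1
      _ = ∑ x ∈ T.sigma (fun n => n.primeFactors), F (x.2, x.1 / x.2) := by
          rw [Finset.sum_sigma]
      _ = ∑ q ∈ (T.sigma (fun n => n.primeFactors)).image (fun x => (x.2, x.1 / x.2)), F q := by
          rw [Finset.sum_image]
          rintro ⟨n, p⟩ hx ⟨n', p'⟩ hy hxy
          simp only [Finset.coe_sigma, Set.mem_sigma_iff, Finset.mem_coe, Nat.mem_primeFactors] at hx hy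
          simp only [Prod.mk.injEq] at hxy
          obtain ⟨h1, h2⟩ := hxy
          subst h1
          have e1 : p * (n / p) = n := Nat.mul_div_cancel' hx.2.2.1
          have e2 : p * (n' / p) = n' := Nat.mul_div_cancel' hy.2.2.1
          have : n = n' := by rw [← e1, ← e2, h2]
          subst this
          rfl
      _ ≤ ∑' q, F q := hS.sum_le_tsum _ (fun q _ => hF0 q)
  have hsum : Summable (fun n : ℕ => |g n * f n|) :=
    summable_of_sum_le (fun n => abs_nonneg _) key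
  exact ⟨hsum, hsum.tsum_le_of_sum_le key⟩

/-- `ℓ²(ℕ)`. -/
abbrev E2 : Type := lp (fun _ : ℕ => ℝ) 2

theorem E2_summable (v : E2) : Summable (fun p : ℕ => v p ^ 2) := by
  have := lp.summable_inner (𝕜 := ℝ) v v
  refine this.congr fun p => ?_
  rw [real_inner_self_eq_norm_sq, Real.norm_eq_abs, sq_abs]

theorem E2_norm_sq (v : E2) : ‖v‖ ^ 2 = ∑' p : ℕ, v p ^ 2 := by
  rw [← real_inner_self_eq_norm_sq, lp.inner_eq_tsum]
  congr 1
  ext p
  rw [real_inner_self_eq_norm_sq, Real.norm_eq_abs, sq_abs]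

theorem phi_add (k L : ℝ) (P Q : ℝ[X]) (r : ℝ) :
    phi k L (P + Q) r = phi k L P r + phi k L Q r := by
  unfold phi; rw [eval_add]; ring

theorem phi_smul (k L c : ℝ) (P : ℝ[X]) (r : ℝ) :
    phi k L (c • P) r = c * phi k L P r := by
  unfold phi; rw [eval_smul, smul_eq_mul]; ring

open Classical in
/-- the coordinates of `U P` -/
noncomputable def uvec (k L X₀ : ℝ) (P : ℝ[X]) (p : ℕ) : ℝ :=
  if p.Prime ∧ X₀ ≤ p then Real.sqrt (W k p) * phi k L P p else 0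

theorem uvec_sq {k : ℝ} (hk : 1 < k) (L X₀ : ℝ) (P : ℝ[X]) (p : ℕ) :
    uvec k L X₀ P p ^ 2 = if p.Prime ∧ X₀ ≤ p then W k p * phi k L P p ^ 2 else 0 := by
  unfold uvec
  split_ifs with h
  · rw [mul_pow, Real.sq_sqrt (W_nonneg hk p)]
  · simp

theorem uvec_memℓp {k L X₀ : ℝ} {P : ℝ[X]}
    (h : Summable (fun p : ℕ => uvec k L X₀ P p ^ 2)) :
    Memℓp (fun p : ℕ => uvec k L X₀ P p) 2 := by
  apply memℓp_gen
  refine h.congr fun p => ?_
  simp

/-- the operator `U`. -/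
noncomputable def Uop {k : ℝ} (L X₀ : ℝ)
    (h : ∀ P ∈ Vodd k, Summable (fun p : ℕ => uvec k L X₀ P p ^ 2)) : Vodd k →ₗ[ℝ] E2 where
  toFun P := ⟨fun p => uvec k L X₀ (P : ℝ[X]) p, uvec_memℓp (h P.1 P.2)⟩
  map_add' P Q := by
    ext p
    simp only [Submodule.coe_add, lp.coeFn_add, Pi.add_apply]
    unfold uvec
    split_ifs
    · rw [phi_add]; ring
    · ring
  map_smul' c P := by
    ext p
    simp only [Submodule.coe_smul, lp.coeFn_smul, Pi.smul_apply, smul_eq_mul, RingHom.id_apply]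
    unfold uvec
    split_ifs
    · rw [phi_smul]; ring
    · ring

theorem Uop_apply {k : ℝ} (L X₀ : ℝ)
    (h : ∀ P ∈ Vodd k, Summable (fun p : ℕ => uvec k L X₀ P p ^ 2)) (P : Vodd k) (p : ℕ) :
    (Uop L X₀ h P : ℕ → ℝ) p = uvec k L X₀ (P : ℝ[X]) p := rfl

/-- composite part of the coefficients -/
noncomputable def gco (b : ℕ → ℝ) (n : ℕ) : ℝ :=
  if n = 0 ∨ n = 1 ∨ n.Prime then 0 else coef b n

theorem gco_zero (b : ℕ → ℝ) (n : ℕ) (h : n = 0 ∨ n = 1 ∨ n.Prime) : gco b n = 0 := by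
  unfold gco; rw [if_pos h]

theorem gco_zero_fun (n : ℕ) : gco (fun _ => 0) n = 0 := by
  unfold gco
  split_ifs with h
  · rfl
  · push Not at h
    exact coef_zero_fun (by omega)

theorem gco_sub_le (b b' s : ℕ → ℝ) (hb : ∀ p, |b p| ≤ s p) (hb' : ∀ p, |b' p| ≤ s p)
    (hs : ∀ p, 0 ≤ s p) (n : ℕ) (hn : n ≠ 0) :
    |gco b n - gco b' n| ≤ ∑ p ∈ n.primeFactors, |b p - b' p| * coef s (n / p) := by
  unfold gco
  split_ifs with h
  · simp only [sub_zero, abs_zero]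
    exact Finset.sum_nonneg fun p _ => mul_nonneg (abs_nonneg _) (coef_nonneg hs _)
  · exact coef_sub_le b b' s hb hb' n hn

theorem bv_abs_sq_div {k X₀ : ℝ} (hk : 1 < k) (v : ℕ → ℝ) (p : ℕ) :
    |bv k X₀ v p| ^ 2 / W k p = if p.Prime ∧ X₀ ≤ p then v p ^ 2 else 0 := by
  rw [sq_abs, bv_sq_div hk]

theorem summable_ite_sq {X₀ : ℝ} (v : E2) :
    Summable (fun p : ℕ => if p.Prime ∧ X₀ ≤ p then v p ^ 2 else 0) := by
  classical
  refine Summable.of_nonneg_of_le (fun p => ?_) (fun p => ?_) (E2_summable v)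
  · split_ifs <;> positivity
  · split_ifs
    · exact le_rfl
    · positivity

theorem tsum_ite_sq_le {X₀ : ℝ} (v : E2) :
    ∑' p : ℕ, (if p.Prime ∧ X₀ ≤ p then v p ^ 2 else 0) ≤ ‖v‖ ^ 2 := by
  classical
  rw [E2_norm_sq]
  refine (summable_ite_sq v).tsum_le_tsum (fun p => ?_) (E2_summable v)
  split_ifs
  · exact le_rfl
  · positivity

theorem W_sq_bound {k C3 c3 : ℝ} (hk3 : 4 ≤ k) (hC3 : 0 < C3)
    (hrho : ∀ r : ℝ, 1 ≤ r →
      c3 * (r ^ (1 / (2 * k)) * (1 + Real.log r) ^ (-(4 : ℝ))) ≤ rho k r ∧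
      rho k r ≤ C3 * (r ^ (1 / (2 * k)) * (1 + Real.log r) ^ (-(4 : ℝ))))
    {p : ℕ} (hp : p.Prime) : W k p ^ 2 * (p : ℝ)⁻¹ * (rho k p)⁻¹ ≤ C3 := by
  have hk1 : 1 < k := by linarith
  have hk0 : 0 < k := by linarith
  have hp1 : (1 : ℝ) ≤ p := by exact_mod_cast hp.one_le
  have hrp : 0 < rho k p := rho_pos hk1 (by linarith)
  have hW2 : W k p ^ 2 * (p : ℝ)⁻¹ * (rho k p)⁻¹ =
      (p : ℝ) ^ (2 / k - 1) * rho k p * Real.log p ^ 2 := by
    unfold W
    have e1 : (p : ℝ) ^ (2 / k - 1) = ((p : ℝ) ^ (1 / k)) ^ 2 * (p : ℝ)⁻¹ := by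
      rw [← Real.rpow_natCast, ← Real.rpow_mul (by positivity), ← Real.rpow_neg_one,
        ← Real.rpow_add (by positivity)]
      congr 1
      push_cast
      ring
    rw [e1]
    field_simp
  rw [hW2]
  have hρ := (hrho p hp1).2
  have hl0 : 0 ≤ Real.log p := Real.log_nonneg hp1
  have hl1 : 0 < 1 + Real.log p := by linarith
  have e2 : (1 + Real.log p) ^ (-(4 : ℝ)) = ((1 + Real.log p) ^ 4)⁻¹ := by
    rw [Real.rpow_neg hl1.le]
    congr 1
    norm_cast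
  rw [e2] at hρ
  have e3 : (p : ℝ) ^ (2 / k - 1) * (p : ℝ) ^ (1 / (2 * k)) ≤ 1 := by
    rw [← Real.rpow_add (by positivity)]
    apply Real.rpow_le_one_of_one_le_of_nonpos hp1
    have : 2 / k - 1 + 1 / (2 * k) = (5 / 2) / k - 1 := by field_simp; ring
    rw [this, sub_nonpos, div_le_one hk0]
    linarith
  have e4 : Real.log p ^ 2 * ((1 + Real.log p) ^ 4)⁻¹ ≤ 1 := by
    rw [← div_eq_mul_inv, div_le_one (by positivity)]
    have : Real.log p ^ 2 ≤ (1 + Real.log p) ^ 2 := by gcongr; linarith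
    nlinarith [sq_nonneg (1 + Real.log p), one_le_pow₀ (n := 2) (by linarith : 1 ≤ 1 + Real.log p)]
  calc (p : ℝ) ^ (2 / k - 1) * rho k p * Real.log p ^ 2 ≤
      (p : ℝ) ^ (2 / k - 1) * (C3 * ((p : ℝ) ^ (1 / (2 * k)) *
        ((1 + Real.log p) ^ 4)⁻¹)) * Real.log p ^ 2 := by gcongr
    _ = C3 * ((p : ℝ) ^ (2 / k - 1) * (p : ℝ) ^ (1 / (2 * k))) *
        (Real.log p ^ 2 * ((1 + Real.log p) ^ 4)⁻¹) := by ring
    _ ≤ C3 * 1 * 1 := by gcongr
    _ = C3 := by ring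


/-- pointwise bound on the closure of the range of `U` -/
theorem closure_coord_bound {V : Type*} [AddCommGroup V] [Module ℝ V] (U : V →ₗ[ℝ] E2) (p : ℕ)
    (D : ℝ) (h : ∀ f, |(U f : ℕ → ℝ) p| ≤ D * ‖U f‖) (v : E2)
    (hv : v ∈ (LinearMap.range U).topologicalClosure) : |v p| ≤ D * ‖v‖ := by
  have hclosed : IsClosed {v : E2 | |v p| ≤ D * ‖v‖} := by
    apply isClosed_le
    · have h1 : Continuous (fun v : E2 => v p) := by
        have : Continuous (fun v : E2 => ⟪lp.single (E := fun _ : ℕ => ℝ) 2 p (1 : ℝ), v⟫_ℝ) := by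
          fun_prop
        refine this.congr fun v => ?_
        rw [lp.inner_single_left]
        simp
      exact h1.abs
    · fun_prop
  have hsub : ((LinearMap.range U : Submodule ℝ E2) : Set E2) ⊆ {v : E2 | |v p| ≤ D * ‖v‖} := by
    rintro _ ⟨f, rfl⟩
    exact h f
  exact hclosed.closure_subset_iff.mpr hsub hv

end A8

open A8 in
theorem exists_solution {c c₁ C₁ X₀ k : ℝ} (hP : PrimesOK c c₁ C₁ X₀) (hk : 2 / c ≤ k)
    (hk3 : 4 ≤ k) :
    ∃ (L : ℝ) (b : ℕ → ℝ), 0 < L ∧ (∀ p : ℕ, ¬ p.Prime → b p = 0) ∧ (∀ p, |b p| ≤ 1) ∧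
      ∀ P ∈ Vodd k, ∑' n : ℕ, coef b n * phi k L P n = 0 := by
  classical
  have hk1 : 1 < k := by linarith
  have hk0 : 0 < k := by linarith
  obtain ⟨C4, κ4, hC4, hκ4, hframe⟩ := frame_lower hP hk
  obtain ⟨C5, hC5, hdil⟩ := bessel_dil hP hk
  obtain ⟨C6, hC6, hpt⟩ := pointwise_bound hk1
  obtain ⟨C7, r7, hC7, hr7, hmult⟩ := multilinear_of hk1 (bessel_nat hk1) (bessel_dil hP hk)
  obtain ⟨c3, C3, hc3, hC3, hrho⟩ := rho_bounds hk1
  have hrho1 : 0 < rho k 1 := rho_pos hk1 one_pos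
  -- the radius
  set r : ℝ := min (r7 / 2) (1 / (3 * C7 * Real.sqrt C4)) with hr
  have hsC4 : 0 < Real.sqrt C4 := Real.sqrt_pos.mpr hC4
  have hrpos : 0 < r := by rw [hr]; positivity
  have hr_r7 : r ≤ r7 / 2 := min_le_left _ _
  have hr_C : 3 * C7 * Real.sqrt C4 * r ≤ 1 := by
    have : r ≤ 1 / (3 * C7 * Real.sqrt C4) := min_le_right _ _
    rw [le_div_iff₀ (by positivity)] at this
    linarith
  -- kappa
  set κ : ℝ := min (min κ4 1) (min (r ^ 2 / 4 * rho k 1 / (C6 * C4)) (1 / (C3 * C6 * C4 * r ^ 2)))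
    with hκ
  have hκpos : 0 < κ := by rw [hκ]; positivity
  have hκ_4 : κ ≤ κ4 := (min_le_left _ _).trans (min_le_left _ _)
  have hκ_1 : κ ≤ 1 := (min_le_left _ _).trans (min_le_right _ _)
  have hκ_a : C6 * κ * (rho k 1)⁻¹ * C4 ≤ (r / 2) ^ 2 := by
    have : κ ≤ r ^ 2 / 4 * rho k 1 / (C6 * C4) := (min_le_right _ _).trans (min_le_left _ _)
    rw [le_div_iff₀ (by positivity)] at this
    have h2 : C6 * κ * (rho k 1)⁻¹ * C4 = (κ * (C6 * C4)) * (rho k 1)⁻¹ := by ring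
    rw [h2]
    calc (κ * (C6 * C4)) * (rho k 1)⁻¹ ≤ (r ^ 2 / 4 * rho k 1) * (rho k 1)⁻¹ := by gcongr
      _ = (r / 2) ^ 2 := by field_simp; ring
  have hκ_b : C3 * C6 * C4 * r ^ 2 * κ ≤ 1 := by
    have : κ ≤ 1 / (C3 * C6 * C4 * r ^ 2) := (min_le_right _ _).trans (min_le_right _ _)
    rw [le_div_iff₀ (by positivity)] at this
    linarith
  -- L
  set L : ℝ := k * κ with hLdef
  have hL : 0 < L := by positivity
  have hLk : L / k = κ := by rw [hLdef]; field_simp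
  have hgood : ∀ P ∈ Vodd k, Good k κ (phi k L P) (phi' k L P) := by
    intro P hPV
    have := good_phi hk1 hL hPV
    rwa [hLk] at this
  -- U
  have hUsum : ∀ P ∈ Vodd k, Summable (fun p : ℕ => uvec k L X₀ P p ^ 2) := by
    intro P hPV
    have h1 := (hdil κ _ _ hκpos hκ_1 (hgood P hPV) 1 le_rfl).1
    refine h1.congr fun p => ?_
    rw [uvec_sq hk1, mul_one]
    by_cases h : p.Prime ∧ X₀ ≤ p
    · rw [if_pos h, if_pos ⟨h.1, h.2, h.1.one_le⟩]
    · rw [if_neg h, if_neg (fun h' => h ⟨h'.1, h'.2.1⟩)]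
  set U : Vodd k →ₗ[ℝ] E2 := Uop L X₀ hUsum with hU
  have hUn : ∀ P : Vodd k, Nrm k (phi k L (P : ℝ[X])) ≤ C4 * ‖U P‖ ^ 2 := by
    intro P
    have h1 := hframe κ _ _ hκpos hκ_4 (hgood P.1 P.2)
    refine h1.trans_eq ?_
    rw [E2_norm_sq]
    congr 1
    apply tsum_congr
    intro p
    rw [hU, Uop_apply, uvec_sq hk1]
  have hUn' : ∀ P : Vodd k, Real.sqrt (Nrm k (phi k L (P : ℝ[X]))) ≤ Real.sqrt C4 * ‖U P‖ := by
    intro P
    calc Real.sqrt (Nrm k (phi k L (P : ℝ[X]))) ≤ Real.sqrt (C4 * ‖U P‖ ^ 2) :=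
          Real.sqrt_le_sqrt (hUn P)
      _ = Real.sqrt C4 * ‖U P‖ := by
          rw [Real.sqrt_mul hC4.le, Real.sqrt_sq (norm_nonneg _)]
  -- key sum estimate
  have hkey : ∀ (η s g : ℕ → ℝ) (P : Vodd k) (Nη Ns : ℝ), 0 ≤ Nη → 0 ≤ Ns → (∀ p, 0 ≤ η p) →
      (∀ p, 0 ≤ s p) → (∀ p : ℕ, ¬ (p.Prime ∧ X₀ ≤ p) → η p = 0) →
      (∀ p : ℕ, ¬ (p.Prime ∧ X₀ ≤ p) → s p = 0) →
      Summable (fun p : ℕ => η p ^ 2 / W k p) → Summable (fun p : ℕ => s p ^ 2 / W k p) →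
      WN k η ≤ Nη ^ 2 → WN k s ≤ Ns ^ 2 → Ns ≤ r7 →
      (∀ n, (n = 0 ∨ n = 1 ∨ n.Prime) → g n = 0) →
      (∀ n, n ≠ 0 → |g n| ≤ ∑ p ∈ n.primeFactors, η p * coef s (n / p)) →
      Summable (fun n : ℕ => g n * phi k L (P : ℝ[X]) n) ∧
      |∑' n : ℕ, g n * phi k L (P : ℝ[X]) n| ≤ C7 * Nη * Ns * (Real.sqrt C4 * ‖U P‖) := by
    intro η s g P Nη Ns hNη hNs hη hs hη0 hs0 hηS hsS hη2 hs2 hNs7 hg0 hg
    have hWs : WN k s ≤ r7 ^ 2 := hs2.trans (by gcongr)
    obtain ⟨hS, hB⟩ := hmult κ _ _ hκpos hκ_1 (hgood P.1 P.2) η s hη hs hη0 hs0 hηS hsS hWs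
    obtain ⟨h1, h2⟩ := dom_sum η s g (phi k L (P : ℝ[X])) hη hs hg0 hg hS
    have h3 : Summable (fun n : ℕ => g n * phi k L (P : ℝ[X]) n) := h1.of_abs
    refine ⟨h3, ?_⟩
    have hsqη : Real.sqrt (WN k η) ≤ Nη := by
      rw [show Nη = Real.sqrt (Nη ^ 2) by rw [Real.sqrt_sq hNη]]
      exact Real.sqrt_le_sqrt hη2
    have hsqs : Real.sqrt (WN k s) ≤ Ns := by
      rw [show Ns = Real.sqrt (Ns ^ 2) by rw [Real.sqrt_sq hNs]]
      exact Real.sqrt_le_sqrt hs2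
    calc |∑' n : ℕ, g n * phi k L (P : ℝ[X]) n| ≤ ∑' n : ℕ, |g n * phi k L (P : ℝ[X]) n| := by
          have := norm_tsum_le_tsum_norm (f := fun n : ℕ => g n * phi k L (P : ℝ[X]) n)
            (by simpa [Real.norm_eq_abs] using h1)
          simpa [Real.norm_eq_abs] using this
      _ ≤ _ := h2
      _ ≤ C7 * Real.sqrt (WN k η) * Real.sqrt (WN k s) * Real.sqrt (Nrm k (phi k L (P : ℝ[X]))) :=
          hB
      _ ≤ C7 * Nη * Ns * (Real.sqrt C4 * ‖U P‖) := by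
          gcongr
          exact hUn' P
  -- summability for a single v in the ball
  have hbvS : ∀ v : E2, Summable (fun p : ℕ => |bv k X₀ v p| ^ 2 / W k p) := fun v =>
    (summable_ite_sq v).congr fun p => (bv_abs_sq_div hk1 v p).symm
  have hbvN : ∀ v : E2, WN k (fun p => |bv k X₀ v p|) ≤ ‖v‖ ^ 2 := by
    intro v
    unfold WN
    calc ∑' p : ℕ, |bv k X₀ v p| ^ 2 / W k p = ∑' p : ℕ, (if p.Prime ∧ X₀ ≤ p then v p ^ 2 else 0) :=
          tsum_congr fun p => bv_abs_sq_div hk1 v p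
      _ ≤ ‖v‖ ^ 2 := tsum_ite_sq_le v
  have hbv0 : ∀ (v : E2) (p : ℕ), ¬ (p.Prime ∧ X₀ ≤ p) → bv k X₀ v p = 0 := by
    intro v p h; unfold bv; rw [if_neg h]
  have hbvz : bv k X₀ ((0 : E2) : ℕ → ℝ) = fun _ => 0 := by
    ext p; unfold bv; split_ifs <;> simp
  have hsingle : ∀ v : E2, ‖v‖ ≤ r → ∀ P : Vodd k,
      Summable (fun n : ℕ => gco (bv k X₀ v) n * phi k L (P : ℝ[X]) n) := by
    intro v hv P
    refine (hkey (fun p => |bv k X₀ v p|) (fun p => |bv k X₀ v p|) (gco (bv k X₀ v)) P ‖v‖ ‖v‖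
      (norm_nonneg _) (norm_nonneg _) (fun p => abs_nonneg _) (fun p => abs_nonneg _)
      (fun p h => by simp [hbv0 v p h]) (fun p h => by simp [hbv0 v p h])
      (hbvS v) (hbvS v) (hbvN v) (hbvN v) (by linarith) (gco_zero _) ?_).1
    intro n hn
    have := gco_sub_le (bv k X₀ v) (fun _ => 0) (fun p => |bv k X₀ v p|) (fun p => le_rfl)
      (fun p => by simp) (fun p => abs_nonneg _) n hn
    rw [gco_zero_fun, sub_zero] at this
    simpa using this
  -- the functional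
  let Φ : E2 → Vodd k → ℝ := fun v P =>
    -(phi k L (P : ℝ[X]) 1) - ∑' n : ℕ, gco (bv k X₀ v) n * phi k L (P : ℝ[X]) n
  have hlin : ∀ v : E2, ‖v‖ ≤ r → IsLinearMap ℝ (Φ v) := by
    intro v hv
    constructor
    · intro P Q
      show -(phi k L ((P : ℝ[X]) + (Q : ℝ[X])) 1) - _ = _
      have h1 : ∑' n : ℕ, gco (bv k X₀ v) n * phi k L (((P + Q : Vodd k)) : ℝ[X]) n =
          ∑' n : ℕ, gco (bv k X₀ v) n * phi k L (P : ℝ[X]) n +
          ∑' n : ℕ, gco (bv k X₀ v) n * phi k L (Q : ℝ[X]) n := by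
        rw [← (hsingle v hv P).tsum_add (hsingle v hv Q)]
        apply tsum_congr
        intro n
        rw [Submodule.coe_add, phi_add]; ring
      rw [h1, phi_add]
      show _ = Φ v P + Φ v Q
      simp only [Φ]
      ring
    · intro a P
      show -(phi k L (a • (P : ℝ[X])) 1) - _ = _
      have h1 : ∑' n : ℕ, gco (bv k X₀ v) n * phi k L (((a • P : Vodd k)) : ℝ[X]) n =
          a * ∑' n : ℕ, gco (bv k X₀ v) n * phi k L (P : ℝ[X]) n := by
        rw [← tsum_mul_left]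
        apply tsum_congr
        intro n
        rw [Submodule.coe_smul, phi_smul]; ring
      rw [h1, phi_smul]
      simp only [Φ, smul_eq_mul]
      ring
  have h1bound : ∀ P : Vodd k, |phi k L (P : ℝ[X]) 1| ≤ (r / 2) * ‖U P‖ := by
    intro P
    apply abs_le_of_sq_le_sq _ (by positivity)
    have h1 := hpt κ _ _ hκpos (hgood P.1 P.2) 1 le_rfl
    calc phi k L (P : ℝ[X]) 1 ^ 2 ≤ C6 * κ * 1⁻¹ * (rho k 1)⁻¹ * Nrm k (phi k L (P : ℝ[X])) := h1
      _ ≤ C6 * κ * 1⁻¹ * (rho k 1)⁻¹ * (C4 * ‖U P‖ ^ 2) := by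
          gcongr
          exact hUn P
      _ = (C6 * κ * (rho k 1)⁻¹ * C4) * ‖U P‖ ^ 2 := by ring
      _ ≤ (r / 2) ^ 2 * ‖U P‖ ^ 2 := by gcongr
      _ = (r / 2 * ‖U P‖) ^ 2 := by ring
  have h0 : ∀ P : Vodd k, |Φ 0 P| ≤ (r / 2) * ‖U P‖ := by
    intro P
    have : Φ 0 P = -(phi k L (P : ℝ[X]) 1) := by
      simp only [Φ]
      rw [hbvz]
      simp [gco_zero_fun]
    rw [this, abs_neg]
    exact h1bound P
  have hLip : ∀ v w : E2, ‖v‖ ≤ r → ‖w‖ ≤ r → ∀ P : Vodd k,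
      |Φ v P - Φ w P| ≤ (1 / 2) * ‖v - w‖ * ‖U P‖ := by
    intro v w hv hw P
    let η : ℕ → ℝ := fun p => |bv k X₀ ((v - w : E2) : ℕ → ℝ) p|
    let s : ℕ → ℝ := fun p => max |bv k X₀ v p| |bv k X₀ w p|
    have hη_eq : ∀ p, η p = |bv k X₀ v p - bv k X₀ w p| := by
      intro p
      simp only [η]
      unfold bv
      split_ifs
      · rw [lp.coeFn_sub, Pi.sub_apply]; ring_nf
      · simp
    have hs_sq : ∀ p, s p ^ 2 / W k p ≤
        (if p.Prime ∧ X₀ ≤ p then v p ^ 2 else 0) + (if p.Prime ∧ X₀ ≤ p then w p ^ 2 else 0) := by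
      intro p
      rw [← bv_abs_sq_div hk1 v p, ← bv_abs_sq_div hk1 w p, ← add_div]
      have hW := W_nonneg hk1 p
      gcongr
      simp only [s]
      rcases le_total |bv k X₀ v p| |bv k X₀ w p| with h | h
      · rw [max_eq_right h]; nlinarith [sq_nonneg |bv k X₀ v p|]
      · rw [max_eq_left h]; nlinarith [sq_nonneg |bv k X₀ w p|]
    have hs0' : ∀ p, 0 ≤ s p ^ 2 / W k p := fun p => div_nonneg (sq_nonneg _) (W_nonneg hk1 p)
    have hsS : Summable (fun p : ℕ => s p ^ 2 / W k p) :=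
      Summable.of_nonneg_of_le hs0' hs_sq ((summable_ite_sq v).add (summable_ite_sq w))
    have hsN : WN k s ≤ (Real.sqrt 2 * r) ^ 2 := by
      unfold WN
      calc ∑' p : ℕ, s p ^ 2 / W k p ≤ ∑' p : ℕ, ((if p.Prime ∧ X₀ ≤ p then v p ^ 2 else 0) +
            (if p.Prime ∧ X₀ ≤ p then w p ^ 2 else 0)) :=
            hsS.tsum_le_tsum hs_sq ((summable_ite_sq v).add (summable_ite_sq w))
        _ = _ := (summable_ite_sq v).tsum_add (summable_ite_sq w)
        _ ≤ ‖v‖ ^ 2 + ‖w‖ ^ 2 := add_le_add (tsum_ite_sq_le v) (tsum_ite_sq_le w)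
        _ ≤ r ^ 2 + r ^ 2 := by gcongr
        _ = (Real.sqrt 2 * r) ^ 2 := by
            rw [mul_pow, Real.sq_sqrt (by norm_num)]; ring
    have hsqrt2 : Real.sqrt 2 ≤ 3 / 2 := by
      rw [Real.sqrt_le_left (by norm_num)]; norm_num
    have hgS := hsingle v hv P
    have hgS' := hsingle w hw P
    obtain ⟨h1, h2⟩ := hkey η s (fun n => gco (bv k X₀ v) n - gco (bv k X₀ w) n) P ‖v - w‖
      (Real.sqrt 2 * r) (norm_nonneg _) (by positivity) (fun p => abs_nonneg _)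
      (fun p => le_max_of_le_left (abs_nonneg _))
      (fun p h => by simp only [η]; rw [hbv0 _ p h, abs_zero])
      (fun p h => by simp only [s]; rw [hbv0 _ p h, hbv0 _ p h]; simp)
      (hbvS (v - w)) hsS (hbvN (v - w)) hsN (by nlinarith)
      (fun n hn => by rw [gco_zero _ _ hn, gco_zero _ _ hn, sub_zero])
      (fun n hn => by
        have := gco_sub_le (bv k X₀ v) (bv k X₀ w) s (fun p => le_max_left _ _)
          (fun p => le_max_right _ _) (fun p => le_max_of_le_left (abs_nonneg _)) n hn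
        refine this.trans_eq (Finset.sum_congr rfl fun p _ => ?_)
        rw [hη_eq])
    have h3 : Φ v P - Φ w P =
        -∑' n : ℕ, (gco (bv k X₀ v) n - gco (bv k X₀ w) n) * phi k L (P : ℝ[X]) n := by
      have : ∑' n : ℕ, (gco (bv k X₀ v) n - gco (bv k X₀ w) n) * phi k L (P : ℝ[X]) n =
          ∑' n : ℕ, gco (bv k X₀ v) n * phi k L (P : ℝ[X]) n -
          ∑' n : ℕ, gco (bv k X₀ w) n * phi k L (P : ℝ[X]) n := by
        rw [← hgS.tsum_sub hgS']
        apply tsum_congr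
        intro n; ring
      rw [this]
      simp only [Φ]
      ring
    rw [h3, abs_neg]
    refine h2.trans ?_
    have h4 : C7 * ‖v - w‖ * (Real.sqrt 2 * r) * (Real.sqrt C4 * ‖U P‖) =
        (C7 * Real.sqrt C4 * r * Real.sqrt 2) * (‖v - w‖ * ‖U P‖) := by ring
    rw [h4]
    have h5 : C7 * Real.sqrt C4 * r * Real.sqrt 2 ≤ 1 / 2 := by
      have h6 : C7 * Real.sqrt C4 * r ≤ 1 / 3 := by linarith
      have h7 : 0 ≤ C7 * Real.sqrt C4 * r := by positivity
      nlinarith [Real.sqrt_nonneg 2]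
    calc (C7 * Real.sqrt C4 * r * Real.sqrt 2) * (‖v - w‖ * ‖U P‖) ≤
        (1 / 2) * (‖v - w‖ * ‖U P‖) := by gcongr
      _ = (1 / 2) * ‖v - w‖ * ‖U P‖ := by ring
  obtain ⟨v, hvK, hvr, hfix⟩ := fixed_point_abstract U Φ r hrpos hlin h0 hLip
  refine ⟨L, bv k X₀ v, hL, fun p hp => hbv0 v p (fun h => hp h.1), ?_, ?_⟩
  · -- |b p| ≤ 1
    intro p
    by_cases h : p.Prime ∧ X₀ ≤ p
    · have hp1 : (1 : ℝ) ≤ p := by exact_mod_cast h.1.one_le
      have hWp := W_pos hk1 h.1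
      have hrp : 0 < rho k p := rho_pos hk1 (by linarith)
      have hD : ∀ P : Vodd k, |(U P : ℕ → ℝ) p| ≤
          Real.sqrt (W k p * (C6 * κ * (p : ℝ)⁻¹ * (rho k p)⁻¹ * C4)) * ‖U P‖ := by
        intro P
        apply abs_le_of_sq_le_sq _ (by positivity)
        rw [hU, Uop_apply, uvec_sq hk1, if_pos h, mul_pow, Real.sq_sqrt (by positivity), ← hU]
        have h1 := hpt κ _ _ hκpos (hgood P.1 P.2) p hp1
        calc W k p * phi k L (P : ℝ[X]) p ^ 2 ≤
            W k p * (C6 * κ * (p : ℝ)⁻¹ * (rho k p)⁻¹ * Nrm k (phi k L (P : ℝ[X]))) := by gcongr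
          _ ≤ W k p * (C6 * κ * (p : ℝ)⁻¹ * (rho k p)⁻¹ * (C4 * ‖U P‖ ^ 2)) := by
              gcongr
              exact hUn P
          _ = W k p * (C6 * κ * (p : ℝ)⁻¹ * (rho k p)⁻¹ * C4) * ‖U P‖ ^ 2 := by ring
      have hvp := closure_coord_bound U p _ hD v hvK
      have hbp : |bv k X₀ v p| = Real.sqrt (W k p) * |v p| := by
        unfold bv
        rw [if_pos h, abs_mul, abs_of_nonneg (Real.sqrt_nonneg _)]
      rw [hbp]
      have h2 : (Real.sqrt (W k p) * |v p|) ^ 2 ≤ 1 ^ 2 := by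
        have h3 : |v p| ^ 2 ≤ (W k p * (C6 * κ * (p : ℝ)⁻¹ * (rho k p)⁻¹ * C4)) * r ^ 2 := by
          calc |v p| ^ 2 ≤ (Real.sqrt (W k p * (C6 * κ * (p : ℝ)⁻¹ * (rho k p)⁻¹ * C4)) *
                ‖v‖) ^ 2 := by gcongr
            _ = (W k p * (C6 * κ * (p : ℝ)⁻¹ * (rho k p)⁻¹ * C4)) * ‖v‖ ^ 2 := by
                rw [mul_pow, Real.sq_sqrt (by positivity)]
            _ ≤ _ := by gcongr
        have h4 : W k p ^ 2 * (p : ℝ)⁻¹ * (rho k p)⁻¹ ≤ C3 := W_sq_bound hk3 hC3 hrho h.1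
        rw [mul_pow, Real.sq_sqrt hWp.le]
        calc W k p * |v p| ^ 2 ≤
            W k p * ((W k p * (C6 * κ * (p : ℝ)⁻¹ * (rho k p)⁻¹ * C4)) * r ^ 2) := by gcongr
          _ = (W k p ^ 2 * (p : ℝ)⁻¹ * (rho k p)⁻¹) * (C6 * C4 * r ^ 2 * κ) := by ring
          _ ≤ C3 * (C6 * C4 * r ^ 2 * κ) := by gcongr
          _ = C3 * C6 * C4 * r ^ 2 * κ := by ring
          _ ≤ 1 ^ 2 := by rw [one_pow]; exact hκ_b
      exact le_of_sq_le_sq h2 one_pos.le
    · rw [hbv0 v p h, abs_zero]; exact zero_le_one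
  · -- the relation
    intro P hPV
    have hf := hfix ⟨P, hPV⟩
    have hgS := hsingle v hvr ⟨P, hPV⟩
    have hin := lp.hasSum_inner (𝕜 := ℝ) v (U ⟨P, hPV⟩)
    have hin' : HasSum (fun p : ℕ => bv k X₀ v p * phi k L P p) ⟪v, U ⟨P, hPV⟩⟫_ℝ := by
      have hfun : (fun p : ℕ => bv k X₀ v p * phi k L P p) =
          fun p : ℕ => ⟪(v : ℕ → ℝ) p, (U ⟨P, hPV⟩ : ℕ → ℝ) p⟫_ℝ := by
        ext p
        rw [hU, Uop_apply]
        show _ = inner ℝ ((v : ℕ → ℝ) p) (uvec k L X₀ P p)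
        rw [show inner ℝ ((v : ℕ → ℝ) p) (uvec k L X₀ P p) = uvec k L X₀ P p * (v : ℕ → ℝ) p by
          simp [mul_comm]]
        unfold bv uvec
        split_ifs <;> ring
      rw [hfun]
      exact hin
    have h1 : HasSum (fun n : ℕ => if n = 1 then phi k L P 1 else 0) (phi k L P 1) :=
      hasSum_ite_eq 1 (phi k L P 1)
    have htot := (h1.add hin').add hgS.hasSum
    have hfun : (fun n : ℕ => coef (bv k X₀ v) n * phi k L P n) =
        fun n : ℕ => ((if n = 1 then phi k L P 1 else 0) + bv k X₀ v n * phi k L P n) +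
          gco (bv k X₀ v) n * phi k L P n := by
      ext n
      by_cases hn0 : n = 0
      · subst hn0
        rw [coef_zero, gco_zero _ _ (Or.inl rfl), hbv0 v 0 (fun h => Nat.not_prime_zero h.1)]
        simp
      by_cases hn1 : n = 1
      · subst hn1
        rw [coef_one, gco_zero _ _ (Or.inr (Or.inl rfl)),
          hbv0 v 1 (fun h => Nat.not_prime_one h.1)]
        simp
      by_cases hnp : n.Prime
      · rw [coef_prime _ hnp, gco_zero _ _ (Or.inr (Or.inr hnp)), if_neg hn1]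
        ring
      · rw [if_neg hn1, hbv0 v n (fun h => hnp h.1)]
        unfold gco
        rw [if_neg (by tauto)]
        ring
    rw [hfun, htot.tsum_eq, hf]
    simp only [Φ]
    ring

end Pool.Agent.Lib.MP_0bb3d8_nt
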