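import Pool.Agent.Lib.MP_0bb3d8_nt.A9d

/-!
# A9: the axioms of the Selberg class
-/

set_option autoImplicit false

open Real MeasureTheory Polynomial Set

namespace Pool.Agent.Lib.MP_0bb3d8_nt

namespace A9

lemma coef_zero (b : ℕ → ℝ) : coef b 0 = 0 := by simp [coef]

lemma coef_one (b : ℕ → ℝ) : coef b 1 = 1 := by simp [coef]

lemma coef_mul_of_coprime (b : ℕ → ℝ) {m n : ℕ} (h : Nat.Coprime m n) :
    coef b (m * n) = coef b m * coef b n := by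
  rcases eq_or_ne m 0 with rfl | hm
  · simp [coef]
  rcases eq_or_ne n 0 with rfl | hn
  · simp [coef]
  rw [coef, coef, coef, if_neg (mul_ne_zero hm hn), if_neg hm, if_neg hn,
    Nat.factorization_mul_of_coprime h]
  exact Finsupp.prod_add_index_of_disjoint h.disjoint_primeFactors _

lemma coef_prime_pow (b : ℕ → ℝ) {p : ℕ} (hp : p.Prime) (e : ℕ) :
    coef b (p ^ e) = b p ^ e / (e.factorial : ℝ) := by
  rw [coef, if_neg (pow_ne_zero _ hp.ne_zero), hp.factorization_pow]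
  exact Finsupp.prod_single_index (by simp)

lemma abs_coef_le_one {b : ℕ → ℝ} (hb1 : ∀ p, |b p| ≤ 1) (n : ℕ) : |coef b n| ≤ 1 := by
  rw [coef]
  split_ifs with h
  · simp
  · rw [Finsupp.prod, Finset.abs_prod]
    refine Finset.prod_le_one (fun _ _ => abs_nonneg _) (fun p _ => ?_)
    rw [abs_div, abs_pow, Nat.abs_cast]
    have h1 : |b p| ^ (n.factorization p) ≤ 1 := pow_le_one₀ (abs_nonneg _) (hb1 p)
    have h2 : (1 : ℝ) ≤ ((n.factorization p).factorial : ℝ) := by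
      exact_mod_cast Nat.factorial_pos _
    rw [div_le_one (by linarith)]
    linarith

lemma summable_term {a : ℕ → ℝ} (ha : ∀ n, |a n| ≤ 1) {s : ℂ} (hs : 1 < s.re) :
    Summable (fun n => ‖LSeries.term (fun n => (a n : ℂ)) s n‖) := by
  refine Summable.of_nonneg_of_le (fun _ => norm_nonneg _) (fun n => ?_)
    (Real.summable_nat_rpow_inv.2 hs)
  rcases eq_or_ne n 0 with rfl | hn
  · simp; positivity
  · rw [LSeries.norm_term_eq, if_neg hn, Complex.norm_real, Real.norm_eq_abs]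
    calc |a n| / (n : ℝ) ^ s.re ≤ 1 / (n : ℝ) ^ s.re := by
          gcongr
          exact ha n
      _ = _ := one_div _

/-- the Euler product -/
lemma euler_product (b : ℕ → ℝ) (hb : ∀ p : ℕ, ¬ p.Prime → b p = 0) (hb1 : ∀ p, |b p| ≤ 1)
    {s : ℂ} (hs : 1 < s.re) :
    HasProd (fun p : Nat.Primes =>
      Complex.exp (∑' k : ℕ, (b ((p : ℕ) ^ (k + 1)) : ℂ) *
        ((p : ℕ) : ℂ) ^ (-(((k + 1 : ℕ) : ℂ) * s))))
      (LSeries (fun n => (coef b n : ℂ)) s) := by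
  have key := EulerProduct.eulerProduct_hasProd
    (f := LSeries.term (fun n => (coef b n : ℂ)) s)
    (by rw [LSeries.term_of_ne_zero one_ne_zero, coef_one]; simp)
    (by
      intro m n hmn
      rcases eq_or_ne m 0 with rfl | hm
      · simp
      rcases eq_or_ne n 0 with rfl | hn
      · simp
      rw [LSeries.term_of_ne_zero (mul_ne_zero hm hn), LSeries.term_of_ne_zero hm,
        LSeries.term_of_ne_zero hn, coef_mul_of_coprime b hmn, Nat.cast_mul,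
        Complex.natCast_mul_natCast_cpow, Complex.ofReal_mul]
      field_simp)
    (summable_term (abs_coef_le_one hb1) hs) (by simp)
  rw [LSeries]
  convert key using 1
  funext p
  have hp := p.2
  have hp0 : ((p : ℕ) : ℂ) ≠ 0 := by exact_mod_cast hp.ne_zero
  have h1 : (∑' k : ℕ, (b ((p : ℕ) ^ (k + 1)) : ℂ) *
        ((p : ℕ) : ℂ) ^ (-(((k + 1 : ℕ) : ℂ) * s))) = (b p : ℂ) * ((p : ℕ) : ℂ) ^ (-s) := by
    rw [tsum_eq_single 0]
    · simp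
    · intro k hk
      rw [hb _ (Nat.Prime.not_prime_pow (by omega))]
      simp
  rw [h1]
  have h2 : ∀ e : ℕ, LSeries.term (fun n => (coef b n : ℂ)) s ((p : ℕ) ^ e) =
      ((b p : ℂ) * ((p : ℕ) : ℂ) ^ (-s)) ^ e / (e.factorial : ℂ) := by
    intro e
    rw [LSeries.term_of_ne_zero (pow_ne_zero _ hp.ne_zero), coef_prime_pow b hp]
    rw [Nat.cast_pow, mul_pow, Complex.cpow_neg, inv_pow]
    have e1 : (((p : ℕ) : ℂ) ^ e) ^ s = (((p : ℕ) : ℂ) ^ s) ^ e := by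
      rw [← Complex.natCast_cpow_natCast_mul, Complex.cpow_nat_mul]
    rw [e1]
    push_cast
    field_simp
  simp_rw [h2]
  rw [(NormedSpace.expSeries_div_hasSum_exp ((b p : ℂ) * ((p : ℕ) : ℂ) ^ (-s))).tsum_eq,
    Complex.exp_eq_exp_ℂ]

end A9

/-- Positive version: the Dirichlet series `F(s) = exp (Σ_p b_p p^{-s}) = Σ coef b n n^{-s}`
extends to an entire function of finite order and satisfies the functional equation with
`Q = L^{-k}`, one factor `Γ(ks)`, `ω = 1`, and has the Euler product. -/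
theorem selberg_data {k L : ℝ} (hk : 1 < k) (hL : 0 < L) (b : ℕ → ℝ)
    (hb : ∀ p : ℕ, ¬ p.Prime → b p = 0) (hb1 : ∀ p, |b p| ≤ 1)
    (h : ∀ P ∈ Vodd k, ∑' n : ℕ, coef b n * phi k L P n = 0) :
    coef b 1 = 1 ∧ (∀ n, |coef b n| ≤ 1) ∧
    ∃ F : ℂ → ℂ, Differentiable ℂ F ∧
      (∃ ρ C : ℝ, ∀ s : ℂ, ‖F s‖ ≤ C * Real.exp (‖s‖ ^ ρ)) ∧
      (∀ s : ℂ, 1 < s.re → F s = LSeries (fun n => (coef b n : ℂ)) s) ∧
      (∀ s : ℂ, (∀ n : ℕ, (k : ℂ) * s ≠ -(n : ℂ)) →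
        (∀ n : ℕ, (k : ℂ) * (1 - starRingEnd ℂ s) ≠ -(n : ℂ)) →
        F s * ((L ^ (-k) : ℝ) : ℂ) ^ s * Complex.Gamma (k * s) =
          starRingEnd ℂ (F (1 - starRingEnd ℂ s) * ((L ^ (-k) : ℝ) : ℂ) ^ (1 - starRingEnd ℂ s) *
            Complex.Gamma (k * (1 - starRingEnd ℂ s)))) ∧
      (∀ s : ℂ, 1 < s.re →
        HasProd (fun p : Nat.Primes =>
          Complex.exp (∑' k : ℕ, (b ((p : ℕ) ^ (k + 1)) : ℂ) *
            ((p : ℕ) : ℂ) ^ (-(((k + 1 : ℕ) : ℂ) * s))))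
          (LSeries (fun n => (coef b n : ℂ)) s)) := by
  have hk0 : 0 < k := by linarith
  have ha := A9.abs_coef_le_one hb1
  have ha0 := A9.coef_zero b
  exact ⟨A9.coef_one b, ha, A9.FF k L (coef b), A9.differentiable_FF hk0 hL ha ha0 h,
    A9.FF_order hk0 hL ha ha0 h, fun s hs => A9.FF_eq_LSeries hk0 hL ha ha0 hs,
    fun s h1 h2 => A9.FF_feq hk0 hL ha ha0 h h1 h2,
    fun s hs => A9.euler_product b hb hb1 hs⟩

theorem selberg_of_solution {k L : ℝ} (hk : 1 < k) (hL : 0 < L) (b : ℕ → ℝ)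
    (hb : ∀ p : ℕ, ¬ p.Prime → b p = 0) (hb1 : ∀ p, |b p| ≤ 1)
    (h : ∀ P ∈ Vodd k, ∑' n : ℕ, coef b n * phi k L P n = 0) (hkz : ∀ z : ℤ, 2 * k ≠ (z : ℝ)) :
    ¬ (∀ (f : ℕ → ℂ),
    (∃ n : ℕ, 0 < n ∧ f n ≠ 0) →
    (∀ ε : ℝ, 0 < ε → ∃ C : ℝ, ∀ n : ℕ, 1 ≤ n → ‖f n‖ ≤ C * (n : ℝ) ^ ε) →
    ∀ (m : ℕ) (F : ℂ → ℂ), Differentiable ℂ F →
    (∃ ρ C : ℝ, ∀ s : ℂ, ‖F s‖ ≤ C * Real.exp (‖s‖ ^ ρ)) →
    (∀ s : ℂ, 1 < s.re → F s = (s - 1) ^ m * LSeries f s) →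
    ∀ (R : ℕ) (Q : ℝ) (lam : Fin R → ℝ) (mu : Fin R → ℂ) (ω : ℂ),
    0 < Q → (∀ j, 0 < lam j) → (∀ j, 0 ≤ (mu j).re) → ‖ω‖ = 1 →
    (∀ s : ℂ, s ≠ 0 → s ≠ 1 →
      (∀ j, ∀ n : ℕ, (lam j : ℂ) * s + mu j ≠ -(n : ℂ)) →
      (∀ j, ∀ n : ℕ, (lam j : ℂ) * (1 - starRingEnd ℂ s) + mu j ≠ -(n : ℂ)) →
      F s / (s - 1) ^ m * (Q : ℂ) ^ s * ∏ j, Complex.Gamma ((lam j : ℂ) * s + mu j)
        = ω * starRingEnd ℂ
            (F (1 - starRingEnd ℂ s) / (1 - starRingEnd ℂ s - 1) ^ m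
              * (Q : ℂ) ^ (1 - starRingEnd ℂ s)
              * ∏ j, Complex.Gamma ((lam j : ℂ) * (1 - starRingEnd ℂ s) + mu j))) →
    ∀ (b : ℕ → ℂ) (θ : ℝ), θ < 1 / 2 →
    (∃ C : ℝ, ∀ p k : ℕ, p.Prime → 1 ≤ k → ‖b (p ^ k)‖ ≤ C * ((p ^ k : ℕ) : ℝ) ^ θ) →
    (∀ s : ℂ, 1 < s.re →
      HasProd (fun p : Nat.Primes =>
        Complex.exp (∑' k : ℕ, b ((p : ℕ) ^ (k + 1)) * ((p : ℕ) : ℂ) ^ (-(((k + 1 : ℕ) : ℂ) * s))))
        (LSeries f s)) →
    ∃ d : ℤ, 2 * ∑ j, lam j = (d : ℝ)) := by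
  intro H
  have hk0 : 0 < k := by linarith
  have ha := A9.abs_coef_le_one hb1
  have ha0 := A9.coef_zero b
  obtain ⟨d, hd⟩ := H (fun n => (coef b n : ℂ)) ⟨1, one_pos, by rw [A9.coef_one]; simp⟩
    (by
      intro ε hε
      refine ⟨1, fun n hn => ?_⟩
      have hn' : (1 : ℝ) ≤ n := by exact_mod_cast hn
      rw [Complex.norm_real, Real.norm_eq_abs, one_mul]
      exact (ha n).trans (Real.one_le_rpow hn' hε.le))
    0 (A9.FF k L (coef b)) (A9.differentiable_FF hk0 hL ha ha0 h)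
    (A9.FF_order hk0 hL ha ha0 h)
    (by
      intro s hs
      rw [pow_zero, one_mul]
      exact A9.FF_eq_LSeries hk0 hL ha ha0 hs)
    1 (L ^ (-k)) (fun _ => k) (fun _ => 0) 1 (Real.rpow_pos_of_pos hL _) (fun _ => hk0)
    (fun _ => by simp) (by simp)
    (by
      intro s _ _ h1 h2
      have h1' : ∀ n : ℕ, (k : ℂ) * s ≠ -(n : ℂ) := fun n => by simpa using h1 0 n
      have h2' : ∀ n : ℕ, (k : ℂ) * (1 - starRingEnd ℂ s) ≠ -(n : ℂ) := fun n => by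
        simpa using h2 0 n
      have := A9.FF_feq hk0 hL ha ha0 h h1' h2'
      simpa using this)
    (fun n => (b n : ℂ)) 0 (by norm_num)
    ⟨1, fun p j hp hj => by
      rw [Complex.norm_real, Real.norm_eq_abs, Real.rpow_zero, mul_one]
      exact hb1 _⟩
    (fun s hs => A9.euler_product b hb hb1 hs)
  simp only [Finset.univ_unique, Fin.default_eq_zero, Fin.isValue, Finset.sum_const,
    Finset.card_singleton, one_smul] at hd
  exact hkz d hd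

end Pool.Agent.Lib.MP_0bb3d8_nt
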