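import Pool.Agent.Lib.MP_0bb3d8_nt.Defs

/-!
# A9, part a: Laguerre parity
-/

set_option autoImplicit false

open Real MeasureTheory Polynomial Set

namespace Pool.Agent.Lib.MP_0bb3d8_nt

namespace A9

/-- The even space. -/
noncomputable def Veven (k : ℝ) : Submodule ℝ (Polynomial ℝ) :=
  Submodule.span ℝ {P | ∃ m : ℕ, Even m ∧ P = lag k m}

/-- The operator `A P = X P' - X P / 2 + k P / 2`. -/
noncomputable def Aop (k : ℝ) : Polynomial ℝ →ₗ[ℝ] Polynomial ℝ where
  toFun P := X * derivative P - C (1 / 2 : ℝ) * (X * P) + C (k / 2) * P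
  map_add' P Q := by simp only [map_add]; ring
  map_smul' c P := by
    simp only [smul_eq_C_mul, derivative_C_mul, RingHom.id_apply]; ring

lemma lag_succ_succ (k : ℝ) (m : ℕ) : lag k (m + 2) =
    (X - C (2 * ((m : ℝ) + 1) + k)) * lag k (m + 1)
      - C (((m : ℝ) + 1) * ((m : ℝ) + k)) * lag k m := rfl

/-- raising and lowering relations -/
lemma lag_deriv (k : ℝ) (m : ℕ) :
    X * derivative (lag k m) = (X - C ((m : ℝ) + k)) * lag k m - lag k (m + 1) ∧
    X * derivative (lag k (m + 1)) = C ((m : ℝ) + 1) * lag k (m + 1) +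
      C (((m : ℝ) + 1) * ((m : ℝ) + k)) * lag k m := by
  induction m with
  | zero =>
    constructor
    · simp [lag]
    · simp [lag]
  | succ m ih =>
    obtain ⟨hT, hU⟩ := ih
    have hrec := lag_succ_succ k m
    have hT' : X * derivative (lag k (m + 1)) =
        (X - C (((m + 1 : ℕ) : ℝ) + k)) * lag k (m + 1) - lag k (m + 1 + 1) := by
      rw [hU]
      have : lag k (m + 1 + 1) = (X - C (2 * ((m : ℝ) + 1) + k)) * lag k (m + 1)
        - C (((m : ℝ) + 1) * ((m : ℝ) + k)) * lag k m := hrec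
      rw [this]
      push_cast
      simp only [map_add, map_mul, map_one, map_ofNat]
      ring
    refine ⟨hT', ?_⟩
    have h2 : lag k (m + 1 + 1) = (X - C (2 * ((m : ℝ) + 1) + k)) * lag k (m + 1)
        - C (((m : ℝ) + 1) * ((m : ℝ) + k)) * lag k m := hrec
    have h3 : derivative (lag k (m + 1 + 1)) =
        lag k (m + 1) + (X - C (2 * ((m : ℝ) + 1) + k)) * derivative (lag k (m + 1))
          - C (((m : ℝ) + 1) * ((m : ℝ) + k)) * derivative (lag k m) := by
      rw [h2]
      simp only [derivative_sub, derivative_mul, derivative_X, derivative_C]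
      ring
    have h4 : X * derivative (lag k (m + 1 + 1)) =
        X * lag k (m + 1) + (X - C (2 * ((m : ℝ) + 1) + k)) * (X * derivative (lag k (m + 1)))
          - C (((m : ℝ) + 1) * ((m : ℝ) + k)) * (X * derivative (lag k m)) := by
      rw [h3]; ring
    rw [h4, hU, hT, h2]
    push_cast
    simp only [map_add, map_mul, map_one, map_ofNat]
    ring

/-- `A p_{m+1} = ((m+1)(m+k) p_m - p_{m+2})/2`. -/
lemma Aop_lag_succ (k : ℝ) (m : ℕ) :
    Aop k (lag k (m + 1)) = C (1 / 2 : ℝ) * (C (((m : ℝ) + 1) * ((m : ℝ) + k)) * lag k m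
      - lag k (m + 2)) := by
  obtain ⟨hT, -⟩ := lag_deriv k (m + 1)
  obtain ⟨-, hU⟩ := lag_deriv k m
  have h1 : (C (1 / 2 : ℝ) : ℝ[X]) * C 2 = 1 := by rw [← C_mul]; norm_num
  have h2 : (X * derivative (lag k (m + 1)) : ℝ[X]) = C (1 / 2 : ℝ) * (
      ((X - C (((m + 1 : ℕ) : ℝ) + k)) * lag k (m + 1) - lag k (m + 1 + 1)) +
      (C ((m : ℝ) + 1) * lag k (m + 1) + C (((m : ℝ) + 1) * ((m : ℝ) + k)) * lag k m)) := by
    rw [← hT, ← hU]
    calc (X * derivative (lag k (m + 1)) : ℝ[X]) = 1 * (X * derivative (lag k (m + 1))) := by ring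
      _ = C (1 / 2 : ℝ) * C 2 * (X * derivative (lag k (m + 1))) := by rw [h1]
      _ = _ := by simp only [map_ofNat]; ring
  have h3 : C (k / 2) = C (1 / 2 : ℝ) * C k := by rw [← C_mul]; congr 1; ring
  show X * derivative (lag k (m + 1)) - C (1 / 2 : ℝ) * (X * lag k (m + 1)) +
    C (k / 2) * lag k (m + 1) = _
  rw [h2, h3]
  push_cast
  simp only [map_add, map_mul, map_one]
  ring

lemma Aop_lag_zero (k : ℝ) : Aop k (lag k 0) = - (C (1 / 2 : ℝ) * lag k 1) := by
  have h3 : C (k / 2) = C (1 / 2 : ℝ) * C k := by rw [← C_mul]; congr 1; ring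
  show X * derivative (lag k 0) - C (1 / 2 : ℝ) * (X * lag k 0) +
    C (k / 2) * lag k 0 = _
  rw [h3]
  simp [lag]
  ring

lemma lag_mem_odd {k : ℝ} {m : ℕ} (hm : Odd m) : lag k m ∈ Vodd k :=
  Submodule.subset_span ⟨m, hm, rfl⟩

lemma lag_mem_even {k : ℝ} {m : ℕ} (hm : Even m) : lag k m ∈ Veven k :=
  Submodule.subset_span ⟨m, hm, rfl⟩

lemma C_mul_mem {k : ℝ} (V : Submodule ℝ ℝ[X]) (c : ℝ) {P : ℝ[X]} (hP : P ∈ V) : C c * P ∈ V := by
  rw [← smul_eq_C_mul]; exact V.smul_mem c hP

lemma Aop_even {k : ℝ} {P : ℝ[X]} (hP : P ∈ Veven k) : Aop k P ∈ Vodd k := by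
  have : Veven k ≤ (Vodd k).comap (Aop k) := by
    refine Submodule.span_le.2 ?_
    rintro _ ⟨m, hm, rfl⟩
    show Aop k (lag k m) ∈ Vodd k
    rcases m with _ | m
    · rw [Aop_lag_zero]
      exact (Vodd k).neg_mem (C_mul_mem (k := k) _ _ (lag_mem_odd odd_one))
    · rw [Aop_lag_succ]
      refine C_mul_mem (k := k) _ _ ((Vodd k).sub_mem (C_mul_mem (k := k) _ _ (lag_mem_odd ?_)) (lag_mem_odd ?_))
      · rcases Nat.even_or_odd m with h | h
        · exact absurd hm (by rw [Nat.even_add_one]; simpa using h)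
        · exact h
      · have : Even (m + 1) := hm
        exact this.add_one
  exact this hP

lemma Aop_odd {k : ℝ} {P : ℝ[X]} (hP : P ∈ Vodd k) : Aop k P ∈ Veven k := by
  have : Vodd k ≤ (Veven k).comap (Aop k) := by
    refine Submodule.span_le.2 ?_
    rintro _ ⟨m, hm, rfl⟩
    show Aop k (lag k m) ∈ Veven k
    rcases m with _ | m
    · exact absurd hm (by simp)
    · rw [Aop_lag_succ]
      refine C_mul_mem (k := k) _ _ ((Veven k).sub_mem (C_mul_mem (k := k) _ _ (lag_mem_even ?_)) (lag_mem_even ?_))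
      · rcases Nat.even_or_odd m with h | h
        · exact h
        · exact absurd hm (by simpa [Nat.odd_add_one] using h)
      · exact hm.add_one
  exact this hP

lemma Aop_iterate {k : ℝ} (j : ℕ) :
    (Even j → ((Aop k)^[j] (1 : ℝ[X])) ∈ Veven k) ∧ (Odd j → ((Aop k)^[j] (1 : ℝ[X])) ∈ Vodd k) := by
  induction j with
  | zero =>
    refine ⟨fun _ => ?_, fun h => absurd h (by simp)⟩
    have : (1 : ℝ[X]) = lag k 0 := rfl
    simp only [Function.iterate_zero, id]
    rw [this]; exact lag_mem_even (by simp)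
  | succ j ih =>
    rw [Function.iterate_succ_apply']
    refine ⟨fun h => ?_, fun h => ?_⟩
    · refine Aop_odd (ih.2 ?_)
      rcases Nat.even_or_odd j with h' | h'
      · exact absurd h (by rw [Nat.even_add_one]; simpa using h')
      · exact h'
    · refine Aop_even (ih.1 ?_)
      rcases Nat.even_or_odd j with h' | h'
      · exact h'
      · exact absurd h (by simpa [Nat.odd_add_one] using h')

end A9

end Pool.Agent.Lib.MP_0bb3d8_nt
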