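import Pool.Agent.Lib.MP_0bb3d8_nt.A9a

/-!
# A9, part b: the theta series and its functional equation
-/

set_option autoImplicit false

open Real MeasureTheory Polynomial Set

namespace Pool.Agent.Lib.MP_0bb3d8_nt

namespace A9

/-- `(δ v)^N / N! ≤ exp (δ v)`. -/
lemma pow_mul_exp_neg_le {δ : ℝ} (hδ : 0 < δ) (N : ℕ) {v : ℝ} (hv : 0 ≤ v) :
    v ^ N * Real.exp (-(δ * v)) ≤ (N.factorial : ℝ) / δ ^ N := by
  have h := Real.pow_div_factorial_le_exp (δ * v) (by positivity) N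
  rw [div_le_iff₀ (by positivity), mul_pow] at h
  rw [le_div_iff₀ (by positivity), Real.exp_neg]
  have he := Real.exp_pos (δ * v)
  calc v ^ N * (Real.exp (δ * v))⁻¹ * δ ^ N = (δ ^ N * v ^ N) * (Real.exp (δ * v))⁻¹ := by ring
    _ ≤ (Real.exp (δ * v) * N.factorial) * (Real.exp (δ * v))⁻¹ := by gcongr
    _ = N.factorial := by field_simp

lemma one_add_pow_mul_exp_neg_le {δ : ℝ} (hδ : 0 < δ) (N : ℕ) : ∃ C : ℝ, 0 < C ∧ ∀ v : ℝ, 0 ≤ v →
    (1 + v) ^ N * Real.exp (-(δ * v)) ≤ C := by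
  refine ⟨Real.exp δ * ((N.factorial : ℝ) / δ ^ N), by positivity, fun v hv => ?_⟩
  have h := pow_mul_exp_neg_le hδ N (v := 1 + v) (by linarith)
  have h2 : Real.exp (-(δ * v)) = Real.exp δ * Real.exp (-(δ * (1 + v))) := by
    rw [← Real.exp_add]; congr 1; ring
  rw [h2]
  calc (1 + v) ^ N * (Real.exp δ * Real.exp (-(δ * (1 + v))))
      = Real.exp δ * ((1 + v) ^ N * Real.exp (-(δ * (1 + v)))) := by ring
    _ ≤ _ := by gcongr

/-- key summability -/
lemma summable_aux {k δ : ℝ} (hk : 0 < k) (hδ : 0 < δ) (N : ℕ) :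
    Summable (fun n : ℕ => (1 + (n : ℝ) ^ (1 / k)) ^ N * Real.exp (-(δ * (n : ℝ) ^ (1 / k)))) := by
  obtain ⟨K, hK⟩ := exists_nat_ge (2 * k)
  obtain ⟨C, hC, hb⟩ := one_add_pow_mul_exp_neg_le hδ (N + K)
  have hs : Summable (fun n : ℕ => C * ((n : ℝ) ^ 2)⁻¹) :=
    (Real.summable_nat_pow_inv.2 (by norm_num)).mul_left C
  refine Summable.of_norm_bounded_eventually_nat hs ?_
  filter_upwards [Filter.eventually_ge_atTop 1] with n hn
  have hn' : (1 : ℝ) ≤ n := by exact_mod_cast hn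
  set v : ℝ := (n : ℝ) ^ (1 / k) with hv
  have hv1 : 1 ≤ v := Real.one_le_rpow hn' (by positivity)
  rw [Real.norm_of_nonneg (by positivity)]
  have h1 := hb v (by linarith)
  have h2 : (n : ℝ) ^ 2 ≤ (1 + v) ^ K := by
    calc (n : ℝ) ^ 2 = (n : ℝ) ^ (2 : ℝ) := by norm_cast
      _ = v ^ (2 * k) := by
        rw [hv, ← Real.rpow_mul (by positivity)]
        congr 1; field_simp
      _ ≤ v ^ (K : ℝ) := Real.rpow_le_rpow_of_exponent_le hv1 hK
      _ = v ^ K := by norm_cast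
      _ ≤ (1 + v) ^ K := by gcongr; linarith
  have h3 : 0 < (n : ℝ) ^ 2 := by positivity
  rw [← div_eq_mul_inv, le_div_iff₀ h3]
  calc (1 + v) ^ N * Real.exp (-(δ * v)) * (n : ℝ) ^ 2
      ≤ (1 + v) ^ N * Real.exp (-(δ * v)) * (1 + v) ^ K := by gcongr
    _ = (1 + v) ^ (N + K) * Real.exp (-(δ * v)) := by rw [pow_add]; ring
    _ ≤ C := h1

lemma poly_bound (P : ℝ[X]) : ∃ (C : ℝ) (N : ℕ), 0 < C ∧ ∀ z : ℂ,
    ‖aeval z P‖ ≤ C * (1 + ‖z‖) ^ N := by
  induction P using Polynomial.induction_on' with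
  | add p q hp hq =>
    obtain ⟨C, N, hC, h⟩ := hp
    obtain ⟨C', N', hC', h'⟩ := hq
    refine ⟨C + C', N + N', by positivity, fun z => ?_⟩
    have h1 : (1 : ℝ) ≤ 1 + ‖z‖ := by linarith [norm_nonneg z]
    rw [map_add]
    calc ‖aeval z p + aeval z q‖ ≤ ‖aeval z p‖ + ‖aeval z q‖ := norm_add_le _ _
      _ ≤ C * (1 + ‖z‖) ^ N + C' * (1 + ‖z‖) ^ N' := add_le_add (h z) (h' z)
      _ ≤ C * (1 + ‖z‖) ^ (N + N') + C' * (1 + ‖z‖) ^ (N + N') := by
        gcongr
        · omega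
        · omega
      _ = _ := by ring
  | monomial n a =>
    refine ⟨|a| + 1, n, by positivity, fun z => ?_⟩
    rw [aeval_monomial, norm_mul, norm_pow]
    have : ‖(algebraMap ℝ ℂ) a‖ = |a| := by simp
    rw [this]
    have hz := norm_nonneg z
    gcongr
    · linarith
    · linarith

/-- the `n`-th term -/
noncomputable def trm (k L : ℝ) (a : ℕ → ℝ) (P : ℝ[X]) (n : ℕ) (t : ℂ) : ℂ :=
  (a n : ℂ) * (aeval (((2 * L * (n : ℝ) ^ (1 / k) : ℝ) : ℂ) * Complex.exp t) P *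
    Complex.exp (-(((L * (n : ℝ) ^ (1 / k) : ℝ) : ℂ) * Complex.exp t)) *
    Complex.exp (((k / 2 : ℝ) : ℂ) * t))

/-- the series -/
noncomputable def SP (k L : ℝ) (a : ℕ → ℝ) (P : ℝ[X]) (t : ℂ) : ℂ := ∑' n, trm k L a P n t

/-- local domain -/
def Udom (k δ M : ℝ) : Set ℂ :=
  {t | δ < (Complex.exp t).re ∧ ‖Complex.exp t‖ < M ∧ ‖Complex.exp (((k / 2 : ℝ) : ℂ) * t)‖ < M}

/-- the strip -/
def strip : Set ℂ := {t | 0 < (Complex.exp t).re ∧ |t.im| < π / 2}

lemma isOpen_Udom (k δ M : ℝ) : IsOpen (Udom k δ M) := by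
  refine IsOpen.inter ?_ (IsOpen.inter ?_ ?_)
  · exact isOpen_lt continuous_const (Complex.continuous_re.comp Complex.continuous_exp)
  · exact isOpen_lt Complex.continuous_exp.norm continuous_const
  · exact isOpen_lt (Complex.continuous_exp.comp (continuous_const.mul continuous_id)).norm
      continuous_const

lemma mem_Udom (k : ℝ) {t : ℂ} (ht : 0 < (Complex.exp t).re) : ∃ δ M : ℝ, 0 < δ ∧ 0 < M ∧
    t ∈ Udom k δ M := by
  refine ⟨(Complex.exp t).re / 2, ‖Complex.exp t‖ + ‖Complex.exp (((k / 2 : ℝ) : ℂ) * t)‖ + 1,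
    by linarith, by positivity, by linarith, ?_, ?_⟩
  · have := norm_nonneg (Complex.exp (((k / 2 : ℝ) : ℂ) * t)); linarith
  · have := norm_nonneg (Complex.exp t); linarith

lemma trm_bound {k L : ℝ} (hk : 0 < k) (hL : 0 < L) {a : ℕ → ℝ} (ha : ∀ n, |a n| ≤ 1) (P : ℝ[X])
    {δ M : ℝ} (hδ : 0 < δ) (hM : 0 < M) :
    ∃ u : ℕ → ℝ, Summable u ∧ ∀ n t, t ∈ Udom k δ M → ‖trm k L a P n t‖ ≤ u n := by
  obtain ⟨C, N, hC, hP⟩ := poly_bound P
  refine ⟨fun n => (C * (1 + 2 * L * M) ^ N * M) *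
    ((1 + (n : ℝ) ^ (1 / k)) ^ N * Real.exp (-((L * δ) * (n : ℝ) ^ (1 / k)))),
    (summable_aux hk (by positivity) N).mul_left _, fun n t ht => ?_⟩
  obtain ⟨h1, h2, h3⟩ := ht
  set v : ℝ := (n : ℝ) ^ (1 / k) with hv
  have hv0 : 0 ≤ v := by positivity
  rw [trm, norm_mul, norm_mul, norm_mul, Complex.norm_real]
  have e1 : ‖aeval (((2 * L * v : ℝ) : ℂ) * Complex.exp t) P‖ ≤
      C * ((1 + 2 * L * M) * (1 + v)) ^ N := by
    refine (hP _).trans ?_
    have : 1 + ‖((2 * L * v : ℝ) : ℂ) * Complex.exp t‖ ≤ (1 + 2 * L * M) * (1 + v) := by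
      rw [norm_mul, Complex.norm_real, Real.norm_of_nonneg (by positivity)]
      have : 2 * L * v * ‖Complex.exp t‖ ≤ 2 * L * v * M := by gcongr
      nlinarith [mul_pos hL hM, mul_nonneg (mul_pos hL hM).le hv0]
    gcongr
  have e2 : ‖Complex.exp (-(((L * v : ℝ) : ℂ) * Complex.exp t))‖ ≤ Real.exp (-((L * δ) * v)) := by
    rw [Complex.norm_exp]
    apply Real.exp_le_exp.2
    rw [Complex.neg_re, Complex.re_ofReal_mul]
    have : L * v * δ ≤ L * v * (Complex.exp t).re := by gcongr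
    linarith
  calc |a n| * (‖aeval (((2 * L * v : ℝ) : ℂ) * Complex.exp t) P‖ *
        ‖Complex.exp (-(((L * v : ℝ) : ℂ) * Complex.exp t))‖ * ‖Complex.exp (((k / 2 : ℝ) : ℂ) * t)‖)
      ≤ 1 * ((C * ((1 + 2 * L * M) * (1 + v)) ^ N) * Real.exp (-((L * δ) * v)) * M) := by
        gcongr
        exact ha n
    _ = _ := by rw [mul_pow]; ring

lemma summable_trm {k L : ℝ} (hk : 0 < k) (hL : 0 < L) {a : ℕ → ℝ} (ha : ∀ n, |a n| ≤ 1) (P : ℝ[X])
    {t : ℂ} (ht : 0 < (Complex.exp t).re) : Summable (fun n => trm k L a P n t) := by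
  obtain ⟨δ, M, hδ, hM, hmem⟩ := mem_Udom k ht
  obtain ⟨u, hu, hb⟩ := trm_bound hk hL ha P hδ hM
  exact Summable.of_norm_bounded hu (fun n => hb n t hmem)

lemma hasDerivAt_trm (k L : ℝ) (a : ℕ → ℝ) (P : ℝ[X]) (n : ℕ) (t : ℂ) :
    HasDerivAt (trm k L a P n) (trm k L a (Aop k P) n t) t := by
  set x : ℂ := ((2 * L * (n : ℝ) ^ (1 / k) : ℝ) : ℂ) with hx
  set y : ℂ := ((L * (n : ℝ) ^ (1 / k) : ℝ) : ℂ) with hy
  have hxy : x = 2 * y := by rw [hx, hy]; push_cast; ring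
  have h1 : HasDerivAt (fun t : ℂ => x * Complex.exp t) (x * Complex.exp t) t :=
    (Complex.hasDerivAt_exp t).const_mul x
  have h2 : HasDerivAt (fun t : ℂ => aeval (x * Complex.exp t) P)
      (aeval (x * Complex.exp t) (derivative P) * (x * Complex.exp t)) t := by
    have h := (P.hasDerivAt_aeval (x * Complex.exp t)).comp t h1
    exact h
  have h3 : HasDerivAt (fun t : ℂ => Complex.exp (-(y * Complex.exp t)))
      (Complex.exp (-(y * Complex.exp t)) * (-(y * Complex.exp t))) t :=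
    (((Complex.hasDerivAt_exp t).const_mul y).neg).cexp
  have h4 : HasDerivAt (fun t : ℂ => Complex.exp (((k / 2 : ℝ) : ℂ) * t))
      (Complex.exp (((k / 2 : ℝ) : ℂ) * t) * ((k / 2 : ℝ) : ℂ)) t := by
    have := ((hasDerivAt_id t).const_mul (((k / 2 : ℝ) : ℂ))).cexp
    simpa using this
  have h5 := ((h2.mul h3).mul h4).const_mul (a n : ℂ)
  have h6 : HasDerivAt (trm k L a P n) ((a n : ℂ) *
      ((aeval (x * Complex.exp t) (derivative P) * (x * Complex.exp t) *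
        Complex.exp (-(y * Complex.exp t)) +
        aeval (x * Complex.exp t) P * (Complex.exp (-(y * Complex.exp t)) *
          (-(y * Complex.exp t)))) * Complex.exp (((k / 2 : ℝ) : ℂ) * t) +
        aeval (x * Complex.exp t) P * Complex.exp (-(y * Complex.exp t)) *
        (Complex.exp (((k / 2 : ℝ) : ℂ) * t) * ((k / 2 : ℝ) : ℂ)))) t := h5
  have h7 : trm k L a (Aop k P) n t = ((a n : ℂ) *
      ((aeval (x * Complex.exp t) (derivative P) * (x * Complex.exp t) *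
        Complex.exp (-(y * Complex.exp t)) +
        aeval (x * Complex.exp t) P * (Complex.exp (-(y * Complex.exp t)) *
          (-(y * Complex.exp t)))) * Complex.exp (((k / 2 : ℝ) : ℂ) * t) +
        aeval (x * Complex.exp t) P * Complex.exp (-(y * Complex.exp t)) *
        (Complex.exp (((k / 2 : ℝ) : ℂ) * t) * ((k / 2 : ℝ) : ℂ)))) := by
    have hA : aeval (x * Complex.exp t) (Aop k P) =
        (x * Complex.exp t) * aeval (x * Complex.exp t) (derivative P)
        - (1 / 2 : ℂ) * ((x * Complex.exp t) * aeval (x * Complex.exp t) P)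
        + ((k / 2 : ℝ) : ℂ) * aeval (x * Complex.exp t) P := by
      show aeval (x * Complex.exp t) (X * derivative P - C (1 / 2 : ℝ) * (X * P) +
        C (k / 2) * P) = _
      simp only [map_add, map_sub, map_mul, aeval_X, aeval_C]
      simp
    rw [trm, hA, hxy]
    ring
  rw [h7]; exact h6

lemma hasDerivAt_SP {k L : ℝ} (hk : 0 < k) (hL : 0 < L) {a : ℕ → ℝ} (ha : ∀ n, |a n| ≤ 1)
    (P : ℝ[X]) {t : ℂ} (ht : 0 < (Complex.exp t).re) :
    HasDerivAt (SP k L a P) (SP k L a (Aop k P) t) t := by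
  obtain ⟨δ, M, hδ, hM, hmem⟩ := mem_Udom k ht
  obtain ⟨u, hu, hb⟩ := trm_bound hk hL ha P hδ hM
  have hd : ∀ n, DifferentiableOn ℂ (trm k L a P n) (Udom k δ M) := fun n z _ =>
    (hasDerivAt_trm k L a P n z).differentiableAt.differentiableWithinAt
  have h1 := Complex.differentiableOn_tsum_of_summable_norm hu hd (isOpen_Udom k δ M) hb
  have h2 := Complex.hasSum_deriv_of_summable_norm hu hd (isOpen_Udom k δ M) hb hmem
  have h3 : DifferentiableAt ℂ (SP k L a P) t :=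
    (h1 t hmem).differentiableAt ((isOpen_Udom k δ M).mem_nhds hmem)
  have h4 := h3.hasDerivAt
  have h5 : deriv (SP k L a P) t = SP k L a (Aop k P) t := by
    have : (fun n => deriv (trm k L a P n) t) = fun n => trm k L a (Aop k P) n t := by
      funext n; exact (hasDerivAt_trm k L a P n t).deriv
    rw [this] at h2
    exact h2.tsum_eq.symm
  rw [h5] at h4; exact h4

lemma isOpen_strip : IsOpen strip := by
  refine IsOpen.inter ?_ ?_
  · exact isOpen_lt continuous_const (Complex.continuous_re.comp Complex.continuous_exp)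
  · exact isOpen_lt (Complex.continuous_im.abs) continuous_const

lemma mem_strip {t : ℂ} (h : |t.im| < π / 2) : t ∈ strip := by
  refine ⟨?_, h⟩
  rw [Complex.exp_re]
  have := Real.cos_pos_of_mem_Ioo (abs_lt.1 h)
  positivity

lemma strip_eq : strip = {t : ℂ | |t.im| < π / 2} := by
  ext t; exact ⟨fun h => h.2, fun h => mem_strip h⟩

lemma iteratedDeriv_SP {k L : ℝ} (hk : 0 < k) (hL : 0 < L) {a : ℕ → ℝ} (ha : ∀ n, |a n| ≤ 1)
    (j : ℕ) : ∀ t ∈ strip, iteratedDeriv j (SP k L a 1) t = SP k L a ((Aop k)^[j] 1) t := by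
  induction j with
  | zero => intro t _; simp
  | succ j ih =>
    intro t ht
    rw [iteratedDeriv_succ, Function.iterate_succ_apply']
    have h1 : iteratedDeriv j (SP k L a 1) =ᶠ[nhds t] SP k L a ((Aop k)^[j] 1) := by
      filter_upwards [isOpen_strip.mem_nhds ht] with z hz using ih z hz
    rw [h1.deriv_eq]
    exact (hasDerivAt_SP hk hL ha _ ht.1).deriv

lemma SP_zero {k L : ℝ} {a : ℕ → ℝ} (P : ℝ[X]) :
    SP k L a P 0 = ((∑' n : ℕ, a n * phi k L P n : ℝ) : ℂ) := by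
  rw [SP, Complex.ofReal_tsum]
  congr 1; funext n
  rw [trm, phi, Complex.exp_zero, mul_one, mul_one, mul_zero, Complex.exp_zero, mul_one,
    Complex.ofReal_mul (a n), Complex.ofReal_mul (eval _ _), Complex.ofReal_exp,
    Complex.ofReal_neg]
  congr 2
  have : ((2 * L * (n : ℝ) ^ (1 / k) : ℝ) : ℂ) = algebraMap ℝ ℂ (2 * L * (n : ℝ) ^ (1 / k)) := rfl
  rw [this, aeval_algebraMap_apply]
  simp

/-- evenness on the strip -/
lemma SP_even {k L : ℝ} (hk : 0 < k) (hL : 0 < L) {a : ℕ → ℝ} (ha : ∀ n, |a n| ≤ 1)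
    (h : ∀ P ∈ Vodd k, ∑' n : ℕ, a n * phi k L P n = 0) :
    ∀ t ∈ strip, SP k L a 1 (-t) = SP k L a 1 t := by
  have hdiff : DifferentiableOn ℂ (SP k L a 1) strip := fun z hz =>
    (hasDerivAt_SP hk hL ha 1 hz.1).differentiableAt.differentiableWithinAt
  have hneg : ∀ t ∈ strip, -t ∈ strip := by
    intro t ht; rw [strip_eq] at ht ⊢; simpa using ht
  have hdiff' : DifferentiableOn ℂ (fun t => SP k L a 1 (-t)) strip :=
    hdiff.comp differentiable_neg.differentiableOn hneg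
  have han : AnalyticOnNhd ℂ (fun t => SP k L a 1 (-t)) strip :=
    hdiff'.analyticOnNhd isOpen_strip
  have han' : AnalyticOnNhd ℂ (SP k L a 1) strip := hdiff.analyticOnNhd isOpen_strip
  have hpre : IsPreconnected strip := by
    rw [strip_eq]
    have : {t : ℂ | |t.im| < π / 2} = Complex.im ⁻¹' (Ioo (-(π / 2)) (π / 2)) := by
      ext t; simp [abs_lt]
    rw [this]
    exact ((convex_Ioo _ _).is_linear_preimage
      (Complex.imLm : ℂ →ₗ[ℝ] ℝ).isLinear).isPreconnected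
  have h0 : (0 : ℂ) ∈ strip := mem_strip (by simp; positivity)
  have hball : Metric.ball (0 : ℂ) (π / 2) ⊆ strip := by
    intro t ht
    apply mem_strip
    refine lt_of_le_of_lt (Complex.abs_im_le_norm t) ?_
    simpa using ht
  have hodd : ∀ j : ℕ, Odd j → iteratedDeriv j (SP k L a 1) 0 = 0 := by
    intro j hj
    rw [iteratedDeriv_SP hk hL ha j 0 h0, SP_zero, h _ ((Aop_iterate j).2 hj)]
    simp
  have heq : (fun t => SP k L a 1 (-t)) =ᶠ[nhds 0] SP k L a 1 := by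
    filter_upwards [Metric.ball_mem_nhds (0 : ℂ) (by positivity : 0 < π / 2)] with t ht
    have hd := hdiff.mono hball
    have s1 := Complex.hasSum_taylorSeries_on_ball hd ht
    have s2 := Complex.hasSum_taylorSeries_on_ball hd (z := -t) (by simpa using ht)
    refine s2.unique ?_
    convert s1 using 1
    funext j
    rcases Nat.even_or_odd j with hj | hj
    · simp only [sub_zero, hj.neg_pow]
    · rw [hodd j hj]; simp
  exact fun t ht => han.eqOn_of_preconnected_of_eventuallyEq han' hpre h0 heq ht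

/-- the theta function -/
noncomputable def theta (k L : ℝ) (a : ℕ → ℝ) (y : ℝ) : ℝ :=
  ∑' n : ℕ, a n * Real.exp (-(L * (n : ℝ) ^ (1 / k)) * y)

lemma SP_one_log {k L : ℝ} {a : ℕ → ℝ} {y : ℝ} (hy : 0 < y) :
    SP k L a 1 (Real.log y : ℝ) = ((y ^ (k / 2) * theta k L a y : ℝ) : ℂ) := by
  rw [SP, theta, ← tsum_mul_left, Complex.ofReal_tsum]
  congr 1; funext n
  rw [trm, map_one, ← Complex.ofReal_exp, Real.exp_log hy, Real.rpow_def_of_pos hy]
  push_cast
  rw [one_mul]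
  have e1 : -((L : ℂ) * (((n : ℝ) ^ (1 / k) : ℝ) : ℂ) * (y : ℂ)) = -(L * ((n : ℝ) ^ (1 / k) : ℝ)) * y := by
    ring
  have e2 : (k : ℂ) / 2 * ((Real.log y : ℝ) : ℂ) = ((Real.log y : ℝ) : ℂ) * (k / 2) := by ring
  rw [e1, e2]
  ring

theorem theta_feq {k L : ℝ} (hk : 0 < k) (hL : 0 < L) {a : ℕ → ℝ} (ha : ∀ n, |a n| ≤ 1)
    (h : ∀ P ∈ Vodd k, ∑' n : ℕ, a n * phi k L P n = 0) {y : ℝ} (hy : 0 < y) :
    theta k L a (1 / y) = y ^ k * theta k L a y := by
  have hlog : ((Real.log y : ℝ) : ℂ) ∈ strip := mem_strip (by simp; positivity)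
  have h1 := SP_even hk hL ha h _ hlog
  have h2 : -((Real.log y : ℝ) : ℂ) = ((Real.log (1 / y) : ℝ) : ℂ) := by
    rw [one_div, Real.log_inv]; push_cast; ring
  rw [h2, SP_one_log hy, SP_one_log (by positivity)] at h1
  have h3 : (1 / y) ^ (k / 2) * theta k L a (1 / y) = y ^ (k / 2) * theta k L a y := by
    exact_mod_cast h1
  have h4 : 0 < y ^ (k / 2) := by positivity
  have h5 : (1 / y) ^ (k / 2) = (y ^ (k / 2))⁻¹ := by
    rw [one_div, Real.inv_rpow hy.le]
  rw [h5] at h3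
  have h6 : y ^ k = y ^ (k / 2) * y ^ (k / 2) := by
    rw [← Real.rpow_add hy]; congr 1; ring
  rw [h6]
  field_simp at h3
  linarith [h3]

end A9

end Pool.Agent.Lib.MP_0bb3d8_nt
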