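import Pool.Agent.Lib.MP_0bb3d8_nt.A9b

/-!
# A9, part c: Mellin transform, entire continuation, functional equation
-/

set_option autoImplicit false

open Real MeasureTheory Polynomial Set

namespace Pool.Agent.Lib.MP_0bb3d8_nt

namespace A9

section

variable {k L : ℝ} (hk : 0 < k) (hL : 0 < L) {a : ℕ → ℝ} (ha : ∀ n, |a n| ≤ 1) (ha0 : a 0 = 0)
  (h : ∀ P ∈ Vodd k, ∑' n : ℕ, a n * phi k L P n = 0)

include hk hL ha in
lemma summable_theta {y : ℝ} (hy : 0 < y) :
    Summable (fun n : ℕ => a n * Real.exp (-(L * (n : ℝ) ^ (1 / k)) * y)) := by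
  have := summable_aux hk (mul_pos hL hy) 0
  refine Summable.of_norm_bounded this (fun n => ?_)
  rw [norm_mul, Real.norm_eq_abs, Real.norm_of_nonneg (Real.exp_pos _).le, pow_zero, one_mul]
  have e : -(L * (n : ℝ) ^ (1 / k)) * y = -(L * y * (n : ℝ) ^ (1 / k)) := by ring
  rw [e]
  calc |a n| * Real.exp (-(L * y * (n : ℝ) ^ (1 / k)))
      ≤ 1 * Real.exp (-(L * y * (n : ℝ) ^ (1 / k))) := by gcongr; exact ha n
    _ = _ := one_mul _

include hk hL ha in
lemma continuousOn_theta : ContinuousOn (theta k L a) (Ioi 0) := by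
  have h1 : ∀ y ∈ Ioi (0 : ℝ), theta k L a y =
      (y ^ (k / 2))⁻¹ * (SP k L a 1 (Real.log y : ℝ)).re := by
    intro y hy
    rw [SP_one_log hy, Complex.ofReal_re]
    have : 0 < y ^ (k / 2) := Real.rpow_pos_of_pos hy _
    field_simp
  refine ContinuousOn.congr ?_ h1
  refine ContinuousOn.mul ?_ ?_
  · refine ContinuousOn.inv₀ ?_ (fun y hy => (Real.rpow_pos_of_pos hy _).ne')
    exact continuousOn_id.rpow_const (fun x hx => Or.inl (ne_of_gt hx))
  · intro y hy
    have hlog : ((Real.log y : ℝ) : ℂ) ∈ strip := mem_strip (by simp; positivity)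
    have hc : ContinuousAt (SP k L a 1) ((Real.log y : ℝ) : ℂ) :=
      (hasDerivAt_SP hk hL ha 1 hlog.1).continuousAt
    have hc2 : ContinuousAt (fun y : ℝ => ((Real.log y : ℝ) : ℂ)) y :=
      Complex.continuous_ofReal.continuousAt.comp (Real.continuousAt_log (ne_of_gt hy))
    exact (Complex.continuous_re.continuousAt.comp
      (ContinuousAt.comp (f := fun y : ℝ => ((Real.log y : ℝ) : ℂ)) hc hc2)).continuousWithinAt

include hk hL ha ha0 in
lemma theta_bound : ∃ C : ℝ, 0 < C ∧ ∀ y : ℝ, 1 ≤ y →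
    |theta k L a y| ≤ C * Real.exp (-(L / 2) * y) := by
  have hs := summable_aux hk (half_pos hL) 0
  refine ⟨(∑' n : ℕ, (1 + (n : ℝ) ^ (1 / k)) ^ 0 * Real.exp (-(L / 2 * (n : ℝ) ^ (1 / k)))) + 1,
    ?_, fun y hy => ?_⟩
  · have : 0 ≤ ∑' n : ℕ, (1 + (n : ℝ) ^ (1 / k)) ^ 0 * Real.exp (-(L / 2 * (n : ℝ) ^ (1 / k))) :=
      tsum_nonneg fun n => by positivity
    linarith
  · have hy0 : 0 < y := by linarith
    have hsum := summable_theta hk hL ha hy0
    rw [theta, ← Real.norm_eq_abs]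
    have hb : ∀ n : ℕ, ‖a n * Real.exp (-(L * (n : ℝ) ^ (1 / k)) * y)‖ ≤
        ((1 + (n : ℝ) ^ (1 / k)) ^ 0 * Real.exp (-(L / 2 * (n : ℝ) ^ (1 / k)))) *
          Real.exp (-(L / 2) * y) := by
      intro n
      rcases Nat.eq_zero_or_pos n with rfl | hn
      · rw [ha0]; simp; positivity
      · have hn' : (1 : ℝ) ≤ n := by exact_mod_cast hn
        have hv1 : 1 ≤ (n : ℝ) ^ (1 / k) := Real.one_le_rpow hn' (by positivity)
        set v : ℝ := (n : ℝ) ^ (1 / k)
        rw [norm_mul, Real.norm_eq_abs, Real.norm_of_nonneg (Real.exp_pos _).le, pow_zero,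
          one_mul, ← Real.exp_add]
        calc |a n| * Real.exp (-(L * v) * y) ≤ 1 * Real.exp (-(L * v) * y) := by
              gcongr; exact ha n
          _ = Real.exp (-(L * v) * y) := one_mul _
          _ ≤ _ := by
            apply Real.exp_le_exp.2
            nlinarith [mul_nonneg (sub_nonneg.2 hv1) (sub_nonneg.2 hy),
              mul_nonneg (mul_pos hL hL).le (sub_nonneg.2 hy),
              mul_nonneg hL.le (mul_nonneg (sub_nonneg.2 hv1) (sub_nonneg.2 hy)),
              mul_nonneg hL.le (sub_nonneg.2 hv1), mul_nonneg hL.le (sub_nonneg.2 hy)]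
    calc ‖∑' n : ℕ, a n * Real.exp (-(L * (n : ℝ) ^ (1 / k)) * y)‖
        ≤ ∑' n : ℕ, ‖a n * Real.exp (-(L * (n : ℝ) ^ (1 / k)) * y)‖ :=
          norm_tsum_le_tsum_norm hsum.norm
      _ ≤ ∑' n : ℕ, ((1 + (n : ℝ) ^ (1 / k)) ^ 0 * Real.exp (-(L / 2 * (n : ℝ) ^ (1 / k)))) *
          Real.exp (-(L / 2) * y) := hsum.norm.tsum_le_tsum hb (hs.mul_right _)
      _ = (∑' n : ℕ, ((1 + (n : ℝ) ^ (1 / k)) ^ 0 * Real.exp (-(L / 2 * (n : ℝ) ^ (1 / k))))) *
          Real.exp (-(L / 2) * y) := by rw [tsum_mul_right]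
      _ ≤ _ := by
        gcongr
        linarith

/-- complex valued theta -/
noncomputable def thc (k L : ℝ) (a : ℕ → ℝ) (y : ℝ) : ℂ := (theta k L a y : ℂ)

/-- the FE pair -/
noncomputable def pair : WeakFEPair ℂ where
  f := thc k L a
  g := thc k L a
  k := k
  ε := 1
  f₀ := 0
  g₀ := 0
  hf_int := ((Complex.continuous_ofReal.comp_continuousOn
    (continuousOn_theta hk hL ha)).locallyIntegrableOn measurableSet_Ioi)
  hg_int := ((Complex.continuous_ofReal.comp_continuousOn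
    (continuousOn_theta hk hL ha)).locallyIntegrableOn measurableSet_Ioi)
  hk := hk
  hε := one_ne_zero
  h_feq := by
    intro x hx
    rw [thc, thc, theta_feq hk hL ha h hx, smul_eq_mul, one_mul, ← Complex.ofReal_mul]
  hf_top := by
    intro r
    obtain ⟨C, hC, hb⟩ := theta_bound hk hL ha ha0
    have h1 : (fun x => thc k L a x - 0) =O[Filter.atTop] (fun x : ℝ => Real.exp (-(L / 2) * x)) := by
      refine Asymptotics.IsBigO.of_bound C ?_
      filter_upwards [Filter.eventually_ge_atTop 1] with x hx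
      rw [sub_zero, thc, Complex.norm_real, Real.norm_eq_abs,
        Real.norm_of_nonneg (Real.exp_pos _).le]
      exact hb x hx
    exact h1.trans (isLittleO_exp_neg_mul_rpow_atTop (half_pos hL) r).isBigO
  hg_top := by
    intro r
    obtain ⟨C, hC, hb⟩ := theta_bound hk hL ha ha0
    have h1 : (fun x => thc k L a x - 0) =O[Filter.atTop] (fun x : ℝ => Real.exp (-(L / 2) * x)) := by
      refine Asymptotics.IsBigO.of_bound C ?_
      filter_upwards [Filter.eventually_ge_atTop 1] with x hx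
      rw [sub_zero, thc, Complex.norm_real, Real.norm_eq_abs,
        Real.norm_of_nonneg (Real.exp_pos _).le]
      exact hb x hx
    exact h1.trans (isLittleO_exp_neg_mul_rpow_atTop (half_pos hL) r).isBigO

lemma pair_strong : IsStrongFEPair (pair hk hL ha ha0 h) := ⟨rfl, rfl⟩

/-- the completed function -/
noncomputable def Lam (k L : ℝ) (a : ℕ → ℝ) (w : ℂ) : ℂ := mellin (thc k L a) w

lemma Lam_eq : Lam k L a = (pair hk hL ha ha0 h).Λ := (pair_strong hk hL ha ha0 h).Λ_eq.symm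

include hk hL ha ha0 h in
lemma differentiable_Lam : Differentiable ℂ (Lam k L a) := by
  rw [Lam_eq hk hL ha ha0 h]; exact (pair_strong hk hL ha ha0 h).differentiable_Λ

include hk hL ha ha0 h in
lemma Lam_convergent (w : ℂ) : MellinConvergent (thc k L a) w :=
  ((pair_strong hk hL ha ha0 h).hasMellin w).1

include hk hL ha ha0 h in
lemma Lam_feq (w : ℂ) : Lam k L a (k - w) = Lam k L a w := by
  have h1 := (pair hk hL ha ha0 h).functional_equation w
  rw [(pair_strong hk hL ha ha0 h).symm_Λ_eq, (pair_strong hk hL ha ha0 h).Λ_eq] at h1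
  have h2 : mellin (thc k L a) (k - w) = (1 : ℂ) • mellin (thc k L a) w := h1
  rw [one_smul] at h2
  exact h2

lemma Lam_conj (w : ℂ) : Lam k L a (starRingEnd ℂ w) = starRingEnd ℂ (Lam k L a w) := by
  rw [Lam, Lam, mellin, mellin, ← integral_conj]
  refine setIntegral_congr_fun measurableSet_Ioi (fun t ht => ?_)
  have ht' : (0 : ℝ) < t := ht
  simp only [smul_eq_mul, map_mul, thc, Complex.conj_ofReal]
  congr 1
  have harg : ((t : ℝ) : ℂ).arg ≠ π := by
    rw [Complex.arg_ofReal_of_nonneg ht'.le]; exact pi_pos.ne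
  have h1 := Complex.cpow_conj ((t : ℝ) : ℂ) (w - 1) harg
  rw [Complex.conj_ofReal] at h1
  rw [← h1]
  simp

/-- the entire function -/
noncomputable def FF (k L : ℝ) (a : ℕ → ℝ) (s : ℂ) : ℂ :=
  Complex.exp ((Real.log L : ℝ) * (k * s)) * Lam k L a (k * s) * (Complex.Gamma (k * s))⁻¹

include hk hL ha ha0 h in
lemma differentiable_FF : Differentiable ℂ (FF k L a) := by
  have h1 : Differentiable ℂ (fun s : ℂ => (k : ℂ) * s) := differentiable_id.const_mul _
  refine Differentiable.mul (Differentiable.mul ?_ ?_) ?_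
  · exact (h1.const_mul _).cexp
  · exact (differentiable_Lam hk hL ha ha0 h).comp h1
  · exact Complex.differentiable_one_div_Gamma.comp h1

lemma exp_log_eq (hL : 0 < L) (w : ℂ) : Complex.exp ((Real.log L : ℝ) * w) = (L : ℂ) ^ w := by
  rw [Complex.cpow_def_of_ne_zero (by exact_mod_cast hL.ne'), Complex.ofReal_log hL.le]

include hk hL ha ha0 in
lemma FF_eq_LSeries {s : ℂ} (hs : 1 < s.re) :
    FF k L a s = LSeries (fun n => (a n : ℂ)) s := by
  have hks : 0 < ((k : ℂ) * s).re := by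
    rw [Complex.re_ofReal_mul]; positivity
  have hpos : ∀ n : ℕ, n ≠ 0 → 0 < L * (n : ℝ) ^ (1 / k) := by
    intro n hn
    have : (0 : ℝ) < n := by exact_mod_cast Nat.pos_of_ne_zero hn
    positivity
  have hsum : HasSum (fun n : ℕ => Complex.Gamma (k * s) * (a n : ℂ) /
      ((L * (n : ℝ) ^ (1 / k) : ℝ) : ℂ) ^ ((k : ℂ) * s)) (mellin (thc k L a) (k * s)) := by
    refine hasSum_mellin (fun n => ?_) hks (fun t ht => ?_) ?_
    · rcases eq_or_ne n 0 with rfl | hn
      · left; rw [ha0]; simp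
      · right; exact hpos n hn
    · have h1 := (summable_theta hk hL ha ht).hasSum
      have h2 := Complex.hasSum_ofReal.2 h1
      rw [thc, theta]
      convert h2 using 1
      funext n
      rw [Complex.ofReal_mul]
    · have hs2 : Summable (fun n : ℕ => (L ^ (k * s.re))⁻¹ * ((n : ℝ) ^ s.re)⁻¹) :=
        ((Real.summable_nat_rpow_inv).2 hs).mul_left _
      refine Summable.of_norm_bounded hs2 (fun n => ?_)
      have hn0 : (0 : ℝ) ≤ n := Nat.cast_nonneg n
      rw [Complex.re_ofReal_mul, Complex.norm_real, Real.mul_rpow hL.le (by positivity),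
        ← Real.rpow_mul hn0]
      have e : 1 / k * (k * s.re) = s.re := by field_simp
      rw [e, norm_div, norm_norm, Real.norm_eq_abs,
        Real.norm_of_nonneg (by positivity), div_eq_mul_inv, mul_inv]
      calc |a n| * ((L ^ (k * s.re))⁻¹ * ((n : ℝ) ^ s.re)⁻¹)
          ≤ 1 * ((L ^ (k * s.re))⁻¹ * ((n : ℝ) ^ s.re)⁻¹) := by gcongr; exact ha n
        _ = _ := one_mul _
  have hG : Complex.Gamma (k * s) ≠ 0 := Complex.Gamma_ne_zero_of_re_pos hks
  have hLs : (L : ℂ) ^ ((k : ℂ) * s) ≠ 0 := by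
    rw [← exp_log_eq hL]; exact Complex.exp_ne_zero _
  have h3 := (hsum.mul_left ((L : ℂ) ^ ((k : ℂ) * s))).mul_right ((Complex.Gamma (k * s))⁻¹)
  rw [FF, exp_log_eq hL, Lam, ← h3.tsum_eq, LSeries]
  congr 1
  funext n
  rcases eq_or_ne n 0 with rfl | hn
  · rw [ha0]; simp
  · rw [LSeries.term_of_ne_zero hn]
    have hn0 : (0 : ℝ) ≤ n := Nat.cast_nonneg n
    have e1 : ((L * (n : ℝ) ^ (1 / k) : ℝ) : ℂ) ^ ((k : ℂ) * s) =
        (L : ℂ) ^ ((k : ℂ) * s) * (n : ℂ) ^ s := by
      rw [Complex.ofReal_mul, Complex.mul_cpow_ofReal_nonneg hL.le (by positivity)]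
      congr 1
      rw [Complex.ofReal_cpow hn0, ← Complex.cpow_mul]
      · congr 1
        have hkc : (k : ℂ) ≠ 0 := by exact_mod_cast hk.ne'
        push_cast
        field_simp
      · have : (Complex.log ((n : ℝ) : ℂ) * ((1 / k : ℝ) : ℂ)).im = 0 := by
          rw [← Complex.ofReal_log hn0, ← Complex.ofReal_mul, Complex.ofReal_im]
        rw [this]; linarith [pi_pos]
      · have : (Complex.log ((n : ℝ) : ℂ) * ((1 / k : ℝ) : ℂ)).im = 0 := by
          rw [← Complex.ofReal_log hn0, ← Complex.ofReal_mul, Complex.ofReal_im]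
        rw [this]; exact pi_pos.le
    rw [e1]
    have hns : (n : ℂ) ^ s ≠ 0 := by
      rw [Complex.cpow_ne_zero_iff]; left; exact_mod_cast hn
    field_simp

include hk hL ha ha0 h in
lemma FF_feq {s : ℂ} (h1 : ∀ n : ℕ, (k : ℂ) * s ≠ -(n : ℂ))
    (h2 : ∀ n : ℕ, (k : ℂ) * (1 - starRingEnd ℂ s) ≠ -(n : ℂ)) :
    FF k L a s * ((L ^ (-k) : ℝ) : ℂ) ^ s * Complex.Gamma (k * s) =
      starRingEnd ℂ (FF k L a (1 - starRingEnd ℂ s) *
        ((L ^ (-k) : ℝ) : ℂ) ^ (1 - starRingEnd ℂ s) *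
        Complex.Gamma (k * (1 - starRingEnd ℂ s))) := by
  have key : ∀ w : ℂ, (∀ n : ℕ, (k : ℂ) * w ≠ -(n : ℂ)) →
      FF k L a w * ((L ^ (-k) : ℝ) : ℂ) ^ w * Complex.Gamma (k * w) = Lam k L a (k * w) := by
    intro w hw
    have hG := Complex.Gamma_ne_zero hw
    have e : ((L ^ (-k) : ℝ) : ℂ) ^ w = (Complex.exp ((Real.log L : ℝ) * (k * w)))⁻¹ := by
      rw [← exp_log_eq (Real.rpow_pos_of_pos hL _), Real.log_rpow hL, ← Complex.exp_neg]
      congr 1; push_cast; ring
    rw [FF, e]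
    have := Complex.exp_ne_zero ((Real.log L : ℝ) * (k * w))
    field_simp
  rw [key s h1, key _ h2, ← Lam_conj, ← Lam_feq hk hL ha ha0 h (k * s)]
  congr 1
  simp only [map_mul, map_sub, map_one, Complex.conj_ofReal, Complex.conj_conj]
  ring

end

end A9

end Pool.Agent.Lib.MP_0bb3d8_nt
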