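import Pool.Agent.Lib.MP_0bb3d8_nt.A9c

/-!
# A9, part d: finite order
-/

set_option autoImplicit false

open Real MeasureTheory Polynomial Set

namespace Pool.Agent.Lib.MP_0bb3d8_nt

namespace A9

lemma factorial_div_le {c : ℝ} (hc : 0 < c) {N : ℕ} (hN : 1 ≤ N) :
    (N.factorial : ℝ) / c ^ N ≤ Real.exp ((1 + 1 / c) * (N : ℝ) ^ 2) := by
  have h1 : (N.factorial : ℝ) ≤ (N : ℝ) ^ N := by exact_mod_cast Nat.factorial_le_pow N
  have h2 : (N : ℝ) ^ N ≤ Real.exp ((N : ℝ) ^ 2) := by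
    have : (N : ℝ) ≤ Real.exp N := by linarith [Real.add_one_le_exp (N : ℝ)]
    calc (N : ℝ) ^ N ≤ (Real.exp N) ^ N := by gcongr
      _ = Real.exp ((N : ℝ) ^ 2) := by rw [← Real.exp_nat_mul]; congr 1; ring
  have h3 : (c ^ N)⁻¹ ≤ Real.exp ((1 / c) * (N : ℝ) ^ 2) := by
    have : 1 / c ≤ Real.exp (1 / c) := by linarith [Real.add_one_le_exp (1 / c)]
    have hN' : (1 : ℝ) ≤ N := by exact_mod_cast hN
    calc (c ^ N)⁻¹ = (1 / c) ^ N := by rw [one_div, inv_pow]
      _ ≤ (Real.exp (1 / c)) ^ N := by gcongr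
      _ = Real.exp ((1 / c) * N) := by rw [← Real.exp_nat_mul]; congr 1; ring
      _ ≤ _ := by
        apply Real.exp_le_exp.2
        have : (N : ℝ) ≤ (N : ℝ) ^ 2 := by nlinarith
        gcongr
  calc (N.factorial : ℝ) / c ^ N = (N.factorial : ℝ) * (c ^ N)⁻¹ := div_eq_mul_inv _ _
    _ ≤ Real.exp ((N : ℝ) ^ 2) * Real.exp ((1 / c) * (N : ℝ) ^ 2) := by
      gcongr; exact h1.trans h2
    _ = _ := by rw [← Real.exp_add]; congr 1; ring

section

variable {k L : ℝ} (hk : 0 < k) (hL : 0 < L) {a : ℕ → ℝ} (ha : ∀ n, |a n| ≤ 1) (ha0 : a 0 = 0)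
  (h : ∀ P ∈ Vodd k, ∑' n : ℕ, a n * phi k L P n = 0)

include hk hL ha ha0 h in
lemma Lam_bound : ∃ C : ℝ, 0 < C ∧ ∀ w : ℂ,
    ‖Lam k L a w‖ ≤ Real.exp (C * (1 + ‖w‖) ^ 2) := by
  obtain ⟨C, hC, hb⟩ := theta_bound hk hL ha ha0
  have hL2 : 0 < L / 2 := half_pos hL
  have key : ∀ (w : ℂ) (N : ℕ), |w.re| + k + 1 ≤ N →
      ‖Lam k L a w‖ ≤ 2 * π * C * ((N.factorial : ℝ) / (L / 2) ^ N) := by
    intro w N hN
    have hre := abs_le.1 (le_refl |w.re|)
    have hre1 : w.re ≤ |w.re| := le_abs_self _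
    have hre2 : -w.re ≤ |w.re| := neg_le_abs _
    set D : ℝ := (N.factorial : ℝ) / (L / 2) ^ N with hD
    have hD0 : 0 < D := by positivity
    have hpt : ∀ t ∈ Ioi (0 : ℝ), ‖(t : ℂ) ^ (w - 1) • thc k L a t‖ ≤
        2 * C * D * (1 + t ^ 2)⁻¹ := by
      intro t ht
      have ht0 : (0 : ℝ) < t := ht
      rw [norm_smul, Complex.norm_cpow_eq_rpow_re_of_pos ht0, thc, Complex.norm_real,
        Real.norm_eq_abs, Complex.sub_re, Complex.one_re]
      rcases le_total 1 t with h1 | h1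
      · have e1 : t ^ (w.re - 1) ≤ t ^ (N : ℝ) * (t ^ 2)⁻¹ := by
          have : (t ^ 2)⁻¹ = t ^ (-2 : ℝ) := by
            rw [Real.rpow_neg ht0.le]; norm_cast
          rw [this, ← Real.rpow_add ht0]
          apply Real.rpow_le_rpow_of_exponent_le h1
          linarith
        have e2 := pow_mul_exp_neg_le hL2 N ht0.le
        have e3 : (t ^ 2)⁻¹ ≤ 2 * (1 + t ^ 2)⁻¹ := by
          rw [← div_eq_mul_inv, inv_eq_one_div, div_le_div_iff₀ (by positivity) (by positivity)]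
          nlinarith
        have e4 : Real.exp (-(L / 2) * t) = Real.exp (-(L / 2 * t)) := by congr 1; ring
        calc t ^ (w.re - 1) * |theta k L a t|
            ≤ (t ^ (N : ℝ) * (t ^ 2)⁻¹) * (C * Real.exp (-(L / 2 * t))) := by
              gcongr
              rw [← e4]; exact hb t h1
          _ = C * (t ^ N * Real.exp (-(L / 2 * t))) * (t ^ 2)⁻¹ := by
              rw [Real.rpow_natCast]; ring
          _ ≤ C * D * (2 * (1 + t ^ 2)⁻¹) := by gcongr
          _ = _ := by ring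
      · have hinv : 1 ≤ 1 / t := by rw [le_div_iff₀ ht0]; linarith
        have e0 : theta k L a t = (1 / t) ^ k * theta k L a (1 / t) := by
          have := theta_feq hk hL ha h (y := 1 / t) (by positivity)
          rwa [one_div_one_div] at this
        have e1 : t ^ (w.re - 1) * (1 / t) ^ k ≤ (1 / t) ^ (N : ℝ) := by
          have : t ^ (w.re - 1) = (1 / t) ^ (1 - w.re) := by
            rw [one_div, Real.inv_rpow ht0.le, ← Real.rpow_neg ht0.le]; congr 1; ring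
          rw [this, ← Real.rpow_add (by positivity)]
          apply Real.rpow_le_rpow_of_exponent_le hinv
          linarith
        have e2 := pow_mul_exp_neg_le hL2 N (v := 1 / t) (by positivity)
        have e3 : (1 : ℝ) ≤ 2 * (1 + t ^ 2)⁻¹ := by
          rw [← div_eq_mul_inv, le_div_iff₀ (by positivity)]
          nlinarith
        have e4 : Real.exp (-(L / 2) * (1 / t)) = Real.exp (-(L / 2 * (1 / t))) := by
          congr 1; ring
        rw [e0, abs_mul, abs_of_pos (by positivity : 0 < (1 / t) ^ k)]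
        calc t ^ (w.re - 1) * ((1 / t) ^ k * |theta k L a (1 / t)|)
            = (t ^ (w.re - 1) * (1 / t) ^ k) * |theta k L a (1 / t)| := by ring
          _ ≤ (1 / t) ^ (N : ℝ) * (C * Real.exp (-(L / 2 * (1 / t)))) := by
              gcongr
              rw [← e4]; exact hb _ hinv
          _ = C * ((1 / t) ^ N * Real.exp (-(L / 2 * (1 / t)))) * 1 := by
              rw [Real.rpow_natCast]; ring
          _ ≤ C * D * (2 * (1 + t ^ 2)⁻¹) := by gcongr
          _ = _ := by ring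
    have hint : Integrable (fun t : ℝ => 2 * C * D * (1 + t ^ 2)⁻¹) :=
      integrable_inv_one_add_sq.const_mul _
    calc ‖Lam k L a w‖ = ‖∫ t in Ioi (0 : ℝ), (t : ℂ) ^ (w - 1) • thc k L a t‖ := rfl
      _ ≤ ∫ t in Ioi (0 : ℝ), 2 * C * D * (1 + t ^ 2)⁻¹ := by
          refine norm_integral_le_of_norm_le hint.integrableOn ?_
          exact (ae_restrict_iff' measurableSet_Ioi).2 (Filter.Eventually.of_forall hpt)
      _ ≤ ∫ t : ℝ, 2 * C * D * (1 + t ^ 2)⁻¹ := by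
          refine setIntegral_le_integral hint ?_
          exact Filter.Eventually.of_forall (fun t => by positivity)
      _ = 2 * π * C * D := by
          rw [integral_const_mul, integral_univ_inv_one_add_sq]; ring
  refine ⟨2 * π * C + (1 + 1 / (L / 2)) * (k + 2) ^ 2, by positivity, fun w => ?_⟩
  have hre : |w.re| ≤ ‖w‖ := Complex.abs_re_le_norm w
  have hw := norm_nonneg w
  set N : ℕ := ⌈|w.re| + k + 1⌉₊ with hN
  have hN1 : |w.re| + k + 1 ≤ N := Nat.le_ceil _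
  have hN2 : (N : ℝ) < |w.re| + k + 1 + 1 := Nat.ceil_lt_add_one (by positivity)
  have hN0 : 1 ≤ N := by
    have : (1 : ℝ) ≤ N := by linarith [abs_nonneg w.re]
    exact_mod_cast this
  have h1 := key w N hN1
  have h2 := factorial_div_le hL2 hN0
  have h3 : (N : ℝ) ≤ (k + 2) * (1 + ‖w‖) := by nlinarith
  have h4 : 2 * π * C ≤ Real.exp (2 * π * C) := by linarith [Real.add_one_le_exp (2 * π * C)]
  calc ‖Lam k L a w‖ ≤ 2 * π * C * ((N.factorial : ℝ) / (L / 2) ^ N) := h1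
    _ ≤ Real.exp (2 * π * C) * Real.exp ((1 + 1 / (L / 2)) * (N : ℝ) ^ 2) := by gcongr
    _ = Real.exp (2 * π * C + (1 + 1 / (L / 2)) * (N : ℝ) ^ 2) := by rw [Real.exp_add]
    _ ≤ _ := by
      apply Real.exp_le_exp.2
      have h5 : (N : ℝ) ^ 2 ≤ ((k + 2) * (1 + ‖w‖)) ^ 2 := by gcongr
      have h6 : 2 * π * C * 1 ≤ 2 * π * C * (1 + ‖w‖) ^ 2 := by
        gcongr; nlinarith
      have h7 : (1 + 1 / (L / 2)) * (N : ℝ) ^ 2 ≤ (1 + 1 / (L / 2)) * ((k + 2) * (1 + ‖w‖)) ^ 2 := by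
        gcongr
      nlinarith

end

lemma Gamma_norm_le {z : ℂ} (hz : 0 < z.re) : ‖Complex.Gamma z‖ ≤ Real.Gamma z.re := by
  rw [Complex.Gamma_eq_integral hz, Complex.GammaIntegral, Real.Gamma_eq_integral hz]
  refine (norm_integral_le_integral_norm _).trans (le_of_eq ?_)
  refine setIntegral_congr_fun measurableSet_Ioi (fun t ht => ?_)
  have ht0 : (0 : ℝ) < t := ht
  simp only [norm_mul]
  rw [Complex.norm_cpow_eq_rpow_re_of_pos ht0, Complex.norm_real,
    Real.norm_of_nonneg (Real.exp_pos _).le]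
  simp

lemma real_Gamma_le {x : ℝ} (hx : 1 / 2 ≤ x) {N : ℕ} (hN : x + 1 ≤ N) :
    Real.Gamma x ≤ 2 * (N.factorial : ℝ) := by
  have hx0 : 0 < x := by linarith
  have h1 : Real.Gamma (x + 1) = x * Real.Gamma x := Real.Gamma_add_one hx0.ne'
  have h2 : Real.Gamma (x + 1 + 1) = (x + 1) * Real.Gamma (x + 1) :=
    Real.Gamma_add_one (by linarith)
  have h3 : Real.Gamma (x + 1 + 1) ≤ Real.Gamma (N + 1) := by
    apply Real.Gamma_strictMonoOn_Ici.monotoneOn
    · show (2 : ℝ) ≤ x + 1 + 1; linarith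
    · show (2 : ℝ) ≤ N + 1; linarith
    · linarith
  rw [Real.Gamma_nat_eq_factorial, h2, h1] at h3
  have hG : 0 < Real.Gamma x := Real.Gamma_pos_of_pos hx0
  nlinarith [mul_nonneg hG.le (sub_nonneg.2 hx), mul_nonneg (mul_nonneg hG.le (sub_nonneg.2 hx)) hx0.le]

lemma norm_sin_le (z : ℂ) : ‖Complex.sin z‖ ≤ Real.exp ‖z‖ := by
  rw [Complex.sin]
  have h1 : ‖Complex.exp (-z * Complex.I)‖ ≤ Real.exp ‖z‖ := by
    refine (Complex.norm_exp_le_exp_norm _).trans (by simp)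
  have h2 : ‖Complex.exp (z * Complex.I)‖ ≤ Real.exp ‖z‖ := by
    refine (Complex.norm_exp_le_exp_norm _).trans (by simp)
  rw [norm_div, norm_mul, Complex.norm_I, mul_one]
  have h3 := norm_sub_le (Complex.exp (-z * Complex.I)) (Complex.exp (z * Complex.I))
  have h4 : ‖(2 : ℂ)‖ = 2 := by simp
  rw [h4, div_le_iff₀ (by norm_num)]
  linarith

lemma inv_Gamma_left : ∃ C : ℝ, 0 < C ∧ ∀ w : ℂ, w.re ≤ 1 / 2 →
    ‖(Complex.Gamma w)⁻¹‖ ≤ Real.exp (C * (1 + ‖w‖) ^ 2) := by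
  refine ⟨2 + 18 + π, by positivity, fun w hw => ?_⟩
  have hwn := norm_nonneg w
  have hrefl := Complex.Gamma_mul_Gamma_one_sub w
  have hre : (1 - w).re = 1 - w.re := by simp
  have hG1 : Complex.Gamma (1 - w) ≠ 0 := Complex.Gamma_ne_zero_of_re_pos (by rw [hre]; linarith)
  have hform : (Complex.Gamma w)⁻¹ = Complex.Gamma (1 - w) * Complex.sin (π * w) / π := by
    have hpi : (π : ℂ) ≠ 0 := by exact_mod_cast pi_ne_zero
    rcases eq_or_ne (Complex.sin (π * w)) 0 with hs | hs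
    · rw [hs, div_zero] at hrefl
      have : Complex.Gamma w = 0 := by
        rcases mul_eq_zero.1 hrefl with h | h
        · exact h
        · exact absurd h hG1
      rw [this, hs]; simp
    · have hGw : Complex.Gamma w ≠ 0 := by
        intro h0
        rw [h0, zero_mul] at hrefl
        exact div_ne_zero hpi hs hrefl.symm
      rw [eq_div_iff hs] at hrefl
      rw [inv_eq_one_div, div_eq_div_iff hGw hpi]
      linear_combination (-1 : ℂ) * hrefl
  rw [hform, norm_div, norm_mul]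
  have hπ : ‖(π : ℂ)‖ = π := by simp [abs_of_pos pi_pos]
  rw [hπ]
  have hre2 : |w.re| ≤ ‖w‖ := Complex.abs_re_le_norm w
  have hre3 : -w.re ≤ |w.re| := neg_le_abs _
  have hre4 : w.re ≤ |w.re| := le_abs_self _
  set N : ℕ := ⌈(1 - w.re) + 1⌉₊ with hN
  have hN1 : (1 - w.re) + 1 ≤ N := Nat.le_ceil _
  have hN2 : (N : ℝ) < (1 - w.re) + 1 + 1 := Nat.ceil_lt_add_one (by linarith)
  have hN0 : 1 ≤ N := by
    have : (1 : ℝ) ≤ N := by linarith
    exact_mod_cast this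
  have h1 : ‖Complex.Gamma (1 - w)‖ ≤ 2 * (N.factorial : ℝ) := by
    refine (Gamma_norm_le (by rw [hre]; linarith)).trans ?_
    rw [hre]
    exact real_Gamma_le (by linarith) hN1
  have h2 : (N.factorial : ℝ) ≤ Real.exp (2 * (N : ℝ) ^ 2) := by
    have := factorial_div_le one_pos hN0
    norm_num at this
    exact this
  have h3 : (N : ℝ) ≤ 3 * (1 + ‖w‖) := by linarith
  have h4 : ‖Complex.sin (π * w)‖ ≤ Real.exp (π * ‖w‖) := by
    refine (norm_sin_le _).trans ?_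
    rw [norm_mul, hπ]
  have h5 : (2 : ℝ) ≤ Real.exp 2 := by linarith [Real.add_one_le_exp (2 : ℝ)]
  have hpi1 : (1 : ℝ) ≤ π := by linarith [pi_gt_three]
  calc ‖Complex.Gamma (1 - w)‖ * ‖Complex.sin (π * w)‖ / π
      ≤ ‖Complex.Gamma (1 - w)‖ * ‖Complex.sin (π * w)‖ := by
        apply div_le_self (by positivity) hpi1
    _ ≤ (Real.exp 2 * Real.exp (2 * (N : ℝ) ^ 2)) * Real.exp (π * ‖w‖) := by
        gcongr
        refine h1.trans ?_
        gcongr
    _ = Real.exp (2 + 2 * (N : ℝ) ^ 2 + π * ‖w‖) := by rw [← Real.exp_add, ← Real.exp_add]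
    _ ≤ _ := by
      apply Real.exp_le_exp.2
      have h6 : (N : ℝ) ^ 2 ≤ (3 * (1 + ‖w‖)) ^ 2 := by gcongr
      have h7 : π * ‖w‖ ≤ π * (1 + ‖w‖) ^ 2 := by gcongr; nlinarith
      nlinarith

lemma inv_Gamma_nat (M : ℕ) : ∃ C : ℝ, 0 < C ∧ ∀ w : ℂ, w.re ≤ 1 / 2 + M →
    ‖(Complex.Gamma w)⁻¹‖ ≤ Real.exp (C * (1 + ‖w‖) ^ 2) := by
  induction M with
  | zero => simpa using inv_Gamma_left
  | succ M ih =>
    obtain ⟨C, hC, hb⟩ := ih
    obtain ⟨C0, hC0, hb0⟩ := inv_Gamma_left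
    obtain ⟨B, hB⟩ := (isCompact_closedBall (0 : ℂ) (M + 3)).exists_bound_of_continuousOn
      (f := fun w : ℂ => (Complex.Gamma w)⁻¹)
      Complex.differentiable_one_div_Gamma.continuous.continuousOn
    refine ⟨4 * C + C0 + |B|, by positivity, fun w hw => ?_⟩
    have hwn := norm_nonneg w
    have hw1 : 1 ≤ (1 + ‖w‖) ^ 2 := by nlinarith
    push_cast at hw
    rcases le_or_gt 1 |w.im| with him | him
    · have hne : w - 1 ≠ 0 := by
        intro h0
        have : w.im = 0 := by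
          have := congrArg Complex.im h0
          simpa using this
        rw [this] at him; norm_num at him
      have h1 : Complex.Gamma w = (w - 1) * Complex.Gamma (w - 1) := by
        have := Complex.Gamma_add_one (w - 1) hne
        rwa [sub_add_cancel] at this
      have h2 : 1 ≤ ‖w - 1‖ := by
        have : |(w - 1).im| ≤ ‖w - 1‖ := Complex.abs_im_le_norm _
        have e : (w - 1).im = w.im := by simp
        rw [e] at this; linarith
      have h3 := hb (w - 1) (by simp; linarith)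
      have h4 : ‖w - 1‖ ≤ ‖w‖ + 1 := by
        refine (norm_sub_le _ _).trans (by simp)
      rw [h1, mul_inv, norm_mul, norm_inv]
      calc ‖w - 1‖⁻¹ * ‖(Complex.Gamma (w - 1))⁻¹‖ ≤ 1 * Real.exp (C * (1 + ‖w - 1‖) ^ 2) := by
            gcongr
            exact inv_le_one_of_one_le₀ h2
        _ ≤ _ := by
          rw [one_mul]
          apply Real.exp_le_exp.2
          have h5 : (1 + ‖w - 1‖) ^ 2 ≤ (2 * (1 + ‖w‖)) ^ 2 := by
            gcongr; linarith
          have h6 : C * (1 + ‖w - 1‖) ^ 2 ≤ C * (2 * (1 + ‖w‖)) ^ 2 := by gcongr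
          nlinarith [mul_nonneg hC0.le (by positivity : 0 ≤ (1 + ‖w‖) ^ 2),
            mul_nonneg (abs_nonneg B) (by positivity : 0 ≤ (1 + ‖w‖) ^ 2)]
    · rcases le_or_gt w.re (1 / 2) with hre | hre
      · refine (hb0 w hre).trans (Real.exp_le_exp.2 ?_)
        gcongr
        linarith [abs_nonneg B]
      · have hmem : w ∈ Metric.closedBall (0 : ℂ) (M + 3) := by
          rw [mem_closedBall_zero_iff]
          have h1 := Complex.norm_le_abs_re_add_abs_im w
          have h2 : |w.re| = w.re := abs_of_pos (by linarith)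
          rw [h2] at h1
          linarith
        refine (hB w hmem).trans ?_
        have h1 : B ≤ |B| := le_abs_self B
        have h2 : |B| ≤ Real.exp |B| := by linarith [Real.add_one_le_exp |B|]
        refine (h1.trans h2).trans (Real.exp_le_exp.2 ?_)
        nlinarith [abs_nonneg B, mul_nonneg (abs_nonneg B) (sub_nonneg.2 hw1)]

lemma order_convert {g : ℂ → ℂ} {C : ℝ} (hC : 0 < C)
    (hb : ∀ w : ℂ, ‖g w‖ ≤ Real.exp (C * (1 + ‖w‖) ^ 2)) :
    ∃ ρ C : ℝ, ∀ s : ℂ, ‖g s‖ ≤ C * Real.exp (‖s‖ ^ ρ) := by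
  refine ⟨3, Real.exp (2 * C + (2 * C) ^ 3), fun s => ?_⟩
  have hx := norm_nonneg s
  set x := ‖s‖ with hxdef
  have e : x ^ (3 : ℝ) = x ^ 3 := by norm_cast
  rw [e, ← Real.exp_add]
  refine (hb s).trans (Real.exp_le_exp.2 ?_)
  have h1 : 2 * C * x ^ 2 ≤ x ^ 3 + (2 * C) ^ 3 := by
    rcases le_total x (2 * C) with h | h
    · have : 2 * C * x ^ 2 ≤ 2 * C * (2 * C) ^ 2 := by gcongr
      have h3 : 0 ≤ x ^ 3 := by positivity
      nlinarith
    · have : 2 * C * x ^ 2 ≤ x * x ^ 2 := by gcongr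
      have h3 : 0 ≤ (2 * C) ^ 3 := by positivity
      nlinarith
  nlinarith [mul_nonneg hC.le (sq_nonneg (x - 1))]

section

variable {k L : ℝ} (hk : 0 < k) (hL : 0 < L) {a : ℕ → ℝ} (ha : ∀ n, |a n| ≤ 1) (ha0 : a 0 = 0)
  (h : ∀ P ∈ Vodd k, ∑' n : ℕ, a n * phi k L P n = 0)

include hk hL ha ha0 h in
theorem FF_order : ∃ ρ C : ℝ, ∀ s : ℂ, ‖FF k L a s‖ ≤ C * Real.exp (‖s‖ ^ ρ) := by
  obtain ⟨C1, hC1, hb1⟩ := Lam_bound hk hL ha ha0 h
  obtain ⟨M, hM⟩ := exists_nat_ge (2 * k)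
  obtain ⟨C2, hC2, hb2⟩ := inv_Gamma_nat M
  set Z : ℝ := ∑' n : ℕ, ((n : ℝ) ^ (2 : ℝ))⁻¹ with hZ
  have hZs : Summable (fun n : ℕ => ((n : ℝ) ^ (2 : ℝ))⁻¹) :=
    Real.summable_nat_rpow_inv.2 (by norm_num)
  have hZ0 : 0 ≤ Z := tsum_nonneg fun n => by positivity
  refine order_convert (C := (|Real.log L| * k + C1 * (1 + k) ^ 2 + C2 * (1 + k) ^ 2) + Z + 1)
    (by positivity) (fun s => ?_)
  have hs0 := norm_nonneg s
  have hs1 : 1 ≤ (1 + ‖s‖) ^ 2 := by nlinarith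
  rcases le_or_gt s.re 2 with hre | hre
  · have hks : ‖(k : ℂ) * s‖ = k * ‖s‖ := by
      rw [norm_mul, Complex.norm_real, Real.norm_of_nonneg hk.le]
    have hkre : ((k : ℂ) * s).re ≤ 1 / 2 + M := by
      rw [Complex.re_ofReal_mul]; nlinarith
    have h1 : (1 + k * ‖s‖) ^ 2 ≤ ((1 + k) * (1 + ‖s‖)) ^ 2 := by
      gcongr; nlinarith
    have e1 : ‖Complex.exp ((Real.log L : ℝ) * (k * s))‖ ≤
        Real.exp (|Real.log L| * k * (1 + ‖s‖) ^ 2) := by
      refine (Complex.norm_exp_le_exp_norm _).trans (Real.exp_le_exp.2 ?_)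
      rw [norm_mul, hks, Complex.norm_real, Real.norm_eq_abs]
      have : ‖s‖ ≤ (1 + ‖s‖) ^ 2 := by nlinarith
      calc |Real.log L| * (k * ‖s‖) = |Real.log L| * k * ‖s‖ := by ring
        _ ≤ _ := by gcongr
    have e2 : ‖Lam k L a (k * s)‖ ≤ Real.exp (C1 * (1 + k) ^ 2 * (1 + ‖s‖) ^ 2) := by
      refine (hb1 _).trans (Real.exp_le_exp.2 ?_)
      rw [hks]
      calc C1 * (1 + k * ‖s‖) ^ 2 ≤ C1 * ((1 + k) * (1 + ‖s‖)) ^ 2 := by gcongr
        _ = _ := by ring
    have e3 : ‖(Complex.Gamma (k * s))⁻¹‖ ≤ Real.exp (C2 * (1 + k) ^ 2 * (1 + ‖s‖) ^ 2) := by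
      refine (hb2 _ hkre).trans (Real.exp_le_exp.2 ?_)
      rw [hks]
      calc C2 * (1 + k * ‖s‖) ^ 2 ≤ C2 * ((1 + k) * (1 + ‖s‖)) ^ 2 := by gcongr
        _ = _ := by ring
    rw [FF, norm_mul, norm_mul]
    calc _ ≤ Real.exp (|Real.log L| * k * (1 + ‖s‖) ^ 2) *
          Real.exp (C1 * (1 + k) ^ 2 * (1 + ‖s‖) ^ 2) *
          Real.exp (C2 * (1 + k) ^ 2 * (1 + ‖s‖) ^ 2) := by gcongr
      _ = Real.exp ((|Real.log L| * k + C1 * (1 + k) ^ 2 + C2 * (1 + k) ^ 2) * (1 + ‖s‖) ^ 2) := by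
        rw [← Real.exp_add, ← Real.exp_add]; congr 1; ring
      _ ≤ _ := by
        apply Real.exp_le_exp.2
        apply mul_le_mul_of_nonneg_right _ (by positivity)
        linarith
  · rw [FF_eq_LSeries hk hL ha ha0 (by linarith), LSeries]
    have hterm : ∀ n : ℕ, ‖LSeries.term (fun n => (a n : ℂ)) s n‖ ≤ ((n : ℝ) ^ (2 : ℝ))⁻¹ := by
      intro n
      rcases eq_or_ne n 0 with rfl | hn
      · simp
      · have hn1 : (1 : ℝ) ≤ n := by exact_mod_cast Nat.one_le_iff_ne_zero.2 hn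
        rw [LSeries.norm_term_eq, if_neg hn, Complex.norm_real, Real.norm_eq_abs]
        calc |a n| / (n : ℝ) ^ s.re ≤ 1 / (n : ℝ) ^ (2 : ℝ) := by
              gcongr
              exact ha n
          _ = _ := one_div _
    have h1 : ‖∑' n : ℕ, LSeries.term (fun n => (a n : ℂ)) s n‖ ≤ Z :=
      tsum_of_norm_bounded hZs.hasSum hterm
    refine h1.trans ?_
    have h2 : Z ≤ Real.exp Z := by linarith [Real.add_one_le_exp Z]
    refine h2.trans (Real.exp_le_exp.2 ?_)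
    have h3 : 0 ≤ |Real.log L| * k + C1 * (1 + k) ^ 2 + C2 * (1 + k) ^ 2 := by positivity
    nlinarith [mul_nonneg h3 (by positivity : 0 ≤ (1 + ‖s‖) ^ 2),
      mul_nonneg hZ0 (sub_nonneg.2 hs1)]

end

end A9

end Pool.Agent.Lib.MP_0bb3d8_nt
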