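import Mathlib

/-!
# Selberg class degree (MP_0bb3d8_nt): common definitions for Part A

`k = d/2 > 1`, `L > 0` small, `x = 2 L r^{1/k}`, `φ_P(r) = P(x) e^{-x/2}`.
-/

set_option autoImplicit false

open Real MeasureTheory Polynomial Set

namespace Pool.Agent.Lib.MP_0bb3d8_nt

/-- Monic Laguerre-type polynomials (parameter `k`, i.e. `α = k - 1`). -/
noncomputable def lag (k : ℝ) : ℕ → Polynomial ℝ
  | 0 => 1
  | 1 => X - C k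
  | (m + 2) => (X - C (2 * ((m : ℝ) + 1) + k)) * lag k (m + 1)
      - C (((m : ℝ) + 1) * ((m : ℝ) + k)) * lag k m

/-- The odd space: span of the `lag k m`, `m` odd. -/
noncomputable def Vodd (k : ℝ) : Submodule ℝ (Polynomial ℝ) :=
  Submodule.span ℝ {P | ∃ m : ℕ, Odd m ∧ P = lag k m}

/-- `φ_P(r) = P(x) e^{-x/2}`, `x = 2 L r^{1/k}`. -/
noncomputable def phi (k L : ℝ) (P : Polynomial ℝ) (r : ℝ) : ℝ :=
  P.eval (2 * L * r ^ (1 / k)) * Real.exp (-(L * r ^ (1 / k)))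

/-- The derivative of `phi k L P` (for `r > 0`). -/
noncomputable def phi' (k L : ℝ) (P : Polynomial ℝ) (r : ℝ) : ℝ :=
  (L / k) * r ^ (1 / k - 1) *
    ((2 * P.derivative - P).eval (2 * L * r ^ (1 / k)) * Real.exp (-(L * r ^ (1 / k))))

/-- The weight `ρ(r) = Σ_j 2^{j/2} (1+j)^{-4} u/(u+2^j)`, `u = r^{1/k}`. -/
noncomputable def rho (k : ℝ) (r : ℝ) : ℝ :=
  ∑' j : ℕ, ((2 : ℝ) ^ ((j : ℝ) / 2) / (1 + (j : ℝ)) ^ 4) *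
    (r ^ (1 / k) / (r ^ (1 / k) + (2 : ℝ) ^ (j : ℝ)))

/-- A `C^1` function on `(0,∞)` with rapid decay and the key inequality. -/
structure Good (k κ : ℝ) (f f' : ℝ → ℝ) : Prop where
  hasDeriv : ∀ r : ℝ, 0 < r → HasDerivAt f (f' r) r
  cont' : ContinuousOn f' (Ioi 0)
  decay : ∀ N : ℕ, ∃ C : ℝ, ∀ r : ℝ, 0 < r →
    |f r| ≤ C * (1 + r) ^ (-(N : ℝ)) ∧ |f' r| ≤ C * r ^ (1 / k - 1) * (1 + r) ^ (-(N : ℝ))
  ineq : ∫ r in Ioi (0 : ℝ), r ^ (2 - 1 / k) * rho k r * (f' r) ^ 2 ≤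
    (5 / 2) * κ ^ 2 * ∫ r in Ioi (0 : ℝ), r ^ (1 / k) * rho k r * (f r) ^ 2

/-- The square of the energy norm. -/
noncomputable def Nrm (k : ℝ) (f : ℝ → ℝ) : ℝ :=
  ∫ r in Ioi (0 : ℝ), r ^ (1 / k) * rho k r * (f r) ^ 2

/-- The output of Part B. -/
def PrimesOK (c c₁ C₁ X₀ : ℝ) : Prop :=
  0 < c ∧ c < 1 ∧ 0 < c₁ ∧ 1 ≤ X₀ ∧ ∀ x : ℝ, X₀ ≤ x →
    c₁ * x ^ (1 - c) ≤ ∑ p ∈ (Finset.Ioc ⌊x⌋₊ ⌊x + x ^ (1 - c)⌋₊).filter Nat.Prime, Real.log p ∧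
    ∑ p ∈ (Finset.Ioc ⌊x⌋₊ ⌊x + x ^ (1 - c)⌋₊).filter Nat.Prime, Real.log p ≤ C₁ * x ^ (1 - c)

/-- Prime weights. -/
noncomputable def W (k : ℝ) (p : ℕ) : ℝ := (p : ℝ) ^ (1 / k) * rho k p * Real.log p

/-- Coefficients of `exp (Σ_p b_p p^{-s})`: `a_b(n) = ∏_{p^e ∥ n} b_p^e / e!`, `a_b(0) = 0`. -/
noncomputable def coef (b : ℕ → ℝ) (n : ℕ) : ℝ :=
  if n = 0 then 0 else n.factorization.prod fun p e => b p ^ e / (e.factorial : ℝ)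

end Pool.Agent.Lib.MP_0bb3d8_nt
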