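import Pool.Agent.Lib.MP_0bb3d8_nt.Defs

/-! Alias file: the part A definitions live in `Defs.lean`. -/
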