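import Pool.Agent.Lib.MP_0bb3d8_nt.A3

/-!
# Basic analysis of good functions (used by A4, A5, A6)
-/

set_option autoImplicit false

open Real MeasureTheory Polynomial Set

namespace Pool.Agent.Lib.MP_0bb3d8_nt

/-- `ρ(r) ≤ C (1 + r)`. -/
lemma rho_le_add {k : ℝ} (hk : 1 < k) : ∃ C : ℝ, 0 < C ∧ ∀ r : ℝ, 0 < r → rho k r ≤ C * (1 + r) := by
  obtain ⟨_, C₁, _, hC₁, h₁⟩ := rho_bounds hk
  obtain ⟨_, C₂, _, hC₂, h₂⟩ := rho_small hk
  refine ⟨C₁ + C₂, by positivity, fun r hr => ?_⟩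
  rcases le_total r 1 with h | h
  · have h3 := (h₂ r hr h).2
    have h4 : r ^ (1 / k) ≤ 1 := Real.rpow_le_one hr.le h (by positivity)
    calc rho k r ≤ C₂ * r ^ (1 / k) := h3
      _ ≤ C₂ * 1 := mul_le_mul_of_nonneg_left h4 hC₂.le
      _ ≤ (C₁ + C₂) * (1 + r) := by nlinarith
  · have h3 := (h₁ r h).2
    have hlog : 0 ≤ Real.log r := Real.log_nonneg h
    have h4 : (1 + Real.log r) ^ (-(4 : ℝ)) ≤ 1 :=
      Real.rpow_le_one_of_one_le_of_nonpos (by linarith) (by norm_num)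
    have h4' : 0 ≤ (1 + Real.log r) ^ (-(4 : ℝ)) := by positivity
    have h5 : r ^ (1 / (2 * k)) ≤ r := by
      calc r ^ (1 / (2 * k)) ≤ r ^ (1 : ℝ) := by
            apply Real.rpow_le_rpow_of_exponent_le h
            rw [div_le_one (by positivity)]
            linarith
        _ = r := Real.rpow_one r
    have h5' : 0 ≤ r ^ (1 / (2 * k)) := by positivity
    calc rho k r ≤ C₁ * (r ^ (1 / (2 * k)) * (1 + Real.log r) ^ (-(4 : ℝ))) := h3
      _ ≤ C₁ * (r * 1) := by
          apply mul_le_mul_of_nonneg_left _ hC₁.le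
          exact mul_le_mul h5 h4 h4' (by linarith)
      _ ≤ (C₁ + C₂) * (1 + r) := by nlinarith

lemma rpow_inv_le {k r : ℝ} (hk : 1 < k) (hr : 0 < r) : r ^ (1 / k) ≤ 1 + r := by
  rcases le_total r 1 with h | h
  · have h4 : r ^ (1 / k) ≤ 1 := Real.rpow_le_one hr.le h (by positivity)
    linarith
  · have h5 : r ^ (1 / k) ≤ r := by
      calc r ^ (1 / k) ≤ r ^ (1 : ℝ) := by
            apply Real.rpow_le_rpow_of_exponent_le h
            rw [div_le_one (by positivity)]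
            linarith
        _ = r := Real.rpow_one r
    linarith

lemma integrable_majorant (C : ℝ) :
    IntegrableOn (fun r : ℝ => C * (1 + r) ^ (-(2 : ℝ))) (Ioi 0) := by
  have h1 : Integrable (fun r : ℝ => (1 + ‖r‖) ^ (-(2 : ℝ))) := by
    apply integrable_one_add_norm
    simp
  have h2 : IntegrableOn (fun r : ℝ => C * (1 + ‖r‖) ^ (-(2 : ℝ))) (Ioi 0) :=
    (h1.const_mul C).integrableOn
  refine h2.congr_fun ?_ measurableSet_Ioi
  intro r hr
  have hr' : 0 < r := hr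
  simp only [Real.norm_eq_abs, abs_of_pos hr']

section

variable {k κ : ℝ} {f f' : ℝ → ℝ}

lemma Good.contOn (h : Good k κ f f') : ContinuousOn f (Ioi 0) := fun r hr =>
  (h.hasDeriv r hr).continuousAt.continuousWithinAt

lemma contOn_rpow (a : ℝ) : ContinuousOn (fun r : ℝ => r ^ a) (Ioi 0) := fun r hr =>
  (Real.continuousAt_rpow_const r a (Or.inl (ne_of_gt hr))).continuousWithinAt

/-- continuity of the weight -/
lemma contOn_w (hk : 1 < k) (a : ℝ) : ContinuousOn (fun r : ℝ => r ^ a * rho k r) (Ioi 0) :=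
  (contOn_rpow a).mul (rho_cont hk)

lemma Good.integrable_f (hk : 1 < k) (h : Good k κ f f') :
    IntegrableOn (fun r => r ^ (1 / k) * rho k r * f r ^ 2) (Ioi 0) := by
  obtain ⟨C, hC, hρ⟩ := rho_le_add hk
  obtain ⟨D, hD⟩ := h.decay 2
  refine (integrable_majorant (C * D ^ 2)).mono'
    (((contOn_w hk _).mul (h.contOn.pow 2)).aestronglyMeasurable measurableSet_Ioi) ?_
  rw [ae_restrict_iff' measurableSet_Ioi]
  refine Filter.Eventually.of_forall fun r hr => ?_
  have hr' : 0 < r := hr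
  have hρ0 : 0 < rho k r := rho_pos hk hr'
  have h1 : 0 ≤ r ^ (1 / k) * rho k r := by positivity
  have hpow : (1 + r) ^ (-((2 : ℕ) : ℝ)) = ((1 + r) ^ 2)⁻¹ := by
    rw [Real.rpow_neg (by linarith), Real.rpow_natCast]
  have h2 : f r ^ 2 ≤ D ^ 2 * ((1 + r) ^ 2)⁻¹ ^ 2 := by
    have h3 := (hD r hr').1
    rw [hpow] at h3
    have h4 : f r ^ 2 = |f r| ^ 2 := (sq_abs _).symm
    rw [h4, ← mul_pow]
    exact pow_le_pow_left₀ (abs_nonneg _) h3 2
  rw [Real.norm_eq_abs, abs_of_nonneg (by positivity)]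
  have hm : r ^ (1 / k) * rho k r ≤ (1 + r) * (C * (1 + r)) :=
    mul_le_mul (rpow_inv_le hk hr') (hρ r hr') hρ0.le (by linarith)
  have hlast : (1 + r) ^ (-(2 : ℝ)) = ((1 + r) ^ 2)⁻¹ := by
    rw [Real.rpow_neg (by linarith)]
    norm_num
  rw [hlast]
  calc r ^ (1 / k) * rho k r * f r ^ 2 ≤ ((1 + r) * (C * (1 + r))) * (D ^ 2 * ((1 + r) ^ 2)⁻¹ ^ 2) :=
        mul_le_mul hm h2 (by positivity) (by positivity)
    _ = C * D ^ 2 * ((1 + r) ^ 2)⁻¹ := by
        have : (1 + r) ≠ 0 := by linarith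
        field_simp

lemma Good.integrable_f' (hk : 1 < k) (h : Good k κ f f') :
    IntegrableOn (fun r => r ^ (2 - 1 / k) * rho k r * f' r ^ 2) (Ioi 0) := by
  obtain ⟨C, hC, hρ⟩ := rho_le_add hk
  obtain ⟨D, hD⟩ := h.decay 2
  refine (integrable_majorant (C * D ^ 2)).mono'
    (((contOn_w hk _).mul (h.cont'.pow 2)).aestronglyMeasurable measurableSet_Ioi) ?_
  rw [ae_restrict_iff' measurableSet_Ioi]
  refine Filter.Eventually.of_forall fun r hr => ?_
  have hr' : 0 < r := hr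
  have hρ0 : 0 < rho k r := rho_pos hk hr'
  have hpow : (1 + r) ^ (-((2 : ℕ) : ℝ)) = ((1 + r) ^ 2)⁻¹ := by
    rw [Real.rpow_neg (by linarith), Real.rpow_natCast]
  have h2 : f' r ^ 2 ≤ (D * r ^ (1 / k - 1) * ((1 + r) ^ 2)⁻¹) ^ 2 := by
    have h3 := (hD r hr').2
    rw [hpow] at h3
    have h4 : f' r ^ 2 = |f' r| ^ 2 := (sq_abs _).symm
    rw [h4]
    exact pow_le_pow_left₀ (abs_nonneg _) h3 2
  rw [Real.norm_eq_abs, abs_of_nonneg (by positivity)]
  have hlast : (1 + r) ^ (-(2 : ℝ)) = ((1 + r) ^ 2)⁻¹ := by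
    rw [Real.rpow_neg (by linarith)]
    norm_num
  rw [hlast]
  have hpw : r ^ (2 - 1 / k) * (r ^ (1 / k - 1)) ^ 2 = r ^ (1 / k) := by
    rw [← Real.rpow_natCast, ← Real.rpow_mul hr'.le, ← Real.rpow_add hr']
    congr 1
    push_cast
    ring
  have hm : r ^ (1 / k) * rho k r ≤ (1 + r) * (C * (1 + r)) :=
    mul_le_mul (rpow_inv_le hk hr') (hρ r hr') hρ0.le (by linarith)
  calc r ^ (2 - 1 / k) * rho k r * f' r ^ 2
      ≤ r ^ (2 - 1 / k) * rho k r * (D * r ^ (1 / k - 1) * ((1 + r) ^ 2)⁻¹) ^ 2 :=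
        mul_le_mul_of_nonneg_left h2 (by positivity)
    _ = (r ^ (2 - 1 / k) * (r ^ (1 / k - 1)) ^ 2) * rho k r * (D ^ 2 * ((1 + r) ^ 2)⁻¹ ^ 2) := by
        ring
    _ = (r ^ (1 / k) * rho k r) * (D ^ 2 * ((1 + r) ^ 2)⁻¹ ^ 2) := by rw [hpw]
    _ ≤ ((1 + r) * (C * (1 + r))) * (D ^ 2 * ((1 + r) ^ 2)⁻¹ ^ 2) :=
        mul_le_mul_of_nonneg_right hm (by positivity)
    _ = C * D ^ 2 * ((1 + r) ^ 2)⁻¹ := by
        have : (1 + r) ≠ 0 := by linarith
        field_simp

lemma Nrm_nonneg (hk : 1 < k) (f : ℝ → ℝ) : 0 ≤ Nrm k f := by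
  unfold Nrm
  apply setIntegral_nonneg measurableSet_Ioi
  intro r hr
  have hr' : 0 < r := hr
  have hρ0 : 0 < rho k r := rho_pos hk hr'
  positivity

/-- weighted arithmetic-geometric mean -/
lemma cross_le (hk : 1 < k) {lam r a b : ℝ} (hl : 0 < lam) (hr : 0 < r) :
    r * rho k r * (|a| * |b|) ≤ (lam / 2) * (r ^ (1 / k) * rho k r * a ^ 2) +
      (1 / (2 * lam)) * (r ^ (2 - 1 / k) * rho k r * b ^ 2) := by
  have hρ0 : 0 < rho k r := rho_pos hk hr
  set s := r ^ (1 / (2 * k)) with hs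
  set t := r ^ (1 - 1 / (2 * k)) with ht
  have hs0 : 0 < s := by positivity
  have ht0 : 0 < t := by positivity
  have h1 : s ^ 2 = r ^ (1 / k) := by
    rw [hs, ← Real.rpow_natCast, ← Real.rpow_mul hr.le]
    congr 1
    push_cast
    field_simp
  have h2 : t ^ 2 = r ^ (2 - 1 / k) := by
    rw [ht, ← Real.rpow_natCast, ← Real.rpow_mul hr.le]
    congr 1
    push_cast
    field_simp
  have h3 : s * t = r := by
    rw [hs, ht, ← Real.rpow_add hr]
    have : 1 / (2 * k) + (1 - 1 / (2 * k)) = 1 := by ring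
    rw [this, Real.rpow_one]
  rw [← h1, ← h2]
  nth_rewrite 1 [← h3]
  have h4 : 0 ≤ (lam * (s * |a|) - t * |b|) ^ 2 := sq_nonneg _
  have h5 : (s * |a|) * (t * |b|) ≤ (lam / 2) * (s * |a|) ^ 2 + (1 / (2 * lam)) * (t * |b|) ^ 2 := by
    have h6 : (lam / 2) * (s * |a|) ^ 2 + (1 / (2 * lam)) * (t * |b|) ^ 2 - (s * |a|) * (t * |b|)
        = (1 / (2 * lam)) * (lam * (s * |a|) - t * |b|) ^ 2 := by
      field_simp
      ring
    have h7 : 0 ≤ (1 / (2 * lam)) * (lam * (s * |a|) - t * |b|) ^ 2 := by positivity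
    linarith
  have ha : |a| ^ 2 = a ^ 2 := sq_abs a
  have hb : |b| ^ 2 = b ^ 2 := sq_abs b
  calc s * t * rho k r * (|a| * |b|) = rho k r * ((s * |a|) * (t * |b|)) := by ring
    _ ≤ rho k r * ((lam / 2) * (s * |a|) ^ 2 + (1 / (2 * lam)) * (t * |b|) ^ 2) :=
        mul_le_mul_of_nonneg_left h5 hρ0.le
    _ = (lam / 2) * (s ^ 2 * rho k r * a ^ 2) + (1 / (2 * lam)) * (t ^ 2 * rho k r * b ^ 2) := by
        rw [mul_pow, mul_pow, ha, hb]; ring

lemma Good.integrable_cross (hk : 1 < k) (h : Good k κ f f') :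
    IntegrableOn (fun r => r * rho k r * (|f r| * |f' r|)) (Ioi 0) := by
  have h1 := ((h.integrable_f hk).const_mul (1 / 2)).add ((h.integrable_f' hk).const_mul (1 / 2))
  refine h1.mono' ?_ ?_
  · apply ContinuousOn.aestronglyMeasurable _ measurableSet_Ioi
    exact (continuousOn_id.mul (rho_cont hk)).mul (h.contOn.abs.mul h.cont'.abs)
  · rw [ae_restrict_iff' measurableSet_Ioi]
    refine Filter.Eventually.of_forall fun r hr => ?_
    have hr' : 0 < r := hr
    have hρ0 : 0 < rho k r := rho_pos hk hr'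
    rw [Real.norm_eq_abs, abs_of_nonneg (by positivity)]
    have := cross_le hk (lam := 1) (a := f r) (b := f' r) one_pos hr'
    simpa using this

/-- `∫ r ρ |f| |f'| ≤ 2 κ Nrm`. -/
lemma Good.cross_integral (hk : 1 < k) (h : Good k κ f f') (hκ : 0 < κ) :
    ∫ r in Ioi (0 : ℝ), r * rho k r * (|f r| * |f' r|) ≤ 2 * κ * Nrm k f := by
  have h1 : ∫ r in Ioi (0 : ℝ), r * rho k r * (|f r| * |f' r|) ≤
      ∫ r in Ioi (0 : ℝ), ((κ / 2) * (r ^ (1 / k) * rho k r * f r ^ 2) +
        (1 / (2 * κ)) * (r ^ (2 - 1 / k) * rho k r * f' r ^ 2)) := by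
    apply setIntegral_mono_on (h.integrable_cross hk) _ measurableSet_Ioi
    · intro r hr
      exact cross_le hk hκ hr
    · exact ((h.integrable_f hk).const_mul _).add ((h.integrable_f' hk).const_mul _)
  rw [integral_add ((h.integrable_f hk).const_mul _) ((h.integrable_f' hk).const_mul _),
    integral_const_mul, integral_const_mul] at h1
  have h2 := h.ineq
  have h3 : (1 / (2 * κ)) * ∫ r in Ioi (0 : ℝ), r ^ (2 - 1 / k) * rho k r * f' r ^ 2 ≤
      (1 / (2 * κ)) * ((5 / 2) * κ ^ 2 * Nrm k f) := by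
    apply mul_le_mul_of_nonneg_left _ (by positivity)
    exact h2
  have h4 : (1 / (2 * κ)) * ((5 / 2) * κ ^ 2 * Nrm k f) = (5 / 4) * κ * Nrm k f := by
    field_simp
    ring
  have hN := Nrm_nonneg hk f
  have h5 : 0 ≤ κ * Nrm k f := by positivity
  have h6 : ∫ r in Ioi (0 : ℝ), r ^ (1 / k) * rho k r * f r ^ 2 = Nrm k f := rfl
  rw [h6] at h1
  linarith

/-! ### The sampling inequality on an interval -/

lemma Good.sq_sub_le (h : Good k κ f f') {a b x t : ℝ} (ha : 0 < a) (hx : x ∈ Icc a b)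
    (ht : t ∈ Icc a b) : f x ^ 2 ≤ f t ^ 2 + 2 * ∫ s in a..b, |f s| * |f' s| := by
  have hab : a ≤ b := hx.1.trans hx.2
  have hsub : ∀ y ∈ Icc a b, (0 : ℝ) < y := fun y hy => ha.trans_le hy.1
  have hcont : ContinuousOn (fun s => |f s| * |f' s|) (Icc a b) :=
    ((h.contOn.mono hsub).abs).mul ((h.cont'.mono hsub).abs)
  have hderiv : ∀ s ∈ uIcc t x, HasDerivAt (fun s => f s ^ 2) (2 * f s * f' s) s := by
    intro s hs
    have hs' : s ∈ Icc a b := uIcc_subset_Icc ht hx hs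
    have := (h.hasDeriv s (hsub s hs')).fun_pow 2
    simpa using this
  have hint : IntervalIntegrable (fun s => 2 * f s * f' s) volume t x := by
    apply ContinuousOn.intervalIntegrable
    have hss : uIcc t x ⊆ Ioi 0 := fun s hs => hsub s (uIcc_subset_Icc ht hx hs)
    exact (continuousOn_const.mul (h.contOn.mono hss)).mul (h.cont'.mono hss)
  have hftc := intervalIntegral.integral_eq_sub_of_hasDerivAt hderiv hint
  have hI : IntervalIntegrable (fun s => |f s| * |f' s|) volume a b := by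
    apply ContinuousOn.intervalIntegrable
    rwa [uIcc_of_le hab]
  have hbd : |∫ s in t..x, 2 * f s * f' s| ≤ 2 * ∫ s in a..b, |f s| * |f' s| := by
    have h1 : |∫ s in t..x, 2 * f s * f' s| ≤ |∫ s in t..x, 2 * (|f s| * |f' s|)| := by
      have := intervalIntegral.norm_integral_le_abs_integral_norm (a := t) (b := x)
        (f := fun s => 2 * f s * f' s) (μ := volume)
      rw [Real.norm_eq_abs] at this
      refine this.trans (le_of_eq ?_)
      congr 1
      apply intervalIntegral.integral_congr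
      intro s _
      simp only [Real.norm_eq_abs, abs_mul, abs_two]
      ring
    have h2 : |∫ s in t..x, 2 * (|f s| * |f' s|)| ≤ |∫ s in a..b, 2 * (|f s| * |f' s|)| := by
      apply intervalIntegral.abs_integral_mono_interval
      · rw [uIoc_of_le hab]
        intro s hs
        rw [mem_uIoc] at hs
        rcases hs with hs | hs
        · exact ⟨ht.1.trans_lt hs.1, hs.2.trans hx.2⟩
        · exact ⟨hx.1.trans_lt hs.1, hs.2.trans ht.2⟩
      · exact Filter.Eventually.of_forall fun s => by positivity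
      · exact hI.const_mul 2
    have h3 : |∫ s in a..b, 2 * (|f s| * |f' s|)| = 2 * ∫ s in a..b, |f s| * |f' s| := by
      rw [intervalIntegral.integral_const_mul, abs_of_nonneg]
      apply mul_nonneg two_pos.le
      apply intervalIntegral.integral_nonneg hab
      intro s _; positivity
    linarith
  have h4 := abs_le.mp hbd
  linarith [h4.2]

/-- Key sampling inequality. -/
lemma Good.sample (h : Good k κ f f') {a b x : ℝ} (ha : 0 < a) (hab : a < b) (hx : x ∈ Icc a b) :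
    f x ^ 2 ≤ (b - a)⁻¹ * (∫ s in a..b, f s ^ 2) + 2 * ∫ s in a..b, |f s| * |f' s| := by
  have hsub : ∀ y ∈ Icc a b, (0 : ℝ) < y := fun y hy => ha.trans_le hy.1
  have hI2 : IntervalIntegrable (fun s => f s ^ 2) volume a b := by
    apply ContinuousOn.intervalIntegrable
    rw [uIcc_of_le hab.le]
    exact (h.contOn.mono hsub).pow 2
  set D := 2 * ∫ s in a..b, |f s| * |f' s| with hD
  have h1 : ∫ _s in a..b, f x ^ 2 ≤ ∫ s in a..b, (f s ^ 2 + D) := by
    apply intervalIntegral.integral_mono_on hab.le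
    · exact intervalIntegrable_const
    · exact hI2.add intervalIntegrable_const
    · intro t ht
      exact h.sq_sub_le ha hx ht
  rw [intervalIntegral.integral_const, intervalIntegral.integral_add hI2 intervalIntegrable_const,
    intervalIntegral.integral_const, smul_eq_mul, smul_eq_mul] at h1
  have hba : 0 < b - a := by linarith
  have h2 : f x ^ 2 = (b - a)⁻¹ * ((b - a) * f x ^ 2) := by field_simp
  rw [h2]
  calc (b - a)⁻¹ * ((b - a) * f x ^ 2) ≤ (b - a)⁻¹ * ((∫ s in a..b, f s ^ 2) + (b - a) * D) :=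
        mul_le_mul_of_nonneg_left h1 (by positivity)
    _ = (b - a)⁻¹ * (∫ s in a..b, f s ^ 2) + D := by field_simp

end

end Pool.Agent.Lib.MP_0bb3d8_nt
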