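import Mathlib
import Pool.Agent.Lib.MP_0bb3d8_nt.HohST
import Pool.Agent.Lib.MP_0bb3d8_nt.HohComb

/-!
Chebyshev lower bound for the long sum over primes.
-/

namespace Hoh

open Finset Real

lemma log_le_sqrt {x : ℝ} (hx0 : 0 < x) (hlogx : 100 ≤ Real.log x) :
    Real.log x + 3.6 ≤ Real.sqrt x / 1000 := by
  set u := Real.log x with hu
  have hxe : x = Real.exp u := (Real.exp_log hx0).symm
  have e2 : 2.7182818283 < Real.exp (1 : ℝ) := Real.exp_one_gt_d9
  have hs : Real.sqrt x = Real.exp (u / 2) := by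
    rw [hxe, Real.sqrt_eq_rpow, ← Real.exp_mul]; congr 1; ring
  rw [hs]
  have h9 : Real.exp (u / 2) = Real.exp (u / 8) ^ 4 := by
    rw [← Real.exp_nat_mul]; congr 1; push_cast; ring
  have h10 : u / 8 + 1 ≤ Real.exp (u / 8) := Real.add_one_le_exp _
  have h14 : Real.exp 12 ≤ Real.exp (u / 8) := Real.exp_le_exp.2 (by linarith)
  have h15 : (1000 : ℝ) ≤ Real.exp 12 := by
    have h16 : Real.exp 12 = Real.exp 1 ^ 12 := by
      rw [← Real.exp_nat_mul]; norm_num
    have h18 : (2.7182818283 : ℝ) ^ 12 ≤ Real.exp 1 ^ 12 := pow_le_pow_left₀ (by norm_num) e2.le 12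
    have h19 : (1000 : ℝ) ≤ (2.7182818283 : ℝ) ^ 12 := by norm_num
    rw [h16]; linarith
  have h20 : (1000 : ℝ) ^ 3 ≤ Real.exp (u / 8) ^ 3 :=
    pow_le_pow_left₀ (by norm_num) (h15.trans h14) 3
  have h21 : Real.exp (u / 8) ^ 4 = Real.exp (u / 8) ^ 3 * Real.exp (u / 8) := by ring
  rw [h9, h21]
  have h22 : (1000 : ℝ) ^ 3 * (u / 8 + 1) ≤ Real.exp (u / 8) ^ 3 * Real.exp (u / 8) :=
    mul_le_mul h20 h10 (by linarith) (by positivity)
  rw [le_div_iff₀ (by norm_num)]
  have h23 : (u + 3.6) * 1000 ≤ (1000 : ℝ) ^ 3 * (u / 8 + 1) := by norm_num; linarith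
  linarith

lemma theta_window {x : ℝ} (hx : Real.exp 100 ≤ x) :
    x ≤ ∑ p ∈ (Finset.Ioc ⌊x * Real.exp 0.4⌋₊ ⌊x * Real.exp 3.6⌋₊).filter Nat.Prime, Real.log p := by
  have hx0 : 0 < x := (Real.exp_pos _).trans_le hx
  set a := x * Real.exp 0.4 with ha
  set b := x * Real.exp 3.6 with hb
  have ha0 : 0 < a := by positivity
  have hb0 : 0 < b := by positivity
  have hab : a ≤ b := by
    apply mul_le_mul_of_nonneg_left _ hx0.le
    exact Real.exp_le_exp.2 (by norm_num)
  have h1 : Chebyshev.theta b - Chebyshev.theta a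
      = ∑ p ∈ (Finset.Ioc ⌊a⌋₊ ⌊b⌋₊).filter Nat.Prime, Real.log p := by
    rw [Chebyshev.theta_eq_sum_Icc, Chebyshev.theta_eq_sum_Icc]
    have hfl : ⌊a⌋₊ ≤ ⌊b⌋₊ := Nat.floor_mono hab
    have hun : (Finset.Icc 0 ⌊b⌋₊).filter Nat.Prime
        = (Finset.Icc 0 ⌊a⌋₊).filter Nat.Prime ∪ (Finset.Ioc ⌊a⌋₊ ⌊b⌋₊).filter Nat.Prime := by
      ext p
      simp only [Finset.mem_filter, Finset.mem_union, Finset.mem_Icc, Finset.mem_Ioc]
      constructor
      · rintro ⟨⟨_, h2⟩, h3⟩
        by_cases h : p ≤ ⌊a⌋₊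
        · exact Or.inl ⟨⟨Nat.zero_le _, h⟩, h3⟩
        · exact Or.inr ⟨⟨by omega, h2⟩, h3⟩
      · rintro (⟨⟨_, h2⟩, h3⟩ | ⟨⟨h1, h2⟩, h3⟩)
        · exact ⟨⟨Nat.zero_le _, h2.trans hfl⟩, h3⟩
        · exact ⟨⟨Nat.zero_le _, h2⟩, h3⟩
    rw [hun, Finset.sum_union]
    · ring
    · rw [Finset.disjoint_left]
      intro p h2 h3
      simp only [Finset.mem_filter, Finset.mem_Icc, Finset.mem_Ioc] at h2 h3
      omega
  rw [← h1]
  have hlogx : 100 ≤ Real.log x := by rw [Real.le_log_iff_exp_le hx0]; exact hx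
  have e1 : Real.exp (1 : ℝ) < 2.7182818286 := Real.exp_one_lt_d9
  have e2 : 2.7182818283 < Real.exp (1 : ℝ) := Real.exp_one_gt_d9
  have e04 : Real.exp 0.4 ≤ 2.72 := by
    have : Real.exp 0.4 ≤ Real.exp 1 := Real.exp_le_exp.2 (by norm_num)
    linarith
  have e36 : (20 : ℝ) ≤ Real.exp 3.6 := by
    have h3 : Real.exp 3 = Real.exp 1 ^ 3 := by rw [← Real.exp_nat_mul]; norm_num
    have h4 : Real.exp 3.6 = Real.exp 3 * Real.exp 0.6 := by rw [← Real.exp_add]; norm_num
    have h5 : (1.6 : ℝ) ≤ Real.exp 0.6 := by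
      have := Real.add_one_le_exp (0.6 : ℝ); linarith
    have h6 : (20 : ℝ) ≤ Real.exp 3 := by
      rw [h3]
      have : (2.7182818283 : ℝ) ^ 3 ≤ Real.exp 1 ^ 3 := pow_le_pow_left₀ (by norm_num) e2.le 3
      have h7 : (20 : ℝ) ≤ (2.7182818283 : ℝ) ^ 3 := by norm_num
      linarith
    rw [h4]; nlinarith
  have hb1 : 1 ≤ b := by
    have : (1 : ℝ) ≤ x := by
      have : (1 : ℝ) ≤ Real.exp 100 := Real.one_le_exp (by norm_num)
      linarith
    rw [hb]; nlinarith
  have h2 := Chebyshev.theta_ge' hb1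
  have h3 := Chebyshev.theta_le_log4_mul_x ha0.le
  have hl2 := Real.log_two_gt_d9
  have hl2' := Real.log_two_lt_d9
  have h4 : Real.log 4 = 2 * Real.log 2 := by
    rw [show (4 : ℝ) = 2 ^ 2 by norm_num, Real.log_pow]; norm_num
  -- errors
  have hlogb : Real.log b = Real.log x + 3.6 := by
    rw [hb, Real.log_mul hx0.ne' (Real.exp_pos _).ne', Real.log_exp]
  have hb40 : b ≤ 64 * x := by
    have : Real.exp 3.6 ≤ 64 := by
      have h5 : Real.exp 3.6 ≤ Real.exp 4 := Real.exp_le_exp.2 (by norm_num)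
      have h6 : Real.exp 4 = Real.exp 1 ^ 4 := by rw [← Real.exp_nat_mul]; norm_num
      have h7 : Real.exp 1 ^ 4 ≤ (2.7182818286 : ℝ) ^ 4 := pow_le_pow_left₀ (Real.exp_pos _).le e1.le 4
      have h8 : (2.7182818286 : ℝ) ^ 4 ≤ 64 := by norm_num
      linarith
    rw [hb]; nlinarith
  -- log x ≤ small * sqrt x
  have hlx : Real.log x + 3.6 ≤ Real.sqrt x / 1000 := log_le_sqrt hx0 hlogx
  have hsx : Real.sqrt x * Real.sqrt x = x := Real.mul_self_sqrt hx0.le
  have hs0 : 0 < Real.sqrt x := Real.sqrt_pos.2 hx0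
  have hsb : Real.sqrt b ≤ 8 * Real.sqrt x := by
    rw [show (8 : ℝ) = Real.sqrt 64 by rw [show (64 : ℝ) = 8 ^ 2 by norm_num]; exact (Real.sqrt_sq (by norm_num)).symm,
      ← Real.sqrt_mul (by norm_num)]
    exact Real.sqrt_le_sqrt hb40
  have herr : 2 * Real.sqrt b * Real.log b ≤ x / 10 := by
    rw [hlogb]
    calc 2 * Real.sqrt b * (Real.log x + 3.6) ≤ 2 * (8 * Real.sqrt x) * (Real.sqrt x / 1000) := by
          apply mul_le_mul _ hlx (by linarith) (by positivity)
          linarith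
      _ = 16 / 1000 * (Real.sqrt x * Real.sqrt x) := by ring
      _ ≤ x / 10 := by rw [hsx]; linarith
  have herr2 : Real.log (b + 2) ≤ x / 10 := by
    have h5 : Real.log (b + 2) ≤ Real.log b + 2 := by
      have h51 : Real.log b + 2 = Real.log (b * Real.exp 2) := by
        rw [Real.log_mul hb0.ne' (Real.exp_pos _).ne', Real.log_exp]
      rw [h51]
      apply Real.log_le_log (by linarith)
      have : (3 : ℝ) ≤ Real.exp 2 := by have := Real.add_one_le_exp (2 : ℝ); linarith
      nlinarith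
    have h60 : 100000 ≤ Real.sqrt x := by linarith
    have h6 : Real.sqrt x ≤ x := by
      calc Real.sqrt x ≤ Real.sqrt x * Real.sqrt x := by nlinarith
        _ = x := hsx
    rw [hlogb] at h5
    linarith
  have hba : a ≤ 2.72 * x := by rw [ha]; nlinarith
  have hb20 : 20 * x ≤ b := by rw [hb]; nlinarith
  rw [h4] at h3
  have hx1 : (1 : ℝ) ≤ x := (Real.one_le_exp (by norm_num)).trans hx
  have h30 : (b - 1) * Real.log 2 ≥ (20 * x - 1) * 0.6931471803 := by
    exact mul_le_mul (by linarith) hl2.le (by norm_num) (by linarith)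
  have h31 : 2 * Real.log 2 * a ≤ 2 * 0.6931471808 * (2.72 * x) := by
    apply mul_le_mul (by linarith) hba ha0.le (by norm_num)
  linarith

theorem cheb (φ : ℝ → ℝ) (hφ : Bump φ) :
    ∃ c x₀ : ℝ, 0 < c ∧ ∀ x : ℝ, x₀ ≤ x →
      c / Real.log x ≤ ST φ (1 / Real.log x) (1 / 4) x primeInd := by
  refine ⟨(1 / 8) * Real.exp (-8.6), Real.exp 100, by positivity, ?_⟩
  intro x hx
  have hx0 : 0 < x := (Real.exp_pos _).trans_le hx
  have hlogx : 100 ≤ Real.log x := by rw [Real.le_log_iff_exp_le hx0]; exact hx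
  have hth := theta_window hx
  set s := 1 / Real.log x with hs
  have hs0 : 0 ≤ s := by positivity
  have hs1 : s ≤ 1 := by rw [hs, div_le_one (by linarith)]; linarith
  set b := x * Real.exp 3.6 with hb
  have hb0 : 0 < b := by positivity
  have hlogb : Real.log b = Real.log x + 3.6 := by
    rw [hb, Real.log_mul hx0.ne' (Real.exp_pos _).ne', Real.log_exp]
  obtain ⟨N, hN⟩ := exists_nat_ge (x * Real.exp (1 / (1 / 4 : ℝ)))
  rw [ST_eq_sum' hφ (by norm_num) hx0 primeInd hN]
  have hbN : ⌊b⌋₊ ≤ N := by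
    have h1 : b ≤ N := by
      refine le_trans ?_ hN
      rw [hb]
      apply mul_le_mul_of_nonneg_left _ hx0.le
      apply Real.exp_le_exp.2; norm_num
    exact Nat.floor_le_of_le h1
  calc (1 / 8) * Real.exp (-8.6) / Real.log x
      ≤ ∑ p ∈ (Finset.Ioc ⌊x * Real.exp 0.4⌋₊ ⌊b⌋₊).filter Nat.Prime,
          Real.log p * ((1 / 8) * Real.exp (-8.6) / (x * Real.log x)) := by
        rw [← Finset.sum_mul]
        calc (1 / 8) * Real.exp (-8.6) / Real.log x
            = x * ((1 / 8) * Real.exp (-8.6) / (x * Real.log x)) := by field_simp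
          _ ≤ _ := mul_le_mul_of_nonneg_right hth (by positivity)
    _ ≤ ∑ p ∈ (Finset.Ioc ⌊x * Real.exp 0.4⌋₊ ⌊b⌋₊).filter Nat.Prime,
          primeInd p * (p : ℝ) ^ (-(1 + s)) * (1 / 4 * φ (1 / 4 * Real.log (p / x))) := by
        apply Finset.sum_le_sum
        intro p hp
        rw [Finset.mem_filter, Finset.mem_Ioc] at hp
        obtain ⟨⟨hp1, hp2⟩, hpp⟩ := hp
        have hp1' : x * Real.exp 0.4 < p := (Nat.floor_lt (by positivity)).1 hp1
        have hp2' : (p : ℝ) ≤ b := (Nat.le_floor_iff' hpp.ne_zero).1 hp2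
        have hp0 : (0 : ℝ) < p := by exact_mod_cast hpp.pos
        have hp1R : (1 : ℝ) ≤ p := by exact_mod_cast hpp.one_lt.le
        have hφ1 : φ (1 / 4 * Real.log (p / x)) = 1 := by
          rw [Real.log_div hp0.ne' hx0.ne']
          apply hφ.one
          · have := Real.log_le_log (by positivity) hp1'.le
            rw [Real.log_mul hx0.ne' (Real.exp_pos _).ne', Real.log_exp] at this
            linarith
          · have := Real.log_le_log hp0 hp2'
            rw [hlogb] at this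
            linarith
        rw [hφ1, primeInd_apply, if_pos hpp]
        have hlogp : Real.log p ≤ 2 * Real.log x := by
          have := Real.log_le_log hp0 hp2'
          rw [hlogb] at this
          linarith
        have hpow : Real.exp (-8.6) / x ≤ (p : ℝ) ^ (-(1 + s)) := by
          rw [Real.rpow_def_of_pos hp0]
          have h1 : Real.exp (-8.6) / x = Real.exp (-8.6 - Real.log x) := by
            rw [Real.exp_sub, Real.exp_log hx0]
          rw [h1]
          apply Real.exp_le_exp.2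
          have h2 := Real.log_le_log hp0 hp2'
          rw [hlogb] at h2
          have h3 : s * Real.log x = 1 := by rw [hs]; field_simp
          have h4 : Real.log p * (1 + s) ≤ (Real.log x + 3.6) * (1 + s) :=
            mul_le_mul_of_nonneg_right h2 (by linarith)
          have h5 : s ≤ 1 / 100 := by
            rw [hs]; exact one_div_le_one_div_of_le (by norm_num) hlogx
          nlinarith
        calc Real.log p * ((1 / 8) * Real.exp (-8.6) / (x * Real.log x))
            ≤ (2 * Real.log x) * ((1 / 8) * Real.exp (-8.6) / (x * Real.log x)) :=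
              mul_le_mul_of_nonneg_right hlogp (by positivity)
          _ = (1 / 4) * (Real.exp (-8.6) / x) := by
              have : Real.log x ≠ 0 := by positivity
              field_simp; norm_num
          _ ≤ (1 / 4) * (p : ℝ) ^ (-(1 + s)) := by linarith
          _ = 1 * (p : ℝ) ^ (-(1 + s)) * (1 / 4 * 1) := by ring
    _ ≤ ∑ n ∈ Finset.Icc 1 N,
          primeInd n * (n : ℝ) ^ (-(1 + s)) * (1 / 4 * φ (1 / 4 * Real.log (n / x))) := by
        apply Finset.sum_le_sum_of_subset_of_nonneg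
        · intro p hp
          rw [Finset.mem_filter, Finset.mem_Ioc] at hp
          rw [Finset.mem_Icc]
          exact ⟨hp.2.one_lt.le, hp.1.2.trans hbN⟩
        · intro n _ _
          have h1 := hφ.nonneg (1 / 4 * Real.log (n / x))
          have h2 : 0 ≤ primeInd n := by rw [primeInd_apply]; split_ifs <;> norm_num
          positivity

end Hoh
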