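import Pool.Agent.Lib.MP_0bb3d8_nt.HohST
import Pool.Agent.Lib.MP_0bb3d8_nt.HohComb

/-!
# The decomposition of the prime indicator (module M8)
-/

set_option autoImplicit false

namespace Hoh

open Finset Real

/-- Restriction of an arithmetic function to `n ≤ z`. -/
noncomputable def cutLo (z : ℝ) (a : ArithmeticFunction ℝ) : ArithmeticFunction ℝ :=
  ⟨fun n => if (n : ℝ) ≤ z then a n else 0, by simp⟩

/-- Restriction of an arithmetic function to `n > z`. -/
noncomputable def cutHi (z : ℝ) (a : ArithmeticFunction ℝ) : ArithmeticFunction ℝ :=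
  ⟨fun n => if (n : ℝ) ≤ z then 0 else a n, by simp⟩

theorem cutLo_apply (z : ℝ) (a : ArithmeticFunction ℝ) (n : ℕ) :
    cutLo z a n = if (n : ℝ) ≤ z then a n else 0 := rfl

theorem cutHi_apply (z : ℝ) (a : ArithmeticFunction ℝ) (n : ℕ) :
    cutHi z a n = if (n : ℝ) ≤ z then 0 else a n := rfl

theorem cut_add (z : ℝ) (a : ArithmeticFunction ℝ) : a = cutLo z a + cutHi z a := by
  ext n
  rw [ArithmeticFunction.add_apply, cutLo_apply, cutHi_apply]
  split_ifs <;> simp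

theorem mul_self_cut (z : ℝ) (a : ArithmeticFunction ℝ) :
    a * a = cutLo z a * a + cutLo z a * a - cutLo z a * cutLo z a + cutHi z a * cutHi z a := by
  have h := cut_add z a
  set l := cutLo z a
  set r := cutHi z a
  rw [h]
  ring

theorem ST_lo_lo {φ : ℝ → ℝ} (hφ : Bump φ) {s T x : ℝ} (hT : 0 < T) (hx : 0 < x)
    (a : ArithmeticFunction ℝ) :
    ST φ s T x (cutLo (Real.sqrt x) a * cutLo (Real.sqrt x) a) = 0 := by
  rw [← ST_zero (φ := φ) (s := s) (T := T) (X := x)]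
  apply ST_congr hφ hT hx
  intro n hn _
  rw [ArithmeticFunction.mul_apply, ArithmeticFunction.zero_apply]
  apply Finset.sum_eq_zero
  rintro ⟨u, v⟩ huv
  have huv' := (Nat.mem_divisorsAntidiagonal.mp huv).1
  simp only at huv' ⊢
  rw [cutLo_apply, cutLo_apply]
  by_cases hu : (u : ℝ) ≤ Real.sqrt x
  · by_cases hv : (v : ℝ) ≤ Real.sqrt x
    · exfalso
      have h1 : (n : ℝ) = u * v := by rw [← huv']; push_cast; ring
      have h2 : (u : ℝ) * v ≤ Real.sqrt x * Real.sqrt x := by gcongr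
      rw [Real.mul_self_sqrt hx.le] at h2
      linarith
    · rw [if_neg hv]; ring
  · rw [if_neg hu]; ring

theorem ST_mul_self {φ : ℝ → ℝ} (hφ : Bump φ) {s T x : ℝ} (hT : 0 < T) (hx : 0 < x)
    (a : ArithmeticFunction ℝ) :
    ST φ s T x (a * a) = 2 * ST φ s T x (cutLo (Real.sqrt x) a * a) +
      ST φ s T x (cutHi (Real.sqrt x) a * cutHi (Real.sqrt x) a) := by
  conv_lhs => rw [mul_self_cut (Real.sqrt x) a]
  rw [ST_add' hφ hT hx, ST_sub hφ hT hx, ST_add' hφ hT hx, ST_lo_lo hφ hT hx]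
  ring

theorem decomp {φ : ℝ → ℝ} (hφ : Bump φ) : ∃ C : ℝ, 0 < C ∧ ∀ (ε : ℝ) (G : ℝ → ℝ), Cut ε G →
    ∀ (L s T x : ℝ) (K : ℕ), 0 < L → 0 < s → s ≤ 1 → 1 / 4 ≤ T → 1 ≤ x → 2 ≤ K →
    (1 + ε) * L ≤ Real.log x / 2 → Real.log x + 1 / T ≤ (K + 1) * L →
    |ST φ s T x primeInd - (ST φ s T x (gg G L) -
        ST φ s T x (cutLo (Real.sqrt x) (g1 G L) * gg G L) +
        ∑ k ∈ Finset.Icc 2 K, (1 / (k.factorial : ℝ)) *
          ST φ s T x (cutLo (Real.sqrt x) (g1 G L) * g1 G L ^ k) -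
        ∑ k ∈ Finset.Icc 3 K, (1 / (k.factorial : ℝ)) * ST φ s T x (g1 G L ^ k))| ≤
      C * (1 / Real.exp L + T / x ^ (1 / 4 : ℝ)) *
        (1 + ∑ d ∈ Finset.Icc 1 ⌊Real.sqrt x⌋₊, cutLo (Real.sqrt x) (g1 G L) d / d) +
      |ST φ s T x (cutHi (Real.sqrt x) (g1 G L) * cutHi (Real.sqrt x) (g1 G L))| := by
  obtain ⟨C, hC, hcomb⟩ := comb_identity hφ
  refine ⟨C, hC, ?_⟩
  intro ε G hG L s T x K hL hs hs1 hT hx hK hlo hup
  have hT0 : 0 < T := by linarith
  have hx0 : 0 < x := by linarith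
  have hlx : 0 ≤ Real.log x := Real.log_nonneg hx
  set P := g1 G L with hP
  set l := cutLo (Real.sqrt x) P with hl
  set h := cutHi (Real.sqrt x) P with hh
  set M := ⌊Real.sqrt x⌋₊ with hM
  have hsx : 0 < Real.sqrt x := Real.sqrt_pos.mpr hx0
  -- quartic root
  have hq : Real.sqrt (Real.sqrt x) = x ^ (1 / 4 : ℝ) := by
    rw [Real.sqrt_eq_rpow, Real.sqrt_eq_rpow, ← Real.rpow_mul hx0.le]
    norm_num
  have hlM : ∀ n, M < n → l n = 0 := by
    intro n hn
    rw [hl, cutLo_apply, if_neg]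
    push Not
    exact (Nat.floor_lt hsx.le).mp hn
  have hP0 : ∀ n, 0 ≤ P n := by
    intro n
    rw [hP, g1_apply]
    split_ifs
    · exact hG.nonneg _
    · exact le_rfl
  have hl0 : ∀ n, 0 ≤ l n := by
    intro n
    rw [hl, cutLo_apply]
    split_ifs
    · exact hP0 n
    · exact le_rfl
  -- the error at a general place
  set e : ℝ → ℝ := fun X => ST φ s T X primeInd - ST φ s T X (gg G L) +
      ∑ k ∈ Finset.Icc 2 K, (1 / (k.factorial : ℝ)) * ST φ s T X (P ^ k) with he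
  have hebound : ∀ X, Real.sqrt x ≤ X → X ≤ x →
      |e X| ≤ C * (1 / Real.exp L + T / x ^ (1 / 4 : ℝ)) := by
    intro X h1 h2
    have hX1 : 1 ≤ X := le_trans (by rw [Real.one_le_sqrt]; exact hx) h1
    have hlogX : Real.log x / 2 ≤ Real.log X := by
      rw [← Real.log_sqrt hx0.le]
      exact Real.log_le_log hsx h1
    have hlogX2 : Real.log X ≤ Real.log x := Real.log_le_log (by linarith) h2
    refine (hcomb ε G hG L s T X K hL hs hs1 hT hX1 (by omega) (hlo.trans hlogX)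
      (by linarith)).trans ?_
    have : x ^ (1 / 4 : ℝ) ≤ Real.sqrt X := by
      rw [← hq]
      exact Real.sqrt_le_sqrt h1
    have hqpos : 0 < x ^ (1 / 4 : ℝ) := by positivity
    gcongr
  -- P = primeInd beyond sqrt x
  have hPprime : ∀ X, Real.sqrt x ≤ X → ST φ s T X P = ST φ s T X primeInd := by
    intro X hX
    have hX0 : 0 < X := lt_of_lt_of_le hsx hX
    apply ST_congr hφ hT0 hX0
    intro n hn _
    rw [hP, g1_apply, primeInd_apply]
    split_ifs with hp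
    · apply hG.one
      rw [le_div_iff₀ hL]
      refine hlo.trans ?_
      rw [← Real.log_sqrt hx0.le]
      exact Real.log_le_log hsx (hX.trans hn.le)
    · rfl
  -- convolution with l
  have hconv : ∀ a : ArithmeticFunction ℝ, ST φ s T x (l * a) =
      ∑ d ∈ Finset.Icc 1 M, l d * (d : ℝ) ^ (-(1 + s)) * ST φ s T (x / d) a :=
    fun a => ST_conv hφ hT0 hx0 l a M hlM
  have hXd : ∀ d ∈ Finset.Icc 1 M, Real.sqrt x ≤ x / d ∧ x / d ≤ x := by
    intro d hd
    rw [Finset.mem_Icc] at hd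
    have hd1 : (1 : ℝ) ≤ d := by exact_mod_cast hd.1
    have hd2 : (d : ℝ) ≤ Real.sqrt x := le_trans (by exact_mod_cast hd.2) (Nat.floor_le hsx.le)
    constructor
    · rw [le_div_iff₀ (by linarith)]
      calc Real.sqrt x * d ≤ Real.sqrt x * Real.sqrt x := by gcongr
        _ = x := Real.mul_self_sqrt hx0.le
    · exact div_le_self hx0.le hd1
  have hkey : ST φ s T x (l * P) = ST φ s T x (l * gg G L) -
      ∑ k ∈ Finset.Icc 2 K, (1 / (k.factorial : ℝ)) * ST φ s T x (l * P ^ k) +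
      ∑ d ∈ Finset.Icc 1 M, l d * (d : ℝ) ^ (-(1 + s)) * e (x / d) := by
    rw [hconv P, hconv (gg G L)]
    simp_rw [hconv (P ^ _), Finset.mul_sum]
    rw [Finset.sum_comm, ← Finset.sum_sub_distrib, ← Finset.sum_add_distrib]
    apply Finset.sum_congr rfl
    intro d hd
    rw [hPprime _ (hXd d hd).1]
    have : ∑ k ∈ Finset.Icc 2 K, 1 / (k.factorial : ℝ) *
        (l d * (d : ℝ) ^ (-(1 + s)) * ST φ s T (x / d) (P ^ k)) =
        l d * (d : ℝ) ^ (-(1 + s)) * ∑ k ∈ Finset.Icc 2 K, (1 / (k.factorial : ℝ)) *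
          ST φ s T (x / d) (P ^ k) := by
      rw [Finset.mul_sum]
      apply Finset.sum_congr rfl
      intro k _
      ring
    rw [this, he]
    ring
  have hkey2 : ST φ s T x (P ^ 2) = 2 * ST φ s T x (l * P) + ST φ s T x (h * h) := by
    rw [pow_two]
    exact ST_mul_self hφ hT0 hx0 P
  have hsplit : ∑ k ∈ Finset.Icc 2 K, (1 / (k.factorial : ℝ)) * ST φ s T x (P ^ k) =
      (1 / 2) * ST φ s T x (P ^ 2) +
        ∑ k ∈ Finset.Icc 3 K, (1 / (k.factorial : ℝ)) * ST φ s T x (P ^ k) := by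
    rw [← Finset.insert_Icc_add_one_left_eq_Icc hK, Finset.sum_insert (by simp)]
    norm_num [Nat.factorial]
  have hex : e x = ST φ s T x primeInd - ST φ s T x (gg G L) +
      ∑ k ∈ Finset.Icc 2 K, (1 / (k.factorial : ℝ)) * ST φ s T x (P ^ k) := rfl
  have htotal : ST φ s T x primeInd - (ST φ s T x (gg G L) - ST φ s T x (l * gg G L) +
        ∑ k ∈ Finset.Icc 2 K, (1 / (k.factorial : ℝ)) * ST φ s T x (l * P ^ k) -
        ∑ k ∈ Finset.Icc 3 K, (1 / (k.factorial : ℝ)) * ST φ s T x (P ^ k)) =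
      e x - ∑ d ∈ Finset.Icc 1 M, l d * (d : ℝ) ^ (-(1 + s)) * e (x / d) -
        (1 / 2) * ST φ s T x (h * h) := by
    rw [hex, hsplit, hkey2, hkey]
    ring
  rw [htotal]
  set B := C * (1 / Real.exp L + T / x ^ (1 / 4 : ℝ)) with hB
  have hB0 : 0 ≤ B := by positivity
  have h1 : |e x| ≤ B := hebound x (by
    rw [Real.sqrt_le_left (by linarith)]
    nlinarith) le_rfl
  have h2 : |∑ d ∈ Finset.Icc 1 M, l d * (d : ℝ) ^ (-(1 + s)) * e (x / d)| ≤
      B * ∑ d ∈ Finset.Icc 1 M, l d / d := by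
    refine (Finset.abs_sum_le_sum_abs _ _).trans ?_
    rw [Finset.mul_sum]
    apply Finset.sum_le_sum
    intro d hd
    have hd1 : (1 : ℝ) ≤ d := by exact_mod_cast (Finset.mem_Icc.mp hd).1
    have h3 := hebound (x / d) (hXd d hd).1 (hXd d hd).2
    have h4 : (d : ℝ) ^ (-(1 + s)) ≤ 1 / d := by
      rw [Real.rpow_neg (by positivity), one_div]
      apply inv_anti₀ (by positivity)
      calc (d : ℝ) = (d : ℝ) ^ (1 : ℝ) := (Real.rpow_one _).symm
        _ ≤ (d : ℝ) ^ (1 + s) := by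
          apply Real.rpow_le_rpow_of_exponent_le hd1 (by linarith)
    rw [abs_mul, abs_mul, abs_of_nonneg (hl0 d), abs_of_nonneg (by positivity :
      (0 : ℝ) ≤ (d : ℝ) ^ (-(1 + s)))]
    have hld := hl0 d
    calc l d * (d : ℝ) ^ (-(1 + s)) * |e (x / d)| ≤ l d * (1 / d) * B := by gcongr
      _ = B * (l d / d) := by ring
  have h5 : |(1 / 2 : ℝ) * ST φ s T x (h * h)| ≤ |ST φ s T x (h * h)| := by
    rw [abs_mul, abs_of_pos (by norm_num : (0 : ℝ) < 1 / 2)]
    have := abs_nonneg (ST φ s T x (h * h))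
    linarith
  have h6 := abs_sub (e x - ∑ d ∈ Finset.Icc 1 M, l d * (d : ℝ) ^ (-(1 + s)) * e (x / d))
    ((1 / 2) * ST φ s T x (h * h))
  have h7 := abs_sub (e x) (∑ d ∈ Finset.Icc 1 M, l d * (d : ℝ) ^ (-(1 + s)) * e (x / d))
  calc _ ≤ _ := h6
    _ ≤ B + B * ∑ d ∈ Finset.Icc 1 M, l d / d + |ST φ s T x (h * h)| := by linarith
    _ = _ := by ring

end Hoh
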