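import Pool.Agent.Lib.MP_0bb3d8_nt.HohDefs

/-!
# (F): sieve asymptotics for rough numbers in short intervals
-/

namespace Hoh

open Finset

/-- Comparison of a sum over multiples of `d` with an integral. -/
lemma sum_sub_integral (F : ℝ → ℝ) (A A' B : ℝ) (hA : 0 ≤ A) (hAA' : A ≤ A') (hB : 0 ≤ B)
    (hlip : ∀ a ∈ Set.Icc A A', ∀ b ∈ Set.Icc A A', |F b - F a| ≤ B * |b - a|)
    (hz : ∀ w, 0 ≤ w → (w ≤ A ∨ A' ≤ w) → F w = 0) (hcont : ContinuousOn F (Set.Ici 0))
    (d : ℕ) (hd : 1 ≤ d) (M : ℕ) (hM : A' ≤ d * M) :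
    |∑ m ∈ Finset.Icc 1 M, F (d * m) - (1 / d) * ∫ w in A..A', F w| ≤ B * (A' - A) := by
  set κ : ℝ → ℝ := fun w => max A (min w A') with hκ
  have hκmem : ∀ w, κ w ∈ Set.Icc A A' := by
    intro w
    refine ⟨le_max_left _ _, ?_⟩
    simp only [hκ]
    exact max_le hAA' (min_le_right _ _)
  have hκmono : Monotone κ := by
    intro a b hab
    simp only [hκ]
    exact max_le_max_left _ (min_le_min_right _ hab)
  have hFκ : ∀ w, 0 ≤ w → F w = F (κ w) := by
    intro w hw
    rcases le_total w A with h | h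
    · have h1 : κ w = A := by
        simp only [hκ]
        rw [min_eq_left (h.trans hAA'), max_eq_left h]
      rw [h1, hz w hw (Or.inl h), hz A hA (Or.inl le_rfl)]
    · rcases le_total w A' with h' | h'
      · have h1 : κ w = w := by
          simp only [hκ]
          rw [min_eq_left h', max_eq_right h]
        rw [h1]
      · have h1 : κ w = A' := by
          simp only [hκ]
          rw [min_eq_right h', max_eq_right hAA']
        rw [h1, hz w hw (Or.inr h'), hz A' (hA.trans hAA') (Or.inr le_rfl)]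
  have hdiff : ∀ a b, 0 ≤ a → a ≤ b → |F b - F a| ≤ B * (κ b - κ a) := by
    intro a b ha hab
    rw [hFκ a ha, hFκ b (ha.trans hab)]
    have := hlip _ (hκmem a) _ (hκmem b)
    rwa [abs_of_nonneg (sub_nonneg.mpr (hκmono hab))] at this
  have hd0 : (0 : ℝ) < d := by exact_mod_cast hd
  have hint : ∀ a b : ℝ, 0 ≤ a → 0 ≤ b → IntervalIntegrable F MeasureTheory.volume a b := by
    intro a b ha hb
    apply ContinuousOn.intervalIntegrable
    apply hcont.mono
    intro w hw
    rw [Set.mem_uIcc] at hw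
    rcases hw with h | h
    · exact ha.trans h.1
    · exact hb.trans h.1
  -- the integral over `[0, dM]`
  have hI : ∫ w in A..A', F w = ∫ w in (0 : ℝ)..(d * M : ℝ), F w := by
    have hdM : 0 ≤ (d * M : ℝ) := by positivity
    have e1 : ∫ w in (0 : ℝ)..A, F w = 0 := by
      rw [intervalIntegral.integral_congr (g := fun _ => (0 : ℝ))]
      · simp
      · intro w hw
        rw [Set.uIcc_of_le hA] at hw
        exact hz w hw.1 (Or.inl hw.2)
    have e2 : ∫ w in A'..(d * M : ℝ), F w = 0 := by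
      rw [intervalIntegral.integral_congr (g := fun _ => (0 : ℝ))]
      · simp
      · intro w hw
        rw [Set.uIcc_of_le hM] at hw
        exact hz w ((hA.trans hAA').trans hw.1) (Or.inr hw.1)
    rw [← intervalIntegral.integral_add_adjacent_intervals (hint 0 A le_rfl hA)
        (hint A (d * M) hA hdM), e1, zero_add,
      ← intervalIntegral.integral_add_adjacent_intervals (hint A A' hA (hA.trans hAA'))
        (hint A' (d * M) (hA.trans hAA') hdM), e2, add_zero]
  have hsum : ∑ m ∈ Finset.range M, ∫ w in (d * m : ℝ)..(d * (m + 1 : ℕ) : ℝ), F w =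
      ∫ w in (0 : ℝ)..(d * M : ℝ), F w := by
    have := intervalIntegral.sum_integral_adjacent_intervals (f := F) (μ := MeasureTheory.volume)
      (a := fun m : ℕ => (d * m : ℝ)) (n := M) (by
        intro k _
        exact hint _ _ (by positivity) (by positivity))
    simpa using this
  have hreindex : ∑ m ∈ Finset.Icc 1 M, F (d * m) = ∑ m ∈ Finset.range M, F (d * (m + 1 : ℕ)) := by
    rw [Finset.range_eq_Ico, Finset.sum_Ico_add' (fun m : ℕ => F (d * m)) 0 M 1, zero_add,
      Finset.Ico_add_one_right_eq_Icc]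
  have hterm : ∀ m ∈ Finset.range M,
      |d * F (d * (m + 1 : ℕ)) - ∫ w in (d * m : ℝ)..(d * (m + 1 : ℕ) : ℝ), F w| ≤
        d * (B * (κ (d * (m + 1 : ℕ)) - κ (d * m))) := by
    intro m _
    have h0 : (0 : ℝ) ≤ d * m := by positivity
    have hle : (d * m : ℝ) ≤ d * (m + 1 : ℕ) := by
      push_cast
      nlinarith
    have hc : d * F (d * (m + 1 : ℕ)) = ∫ w in (d * m : ℝ)..(d * (m + 1 : ℕ) : ℝ),
        F (d * (m + 1 : ℕ)) := by
      rw [intervalIntegral.integral_const, smul_eq_mul]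
      push_cast
      ring
    rw [hc, ← intervalIntegral.integral_sub (by simp) (hint _ _ h0 (h0.trans hle))]
    have := intervalIntegral.norm_integral_le_of_norm_le_const
      (a := (d * m : ℝ)) (b := (d * (m + 1 : ℕ) : ℝ))
      (f := fun w => F (d * (m + 1 : ℕ)) - F w)
      (C := B * (κ (d * (m + 1 : ℕ)) - κ (d * m))) (by
        intro w hw
        rw [Set.uIoc_of_le hle] at hw
        rw [Real.norm_eq_abs]
        refine (hdiff w _ (h0.trans hw.1.le) hw.2).trans ?_
        have := hκmono hw.1.le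
        nlinarith)
    rw [Real.norm_eq_abs] at this
    refine this.trans (le_of_eq ?_)
    have : |(d * (m + 1 : ℕ) : ℝ) - d * m| = d := by
      rw [abs_of_nonneg (by linarith)]
      push_cast
      ring
    rw [this]
    ring
  have htot : |d * ∑ m ∈ Finset.range M, F (d * (m + 1 : ℕ)) - ∫ w in (0 : ℝ)..(d * M : ℝ), F w|
      ≤ d * (B * (A' - A)) := by
    rw [← hsum, Finset.mul_sum, ← Finset.sum_sub_distrib]
    refine (Finset.abs_sum_le_sum_abs _ _).trans ((Finset.sum_le_sum hterm).trans ?_)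
    rw [← Finset.mul_sum, ← Finset.mul_sum]
    have := Finset.sum_range_sub (fun m : ℕ => κ (d * m)) M
    rw [this]
    have h1 := (hκmem (d * M)).2
    have h2 := (hκmem (d * (0 : ℕ))).1
    have h3 : κ (d * M) - κ (d * (0 : ℕ)) ≤ A' - A := by linarith
    exact mul_le_mul_of_nonneg_left (mul_le_mul_of_nonneg_left h3 hB) hd0.le
  rw [hreindex, hI]
  have key : ∑ m ∈ Finset.range M, F (d * (m + 1 : ℕ)) - 1 / d * ∫ w in (0 : ℝ)..(d * M : ℝ), F w =
      (1 / d) * (d * ∑ m ∈ Finset.range M, F (d * (m + 1 : ℕ)) -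
        ∫ w in (0 : ℝ)..(d * M : ℝ), F w) := by
    field_simp
  rw [key, abs_mul, abs_of_pos (by positivity)]
  calc 1 / (d : ℝ) * _ ≤ 1 / d * (d * (B * (A' - A))) :=
        mul_le_mul_of_nonneg_left htot (by positivity)
    _ = B * (A' - A) := by field_simp

/-- The weight function. -/
noncomputable def Fw (φ : ℝ → ℝ) (s T X : ℝ) (w : ℝ) : ℝ :=
  w ^ (-(1 + s)) * (T * φ (T * Real.log (w / X)))

section
variable {φ : ℝ → ℝ} (hφ : Bump φ) {s T X : ℝ}

include hφ

lemma Bump.deriv_bdd : ∃ M : ℝ, 0 ≤ M ∧ ∀ v, |deriv φ v| ≤ M := by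
  have hsupp : HasCompactSupport φ := by
    apply HasCompactSupport.intro (isCompact_Icc (a := (0 : ℝ)) (b := 1))
    intro v hv
    apply hφ.zero
    by_contra hcon
    push Not at hcon
    exact hv ⟨by linarith [hcon.1], by linarith [hcon.2]⟩
  have hc : Continuous (deriv φ) := hφ.smooth.continuous_deriv (by norm_num)
  obtain ⟨M, hM⟩ := hsupp.deriv.exists_bound_of_continuous hc
  exact ⟨M, (norm_nonneg _).trans (hM 0), fun v => hM v⟩

lemma Fw_nonneg (hT : 0 < T) (w : ℝ) (hw : 0 ≤ w) : 0 ≤ Fw φ s T X w := by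
  unfold Fw
  have := hφ.nonneg (T * Real.log (w / X))
  positivity

lemma Fw_zero (hT : 0 < T) (hX : 0 < X) (w : ℝ) (hw : 0 ≤ w)
    (h : w ≤ X ∨ X * Real.exp (1 / T) ≤ w) : Fw φ s T X w = 0 := by
  unfold Fw
  rcases eq_or_lt_of_le hw with rfl | hw0
  · simp [hφ.zero 0 (by norm_num)]
  · rw [hφ.zero, mul_zero, mul_zero]
    rcases h with h | h
    · left
      have : Real.log (w / X) ≤ 0 := Real.log_nonpos (by positivity) (by rwa [div_le_one hX])
      nlinarith
    · right
      have : 1 / T ≤ Real.log (w / X) := by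
        rw [Real.le_log_iff_exp_le (by positivity), le_div_iff₀ hX]
        linarith
      have h2 : 1 ≤ T * Real.log (w / X) := by
        have := mul_le_mul_of_nonneg_left this hT.le
        rwa [mul_one_div_cancel hT.ne'] at this
      linarith

lemma Fw_hasDerivAt (hX : 0 < X) (w : ℝ) (hw : 0 < w) :
    HasDerivAt (Fw φ s T X) (-(1 + s) * w ^ (-(1 + s) - 1) * (T * φ (T * Real.log (w / X))) +
      w ^ (-(1 + s)) * (T * (deriv φ (T * Real.log (w / X)) * (T * (1 / w))))) w := by
  have h1 : HasDerivAt (fun w : ℝ => w ^ (-(1 + s))) (-(1 + s) * w ^ (-(1 + s) - 1)) w :=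
    Real.hasDerivAt_rpow_const (Or.inl hw.ne')
  have h2 : HasDerivAt (fun w : ℝ => Real.log (w / X)) (1 / w) w := by
    have h3 : HasDerivAt (fun w : ℝ => w / X) (1 / X) w := (hasDerivAt_id w).div_const X
    have h4 := h3.log (by positivity : w / X ≠ 0)
    refine h4.congr_deriv ?_
    field_simp
  have h5 : HasDerivAt φ (deriv φ (T * Real.log (w / X))) (T * Real.log (w / X)) :=
    ((hφ.smooth.differentiable (by simp)) _).hasDerivAt
  have h6 := (h5.comp w (h2.const_mul T)).const_mul T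
  exact h1.mul h6

lemma Fw_continuousOn (hT : 0 < T) (hX : 0 < X) : ContinuousOn (Fw φ s T X) (Set.Ici 0) := by
  intro w hw
  rcases eq_or_lt_of_le (show (0 : ℝ) ≤ w from hw) with rfl | hw0
  · have hev : ∀ᶠ u in nhdsWithin (0 : ℝ) (Set.Ici 0), Fw φ s T X u = (fun _ => (0 : ℝ)) u := by
      filter_upwards [self_mem_nhdsWithin,
        mem_nhdsWithin_of_mem_nhds (Iio_mem_nhds hX)] with u hu hu'
      exact Fw_zero hφ hT hX u hu (Or.inl (le_of_lt hu'))
    exact (continuousWithinAt_const).congr_of_eventuallyEq hev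
      (Fw_zero hφ hT hX 0 le_rfl (Or.inl hX.le))
  · exact (Fw_hasDerivAt hφ hX w hw0).continuousAt.continuousWithinAt

lemma Fw_lip (M : ℝ) (hM : ∀ v, |deriv φ v| ≤ M) (hs : 0 < s) (hs1 : s ≤ 1)
    (hT : 1 / 4 ≤ T) (hX : 1 ≤ X) :
    ∀ a ∈ Set.Icc X (X * Real.exp (1 / T)), ∀ b ∈ Set.Icc X (X * Real.exp (1 / T)),
      |Fw φ s T X b - Fw φ s T X a| ≤ ((8 + M) * T ^ 2 / X ^ 2) * |b - a| := by
  intro a ha b hb
  have hM0 : 0 ≤ M := (abs_nonneg _).trans (hM 0)
  have hT0 : 0 < T := by linarith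
  have hX0 : 0 < X := by linarith
  have := (convex_Icc X (X * Real.exp (1 / T))).norm_image_sub_le_of_norm_hasDerivWithin_le
    (f := Fw φ s T X) (C := (8 + M) * T ^ 2 / X ^ 2)
    (f' := fun w => (-(1 + s) * w ^ (-(1 + s) - 1) * (T * φ (T * Real.log (w / X))) +
      w ^ (-(1 + s)) * (T * (deriv φ (T * Real.log (w / X)) * (T * (1 / w))))))
    (fun w hw => (Fw_hasDerivAt hφ hX0 w (hX0.trans_le hw.1)).hasDerivWithinAt)
    (by
      intro w hw
      have hw0 : 0 < w := hX0.trans_le hw.1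
      have hw1 : 1 ≤ w := hX.trans hw.1
      have e1 : w ^ (-(1 + s) - 1) ≤ 1 / X ^ 2 := by
        calc w ^ (-(1 + s) - 1) ≤ w ^ (-2 : ℝ) :=
              Real.rpow_le_rpow_of_exponent_le hw1 (by linarith)
          _ = 1 / w ^ 2 := by
              rw [Real.rpow_neg hw0.le, one_div]
              norm_cast
          _ ≤ 1 / X ^ 2 := by
              apply one_div_le_one_div_of_le (by positivity)
              exact pow_le_pow_left₀ hX0.le hw.1 2
      have e2 : w ^ (-(1 + s)) * (1 / w) ≤ 1 / X ^ 2 := by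
        have : w ^ (-(1 + s)) * (1 / w) = w ^ (-(1 + s) - 1) := by
          rw [Real.rpow_sub hw0, Real.rpow_one]
          ring
        rw [this]
        exact e1
      have hp1 : 0 ≤ w ^ (-(1 + s) - 1) := by positivity
      have hp2 : 0 ≤ w ^ (-(1 + s)) * (1 / w) := by positivity
      rw [Real.norm_eq_abs]
      have t1 : |-(1 + s) * w ^ (-(1 + s) - 1) * (T * φ (T * Real.log (w / X)))| ≤
          2 * (1 / X ^ 2) * T := by
        rw [abs_mul, abs_mul, abs_neg, abs_of_pos (by linarith : 0 < 1 + s), abs_of_nonneg hp1,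
          abs_of_nonneg (mul_nonneg hT0.le (hφ.nonneg _))]
        have h1 : (1 + s) * w ^ (-(1 + s) - 1) ≤ 2 * (1 / X ^ 2) := by
          apply mul_le_mul (by linarith) e1 hp1 (by norm_num)
        have h2 : T * φ (T * Real.log (w / X)) ≤ T := by
          have := hφ.le_one (T * Real.log (w / X))
          nlinarith
        exact mul_le_mul h1 h2 (mul_nonneg hT0.le (hφ.nonneg _)) (by positivity)
      have t2 : |w ^ (-(1 + s)) * (T * (deriv φ (T * Real.log (w / X)) * (T * (1 / w))))| ≤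
          (1 / X ^ 2) * (T ^ 2 * M) := by
        have : w ^ (-(1 + s)) * (T * (deriv φ (T * Real.log (w / X)) * (T * (1 / w)))) =
            (w ^ (-(1 + s)) * (1 / w)) * (T ^ 2 * deriv φ (T * Real.log (w / X))) := by ring
        rw [this, abs_mul, abs_of_nonneg hp2, abs_mul, abs_of_nonneg (by positivity : 0 ≤ T ^ 2)]
        apply mul_le_mul e2 (mul_le_mul_of_nonneg_left (hM _) (by positivity)) (by positivity)
          (by positivity)
      refine (abs_add_le _ _).trans ((add_le_add t1 t2).trans ?_)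
      have h4 : T ≤ 4 * T ^ 2 := by nlinarith
      have hXX : 0 < 1 / X ^ 2 := by positivity
      calc 2 * (1 / X ^ 2) * T + 1 / X ^ 2 * (T ^ 2 * M) = (1 / X ^ 2) * (2 * T + T ^ 2 * M) := by
            ring
        _ ≤ (1 / X ^ 2) * (8 * T ^ 2 + T ^ 2 * M) := by
            apply mul_le_mul_of_nonneg_left _ hXX.le
            linarith
        _ = (8 + M) * T ^ 2 / X ^ 2 := by ring) ha hb
  simpa [Real.norm_eq_abs] using this

lemma Fw_integral (hT : 0 < T) (hX : 0 < X) :
    ∫ w in X..(X * Real.exp (1 / T)), Fw φ s T X w =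
      X ^ (-s) * ∫ v in (0 : ℝ)..1, Real.exp (-s * (v / T)) * φ v := by
  have hφc : Continuous φ := hφ.smooth.continuous
  have h := intervalIntegral.integral_comp_mul_deriv' (a := (0 : ℝ)) (b := 1)
    (f := fun v : ℝ => X * Real.exp (v / T)) (f' := fun v : ℝ => X * (Real.exp (v / T) * (1 / T)))
    (g := Fw φ s T X) (by
      intro v _
      have h1 : HasDerivAt (fun v : ℝ => v / T) (1 / T) v := (hasDerivAt_id v).div_const T
      exact (h1.exp).const_mul X) (by fun_prop) (by
      apply (Fw_continuousOn hφ hT hX).mono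
      rintro _ ⟨v, _, rfl⟩
      have : 0 < X * Real.exp (v / T) := by positivity
      exact this.le)
  simp only [zero_div, Real.exp_zero, mul_one] at h
  rw [← h, ← intervalIntegral.integral_const_mul]
  apply intervalIntegral.integral_congr
  intro v _
  simp only [Function.comp, Fw]
  have hpos : 0 < X * Real.exp (v / T) := by positivity
  have e1 : X * Real.exp (v / T) / X = Real.exp (v / T) := by field_simp
  rw [e1, Real.log_exp]
  have e2 : T * (v / T) = v := by field_simp
  rw [e2, Real.rpow_neg hpos.le, Real.rpow_add hpos, Real.rpow_one,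
    Real.mul_rpow hX.le (Real.exp_pos _).le, ← Real.exp_mul, Real.rpow_neg hX.le]
  have e3 : Real.exp (-s * (v / T)) = (Real.exp (v / T * s))⁻¹ := by
    rw [← Real.exp_neg]
    congr 1
    ring
  rw [e3]
  have hXs : X ^ s ≠ 0 := by positivity
  field_simp

lemma Bump.integral_eq : ∫ v, φ v = ∫ v in (0 : ℝ)..1, φ v := by
  rw [intervalIntegral.integral_of_le zero_le_one, ← MeasureTheory.integral_indicator measurableSet_Ioc]
  congr 1
  ext v
  by_cases hv : v ∈ Set.Ioc (0 : ℝ) 1
  · rw [Set.indicator_of_mem hv]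
  · rw [Set.indicator_of_notMem hv]
    apply hφ.zero
    by_contra hcon
    push Not at hcon
    exact hv ⟨by linarith [hcon.1], by linarith [hcon.2]⟩

lemma Fw_integral_bounds (hs : 0 < s) (hT : 1 / 4 ≤ T) (hX : 1 ≤ X) :
    0 ≤ ∫ w in X..(X * Real.exp (1 / T)), Fw φ s T X w ∧
    ∫ w in X..(X * Real.exp (1 / T)), Fw φ s T X w ≤ 1 ∧
    |(∫ w in X..(X * Real.exp (1 / T)), Fw φ s T X w) - X ^ (-s) * ∫ v, φ v| ≤ 4 * s := by
  have hT0 : 0 < T := by linarith
  have hX0 : 0 < X := by linarith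
  have hφc : Continuous φ := hφ.smooth.continuous
  rw [Fw_integral hφ hT0 hX0, Bump.integral_eq hφ]
  have hXs1 : X ^ (-s) ≤ 1 := Real.rpow_le_one_of_one_le_of_nonpos hX (by linarith)
  have hXs0 : 0 ≤ X ^ (-s) := by positivity
  have hexp : ∀ v ∈ Set.Icc (0 : ℝ) 1, Real.exp (-s * (v / T)) ≤ 1 := by
    intro v hv
    apply Real.exp_le_one_iff.mpr
    have : 0 ≤ s * (v / T) := by
      have := hv.1
      positivity
    linarith
  have hexp2 : ∀ v ∈ Set.Icc (0 : ℝ) 1, 1 - 4 * s ≤ Real.exp (-s * (v / T)) := by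
    intro v hv
    have h1 := Real.add_one_le_exp (-s * (v / T))
    have h2 : v / T ≤ 4 := by
      rw [div_le_iff₀ hT0]
      linarith [hv.2]
    nlinarith
  have hi0 : 0 ≤ ∫ v in (0 : ℝ)..1, Real.exp (-s * (v / T)) * φ v := by
    apply intervalIntegral.integral_nonneg zero_le_one
    intro v _
    exact mul_nonneg (Real.exp_pos _).le (hφ.nonneg v)
  have hi1 : ∫ v in (0 : ℝ)..1, Real.exp (-s * (v / T)) * φ v ≤ 1 := by
    calc ∫ v in (0 : ℝ)..1, Real.exp (-s * (v / T)) * φ v ≤ ∫ _ in (0 : ℝ)..1, (1 : ℝ) := by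
          apply intervalIntegral.integral_mono_on zero_le_one
          · exact (by fun_prop : Continuous _).intervalIntegrable _ _
          · simp
          · intro v hv
            calc _ ≤ 1 * 1 := mul_le_mul (hexp v hv) (hφ.le_one v) (hφ.nonneg v) zero_le_one
              _ = 1 := one_mul 1
      _ = 1 := by simp
  refine ⟨mul_nonneg hXs0 hi0, ?_, ?_⟩
  · calc _ ≤ 1 * 1 := mul_le_mul hXs1 hi1 hi0 zero_le_one
      _ = 1 := one_mul 1
  · rw [← mul_sub, abs_mul, abs_of_nonneg hXs0, ← intervalIntegral.integral_sub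
      ((by fun_prop : Continuous _).intervalIntegrable _ _) (hφc.intervalIntegrable _ _)]
    have h1 : ‖∫ v in (0 : ℝ)..1, (Real.exp (-s * (v / T)) * φ v - φ v)‖ ≤
        4 * s * |1 - 0| := by
      apply intervalIntegral.norm_integral_le_of_norm_le_const
      intro v hv
      rw [Set.uIoc_of_le zero_le_one] at hv
      have hv' : v ∈ Set.Icc (0 : ℝ) 1 := ⟨hv.1.le, hv.2⟩
      have e : Real.exp (-s * (v / T)) * φ v - φ v = -((1 - Real.exp (-s * (v / T))) * φ v) := by
        ring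
      rw [e, norm_neg, Real.norm_eq_abs, abs_of_nonneg (mul_nonneg (by linarith [hexp v hv'])
        (hφ.nonneg v))]
      calc _ ≤ (4 * s) * 1 := mul_le_mul (by linarith [hexp2 v hv']) (hφ.le_one v) (hφ.nonneg v)
            (by positivity)
        _ = 4 * s := mul_one _
    rw [Real.norm_eq_abs] at h1
    calc _ ≤ 1 * (4 * s * |1 - 0|) := mul_le_mul hXs1 h1 (abs_nonneg _) zero_le_one
      _ = 4 * s := by simp

/-- The sum of `F` over multiples of `d`. -/
lemma Fw_sum (M : ℝ) (hM : ∀ v, |deriv φ v| ≤ M) (hs : 0 < s) (hs1 : s ≤ 1)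
    (hT : 1 / 4 ≤ T) (hX : 1 ≤ X) (N : ℕ) (hN : X * Real.exp (1 / T) ≤ N) (d : ℕ) (hd : 1 ≤ d) :
    |∑ m ∈ Finset.Icc 1 N, Fw φ s T X (d * m) -
      (1 / d) * ∫ w in X..(X * Real.exp (1 / T)), Fw φ s T X w| ≤
      (8 + M) * Real.exp 4 * T / X := by
  have hT0 : 0 < T := by linarith
  have hX0 : 0 < X := by linarith
  have hM0 : 0 ≤ M := (abs_nonneg _).trans (hM 0)
  have hAA' : X ≤ X * Real.exp (1 / T) := by
    have : 1 ≤ Real.exp (1 / T) := Real.one_le_exp (by positivity)
    nlinarith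
  refine (sum_sub_integral (Fw φ s T X) X (X * Real.exp (1 / T)) ((8 + M) * T ^ 2 / X ^ 2)
    hX0.le hAA' (by positivity) (Fw_lip hφ M hM hs hs1 hT hX)
    (fun w hw h => Fw_zero hφ hT0 hX0 w hw h) (Fw_continuousOn hφ hT0 hX0) d hd N ?_).trans ?_
  · have h1 : (N : ℝ) ≤ d * N := by
      have : (1 : ℝ) ≤ d := by exact_mod_cast hd
      have : (0 : ℝ) ≤ N := by positivity
      nlinarith
    exact hN.trans h1
  · have h1 : Real.exp (1 / T) - 1 ≤ (1 / T) * Real.exp 4 := by
      have h2 := Real.add_one_le_exp (-(1 / T))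
      have h3 : Real.exp (1 / T) ≤ Real.exp 4 := by
        apply Real.exp_le_exp.mpr
        rw [div_le_iff₀ hT0]
        linarith
      have h4 : Real.exp (1 / T) * Real.exp (-(1 / T)) = 1 := by
        rw [← Real.exp_add]; simp
      have h5 : Real.exp (1 / T) - 1 ≤ (1 / T) * Real.exp (1 / T) := by
        have := Real.exp_pos (1 / T)
        nlinarith
      refine h5.trans ?_
      exact mul_le_mul_of_nonneg_left h3 (by positivity)
    calc (8 + M) * T ^ 2 / X ^ 2 * (X * Real.exp (1 / T) - X) =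
        (8 + M) * T ^ 2 / X * (Real.exp (1 / T) - 1) := by field_simp
      _ ≤ (8 + M) * T ^ 2 / X * ((1 / T) * Real.exp 4) := by
          apply mul_le_mul_of_nonneg_left h1
          positivity
      _ = (8 + M) * Real.exp 4 * T / X := by field_simp

end

/-- Summation over multiples. -/
lemma sum_divisor_swap (F : ℝ → ℝ) (N : ℕ) (hF : ∀ w : ℝ, (N : ℝ) < w → F w = 0) (D : ℝ)
    (l : ℕ → ℝ) (hl : ∀ d, l d ≠ 0 → 1 ≤ d ∧ (d : ℝ) ≤ D) :
    ∑ n ∈ Finset.Icc 1 N, F n * ∑ d ∈ n.divisors, l d =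
      ∑ d ∈ Finset.Icc 1 ⌊D⌋₊, l d * ∑ m ∈ Finset.Icc 1 N, F (d * m) := by
  have h1 : ∀ n ∈ Finset.Icc 1 N, F n * ∑ d ∈ n.divisors, l d =
      ∑ d ∈ Finset.Icc 1 ⌊D⌋₊, if d ∣ n then F n * l d else 0 := by
    intro n hn
    have hn1 : 1 ≤ n := (Finset.mem_Icc.mp hn).1
    rw [← Finset.sum_filter, ← Finset.mul_sum]
    congr 1
    rw [← Finset.sum_subset (s₁ := (n.divisors).filter (fun d => l d ≠ 0))
      (s₂ := n.divisors) (Finset.filter_subset _ _)]
    · apply Finset.sum_subset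
      · intro d hd
        rw [Finset.mem_filter, Nat.mem_divisors] at hd
        obtain ⟨hd1, hd2⟩ := hl d hd.2
        rw [Finset.mem_filter, Finset.mem_Icc]
        exact ⟨⟨hd1, Nat.le_floor hd2⟩, hd.1.1⟩
      · intro d hd hd'
        rw [Finset.mem_filter, Nat.mem_divisors] at hd'
        by_contra hne
        exact hd' ⟨⟨(Finset.mem_filter.mp hd).2, by omega⟩, hne⟩
    · intro d hd hd'
      by_contra hne
      exact hd' (Finset.mem_filter.mpr ⟨hd, hne⟩)
  rw [Finset.sum_congr rfl h1, Finset.sum_comm]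
  apply Finset.sum_congr rfl
  intro d hd
  have hd1 : 1 ≤ d := (Finset.mem_Icc.mp hd).1
  rw [← Finset.sum_filter, Finset.mul_sum]
  have h2 : ∑ m ∈ Finset.Icc 1 N, l d * F (d * m) =
      ∑ m ∈ (Finset.Icc 1 N).filter (fun m => d * m ≤ N), l d * F (d * m) := by
    symm
    apply Finset.sum_subset (Finset.filter_subset _ _)
    intro m hm hm'
    have : N < d * m := by
      by_contra hcon
      exact hm' (Finset.mem_filter.mpr ⟨hm, by omega⟩)
    rw [hF _ (by exact_mod_cast this), mul_zero]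
  rw [h2]
  symm
  apply Finset.sum_bij (fun m _ => d * m)
  · intro m hm
    rw [Finset.mem_filter, Finset.mem_Icc] at hm
    rw [Finset.mem_filter, Finset.mem_Icc]
    exact ⟨⟨Nat.mul_pos hd1 hm.1.1, hm.2⟩, dvd_mul_right _ _⟩
  · intro a _ b _ hab
    exact Nat.eq_of_mul_eq_mul_left hd1 hab
  · intro n hn
    rw [Finset.mem_filter, Finset.mem_Icc] at hn
    obtain ⟨⟨hn1, hnN⟩, m, rfl⟩ := hn
    have hm : 0 < m := Nat.pos_of_ne_zero (by rintro rfl; simp at hn1)
    refine ⟨m, ?_, rfl⟩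
    rw [Finset.mem_filter, Finset.mem_Icc]
    refine ⟨⟨hm, ?_⟩, hnN⟩
    calc m ≤ d * m := Nat.le_mul_of_pos_left m hd1
      _ ≤ N := hnN
  · intro m _
    push_cast
    ring

theorem fundAsymp (hFL : FundLemma) : FundAsymp := by
  obtain ⟨c, C₀, hc, hC₀, hFL⟩ := hFL
  intro φ hφ
  obtain ⟨M, hM0, hM⟩ := Bump.deriv_bdd hφ
  refine ⟨c, C₀ + 4 + (8 + M) * Real.exp 4, hc, by positivity, ?_⟩
  intro y D T X s hy hyD hT hX hs hs1
  have hT0 : 0 < T := by linarith
  have hX0 : 0 < X := by linarith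
  obtain ⟨lp, lm, hl1, hls, hln, hlp, hlm⟩ := hFL y D hy hyD
  set I := ∫ w in X..(X * Real.exp (1 / T)), Fw φ s T X w with hI
  set E := (8 + M) * Real.exp 4 * T / X with hE
  obtain ⟨hI0, hI1, hI2⟩ := Fw_integral_bounds hφ hs hT hX
  rw [← hI] at hI0 hI1 hI2
  have hE0 : 0 ≤ E := by positivity
  set N := ⌈X * Real.exp (1 / T)⌉₊ with hN
  have hNle : X * Real.exp (1 / T) ≤ N := Nat.le_ceil _
  have hFN : ∀ w : ℝ, (N : ℝ) < w → Fw φ s T X w = 0 := by
    intro w hw
    exact Fw_zero hφ hT0 hX0 w ((Nat.cast_nonneg N).trans hw.le) (Or.inr (hNle.trans hw.le))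
  have hV0 : 0 ≤ V y := by
    unfold V
    apply Finset.prod_nonneg
    intro p hp
    have hp1 : (1 : ℝ) ≤ p := by
      exact_mod_cast (Finset.mem_Icc.mp (Finset.mem_filter.mp hp).1).1
    have : 1 / (p : ℝ) ≤ 1 := by
      rw [div_le_one (by linarith)]
      exact hp1
    linarith
  have hV1 : V y ≤ 1 := by
    unfold V
    apply Finset.prod_le_one
    · intro p hp
      have hp1 : (1 : ℝ) ≤ p := by
        exact_mod_cast (Finset.mem_Icc.mp (Finset.mem_filter.mp hp).1).1
      have : 1 / (p : ℝ) ≤ 1 := by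
        rw [div_le_one (by linarith)]
        exact hp1
      linarith
    · intro p _
      have : 0 ≤ 1 / (p : ℝ) := by positivity
      linarith
  -- the sum as a finite sum
  have hST : ST φ s T X (rough y) = ∑ n ∈ Finset.Icc 1 N, Fw φ s T X n * rough y n := by
    unfold ST
    rw [tsum_eq_sum (s := Finset.Icc 1 N)]
    · apply Finset.sum_congr rfl
      intro n _
      unfold Fw
      ring
    · intro n hn
      rw [Finset.mem_Icc] at hn
      rcases Nat.eq_zero_or_pos n with rfl | hn0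
      · simp
      · have hnN : N < n := by
          by_contra hcon
          exact hn ⟨hn0, by omega⟩
        have := hFN n (by exact_mod_cast hnN)
        unfold Fw at this
        rw [mul_assoc, this, mul_zero]
  -- general estimate for the weights
  have hgen : ∀ l : ℕ → ℝ, (∀ d, |l d| ≤ 1) → (∀ d, l d ≠ 0 → 1 ≤ d ∧ (d : ℝ) ≤ D) →
      |∑ n ∈ Finset.Icc 1 N, Fw φ s T X n * ∑ d ∈ n.divisors, l d -
        I * ∑ d ∈ Finset.Icc 1 ⌊D⌋₊, l d / d| ≤ D * E := by
    intro l hl1 hls
    rw [sum_divisor_swap (Fw φ s T X) N hFN D l hls, Finset.mul_sum, ← Finset.sum_sub_distrib]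
    have h1 : ∀ d ∈ Finset.Icc 1 ⌊D⌋₊, |l d * ∑ m ∈ Finset.Icc 1 N, Fw φ s T X (d * m) -
        I * (l d / d)| ≤ E := by
      intro d hd
      have hd1 : 1 ≤ d := (Finset.mem_Icc.mp hd).1
      have h2 := Fw_sum hφ M hM hs hs1 hT hX N hNle d hd1
      have e : l d * ∑ m ∈ Finset.Icc 1 N, Fw φ s T X (d * m) - I * (l d / d) =
          l d * (∑ m ∈ Finset.Icc 1 N, Fw φ s T X (d * m) - (1 / d) * I) := by ring
      rw [e, abs_mul]
      calc _ ≤ 1 * E := mul_le_mul (hl1 d) h2 (abs_nonneg _) zero_le_one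
        _ = E := one_mul _
    refine (Finset.abs_sum_le_sum_abs _ _).trans ((Finset.sum_le_sum h1).trans ?_)
    rw [Finset.sum_const, Nat.card_Icc, nsmul_eq_mul]
    apply mul_le_mul_of_nonneg_right _ hE0
    simp only [Nat.add_sub_cancel]
    exact Nat.floor_le (by linarith)
  have hdens : ∀ S : ℝ, |S - V y| ≤ C₀ * Real.exp (-c * (Real.log D / Real.log y)) * V y →
      |I * S - V y * X ^ (-s) * ∫ v, φ v| ≤
        C₀ * Real.exp (-c * (Real.log D / Real.log y)) * V y + 4 * s * V y := by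
    intro S hS
    have e : I * S - V y * X ^ (-s) * ∫ v, φ v = I * (S - V y) +
        V y * (I - X ^ (-s) * ∫ v, φ v) := by ring
    rw [e]
    refine (abs_add_le _ _).trans (add_le_add ?_ ?_)
    · rw [abs_mul, abs_of_nonneg hI0]
      calc _ ≤ 1 * (C₀ * Real.exp (-c * (Real.log D / Real.log y)) * V y) :=
            mul_le_mul hI1 hS (abs_nonneg _) zero_le_one
        _ = _ := one_mul _
    · rw [abs_mul, abs_of_nonneg hV0, mul_comm]
      exact mul_le_mul_of_nonneg_right hI2 hV0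
  have hup : ST φ s T X (rough y) ≤
      ∑ n ∈ Finset.Icc 1 N, Fw φ s T X n * ∑ d ∈ n.divisors, lp d := by
    rw [hST]
    apply Finset.sum_le_sum
    intro n hn
    have hn1 : 1 ≤ n := (Finset.mem_Icc.mp hn).1
    exact mul_le_mul_of_nonneg_left (hln n (by omega)).2
      (Fw_nonneg hφ hT0 n (Nat.cast_nonneg n))
  have hlow : ∑ n ∈ Finset.Icc 1 N, Fw φ s T X n * ∑ d ∈ n.divisors, lm d ≤
      ST φ s T X (rough y) := by
    rw [hST]
    apply Finset.sum_le_sum
    intro n hn
    have hn1 : 1 ≤ n := (Finset.mem_Icc.mp hn).1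
    exact mul_le_mul_of_nonneg_left (hln n (by omega)).1
      (Fw_nonneg hφ hT0 n (Nat.cast_nonneg n))
  have hp := hgen lp (fun d => (hl1 d).1) (fun d hd => hls d (Or.inl hd))
  have hm := hgen lm (fun d => (hl1 d).2) (fun d hd => hls d (Or.inr hd))
  have hp2 := hdens _ hlp
  have hm2 := hdens _ hlm
  set e0 := Real.exp (-c * (Real.log D / Real.log y)) with he0
  have he0' : 0 ≤ e0 := (Real.exp_pos _).le
  have hDE : D * E = (8 + M) * Real.exp 4 * D * T / X := by
    rw [hE]; ring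
  have hfin : C₀ * e0 * V y + 4 * s * V y + D * E ≤
      (C₀ + 4 + (8 + M) * Real.exp 4) * (e0 + s) * V y +
        (C₀ + 4 + (8 + M) * Real.exp 4) * D * T / X := by
    rw [hDE]
    have hq : 0 ≤ (8 + M) * Real.exp 4 := by positivity
    have a1 : C₀ * e0 * V y + 4 * s * V y ≤ (C₀ + 4 + (8 + M) * Real.exp 4) * (e0 + s) * V y := by
      have h1 : 0 ≤ e0 * V y := mul_nonneg he0' hV0
      have h2 : 0 ≤ s * V y := mul_nonneg hs.le hV0
      nlinarith [mul_nonneg hC₀.le h2, mul_nonneg hq h1, mul_nonneg hq h2]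
    have a2 : (8 + M) * Real.exp 4 * D * T / X ≤
        (C₀ + 4 + (8 + M) * Real.exp 4) * D * T / X := by
      have hD0 : 0 < D := by linarith
      apply div_le_div_of_nonneg_right _ hX0.le
      apply mul_le_mul_of_nonneg_right _ hT0.le
      apply mul_le_mul_of_nonneg_right _ hD0.le
      linarith
    linarith
  rw [abs_le] at hp hm hp2 hm2 ⊢
  constructor
  · linarith [hm.1, hm2.1, hlow]
  · linarith [hp.2, hp2.2, hup]

end Hoh
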