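import Pool.Agent.Lib.MP_0bb3d8_nt.HohPerron

/-!
Module M5: pointwise bound for the prime Dirichlet series.
-/

namespace Hoh

open Complex MeasureTheory FourierTransform

variable {ε : ℝ} {G : ℝ → ℝ}

/-- Building blocks: `G^(i)(w) w^{-j} e^{-aw}`. -/
noncomputable def EE (G : ℝ → ℝ) (a : ℝ) (i j : ℕ) : ℝ → ℂ :=
  fun w => ((iteratedDeriv i G w * ((w⁻¹) ^ j * Real.exp (-a * w)) : ℝ) : ℂ)

lemma cut_iter_zero (hG : Cut ε G) (i : ℕ) {w : ℝ} (hw : w < 1) : iteratedDeriv i G w = 0 := by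
  have h : G =ᶠ[nhds w] fun _ => (0 : ℝ) := by
    filter_upwards [Iio_mem_nhds hw] with v hv
    exact hG.zero v (le_of_lt hv)
  rw [Filter.EventuallyEq.iteratedDeriv_eq i h, iteratedDeriv_const]
  simp

lemma EE_zero (hG : Cut ε G) {a : ℝ} {i j : ℕ} {w : ℝ} (hw : w < 1) : EE G a i j w = 0 := by
  unfold EE
  rw [cut_iter_zero hG i hw]
  simp

lemma cut_iter_bound (hG : Cut ε G) (i : ℕ) : ∃ C : ℝ, 0 ≤ C ∧ ∀ w, |iteratedDeriv i G w| ≤ C := by
  rcases Nat.eq_zero_or_pos i with rfl | hi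
  · refine ⟨1, zero_le_one, fun w => ?_⟩
    rw [iteratedDeriv_zero, abs_of_nonneg (hG.nonneg w)]
    exact hG.le_one w
  · have hc : Continuous (iteratedDeriv i G) := hG.smooth.continuous_iteratedDeriv i (by exact_mod_cast le_top)
    obtain ⟨C, hC⟩ := (isCompact_Icc (a := (1 : ℝ)) (b := 1 + ε)).exists_bound_of_continuousOn
      hc.continuousOn
    refine ⟨max C 0, le_max_right _ _, fun w => ?_⟩
    by_cases h1 : w < 1
    · rw [cut_iter_zero hG i h1, abs_zero]; exact le_max_right _ _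
    · by_cases h2 : w ≤ 1 + ε
      · exact (hC w ⟨not_lt.mp h1, h2⟩).trans (le_max_left _ _)
      · have h : G =ᶠ[nhds w] fun _ => (1 : ℝ) := by
          filter_upwards [Ioi_mem_nhds (not_le.mp h2)] with v hv
          exact hG.one v (le_of_lt hv)
        rw [Filter.EventuallyEq.iteratedDeriv_eq i h, iteratedDeriv_const, if_neg hi.ne', abs_zero]
        exact le_max_right _ _

lemma EE_hasDerivAt (hG : Cut ε G) (a : ℝ) (i j : ℕ) (w : ℝ) :
    HasDerivAt (EE G a i j)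
      (EE G a (i + 1) j w + ((-(j : ℂ)) * EE G a i (j + 1) w + (-(a : ℂ)) * EE G a i j w)) w := by
  by_cases hw : w < 1
  · rw [EE_zero hG hw, EE_zero hG hw, EE_zero hG hw]
    have h : EE G a i j =ᶠ[nhds w] fun _ => (0 : ℂ) := by
      filter_upwards [Iio_mem_nhds hw] with v hv
      exact EE_zero hG hv
    refine HasDerivAt.congr_of_eventuallyEq ?_ h
    simpa using hasDerivAt_const w (0 : ℂ)
  · have hw0 : w ≠ 0 := by linarith [not_lt.mp hw] |> fun h => (ne_of_gt h)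
    have h1 : HasDerivAt (iteratedDeriv i G) (iteratedDeriv (i + 1) G w) w := by
      rw [iteratedDeriv_succ]
      exact ((hG.smooth.differentiable_iteratedDeriv i (by exact_mod_cast WithTop.coe_lt_top _)) w).hasDerivAt
    have h2 : HasDerivAt (fun v : ℝ => (v⁻¹) ^ j) (-(j : ℝ) * (w⁻¹) ^ (j + 1)) w := by
      have h3 := (hasDerivAt_inv hw0).pow j
      refine h3.congr_deriv ?_
      rcases j with _ | j
      · simp
      · rw [Nat.add_sub_cancel, show (w ^ 2)⁻¹ = w⁻¹ * w⁻¹ by rw [sq, mul_inv]]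
        push_cast
        ring
    have h3 : HasDerivAt (fun v : ℝ => Real.exp (-a * v)) (-a * Real.exp (-a * w)) w := by
      have := ((hasDerivAt_id w).const_mul (-a)).exp
      simpa [mul_comm] using this
    have h4 := (h1.mul (h2.mul h3)).ofReal_comp
    refine h4.congr_deriv ?_
    unfold EE
    simp only [Pi.mul_apply]
    push_cast
    ring

lemma EE_integrable (hG : Cut ε G) {a : ℝ} (ha : 0 < a) (i j : ℕ) : Integrable (EE G a i j) := by
  obtain ⟨C, hC0, hC⟩ := cut_iter_bound hG i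
  have hcont : Continuous (EE G a i j) := by
    rw [continuous_iff_continuousAt]
    intro w
    exact (EE_hasDerivAt hG a i j w).continuousAt
  have hI : IntegrableOn (EE G a i j) (Set.Ioi 0) := by
    have h1 : IntegrableOn (fun w => C * Real.exp (-a * w)) (Set.Ioi 0) :=
      (exp_neg_integrableOn_Ioi 0 ha).const_mul C
    refine h1.mono' hcont.aestronglyMeasurable.restrict ?_
    refine (ae_restrict_iff' measurableSet_Ioi).mpr (Filter.Eventually.of_forall fun w hw => ?_)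
    by_cases h1 : w < 1
    · rw [EE_zero hG h1, norm_zero]; positivity
    · unfold EE
      rw [Complex.norm_real, Real.norm_eq_abs, abs_mul, abs_mul, abs_of_pos (Real.exp_pos _)]
      have h2 : |(w⁻¹) ^ j| ≤ 1 := by
        rw [abs_pow, abs_inv, abs_of_pos (by linarith [not_lt.mp h1] : (0 : ℝ) < w)]
        exact pow_le_one₀ (inv_nonneg.mpr (by linarith [not_lt.mp h1]))
          (inv_le_one_of_one_le₀ (not_lt.mp h1))
      calc |iteratedDeriv i G w| * (|(w⁻¹) ^ j| * Real.exp (-a * w))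
          ≤ C * (1 * Real.exp (-a * w)) := by
            gcongr
            exact hC w
        _ = C * Real.exp (-a * w) := by ring
  have hI2 : IntegrableOn (EE G a i j) (Set.Iic 0) := by
    refine (integrableOn_congr_fun (g := fun _ => (0 : ℂ)) (fun w hw => ?_) measurableSet_Iic).mpr
      integrableOn_zero
    exact EE_zero hG (lt_of_le_of_lt hw zero_lt_one)
  rw [← integrableOn_univ, ← Set.Iic_union_Ioi (a := (0 : ℝ))]
  exact hI2.union hI

/-- Span of the building blocks. -/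
noncomputable def SE (G : ℝ → ℝ) (a : ℝ) : Submodule ℂ (ℝ → ℂ) :=
  Submodule.span ℂ (Set.range fun p : ℕ × ℕ => EE G a p.1 p.2)

lemma EE_mem (G : ℝ → ℝ) (a : ℝ) (i j : ℕ) : EE G a i j ∈ SE G a :=
  Submodule.subset_span ⟨(i, j), rfl⟩

lemma SE_props (hG : Cut ε G) {a : ℝ} (ha : 0 < a) {f : ℝ → ℂ} (hf : f ∈ SE G a) :
    Differentiable ℝ f ∧ deriv f ∈ SE G a ∧ Integrable f := by
  unfold SE at hf
  induction hf using Submodule.span_induction with
  | mem f hf =>
    obtain ⟨⟨i, j⟩, rfl⟩ := hf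
    refine ⟨fun w => (EE_hasDerivAt hG a i j w).differentiableAt, ?_, EE_integrable hG ha i j⟩
    have : deriv (EE G a i j) = EE G a (i + 1) j + ((-(j : ℂ)) • EE G a i (j + 1) +
        (-(a : ℂ)) • EE G a i j) := by
      funext w
      rw [(EE_hasDerivAt hG a i j w).deriv]
      rfl
    simp only
    rw [this]
    exact Submodule.add_mem _ (EE_mem _ _ _ _) (Submodule.add_mem _
      (Submodule.smul_mem _ _ (EE_mem _ _ _ _)) (Submodule.smul_mem _ _ (EE_mem _ _ _ _)))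
  | zero =>
    refine ⟨differentiable_const 0, ?_, integrable_zero _ _ _⟩
    have : deriv (0 : ℝ → ℂ) = 0 := by
      funext w
      exact deriv_const w (0 : ℂ)
    rw [this]
    exact Submodule.zero_mem _
  | add f g _ _ hf hg =>
    refine ⟨hf.1.add hg.1, ?_, hf.2.2.add hg.2.2⟩
    have : deriv (f + g) = deriv f + deriv g := by
      funext w
      exact deriv_add (hf.1 w) (hg.1 w)
    rw [this]
    exact Submodule.add_mem _ hf.2.1 hg.2.1
  | smul c f _ hf =>
    refine ⟨hf.1.const_smul c, ?_, hf.2.2.smul c⟩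
    have : deriv (c • f) = c • deriv f := by
      funext w
      exact deriv_const_smul c (hf.1 w)
    rw [this]
    exact Submodule.smul_mem _ _ hf.2.1

lemma SE_iter (hG : Cut ε G) {a : ℝ} (ha : 0 < a) {f : ℝ → ℂ} (hf : f ∈ SE G a) (n : ℕ) :
    iteratedDeriv n f ∈ SE G a := by
  induction n with
  | zero => rw [iteratedDeriv_zero]; exact hf
  | succ n ih =>
    rw [iteratedDeriv_succ]
    exact (SE_props hG ha ih).2.1

lemma norm_fourier_le' (f : ℝ → ℂ) (w : ℝ) : ‖𝓕 f w‖ ≤ ∫ v, ‖f v‖ := by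
  rw [Real.fourier_real_eq_integral_exp_smul]
  refine (norm_integral_le_integral_norm _).trans (le_of_eq ?_)
  congr 1
  funext v
  rw [norm_smul, Complex.norm_exp_ofReal_mul_I, one_mul]

/-- Fourier representation of the weight, with a first moment. -/
lemma exists_kernel (hG : Cut ε G) {a : ℝ} (ha : 0 < a) :
    ∃ h : ℝ → ℂ, Integrable h ∧ Integrable (fun ξ => (1 + |ξ|) * ‖h ξ‖) ∧
      ∀ w : ℝ, ∫ ξ, h ξ * Complex.exp (2 * Real.pi * I * ξ * w) =
        ((G w * w⁻¹ * Real.exp (-a * w) : ℝ) : ℂ) := by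
  set f : ℝ → ℂ := EE G a 0 1 with hf
  have hfm : f ∈ SE G a := EE_mem _ _ _ _
  have hfi : ∀ n, Integrable (iteratedDeriv n f) := fun n => (SE_props hG ha (SE_iter hG ha hfm n)).2.2
  have hfd : ContDiff ℝ ((3 : ℕ∞) : WithTop ℕ∞) f :=
    contDiff_of_differentiable_iteratedDeriv fun m _ => (SE_props hG ha (SE_iter hG ha hfm m)).1
  have hfc : Continuous f := hfd.continuous
  have hfint : Integrable f := by simpa using hfi 0
  set A0 : ℝ := ∫ v, ‖f v‖ with hA0
  set A3 : ℝ := ∫ v, ‖iteratedDeriv 3 f v‖ with hA3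
  have hA0' : 0 ≤ A0 := integral_nonneg fun _ => norm_nonneg _
  have hA3' : 0 ≤ A3 := integral_nonneg fun _ => norm_nonneg _
  have hb0 : ∀ ξ, ‖𝓕 f ξ‖ ≤ A0 := fun ξ => norm_fourier_le' f ξ
  have hb3 : ∀ ξ : ℝ, |ξ| ^ 3 * ‖𝓕 f ξ‖ ≤ A3 := by
    intro ξ
    have h1 := norm_fourier_le' (iteratedDeriv 3 f) ξ
    rw [Real.fourier_iteratedDeriv (N := 3) (n := 3) hfd (fun n _ => hfi n) le_rfl] at h1
    rw [norm_smul, norm_pow] at h1
    have h2 : |ξ| ≤ ‖(2 * Real.pi * I * ξ : ℂ)‖ := by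
      rw [norm_mul, norm_mul, norm_mul, Complex.norm_I, Complex.norm_real, Complex.norm_real,
        Real.norm_eq_abs, Real.norm_eq_abs, abs_of_pos Real.pi_pos, mul_one]
      have h3 : (1 : ℝ) ≤ ‖(2 : ℂ)‖ * Real.pi := by
        rw [Complex.norm_ofNat]
        have := Real.pi_gt_three
        linarith
      nlinarith [abs_nonneg ξ]
    calc |ξ| ^ 3 * ‖𝓕 f ξ‖ ≤ ‖(2 * Real.pi * I * ξ : ℂ)‖ ^ 3 * ‖𝓕 f ξ‖ := by gcongr
      _ ≤ A3 := h1
  have hb : ∀ ξ : ℝ, (1 + |ξ|) * ‖𝓕 f ξ‖ ≤ (4 * (A0 + A3)) * (1 + ‖ξ‖) ^ (-(2 : ℝ)) := by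
    intro ξ
    have h1 : (1 + |ξ|) ^ 3 ≤ 4 * (1 + |ξ| ^ 3) := by
      have := abs_nonneg ξ
      nlinarith [mul_nonneg (add_nonneg zero_le_one this) (sq_nonneg (1 - |ξ|)),
        sq_nonneg (1 - |ξ|)]
    have h2 : (1 + |ξ|) ^ 3 * ‖𝓕 f ξ‖ ≤ 4 * (A0 + A3) := by
      calc (1 + |ξ|) ^ 3 * ‖𝓕 f ξ‖ ≤ 4 * (1 + |ξ| ^ 3) * ‖𝓕 f ξ‖ := by gcongr
        _ = 4 * (‖𝓕 f ξ‖ + |ξ| ^ 3 * ‖𝓕 f ξ‖) := by ring
        _ ≤ 4 * (A0 + A3) := by
          have := hb0 ξ
          have := hb3 ξ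
          linarith
    have hpos : 0 < 1 + |ξ| := by positivity
    rw [Real.rpow_neg (by positivity), Real.norm_eq_abs]
    have h3 : (1 + |ξ|) ^ (2 : ℝ) = (1 + |ξ|) ^ 2 := by
      rw [← Real.rpow_natCast]; norm_num
    rw [h3, ← div_eq_mul_inv, le_div_iff₀ (by positivity)]
    calc (1 + |ξ|) * ‖𝓕 f ξ‖ * (1 + |ξ|) ^ 2 = (1 + |ξ|) ^ 3 * ‖𝓕 f ξ‖ := by ring
      _ ≤ _ := h2
  have hcF : Continuous (𝓕 f) :=
    VectorFourier.fourierIntegral_continuous Real.continuous_fourierChar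
      (by exact continuous_inner) hfint
  have hI : Integrable (fun ξ : ℝ => (1 + |ξ|) * ‖𝓕 f ξ‖) := by
    have h1 : Integrable (fun ξ : ℝ => (4 * (A0 + A3)) * (1 + ‖ξ‖) ^ (-(2 : ℝ))) :=
      (integrable_one_add_norm (by simp)).const_mul _
    refine h1.mono' ?_ (Filter.Eventually.of_forall fun ξ => ?_)
    · exact (Continuous.mul (by fun_prop) hcF.norm).aestronglyMeasurable
    · rw [Real.norm_of_nonneg (by positivity)]
      exact hb ξ
  have hI0 : Integrable (𝓕 f) := by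
    refine hI.mono' hcF.aestronglyMeasurable (Filter.Eventually.of_forall fun ξ => ?_)
    have h1 := norm_nonneg (𝓕 f ξ)
    have h2 := abs_nonneg ξ
    nlinarith
  refine ⟨𝓕 f, hI0, hI, fun w => ?_⟩
  have h1 := congrFun (hfc.fourierInv_fourier_eq hfint hI0) w
  rw [Real.fourierInv_eq'] at h1
  have h2 : f w = ((G w * w⁻¹ * Real.exp (-a * w) : ℝ) : ℂ) := by
    rw [hf]
    unfold EE
    rw [iteratedDeriv_zero, pow_one]
    push_cast
    ring
  rw [← h2, ← h1]
  congr 1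
  funext ξ
  rw [smul_eq_mul, mul_comm]
  congr 2
  simp only [RCLike.inner_apply, conj_trivial]
  push_cast
  ring

end Hoh
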