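import Pool.Agent.Lib.MP_0bb3d8_nt.HohDefs

/-!
Modules M5' (Perron formula) and kernel bounds.
-/

namespace Hoh

open Complex MeasureTheory FourierTransform

/-- Interchange of an integral against a kernel and an `LSeries`. -/
lemma integral_kernel_LSeries (h : ℝ → ℂ) (hh : Integrable h) (a : ℕ → ℂ) (σ t c : ℝ)
    (ha : LSeriesSummable a (σ : ℂ)) :
    ∫ ξ : ℝ, h ξ * LSeries a (σ + ((t + c * ξ : ℝ) : ℂ) * I) =
      ∑' n, LSeries.term a (σ + t * I) n * ∫ ξ : ℝ, h ξ * Complex.exp (-(I * c * ξ * Real.log n)) := by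
  have hterm : ∀ (n : ℕ) (ξ : ℝ), LSeries.term a (σ + ((t + c * ξ : ℝ) : ℂ) * I) n =
      LSeries.term a (σ + t * I) n * Complex.exp (-(I * c * ξ * Real.log n)) := by
    intro n ξ
    rw [LSeries.term_def, LSeries.term_def]
    by_cases hn : n = 0
    · simp [hn]
    · rw [if_neg hn, if_neg hn]
      have hn' : (n : ℂ) ≠ 0 := by exact_mod_cast hn
      have h1 : (σ : ℂ) + ((t + c * ξ : ℝ) : ℂ) * I = (σ + t * I) + (I * c * ξ) := by
        push_cast; ring
      rw [h1, Complex.cpow_add _ _ hn']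
      have h2 : (n : ℂ) ^ (I * c * ξ) = Complex.exp (I * c * ξ * Real.log n) := by
        rw [Complex.cpow_def_of_ne_zero hn', ← Complex.natCast_log]
        congr 1
        ring
      rw [h2, Complex.exp_neg]
      field_simp
  have hexp : ∀ (n : ℕ) (ξ : ℝ), ‖Complex.exp (-(I * c * ξ * Real.log n))‖ = 1 := by
    intro n ξ
    have : -(I * c * ξ * Real.log n) = ((-(c * ξ * Real.log n) : ℝ) : ℂ) * I := by
      push_cast; ring
    rw [this, Complex.norm_exp_ofReal_mul_I]
  have hint : ∀ n : ℕ, Integrable (fun ξ : ℝ =>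
      h ξ * (LSeries.term a (σ + t * I) n * Complex.exp (-(I * c * ξ * Real.log n)))) := by
    intro n
    refine hh.mul_bdd (c := ‖LSeries.term a (σ + t * I) n‖) ?_ ?_
    · apply Continuous.aestronglyMeasurable
      fun_prop
    · refine Filter.Eventually.of_forall fun ξ => ?_
      rw [norm_mul, hexp, mul_one]
  have hnorm : ∀ n : ℕ, ∫ ξ : ℝ, ‖h ξ * (LSeries.term a (σ + t * I) n *
      Complex.exp (-(I * c * ξ * Real.log n)))‖ = ‖LSeries.term a (σ + t * I) n‖ * ∫ ξ, ‖h ξ‖ := by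
    intro n
    rw [← integral_const_mul]
    congr 1
    funext ξ
    rw [norm_mul, norm_mul, hexp, mul_one, mul_comm]
  have hsum : Summable (fun n : ℕ => ∫ ξ : ℝ, ‖h ξ * (LSeries.term a (σ + t * I) n *
      Complex.exp (-(I * c * ξ * Real.log n)))‖) := by
    simp only [hnorm]
    apply Summable.mul_right
    have h1 : ∀ n, ‖LSeries.term a (σ + t * I) n‖ = ‖LSeries.term a σ n‖ := by
      intro n
      rw [LSeries.norm_term_eq, LSeries.norm_term_eq]
      simp
    simp only [h1]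
    exact ha.norm
  have key := (hasSum_integral_of_summable_integral_norm hint hsum).tsum_eq
  have hL : ∀ ξ : ℝ, h ξ * LSeries a (σ + ((t + c * ξ : ℝ) : ℂ) * I) =
      ∑' n, h ξ * (LSeries.term a (σ + t * I) n * Complex.exp (-(I * c * ξ * Real.log n))) := by
    intro ξ
    rw [LSeries, ← tsum_mul_left]
    congr 1
    funext n
    rw [hterm]
  simp only [hL]
  rw [← key]
  congr 1
  funext n
  rw [← integral_const_mul]
  congr 1
  funext ξ
  ring

variable {φ : ℝ → ℝ}

/-- The bump as a Schwartz function. -/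
noncomputable def Bump.sch (h : Bump φ) : SchwartzMap ℝ ℂ :=
  HasCompactSupport.toSchwartzMap (f := fun v => (φ v : ℂ))
    (HasCompactSupport.intro (K := Set.Icc (1 / 20) (19 / 20)) isCompact_Icc (by
      intro x hx
      rw [Set.mem_Icc, not_and_or] at hx
      rw [h.zero x (by rcases hx with h | h <;> push Not at h; exacts [Or.inl h.le, Or.inr h.le])]
      simp))
    (Complex.ofRealCLM.contDiff.comp h.smooth)

lemma Bump.sch_apply (h : Bump φ) (v : ℝ) : h.sch v = (φ v : ℂ) := rfl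

lemma kern_eq (h : Bump φ) (t : ℝ) : Kern φ t = (𝓕 h.sch) (-(t / (2 * Real.pi))) := by
  rw [SchwartzMap.fourier_coe, Real.fourier_real_eq_integral_exp_smul]
  unfold Kern
  congr 1
  funext v
  rw [Bump.sch_apply, smul_eq_mul, mul_comm]
  congr 2
  have : (Real.pi : ℂ) ≠ 0 := by exact_mod_cast Real.pi_ne_zero
  push_cast
  field_simp

lemma kern_inversion (h : Bump φ) (v : ℝ) :
    ∫ u : ℝ, Kern φ u * Complex.exp (-(I * u * v)) = 2 * Real.pi * φ v := by
  have h1 : (𝓕⁻ (𝓕 (h.sch : ℝ → ℂ))) v = (φ v : ℂ) := by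
    have := (h.sch.continuous.fourierInv_fourier_eq h.sch.integrable
      (by rw [← SchwartzMap.fourier_coe]; exact (𝓕 h.sch).integrable))
    rw [this]
    rfl
  rw [Real.fourierInv_eq'] at h1
  have hpi : (Real.pi : ℝ) ≠ 0 := Real.pi_ne_zero
  have h2 := MeasureTheory.Measure.integral_comp_mul_left
    (fun u : ℝ => Kern φ u * Complex.exp (-(I * u * v))) (-(2 * Real.pi))
  have h3 : ∀ w : ℝ, Kern φ (-(2 * Real.pi) * w) * Complex.exp (-(I * ((-(2 * Real.pi) * w : ℝ) : ℂ) * v)) =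
      Complex.exp (((2 * Real.pi * inner ℝ w v : ℝ) : ℂ) * I) • (𝓕 (h.sch : ℝ → ℂ)) w := by
    intro w
    rw [kern_eq h, SchwartzMap.fourier_coe, smul_eq_mul, mul_comm]
    congr 1
    · congr 1
      simp only [RCLike.inner_apply, conj_trivial]
      push_cast
      ring
    · congr 1
      field_simp
  simp only [h3] at h2
  rw [h1] at h2
  have h4 : |(-(2 * Real.pi))⁻¹| = (2 * Real.pi)⁻¹ := by
    rw [abs_inv, abs_neg, abs_of_pos (by positivity)]
  rw [h4] at h2
  rw [h2, Complex.real_smul, ← mul_assoc]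
  have : (2 * Real.pi : ℂ) ≠ 0 := by
    have : (Real.pi : ℂ) ≠ 0 := by exact_mod_cast Real.pi_ne_zero
    simpa using this
  push_cast
  rw [mul_inv_cancel₀ this, one_mul]

theorem kernBound : KernBound := by
  intro φ h
  obtain ⟨C0, hC0, h0⟩ := (𝓕 h.sch).decay 0 0
  obtain ⟨C1, hC1, h1⟩ := (𝓕 h.sch).decay 6 0
  obtain ⟨C2, hC2, h2⟩ := (𝓕 h.sch).decay 0 1
  refine ⟨C0 + C1 * (2 * Real.pi) ^ 6 + C2, by positivity, ?_, ?_, ?_, ?_⟩
  · intro t
    rw [kern_eq h]
    have := h0 (-(t / (2 * Real.pi)))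
    rw [pow_zero, one_mul, norm_iteratedFDeriv_zero] at this
    have h3 : 0 ≤ C1 * (2 * Real.pi) ^ 6 := by positivity
    linarith
  · intro t
    rw [kern_eq h]
    have := h1 (-(t / (2 * Real.pi)))
    rw [norm_iteratedFDeriv_zero, norm_neg, norm_div, Real.norm_eq_abs, Real.norm_eq_abs,
      abs_of_pos (by positivity : (0 : ℝ) < 2 * Real.pi), div_pow] at this
    have h3 : ‖(𝓕 h.sch) (-(t / (2 * Real.pi)))‖ * |t| ^ 6 ≤ C1 * (2 * Real.pi) ^ 6 := by
      rw [div_mul_eq_mul_div, div_le_iff₀ (by positivity), mul_comm] at this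
      exact this
    linarith
  · intro t t'
    rw [kern_eq h, kern_eq h]
    set g : SchwartzMap ℝ ℂ := 𝓕 h.sch with hg
    have hd : ∀ x, ‖deriv g x‖ ≤ C2 := by
      intro x
      have := h2 x
      rw [pow_zero, one_mul, norm_iteratedFDeriv_one] at this
      rw [← norm_deriv_eq_norm_fderiv] at this
      exact this
    have h3 := Convex.norm_image_sub_le_of_norm_deriv_le (f := (g : ℝ → ℂ)) (C := C2)
      (s := Set.univ) (fun x _ => g.differentiableAt) (fun x _ => hd x) convex_univ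
      (Set.mem_univ (-(t' / (2 * Real.pi)))) (Set.mem_univ (-(t / (2 * Real.pi))))
    refine h3.trans ?_
    have h4 : ‖-(t / (2 * Real.pi)) - -(t' / (2 * Real.pi))‖ ≤ |t - t'| := by
      rw [show -(t / (2 * Real.pi)) - -(t' / (2 * Real.pi)) = -((t - t') / (2 * Real.pi)) by ring,
        norm_neg, norm_div, Real.norm_eq_abs, Real.norm_eq_abs,
        abs_of_pos (by positivity : (0 : ℝ) < 2 * Real.pi)]
      apply div_le_self (abs_nonneg _)
      have := Real.pi_gt_three
      linarith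
    have h5 : 0 ≤ C0 + C1 * (2 * Real.pi) ^ 6 := by positivity
    calc C2 * ‖-(t / (2 * Real.pi)) - -(t' / (2 * Real.pi))‖ ≤ C2 * |t - t'| := by gcongr
      _ ≤ _ := by gcongr; linarith
  · have : Kern φ = fun t => (𝓕 h.sch) (-(t / (2 * Real.pi))) := funext (kern_eq h)
    rw [this]
    exact (𝓕 h.sch).continuous.comp (by fun_prop)

lemma kern_integrable (h : Bump φ) : Integrable (Kern φ) := by
  have : Kern φ = fun t => (𝓕 h.sch) ((-(2 * Real.pi)⁻¹) * t) := by
    funext t
    rw [kern_eq h]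
    congr 1
    field_simp
  rw [this]
  exact ((𝓕 h.sch).integrable).comp_mul_left' (by
    have := Real.pi_ne_zero
    simp [this])

theorem perron : Perron := by
  intro φ h s T X hs hT hX a ha
  set h0 : ℝ → ℂ := fun t => Kern φ (t / T) * Complex.exp (I * t * Real.log X) with hh0
  have hint : Integrable h0 := by
    refine Integrable.mul_bdd (c := 1) ?_ ?_ ?_
    · exact (kern_integrable h).comp_div hT.ne'
    · apply Continuous.aestronglyMeasurable
      fun_prop
    · refine Filter.Eventually.of_forall fun ξ => ?_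
      have : I * ξ * Real.log X = ((ξ * Real.log X : ℝ) : ℂ) * I := by push_cast; ring
      rw [this, Complex.norm_exp_ofReal_mul_I]
  have key := integral_kernel_LSeries h0 hint (fun n => (a n : ℂ)) (1 + s) 0 1 ha
  have e1 : ∀ ξ : ℝ, (((1 + s : ℝ) : ℂ) + ((0 + 1 * ξ : ℝ) : ℂ) * I) = 1 + s + ξ * I := by
    intro ξ; push_cast; ring
  simp only [e1] at key
  rw [key]
  have hinner : ∀ n : ℕ, n ≠ 0 → ∫ ξ : ℝ, h0 ξ * Complex.exp (-(I * ((1 : ℝ) : ℂ) * ξ * Real.log n)) =
      2 * Real.pi * (T * φ (T * Real.log (n / X)) : ℝ) := by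
    intro n hn
    have h1 : ∀ ξ : ℝ, h0 ξ * Complex.exp (-(I * ((1 : ℝ) : ℂ) * ξ * Real.log n)) =
        (fun u : ℝ => Kern φ u * Complex.exp (-(I * u * (T * Real.log (n / X) : ℝ)))) (ξ / T) := by
      intro ξ
      rw [hh0]
      simp only
      rw [mul_assoc, ← Complex.exp_add]
      congr 2
      have hn' : (n : ℝ) ≠ 0 := by exact_mod_cast hn
      rw [Real.log_div hn' hX.ne']
      have : (T : ℂ) ≠ 0 := by exact_mod_cast hT.ne'
      push_cast
      field_simp
      ring
    simp only [h1]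
    rw [MeasureTheory.Measure.integral_comp_div (fun u : ℝ =>
      Kern φ u * Complex.exp (-(I * u * (T * Real.log (n / X) : ℝ)))) T, kern_inversion h,
      abs_of_pos hT, Complex.real_smul]
    push_cast
    ring
  have hpi : (Real.pi : ℂ) ≠ 0 := by exact_mod_cast Real.pi_ne_zero
  unfold ST
  rw [Complex.ofReal_tsum, ← tsum_mul_left]
  congr 1
  funext n
  by_cases hn : n = 0
  · subst hn
    simp
  · rw [hinner n hn, LSeries.term_def, if_neg hn]
    have hn0 : (0 : ℝ) ≤ (n : ℝ) := Nat.cast_nonneg n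
    have h5 : (((1 + s : ℝ) : ℂ) + ((0 : ℝ) : ℂ) * I) = ((1 + s : ℝ) : ℂ) := by simp
    rw [h5]
    have h6 : ((n : ℂ) ^ ((1 + s : ℝ) : ℂ)) = (((n : ℝ) ^ (1 + s) : ℝ) : ℂ) := by
      rw [Complex.ofReal_cpow hn0]
      push_cast
      rfl
    have hpos : (0 : ℝ) < (n : ℝ) ^ (1 + s) := by
      apply Real.rpow_pos_of_pos
      exact_mod_cast Nat.pos_of_ne_zero hn
    have h7 : (((n : ℝ) ^ (1 + s) : ℝ) : ℂ) ≠ 0 := by exact_mod_cast hpos.ne'
    rw [h6, Real.rpow_neg hn0]
    push_cast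
    field_simp

end Hoh
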