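import Pool.Agent.Lib.MP_0bb3d8_nt.HohFinal
import Pool.Agent.Lib.MP_0bb3d8_nt.HohFund
import Pool.Agent.Lib.MP_0bb3d8_nt.HohMertens
import Pool.Agent.Lib.MP_0bb3d8_nt.HohBrunTitchmarsh
import Pool.Agent.Lib.MP_0bb3d8_nt.HohMeanSquare
import Pool.Agent.Lib.MP_0bb3d8_nt.HohPointwise
import Pool.Agent.Lib.MP_0bb3d8_nt.HohPerron
import Pool.Agent.Lib.MP_0bb3d8_nt.HohZetaBound
import Pool.Agent.Lib.MP_0bb3d8_nt.HohFundAsymp
import Pool.Agent.Lib.MP_0bb3d8_nt.HohGdiff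
import Pool.Agent.Lib.MP_0bb3d8_nt.HohGtgt
import Pool.Agent.Lib.MP_0bb3d8_nt.HohCheb
import Pool.Agent.Lib.MP_0bb3d8_nt.HohTrilinear

/-!
# Hoheisel's theorem: primes in short intervals
-/

set_option autoImplicit false

namespace Hoh

theorem brunTitchmarsh' : BrunTitchmarsh := brunTitchmarsh fundLemma

theorem hoheisel : HoheiselPrimes := by
  obtain ⟨φ, hφ⟩ := exists_bump
  have hBT : BrunTitchmarsh := brunTitchmarsh fundLemma
  refine hoheisel_of hφ ?_ ?_ ?_ ?_ recipPrimes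
  · intro η ε G h1 h2 h3 hG k hk e he
    obtain ⟨d₀, hd₀, h⟩ := trilinear (pointwiseBound zetaBound) (meanSquare hBT) perron kernBound
      η ε G φ h1 h2 h3 hG hφ k hk e he
    refine ⟨d₀, hd₀, fun d hd hd' => ?_⟩
    obtain ⟨x₀, -, hx⟩ := h d hd hd'
    exact ⟨x₀, hx⟩
  · exact gdiff (fundAsymp fundLemma) vUpper recipPrimes φ hφ
  · exact gtgt hBT φ hφ
  · exact cheb φ hφ

end Hoh
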