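import Pool.Agent.Lib.MP_0bb3d8_nt.HohST

/-!
# Trilinear estimate (module M6)
-/

set_option autoImplicit false

namespace Hoh

open Finset Real MeasureTheory Complex LSeries

/-- Complexification of a real arithmetic function. -/
noncomputable def toC (a : ArithmeticFunction ℝ) : ArithmeticFunction ℂ :=
  ⟨fun n => (a n : ℂ), by simp⟩

theorem toC_apply (a : ArithmeticFunction ℝ) (n : ℕ) : toC a n = (a n : ℂ) := rfl

theorem toC_mul (a b : ArithmeticFunction ℝ) : toC (a * b) = toC a * toC b := by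
  ext n
  rw [toC_apply, ArithmeticFunction.mul_apply, ArithmeticFunction.mul_apply]
  push_cast
  rfl

theorem toC_one : toC 1 = 1 := by
  ext n
  rw [toC_apply]
  rcases eq_or_ne n 1 with rfl | h
  · simp
  · simp [h]

theorem toC_pow (a : ArithmeticFunction ℝ) (k : ℕ) : toC (a ^ k) = toC a ^ k := by
  induction k with
  | zero => simp [toC_one]
  | succ k ih => rw [pow_succ, pow_succ, toC_mul, ih]

theorem summable_of_le_one {a : ArithmeticFunction ℝ} (ha : ∀ n, |a n| ≤ 1) {z : ℂ}
    (hz : 1 < z.re) : LSeriesSummable (fun n => toC a n) z := by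
  apply LSeriesSummable_of_bounded_of_one_lt_re (m := 1) _ hz
  intro n _
  rw [toC_apply, Complex.norm_real]
  exact ha n

theorem LSeries_pow {f : ArithmeticFunction ℂ} {z : ℂ}
    (hf : LSeriesSummable (fun n => f n) z) (k : ℕ) :
    LSeriesSummable (fun n => (f ^ k) n) z ∧
      LSeries (fun n => (f ^ k) n) z = LSeries (fun n => f n) z ^ k := by
  induction k with
  | zero =>
    constructor
    · have : (fun n => ((f ^ 0 : ArithmeticFunction ℂ)) n) = (fun n => (1 : ArithmeticFunction ℂ) n) := by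
        simp
      rw [this]
      have h1 : LSeriesSummable LSeries.delta z :=
        summable_of_ne_finset_zero (s := {1}) (fun n hn => by
          rw [term_delta, if_neg (by simpa using hn)])
      apply (LSeriesSummable_congr (f := LSeries.delta) z _).mp h1
      intro n hn
      simp [LSeries.delta, ArithmeticFunction.one_apply]
    · rw [pow_zero, pow_zero]
      have := congrFun LSeries_delta z
      rw [Pi.one_apply] at this
      rw [← this]
      apply LSeries_congr
      intro n hn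
      simp [LSeries.delta, ArithmeticFunction.one_apply]
  | succ k ih =>
    constructor
    · rw [pow_succ]
      exact ArithmeticFunction.LSeriesSummable_mul ih.1 hf
    · rw [pow_succ, pow_succ]
      rw [ArithmeticFunction.LSeries_mul' ih.1 hf, ih.2]

/-- `∑ n^{-1-s} ≤ 1 + 1/s` (partial sums). -/
theorem sum_rpow_le (s : ℝ) (hs : 0 < s) (N : ℕ) :
    ∑ n ∈ Finset.range N, ((n : ℝ) + 1) ^ (-(1 + s)) ≤ 1 + 1 / s := by
  have key : ∀ n : ℕ, 1 ≤ n → ((n : ℝ) + 1) ^ (-(1 + s)) ≤
      (1 / s) * ((n : ℝ) ^ (-s) - ((n : ℝ) + 1) ^ (-s)) := by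
    intro n hn
    have hn' : (0 : ℝ) < n := by exact_mod_cast hn
    have hn1 : (0 : ℝ) < (n : ℝ) + 1 := by linarith
    have h1 : (n : ℝ) ^ (-s) = ((n : ℝ) + 1) ^ (-s) * (((n : ℝ) / (n + 1)) ^ (-s)) := by
      rw [← Real.mul_rpow hn1.le (by positivity)]
      congr 1
      field_simp
    have h2 : 1 + s / (n + 1) ≤ ((n : ℝ) / (n + 1)) ^ (-s) := by
      rw [Real.rpow_def_of_pos (by positivity)]
      have h3 : Real.log ((n : ℝ) / (n + 1)) ≤ (n : ℝ) / (n + 1) - 1 :=
        Real.log_le_sub_one_of_pos (by positivity)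
      have h4 : (n : ℝ) / (n + 1) - 1 = - (1 / (n + 1)) := by field_simp; ring
      have h5 : s / (n + 1) ≤ Real.log ((n : ℝ) / (n + 1)) * (-s) := by
        rw [h4] at h3
        have : s * (1 / (n + 1)) ≤ s * (- Real.log ((n : ℝ) / (n + 1))) := by
          apply mul_le_mul_of_nonneg_left _ hs.le
          linarith
        calc s / (n + 1) = s * (1 / (n + 1)) := by ring
          _ ≤ _ := this
          _ = _ := by ring
      have h6 := Real.add_one_le_exp (Real.log ((n : ℝ) / (n + 1)) * (-s))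
      linarith
    have h7 : 0 < ((n : ℝ) + 1) ^ (-s) := by positivity
    have h8 : ((n : ℝ) + 1) ^ (-(1 + s)) = ((n : ℝ) + 1) ^ (-s) / (n + 1) := by
      rw [show -(1 + s) = -s - 1 by ring, Real.rpow_sub hn1, Real.rpow_one]
    rw [h8, h1]
    have h9 : ((n : ℝ) + 1) ^ (-s) * (1 + s / (n + 1)) ≤
        ((n : ℝ) + 1) ^ (-s) * ((n : ℝ) / (n + 1)) ^ (-s) := by gcongr
    calc ((n : ℝ) + 1) ^ (-s) / (n + 1)
        = (1 / s) * (((n : ℝ) + 1) ^ (-s) * (1 + s / (n + 1)) - ((n : ℝ) + 1) ^ (-s)) := by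
          field_simp; ring
      _ ≤ _ := by gcongr
  have main : ∀ N : ℕ, ∑ n ∈ Finset.range (N + 1), ((n : ℝ) + 1) ^ (-(1 + s)) ≤
      1 + (1 / s) * (1 - ((N : ℝ) + 1) ^ (-s)) := by
    intro N
    induction N with
    | zero => simp
    | succ N ih =>
      rw [Finset.sum_range_succ]
      have := key (N + 1) (by omega)
      push_cast at this ⊢
      have h3 : (1 : ℝ) / s * (((N : ℝ) + 1) ^ (-s) - ((N : ℝ) + 1 + 1) ^ (-s)) =
        (1 / s) * (1 - ((N : ℝ) + 1 + 1) ^ (-s)) - (1 / s) * (1 - ((N : ℝ) + 1) ^ (-s)) := by ring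
      linarith
  rcases N with _ | N
  · simp; positivity
  · refine (main N).trans ?_
    have : 0 ≤ ((N : ℝ) + 1) ^ (-s) := by positivity
    have h2 : (1 / s) * (1 - ((N : ℝ) + 1) ^ (-s)) ≤ (1 / s) * 1 := by
      apply mul_le_mul_of_nonneg_left _ (by positivity)
      linarith
    linarith

theorem norm_LSeries_le {a : ArithmeticFunction ℝ} (ha : ∀ n, |a n| ≤ 1) {s : ℝ} (hs : 0 < s)
    (t : ℝ) : ‖LSeries (fun n => toC a n) (1 + s + t * I)‖ ≤ 1 + 1 / s := by
  have hre : (1 + (s : ℂ) + t * I).re = 1 + s := by simp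
  have hsum := summable_of_le_one ha (z := 1 + s + t * I) (by rw [hre]; linarith)
  have hnorm : Summable (fun n => ‖term (fun n => toC a n) (1 + s + t * I) n‖) := hsum.norm
  refine (norm_tsum_le_tsum_norm hnorm).trans ?_
  rw [hnorm.tsum_eq_zero_add]
  simp only [term_zero, norm_zero, zero_add]
  apply Real.tsum_le_of_sum_range_le (fun n => norm_nonneg _)
  intro N
  refine le_trans ?_ (sum_rpow_le s hs N)
  apply Finset.sum_le_sum
  intro n _
  rw [norm_term_eq, if_neg (by omega), hre, toC_apply, Complex.norm_real]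
  rw [Real.rpow_neg (by positivity)]
  have : (0 : ℝ) < ((n + 1 : ℕ) : ℝ) ^ (1 + s) := by positivity
  push_cast at this ⊢
  rw [div_le_iff₀ this, inv_mul_cancel₀ this.ne']
  exact ha _

theorem continuous_LSeries {a : ArithmeticFunction ℝ} (ha : ∀ n, |a n| ≤ 1) {s : ℝ} (hs : 0 < s) :
    Continuous (fun t : ℝ => LSeries (fun n => toC a n) (1 + s + t * I)) := by
  have hab : abscissaOfAbsConv (fun n => toC a n) ≤ 1 := by
    apply abscissaOfAbsConv_le_of_forall_lt_LSeriesSummable
    intro y hy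
    apply summable_of_le_one ha
    simpa using hy
  rw [continuous_iff_continuousAt]
  intro t
  have h1 : abscissaOfAbsConv (fun n => toC a n) < (1 + (s : ℂ) + t * I).re := by
    refine lt_of_le_of_lt hab ?_
    have : (1 + (s : ℂ) + t * I).re = 1 + s := by simp
    rw [this]
    exact_mod_cast (by linarith : (1 : ℝ) < 1 + s)
  have h2 := (LSeries_hasDerivAt h1).continuousAt
  exact ContinuousAt.comp (f := fun t : ℝ => (1 + (s : ℂ) + t * I)) h2 (by fun_prop)

end Hoh
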