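import Pool.Agent.Lib.MP_0bb3d8_nt.HohDefs

/-!
# M6, part 1: real analysis core and Dirichlet series preliminaries
-/

namespace Hoh.T33

open Complex Filter Topology Set MeasureTheory

/-- The real analysis core of the trilinear estimate. -/
lemma tri_core (B P K : ℝ → ℂ) (hBc : Continuous B) (hPc : Continuous P) (hKc : Continuous K)
    (C CB C1 a q τ m μ U : ℝ) (k : ℕ) (hk : 2 ≤ k) (hC : 0 ≤ C) (hCB : 0 ≤ CB) (hC1 : 0 ≤ C1)
    (ha : 0 ≤ a) (hq : 0 ≤ q) (hτ : 0 ≤ τ) (hμ : 0 < μ) (hU : 1 ≤ U)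
    (hB : ∀ t, ‖B t‖ ≤ CB) (hP : ∀ t, ‖P t‖ ≤ C1) (hPa : ∀ t, |t| ≤ 1 → |t| * ‖P t‖ ≤ a)
    (hPq : ∀ t, 1 ≤ |t| → |t| ≤ U → ‖P t‖ ≤ q)
    (hK1 : ∀ t, ‖K t‖ ≤ 2 * C) (hK2 : ∀ t, ‖K t‖ ≤ 5 * C * |t|)
    (hK3 : ∀ t, U ≤ |t| → ‖K t‖ ≤ 2 * C * τ / t ^ 2)
    (hmB : ∫ t in (-U)..U, ‖B t‖ ^ 2 ≤ m) (hmP : ∫ t in (-U)..U, ‖P t‖ ^ 2 ≤ m)
    (hmP1 : ∫ t in (-1 : ℝ)..1, ‖P t‖ ^ 2 ≤ m) :
    Integrable (fun t => K t * (B t * P t ^ k)) ∧
    ‖∫ t, K t * (B t * P t ^ k)‖ ≤
      5 * C * CB * C1 ^ (k - 2) * a * (μ + m / (2 * μ)) + 2 * C * C1 ^ (k - 2) * q * m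
        + 4 * C * CB * C1 ^ k * τ * Real.pi := by
  have hcont : Continuous (fun t => K t * (B t * P t ^ k)) :=
    hKc.mul (hBc.mul (hPc.pow k))
  -- the majorant
  let h1 : ℝ → ℝ := indicator (Ioc (-1) 1)
    (fun t => 5 * C * CB * C1 ^ (k - 2) * a * (μ / 2 + ‖P t‖ ^ 2 / (2 * μ)))
  let h2 : ℝ → ℝ := indicator (Ioc (-U) U)
    (fun t => C * C1 ^ (k - 2) * q * (‖B t‖ ^ 2 + ‖P t‖ ^ 2))
  let h3 : ℝ → ℝ := fun t => 4 * C * CB * C1 ^ k * τ * (1 + t ^ 2)⁻¹
  have hkk : k = (k - 2) + 2 := by omega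
  have hpow : ∀ t, ‖P t‖ ^ k = ‖P t‖ ^ (k - 2) * ‖P t‖ ^ 2 := by
    intro t; rw [← pow_add, ← hkk]
  have hpowle : ∀ t, ‖P t‖ ^ (k - 2) ≤ C1 ^ (k - 2) := fun t =>
    pow_le_pow_left₀ (norm_nonneg _) (hP t) _
  have hn1 : ∀ t, 0 ≤ h1 t := by
    intro t; apply indicator_nonneg; intro u _; positivity
  have hn2 : ∀ t, 0 ≤ h2 t := by
    intro t; apply indicator_nonneg; intro u _; positivity
  have hn3 : ∀ t, 0 ≤ h3 t := by intro t; simp only [h3]; positivity
  have hpt : ∀ᵐ t, ‖K t * (B t * P t ^ k)‖ ≤ h1 t + h2 t + h3 t := by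
    have hnull : ∀ᵐ t : ℝ, t ≠ -1 ∧ t ≠ -U := by
      have e1 : ∀ᵐ t : ℝ, t ≠ -1 := by simp [ae_iff, measure_singleton]
      have e2 : ∀ᵐ t : ℝ, t ≠ -U := by simp [ae_iff, measure_singleton]
      filter_upwards [e1, e2] with t h h' using ⟨h, h'⟩
    filter_upwards [hnull] with t ht
    rw [norm_mul, norm_mul, norm_pow]
    rcases le_or_gt |t| 1 with hcase | hcase
    · -- near zero
      have hmem : t ∈ Ioc (-1 : ℝ) 1 := by
        have := abs_le.mp hcase
        exact ⟨lt_of_le_of_ne this.1 (Ne.symm ht.1), this.2⟩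
      have hv : h1 t = 5 * C * CB * C1 ^ (k - 2) * a * (μ / 2 + ‖P t‖ ^ 2 / (2 * μ)) :=
        indicator_of_mem hmem _
      have hPle : ‖P t‖ ≤ μ / 2 + ‖P t‖ ^ 2 / (2 * μ) := by
        have : 0 ≤ (‖P t‖ - μ) ^ 2 / (2 * μ) := by positivity
        have e : (‖P t‖ - μ) ^ 2 / (2 * μ) = ‖P t‖ ^ 2 / (2 * μ) - ‖P t‖ + μ / 2 := by
          field_simp; ring
        linarith
      have step : ‖K t‖ * (‖B t‖ * ‖P t‖ ^ k) ≤ h1 t := by
        rw [hv, hpow t]
        calc ‖K t‖ * (‖B t‖ * (‖P t‖ ^ (k - 2) * ‖P t‖ ^ 2))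
            ≤ (5 * C * |t|) * (CB * (C1 ^ (k - 2) * ‖P t‖ ^ 2)) := by
              gcongr
              · exact hK2 t
              · exact hB t
              · exact hP t
          _ = 5 * C * CB * C1 ^ (k - 2) * (|t| * ‖P t‖) * ‖P t‖ := by ring
          _ ≤ 5 * C * CB * C1 ^ (k - 2) * a * (μ / 2 + ‖P t‖ ^ 2 / (2 * μ)) := by
              gcongr
              exact hPa t hcase
      linarith [hn2 t, hn3 t]
    · rcases le_or_gt |t| U with hcase2 | hcase2
      · have hmem : t ∈ Ioc (-U : ℝ) U := by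
          have := abs_le.mp hcase2
          exact ⟨lt_of_le_of_ne this.1 (Ne.symm ht.2), this.2⟩
        have hv : h2 t = C * C1 ^ (k - 2) * q * (‖B t‖ ^ 2 + ‖P t‖ ^ 2) :=
          indicator_of_mem hmem _
        have step : ‖K t‖ * (‖B t‖ * ‖P t‖ ^ k) ≤ h2 t := by
          rw [hv, hpow t]
          have hamgm : ‖B t‖ * ‖P t‖ ≤ (‖B t‖ ^ 2 + ‖P t‖ ^ 2) / 2 := by
            nlinarith [sq_nonneg (‖B t‖ - ‖P t‖)]
          calc ‖K t‖ * (‖B t‖ * (‖P t‖ ^ (k - 2) * ‖P t‖ ^ 2))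
              ≤ (2 * C) * (‖B t‖ * (C1 ^ (k - 2) * ‖P t‖ ^ 2)) := by
                gcongr
                · exact hK1 t
                · exact hP t
            _ = 2 * C * C1 ^ (k - 2) * ‖P t‖ * (‖B t‖ * ‖P t‖) := by ring
            _ ≤ 2 * C * C1 ^ (k - 2) * q * ((‖B t‖ ^ 2 + ‖P t‖ ^ 2) / 2) := by
                gcongr
                exact hPq t hcase.le hcase2
            _ = C * C1 ^ (k - 2) * q * (‖B t‖ ^ 2 + ‖P t‖ ^ 2) := by ring
        linarith [hn1 t, hn3 t]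
      · have step : ‖K t‖ * (‖B t‖ * ‖P t‖ ^ k) ≤ h3 t := by
          have ht2 : 1 ≤ t ^ 2 := by
            rw [← sq_abs]; nlinarith [abs_nonneg t]
          have hinv : 1 / t ^ 2 ≤ 2 * (1 + t ^ 2)⁻¹ := by
            rw [← one_div, mul_one_div, div_le_div_iff₀ (by linarith) (by linarith)]
            linarith
          calc ‖K t‖ * (‖B t‖ * ‖P t‖ ^ k) ≤ (2 * C * τ / t ^ 2) * (CB * C1 ^ k) := by
                gcongr
                · exact hK3 t hcase2.le
                · exact hB t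
                · exact hP t
            _ = 2 * C * τ * CB * C1 ^ k * (1 / t ^ 2) := by ring
            _ ≤ 2 * C * τ * CB * C1 ^ k * (2 * (1 + t ^ 2)⁻¹) := by gcongr
            _ = h3 t := by simp only [h3]; ring
        linarith [hn1 t, hn2 t]
  have hi1 : Integrable h1 := by
    rw [integrable_indicator_iff measurableSet_Ioc]
    apply IntegrableOn.mono_set (t := Icc (-1) 1) _ Ioc_subset_Icc_self
    apply Continuous.integrableOn_Icc
    fun_prop
  have hi2 : Integrable h2 := by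
    rw [integrable_indicator_iff measurableSet_Ioc]
    apply IntegrableOn.mono_set (t := Icc (-U) U) _ Ioc_subset_Icc_self
    apply Continuous.integrableOn_Icc
    fun_prop
  have hi3 : Integrable h3 := integrable_inv_one_add_sq.const_mul _
  have hmaj : Integrable (fun t => h1 t + h2 t + h3 t) := (hi1.add hi2).add hi3
  refine ⟨hmaj.mono' hcont.aestronglyMeasurable hpt, ?_⟩
  have hle : ‖∫ t, K t * (B t * P t ^ k)‖ ≤ ∫ t, (h1 t + h2 t + h3 t) :=
    norm_integral_le_of_norm_le hmaj hpt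
  have hI1 : ∫ t, h1 t ≤ 5 * C * CB * C1 ^ (k - 2) * a * (μ + m / (2 * μ)) := by
    have e1 : ∫ t, h1 t = ∫ t in (-1 : ℝ)..1, 5 * C * CB * C1 ^ (k - 2) * a *
        (μ / 2 + ‖P t‖ ^ 2 / (2 * μ)) := by
      rw [intervalIntegral.integral_of_le (by norm_num)]
      exact integral_indicator measurableSet_Ioc
    rw [e1, intervalIntegral.integral_const_mul]
    have e2 : ∫ t in (-1 : ℝ)..1, (μ / 2 + ‖P t‖ ^ 2 / (2 * μ)) =
        μ + (∫ t in (-1 : ℝ)..1, ‖P t‖ ^ 2) / (2 * μ) := by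
      rw [intervalIntegral.integral_add intervalIntegrable_const (Continuous.intervalIntegrable (by fun_prop) _ _),
        intervalIntegral.integral_div]
      simp
      ring
    rw [e2]
    gcongr
  have hI2 : ∫ t, h2 t ≤ 2 * C * C1 ^ (k - 2) * q * m := by
    have e1 : ∫ t, h2 t = ∫ t in (-U : ℝ)..U, C * C1 ^ (k - 2) * q * (‖B t‖ ^ 2 + ‖P t‖ ^ 2) := by
      rw [intervalIntegral.integral_of_le (by linarith)]
      exact integral_indicator measurableSet_Ioc
    rw [e1, intervalIntegral.integral_const_mul,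
      intervalIntegral.integral_add (Continuous.intervalIntegrable (by fun_prop) _ _)
        (Continuous.intervalIntegrable (by fun_prop) _ _)]
    have h0 : 0 ≤ C * C1 ^ (k - 2) * q := by positivity
    calc C * C1 ^ (k - 2) * q * ((∫ t in (-U)..U, ‖B t‖ ^ 2) + ∫ t in (-U)..U, ‖P t‖ ^ 2)
        ≤ C * C1 ^ (k - 2) * q * (m + m) := by gcongr
      _ = _ := by ring
  have hI3 : ∫ t, h3 t = 4 * C * CB * C1 ^ k * τ * Real.pi := by
    simp only [h3]
    rw [integral_const_mul, integral_univ_inv_one_add_sq]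
  calc ‖∫ t, K t * (B t * P t ^ k)‖ ≤ ∫ t, (h1 t + h2 t + h3 t) := hle
    _ = ((∫ t, h1 t) + ∫ t, h2 t) + ∫ t, h3 t := by
        rw [← integral_add hi1 hi2]
        exact integral_add (hi1.add hi2) hi3
    _ ≤ _ := by rw [hI3]; linarith

/-- complexification of a real arithmetic function -/
noncomputable def toC (a : ArithmeticFunction ℝ) : ArithmeticFunction ℂ :=
  ⟨fun n => (a n : ℂ), by simp⟩

lemma toC_apply (a : ArithmeticFunction ℝ) (n : ℕ) : toC a n = (a n : ℂ) := rfl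

lemma toC_mul (a b : ArithmeticFunction ℝ) : toC (a * b) = toC a * toC b := by
  ext n
  rw [toC_apply, ArithmeticFunction.mul_apply, ArithmeticFunction.mul_apply]
  push_cast
  rfl

lemma toC_one : toC 1 = 1 := by
  ext n
  rw [toC_apply, ArithmeticFunction.one_apply, ArithmeticFunction.one_apply]
  split_ifs <;> simp

lemma toC_pow (a : ArithmeticFunction ℝ) (k : ℕ) : toC (a ^ k) = toC a ^ k := by
  induction k with
  | zero => simp [toC_one]
  | succ k ih => rw [pow_succ, pow_succ, toC_mul, ih]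

lemma coe_toC (a : ArithmeticFunction ℝ) : (fun n => (a n : ℂ)) = ⇑(toC a) := rfl

lemma summable_one (s : ℂ) : LSeriesSummable (⇑(1 : ArithmeticFunction ℂ)) s := by
  have : (⇑(1 : ArithmeticFunction ℂ)) = LSeries.delta := ArithmeticFunction.one_eq_delta
  rw [this]
  apply summable_of_ne_finset_zero (s := {1})
  intro n hn
  have hn1 : n ≠ 1 := by simpa using hn
  by_cases h0 : n = 0
  · simp [h0]
  · rw [LSeries.term_of_ne_zero h0, LSeries.delta, if_neg hn1, zero_div]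

lemma lser_one (s : ℂ) : LSeries (⇑(1 : ArithmeticFunction ℂ)) s = 1 := by
  have : (⇑(1 : ArithmeticFunction ℂ)) = LSeries.delta := ArithmeticFunction.one_eq_delta
  rw [this, LSeries_delta]
  rfl

lemma lser_pow (a : ArithmeticFunction ℝ) (k : ℕ) (s : ℂ)
    (ha : LSeriesSummable (fun n => (a n : ℂ)) s) :
    LSeriesSummable (fun n => ((a ^ k) n : ℂ)) s ∧
    LSeries (fun n => ((a ^ k) n : ℂ)) s = (LSeries (fun n => (a n : ℂ)) s) ^ k := by
  induction k with
  | zero =>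
    constructor
    · rw [coe_toC, pow_zero, toC_one]; exact summable_one s
    · rw [coe_toC, pow_zero, toC_one, lser_one, pow_zero]
  | succ k ih =>
    rw [pow_succ, coe_toC, toC_mul]
    have h1 : LSeriesSummable (⇑(toC (a ^ k))) s := ih.1
    have h2 : LSeriesSummable (⇑(toC a)) s := ha
    constructor
    · exact ArithmeticFunction.LSeriesSummable_mul h1 h2
    · rw [ArithmeticFunction.LSeries_mul' h1 h2, pow_succ]
      congr 1
      exact ih.2

lemma lser_mul_pow (b a : ArithmeticFunction ℝ) (k : ℕ) (s : ℂ)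
    (hb : LSeriesSummable (fun n => (b n : ℂ)) s) (ha : LSeriesSummable (fun n => (a n : ℂ)) s) :
    LSeriesSummable (fun n => ((b * a ^ k) n : ℂ)) s ∧
    LSeries (fun n => ((b * a ^ k) n : ℂ)) s =
      LSeries (fun n => (b n : ℂ)) s * (LSeries (fun n => (a n : ℂ)) s) ^ k := by
  obtain ⟨h1, h2⟩ := lser_pow a k s ha
  rw [coe_toC (b * a ^ k), toC_mul]
  have hb' : LSeriesSummable (⇑(toC b)) s := hb
  have h1' : LSeriesSummable (⇑(toC (a ^ k))) s := h1
  constructor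
  · exact ArithmeticFunction.LSeriesSummable_mul hb' h1'
  · rw [ArithmeticFunction.LSeries_mul' hb' h1']
    rw [← h2]
    rfl

lemma summable_of_abs_le_one (a : ArithmeticFunction ℝ) (ha : ∀ n, |a n| ≤ 1) (s : ℂ)
    (hs : 1 < s.re) : LSeriesSummable (fun n => (a n : ℂ)) s := by
  apply LSeriesSummable_of_bounded_of_one_lt_re (m := 1) _ hs
  intro n _
  rw [Complex.norm_real]
  exact ha n

lemma lser_continuous (a : ℕ → ℂ) (ha : ∀ n, ‖a n‖ ≤ 1) (s : ℝ) (hs : 0 < s) :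
    Continuous (fun t : ℝ => LSeries a (1 + s + t * I)) := by
  have habs : LSeries.abscissaOfAbsConv a ≤ 1 := by
    apply LSeries.abscissaOfAbsConv_le_of_forall_lt_LSeriesSummable (x := 1)
    intro y hy
    exact LSeriesSummable_of_bounded_of_one_lt_re (m := 1) (fun n _ => ha n) (by simpa using hy)
  rw [continuous_iff_continuousAt]
  intro t
  have h1 : LSeries.abscissaOfAbsConv a < (1 + s + t * I : ℂ).re := by
    refine lt_of_le_of_lt habs ?_
    have : (1 + s + t * I : ℂ).re = 1 + s := by simp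
    rw [this]
    exact_mod_cast (by linarith : (1 : ℝ) < 1 + s)
  have h2 : ContinuousAt (LSeries a) (1 + s + t * I) := (LSeries_hasDerivAt h1).continuousAt
  exact ContinuousAt.comp (f := fun t : ℝ => (1 + s + t * I : ℂ)) h2 (by fun_prop)

end Hoh.T33
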