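import Mathlib

/-!
# Landau's local lemma: the logarithmic derivative of an entire function as a sum over nearby zeros
-/

namespace Hoh

open Complex Metric Filter Topology Set

/-- One zero can be divided out of an entire function. -/
lemma factor_one (f : ℂ → ℂ) (hf : Differentiable ℂ f) (hne : ∃ z, f z ≠ 0) (a : ℂ) :
    ∃ n : ℕ, ∃ g : ℂ → ℂ, Differentiable ℂ g ∧ g a ≠ 0 ∧ ∀ z, f z = (z - a) ^ n * g z := by
  have han : AnalyticAt ℂ f a := hf.analyticAt a
  have hnz : ¬ ∀ᶠ z in 𝓝 a, f z = 0 := by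
    intro h
    obtain ⟨w, hw⟩ := hne
    apply hw
    have hA : AnalyticOnNhd ℂ f univ := fun z _ => hf.analyticAt z
    have hB : AnalyticOnNhd ℂ (fun _ : ℂ => (0 : ℂ)) univ := fun z _ => analyticAt_const
    have := hA.eq_of_eventuallyEq hB (z₀ := a) h
    exact congrFun this w
  obtain ⟨n, g0, hg0, hg0a, hev⟩ := han.exists_eventuallyEq_pow_smul_nonzero_iff.mpr hnz
  classical
  refine ⟨n, fun z => if z = a then g0 a else f z / (z - a) ^ n, ?_, by simpa using hg0a, ?_⟩
  · intro z
    by_cases hz : z = a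
    · subst hz
      have : (fun w => if w = z then g0 z else f w / (w - z) ^ n) =ᶠ[𝓝 z] g0 := by
        filter_upwards [hev] with w hw
        by_cases hwz : w = z
        · simp [hwz]
        · rw [if_neg hwz, hw, smul_eq_mul]
          have : (w - z) ^ n ≠ 0 := pow_ne_zero _ (sub_ne_zero.mpr hwz)
          field_simp
      exact (hg0.differentiableAt.congr_of_eventuallyEq this)
    · have hev2 : (fun w => if w = a then g0 a else f w / (w - a) ^ n) =ᶠ[𝓝 z]
          fun w => f w / (w - a) ^ n := by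
        filter_upwards [isOpen_ne.mem_nhds hz] with w hw
        rw [if_neg hw]
      refine DifferentiableAt.congr_of_eventuallyEq ?_ hev2
      have h1 : (z - a) ^ n ≠ 0 := pow_ne_zero _ (sub_ne_zero.mpr hz)
      exact (hf z).div (by fun_prop) h1
  · intro z
    by_cases hz : z = a
    · subst hz
      have := hev.self_of_nhds
      simpa [smul_eq_mul] using this
    · have h1 : (z - a) ^ n ≠ 0 := pow_ne_zero _ (sub_ne_zero.mpr hz)
      show f z = (z - a) ^ n * (if z = a then g0 a else f z / (z - a) ^ n)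
      rw [if_neg hz]
      field_simp

/-- All zeros in a set can be divided out. -/
lemma factor_all (K : Set ℂ) (S : Finset ℂ) : ∀ f : ℂ → ℂ, Differentiable ℂ f → (∃ z, f z ≠ 0) →
    (∀ z ∈ K, f z = 0 → z ∈ S) →
    ∃ (Z : Multiset ℂ) (g : ℂ → ℂ), Differentiable ℂ g ∧ (∀ z ∈ K, g z ≠ 0) ∧
      (∀ ρ ∈ Z, ρ ∈ K ∧ f ρ = 0) ∧ ∀ z, f z = (Z.map (fun ρ => z - ρ)).prod * g z := by
  classical
  induction S using Finset.induction_on with
  | empty =>
    intro f hf _ hz
    refine ⟨0, f, hf, fun z hz1 h0 => ?_, by simp, by simp⟩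
    simpa using hz z hz1 h0
  | insert a S haS ih =>
    intro f hf hne hz
    by_cases ha : a ∈ K ∧ f a = 0
    · obtain ⟨n, g1, hg1, hg1a, hfg⟩ := factor_one f hf hne a
      have hne1 : ∃ z, g1 z ≠ 0 := ⟨a, hg1a⟩
      have hz1 : ∀ z ∈ K, g1 z = 0 → z ∈ S := by
        intro z hzK hg
        have hfz : f z = 0 := by rw [hfg z, hg, mul_zero]
        have := hz z hzK hfz
        rcases Finset.mem_insert.mp this with h | h
        · subst h; exact absurd hg hg1a
        · exact h
      obtain ⟨Z, g, hg, hgK, hZ, hprod⟩ := ih g1 hg1 hne1 hz1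
      refine ⟨Multiset.replicate n a + Z, g, hg, hgK, ?_, ?_⟩
      · intro ρ hρ
        rcases Multiset.mem_add.mp hρ with h | h
        · have : ρ = a := (Multiset.mem_replicate.mp h).2
          subst this; exact ha
        · refine ⟨(hZ ρ h).1, ?_⟩
          rw [hfg ρ, (hZ ρ h).2, mul_zero]
      · intro z
        rw [hfg z, hprod z, Multiset.map_add, Multiset.prod_add, Multiset.map_replicate,
          Multiset.prod_replicate]
        ring
    · apply ih f hf hne
      intro z hzK hfz
      rcases Finset.mem_insert.mp (hz z hzK hfz) with h | h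
      · subst h; exact absurd ⟨hzK, hfz⟩ ha
      · exact h

/-- An entire function which is not identically zero has finitely many zeros in a compact set. -/
lemma finite_zeros (f : ℂ → ℂ) (hf : Differentiable ℂ f) (hne : ∃ z, f z ≠ 0) (K : Set ℂ)
    (hK : IsCompact K) : {z ∈ K | f z = 0}.Finite := by
  by_contra hinf
  have hinf' : {z ∈ K | f z = 0}.Infinite := hinf
  obtain ⟨a, haK, hacc⟩ := hinf'.exists_accPt_of_subset_isCompact hK (fun z hz => hz.1)
  have hA : AnalyticOnNhd ℂ f univ := fun z _ => hf.analyticAt z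
  have hB : AnalyticOnNhd ℂ (fun _ : ℂ => (0 : ℂ)) univ := fun z _ => analyticAt_const
  have hfreq : ∃ᶠ z in 𝓝[≠] a, f z = (fun _ : ℂ => (0 : ℂ)) z := by
    have h1 := accPt_iff_frequently_nhdsNE.mp hacc
    exact h1.mono (fun z hz => hz.2)
  have := hA.eq_of_frequently_eq hB hfreq
  obtain ⟨w, hw⟩ := hne
  exact hw (congrFun this w)

/-- Logarithmic derivative of a product over a multiset. -/
lemma hasDerivAt_prod (Z : Multiset ℂ) (z : ℂ) (hz : z ∉ Z) :
    HasDerivAt (fun w => (Z.map (fun ρ => w - ρ)).prod)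
      ((Z.map (fun ρ => z - ρ)).prod * (Z.map (fun ρ => 1 / (z - ρ))).sum) z := by
  induction Z using Multiset.induction_on with
  | empty => simpa using hasDerivAt_const z (1 : ℂ)
  | cons a Z ih =>
    have h1 : z ≠ a := fun h => hz (by simp [h])
    have h2 : z ∉ Z := fun h => hz (by simp [h])
    have hd : HasDerivAt (fun w : ℂ => w - a) 1 z := (hasDerivAt_id z).sub_const a
    have := hd.mul (ih h2)
    refine (this.congr_deriv ?_).congr_of_eventuallyEq ?_
    · simp only [Multiset.map_cons, Multiset.prod_cons, Multiset.sum_cons]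
      have : z - a ≠ 0 := sub_ne_zero.mpr h1
      field_simp
    · exact Filter.Eventually.of_forall (fun w => by simp)

lemma prod_ne_zero (Z : Multiset ℂ) (z : ℂ) (hz : z ∉ Z) :
    (Z.map (fun ρ => z - ρ)).prod ≠ 0 := by
  induction Z using Multiset.induction_on with
  | empty => simp
  | cons a Z ih =>
    have h1 : z ≠ a := fun h => hz (by simp [h])
    have h2 : z ∉ Z := fun h => hz (by simp [h])
    simp only [Multiset.map_cons, Multiset.prod_cons]
    exact mul_ne_zero (sub_ne_zero.mpr h1) (ih h2)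

lemma norm_prod_le (Z : Multiset ℂ) (z w : ℂ) (h : ∀ ρ ∈ Z, ‖w - ρ‖ ≤ ‖z - ρ‖) :
    ‖(Z.map (fun ρ => w - ρ)).prod‖ ≤ ‖(Z.map (fun ρ => z - ρ)).prod‖ := by
  induction Z using Multiset.induction_on with
  | empty => simp
  | cons a Z ih =>
    simp only [Multiset.map_cons, Multiset.prod_cons, norm_mul]
    exact mul_le_mul (h a (by simp)) (ih (fun ρ hρ => h ρ (by simp [hρ]))) (norm_nonneg _)
      (norm_nonneg _)

/-- A zero free function on a ball with bounded modulus has a bounded logarithmic derivative. -/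
lemma logderiv_bound (g : ℂ → ℂ) (hg : Differentiable ℂ g) (s0 : ℂ) (r M : ℝ) (hr : 0 < r)
    (hM : 0 < M) (hne : ∀ z ∈ closedBall s0 (r / 2), g z ≠ 0)
    (hb : ∀ z ∈ closedBall s0 (r / 2), ‖g z‖ ≤ Real.exp M * ‖g s0‖) (s : ℂ)
    (hs : s ∈ closedBall s0 (r / 4)) : ‖deriv g s / g s‖ ≤ 48 * M / r := by
  have hg0 : g s0 ≠ 0 := hne s0 (by simp; positivity)
  have hsub : ball s0 (r / 2) ⊆ closedBall s0 (r / 2) := ball_subset_closedBall
  have hd : DifferentiableOn ℂ (fun z => deriv g z / g z) (ball s0 (r / 2)) := by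
    intro z hz
    exact ((hg.deriv z).div (hg z) (hne z (hsub hz))).differentiableWithinAt
  obtain ⟨h, hh0, hh⟩ := (hd.isExactOn_ball).with_val_at s0 0
  -- g z = g s0 * exp (h z)
  have hexp : ∀ z ∈ ball s0 (r / 2), g z = g s0 * exp (h z) := by
    have hconst : ∀ z ∈ ball s0 (r / 2), g z * exp (-h z) = g s0 * exp (-h s0) := by
      intro z hz
      have hder : ∀ w ∈ ball s0 (r / 2), HasDerivWithinAt (fun w => g w * exp (-h w)) 0
          (ball s0 (r / 2)) w := by
        intro w hw
        have h1 : HasDerivAt g (deriv g w) w := (hg w).hasDerivAt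
        have h2 : HasDerivAt (fun w => exp (-h w)) (exp (-h w) * (-(deriv g w / g w))) w :=
          (hh w hw).neg.cexp
        have h3 := h1.mul h2
        have h4 : deriv g w * exp (-h w) + g w * (exp (-h w) * (-(deriv g w / g w))) = 0 := by
          have : g w ≠ 0 := hne w (hsub hw)
          field_simp
          ring
        exact (h3.congr_deriv h4).hasDerivWithinAt
      have hs0 : s0 ∈ ball s0 (r / 2) := mem_ball_self (by positivity)
      exact (convex_ball s0 (r / 2)).is_const_of_fderivWithin_eq_zero (𝕜 := ℂ)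
        (fun w hw => (hder w hw).differentiableWithinAt)
        (fun w hw => by
          have := (hder w hw).hasFDerivWithinAt.fderivWithin
            (isOpen_ball.uniqueDiffWithinAt hw)
          rw [this]
          ext; simp) hz hs0
    intro z hz
    have h1 := hconst z hz
    rw [hh0, neg_zero, exp_zero, mul_one] at h1
    rw [← h1, mul_assoc, ← exp_add]
    simp
  have hre : ∀ z ∈ ball s0 (r / 2), (h z).re ≤ M := by
    intro z hz
    have h1 := hb z (hsub hz)
    rw [hexp z hz, norm_mul, norm_exp] at h1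
    have h2 : 0 < ‖g s0‖ := norm_pos_iff.mpr hg0
    have h3 : Real.exp (h z).re ≤ Real.exp M := by nlinarith
    exact Real.exp_le_exp.mp h3
  have hhd : DifferentiableOn ℂ h (ball s0 (r / 2)) := fun z hz =>
    (hh z hz).differentiableAt.differentiableWithinAt
  -- translate to zero
  have hBC : ∀ z ∈ closedBall s0 (3 * r / 8), ‖h z‖ ≤ 6 * M := by
    intro z hz
    have hz' : ‖z - s0‖ ≤ 3 * r / 8 := by simpa [dist_eq] using hz
    have hF : DifferentiableOn ℂ (fun w => h (w + s0)) (ball 0 (r / 2)) := by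
      intro w hw
      have hw' : w + s0 ∈ ball s0 (r / 2) := by
        simpa [mem_ball, dist_eq] using hw
      have := (hhd _ hw').differentiableAt (isOpen_ball.mem_nhds hw')
      exact (DifferentiableAt.comp (f := fun w => w + s0) w this
        (by fun_prop)).differentiableWithinAt
    have hmaps : Set.MapsTo (fun w => h (w + s0)) (ball 0 (r / 2)) {z | z.re ≤ M} := by
      intro w hw
      have hw' : w + s0 ∈ ball s0 (r / 2) := by
        simpa [mem_ball, dist_eq] using hw
      exact hre _ hw'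
    have hz0 : z - s0 ∈ ball (0 : ℂ) (r / 2) := by
      rw [mem_ball_zero_iff]; linarith
    have := borelCaratheodory_zero hM hF hmaps (by positivity) hz0 (by simp [hh0])
    simp only [sub_add_cancel] at this
    refine this.trans ?_
    rw [div_le_iff₀ (by linarith)]
    nlinarith
  have hs' : ‖s - s0‖ ≤ r / 4 := by simpa [dist_eq] using hs
  have hcl : closedBall s (r / 8) ⊆ closedBall s0 (3 * r / 8) := by
    intro z hz
    have h1 : ‖z - s‖ ≤ r / 8 := by simpa [dist_eq] using hz
    have h2 : ‖z - s0‖ ≤ ‖z - s‖ + ‖s - s0‖ := by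
      have : z - s0 = (z - s) + (s - s0) := by ring
      rw [this]; exact norm_add_le _ _
    rw [mem_closedBall, dist_eq]; linarith
  have hcl2 : closedBall s0 (3 * r / 8) ⊆ ball s0 (r / 2) := by
    intro z hz
    have h1 : ‖z - s0‖ ≤ 3 * r / 8 := by simpa [dist_eq] using hz
    rw [mem_ball, dist_eq]; linarith
  have hdc : DiffContOnCl ℂ h (ball s (r / 8)) := by
    refine (hhd.mono ?_).diffContOnCl
    rw [closure_ball s (by positivity : r / 8 ≠ 0)]
    exact hcl.trans hcl2
  have hder := norm_deriv_le_of_forall_mem_sphere_norm_le (by positivity : 0 < r / 8) hdc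
    (C := 6 * M) (fun z hz => hBC z (hcl (sphere_subset_closedBall hz)))
  have hsb : s ∈ ball s0 (r / 2) := by rw [mem_ball, dist_eq]; linarith
  rw [(hh s hsb).deriv] at hder
  calc ‖deriv g s / g s‖ ≤ 6 * M / (r / 8) := hder
    _ = 48 * M / r := by field_simp; ring

/-- **Landau's lemma.** -/
theorem landau (f : ℂ → ℂ) (hf : Differentiable ℂ f) (s0 : ℂ) (r M : ℝ) (hr : 0 < r)
    (hM : 0 < M) (h0 : f s0 ≠ 0)
    (hb : ∀ z ∈ closedBall s0 r, ‖f z‖ ≤ Real.exp M * ‖f s0‖) :
    ∃ Z : Multiset ℂ, (∀ ρ ∈ Z, ρ ∈ closedBall s0 (r / 2) ∧ f ρ = 0) ∧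
      (∀ z ∈ closedBall s0 (r / 2), f z = 0 → z ∈ Z) ∧
      ∀ s ∈ closedBall s0 (r / 4), f s ≠ 0 →
        ‖deriv f s / f s - (Z.map (fun ρ => 1 / (s - ρ))).sum‖ ≤ 48 * M / r := by
  have hne : ∃ z, f z ≠ 0 := ⟨s0, h0⟩
  have hfin := finite_zeros f hf hne (closedBall s0 (r / 2)) (isCompact_closedBall _ _)
  obtain ⟨Z, g, hg, hgK, hZ, hprod⟩ := factor_all (closedBall s0 (r / 2)) hfin.toFinset f hf hne
    (fun z hz h => by simp only [Set.Finite.mem_toFinset, mem_setOf_eq]; exact ⟨hz, h⟩)
  have hs0K : s0 ∈ closedBall s0 (r / 2) := by simp; positivity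
  have hmem : ∀ z ∈ closedBall s0 (r / 2), f z = 0 → z ∈ Z := by
    intro z hz hfz
    by_contra hcon
    have := prod_ne_zero Z z hcon
    rw [hprod z] at hfz
    rcases mul_eq_zero.mp hfz with h | h
    · exact this h
    · exact hgK z hz h
  refine ⟨Z, hZ, hmem, ?_⟩
  -- bound for g on the big ball
  have hZ0 : s0 ∉ Z := fun h => h0 (hZ s0 h).2
  have hP0 := prod_ne_zero Z s0 hZ0
  have hsph : ∀ z ∈ sphere s0 r, ‖g z‖ ≤ Real.exp M * ‖g s0‖ := by
    intro z hz
    have hz1 : ‖z - s0‖ = r := by simpa [dist_eq] using hz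
    have hle : ‖(Z.map (fun ρ => s0 - ρ)).prod‖ ≤ ‖(Z.map (fun ρ => z - ρ)).prod‖ := by
      apply norm_prod_le
      intro ρ hρ
      have h1 : ‖s0 - ρ‖ ≤ r / 2 := by
        have := (hZ ρ hρ).1
        rw [mem_closedBall, dist_comm, dist_eq] at this
        exact this
      have h2 : ‖z - s0‖ ≤ ‖z - ρ‖ + ‖s0 - ρ‖ := by
        have : z - s0 = (z - ρ) - (s0 - ρ) := by ring
        rw [this]; exact norm_sub_le _ _
      linarith
    have hbz := hb z (sphere_subset_closedBall hz)
    rw [hprod z, hprod s0, norm_mul, norm_mul] at hbz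
    have hPpos : 0 < ‖(Z.map (fun ρ => s0 - ρ)).prod‖ := norm_pos_iff.mpr hP0
    have h3 : ‖(Z.map (fun ρ => s0 - ρ)).prod‖ * ‖g z‖ ≤
        ‖(Z.map (fun ρ => s0 - ρ)).prod‖ * (Real.exp M * ‖g s0‖) := by
      calc _ ≤ ‖(Z.map (fun ρ => z - ρ)).prod‖ * ‖g z‖ := by gcongr
        _ ≤ _ := hbz
        _ = _ := by ring
    exact le_of_mul_le_mul_left h3 hPpos
  have hball : ∀ z ∈ closedBall s0 r, ‖g z‖ ≤ Real.exp M * ‖g s0‖ := by
    intro z hz
    have hcl : closure (ball s0 r) = closedBall s0 r := closure_ball s0 hr.ne'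
    have hfr : frontier (ball s0 r) = sphere s0 r := frontier_ball s0 hr.ne'
    apply norm_le_of_forall_mem_frontier_norm_le isBounded_ball (hg.diffContOnCl)
    · rw [hfr]; exact hsph
    · rw [hcl]; exact hz
  intro s hs hfs
  have hsZ : s ∉ Z := fun h => hfs (hZ s h).2
  have hgs : g s ≠ 0 := hgK s (closedBall_subset_closedBall (by linarith) hs)
  have hPs := prod_ne_zero Z s hsZ
  have hder : deriv f s = (Z.map (fun ρ => s - ρ)).prod * (Z.map (fun ρ => 1 / (s - ρ))).sum * g s
      + (Z.map (fun ρ => s - ρ)).prod * deriv g s := by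
    have h1 : f = fun z => (Z.map (fun ρ => z - ρ)).prod * g z := funext hprod
    have h2 := (hasDerivAt_prod Z s hsZ).mul (hg s).hasDerivAt
    rw [h1]
    exact h2.deriv
  have heq : deriv f s / f s - (Z.map (fun ρ => 1 / (s - ρ))).sum = deriv g s / g s := by
    rw [hder, hprod s]
    field_simp
    ring
  rw [heq]
  apply logderiv_bound g hg s0 r M hr hM hgK _ s hs
  intro z hz
  exact hball z (closedBall_subset_closedBall (by linarith) hz)

end Hoh
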