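import Mathlib

/-!
# Growth of `(s - 1) ζ(s)` in `Re s ≥ 1/2`
-/

namespace Hoh

open Complex Filter Topology Set

/-- The terms of the series for `(s-1) ζ(s) - 1`. -/
noncomputable def aTerm (n : ℕ) (s : ℂ) : ℂ :=
  (s - 1) * ((n + 1 : ℝ) : ℂ) ^ (-s) + (((n + 2 : ℝ) : ℂ) ^ (1 - s) - ((n + 1 : ℝ) : ℂ) ^ (1 - s))

lemma hasDerivAt_cpow_neg (s : ℂ) (x : ℝ) (hx : 0 < x) :
    HasDerivAt (fun u : ℝ => ((u : ℝ) : ℂ) ^ (-s)) (-s * (x : ℂ) ^ (-s - 1)) x := by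
  have h1 : HasDerivAt (fun z : ℂ => z ^ (-s)) (-s * (x : ℂ) ^ (-s - 1)) (x : ℂ) := by
    have := (hasDerivAt_id (x : ℂ)).cpow_const (c := -s) (Or.inl (by simpa using hx))
    simpa using this
  exact h1.comp_ofReal

lemma hasDerivAt_cpow_one_sub (s : ℂ) (x : ℝ) (hx : 0 < x) :
    HasDerivAt (fun u : ℝ => ((u : ℝ) : ℂ) ^ (1 - s)) ((1 - s) * (x : ℂ) ^ (-s)) x := by
  have h1 : HasDerivAt (fun z : ℂ => z ^ (1 - s)) ((1 - s) * (x : ℂ) ^ (-s)) (x : ℂ) := by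
    have := (hasDerivAt_id (x : ℂ)).cpow_const (c := 1 - s) (Or.inl (by simpa using hx))
    have e : (1 - s - 1 : ℂ) = -s := by ring
    simpa [e] using this
  exact h1.comp_ofReal

lemma cpow_diff_bound (s : ℂ) (hs : 0 < s.re) (m x : ℝ) (hm : 1 ≤ m) (hx : x ∈ Icc m (m + 1)) :
    ‖(x : ℂ) ^ (-s) - (m : ℂ) ^ (-s)‖ ≤ ‖s‖ * m ^ (-s.re - 1) := by
  have hder : ∀ u ∈ Icc m (m + 1), HasDerivWithinAt (fun u : ℝ => ((u : ℝ) : ℂ) ^ (-s))
      (-s * (u : ℂ) ^ (-s - 1)) (Icc m (m + 1)) u := fun u hu =>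
    (hasDerivAt_cpow_neg s u (by linarith [hu.1])).hasDerivWithinAt
  have hbd : ∀ u ∈ Ico m (m + 1), ‖-s * (u : ℂ) ^ (-s - 1)‖ ≤ ‖s‖ * m ^ (-s.re - 1) := by
    intro u hu
    have hu0 : 0 < u := by linarith [hu.1]
    rw [norm_mul, norm_neg, norm_cpow_eq_rpow_re_of_pos hu0]
    have : (-s - 1).re = -s.re - 1 := by simp
    rw [this]
    exact mul_le_mul_of_nonneg_left
      (Real.rpow_le_rpow_of_nonpos (by linarith) hu.1 (by linarith)) (norm_nonneg _)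
  have := norm_image_sub_le_of_norm_deriv_le_segment' hder hbd x hx
  refine this.trans ?_
  have h0 : 0 ≤ ‖s‖ * m ^ (-s.re - 1) := by positivity
  have h1 : x - m ≤ 1 := by linarith [hx.2]
  nlinarith

lemma aTerm_bound (n : ℕ) (s : ℂ) (hs : 0 < s.re) :
    ‖aTerm n s‖ ≤ ‖s - 1‖ * ‖s‖ * (n + 1 : ℝ) ^ (-s.re - 1) := by
  set m : ℝ := (n : ℝ) + 1 with hmdef
  have hm : 1 ≤ m := by rw [hmdef]; have : (0:ℝ) ≤ n := Nat.cast_nonneg n; linarith
  let F : ℝ → ℂ := fun x => (s - 1) * (m : ℂ) ^ (-s) * (x : ℂ) + ((x : ℝ) : ℂ) ^ (1 - s)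
  have hder : ∀ u ∈ Icc m (m + 1), HasDerivWithinAt F
      ((s - 1) * ((m : ℂ) ^ (-s) - (u : ℂ) ^ (-s))) (Icc m (m + 1)) u := by
    intro u hu
    have h1 := hasDerivAt_cpow_one_sub s u (by linarith [hu.1])
    have h2 : HasDerivAt (fun x : ℝ => (s - 1) * (m : ℂ) ^ (-s) * (x : ℂ))
        ((s - 1) * (m : ℂ) ^ (-s) * 1) u :=
      (hasDerivAt_id u).ofReal_comp.const_mul _
    exact ((h2.add h1).congr_deriv (by ring)).hasDerivWithinAt
  have hbd : ∀ u ∈ Ico m (m + 1), ‖(s - 1) * ((m : ℂ) ^ (-s) - (u : ℂ) ^ (-s))‖ ≤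
      ‖s - 1‖ * ‖s‖ * m ^ (-s.re - 1) := by
    intro u hu
    rw [norm_mul, mul_assoc, norm_sub_rev ((m : ℂ) ^ (-s))]
    gcongr
    exact cpow_diff_bound s hs m u hm ⟨hu.1, hu.2.le⟩
  have := norm_image_sub_le_of_norm_deriv_le_segment' hder hbd (m + 1) ⟨by linarith, le_refl _⟩
  have e : F (m + 1) - F m = aTerm n s := by
    simp only [F, aTerm]
    have e2 : ((n + 2 : ℝ) : ℂ) = ((m + 1 : ℝ) : ℂ) := by rw [hmdef]; push_cast; ring
    rw [e2, hmdef]
    push_cast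
    ring
  rw [e] at this
  refine this.trans (le_of_eq ?_)
  ring

lemma summable_shift (p : ℝ) (hp : 1 < p) : Summable (fun n : ℕ => ((n : ℝ) + 1) ^ (-p)) := by
  have h := (Real.summable_nat_rpow (p := -p)).mpr (by linarith)
  have h2 := (summable_nat_add_iff 1).mpr h
  simpa using h2

lemma differentiable_aTerm (n : ℕ) : Differentiable ℂ (aTerm n) := by
  have h1 : ((n + 1 : ℝ) : ℂ) ≠ 0 := by
    exact_mod_cast (by positivity : ((n : ℝ) + 1) ≠ 0)
  have h2 : ((n + 2 : ℝ) : ℂ) ≠ 0 := by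
    exact_mod_cast (by positivity : ((n : ℝ) + 2) ≠ 0)
  intro s
  unfold aTerm
  refine DifferentiableAt.add (DifferentiableAt.mul (by fun_prop) ?_) (DifferentiableAt.sub ?_ ?_)
  · exact (DifferentiableAt.const_cpow (by fun_prop) (Or.inl h1))
  · exact (DifferentiableAt.const_cpow (by fun_prop) (Or.inl h2))
  · exact (DifferentiableAt.const_cpow (by fun_prop) (Or.inl h1))

/-- The identity in the half plane of absolute convergence. -/
lemma zeta1_eq_of_one_lt (s : ℂ) (hs : 1 < s.re) :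
    riemannZeta₁ s = 1 + ∑' n : ℕ, aTerm n s := by
  have hs1 : s ≠ 1 := by intro h; rw [h] at hs; simp at hs
  have hz : riemannZeta₁ s = (s - 1) * riemannZeta s := by
    rw [riemannZeta_eq_inv_sub_mul hs1]
    have : s - 1 ≠ 0 := sub_ne_zero.mpr hs1
    field_simp
  have hsumA : Summable (fun n : ℕ => aTerm n s) := by
    apply Summable.of_norm_bounded (g := fun n : ℕ => ‖s - 1‖ * ‖s‖ * ((n : ℝ) + 1) ^ (-(s.re + 1)))
      ((summable_shift (s.re + 1) (by linarith)).mul_left _)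
    intro n
    have := aTerm_bound n s (by linarith)
    have e : -s.re - 1 = -(s.re + 1) := by ring
    rwa [e] at this
  have hsumB : Summable (fun n : ℕ => (s - 1) * ((n + 1 : ℝ) : ℂ) ^ (-s)) := by
    apply Summable.mul_left
    apply Summable.of_norm_bounded (g := fun n : ℕ => ((n : ℝ) + 1) ^ (-(s.re)))
      (summable_shift s.re hs)
    intro n
    have hpos : 0 < (n : ℝ) + 1 := by positivity
    rw [norm_cpow_eq_rpow_re_of_pos hpos]
    simp
  have htsB : ∑' n : ℕ, (s - 1) * ((n + 1 : ℝ) : ℂ) ^ (-s) = (s - 1) * riemannZeta s := by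
    rw [tsum_mul_left, zeta_eq_tsum_one_div_nat_add_one_cpow hs]
    congr 1
    apply tsum_congr
    intro n
    rw [cpow_neg, one_div]
    push_cast
    rfl
  have hsumC : Summable (fun n : ℕ => (((n + 2 : ℝ) : ℂ) ^ (1 - s) - ((n + 1 : ℝ) : ℂ) ^ (1 - s))) := by
    have : (fun n : ℕ => (((n + 2 : ℝ) : ℂ) ^ (1 - s) - ((n + 1 : ℝ) : ℂ) ^ (1 - s))) =
        fun n => aTerm n s - (s - 1) * ((n + 1 : ℝ) : ℂ) ^ (-s) := by
      funext n; simp only [aTerm]; ring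
    rw [this]
    exact hsumA.sub hsumB
  have htsC : ∑' n : ℕ, (((n + 2 : ℝ) : ℂ) ^ (1 - s) - ((n + 1 : ℝ) : ℂ) ^ (1 - s)) = -1 := by
    have hlim := hsumC.hasSum.tendsto_sum_nat
    have hpart : ∀ N : ℕ, ∑ n ∈ Finset.range N,
        (((n + 2 : ℝ) : ℂ) ^ (1 - s) - ((n + 1 : ℝ) : ℂ) ^ (1 - s)) =
        ((N + 1 : ℝ) : ℂ) ^ (1 - s) - 1 := by
      intro N
      induction N with
      | zero => simp
      | succ N ih =>
        rw [Finset.sum_range_succ, ih]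
        push_cast
        ring_nf
    simp_rw [hpart] at hlim
    have hlim2 : Tendsto (fun N : ℕ => ((N + 1 : ℝ) : ℂ) ^ (1 - s) - 1) atTop (𝓝 (0 - 1)) := by
      apply Tendsto.sub_const
      rw [tendsto_zero_iff_norm_tendsto_zero]
      have h1 : Tendsto (fun N : ℕ => ((N : ℝ) + 1)) atTop atTop :=
        tendsto_atTop_add_const_right _ _ tendsto_natCast_atTop_atTop
      have h2 := (tendsto_rpow_neg_atTop (show 0 < s.re - 1 by linarith)).comp h1
      refine h2.congr (fun N => ?_)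
      have hpos : 0 < (N : ℝ) + 1 := by positivity
      rw [Function.comp, norm_cpow_eq_rpow_re_of_pos hpos]
      congr 1
      simp
    have := tendsto_nhds_unique hlim hlim2
    rw [this]; ring
  have : ∑' n : ℕ, aTerm n s = (s - 1) * riemannZeta s - 1 := by
    have h1 : ∑' n : ℕ, aTerm n s = ∑' n : ℕ, (s - 1) * ((n + 1 : ℝ) : ℂ) ^ (-s) +
        ∑' n : ℕ, (((n + 2 : ℝ) : ℂ) ^ (1 - s) - ((n + 1 : ℝ) : ℂ) ^ (1 - s)) := by
      rw [← hsumB.tsum_add hsumC]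
      rfl
    rw [h1, htsB, htsC]; ring
  rw [this, hz]; ring

/-- The identity for `Re s > 1/4`. -/
lemma zeta1_eq (s : ℂ) (hs : 1 / 4 < s.re) : riemannZeta₁ s = 1 + ∑' n : ℕ, aTerm n s := by
  set R : ℝ := ‖s‖ + 3 with hR
  let U : Set ℂ := {z | 1 / 4 < z.re} ∩ Metric.ball 0 R
  have hUo : IsOpen U := (isOpen_lt continuous_const continuous_re).inter Metric.isOpen_ball
  have hUc : Convex ℝ U := (convex_halfSpace_re_gt (1 / 4)).inter (convex_ball 0 R)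
  have hsU : s ∈ U := ⟨hs, by simp [hR]⟩
  have h2U : (2 : ℂ) ∈ U := by
    refine ⟨by simp; norm_num, ?_⟩
    simp only [Metric.mem_ball, dist_zero_right, hR]
    have := norm_nonneg s
    simp
    linarith
  have hd1 : DifferentiableOn ℂ riemannZeta₁ U := differentiable_riemannZeta₁.differentiableOn
  have hd2 : DifferentiableOn ℂ (fun z => 1 + ∑' n : ℕ, aTerm n z) U := by
    apply DifferentiableOn.const_add
    apply differentiableOn_tsum_of_summable_norm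
      (u := fun n : ℕ => (R + 1) * R * ((n : ℝ) + 1) ^ (-(5 / 4 : ℝ)))
      ((summable_shift (5 / 4) (by norm_num)).mul_left _)
      (fun n => (differentiable_aTerm n).differentiableOn) hUo
    intro n z hz
    have hzR : ‖z‖ < R := by simpa using hz.2
    have hzr : 1 / 4 < z.re := hz.1
    refine (aTerm_bound n z (by linarith)).trans ?_
    have h1 : ‖z - 1‖ ≤ R + 1 := by
      have := norm_sub_le z 1
      simp at this; linarith
    have hR0 : 0 ≤ R := by rw [hR]; positivity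
    have h3 : ((n : ℝ) + 1) ^ (-z.re - 1) ≤ ((n : ℝ) + 1) ^ (-(5 / 4 : ℝ)) := by
      apply Real.rpow_le_rpow_of_exponent_le
      · have : (0:ℝ) ≤ n := Nat.cast_nonneg n
        linarith
      · linarith
    gcongr
  have han1 : AnalyticOnNhd ℂ riemannZeta₁ U := hd1.analyticOnNhd hUo
  have han2 : AnalyticOnNhd ℂ (fun z => 1 + ∑' n : ℕ, aTerm n z) U := hd2.analyticOnNhd hUo
  have hev : riemannZeta₁ =ᶠ[𝓝 2] fun z => 1 + ∑' n : ℕ, aTerm n z := by
    have : {z : ℂ | 1 < z.re} ∈ 𝓝 (2 : ℂ) :=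
      (isOpen_lt continuous_const continuous_re).mem_nhds (by simp)
    filter_upwards [this] with z hz
    exact zeta1_eq_of_one_lt z hz
  exact han1.eqOn_of_preconnected_of_eventuallyEq han2 hUc.isPreconnected h2U hev hsU

/-- Growth bound. -/
lemma zeta1_growth : ∃ B : ℝ, 1 ≤ B ∧ ∀ s : ℂ, 1 / 2 ≤ s.re →
    ‖riemannZeta₁ s‖ ≤ 1 + B * (‖s - 1‖ * ‖s‖) := by
  have hsum := summable_shift (3 / 2) (by norm_num)
  refine ⟨∑' n : ℕ, ((n : ℝ) + 1) ^ (-(3 / 2 : ℝ)), ?_, ?_⟩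
  · have := hsum.sum_le_tsum (Finset.range 1) (fun n _ => by positivity)
    simpa using this
  · intro s hs
    rw [zeta1_eq s (by linarith)]
    have hsumS : Summable (fun n : ℕ => ‖s - 1‖ * ‖s‖ * ((n : ℝ) + 1) ^ (-(3 / 2 : ℝ))) :=
      hsum.mul_left _
    have hterm : ∀ n : ℕ, ‖aTerm n s‖ ≤ ‖s - 1‖ * ‖s‖ * ((n : ℝ) + 1) ^ (-(3 / 2 : ℝ)) := by
      intro n
      refine (aTerm_bound n s (by linarith)).trans ?_
      gcongr
      · have : (0:ℝ) ≤ n := Nat.cast_nonneg n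
        linarith
      · linarith
    have h1 : ‖∑' n : ℕ, aTerm n s‖ ≤ ∑' n : ℕ, ‖s - 1‖ * ‖s‖ * ((n : ℝ) + 1) ^ (-(3 / 2 : ℝ)) :=
      tsum_of_norm_bounded hsumS.hasSum hterm
    rw [tsum_mul_left] at h1
    calc ‖1 + ∑' n : ℕ, aTerm n s‖ ≤ ‖(1 : ℂ)‖ + ‖∑' n : ℕ, aTerm n s‖ := norm_add_le _ _
      _ ≤ 1 + ‖s - 1‖ * ‖s‖ * ∑' n : ℕ, ((n : ℝ) + 1) ^ (-(3 / 2 : ℝ)) := by
          rw [norm_one]; gcongr
      _ = _ := by ring

end Hoh
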