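import Pool.Agent.Lib.MP_0bb3d8_nt.HohDefs
import Pool.Agent.Lib.MP_0bb3d8_nt.Landau
import Pool.Agent.Lib.MP_0bb3d8_nt.ZetaGrowth

/-!
# M1: the logarithmic derivative of zeta on `Re s > 1`
-/

namespace Hoh

open Complex Filter Topology Set Metric
open scoped ArithmeticFunction ArithmeticFunction.Moebius ArithmeticFunction.vonMangoldt

/-- `ℓ(t) = log (2 + |t|)`. -/
noncomputable def ell (t : ℝ) : ℝ := Real.log (2 + |t|)

lemma ell_ge (t : ℝ) : Real.log 2 ≤ ell t :=
  Real.log_le_log (by norm_num) (by linarith [abs_nonneg t])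

lemma log_two_pos : 0 < Real.log 2 := Real.log_pos (by norm_num)

lemma log_two_ge : (1 : ℝ) / 2 ≤ Real.log 2 := by
  have := Real.log_two_gt_d9
  linarith

lemma ell_pos (t : ℝ) : 0 < ell t := lt_of_lt_of_le log_two_pos (ell_ge t)

lemma ell_half (t : ℝ) : 1 / 2 ≤ ell t := log_two_ge.trans (ell_ge t)

/-- Lower bound for zeta on the line `Re s = 9/8`. -/
lemma zeta_lower : ∃ b : ℝ, 0 < b ∧ b ≤ 1 ∧ ∀ s : ℂ, s.re = 9 / 8 → b ≤ ‖riemannZeta s‖ := by
  have hsum : Summable (fun n : ℕ => (n : ℝ) ^ (-(9 / 8 : ℝ))) :=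
    Real.summable_nat_rpow.mpr (by norm_num)
  set B : ℝ := ∑' n : ℕ, (n : ℝ) ^ (-(9 / 8 : ℝ)) with hB
  have hB1 : 1 ≤ B := by
    have := hsum.sum_le_tsum ({1} : Finset ℕ) (fun n _ => by positivity)
    simpa using this
  refine ⟨1 / B, by positivity, by rw [div_le_one (by positivity)]; exact hB1, fun s hs => ?_⟩
  have hs1 : 1 < s.re := by rw [hs]; norm_num
  have hmul := LSeries_one_mul_Lseries_moebius hs1
  rw [LSeries_one_eq_riemannZeta hs1] at hmul
  have hmu : ‖LSeries (fun n => ((ArithmeticFunction.moebius n : ℤ) : ℂ)) s‖ ≤ B := by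
    apply tsum_of_norm_bounded hsum.hasSum
    intro n
    rw [LSeries.norm_term_eq]
    split_ifs with h
    · positivity
    · rw [hs, Real.rpow_neg (by positivity), div_eq_mul_inv]
      have h1 : ‖((ArithmeticFunction.moebius n : ℤ) : ℂ)‖ ≤ 1 := by
        rw [Complex.norm_intCast]
        exact_mod_cast ArithmeticFunction.abs_moebius_le_one
      calc _ ≤ 1 * ((n : ℝ) ^ (9 / 8 : ℝ))⁻¹ := by gcongr
        _ = _ := one_mul _
  have h2 : 1 = ‖riemannZeta s‖ * ‖LSeries (fun n => ((ArithmeticFunction.moebius n : ℤ) : ℂ)) s‖ := by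
    rw [← norm_mul]
    rw [show riemannZeta s * LSeries (fun n => ((ArithmeticFunction.moebius n : ℤ) : ℂ)) s = 1
      from hmul]
    simp
  rw [div_le_iff₀ (by positivity)]
  calc (1 : ℝ) = ‖riemannZeta s‖ * ‖LSeries (fun n => ((ArithmeticFunction.moebius n : ℤ) : ℂ)) s‖ := h2
    _ ≤ ‖riemannZeta s‖ * B := by gcongr

lemma zeta1_eq_mul (s : ℂ) (hs : s ≠ 1) : riemannZeta₁ s = (s - 1) * riemannZeta s := by
  rw [riemannZeta_eq_inv_sub_mul hs]
  have : s - 1 ≠ 0 := sub_ne_zero.mpr hs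
  field_simp

lemma zeta1_ne_zero (s : ℂ) (hs : 1 ≤ s.re) : riemannZeta₁ s ≠ 0 := by
  by_cases h : s = 1
  · rw [h, riemannZeta₁_one]; exact one_ne_zero
  · rw [zeta1_eq_mul s h]
    exact mul_ne_zero (sub_ne_zero.mpr h) (riemannZeta_ne_zero_of_one_le_re hs)

/-- Landau's lemma for `(s-1) ζ(s)`, at all heights. -/
lemma zeta1_landau : ∃ A : ℝ, 0 < A ∧ ∀ t : ℝ, ∃ Z : Multiset ℂ,
    (∀ ρ ∈ Z, ρ ∈ closedBall ((9 / 8 : ℝ) + t * I : ℂ) (1 / 4) ∧ riemannZeta₁ ρ = 0) ∧
    (∀ z ∈ closedBall ((9 / 8 : ℝ) + t * I : ℂ) (1 / 4), riemannZeta₁ z = 0 → z ∈ Z) ∧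
    ∀ s ∈ closedBall ((9 / 8 : ℝ) + t * I : ℂ) (1 / 8), riemannZeta₁ s ≠ 0 →
      ‖deriv riemannZeta₁ s / riemannZeta₁ s - (Z.map (fun ρ => 1 / (s - ρ))).sum‖ ≤ A * ell t := by
  obtain ⟨B, hB1, hB⟩ := zeta1_growth
  obtain ⟨b, hb0, hb1, hb⟩ := zeta_lower
  set K : ℝ := 2 + 2 * Real.log (72 * B / b) with hK
  have hBb : 1 ≤ 72 * B / b := by
    rw [le_div_iff₀ hb0]; linarith
  have hlogBb : 0 ≤ Real.log (72 * B / b) := Real.log_nonneg hBb
  have hK0 : 0 < K := by rw [hK]; linarith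
  refine ⟨96 * K, by positivity, fun t => ?_⟩
  set s0 : ℂ := (9 / 8 : ℝ) + t * I with hs0
  have hs0re : s0.re = 9 / 8 := by rw [hs0]; simp
  have hs0im : s0.im = t := by rw [hs0]; simp
  have hs01 : s0 ≠ 1 := by
    intro h; rw [h] at hs0re; norm_num at hs0re
  have hlow : b / 8 ≤ ‖riemannZeta₁ s0‖ := by
    rw [zeta1_eq_mul s0 hs01, norm_mul]
    have h1 := hb s0 hs0re
    have h2 : 1 / 8 ≤ ‖s0 - 1‖ := by
      have := Complex.abs_re_le_norm (s0 - 1)
      rw [sub_re, hs0re, one_re] at this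
      norm_num at this ⊢
      exact this
    calc b / 8 = 1 / 8 * b := by ring
      _ ≤ ‖s0 - 1‖ * ‖riemannZeta s0‖ := by gcongr
  have hne : riemannZeta₁ s0 ≠ 0 := by
    intro h; rw [h, norm_zero] at hlow; linarith
  have hM0 : 0 < K * ell t := mul_pos hK0 (ell_pos t)
  have hbound : ∀ z ∈ closedBall s0 (1 / 2), ‖riemannZeta₁ z‖ ≤
      Real.exp (K * ell t) * ‖riemannZeta₁ s0‖ := by
    intro z hz
    have hz' : ‖z - s0‖ ≤ 1 / 2 := by simpa [dist_eq] using hz
    have hzre : 1 / 2 ≤ z.re := by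
      have h1 := (Complex.abs_re_le_norm (z - s0)).trans hz'
      rw [sub_re, hs0re] at h1
      have := (abs_le.mp h1).1
      linarith
    have hs0n : ‖s0‖ ≤ 9 / 8 + |t| := by
      have := Complex.norm_le_abs_re_add_abs_im s0
      rw [hs0re, hs0im] at this
      have h9 : |(9 / 8 : ℝ)| = 9 / 8 := abs_of_pos (by norm_num)
      rwa [h9] at this
    have hzn : ‖z‖ ≤ 2 + |t| := by
      have : ‖z‖ ≤ ‖z - s0‖ + ‖s0‖ := by
        have e : z = (z - s0) + s0 := by ring
        nth_rewrite 1 [e]; exact norm_add_le _ _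
      linarith
    have hzn1 : ‖z - 1‖ ≤ 3 + |t| := by
      have := norm_sub_le z 1
      rw [norm_one] at this
      linarith
    have ht0 := abs_nonneg t
    have hgr := hB z hzre
    have h3 : ‖riemannZeta₁ z‖ ≤ 9 * B * (2 + |t|) ^ 2 := by
      have h4 : ‖z - 1‖ * ‖z‖ ≤ (3 + |t|) * (2 + |t|) := by gcongr
      have h5 : 1 + B * ((3 + |t|) * (2 + |t|)) ≤ 9 * B * (2 + |t|) ^ 2 := by
        nlinarith [mul_nonneg (by linarith : (0:ℝ) ≤ B) ht0,
          mul_nonneg (mul_nonneg (by linarith : (0:ℝ) ≤ B) ht0) ht0]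
      calc ‖riemannZeta₁ z‖ ≤ 1 + B * (‖z - 1‖ * ‖z‖) := hgr
        _ ≤ 1 + B * ((3 + |t|) * (2 + |t|)) := by gcongr
        _ ≤ _ := h5
    have hexp : 72 * B / b * (2 + |t|) ^ 2 ≤ Real.exp (K * ell t) := by
      have hpos : 0 < 2 + |t| := by linarith
      rw [← Real.exp_log (show 0 < 72 * B / b * (2 + |t|) ^ 2 by positivity)]
      apply Real.exp_le_exp.mpr
      rw [Real.log_mul (by positivity) (by positivity), Real.log_pow, hK]
      have he : Real.log (2 + |t|) = ell t := rfl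
      rw [he]
      have := ell_half t
      push_cast
      nlinarith
    calc ‖riemannZeta₁ z‖ ≤ 9 * B * (2 + |t|) ^ 2 := h3
      _ = 72 * B / b * (2 + |t|) ^ 2 * (b / 8) := by field_simp; ring
      _ ≤ Real.exp (K * ell t) * ‖riemannZeta₁ s0‖ := by gcongr
  obtain ⟨Z, h1, h2, h3⟩ := landau riemannZeta₁ differentiable_riemannZeta₁ s0 (1 / 2) (K * ell t)
    (by norm_num) hM0 hne hbound
  refine ⟨Z, ?_, ?_, ?_⟩
  · intro ρ hρ
    have := h1 ρ hρ
    norm_num at this ⊢
    exact this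
  · intro z hz hz0
    apply h2 z _ hz0
    norm_num at hz ⊢
    exact hz
  · intro s hs hs0'
    have := h3 s (by norm_num at hs ⊢; exact hs) hs0'
    refine this.trans (le_of_eq ?_)
    ring

/-- log-derivatives of `ζ₁` and `ζ`. -/
lemma logderiv_zeta (s : ℂ) (hs : s ≠ 1) (hz : riemannZeta s ≠ 0) :
    deriv riemannZeta s / riemannZeta s =
      deriv riemannZeta₁ s / riemannZeta₁ s - 1 / (s - 1) := by
  rw [deriv_riemannZeta_eq_neg_inv_sub_sq_mul_add hs, zeta1_eq_mul s hs]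
  have : s - 1 ≠ 0 := sub_ne_zero.mpr hs
  field_simp
  ring

/-- bound by the value on the real axis -/
lemma norm_logderiv_le (σ t : ℝ) (hσ : 0 < σ) :
    ‖deriv riemannZeta (1 + σ + t * I) / riemannZeta (1 + σ + t * I)‖ ≤
      (-(deriv riemannZeta (1 + σ : ℂ) / riemannZeta (1 + σ))).re := by
  have hs : 1 < (1 + σ + t * I : ℂ).re := by simp; exact hσ
  have hs' : 1 < (1 + σ : ℂ).re := by simp; exact hσ
  have h1 := ArithmeticFunction.LSeries_vonMangoldt_eq_deriv_riemannZeta_div hs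
  have h2 := ArithmeticFunction.LSeries_vonMangoldt_eq_deriv_riemannZeta_div hs'
  have e1 : ‖deriv riemannZeta (1 + σ + t * I) / riemannZeta (1 + σ + t * I)‖ =
      ‖LSeries (fun n => (ArithmeticFunction.vonMangoldt n : ℂ)) (1 + σ + t * I)‖ := by
    rw [h1, neg_div, norm_neg]
  have e2 : -(deriv riemannZeta (1 + σ : ℂ) / riemannZeta (1 + σ)) =
      LSeries (fun n => (ArithmeticFunction.vonMangoldt n : ℂ)) (1 + σ : ℂ) := by
    rw [h2, neg_div]
  rw [e1, e2]
  have hsum := ArithmeticFunction.LSeriesSummable_vonMangoldt hs'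
  have hterm : ∀ n : ℕ, ‖LSeries.term (fun n => (ArithmeticFunction.vonMangoldt n : ℂ))
      (1 + σ + t * I) n‖ = (LSeries.term (fun n => (ArithmeticFunction.vonMangoldt n : ℂ))
      (1 + σ : ℂ) n).re := by
    intro n
    rw [LSeries.norm_term_eq]
    split_ifs with h
    · simp [h]
    · rw [LSeries.term_of_ne_zero h]
      have e3 : (1 + σ + t * I : ℂ).re = 1 + σ := by simp
      have e4 : ((n : ℂ) ^ (1 + σ : ℂ)) = (((n : ℝ) ^ (1 + σ) : ℝ) : ℂ) := by
        rw [Complex.ofReal_cpow (by positivity)]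
        push_cast
        rfl
      rw [e3, e4, ← Complex.ofReal_div, Complex.ofReal_re, Complex.norm_real,
        Real.norm_of_nonneg ArithmeticFunction.vonMangoldt_nonneg]
  have hsumn : Summable (fun n : ℕ => ‖LSeries.term (fun n => (ArithmeticFunction.vonMangoldt n : ℂ))
      (1 + σ + t * I) n‖) := by
    simp_rw [hterm]
    exact (Complex.hasSum_re hsum.hasSum).summable
  have h5 := norm_tsum_le_tsum_norm hsumn
  have h6 := Complex.re_tsum hsum
  simp_rw [hterm] at h5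
  rw [← h6] at h5
  exact h5

/-- 3-4-1 -/
lemma three_four_one (σ t : ℝ) (hσ : 0 < σ) :
    0 ≤ 3 * (-(deriv riemannZeta (1 + σ : ℂ) / riemannZeta (1 + σ))).re +
      4 * (-(deriv riemannZeta (1 + σ + t * I) / riemannZeta (1 + σ + t * I))).re +
      (-(deriv riemannZeta (1 + σ + (2 * t : ℝ) * I) / riemannZeta (1 + σ + (2 * t : ℝ) * I))).re := by
  have key : ∀ u : ℝ, HasSum (fun n : ℕ => if n = 0 then 0 else
      ArithmeticFunction.vonMangoldt n * (n : ℝ) ^ (-(1 + σ)) * Real.cos (u * Real.log n))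
      (-(deriv riemannZeta (1 + σ + u * I) / riemannZeta (1 + σ + u * I))).re := by
    intro u
    have hs : 1 < (1 + σ + u * I : ℂ).re := by simp; exact hσ
    have h1 := ArithmeticFunction.LSeries_vonMangoldt_eq_deriv_riemannZeta_div hs
    have hsum := ArithmeticFunction.LSeriesSummable_vonMangoldt hs
    have h2 := Complex.hasSum_re hsum.hasSum
    have e : (∑' n, LSeries.term (fun n => (ArithmeticFunction.vonMangoldt n : ℂ))
        (1 + σ + u * I) n) = -(deriv riemannZeta (1 + σ + u * I) / riemannZeta (1 + σ + u * I)) := by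
      rw [← neg_div]; exact h1
    rw [e] at h2
    refine h2.congr_fun ?_
    intro n
    by_cases hn : n = 0
    · simp [hn]
    · rw [if_neg hn, LSeries.term_of_ne_zero hn]
      have hn0 : (0 : ℝ) < n := by positivity
      have hnc : (n : ℂ) ≠ 0 := by exact_mod_cast hn
      rw [div_eq_mul_inv, ← cpow_neg, Complex.re_ofReal_mul, mul_assoc]
      congr 1
      rw [cpow_def_of_ne_zero hnc, Complex.exp_re]
      have hlog : Complex.log (n : ℂ) = ((Real.log n : ℝ) : ℂ) := by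
        rw [Complex.natCast_log]
      rw [hlog]
      have er : ∀ l : ℝ, (((l : ℝ) : ℂ) * -(1 + σ + u * I)).re = -(1 + σ) * l := by
        intro l; simp; ring
      have ei : ∀ l : ℝ, (((l : ℝ) : ℂ) * -(1 + σ + u * I)).im = -(u * l) := by
        intro l; simp; ring
      rw [er, ei, Real.cos_neg, Real.rpow_def_of_pos hn0]
      congr 2
      ring
  have k0 := key 0
  have k1 := key t
  have k2 := key (2 * t)
  have e0 : (1 + σ + ((0 : ℝ) : ℂ) * I : ℂ) = 1 + σ := by simp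
  rw [e0] at k0
  have hs := ((k0.mul_left 3).add (k1.mul_left 4)).add k2
  refine hs.nonneg (fun n => ?_)
  by_cases hn : n = 0
  · simp [hn]
  · simp only [if_neg hn]
    have h1 : 0 ≤ ArithmeticFunction.vonMangoldt n * (n : ℝ) ^ (-(1 + σ)) :=
      mul_nonneg ArithmeticFunction.vonMangoldt_nonneg (by positivity)
    have h2 : 0 ≤ 3 + 4 * Real.cos (t * Real.log n) + Real.cos (2 * t * Real.log n) := by
      have : Real.cos (2 * t * Real.log n) = 2 * Real.cos (t * Real.log n) ^ 2 - 1 := by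
        rw [← Real.cos_two_mul]; ring_nf
      rw [this]
      nlinarith [sq_nonneg (Real.cos (t * Real.log n) + 1)]
    have : 3 * (ArithmeticFunction.vonMangoldt n * (n : ℝ) ^ (-(1 + σ)) * Real.cos (0 * Real.log n)) +
        4 * (ArithmeticFunction.vonMangoldt n * (n : ℝ) ^ (-(1 + σ)) * Real.cos (t * Real.log n)) +
        ArithmeticFunction.vonMangoldt n * (n : ℝ) ^ (-(1 + σ)) * Real.cos (2 * t * Real.log n) =
        (ArithmeticFunction.vonMangoldt n * (n : ℝ) ^ (-(1 + σ))) *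
        (3 + 4 * Real.cos (t * Real.log n) + Real.cos (2 * t * Real.log n)) := by
      rw [zero_mul, Real.cos_zero]; ring
    rw [this]
    exact mul_nonneg h1 h2

end Hoh
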