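import Pool.Agent.Lib.MP_0bb3d8_nt.HohDefs

/-!
Module M3: Brun-Titchmarsh inequality (with some constant) from the fundamental lemma.
-/

namespace Hoh

open Finset

/-- Number of multiples of `d` in `(a, b]`. -/
lemma card_multiples_Ioc (a b d : ℕ) (hd : 0 < d) (hab : a ≤ b) :
    |((((Ioc a b).filter (fun n => d ∣ n)).card : ℝ)) - ((b : ℝ) - a) / d| ≤ 1 := by
  have h1 : (((Ioc a b).filter (fun n => d ∣ n)).card) + a / d = b / d := by
    rw [← Nat.Ioc_filter_dvd_card_eq_div b d, ← Nat.Ioc_filter_dvd_card_eq_div a d,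
      ← card_union_of_disjoint]
    · congr 1
      ext x
      simp only [mem_union, mem_filter, mem_Ioc]
      constructor
      · rintro (⟨⟨h1, h2⟩, h3⟩ | ⟨⟨h1, h2⟩, h3⟩)
        · exact ⟨⟨by omega, h2⟩, h3⟩
        · exact ⟨⟨h1, by omega⟩, h3⟩
      · rintro ⟨⟨h1, h2⟩, h3⟩
        by_cases h : a < x
        · exact Or.inl ⟨⟨h, h2⟩, h3⟩
        · exact Or.inr ⟨⟨h1, by omega⟩, h3⟩
    · rw [Finset.disjoint_left]
      intro x hx hx'
      simp only [mem_filter, mem_Ioc] at hx hx'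
      omega
  have h2 : (((Ioc a b).filter (fun n => d ∣ n)).card : ℝ) = ((b / d : ℕ) : ℝ) - ((a / d : ℕ) : ℝ) := by
    rw [← h1]; push_cast; ring
  rw [h2]
  have hd' : (0 : ℝ) < d := by exact_mod_cast hd
  have hb1 : ((b / d : ℕ) : ℝ) ≤ (b : ℝ) / d := Nat.cast_div_le
  have ha1 : ((a / d : ℕ) : ℝ) ≤ (a : ℝ) / d := Nat.cast_div_le
  have hb2 : (b : ℝ) / d < ((b / d : ℕ) : ℝ) + 1 := by
    rw [div_lt_iff₀ hd']
    have h := Nat.lt_mul_div_succ b hd; rw [mul_comm] at h; exact_mod_cast h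
  have ha2 : (a : ℝ) / d < ((a / d : ℕ) : ℝ) + 1 := by
    rw [div_lt_iff₀ hd']
    have h := Nat.lt_mul_div_succ a hd; rw [mul_comm] at h; exact_mod_cast h
  rw [abs_le, sub_div]
  constructor <;> linarith

/-- Exchange of the order of summation for an upper bound sieve. -/
lemma sum_divisors_Ioc (lam : ℕ → ℝ) (D : ℝ) (a b : ℕ)
    (hsupp : ∀ d, lam d ≠ 0 → 1 ≤ d ∧ (d : ℝ) ≤ D) :
    ∑ n ∈ Ioc a b, ∑ d ∈ n.divisors, lam d =
      ∑ d ∈ Icc 1 ⌊D⌋₊, lam d * (((Ioc a b).filter (fun n => d ∣ n)).card : ℝ) := by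
  have h1 : ∀ n ∈ Ioc a b, ∑ d ∈ n.divisors, lam d =
      ∑ d ∈ Icc 1 ⌊D⌋₊, if d ∣ n then lam d else 0 := by
    intro n hn
    have hn0 : n ≠ 0 := by
      rw [mem_Ioc] at hn
      omega
    rw [← Finset.sum_filter]
    apply Finset.sum_congr_of_eq_on_inter
    · intro d hd hd'
      by_contra h0
      obtain ⟨h1, h2⟩ := hsupp d h0
      apply hd'
      rw [mem_filter, mem_Icc]
      exact ⟨⟨h1, Nat.le_floor h2⟩, Nat.dvd_of_mem_divisors hd⟩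
    · intro d hd hd'
      exfalso
      apply hd'
      rw [mem_filter] at hd
      exact Nat.mem_divisors.mpr ⟨hd.2, hn0⟩
    · intro d _ _
      rfl
  rw [Finset.sum_congr rfl h1, Finset.sum_comm]
  apply Finset.sum_congr rfl
  intro d _
  rw [← Finset.sum_filter, Finset.sum_const, nsmul_eq_mul, mul_comm]

theorem brunTitchmarsh (hF : FundLemma) (hV : VUpper) : BrunTitchmarsh := by
  classical
  obtain ⟨c, C, hc, hC, hF⟩ := hF
  obtain ⟨C', hC', hV⟩ := hV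
  refine ⟨5 + 2 * (1 + C) * C' * 2 + 4, by positivity, ?_⟩
  intro u v hu hv
  have hlogv : 0 < Real.log v := Real.log_pos (by linarith)
  have hN : ((⌊u + v⌋₊ : ℝ)) - ⌊u⌋₊ ≤ v + 1 := by
    have h1 : (⌊u + v⌋₊ : ℝ) ≤ u + v := Nat.floor_le (by linarith)
    have h2 : u < (⌊u⌋₊ : ℝ) + 1 := Nat.lt_floor_add_one u
    linarith
  have hab : ⌊u⌋₊ ≤ ⌊u + v⌋₊ := Nat.floor_mono (by linarith)
  have hlogle : Real.log v ≤ v := (Real.log_le_sub_one_of_pos (by linarith)).trans (by linarith)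
  by_cases hv4 : v < 4
  · have h1 : (((Ioc ⌊u⌋₊ ⌊u + v⌋₊).filter Nat.Prime).card : ℝ) ≤ 5 := by
      have h2 : (((Ioc ⌊u⌋₊ ⌊u + v⌋₊).filter Nat.Prime).card : ℝ) ≤ ((Ioc ⌊u⌋₊ ⌊u + v⌋₊).card : ℝ) := by
        exact_mod_cast Finset.card_filter_le _ _
      rw [Nat.card_Ioc, Nat.cast_sub hab] at h2
      linarith
    refine h1.trans ?_
    rw [le_div_iff₀ hlogv]
    have : 0 ≤ 2 * (1 + C) * C' * 2 := by positivity
    nlinarith
  push Not at hv4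
  set y : ℝ := Real.sqrt v with hy
  have hy2 : 2 ≤ y := by
    rw [hy]
    apply Real.le_sqrt_of_sq_le
    linarith
  have hyv : y ^ 2 = v := Real.sq_sqrt (by linarith)
  have hlogy : Real.log v = 2 * Real.log y := by
    rw [← hyv, Real.log_pow]; norm_num
  have hlogy0 : 0 < Real.log y := Real.log_pos (by linarith)
  obtain ⟨lp, lm, hb, hsupp, hsieve, hp, -⟩ := hF y y hy2 le_rfl
  have hVy := hV y hy2
  have hV0 : 0 ≤ V y := by
    unfold V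
    apply Finset.prod_nonneg
    intro p hp
    rw [mem_filter] at hp
    have : (1 : ℝ) ≤ p := by exact_mod_cast hp.2.one_lt.le
    rw [sub_nonneg, div_le_one (by linarith)]
    exact this
  have hexp : Real.exp (-c * (Real.log y / Real.log y)) ≤ 1 := by
    rw [Real.exp_le_one_iff]
    have : 0 ≤ Real.log y / Real.log y := by positivity
    nlinarith
  have hsum : ∑ d ∈ Icc 1 ⌊y⌋₊, lp d / d ≤ (1 + C) * V y := by
    have h1 := (abs_le.mp hp).2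
    have h2 : C * Real.exp (-c * (Real.log y / Real.log y)) * V y ≤ C * V y := by
      have := mul_le_mul_of_nonneg_left hexp (mul_nonneg hC.le hV0)
      nlinarith
    linarith
  -- split the primes
  have hcount : (((Ioc ⌊u⌋₊ ⌊u + v⌋₊).filter Nat.Prime).card : ℝ) ≤
      y + ∑ n ∈ Ioc ⌊u⌋₊ ⌊u + v⌋₊, rough y n := by
    have h1 : ((Ioc ⌊u⌋₊ ⌊u + v⌋₊).filter Nat.Prime) ⊆
        (Ioc 0 ⌊y⌋₊) ∪ ((Ioc ⌊u⌋₊ ⌊u + v⌋₊).filter (fun n => n ≠ 0 ∧ Rough y n)) := by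
      intro p hp
      rw [mem_filter] at hp
      rw [mem_union]
      by_cases h : (p : ℝ) ≤ y
      · left
        rw [mem_Ioc]
        exact ⟨hp.2.pos, Nat.le_floor h⟩
      · right
        rw [mem_filter]
        refine ⟨hp.1, hp.2.ne_zero, ?_⟩
        intro q hq hqp
        rw [(Nat.prime_dvd_prime_iff_eq hq hp.2).mp hqp]
        linarith
    have h2 : (((Ioc ⌊u⌋₊ ⌊u + v⌋₊).filter Nat.Prime).card : ℝ) ≤
        ((Ioc 0 ⌊y⌋₊).card : ℝ) +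
          (((Ioc ⌊u⌋₊ ⌊u + v⌋₊).filter (fun n => n ≠ 0 ∧ Rough y n)).card : ℝ) := by
      exact_mod_cast (Finset.card_le_card h1).trans (Finset.card_union_le _ _)
    have h3 : ((Ioc 0 ⌊y⌋₊).card : ℝ) ≤ y := by
      rw [Nat.card_Ioc, Nat.sub_zero]
      exact Nat.floor_le (by linarith)
    have h4 : (((Ioc ⌊u⌋₊ ⌊u + v⌋₊).filter (fun n => n ≠ 0 ∧ Rough y n)).card : ℝ) =
        ∑ n ∈ Ioc ⌊u⌋₊ ⌊u + v⌋₊, rough y n := by
      rw [Finset.card_filter, Nat.cast_sum]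
      apply Finset.sum_congr rfl
      intro n _
      unfold rough
      simp only [ArithmeticFunction.coe_mk]
      split_ifs <;> simp
    rw [h4] at h2
    linarith
  have hrough : ∑ n ∈ Ioc ⌊u⌋₊ ⌊u + v⌋₊, rough y n ≤
      ∑ n ∈ Ioc ⌊u⌋₊ ⌊u + v⌋₊, ∑ d ∈ n.divisors, lp d := by
    apply Finset.sum_le_sum
    intro n hn
    rw [mem_Ioc] at hn
    exact (hsieve n (by omega)).2
  rw [sum_divisors_Ioc lp y _ _ (fun d hd => hsupp d (Or.inl hd))] at hrough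
  have hmain : ∑ d ∈ Icc 1 ⌊y⌋₊, lp d * (((Ioc ⌊u⌋₊ ⌊u + v⌋₊).filter (fun n => d ∣ n)).card : ℝ) ≤
      (((⌊u + v⌋₊ : ℝ)) - ⌊u⌋₊) * ∑ d ∈ Icc 1 ⌊y⌋₊, lp d / d + y := by
    have h1 : ∀ d ∈ Icc 1 ⌊y⌋₊, lp d * (((Ioc ⌊u⌋₊ ⌊u + v⌋₊).filter (fun n => d ∣ n)).card : ℝ) ≤
        (((⌊u + v⌋₊ : ℝ)) - ⌊u⌋₊) * (lp d / d) + 1 := by
      intro d hd
      rw [mem_Icc] at hd
      have h2 := card_multiples_Ioc ⌊u⌋₊ ⌊u + v⌋₊ d hd.1 hab
      set N := (((Ioc ⌊u⌋₊ ⌊u + v⌋₊).filter (fun n => d ∣ n)).card : ℝ)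
      have h3 : lp d * (N - ((⌊u + v⌋₊ : ℝ) - ⌊u⌋₊) / d) ≤ 1 := by
        calc _ ≤ |lp d * (N - ((⌊u + v⌋₊ : ℝ) - ⌊u⌋₊) / d)| := le_abs_self _
          _ = |lp d| * |N - ((⌊u + v⌋₊ : ℝ) - ⌊u⌋₊) / d| := abs_mul _ _
          _ ≤ 1 * 1 := mul_le_mul (hb d).1 h2 (abs_nonneg _) zero_le_one
          _ = 1 := one_mul 1
      have h4 : lp d * (((⌊u + v⌋₊ : ℝ) - ⌊u⌋₊) / d) = (((⌊u + v⌋₊ : ℝ)) - ⌊u⌋₊) * (lp d / d) := by
        ring
      linarith [mul_sub (lp d) N (((⌊u + v⌋₊ : ℝ) - ⌊u⌋₊) / d)]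
    refine (Finset.sum_le_sum h1).trans ?_
    rw [Finset.sum_add_distrib, ← Finset.mul_sum, Finset.sum_const, Nat.card_Icc, nsmul_eq_mul,
      mul_one, Nat.add_sub_cancel]
    have := Nat.floor_le (show 0 ≤ y by linarith)
    linarith
  have hNn : (0 : ℝ) ≤ ((⌊u + v⌋₊ : ℝ)) - ⌊u⌋₊ := by
    rw [sub_nonneg]; exact_mod_cast hab
  have h5 : (((⌊u + v⌋₊ : ℝ)) - ⌊u⌋₊) * ∑ d ∈ Icc 1 ⌊y⌋₊, lp d / d ≤
      (v + 1) * ((1 + C) * (C' / Real.log y)) := by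
    calc _ ≤ (((⌊u + v⌋₊ : ℝ)) - ⌊u⌋₊) * ((1 + C) * V y) := by gcongr
      _ ≤ (v + 1) * ((1 + C) * (C' / Real.log y)) := by gcongr
  have h6 : (v + 1) * ((1 + C) * (C' / Real.log y)) ≤ (2 * (1 + C) * C' * 2) * v / Real.log v := by
    rw [hlogy]
    have : (v + 1) * ((1 + C) * (C' / Real.log y)) = (v + 1) * ((1 + C) * C') / Real.log y := by ring
    rw [this, div_le_div_iff₀ hlogy0 (by positivity)]
    have h7 : (v + 1) ≤ 2 * v := by linarith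
    have h8 : 0 ≤ (1 + C) * C' * Real.log y := by positivity
    nlinarith
  have h7 : y ≤ 2 * v / Real.log v := by
    rw [le_div_iff₀ hlogv, hlogy]
    have h8 : Real.log y ≤ y := (Real.log_le_sub_one_of_pos (by linarith)).trans (by linarith)
    nlinarith
  have h8 : (5 + 2 * (1 + C) * C' * 2 + 4) * v / Real.log v =
      (2 * (1 + C) * C' * 2) * v / Real.log v + 9 * v / Real.log v := by ring
  have h9 : 9 * v / Real.log v ≥ 2 * (2 * v / Real.log v) := by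
    have : 0 ≤ v / Real.log v := by positivity
    have e1 : 9 * v / Real.log v = 9 * (v / Real.log v) := by ring
    have e2 : 2 * (2 * v / Real.log v) = 4 * (v / Real.log v) := by ring
    rw [e1, e2]
    linarith
  linarith

end Hoh
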