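import Pool.Agent.Lib.MP_0bb3d8_nt.HohDefs

/-!
Module M4: mean square of prime Dirichlet series on short intervals, from Brun-Titchmarsh.
-/

namespace Hoh

open Finset Complex MeasureTheory FourierTransform

/-- Primes in a short logarithmic window. -/
lemma window_bound {C : ℝ} (hC : 0 < C)
    (hBT : ∀ u v : ℝ, 0 ≤ u → 2 ≤ v →
      (((Finset.Ioc ⌊u⌋₊ ⌊u + v⌋₊).filter Nat.Prime).card : ℝ) ≤ C * v / Real.log v)
    (y U u : ℝ) (hy : 2 ≤ y) (hU : 1 ≤ U) (hUy : U ≤ Real.sqrt y) (hu : Real.log y < u) (N : ℕ) :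
    ∑ n ∈ (range N).filter (fun n : ℕ => n.Prime ∧ u - 1 / U < Real.log n ∧ Real.log n < u),
      (1 / (n : ℝ)) ≤ 24 * C / (U * (u + 1)) := by
  set w : ℝ := Real.exp (u - 1 / U) with hw
  have hw0 : 0 < w := Real.exp_pos _
  have hU0 : 0 < U := by linarith
  have hy0 : 0 < y := by linarith
  have hlogy : 0 < Real.log y := Real.log_pos (by linarith)
  have hu0 : 0 < u := by linarith
  have h1U : 1 / U ≤ 1 := by rw [div_le_one hU0]; exact hU
  -- w * exp 1 > y
  have hye : y < w * Real.exp 1 := by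
    rw [hw, ← Real.exp_add]
    calc y = Real.exp (Real.log y) := (Real.exp_log hy0).symm
      _ < Real.exp (u - 1 / U + 1) := by
        apply Real.exp_lt_exp.mpr
        linarith
  have he3 : Real.exp 1 < 2.7182818286 := Real.exp_one_lt_d9
  have hU2 : U ^ 2 ≤ y := by
    calc U ^ 2 ≤ (Real.sqrt y) ^ 2 := by gcongr
      _ = y := Real.sq_sqrt hy0.le
  have hU3 : U ^ 2 ≤ 2.72 * w := by
    have : w * Real.exp 1 ≤ w * 2.72 := by gcongr; linarith
    linarith
  have hw2 : 2 ≤ 2.72 * w := by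
    have : w * Real.exp 1 ≤ w * 2.72 := by gcongr; linarith
    linarith
  set v : ℝ := 2 * w / U + 2 with hv
  have hwU : 0 < w / U := by positivity
  have hv2 : 2 ≤ v := by
    have : 2 * w / U = 2 * (w / U) := by ring
    rw [hv, this]; linarith
  have hwU2 : w ≤ 2.72 * (w / U) ^ 2 := by
    rw [div_pow, mul_div_assoc', le_div_iff₀ (by positivity)]
    nlinarith
  have hwU3 : 1 / 2 ≤ w / U := by
    by_contra h
    push Not at h
    have : (w / U) ^ 2 < (1 / 2) ^ 2 := by
      apply pow_lt_pow_left₀ h hwU.le (by norm_num)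
    nlinarith
  have hv6 : v ≤ 6 * (w / U) := by
    have : 2 * w / U = 2 * (w / U) := by ring
    rw [hv, this]; linarith
  -- lower bound for log v
  have hlogv : (u + 1) / 4 ≤ Real.log v := by
    have h1 : Real.exp ((u + 1) / 2) ≤ v ^ 2 := by
      have h2 : w + 2 ≤ v ^ 2 := by
        have : v = 2 * (w / U) + 2 := by rw [hv]; ring
        rw [this]
        nlinarith
      have h3 : Real.exp (u + 1) ≤ (w + 2) ^ 2 := by
        have h4 : Real.exp (u + 1) ≤ w * Real.exp 1 ^ 2 := by
          rw [hw, ← Real.exp_nat_mul, ← Real.exp_add]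
          apply Real.exp_le_exp.mpr
          push_cast
          linarith
        have h5 : Real.exp 1 ^ 2 ≤ 8 := by nlinarith [Real.exp_pos 1]
        have h6 : w * Real.exp 1 ^ 2 ≤ w * 8 := by gcongr
        nlinarith [sq_nonneg (w - 2)]
      have h7 : Real.exp ((u + 1) / 2) ^ 2 ≤ (w + 2) ^ 2 := by
        rw [← Real.exp_nat_mul]
        have : ((2 : ℕ) : ℝ) * ((u + 1) / 2) = u + 1 := by push_cast; ring
        rw [this]
        exact h3
      have h8 : Real.exp ((u + 1) / 2) ≤ w + 2 := by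
        apply (pow_le_pow_iff_left₀ (Real.exp_pos _).le (by linarith) (two_ne_zero)).mp h7
      linarith
    have h9 : (u + 1) / 2 ≤ Real.log (v ^ 2) := by
      rw [Real.le_log_iff_exp_le (by positivity)]
      exact h1
    rw [Real.log_pow] at h9
    push_cast at h9
    linarith
  have hlogv0 : 0 < Real.log v := Real.log_pos (by linarith)
  have hsub : (range N).filter (fun n : ℕ => n.Prime ∧ u - 1 / U < Real.log n ∧ Real.log n < u) ⊆
      (Ioc ⌊w⌋₊ ⌊w + v⌋₊).filter Nat.Prime := by
    intro n hn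
    rw [mem_filter] at hn
    obtain ⟨-, hp, h1, h2⟩ := hn
    have hn0 : (0 : ℝ) < n := by exact_mod_cast hp.pos
    have h3 : w < n := by
      rw [hw, ← Real.lt_log_iff_exp_lt hn0]; exact h1
    have h4 : (n : ℝ) < Real.exp u := by
      rw [← Real.log_lt_iff_lt_exp hn0]; exact h2
    rw [mem_filter, mem_Ioc]
    refine ⟨⟨(Nat.floor_lt hw0.le).mpr h3, Nat.le_floor ?_⟩, hp⟩
    have h5 : Real.exp u = w * Real.exp (1 / U) := by
      rw [hw, ← Real.exp_add]; congr 1; ring
    have h6 : Real.exp (1 / U) ≤ 1 + 2 * (1 / U) := by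
      have h7 := Real.abs_exp_sub_one_le (x := 1 / U) (by rw [abs_of_nonneg (by positivity)]; exact h1U)
      rw [abs_of_nonneg (by positivity : (0 : ℝ) ≤ 1 / U)] at h7
      have := (abs_le.mp h7).2
      linarith
    have h7 : w * Real.exp (1 / U) ≤ w * (1 + 2 * (1 / U)) := by gcongr
    have h8 : w * (1 + 2 * (1 / U)) = w + 2 * w / U := by ring
    rw [h5] at h4
    linarith
  have hcard : (((range N).filter (fun n : ℕ => n.Prime ∧ u - 1 / U < Real.log n ∧ Real.log n < u)).card : ℝ)
      ≤ C * v / Real.log v := by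
    refine le_trans ?_ (hBT w v hw0.le hv2)
    exact_mod_cast Finset.card_le_card hsub
  have hterm : ∀ n ∈ (range N).filter (fun n : ℕ => n.Prime ∧ u - 1 / U < Real.log n ∧ Real.log n < u),
      (1 / (n : ℝ)) ≤ 1 / w := by
    intro n hn
    rw [mem_filter] at hn
    obtain ⟨-, hp, h1, h2⟩ := hn
    have hn0 : (0 : ℝ) < n := by exact_mod_cast hp.pos
    have h3 : w < n := by
      rw [hw, ← Real.lt_log_iff_exp_lt hn0]; exact h1
    gcongr
  refine (Finset.sum_le_card_nsmul _ _ _ hterm).trans ?_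
  rw [nsmul_eq_mul]
  calc _ ≤ (C * v / Real.log v) * (1 / w) := by gcongr
    _ ≤ (C * (6 * (w / U)) / ((u + 1) / 4)) * (1 / w) := by gcongr
    _ = 24 * C / (U * (u + 1)) := by
      field_simp
      ring

/-- The bump used in the mean square estimate. -/
noncomputable def bb : ContDiffBump (1 / 2 : ℝ) := ⟨1 / 4, 1 / 2, by norm_num, by norm_num⟩

lemma bb_zero {x : ℝ} (h : x ≤ 0 ∨ 1 ≤ x) : bb x = 0 := by
  apply ContDiffBump.zero_of_le_dist
  rw [Real.dist_eq]
  change (1 / 2 : ℝ) ≤ |x - 1 / 2|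
  rcases h with h | h
  · rw [abs_of_nonpos (by linarith)]; linarith
  · rw [abs_of_nonneg (by linarith)]; linarith

lemma bb_one {x : ℝ} (h1 : 1 / 4 ≤ x) (h2 : x ≤ 3 / 4) : bb x = 1 := by
  apply ContDiffBump.one_of_mem_closedBall
  rw [Metric.mem_closedBall, Real.dist_eq]
  change |x - 1 / 2| ≤ 1 / 4
  rw [abs_le]
  constructor <;> linarith

/-- Fourier transform of the bump. -/
noncomputable def bbF (η : ℝ) : ℂ := ∫ v : ℝ, Complex.exp (((-2 * Real.pi * v * η : ℝ) : ℂ) * I) * (bb v : ℂ)

lemma bbF_int (g : ℝ → ℝ) (hg : Continuous g) :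
    Integrable (fun v : ℝ => Complex.exp (((g v : ℝ) : ℂ) * I) * (bb v : ℂ)) := by
  apply Continuous.integrable_of_hasCompactSupport
  · have := bb.continuous
    fun_prop
  · apply HasCompactSupport.mul_left
    exact (bb.hasCompactSupport).comp_left (g := fun x : ℝ => (x : ℂ)) (by simp)

lemma bbF_lower {η : ℝ} (hη : |η| ≤ 1 / (2 * Real.pi)) : 1 / 4 ≤ ‖bbF η‖ := by
  have hpi : 0 < Real.pi := Real.pi_pos
  have h1 : Complex.exp (((Real.pi * η : ℝ) : ℂ) * I) * bbF η =
      ∫ v : ℝ, Complex.exp (((-(2 * Real.pi * (v - 1 / 2) * η) : ℝ) : ℂ) * I) * (bb v : ℂ) := by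
    unfold bbF
    rw [← integral_const_mul]
    congr 1
    funext v
    rw [← mul_assoc, ← Complex.exp_add]
    congr 2
    push_cast
    ring
  have h2 : ‖Complex.exp (((Real.pi * η : ℝ) : ℂ) * I) * bbF η‖ = ‖bbF η‖ := by
    rw [norm_mul, Complex.norm_exp_ofReal_mul_I, one_mul]
  rw [← h2, h1]
  refine le_trans ?_ (Complex.re_le_norm _)
  have h3 := integral_re (bbF_int (fun v => (-(2 * Real.pi * (v - 1 / 2) * η))) (by fun_prop))
  have h4 : ∀ z : ℂ, RCLike.re z = z.re := fun z => rfl
  simp only [h4] at h3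
  rw [← h3]
  have h5 : ∫ v : ℝ, (Set.Icc (1 / 4 : ℝ) (3 / 4)).indicator (fun _ => (1 / 2 : ℝ)) v = 1 / 4 := by
    rw [integral_indicator measurableSet_Icc]
    simp
    norm_num
  rw [← h5]
  apply integral_mono
  · apply IntegrableOn.integrable_indicator _ measurableSet_Icc
    exact integrableOn_const (by simp)
  · exact (bbF_int (fun v => (-(2 * Real.pi * (v - 1 / 2) * η))) (by fun_prop)).re
  · intro v
    simp only
    have h6 : (Complex.exp (((-(2 * Real.pi * (v - 1 / 2) * η) : ℝ) : ℂ) * I) * (bb v : ℂ)).re =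
        Real.cos (2 * Real.pi * (v - 1 / 2) * η) * bb v := by
      rw [Complex.re_mul_ofReal, Complex.exp_ofReal_mul_I_re, Real.cos_neg]
    rw [h6]
    by_cases hv : v ≤ 0 ∨ 1 ≤ v
    · rw [bb_zero hv, mul_zero]
      rw [Set.indicator_of_notMem]
      intro h
      rw [Set.mem_Icc] at h
      rcases hv with hv | hv <;> linarith
    · push Not at hv
      have h7 : |2 * Real.pi * (v - 1 / 2) * η| ≤ 1 / 2 := by
        have e1 : |2 * Real.pi * (v - 1 / 2) * η| = (2 * Real.pi) * (|v - 1 / 2| * |η|) := by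
          rw [abs_mul, abs_mul, abs_of_pos (by positivity : (0 : ℝ) < 2 * Real.pi)]; ring
        have e2 : |v - 1 / 2| ≤ 1 / 2 := by rw [abs_le]; constructor <;> linarith
        have e3 : |v - 1 / 2| * |η| ≤ (1 / 2) * (1 / (2 * Real.pi)) := by gcongr
        rw [e1]
        calc _ ≤ (2 * Real.pi) * ((1 / 2) * (1 / (2 * Real.pi))) := by gcongr
          _ = 1 / 2 := by field_simp
      have h8 : 1 / 2 ≤ Real.cos (2 * Real.pi * (v - 1 / 2) * η) := by
        have h9 := Real.one_sub_sq_div_two_le_cos (x := 2 * Real.pi * (v - 1 / 2) * η)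
        have h10 : (2 * Real.pi * (v - 1 / 2) * η) ^ 2 ≤ (1 / 2) ^ 2 := by
          rw [← sq_abs (2 * Real.pi * (v - 1 / 2) * η)]
          gcongr
        linarith
      have hb0 := bb.nonneg (x := v)
      by_cases hv' : v ∈ Set.Icc (1 / 4 : ℝ) (3 / 4)
      · rw [Set.indicator_of_mem hv', bb_one hv'.1 hv'.2]
        linarith
      · rw [Set.indicator_of_notMem hv']
        exact mul_nonneg (by linarith) hb0

section
variable (b : ℕ → ℂ) (s U : ℝ) (N : ℕ)

/-- Smoothed finite sum. -/
noncomputable def fN (u : ℝ) : ℂ :=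
  ∑ n ∈ range N, LSeries.term b ((1 + s : ℝ) : ℂ) n * (bb (U * (u - Real.log n)) : ℂ)

lemma fN_contDiff : ContDiff ℝ (⊤ : ℕ∞) (fN b s U N) := by
  unfold fN
  apply ContDiff.sum
  intro n _
  apply ContDiff.mul contDiff_const
  apply Complex.ofRealCLM.contDiff.comp
  apply ContDiff.comp (bb.contDiff)
  fun_prop

lemma fN_compact (hU : 0 < U) : HasCompactSupport (fN b s U N) := by
  have key : ∀ n ∈ range N, HasCompactSupport (fun u : ℝ =>
      LSeries.term b ((1 + s : ℝ) : ℂ) n * (bb (U * (u - Real.log n)) : ℂ)) := by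
    intro n _
    apply HasCompactSupport.intro (K := Set.Icc (Real.log n) (Real.log n + 1 / U)) isCompact_Icc
    intro x hx
    rw [Set.mem_Icc, not_and_or] at hx
    rw [bb_zero, Complex.ofReal_zero, mul_zero]
    rcases hx with hx | hx
    · left
      push Not at hx
      apply mul_nonpos_of_nonneg_of_nonpos hU.le
      linarith
    · right
      push Not at hx
      have : 1 / U ≤ x - Real.log n := by linarith
      calc 1 = U * (1 / U) := by field_simp
        _ ≤ U * (x - Real.log n) := by gcongr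
  apply HasCompactSupport.intro (K := ⋃ n ∈ range N, tsupport (fun u : ℝ =>
      LSeries.term b ((1 + s : ℝ) : ℂ) n * (bb (U * (u - Real.log n)) : ℂ)))
  · exact (range N).isCompact_biUnion (fun n hn => key n hn)
  · intro x hx
    unfold fN
    apply Finset.sum_eq_zero
    intro n hn
    by_contra h
    apply hx
    apply Set.mem_biUnion (x := n) (by exact_mod_cast hn)
    exact subset_tsupport _ h

/-- `fN` as a Schwartz function. -/
noncomputable def fNs (hU : 0 < U) : SchwartzMap ℝ ℂ :=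
  HasCompactSupport.toSchwartzMap (fN_compact b s U N hU) (fN_contDiff b s U N)

lemma term_shift (t : ℝ) (n : ℕ) : LSeries.term b (1 + s + t * I) n =
    LSeries.term b ((1 + s : ℝ) : ℂ) n * Complex.exp (((-(t * Real.log n) : ℝ) : ℂ) * I) := by
  rw [LSeries.term_def, LSeries.term_def]
  by_cases hn : n = 0
  · simp [hn]
  · rw [if_neg hn, if_neg hn]
    have hn' : (n : ℂ) ≠ 0 := by exact_mod_cast hn
    have h1 : (1 + s + t * I : ℂ) = ((1 + s : ℝ) : ℂ) + (t * I) := by
      push_cast; ring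
    rw [h1, Complex.cpow_add _ _ hn']
    have h2 : (n : ℂ) ^ ((t : ℂ) * I) = Complex.exp (((t * Real.log n : ℝ) : ℂ) * I) := by
      rw [Complex.cpow_def_of_ne_zero hn', ← Complex.natCast_log]
      congr 1
      push_cast
      ring
    rw [h2]
    have h3 : (((-(t * Real.log n) : ℝ) : ℂ) * I) = -(((t * Real.log n : ℝ) : ℂ) * I) := by
      push_cast; ring
    rw [h3, Complex.exp_neg]
    have h4 := Complex.exp_ne_zero (((t * Real.log n : ℝ) : ℂ) * I)
    field_simp

lemma fourier_fN (hU : 0 < U) (ξ : ℝ) : (𝓕 (fNs b s U N hU)) ξ =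
    ((U⁻¹ : ℝ) : ℂ) * bbF (ξ / U) *
      ∑ n ∈ range N, LSeries.term b (1 + s + ((2 * Real.pi * ξ : ℝ) : ℂ) * I) n := by
  rw [SchwartzMap.fourier_coe, Real.fourier_real_eq_integral_exp_smul]
  have h1 : ∀ v : ℝ, Complex.exp (((-2 * Real.pi * v * ξ : ℝ) : ℂ) * I) • (fNs b s U N hU) v =
      ∑ n ∈ range N, LSeries.term b ((1 + s : ℝ) : ℂ) n *
        (Complex.exp (((-2 * Real.pi * v * ξ : ℝ) : ℂ) * I) * (bb (U * (v - Real.log n)) : ℂ)) := by
    intro v
    change _ • fN b s U N v = _
    unfold fN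
    rw [smul_eq_mul, Finset.mul_sum]
    apply Finset.sum_congr rfl
    intro n _
    ring
  simp only [h1]
  have hint : ∀ n : ℕ, Integrable (fun v : ℝ =>
      (Complex.exp (((-2 * Real.pi * v * ξ : ℝ) : ℂ) * I) * (bb (U * (v - Real.log n)) : ℂ))) := by
    intro n
    have h2 := bbF_int (fun v => -2 * Real.pi * (U⁻¹ * v + Real.log n) * ξ) (by fun_prop)
    have h3 := (h2.comp_mul_left' hU.ne').comp_sub_right (Real.log n)
    refine h3.congr (Filter.Eventually.of_forall fun v => ?_)
    simp only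
    congr 2
    field_simp
    ring_nf
  rw [integral_finsetSum _ (fun n _ => (hint n).const_mul _), Finset.mul_sum]
  apply Finset.sum_congr rfl
  intro n _
  rw [integral_const_mul, term_shift]
  have h4 : ∫ v : ℝ, (Complex.exp (((-2 * Real.pi * v * ξ : ℝ) : ℂ) * I) *
      (bb (U * (v - Real.log n)) : ℂ)) = ((U⁻¹ : ℝ) : ℂ) * bbF (ξ / U) *
        Complex.exp (((-(2 * Real.pi * ξ * Real.log n) : ℝ) : ℂ) * I) := by
    have h5 : ∀ v : ℝ, (Complex.exp (((-2 * Real.pi * v * ξ : ℝ) : ℂ) * I) *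
        (bb (U * (v - Real.log n)) : ℂ)) =
        (fun x : ℝ => (fun z : ℝ => Complex.exp (((-2 * Real.pi * (U⁻¹ * z + Real.log n) * ξ : ℝ) : ℂ) * I) *
          (bb z : ℂ)) (U * x)) (v - Real.log n) := by
      intro v
      simp only
      congr 2
      field_simp
      ring_nf
    simp only [h5]
    rw [integral_sub_right_eq_self (fun x : ℝ => (fun z : ℝ => Complex.exp (((-2 * Real.pi * (U⁻¹ * z + Real.log n) * ξ : ℝ) : ℂ) * I) *
          (bb z : ℂ)) (U * x)) (Real.log n),
          Measure.integral_comp_mul_left (fun z : ℝ =>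
            Complex.exp (((-2 * Real.pi * (U⁻¹ * z + Real.log n) * ξ : ℝ) : ℂ) * I) * (bb z : ℂ)) U,
          abs_of_pos (by positivity), Complex.real_smul]
    rw [mul_assoc]
    congr 1
    unfold bbF
    rw [← integral_mul_const]
    congr 1
    funext z
    rw [mul_assoc (Complex.exp _) (bb z : ℂ) (Complex.exp _), mul_comm (bb z : ℂ) (Complex.exp _),
      ← mul_assoc, ← Complex.exp_add]
    congr 2
    push_cast
    field_simp
    ring
  rw [h4]
  ring

end

lemma term_norm_le {b : ℕ → ℂ} {s : ℝ} (hs : 0 < s) (hb : ∀ n, ‖b n‖ ≤ 1)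
    (n : ℕ) : ‖LSeries.term b ((1 + s : ℝ) : ℂ) n‖ ≤ 1 / (n : ℝ) := by
  rw [LSeries.norm_term_eq]
  by_cases hn : n = 0
  · simp [hn]
  · rw [if_neg hn, Complex.ofReal_re]
    have hn1 : (1 : ℝ) ≤ n := by exact_mod_cast Nat.one_le_iff_ne_zero.mpr hn
    have h1 : (n : ℝ) ≤ (n : ℝ) ^ (1 + s) := by
      calc (n : ℝ) = (n : ℝ) ^ (1 : ℝ) := (Real.rpow_one _).symm
        _ ≤ (n : ℝ) ^ (1 + s) := by
          apply Real.rpow_le_rpow_of_exponent_le hn1
          linarith
    have h2 := hb n
    have h3 : (0 : ℝ) < n := by linarith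
    gcongr

lemma fN_bound {C : ℝ} (hC : 0 < C)
    (hBT : ∀ u v : ℝ, 0 ≤ u → 2 ≤ v →
      (((Finset.Ioc ⌊u⌋₊ ⌊u + v⌋₊).filter Nat.Prime).card : ℝ) ≤ C * v / Real.log v)
    (y U s : ℝ) (hy : 2 ≤ y) (hU : 1 ≤ U) (hUy : U ≤ Real.sqrt y) (hs : 0 < s)
    (b : ℕ → ℂ) (hb : ∀ n, ‖b n‖ ≤ 1) (hb' : ∀ n, b n ≠ 0 → n.Prime ∧ y < n) (N : ℕ) (u : ℝ) :
    ‖fN b s U N u‖ ≤ (Set.Ioi (Real.log y)).indicator (fun u => 24 * C / (U * (u + 1))) u := by
  have hU0 : 0 < U := by linarith
  have hy0 : 0 < y := by linarith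
  by_cases hu : Real.log y < u
  · rw [Set.indicator_of_mem (show u ∈ Set.Ioi (Real.log y) from hu)]
    refine le_trans ?_ (window_bound hC hBT y U u hy hU hUy hu N)
    unfold fN
    rw [Finset.sum_filter]
    refine (norm_sum_le _ _).trans (Finset.sum_le_sum fun n _ => ?_)
    split_ifs with h
    · rw [norm_mul]
      calc _ ≤ (1 / (n : ℝ)) * 1 := by
            apply mul_le_mul (term_norm_le hs hb n) _ (norm_nonneg _) (by positivity)
            rw [Complex.norm_real, Real.norm_eq_abs, abs_of_nonneg bb.nonneg]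
            exact bb.le_one
        _ = _ := mul_one _
    · by_cases hbn : b n = 0
      · have : LSeries.term b ((1 + s : ℝ) : ℂ) n = 0 := by
          rw [LSeries.term_def, hbn]; simp
        rw [this]; simp
      · obtain ⟨hp, hyn⟩ := hb' n hbn
        rw [bb_zero]
        · simp
        · by_contra h'
          push Not at h'
          apply h
          refine ⟨hp, ?_, ?_⟩
          · have : U * (u - Real.log n) < U * (1 / U) := by
              rw [mul_one_div_cancel hU0.ne']; exact h'.2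
            have := lt_of_mul_lt_mul_left this hU0.le
            linarith
          · have := (mul_pos_iff_of_pos_left hU0).mp h'.1
            linarith
  · rw [Set.indicator_of_notMem (show u ∉ Set.Ioi (Real.log y) from hu)]
    unfold fN
    rw [Finset.sum_eq_zero, norm_zero]
    intro n _
    by_cases hbn : b n = 0
    · have : LSeries.term b ((1 + s : ℝ) : ℂ) n = 0 := by
        rw [LSeries.term_def, hbn]; simp
      rw [this]; simp
    · obtain ⟨hp, hyn⟩ := hb' n hbn
      rw [bb_zero, Complex.ofReal_zero, mul_zero]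
      left
      apply mul_nonpos_of_nonneg_of_nonpos hU0.le
      have : Real.log y ≤ Real.log n := Real.log_le_log hy0 hyn.le
      linarith

theorem meanSquare (hBT : BrunTitchmarsh) : MeanSquare := by
  obtain ⟨C, hC, hBT⟩ := hBT
  refine ⟨32 * Real.pi * (24 * C) ^ 2, by positivity, ?_⟩
  intro y U s hy hU hUy hs b hb hb'
  have hU0 : 0 < U := by linarith
  have hy0 : 0 < y := by linarith
  have hlogy : 0 < Real.log y := Real.log_pos (by linarith)
  have hpi := Real.pi_pos
  -- the bound for finite sums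
  have hfin : ∀ N : ℕ, ∫ t in (-U)..U, ‖∑ n ∈ range N, LSeries.term b (1 + s + t * I) n‖ ^ 2 ≤
      32 * Real.pi * (24 * C) ^ 2 / Real.log y := by
    intro N
    set S : ℝ → ℂ := fun t => ∑ n ∈ range N, LSeries.term b (1 + s + t * I) n with hS
    have h1 : ∫ ξ in (-(U / (2 * Real.pi)))..(U / (2 * Real.pi)), ‖S (2 * Real.pi * ξ)‖ ^ 2 =
        (2 * Real.pi)⁻¹ * ∫ t in (-U)..U, ‖S t‖ ^ 2 := by
      have := intervalIntegral.integral_comp_mul_left (a := -(U / (2 * Real.pi)))
        (b := U / (2 * Real.pi)) (fun t => ‖S t‖ ^ 2) (c := 2 * Real.pi) (by positivity)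
      rw [this, smul_eq_mul]
      congr 2
      · field_simp
      · field_simp
    have h2 : ∀ ξ ∈ Set.Ioc (-(U / (2 * Real.pi))) (U / (2 * Real.pi)), ‖S (2 * Real.pi * ξ)‖ ^ 2 ≤
        16 * U ^ 2 * ‖(𝓕 (fNs b s U N hU0)) ξ‖ ^ 2 := by
      intro ξ hξ
      rw [fourier_fN, norm_mul, norm_mul, Complex.norm_real, Real.norm_eq_abs,
        abs_of_pos (by positivity)]
      have h3 : 1 / 4 ≤ ‖bbF (ξ / U)‖ := by
        apply bbF_lower
        rw [abs_div, abs_of_pos hU0, div_le_iff₀ hU0]
        have : |ξ| ≤ U / (2 * Real.pi) := by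
          rw [abs_le]
          exact ⟨hξ.1.le, hξ.2⟩
        calc |ξ| ≤ U / (2 * Real.pi) := this
          _ = _ := by ring
      have h4 : 16 * U ^ 2 * (U⁻¹ * ‖bbF (ξ / U)‖ * ‖∑ n ∈ range N,
          LSeries.term b (1 + s + ((2 * Real.pi * ξ : ℝ) : ℂ) * I) n‖) ^ 2 =
          16 * ‖bbF (ξ / U)‖ ^ 2 * ‖S (2 * Real.pi * ξ)‖ ^ 2 := by
        rw [hS]
        field_simp
      rw [h4]
      have h5 : (1 / 4 : ℝ) ^ 2 ≤ ‖bbF (ξ / U)‖ ^ 2 := by gcongr
      have h6 : 0 ≤ ‖S (2 * Real.pi * ξ)‖ ^ 2 := by positivity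
      nlinarith
    have hcontS : Continuous S := by
      have : S = fun t : ℝ => ∑ n ∈ range N, LSeries.term b ((1 + s : ℝ) : ℂ) n *
          Complex.exp (((-(t * Real.log n) : ℝ) : ℂ) * I) := by
        funext t
        rw [hS]
        simp only [term_shift]
      rw [this]
      fun_prop
    have hintF : Integrable (fun ξ : ℝ => 16 * U ^ 2 * ‖(𝓕 (fNs b s U N hU0)) ξ‖ ^ 2) := by
      apply Integrable.const_mul
      exact ((𝓕 (fNs b s U N hU0)).memLp 2 volume).integrable_norm_pow (by norm_num)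
    have hle : (-(U / (2 * Real.pi))) ≤ (U / (2 * Real.pi)) := by
      have : 0 < U / (2 * Real.pi) := by positivity
      linarith
    have h7 : ∫ ξ in (-(U / (2 * Real.pi)))..(U / (2 * Real.pi)), ‖S (2 * Real.pi * ξ)‖ ^ 2 ≤
        ∫ ξ : ℝ, 16 * U ^ 2 * ‖(𝓕 (fNs b s U N hU0)) ξ‖ ^ 2 := by
      rw [intervalIntegral.integral_of_le hle]
      refine (setIntegral_mono_on ?_ hintF.integrableOn measurableSet_Ioc h2).trans ?_
      · have h8 : Continuous (fun ξ : ℝ => ‖S (2 * Real.pi * ξ)‖ ^ 2) := by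
          exact ((hcontS.comp (by fun_prop)).norm).pow 2
        exact (h8.intervalIntegrable _ _).1
      · apply setIntegral_le_integral hintF
        exact Filter.Eventually.of_forall fun ξ => by positivity
    rw [integral_const_mul, SchwartzMap.integral_norm_sq_fourier, h1] at h7
    -- the L² norm of fN
    have h9 : ∫ u : ℝ, ‖(fNs b s U N hU0) u‖ ^ 2 ≤ (24 * C / U) ^ 2 / Real.log y := by
      have hg : ∀ u : ℝ, ‖(fNs b s U N hU0) u‖ ^ 2 ≤
          (Set.Ioi (Real.log y)).indicator (fun u => (24 * C / U) ^ 2 * (1 / (u + 1) ^ 2)) u := by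
        intro u
        have h10 := fN_bound hC hBT y U s hy hU hUy hs b hb hb' N u
        have h11 : ‖(fNs b s U N hU0) u‖ = ‖fN b s U N u‖ := rfl
        rw [h11]
        by_cases hu : u ∈ Set.Ioi (Real.log y)
        · rw [Set.indicator_of_mem hu] at h10 ⊢
          calc ‖fN b s U N u‖ ^ 2 ≤ (24 * C / (U * (u + 1))) ^ 2 := by gcongr
            _ = _ := by
              have : u + 1 ≠ 0 := by
                have : Real.log y < u := hu
                linarith
              field_simp
        · rw [Set.indicator_of_notMem hu] at h10 ⊢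
          have : ‖fN b s U N u‖ = 0 := le_antisymm h10 (norm_nonneg _)
          rw [this]; norm_num
      have hd : ∀ x ∈ Set.Ici (Real.log y), HasDerivAt (fun u : ℝ => -(1 / (u + 1)))
          (1 / (x + 1) ^ 2) x := by
        intro x hx
        have hx' : x + 1 ≠ 0 := by
          have : Real.log y ≤ x := hx
          linarith
        have h12 := ((hasDerivAt_id x).add_const (1 : ℝ)).inv hx'
        have h13 := h12.neg
        refine HasDerivAt.congr_deriv (f := fun u : ℝ => -(1 / (u + 1))) ?_ (?_ : -(-(1 : ℝ) / (id x + 1) ^ 2) = _)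
        · refine h13.congr_of_eventuallyEq (Filter.Eventually.of_forall fun u => ?_)
          simp
        · simp only [id]
          ring
      have hpos : ∀ x ∈ Set.Ioi (Real.log y), 0 ≤ 1 / (x + 1) ^ 2 := fun x _ => by positivity
      have htend : Filter.Tendsto (fun u : ℝ => -(1 / (u + 1))) Filter.atTop (nhds 0) := by
        have h14 : Filter.Tendsto (fun u : ℝ => (u + 1)⁻¹) Filter.atTop (nhds 0) :=
          tendsto_inv_atTop_zero.comp (Filter.tendsto_atTop_add_const_right _ _ Filter.tendsto_id)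
        have h15 := h14.neg
        rw [neg_zero] at h15
        refine h15.congr fun u => ?_
        simp
      have hint1 : IntegrableOn (fun x : ℝ => 1 / (x + 1) ^ 2) (Set.Ioi (Real.log y)) :=
        integrableOn_Ioi_deriv_of_nonneg' hd hpos htend
      have hval := integral_Ioi_of_hasDerivAt_of_nonneg' hd hpos htend
      have hint2 : Integrable ((Set.Ioi (Real.log y)).indicator
          (fun u => (24 * C / U) ^ 2 * (1 / (u + 1) ^ 2))) := by
        apply IntegrableOn.integrable_indicator _ measurableSet_Ioi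
        exact hint1.const_mul _
      calc _ ≤ ∫ u : ℝ, (Set.Ioi (Real.log y)).indicator
            (fun u => (24 * C / U) ^ 2 * (1 / (u + 1) ^ 2)) u := by
            apply integral_mono _ hint2 hg
            exact ((fNs b s U N hU0).memLp 2 volume).integrable_norm_pow (by norm_num)
        _ = (24 * C / U) ^ 2 * (1 / (Real.log y + 1)) := by
            rw [integral_indicator measurableSet_Ioi, integral_const_mul, hval]
            ring
        _ ≤ (24 * C / U) ^ 2 / Real.log y := by
            rw [div_eq_mul_one_div ((24 * C / U) ^ 2)]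
            gcongr
            linarith
    have h16 : ∫ t in (-U)..U, ‖S t‖ ^ 2 ≤ (2 * Real.pi) * (16 * U ^ 2 * ((24 * C / U) ^ 2 / Real.log y)) := by
      have h17 : (2 * Real.pi)⁻¹ * ∫ t in (-U)..U, ‖S t‖ ^ 2 ≤ 16 * U ^ 2 * ((24 * C / U) ^ 2 / Real.log y) := by
        refine h7.trans ?_
        gcongr
      rw [inv_mul_le_iff₀ (by positivity)] at h17
      exact h17
    refine h16.trans (le_of_eq ?_)
    field_simp
    ring
  -- passage to the limit
  have hsummable : LSeriesSummable b ((1 + s : ℝ) : ℂ) :=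
    LSeriesSummable_of_bounded_of_one_lt_real (m := 1) (fun n _ => hb n) (by linarith)
  have hbd : ∀ (N : ℕ) (t : ℝ), ‖∑ n ∈ range N, LSeries.term b (1 + s + t * I) n‖ ≤
      ∑' n, ‖LSeries.term b ((1 + s : ℝ) : ℂ) n‖ := by
    intro N t
    refine (norm_sum_le _ _).trans ?_
    have h1 : ∀ n ∈ range N, ‖LSeries.term b (1 + s + t * I) n‖ = ‖LSeries.term b ((1 + s : ℝ) : ℂ) n‖ := by
      intro n _
      rw [term_shift, norm_mul, Complex.norm_exp_ofReal_mul_I, mul_one]
    rw [Finset.sum_congr rfl h1]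
    exact hsummable.norm.sum_le_tsum _ (fun _ _ => norm_nonneg _)
  have hlim : ∀ t : ℝ, Filter.Tendsto (fun N : ℕ => ‖∑ n ∈ range N, LSeries.term b (1 + s + t * I) n‖ ^ 2)
      Filter.atTop (nhds (‖LSeries b (1 + s + t * I)‖ ^ 2)) := by
    intro t
    have h1 : LSeriesSummable b (1 + s + t * I) := by
      refine LSeriesSummable_of_bounded_of_one_lt_re (m := 1) (fun n _ => hb n) ?_
      simp
      exact hs
    exact ((h1.hasSum.tendsto_sum_nat).norm).pow 2
  have htend := intervalIntegral.tendsto_integral_filter_of_dominated_convergence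
    (μ := volume) (a := -U) (b := U) (l := Filter.atTop)
    (F := fun (N : ℕ) (t : ℝ) => ‖∑ n ∈ range N, LSeries.term b (1 + s + t * I) n‖ ^ 2)
    (f := fun t : ℝ => ‖LSeries b (1 + s + t * I)‖ ^ 2)
    (fun _ => (∑' n, ‖LSeries.term b ((1 + s : ℝ) : ℂ) n‖) ^ 2) ?_ ?_ ?_ ?_
  · exact le_of_tendsto htend (Filter.Eventually.of_forall hfin)
  · refine Filter.Eventually.of_forall fun N => ?_
    apply Continuous.aestronglyMeasurable
    simp only [term_shift]
    fun_prop
  · refine Filter.Eventually.of_forall fun N => Filter.Eventually.of_forall fun t _ => ?_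
    rw [Real.norm_eq_abs, abs_of_nonneg (by positivity)]
    have := hbd N t
    gcongr
  · exact intervalIntegrable_const
  · exact Filter.Eventually.of_forall fun t _ => hlim t

end Hoh
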