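import Pool.Agent.Lib.MP_0bb3d8_nt.Defs
import Pool.Agent.Lib.MP_0bb3d8_nt.HohDefs

set_option autoImplicit false

open Real Filter

namespace Pool.Agent.Lib.MP_0bb3d8_nt

/-- The output of part B in the form used in part A. -/
theorem primesOK_of (h : Hoh.HoheiselPrimes) (hBT : Hoh.BrunTitchmarsh) :
    ∃ c c₁ C₁ X₀ : ℝ, PrimesOK c c₁ C₁ X₀ := by
  obtain ⟨δ, c, x₀, hδ0, hδ1, hc, hx₀, hx⟩ := h
  obtain ⟨C, hC, hbt⟩ := hBT
  -- log (2x) ≤ 2/(1-δ) * log (x^(1-δ)) for x ≥ 2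
  have hδ' : 0 < 1 - δ := by linarith
  -- choose X₀ so that x^(1-δ) ≥ 2
  have hlim : Tendsto (fun x : ℝ => x ^ (1 - δ)) atTop atTop := tendsto_rpow_atTop hδ'
  obtain ⟨X1, hX1⟩ := (hlim.eventually_ge_atTop 2).exists_forall_of_atTop
  refine ⟨δ, c, C * (2 / (1 - δ)), max (max x₀ 2) X1, hδ0, hδ1, hc, ?_, ?_⟩
  · exact le_trans (by linarith [le_max_right x₀ 2]) (le_max_left _ _)
  intro x hxX
  have hx0 : x₀ ≤ x := (le_max_left _ _).trans ((le_max_left _ _).trans hxX)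
  have hx2 : 2 ≤ x := (le_max_right _ _).trans ((le_max_left _ _).trans hxX)
  have hx1 : X1 ≤ x := (le_max_right _ _).trans hxX
  have hpow : 2 ≤ x ^ (1 - δ) := hX1 x hx1
  have hxpos : 0 < x := by linarith
  have hlog : 0 < Real.log x := Real.log_pos (by linarith)
  have hpowle : x ^ (1 - δ) ≤ x := by
    calc x ^ (1 - δ) ≤ x ^ (1 : ℝ) := Real.rpow_le_rpow_of_exponent_le (by linarith) (by linarith)
      _ = x := Real.rpow_one x
  set S := (Finset.Ioc ⌊x⌋₊ ⌊x + x ^ (1 - δ)⌋₊).filter Nat.Prime with hS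
  have hmem : ∀ p ∈ S, Real.log x ≤ Real.log p ∧ Real.log p ≤ 2 * Real.log x := by
    intro p hp
    rw [hS, Finset.mem_filter, Finset.mem_Ioc] at hp
    have hxp : x < p := Nat.lt_of_floor_lt hp.1.1
    have hpx : (p : ℝ) ≤ x + x ^ (1 - δ) := (Nat.le_floor_iff (by positivity)).mp hp.1.2
    refine ⟨Real.log_le_log hxpos hxp.le, ?_⟩
    calc Real.log p ≤ Real.log (x ^ 2) := by
          apply Real.log_le_log (by linarith)
          nlinarith
      _ = 2 * Real.log x := by rw [Real.log_pow]; norm_num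
  constructor
  · calc c * x ^ (1 - δ) = (c * x ^ (1 - δ) / Real.log x) * Real.log x := by field_simp
      _ ≤ (S.card : ℝ) * Real.log x := by
          gcongr
          exact hx x hx0
      _ = ∑ _p ∈ S, Real.log x := by rw [Finset.sum_const, nsmul_eq_mul]
      _ ≤ ∑ p ∈ S, Real.log p := Finset.sum_le_sum fun p hp => (hmem p hp).1
  · calc ∑ p ∈ S, Real.log p ≤ ∑ _p ∈ S, 2 * Real.log x :=
          Finset.sum_le_sum fun p hp => (hmem p hp).2
      _ = (S.card : ℝ) * (2 * Real.log x) := by rw [Finset.sum_const, nsmul_eq_mul]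
      _ ≤ (C * x ^ (1 - δ) / Real.log (x ^ (1 - δ))) * (2 * Real.log x) := by
          gcongr
          exact hbt x (x ^ (1 - δ)) hxpos.le hpow
      _ = C * (2 / (1 - δ)) * x ^ (1 - δ) := by
          rw [Real.log_rpow hxpos]
          field_simp

end Pool.Agent.Lib.MP_0bb3d8_nt
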